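import Mathlib
import Pool.Agent.Work.MP_8c679b_co.Six.Cut

-- merged part: Pool.Agent.Work.MP_8c679b_co.Six.Lift6
section
-- merged part: Pool.Agent.Work.MP_8c679b_co.Six.Lift6A
section
/-!
A weighted form of the theorem of Tutte with a tolerance.
-/

set_option autoImplicit false

namespace Pool.Agent.Work.MP_8c679b_co

open Finset

theorem Lift6_wt {X Λ : Type} [Fintype X] [DecidableEq X] (adj : X → X → Prop)
    (hs : ∀ a b, adj a b → adj b a) (hi : ∀ a, ¬ adj a a) (F : X → Prop)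
    (hF : ∀ a b, F a → F b → a ≠ b → adj a b) (L : Finset Λ) (tl hd : Λ → X) (wt : Λ → ℤ)
    (d : X → ℤ) (w0 : ∀ l ∈ L, 0 ≤ wt l) (d0 : ∀ a, 0 ≤ d a)
    (h1 : ∀ l ∈ L, adj (tl l) (hd l))
    (h2 : ∀ a, ∑ l ∈ L, (if tl l = a then wt l else 0) ≤ 6) (hev : Even (Fintype.card X))
    (ho : ∀ K : Finset X, Odd K.card → (∀ a ∈ K, ¬ F a) →
      6 ≤ ∑ l ∈ L, (if tl l ∉ K ∧ hd l ∈ K then wt l else 0) + ∑ a ∈ K, d a)
    (ht : ((∀ a, ¬ F a) ∧ ∑ a, d a < 12) ∨ ∑ a, d a < 6) :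
    ∃ m : X → X, (∀ a, m (m a) = a) ∧ ∀ a, adj a (m a) := by
  classical
  let H : SimpleGraph X :=
    { Adj := adj
      symm := ⟨hs⟩
      loopless := ⟨hi⟩ }
  obtain ⟨M, hM⟩ : ∃ M : H.Subgraph, M.IsPerfectMatching := by
    refine SimpleGraph.tutte.2 fun u hu => ?_
    unfold SimpleGraph.IsTutteViolator at hu
    set D := ((⊤ : H.Subgraph).deleteVerts u).coe with hD
    have hv : ∀ a, a ∈ ((⊤ : H.Subgraph).deleteVerts u).verts ↔ a ∉ u := fun a => by simp
    let cmp : X → Option D.ConnectedComponent := fun a =>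
      if h : a ∈ u then none else some (D.connectedComponentMk ⟨a, (hv a).2 h⟩)
    let K : D.ConnectedComponent → Finset X := fun c => univ.filter fun a => cmp a = some c
    have mK : ∀ c a, a ∈ K c ↔ cmp a = some c := fun c a => by simp [K]
    have hK : ∀ c, (K c).card = c.supp.ncard := fun c => by
      rw [← Set.ncard_image_of_injective c.supp Subtype.val_injective, ← Set.ncard_coe_finset]
      congr 1
      ext a
      simp only [K, cmp, coe_filter, mem_univ, true_and, Set.mem_ofPred_eq, Set.mem_image,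
        SimpleGraph.ConnectedComponent.mem_supp_iff]
      constructor
      · intro h
        split_ifs at h with h'
        exact ⟨⟨a, (hv a).2 h'⟩, Option.some.inj h, rfl⟩
      · rintro ⟨⟨x, hx⟩, h, rfl⟩
        rw [dif_neg ((hv x).1 hx), h]
    have hadj : ∀ a b c, adj a b → a ∉ u → cmp b = some c → cmp a = some c := by
      intro a b c k2 k1 h
      simp only [cmp] at h ⊢
      split_ifs at h with k3
      rw [dif_neg k1, ← h]
      congr 1
      refine SimpleGraph.ConnectedComponent.connectedComponentMk_eq_of_adj ?_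
      simp [D, H, k1, k3, k2]
    have hnu : ∀ a c, cmp a = some c → a ∉ u := fun a c h k => by simp [cmp, k] at h
    let C := D.oddComponents.toFinset
    let C' := C.filter fun c => ∀ a ∈ K c, ¬ F a
    have hle : 6 * (C'.card : ℤ) ≤ 6 * u.ncard + ∑ a, d a := by
      calc _ = ∑ c ∈ C', (6 : ℤ) := by simp [mul_comm]
        _ ≤ ∑ c ∈ C', (∑ l ∈ L, (if tl l ∈ u ∧ cmp (hd l) = some c then wt l else 0) +
            ∑ a, if cmp a = some c then d a else 0) := by
          refine sum_le_sum fun c hc => ?_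
          obtain ⟨hc1, hc2⟩ := mem_filter.1 hc
          refine (ho (K c) (by
            rw [hK c]
            exact (Set.mem_toFinset (s := D.oddComponents)).1 hc1) hc2).trans ?_
          refine add_le_add (sum_le_sum fun l hl => ?_) (le_of_eq ?_)
          · by_cases k : tl l ∉ K c ∧ hd l ∈ K c
            · rw [if_pos k, if_pos]
              refine ⟨?_, (mK _ _).1 k.2⟩
              by_contra k1
              exact k.1 ((mK _ _).2 (hadj _ _ _ (h1 l hl) k1 ((mK _ _).1 k.2)))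
            · rw [if_neg k]
              split_ifs
              exacts [w0 l hl, le_rfl]
          · simp only [K, sum_filter]
        _ ≤ ∑ l ∈ L, (if tl l ∈ u then wt l else 0) + ∑ a, d a := by
          rw [sum_add_distrib, sum_comm, sum_comm (s := C') (t := univ)]
          refine add_le_add (sum_le_sum fun l hl => ?_) (sum_le_sum fun a _ => ?_)
          · have := w0 l hl
            by_cases k : tl l ∈ u
            · cases cmp (hd l) with
              | none => simpa [k] using this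
              | some x =>
                simp only [k, true_and, Option.some.injEq, sum_ite_eq, if_true]
                split_ifs
                exacts [le_rfl, this]
            · simp [k]
          · have := d0 a
            cases cmp a with
            | none => simpa using this
            | some x =>
              simp only [Option.some.injEq, sum_ite_eq]
              split_ifs
              exacts [le_rfl, this]
        _ ≤ _ := by
          refine add_le_add ?_ le_rfl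
          calc _ = ∑ a ∈ u.toFinset, ∑ l ∈ L, (if tl l = a then wt l else 0) := by
                rw [sum_comm]
                exact sum_congr rfl fun l _ => by simp
            _ ≤ ∑ a ∈ u.toFinset, (6 : ℤ) := sum_le_sum fun a _ => h2 a
            _ = _ := by simp [Set.ncard_eq_toFinset_card', mul_comm]
    have hp := SimpleGraph.odd_ncard_oddComponents D
    have hn : Nat.card ((⊤ : H.Subgraph).deleteVerts u).verts + u.ncard = Fintype.card X := by
      rw [Nat.card_coe_set_eq, ← Nat.card_eq_fintype_card, ← Set.ncard_add_ncard_compl u, add_comm]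
      congr 2
      ext a
      simp
    have hC : D.oddComponents.ncard = C.card := Set.ncard_eq_toFinset_card' _
    rw [Nat.odd_iff, Nat.odd_iff] at hp
    rw [Nat.even_iff] at hev
    rcases ht with ⟨t1, t2⟩ | t2
    · have : C' = C := filter_true_of_mem fun c _ a _ => t1 a
      rw [this] at hle
      omega
    · have k1 : (C.filter fun c => ¬ ∀ a ∈ K c, ¬ F a).card ≤ 1 := by
        refine card_le_one.2 fun c hc c' hc' => ?_
        have k2 := (mem_filter.1 hc).2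
        have k3 := (mem_filter.1 hc').2
        push Not at k2 k3
        obtain ⟨a, a1, a2⟩ := k2
        obtain ⟨b, b1, b2⟩ := k3
        rw [mK] at a1 b1
        by_cases k : a = b
        · subst k
          exact Option.some.inj (a1.symm.trans b1)
        · exact Option.some.inj
            (a1.symm.trans (hadj a b c' (hF a b a2 b2 k) (hnu _ _ a1) b1))
      have k2 := card_filter_add_card_filter_not (s := C) fun c => ∀ a ∈ K c, ¬ F a
      have k3 : C'.card = (C.filter fun c => ∀ a ∈ K c, ¬ F a).card := rfl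
      omega
  rw [SimpleGraph.Subgraph.isPerfectMatching_iff] at hM
  choose m h2 h3 using hM
  exact ⟨m, fun a => (h3 _ _ (h2 a).symm).symm, fun a => (h2 a).adj_sub⟩

theorem Lift6_wtN {X Λ : Type} [DecidableEq X] (N : Finset X) (adj : X → X → Prop)
    (hs : ∀ a b, adj a b → adj b a) (hi : ∀ a, ¬ adj a a) (F : X → Prop)
    (hF : ∀ a b, F a → F b → a ≠ b → adj a b) (L : Finset Λ) (tl hd : Λ → X) (wt : Λ → ℤ)
    (d : X → ℤ) (w0 : ∀ l ∈ L, 0 ≤ wt l) (d0 : ∀ a, 0 ≤ d a)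
    (h1 : ∀ l ∈ L, tl l ∈ N ∧ hd l ∈ N ∧ adj (tl l) (hd l))
    (h2 : ∀ a ∈ N, ∑ l ∈ L, (if tl l = a then wt l else 0) ≤ 6) (hev : Even N.card)
    (ho : ∀ K ⊆ N, Odd K.card → (∀ a ∈ K, ¬ F a) →
      6 ≤ ∑ l ∈ L, (if tl l ∉ K ∧ hd l ∈ K then wt l else 0) + ∑ a ∈ K, d a)
    (ht : ((∀ a ∈ N, ¬ F a) ∧ ∑ a ∈ N, d a < 12) ∨ ∑ a ∈ N, d a < 6) :
    ∃ m : X → X, ∀ a ∈ N, m a ∈ N ∧ m (m a) = a ∧ adj a (m a) := by
  obtain ⟨m, m1, m2⟩ := Lift6_wt (X := N) (Λ := L) (fun a b => adj a b) (fun a b => hs a b)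
    (fun a => hi a) (fun a => F a) (fun a b k1 k2 k3 => hF a b k1 k2 fun k => k3 (Subtype.ext k))
    univ (fun l => ⟨tl l, (h1 l l.2).1⟩) (fun l => ⟨hd l, (h1 l l.2).2.1⟩) (fun l => wt l)
    (fun a => d a) (fun l _ => w0 l l.2) (fun a => d0 a) (fun l _ => (h1 l l.2).2.2)
    (fun a => by
      simp only [Subtype.ext_iff]
      rw [sum_coe_sort L fun l => if tl l = a then wt l else 0]
      exact h2 a a.2)
    (by rwa [Fintype.card_coe])
    (fun K k1 k2 => by
      have e : ∀ a (h : a ∈ N), (⟨a, h⟩ : N) ∈ K ↔ a ∈ K.map (Function.Embedding.subtype _) :=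
        fun a h => (mem_map' (Function.Embedding.subtype _)).symm
      have := ho (K.map (Function.Embedding.subtype _)) (fun a ha => by
        obtain ⟨b, -, rfl⟩ := mem_map.1 ha
        exact b.2) (by rwa [card_map]) (fun a ha => by
        obtain ⟨b, hb, rfl⟩ := mem_map.1 ha
        exact k2 b hb)
      rw [sum_map, ← sum_coe_sort L] at this
      simp only [e]
      exact this)
    (by
      rw [sum_coe_sort N d]
      exact ht.imp (fun k => ⟨fun a => k.1 a a.2, k.2⟩) id)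
  refine ⟨fun a => if h : a ∈ N then m ⟨a, h⟩ else a, fun a ha => ?_⟩
  simp only [dif_pos ha, dif_pos (m ⟨a, ha⟩).2, Subtype.coe_eta, m1]
  exact ⟨(m _).2, trivial, m2 ⟨a, ha⟩⟩

/-- the nodes satisfying `F` need not be matched -/
theorem Lift6_wtF {X Λ : Type} [DecidableEq X] (N : Finset X) (adj : X → X → Prop)
    (hs : ∀ a b, adj a b → adj b a) (hi : ∀ a, ¬ adj a a) (F : X → Prop)
    (L : Finset Λ) (tl hd : Λ → X) (wt : Λ → ℤ)
    (d : X → ℤ) (w0 : ∀ l ∈ L, 0 ≤ wt l) (d0 : ∀ a, 0 ≤ d a)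
    (h1 : ∀ l ∈ L, tl l ∈ N ∧ hd l ∈ N ∧ adj (tl l) (hd l))
    (h2 : ∀ a ∈ N, ∑ l ∈ L, (if tl l = a then wt l else 0) ≤ 6)
    (ho : ∀ K ⊆ N, Odd K.card → (∀ a ∈ K, ¬ F a) →
      6 ≤ ∑ l ∈ L, (if tl l ∉ K ∧ hd l ∈ K then wt l else 0) + ∑ a ∈ K, d a)
    (ht : ((∀ a ∈ N, ¬ F a) ∧ Even N.card ∧ ∑ a ∈ N, d a < 12) ∨ ∑ a ∈ N, d a < 6) :
    ∃ m : X → X, ∀ a ∈ N, ¬ F a → m a ∈ N ∧ m (m a) = a ∧ adj a (m a) := by
  obtain ⟨N', n1, n2, n3⟩ : ∃ N' : Finset (Option X), eraseNone N' = N ∧ Even N'.card ∧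
      (Even N.card → none ∉ N') := by
    by_cases k : Even N.card
    · exact ⟨N.map Function.Embedding.some, eraseNone_map_some _, by rwa [card_map],
        fun _ => by simp⟩
    · exact ⟨insertNone N, eraseNone_insertNone _, by
        rw [card_insertNone]
        exact (Nat.not_even_iff_odd.1 k).add_one, fun h => absurd h k⟩
  have n4 : ∀ a, some a ∈ N' ↔ a ∈ N := fun a => by rw [← n1, mem_eraseNone]
  have n5 : ∑ a ∈ N', Option.elim' 0 d a = ∑ a ∈ N, d a := by rw [← sum_eraseNone, n1]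
  let F' : Option X → Prop := fun o => ∀ a, o = some a → F a
  obtain ⟨m, hm⟩ := Lift6_wtN N'
    (fun o o' => (∃ a b, o = some a ∧ o' = some b ∧ adj a b) ∨ (F' o ∧ F' o' ∧ o ≠ o'))
    (by
      rintro _ _ (⟨a, b, rfl, rfl, h⟩ | ⟨k1, k2, k3⟩)
      exacts [Or.inl ⟨b, a, rfl, rfl, hs _ _ h⟩, Or.inr ⟨k2, k1, k3.symm⟩])
    (by
      rintro _ (⟨a, b, rfl, k, h⟩ | ⟨-, -, k3⟩)
      · cases k
        exact hi _ h
      · exact k3 rfl)
    F' (fun a b k1 k2 k3 => Or.inr ⟨k1, k2, k3⟩) L (fun l => some (tl l)) (fun l => some (hd l))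
    wt (Option.elim' 0 d) w0 (by
      rintro (_ | a)
      exacts [le_rfl, d0 a])
    (fun l hl => ⟨(n4 _).2 (h1 l hl).1, (n4 _).2 (h1 l hl).2.1,
      Or.inl ⟨_, _, rfl, rfl, (h1 l hl).2.2⟩⟩)
    (by
      rintro (_ | a) ha
      · simp
      · simpa only [Option.some.injEq] using h2 a ((n4 a).1 ha))
    n2
    (fun K k1 k2 k3 => by
      have k4 : none ∉ K := fun k => k3 _ k fun a h => by cases h
      have := ho (eraseNone K) (fun a ha => (n4 a).1 (k1 (mem_eraseNone.1 ha)))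
        (by rwa [card_eraseNone_of_not_mem k4])
        (fun a ha h => k3 _ (mem_eraseNone.1 ha) fun b hb => by
          cases hb
          exact h)
      rw [sum_eraseNone] at this
      simpa only [mem_eraseNone] using this)
    (by
      rw [n5]
      refine ht.imp (fun k => ⟨?_, k.2.2⟩) id
      rintro (_ | a) ha h
      exacts [n3 k.2.1 ha, k.1 a ((n4 a).1 ha) (h a rfl)])
  refine ⟨fun a => (m (some a)).getD a, fun a ha hf => ?_⟩
  obtain ⟨m1, m2, ⟨a', b, k1, k2, k3⟩ | k⟩ := hm _ ((n4 a).2 ha)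
  · cases k1
    rw [k2] at m1 m2
    simp only [k2, Option.getD_some, m2]
    exact ⟨(n4 b).1 m1, trivial, k3⟩
  · exact absurd (k.1 a rfl) hf

end Pool.Agent.Work.MP_8c679b_co
end

-- merged part: Pool.Agent.Work.MP_8c679b_co.Six.Lift6B
section
/-!
The matching problem behind `lift6`.
-/

set_option autoImplicit false

namespace Pool.Agent.Work.MP_8c679b_co

open Finset Sum

namespace SG

variable {V E : Type} [Fintype V] [DecidableEq V] [DecidableEq E] (G : SG V E)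

/-- tails of the arcs -/
def Lift6_tl : E × Bool × Bool → V ⊕ E
  | (e, false, true) => inl (G.s e)
  | (e, true, true) => inl (G.t e)
  | (e, false, false) => inr e
  | (e, true, false) => inr e

/-- heads of the arcs -/
def Lift6_hd (D : Finset E) : E × Bool × Bool → V ⊕ E
  | (e, false, true) => if e ∈ D then inr e else inl (G.t e)
  | (e, true, true) => if e ∈ D then inr e else inl (G.s e)
  | (e, false, false) => inl (G.s e)
  | (e, true, false) => inl (G.t e)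

/-- weights of the arcs -/
def Lift6_w (W : Finset V) (y1 y2 : E → ℤ) : E × Bool × Bool → ℤ
  | (e, false, true) => y1 e
  | (e, true, true) => y2 e
  | (e, false, false) => if G.t e ∈ W then y1 e else 6
  | (e, true, false) => if G.s e ∈ W then y2 e else 6

/-- the arcs that exist -/
def Lift6_act (W : Finset V) (D : Finset E) : E × Bool × Bool → Prop
  | (e, false, true) => G.s e ∈ W ∧ (e ∈ D ∨ G.t e ∈ W)
  | (e, true, true) => G.t e ∈ W ∧ (e ∈ D ∨ G.s e ∈ W)
  | (e, false, false) => G.s e ∈ W ∧ e ∈ D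
  | (e, true, false) => G.t e ∈ W ∧ e ∈ D

/-- adjacency of the nodes -/
def Lift6_adj (W : Finset V) (ty : E → Prop) : V ⊕ E → V ⊕ E → Prop
  | inl u, inl v => ∃ e, e ∈ G.ins W ∧ ty e ∧ G.Je e u v
  | inl u, inr e => G.At e u
  | inr e, inl u => G.At e u
  | inr _, inr _ => False

open Classical in
/-- the weight entering a set of nodes along the arcs of one edge -/
noncomputable def Lift6_con (W : Finset V) (D : Finset E) (y1 y2 : E → ℤ) (K : Finset (V ⊕ E))
    (e : E) : ℤ :=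
  ∑ x : Bool × Bool, if G.Lift6_act W D (e, x) then
    (if G.Lift6_tl (e, x) ∉ K ∧ G.Lift6_hd D (e, x) ∈ K then G.Lift6_w W y1 y2 (e, x) else 0) else 0

variable {G} {W : Finset V} {P Pk D : Finset E} {ty : E → Prop} [DecidablePred ty]
  {y1 y2 : E → ℤ} {w : V → ℕ} {wp : E → ℕ}

omit [Fintype V] [DecidableEq E] in
lemma Lift6_w0 (y0 : ∀ e, 0 ≤ y1 e ∧ 0 ≤ y2 e) (l : E × Bool × Bool) :
    0 ≤ G.Lift6_w W y1 y2 l := by
  obtain ⟨e, _ | _, _ | _⟩ := l <;> simp only [Lift6_w] <;> have := y0 e <;>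
    (try split_ifs) <;> omega

omit [Fintype V] in
lemma Lift6_con0 (y0 : ∀ e, 0 ≤ y1 e ∧ 0 ≤ y2 e) (K : Finset (V ⊕ E)) (e : E) :
    0 ≤ G.Lift6_con W D y1 y2 K e := by
  refine sum_nonneg fun x _ => ?_
  split_ifs
  exacts [Lift6_w0 y0 _, le_rfl, le_rfl]

/-- the inequality for odd sets of nodes -/
lemma Lift6_odd (hP : P ⊆ G.cut W)
    (hD : ∀ e, e ∈ D ↔ e ∈ G.tch W ∧ (e ∈ G.ins W → ¬ ty e) ∧ (e ∈ P → e ∈ Pk))
    (y0 : ∀ e, 0 ≤ y1 e ∧ 0 ≤ y2 e)
    (hy : ∀ e ∈ G.ins W, (ty e → y1 e = y2 e) ∧ (¬ ty e → y1 e + y2 e = 6))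
    (hwp : ∀ e ∈ Pk, 6 ≤ (if G.s e ∈ W then y1 e else y2 e) + wp e)
    (hK : ∀ K ⊆ W, ∀ B ⊆ G.cut K, (∀ e ∈ G.cut K, e ∈ G.cut W → e ∈ P ∧ (e ∈ B ↔ e ∈ Pk)) →
      Odd (K.card + ((G.ins K).filter fun e => ¬ ty e).card + B.card) →
      6 ≤ ∑ e ∈ G.cut K \ P, (if e ∈ B then 6 - (if G.s e ∈ K then y1 e else y2 e)
        else (if G.s e ∈ K then y1 e else y2 e)) + ∑ e ∈ G.cut K ∩ P, (wp e : ℤ) +
        ∑ v ∈ K, (w v : ℤ))
    {X : Finset (V ⊕ E)} (hX : X ⊆ W.disjSum D) (ho : Odd X.card)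
    (hF : ∀ e, inr e ∈ X → e ∈ G.cut W → e ∈ P) :
    6 ≤ ∑ e ∈ G.A, G.Lift6_con W D y1 y2 X e + (∑ v ∈ X.toLeft, (w v : ℤ) +
      ∑ e ∈ P, if (if e ∈ Pk then inr e else inl (G.ie W e)) ∈ X then (wp e : ℤ) else 0) := by
  have xW : ∀ v, inl v ∈ X → v ∈ W := fun v h => inl_mem_disjSum.1 (hX h)
  have xD : ∀ e, inr e ∈ X → e ∈ D := fun e h => inr_mem_disjSum.1 (hX h)
  have p0 : ∀ e ∈ P, 0 ≤ if (if e ∈ Pk then inr e else inl (G.ie W e)) ∈ X then (wp e : ℤ)
      else 0 := fun e _ => by positivity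
  have s1 : 0 ≤ ∑ v ∈ X.toLeft, (w v : ℤ) := by positivity
  have s2 := sum_nonneg p0
  have s3 : ∀ e ∈ G.A, G.Lift6_con W D y1 y2 X e ≤ ∑ e ∈ G.A, G.Lift6_con W D y1 y2 X e :=
    fun e he => single_le_sum (fun e _ => Lift6_con0 y0 X e) he
  by_cases c1 : ∃ e, inr e ∈ X ∧ inl (G.s e) ∉ X ∧ inl (G.t e) ∉ X
  · obtain ⟨e, e1, e2, e3⟩ := c1
    have eD := xD e e1
    obtain ⟨k1, k2, k3⟩ := (hD e).1 eD
    have k4 := s3 e (mem_tch.1 k1).1
    rcases mem_tch_iff.1 k1 with k | k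
    · have k5 := (hy e k).2 (k2 k)
      have : G.Lift6_con W D y1 y2 X e = y2 e + y1 e := by
        simp [Lift6_con, Fintype.sum_prod_type, Lift6_act, Lift6_tl, Lift6_hd, Lift6_w, e1, e2,
          e3, eD, (mem_ins.1 k).2.1, (mem_ins.1 k).2.2]
      omega
    · have eP := hF e e1 k
      have k5 := hwp e (k3 eP)
      have k6 := single_le_sum p0 eP
      rw [if_pos (k3 eP), if_pos e1] at k6
      have : G.Lift6_con W D y1 y2 X e = if G.s e ∈ W then y1 e else y2 e := by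
        have k7 := (mem_cut.1 k).2
        by_cases k8 : G.s e ∈ W
        · have k9 : G.t e ∉ W := by (clear * - eP k2 k3 k7 k8; tauto)
          simp [Lift6_con, Fintype.sum_prod_type, Lift6_act, Lift6_tl, Lift6_hd, Lift6_w, e1, e2,
            eD, k8, k9]
        · have k9 : G.t e ∈ W := by (clear * - eP k2 k3 k7 k8; tauto)
          simp [Lift6_con, Fintype.sum_prod_type, Lift6_act, Lift6_tl, Lift6_hd, Lift6_w, e1,
            e3, eD, k8, k9]
      omega
  by_cases c2 : ∃ e ∈ D, inr e ∉ X ∧ ((inl (G.s e) ∈ X ∧ inl (G.t e) ∈ X) ∨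
      (inl (G.s e) ∈ X ∧ G.t e ∉ W) ∨ (inl (G.t e) ∈ X ∧ G.s e ∉ W))
  · obtain ⟨e, eD, e1, e2⟩ := c2
    obtain ⟨k1, k2, k3⟩ := (hD e).1 eD
    have k4 := s3 e (mem_tch.1 k1).1
    have : G.Lift6_con W D y1 y2 X e = 6 := by
      rcases e2 with ⟨e2, e3⟩ | ⟨e2, e3⟩ | ⟨e2, e3⟩
      · have k := mem_ins.2 ⟨(mem_tch.1 k1).1, xW _ e2, xW _ e3⟩
        have k5 := (hy e k).2 (k2 k)
        simp [Lift6_con, Fintype.sum_prod_type, Lift6_act, Lift6_tl, Lift6_hd, Lift6_w, e1, e2,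
          e3, eD, xW _ e2, xW _ e3]
        omega
      · simp [Lift6_con, Fintype.sum_prod_type, Lift6_act, Lift6_tl, Lift6_hd, Lift6_w, e1, e2,
          e3, eD, xW _ e2]
      · simp [Lift6_con, Fintype.sum_prod_type, Lift6_act, Lift6_tl, Lift6_hd, Lift6_w, e1, e2,
          e3, eD, xW _ e2]
    omega
  push Not at c1 c2
  have kW : X.toLeft ⊆ W := fun v hv => xW v (mem_toLeft.1 hv)
  have cT : ∀ e ∈ G.cut X.toLeft, e ∈ G.tch W := fun e he => tch_mono kW (cut_sub_tch he)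
  have cD : ∀ e ∈ G.cut X.toLeft, e ∈ G.cut W → e ∈ D → inr e ∈ X := by
    intro e he hW eD
    by_contra k
    have k1 := c2 e eD k
    have k2 := (mem_cut.1 he).2
    have k3 := (mem_cut.1 hW).2
    have k4 := xW (G.s e)
    have k5 := xW (G.t e)
    simp only [mem_toLeft] at k2
    (clear * - k1 k2 k3 k4 k5; grind)
  have h1 : ∀ e ∈ G.cut X.toLeft, e ∈ G.cut W →
      e ∈ P ∧ (e ∈ X.toRight ∩ G.cut X.toLeft ↔ e ∈ Pk) := by
    intro e he hW
    have eP : e ∈ P := by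
      by_contra k
      exact k (hF e (cD e he hW ((hD e).2 ⟨cT e he, fun k1 => absurd k1 (not_ins_of_cut hW),
        fun k1 => absurd k1 k⟩)) hW)
    refine ⟨eP, fun k => ((hD e).1 (xD e (mem_toRight.1 (mem_inter.1 k).1))).2.2 eP, fun k => ?_⟩
    exact mem_inter.2 ⟨mem_toRight.2 (cD e he hW ((hD e).2 ⟨cT e he,
      fun k1 => absurd k1 (not_ins_of_cut hW), fun _ => k⟩)), he⟩
  have h2 : X.toRight.card = ((G.ins X.toLeft).filter fun e => ¬ ty e).card +
      (X.toRight ∩ G.cut X.toLeft).card := by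
    rw [← card_union_of_disjoint]
    · congr 1
      ext e
      simp only [mem_union, mem_filter, mem_inter, mem_toRight, mem_ins, mem_cut, mem_toLeft]
      constructor
      · intro k
        obtain ⟨k1, k2, -⟩ := (hD e).1 (xD e k)
        have k3 := c1 e k
        have kA := (mem_tch.1 k1).1
        by_cases k4 : inl (G.s e) ∈ X <;> by_cases k5 : inl (G.t e) ∈ X
        · exact Or.inl ⟨⟨kA, k4, k5⟩, k2 (mem_ins.2 ⟨kA, xW _ k4, xW _ k5⟩)⟩
        · exact Or.inr ⟨k, kA, by tauto⟩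
        · exact Or.inr ⟨k, kA, by tauto⟩
        · exact absurd (k3 k4) k5
      · rintro (⟨⟨kA, k4, k5⟩, k6⟩ | k)
        · have k7 := mem_ins.2 ⟨kA, xW _ k4, xW _ k5⟩
          by_contra k
          exact (c2 e ((hD e).2 ⟨ins_sub_tch k7, fun _ => k6,
            fun k8 => absurd k7 (not_ins_of_cut (hP k8))⟩) k).1 k4 k5
        · exact k.1
    · exact disjoint_left.2 fun e k1 k2 => not_ins_of_cut (mem_inter.1 k2).2 (mem_filter.1 k1).1
  have h3 := hK X.toLeft kW (X.toRight ∩ G.cut X.toLeft) inter_subset_right h1 (by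
    rw [add_assoc, ← h2, card_toLeft_add_card_toRight]
    exact ho)
  have h4 : ∑ e ∈ G.cut X.toLeft ∩ P, (wp e : ℤ) ≤
      ∑ e ∈ P, if (if e ∈ Pk then inr e else inl (G.ie W e)) ∈ X then (wp e : ℤ) else 0 := by
    refine le_trans (le_of_eq (sum_congr rfl fun e he => ?_))
      (sum_le_sum_of_subset_of_nonneg inter_subset_right fun e he _ => p0 e he)
    obtain ⟨k1, k2⟩ := mem_inter.1 he
    rw [if_pos]
    split_ifs with k
    · exact mem_toRight.1 (mem_inter.1 ((h1 e k1 (hP k2)).2.2 k)).1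
    · rw [← (cut_of_sub kW (hP k2) (cut_sub_tch k1)).2]
      exact mem_toLeft.1 (ie_mem (cut_sub_tch k1))
  have h5 : ∑ e ∈ G.cut X.toLeft \ P, (if e ∈ X.toRight ∩ G.cut X.toLeft then
      6 - (if G.s e ∈ X.toLeft then y1 e else y2 e) else (if G.s e ∈ X.toLeft then y1 e else y2 e))
      ≤ ∑ e ∈ G.A, G.Lift6_con W D y1 y2 X e := by
    refine le_trans (le_of_eq (sum_congr rfl fun e he => ?_))
      (sum_le_sum_of_subset_of_nonneg (fun e he => (mem_cut.1 (mem_sdiff.1 he).1).1)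
        fun e _ _ => Lift6_con0 y0 X e)
    obtain ⟨k1, k2⟩ := mem_sdiff.1 he
    have k3 : e ∈ G.ins W :=
      (mem_tch_iff.1 (cT e k1)).resolve_right fun k => k2 (h1 e k1 k).1
    obtain ⟨-, sW, tW⟩ := mem_ins.1 k3
    have k4 := (mem_cut.1 k1).2
    simp only [mem_toLeft] at k4
    obtain ⟨k5, k6⟩ := hy e k3
    have k7 : e ∈ D ↔ ¬ ty e := by
      rw [hD]
      exact ⟨fun k => k.2.1 k3, fun k => ⟨cT e k1, fun _ => k, fun k8 => absurd k8 k2⟩⟩
    simp only [mem_inter, k1, and_true, mem_toRight, mem_toLeft]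
    by_cases e1 : inr e ∈ X
    · have eD := xD e e1
      have := k6 (k7.1 eD)
      by_cases e2 : inl (G.s e) ∈ X
      · have e3 : inl (G.t e) ∉ X := by (clear * - e2 k4 k5 k6 k7; tauto)
        simp [Lift6_con, Fintype.sum_prod_type, Lift6_act, Lift6_tl, Lift6_hd, Lift6_w, e1, e2,
          e3, eD, sW, tW]
        omega
      · have e3 : inl (G.t e) ∈ X := by (clear * - e2 eD k4 k5 k6 k7; tauto)
        simp [Lift6_con, Fintype.sum_prod_type, Lift6_act, Lift6_tl, Lift6_hd, Lift6_w, e1, e2,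
          e3, eD, sW, tW]
        omega
    · by_cases eD : e ∈ D
      · by_cases e2 : inl (G.s e) ∈ X
        · have e3 : inl (G.t e) ∉ X := by (clear * - e2 k4 k5 k6 k7; tauto)
          simp [Lift6_con, Fintype.sum_prod_type, Lift6_act, Lift6_tl, Lift6_hd, Lift6_w, e1, e2,
            e3, eD, sW, tW]
        · have e3 : inl (G.t e) ∈ X := by (clear * - e2 eD k4 k5 k6 k7; tauto)
          simp [Lift6_con, Fintype.sum_prod_type, Lift6_act, Lift6_tl, Lift6_hd, Lift6_w, e1, e2,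
            e3, eD, sW, tW]
      · have := k5 (not_not.1 fun k => eD (k7.2 k))
        by_cases e2 : inl (G.s e) ∈ X
        · have e3 : inl (G.t e) ∉ X := by (clear * - e2 eD k4 k5 k6 k7; tauto)
          simp [Lift6_con, Fintype.sum_prod_type, Lift6_act, Lift6_tl, Lift6_hd, Lift6_w, e1, e2,
            e3, eD, sW, tW, this]
        · have e3 : inl (G.t e) ∈ X := by (clear * - e2 eD k4 k5 k6 k7; tauto)
          simp [Lift6_con, Fintype.sum_prod_type, Lift6_act, Lift6_tl, Lift6_hd, Lift6_w, e1, e2,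
            e3, eD, sW, tW, this]
  omega

end SG

end Pool.Agent.Work.MP_8c679b_co
end

-- merged part: Pool.Agent.Work.MP_8c679b_co.Six.Lift6C
section
/-!
The solution of the matching problem behind `lift6`.
-/

set_option autoImplicit false

namespace Pool.Agent.Work.MP_8c679b_co

open Finset Sum

namespace SG

variable {V E : Type} [Fintype V] [DecidableEq V] [DecidableEq E] {G : SG V E}
  {W : Finset V} {P Pk D : Finset E} {ty : E → Prop} [DecidablePred ty]
  {y1 y2 : E → ℤ} {w : V → ℕ} {wp : E → ℕ}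

omit [Fintype V] [DecidableEq V] [DecidableEq E] in
lemma Lift6_je {e : E} {u v : V} (h : G.Je e u v) : G.Je e v u := Or.symm h

lemma Lift6_match (hP : P ⊆ G.cut W) (hPk : Pk ⊆ P) (hl : ∀ e ∈ G.tch W, G.s e ≠ G.t e)
    (hD : ∀ e, e ∈ D ↔ e ∈ G.tch W ∧ (e ∈ G.ins W → ¬ ty e) ∧ (e ∈ P → e ∈ Pk))
    (y0 : ∀ e, 0 ≤ y1 e ∧ 0 ≤ y2 e)
    (hy : ∀ e ∈ G.ins W, (ty e → y1 e = y2 e) ∧ (¬ ty e → y1 e + y2 e = 6))
    (hv : ∀ v ∈ W, ∑ e ∈ G.A, (iv (G.s e = v) * y1 e + iv (G.t e = v) * y2 e) ≤ 6)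
    (hwp : ∀ e ∈ Pk, 6 ≤ (if G.s e ∈ W then y1 e else y2 e) + wp e)
    (hK : ∀ K ⊆ W, ∀ B ⊆ G.cut K, (∀ e ∈ G.cut K, e ∈ G.cut W → e ∈ P ∧ (e ∈ B ↔ e ∈ Pk)) →
      Odd (K.card + ((G.ins K).filter fun e => ¬ ty e).card + B.card) →
      6 ≤ ∑ e ∈ G.cut K \ P, (if e ∈ B then 6 - (if G.s e ∈ K then y1 e else y2 e)
        else (if G.s e ∈ K then y1 e else y2 e)) + ∑ e ∈ G.cut K ∩ P, (wp e : ℤ) +
        ∑ v ∈ K, (w v : ℤ))
    (ht : (P = G.cut W ∧ Even (W.card + ((G.ins W).filter fun e => ¬ ty e).card + Pk.card) ∧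
      ∑ v ∈ W, w v + ∑ e ∈ P, wp e < 12) ∨ ∑ v ∈ W, w v + ∑ e ∈ P, wp e < 6) :
    ∃ m : V ⊕ E → V ⊕ E, ∀ a ∈ W.disjSum D, ¬ (∃ e, a = inr e ∧ e ∈ G.cut W ∧ e ∉ P) →
      m a ∈ W.disjSum D ∧ m (m a) = a ∧ G.Lift6_adj W ty a (m a) := by
  classical
  have hsum : ∀ φ : E × Bool × Bool → ℤ,
      ∑ l ∈ (G.A ×ˢ univ).filter (G.Lift6_act W D), φ l =
        ∑ e ∈ G.A, ∑ x : Bool × Bool, if G.Lift6_act W D (e, x) then φ (e, x) else 0 :=
    fun φ => by rw [sum_filter, sum_product]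
  have hd : ∀ X : Finset (V ⊕ E), ∑ a ∈ X, (Sum.elim (fun v => (w v : ℤ)) (fun _ => 0) a +
      ∑ e ∈ P, if (if e ∈ Pk then inr e else inl (G.ie W e)) = a then (wp e : ℤ) else 0) =
      ∑ v ∈ X.toLeft, (w v : ℤ) +
      ∑ e ∈ P, if (if e ∈ Pk then inr e else inl (G.ie W e)) ∈ X then (wp e : ℤ) else 0 := by
    intro X
    rw [sum_add_distrib, sum_comm, sum_sum_eq_sum_toLeft_add_sum_toRight]
    simp only [elim_inl, elim_inr, sum_const_zero, add_zero, sum_ite_eq]
  have hN : ∑ a ∈ W.disjSum D, (Sum.elim (fun v => (w v : ℤ)) (fun _ => 0) a +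
      ∑ e ∈ P, if (if e ∈ Pk then inr e else inl (G.ie W e)) = a then (wp e : ℤ) else 0) ≤
      (∑ v ∈ W, w v + ∑ e ∈ P, wp e : ℕ) := by
    rw [hd, toLeft_disjSum]
    push_cast
    refine add_le_add le_rfl (sum_le_sum fun e _ => ?_)
    split_ifs <;> simp
  refine Lift6_wtF (W.disjSum D) (G.Lift6_adj W ty) ?_ ?_ _
    ((G.A ×ˢ univ).filter (G.Lift6_act W D)) G.Lift6_tl (G.Lift6_hd D) (G.Lift6_w W y1 y2)
    (fun a => Sum.elim (fun v => (w v : ℤ)) (fun _ => 0) a +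
      ∑ e ∈ P, if (if e ∈ Pk then inr e else inl (G.ie W e)) = a then (wp e : ℤ) else 0)
    (fun l _ => Lift6_w0 y0 l) ?_ ?_ ?_ ?_ ?_
  · rintro (u | e) (v | e') h
    · obtain ⟨e, k1, k2, k3⟩ := h
      exact ⟨e, k1, k2, Lift6_je k3⟩
    exacts [h, h, h]
  · rintro (u | e) h
    · obtain ⟨e, k1, -, k3⟩ := h
      exact hl e (ins_sub_tch k1) (k3.elim (fun k => k.1.trans k.2.symm) fun k => k.1.trans k.2.symm)
    · exact h
  · rintro (u | e)
    · simp only [elim_inl]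
      positivity
    · simp only [elim_inr]
      positivity
  · rintro ⟨e, j, o⟩ hl'
    obtain ⟨k1, k2⟩ := mem_filter.1 hl'
    have kA : e ∈ G.A := (mem_product.1 k1).1
    have kt : G.s e ∈ W → G.t e ∈ W → e ∉ D → e ∈ G.ins W ∧ ty e := fun k3 k4 k5 => by
      have k6 := mem_ins.2 ⟨kA, k3, k4⟩
      refine ⟨k6, ?_⟩
      by_contra k7
      exact k5 ((hD e).2 ⟨ins_sub_tch k6, fun _ => k7,
        fun k8 => absurd k6 (not_ins_of_cut (hP k8))⟩)
    rcases j with _ | _ <;> rcases o with _ | _ <;>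
      simp only [Lift6_act, Lift6_tl, Lift6_hd] at k2 ⊢
    · exact ⟨inr_mem_disjSum.2 k2.2, inl_mem_disjSum.2 k2.1, Or.inl rfl⟩
    · split_ifs with k
      · exact ⟨inl_mem_disjSum.2 k2.1, inr_mem_disjSum.2 k, Or.inl rfl⟩
      · have k3 := k2.2.resolve_left k
        exact ⟨inl_mem_disjSum.2 k2.1, inl_mem_disjSum.2 k3, e, (kt k2.1 k3 k).1,
          (kt k2.1 k3 k).2, Or.inl ⟨rfl, rfl⟩⟩
    · exact ⟨inr_mem_disjSum.2 k2.2, inl_mem_disjSum.2 k2.1, Or.inr rfl⟩
    · split_ifs with k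
      · exact ⟨inl_mem_disjSum.2 k2.1, inr_mem_disjSum.2 k, Or.inr rfl⟩
      · have k3 := k2.2.resolve_left k
        exact ⟨inl_mem_disjSum.2 k2.1, inl_mem_disjSum.2 k3, e, (kt k3 k2.1 k).1,
          (kt k3 k2.1 k).2, Or.inr ⟨rfl, rfl⟩⟩
  · rintro (v | e0) ha
    · rw [hsum]
      refine le_trans (sum_le_sum fun e _ => ?_) (hv v (inl_mem_disjSum.1 ha))
      have := y0 e
      simp only [Fintype.sum_prod_type, Fintype.sum_bool, Lift6_tl, Lift6_w, inl.injEq, iv,
        reduceCtorEq, if_false, ite_self]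
      split_ifs <;> omega
    · rw [hsum]
      obtain ⟨k1, k2, -⟩ := (hD e0).1 (inr_mem_disjSum.1 ha)
      rw [sum_eq_single_of_mem e0 (mem_tch.1 k1).1 fun e _ he => by
        simp [Fintype.sum_prod_type, Lift6_tl, he]]
      by_cases k3 : G.s e0 ∈ W <;> by_cases k4 : G.t e0 ∈ W
      · have k5 := mem_ins.2 ⟨(mem_tch.1 k1).1, k3, k4⟩
        have := (hy e0 k5).2 (k2 k5)
        simp [Fintype.sum_prod_type, Lift6_tl, Lift6_w, Lift6_act, k3, k4, inr_mem_disjSum.1 ha]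
        omega
      all_goals
        simp [Fintype.sum_prod_type, Lift6_tl, Lift6_w, Lift6_act, k3, k4, inr_mem_disjSum.1 ha]
  · intro X hX ho hF
    rw [hd, hsum]
    exact Lift6_odd hP hD y0 hy hwp hK hX ho fun e k1 k2 => by
      by_contra k
      exact hF _ k1 ⟨e, rfl, k2, k⟩
  · rcases ht with ⟨t1, t2, t3⟩ | t3
    · refine Or.inl ⟨?_, ?_, hN.trans_lt (by exact_mod_cast t3)⟩
      · rintro _ - ⟨e, -, k1, k2⟩
        exact k2 (t1 ▸ k1)
      · have : D = ((G.ins W).filter fun e => ¬ ty e) ∪ Pk := by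
          ext e
          rw [hD, mem_union, mem_filter, mem_tch_iff, ← t1]
          have k1 : e ∈ P → e ∉ G.ins W := fun k => not_ins_of_cut (hP k)
          have k2 : e ∈ Pk → e ∈ P := fun k => hPk k
          (clear * - k1 k2; grind)
        rw [card_disjSum, this, card_union_of_disjoint (disjoint_left.2 fun e k1 k2 =>
          not_ins_of_cut (hP (hPk k2)) (mem_filter.1 k1).1), ← add_assoc]
        exact t2
    · exact Or.inr (hN.trans_lt (by exact_mod_cast t3))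

/-- every vertex of `W` picks one edge -/
theorem Lift6_core (hP : P ⊆ G.cut W) (hPk : Pk ⊆ P) (hl : ∀ e ∈ G.tch W, G.s e ≠ G.t e)
    (y0 : ∀ e, 0 ≤ y1 e ∧ 0 ≤ y2 e)
    (hy : ∀ e ∈ G.ins W, (ty e → y1 e = y2 e) ∧ (¬ ty e → y1 e + y2 e = 6))
    (hv : ∀ v ∈ W, ∑ e ∈ G.A, (iv (G.s e = v) * y1 e + iv (G.t e = v) * y2 e) ≤ 6)
    (hwp : ∀ e ∈ Pk, 6 ≤ (if G.s e ∈ W then y1 e else y2 e) + wp e)
    (hK : ∀ K ⊆ W, ∀ B ⊆ G.cut K, (∀ e ∈ G.cut K, e ∈ G.cut W → e ∈ P ∧ (e ∈ B ↔ e ∈ Pk)) →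
      Odd (K.card + ((G.ins K).filter fun e => ¬ ty e).card + B.card) →
      6 ≤ ∑ e ∈ G.cut K \ P, (if e ∈ B then 6 - (if G.s e ∈ K then y1 e else y2 e)
        else (if G.s e ∈ K then y1 e else y2 e)) + ∑ e ∈ G.cut K ∩ P, (wp e : ℤ) +
        ∑ v ∈ K, (w v : ℤ))
    (ht : (P = G.cut W ∧ Even (W.card + ((G.ins W).filter fun e => ¬ ty e).card + Pk.card) ∧
      ∑ v ∈ W, w v + ∑ e ∈ P, wp e < 12) ∨ ∑ v ∈ W, w v + ∑ e ∈ P, wp e < 6) :
    ∃ Q : V → E → Prop, (∀ v ∈ W, ∃ e0 ∈ G.A, G.At e0 v ∧ ∀ e, Q v e ↔ e = e0) ∧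
      (∀ e ∈ G.ins W, (ty e → (Q (G.s e) e ↔ Q (G.t e) e)) ∧
        (¬ ty e → (Q (G.s e) e ↔ ¬ Q (G.t e) e))) ∧ ∀ e ∈ P, Q (G.ie W e) e ↔ e ∈ Pk := by
  classical
  have hD : ∀ e, e ∈ (G.tch W).filter (fun e => (e ∈ G.ins W → ¬ ty e) ∧ (e ∈ P → e ∈ Pk)) ↔
      e ∈ G.tch W ∧ (e ∈ G.ins W → ¬ ty e) ∧ (e ∈ P → e ∈ Pk) := fun e => mem_filter
  generalize (G.tch W).filter (fun e => (e ∈ G.ins W → ¬ ty e) ∧ (e ∈ P → e ∈ Pk)) = D at hD
  obtain ⟨m, hm⟩ := Lift6_match hP hPk hl hD y0 hy hv hwp hK ht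
  obtain ⟨ch, c1, c2⟩ : ∃ ch : (E → Prop) → Option E,
      (∀ R e, ch R = some e → R e) ∧ ∀ R e, R e → ∃ e', ch R = some e' := by
    refine ⟨fun R => if h : ∃ e, R e then some h.choose else none, fun R e h => ?_,
      fun R e h => ⟨_, dif_pos ⟨e, h⟩⟩⟩
    dsimp only at h
    split_ifs at h with k
    exact Option.some.inj h ▸ k.choose_spec
  have mv : ∀ v ∈ W, m (inl v) ∈ W.disjSum D ∧ m (m (inl v)) = inl v ∧
      G.Lift6_adj W ty (inl v) (m (inl v)) := fun v hv' =>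
    hm _ (inl_mem_disjSum.2 hv') (by rintro ⟨e, k, -⟩; cases k)
  have me : ∀ e ∈ D, (e ∈ G.cut W → e ∈ P) → ∃ u ∈ W, G.At e u ∧ m (inr e) = inl u ∧
      m (inl u) = inr e := by
    intro e he k
    obtain ⟨k1, k2, k3⟩ := hm _ (inr_mem_disjSum.2 he) (by
      rintro ⟨e', k4, k5, k6⟩
      cases k4
      exact k6 (k k5))
    rcases k4 : m (inr e) with u | e'
    · rw [k4] at k1 k2 k3
      exact ⟨u, inl_mem_disjSum.1 k1, k3, rfl, k2⟩
    · rw [k4] at k3
      exact k3.elim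
  let Q : V → E → Prop := fun v e => m (inl v) = inr e ∨
    ∃ u, m (inl v) = inl u ∧ ch (fun e => e ∈ G.ins W ∧ ty e ∧ G.Je e v u) = some e
  have q1 : ∀ e u v, u ∈ W → e ∈ G.ins W → ty e → G.Je e u v → Q u e → Q v e := by
    rintro e u v hu k1 k2 k3 (k | ⟨x, k4, k5⟩)
    · have := (mv u hu).1
      rw [k] at this
      exact absurd k2 (((hD e).1 (inr_mem_disjSum.1 this)).2.1 k1)
    · have k6 := (c1 _ _ k5).2.2
      have k7 := hl e (ins_sub_tch k1)
      obtain rfl : x = v := by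
        rcases k3 with ⟨rfl, rfl⟩ | ⟨rfl, rfl⟩ <;> rcases k6 with k6 | k6
        exacts [k6.2.symm, absurd k6.2.symm k7, absurd k6.1 k7, k6.1.symm]
      have k8 := (mv u hu).2.1
      rw [k4] at k8
      refine Or.inr ⟨u, k8, ?_⟩
      rw [← k5]
      congr 1
      funext e'
      exact propext ⟨fun k => ⟨k.1, k.2.1, Lift6_je k.2.2⟩, fun k => ⟨k.1, k.2.1, Lift6_je k.2.2⟩⟩
  have q2 : ∀ e v, ¬ (e ∈ G.ins W ∧ ty e) → (Q v e ↔ m (inl v) = inr e) := by
    refine fun e v k => ⟨?_, Or.inl⟩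
    rintro (k1 | ⟨x, -, k5⟩)
    exacts [k1, absurd ⟨(c1 _ _ k5).1, (c1 _ _ k5).2.1⟩ k]
  refine ⟨Q, fun v hv' => ?_, fun e he => ⟨fun k => ?_, fun k => ?_⟩, fun e he => ?_⟩
  · obtain ⟨k1, -, k3⟩ := mv v hv'
    rcases k4 : m (inl v) with u | e0
    · rw [k4] at k3
      obtain ⟨e1, k5⟩ := k3
      obtain ⟨e0, k6⟩ := c2 (fun e => e ∈ G.ins W ∧ ty e ∧ G.Je e v u) e1 k5
      obtain ⟨k7, -, k8⟩ := c1 _ _ k6
      refine ⟨e0, ins_sub_A k7, k8.elim (fun k => Or.inl k.1) fun k => Or.inr k.2, fun e => ?_⟩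
      simp only [Q, k4, reduceCtorEq, false_or, inl.injEq, exists_eq_left', k6,
        Option.some.injEq]
      exact eq_comm
    · rw [k4] at k1 k3
      refine ⟨e0, (mem_tch.1 ((hD e0).1 (inr_mem_disjSum.1 k1)).1).1, k3, fun e => ?_⟩
      simp only [Q, k4, reduceCtorEq, false_and, exists_false, or_false, inr.injEq]
      exact eq_comm
  · exact ⟨q1 e _ _ (mem_ins.1 he).2.1 he k (Or.inl ⟨rfl, rfl⟩),
      q1 e _ _ (mem_ins.1 he).2.2 he k (Or.inr ⟨rfl, rfl⟩)⟩
  · obtain ⟨u, -, k1, k2, k3⟩ := me e ((hD e).2 ⟨ins_sub_tch he, fun _ => k,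
      fun k1 => absurd he (not_ins_of_cut (hP k1))⟩) fun k1 => absurd he (not_ins_of_cut k1)
    have k4 : ∀ v ∈ W, m (inl v) = inr e ↔ v = u := fun v hv' => by
      refine ⟨fun k5 => ?_, fun k5 => k5 ▸ k3⟩
      have k6 := (mv v hv').2.1
      rw [k5, k2] at k6
      exact (inl.inj k6).symm
    have k7 := hl e (ins_sub_tch he)
    rw [q2 e _ fun k5 => k k5.2, q2 e _ fun k5 => k k5.2, k4 _ (mem_ins.1 he).2.1,
      k4 _ (mem_ins.1 he).2.2]
    rcases k1 with rfl | rfl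
    · simpa using k7.symm
    · simpa using k7
  · have k0 := hP he
    rw [q2 e _ fun k => not_ins_of_cut k0 k.1]
    constructor
    · intro k
      have := (mv _ (ie_mem (cut_sub_tch k0))).1
      rw [k] at this
      exact ((hD e).1 (inr_mem_disjSum.1 this)).2.2 he
    · intro k
      obtain ⟨u, k1, k2, -, k3⟩ := me e ((hD e).2 ⟨cut_sub_tch k0,
        fun k1 => absurd k1 (not_ins_of_cut k0), fun _ => k⟩) fun _ => he
      rw [← eq_ie k0 k1 k2]
      exact k3

end SG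

end Pool.Agent.Work.MP_8c679b_co
end

-- merged part: Pool.Agent.Work.MP_8c679b_co.Six.Lift6
section
/-!
Lifting a residue solution to an integer flow: a perfect matching argument with tolerance.

HINT for `lift6` (PROOF.md, section LIFT).  Every edge `e` at `W` has exactly two admissible
values, a negative one and a positive one, differing by `6` (they are nonzero).  For `v ∈ W` and
an edge `e` at `v` let `lo v e < 0 < lo v e + 6` be the two admissible values of `out {v} · e`.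
The three numbers `lo v e` sum to `-6` or `-12`.  Call a value *picked at `v`* if it is the high
one (sum `-6`) or the low one (sum `-12`); a choice of values is conserved at `v` iff exactly one
edge is picked at `v`.  Let `y v e = 6 - |picked value|`, so `|unpicked value| = y v e` and the
three `y v e` sum to `6`.  Build a simple graph `H` on `W`, plus a middle node for each inner
edge whose two values are picked at different ends (adjacent to both ends), an edge `uv` for each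
inner edge with a value picked at both ends, a pendant node for each `e ∈ P` whose value `h e` is
picked, a node for each `e ∈ cut W \ P` adjacent to its inner end, all these free nodes forming
a clique together with one extra node if needed to make the number of nodes even.  A perfect
matching of `H` (`SimpleGraph.tutte`, used in `EJ.lean`, lemma `pm0`) gives `f`.
Tutte's condition: let `M` be a set of nodes with more odd components than `|M|`; by parity at
least `|M| + 2`.  Give every edge of `H` its weight `y` (free node in `M`: weight `6`); every node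
sends weight at most `6`.  An odd component `K*` not containing a free node meets `W` in `K`;
choose `g e` on `cut K` as the picked value iff the middle or pendant node of `e` lies in `K*`;
then `|K*|` odd means `Df K g`, and the weight leaving `K*` is the sum of `|g e|` over the edges
of `cut K` except those of `P` with `g e = h e`.  Sum the deficiencies.  If `K = W` and
`P = cut W` there is only one component meeting `W` and no other component, no violation.
An alternative is to prove first an abstract weighted Tutte lemma.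
-/

set_option autoImplicit false

namespace Pool.Agent.Work.MP_8c679b_co

open Finset

namespace SG

variable {V E : Type} [Fintype V] [DecidableEq V] [DecidableEq E] {G : SG V E}
  {W K : Finset V} {O P : Finset E} {φ : E → ZMod 3} {g h : E → ℤ}

/-- the admissible value with a given sign -/
def Lift6_u (r η : ℤ) : ℤ := if η = 1 then r else r - 6

omit [Fintype V] [DecidableEq V] [DecidableEq E] in
lemma Lift6_r (e : E) : ∃ r : ℤ, 1 ≤ r ∧ r ≤ 5 ∧
    ((e ∉ O → φ e ≠ 0) → ∀ x, Av O φ e x ↔ x = r ∨ x = r - 6) := by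
  have k : ∀ c : ℤ, φ e = c → ∀ x, Av O φ e x ↔
      (-5 ≤ x ∧ x ≤ 5) ∧ (x % 2 = 1 ↔ e ∈ O) ∧ x % 3 = c % 3 := fun c hc x => by
    rw [Av, abs_le, Int.odd_iff, hc, ZMod.intCast_eq_intCast_iff']
    rfl
  have k3 : ∀ a : ZMod 3, a = ((0 : ℤ) : ZMod 3) ∨ a = ((1 : ℤ) : ZMod 3) ∨
      a = ((2 : ℤ) : ZMod 3) := by decide
  by_cases he : e ∈ O <;> rcases k3 (φ e) with h | h | h
  · exact ⟨3, by omega, by omega, fun _ x => by rw [k _ h, iff_true_right he]; omega⟩
  · exact ⟨1, by omega, by omega, fun _ x => by rw [k _ h, iff_true_right he]; omega⟩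
  · exact ⟨5, by omega, by omega, fun _ x => by rw [k _ h, iff_true_right he]; omega⟩
  · exact ⟨1, by omega, by omega, fun k0 => absurd (by simpa using h) (k0 he)⟩
  · exact ⟨4, by omega, by omega, fun _ x => by rw [k _ h, iff_false_right he]; omega⟩
  · exact ⟨2, by omega, by omega, fun _ x => by rw [k _ h, iff_false_right he]; omega⟩

lemma Lift6_u1 {r η : ℤ} (h1 : 1 ≤ r) (h5 : r ≤ 5) (hη : η = 1 ∨ η = -1) :
    (Lift6_u r η = r ∨ Lift6_u r η = r - 6) ∧ (Lift6_u r (-η) = r ∨ Lift6_u r (-η) = r - 6) ∧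
    0 < η * Lift6_u r η ∧ ¬ 0 < η * Lift6_u r (-η) ∧ |Lift6_u r η| = 6 - |Lift6_u r (-η)| := by
  have e1 : |r| = r := abs_of_nonneg (by omega)
  have e2 : |r - 6| = 6 - r := by rw [abs_of_nonpos (by omega)]; ring
  rcases hη with rfl | rfl <;> simp [Lift6_u, e1, e2] <;> omega

lemma Lift6_u2 {r η x : ℤ} (h1 : 1 ≤ r) (h5 : r ≤ 5) (hη : η = 1 ∨ η = -1)
    (hx : x = r ∨ x = r - 6) :
    x = (if 0 < η * x then Lift6_u r η else Lift6_u r (-η)) ∧
      η * x = 6 * iv (0 < η * x) - |Lift6_u r (-η)| := by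
  have e1 : |r| = r := abs_of_nonneg (by omega)
  have e2 : |r - 6| = 6 - r := by rw [abs_of_nonpos (by omega)]; ring
  unfold iv
  split_ifs with h <;> rcases hη with rfl | rfl <;> simp [Lift6_u, e1, e2] <;> omega

lemma Lift6_chi (a : ZMod 2) : (chi a : ℤ) = 1 ∨ (chi a : ℤ) = -1 := by
  rcases z2 a with rfl | rfl <;> simp

omit [Fintype V] in
lemma Lift6_six {v : V} {f : E → ℤ} (hOA : O ⊆ G.A) (hO : G.dg O v = 0) (hφ : G.bd φ v = 0)
    (hf : ∀ e ∈ G.A, G.At e v → Av O φ e (f e)) : (6 : ℤ) ∣ G.bd f v := by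
  have h3 : ((G.bd f v : ℤ) : ZMod 3) = 0 := by
    rw [← hφ, ← bd_congr (f := fun e => (f e : ZMod 3)) fun e he k => (hf e he k).2.2]
    simp only [bd, iv, chi]
    push_cast
    rfl
  have h2 : ((G.bd f v : ℤ) : ZMod 2) = 0 := by
    rw [← hO, dg, ← inter_eq_right.2 hOA, ← sum_ite_mem, bd, Int.cast_sum]
    refine sum_congr rfl fun e he => ?_
    by_cases k : G.At e v
    · have k1 : ((f e : ℤ) : ZMod 2) = if e ∈ O then 1 else 0 := by
        split_ifs with k2
        · exact ZMod.intCast_eq_one_iff_odd.2 ((hf e he k).2.1.2 k2)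
        · exact ZMod.intCast_eq_zero_iff_even.2
            (Int.not_odd_iff_even.1 fun k3 => k2 ((hf e he k).2.1.1 k3))
      have k2 : ((chi (G.n e) : ℤ) : ZMod 2) = -1 := by
        rcases Lift6_chi (G.n e) with k2 | k2 <;> rw [k2] <;> rfl
      simp only [iv]
      push_cast
      rw [k1, k2]
      split_ifs <;> rfl
    · have h1 : G.s e ≠ v := fun k1 => k (Or.inl k1)
      have h2 : G.t e ≠ v := fun k1 => k (Or.inr k1)
      simp [iv, h1, h2]
  have k3 := (ZMod.intCast_zmod_eq_zero_iff_dvd _ 3).1 h3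
  have k2 := (ZMod.intCast_zmod_eq_zero_iff_dvd _ 2).1 h2
  push_cast at k2 k3
  omega

omit [Fintype V] [DecidableEq E] in
lemma Lift6_bd {v : V} {f r a b : E → ℤ} {η : ℤ} (hr : ∀ e, 1 ≤ r e ∧ r e ≤ 5)
    (hη : η = 1 ∨ η = -1) (hl : ∀ e ∈ G.A, G.At e v → G.s e ≠ G.t e)
    (ha : ∀ e, G.s e = v → a e = η) (hb : ∀ e, G.t e = v → b e = -η * chi (G.n e))
    (hf : ∀ e ∈ G.A, G.At e v → f e = r e ∨ f e = r e - 6) :
    η * G.bd f v =
      6 * ∑ e ∈ G.A, (iv (G.s e = v) * iv (0 < a e * f e) + iv (G.t e = v) * iv (0 < b e * f e)) -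
      ∑ e ∈ G.A, (iv (G.s e = v) * |Lift6_u (r e) (-a e)| +
        iv (G.t e = v) * |Lift6_u (r e) (-b e)|) := by
  rw [bd, mul_sum, mul_sum, ← sum_sub_distrib]
  refine sum_congr rfl fun e he => ?_
  by_cases h1 : G.s e = v
  · have h2 : G.t e ≠ v := fun k => hl e he (Or.inl h1) (h1.trans k.symm)
    have := (Lift6_u2 (hr e).1 (hr e).2 hη (hf e he (Or.inl h1))).2
    rw [ha e h1]
    simp only [iv, h1, h2, if_true, if_false] at this ⊢
    linear_combination this
  · by_cases h2 : G.t e = v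
    · have k : -η * chi (G.n e) = 1 ∨ -η * chi (G.n e) = -1 := by
        rcases hη with rfl | rfl <;> rcases Lift6_chi (G.n e) with k | k <;> simp [k]
      have := (Lift6_u2 (hr e).1 (hr e).2 k (hf e he (Or.inr h2))).2
      rw [hb e h2]
      simp only [iv, h1, h2, if_true, if_false] at this ⊢
      linear_combination this
    · simp [iv, h1, h2]

omit [Fintype V] in
lemma Lift6_eps {v : V} {r : E → ℤ} (hr : ∀ e, 1 ≤ r e ∧ r e ≤ 5) (hd : G.deg G.A v = 3)
    (hl : ∀ e ∈ G.A, G.At e v → G.s e ≠ G.t e) (hOA : O ⊆ G.A) (hO : G.dg O v = 0)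
    (hφ : G.bd φ v = 0) (hA : ∀ e ∈ G.A, G.At e v → ∀ x, Av O φ e x ↔ x = r e ∨ x = r e - 6) :
    ∃ η : ℤ, (η = 1 ∨ η = -1) ∧ ∑ e ∈ G.A, (iv (G.s e = v) * |Lift6_u (r e) (-η)| +
      iv (G.t e = v) * |Lift6_u (r e) (-(-η * chi (G.n e)))|) = 6 := by
  have h0 := Lift6_six (f := r) hOA hO hφ fun e he k => (hA e he k _).2 (Or.inl rfl)
  have h1 := Lift6_bd (f := r) (a := fun _ => 1) (b := fun e => -1 * chi (G.n e)) hr (Or.inl rfl)
    hl (fun _ _ => rfl) (fun _ _ => rfl) fun _ _ _ => Or.inl rfl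
  have h2 : ∑ e ∈ G.A, (iv (G.s e = v) + iv (G.t e = v) : ℤ) = 3 := by
    have : ((G.deg G.A v : ℕ) : ℤ) = 3 := by exact_mod_cast hd
    rw [← this]
    simp only [deg, inc, iv]
    push_cast
    rfl
  have h3 : ∀ η : ℤ, (η = 1 ∨ η = -1) →
      3 ≤ ∑ e ∈ G.A, (iv (G.s e = v) * |Lift6_u (r e) (-η)| +
        iv (G.t e = v) * |Lift6_u (r e) (-(-η * chi (G.n e)))|) := fun η _ => by
    rw [← h2]
    refine sum_le_sum fun e _ => ?_
    have k : ∀ x, 1 ≤ |Lift6_u (r e) x| := fun x => Int.one_le_abs (by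
      have := hr e
      unfold Lift6_u
      split_ifs <;> omega)
    have k1 := k (-η)
    have k2 := k (-(-η * chi (G.n e)))
    unfold iv
    split_ifs <;> omega
  have h4 : ∑ e ∈ G.A, (iv (G.s e = v) * |Lift6_u (r e) (-1)| +
        iv (G.t e = v) * |Lift6_u (r e) (-(-1 * chi (G.n e)))|) +
      ∑ e ∈ G.A, (iv (G.s e = v) * |Lift6_u (r e) (-(-1))| +
        iv (G.t e = v) * |Lift6_u (r e) (-(-(-1) * chi (G.n e)))|) = 6 * 3 := by
    rw [← h2, mul_sum, ← sum_add_distrib]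
    refine sum_congr rfl fun e _ => ?_
    have k1 := (Lift6_u1 (hr e).1 (hr e).2 (Or.inl rfl)).2.2.2.2
    have k2 := (Lift6_u1 (hr e).1 (hr e).2 (Lift6_chi (G.n e))).2.2.2.2
    simp only [neg_neg, neg_mul, one_mul]
    rw [k1, k2]
    ring
  have h5 := h3 1 (Or.inl rfl)
  have h6 := h3 (-1) (Or.inr rfl)
  by_cases h7 : ∑ e ∈ G.A, (iv (G.s e = v) * |Lift6_u (r e) (-1)| +
      iv (G.t e = v) * |Lift6_u (r e) (-(-1 * chi (G.n e)))|) = 6
  · exact ⟨1, Or.inl rfl, h7⟩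
  · exact ⟨-1, Or.inr rfl, by omega⟩

/-- the parity of the number of nodes -/
lemma Lift6_par {r a b : E → ℤ} {ε : V → ℤ} (hr : ∀ e, 1 ≤ r e ∧ r e ≤ 5)
    (hε : ∀ v, ε v = 1 ∨ ε v = -1) (ha : ∀ e, a e = ε (G.s e))
    (hb : ∀ e, b e = -ε (G.t e) * chi (G.n e)) (hl : ∀ e ∈ G.tch K, G.s e ≠ G.t e)
    (hA : ∀ e ∈ G.tch K, ∀ x, Av O φ e x ↔ x = r e ∨ x = r e - 6)
    (hv : ∀ v ∈ K, ∑ e ∈ G.A, (iv (G.s e = v) * |Lift6_u (r e) (-a e)| +
      iv (G.t e = v) * |Lift6_u (r e) (-b e)|) = 6) (hg : ∀ e ∈ G.cut K, Av O φ e (g e))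
    {B : Finset E} (hB : ∀ e, e ∈ B ↔ e ∈ G.cut K ∧ 0 < (if G.s e ∈ K then a e else b e) * g e) :
    G.Df O φ K g ↔ Odd (K.card + ((G.ins K).filter fun e => ¬ a e = b e).card + B.card) := by
  have at1 : ∀ v ∈ K, ∀ e ∈ G.A, G.At e v → e ∈ G.tch K := fun v hv e he k =>
    mem_tch.2 ⟨he, by rcases k with rfl | rfl <;> simp [hv]⟩
  have sub : ∀ S ⊆ G.A, ∀ F : E → ℤ, ∑ e ∈ S, F e = ∑ e ∈ G.A, if e ∈ S then F e else 0 :=
    fun S hS F => by rw [sum_ite_mem, inter_eq_right.2 hS]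
  obtain ⟨f, f1, f2⟩ : ∃ f : E → ℤ, (∀ e ∈ G.cut K, f e = g e) ∧
      ∀ e ∈ G.tch K, Av O φ e (f e) := by
    refine ⟨fun e => if e ∈ G.cut K then g e else r e, fun e he => if_pos he, fun e he => ?_⟩
    dsimp only
    split_ifs with k
    exacts [hg e k, (hA e he _).2 (Or.inl rfl)]
  have h1 : (4 : ℤ) ∣ ∑ v ∈ K, G.bd f v - 2 * (∑ v ∈ K, ∑ e ∈ G.A,
      (iv (G.s e = v) * iv (0 < a e * f e) + iv (G.t e = v) * iv (0 < b e * f e)) + K.card) := by
    rw [card_eq_sum_ones, Nat.cast_sum, ← sum_add_distrib, mul_sum, ← sum_sub_distrib]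
    refine dvd_sum fun v hv' => ?_
    have := Lift6_bd (f := f) (a := a) (b := b) hr (hε v) (fun e he k => hl e (at1 v hv' e he k))
      (fun e k => by rw [ha, k]) (fun e k => by rw [hb, k])
      fun e he k => (hA e (at1 v hv' e he k) _).1 (f2 e (at1 v hv' e he k))
    rw [hv v hv'] at this
    rcases hε v with k | k <;> rw [k] at this <;> omega
  have h2 : ∑ v ∈ K, G.bd f v = ∑ e ∈ G.A, G.kap (fun _ => 0) K e * f e := by
    rw [← sum_bd]
    simp
  have h3 : (2 : ℤ) ∣ ∑ v ∈ K, ∑ e ∈ G.A,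
      (iv (G.s e = v) * iv (0 < a e * f e) + iv (G.t e = v) * iv (0 < b e * f e)) -
      ((((G.ins K).filter fun e => ¬ a e = b e).card : ℤ) + B.card) := by
    rw [sum_comm, card_eq_sum_ones, card_eq_sum_ones, Nat.cast_sum, Nat.cast_sum,
      sub _ ((filter_subset _ _).trans ins_sub_A),
      sub B fun e he => (mem_cut.1 ((hB e).1 he).1).1, ← sum_add_distrib, ← sum_sub_distrib]
    refine dvd_sum fun e he => ?_
    rw [sum_add_distrib, sum_iv, sum_iv]
    simp only [hB, mem_filter, mem_ins, he, true_and, iv]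
    by_cases k1 : G.s e ∈ K <;> by_cases k2 : G.t e ∈ K
    · have k3 := (hA e (mem_tch.2 ⟨he, Or.inl k1⟩) _).1 (f2 e (mem_tch.2 ⟨he, Or.inl k1⟩))
      have k4 := hr e
      have k5 : e ∉ G.cut K := by simp [mem_cut, k1, k2]
      have k6 : a e = 1 ∨ a e = -1 := ha e ▸ hε _
      have k7 : b e = 1 ∨ b e = -1 := by
        rw [hb]
        rcases hε (G.t e) with k | k <;> rcases Lift6_chi (G.n e) with k' | k' <;> simp [k, k']
      simp only [k1, k2, k5, if_true, false_and, if_false, true_and]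
      rcases k6 with k6 | k6 <;> rcases k7 with k7 | k7 <;> rw [k6, k7] <;>
        rcases lt_or_gt_of_ne (show f e ≠ 0 by omega) with k | k <;> simp [k, k.not_gt]
    · have k5 : e ∈ G.cut K := by simp [mem_cut, k1, k2, he]
      simp [k1, k2, k5, f1 e k5]
    · have k5 : e ∈ G.cut K := by simp [mem_cut, k1, k2, he]
      simp [k1, k2, k5, f1 e k5]
    · have k5 : e ∉ G.cut K := by simp [mem_cut, k1, k2]
      simp [k1, k2, k5]
  have h4 : (4 : ℤ) ∣ ∑ e ∈ G.A, G.kap (fun _ => 0) K e * f e - (∑ e ∈ G.cut K, G.out K g e +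
      2 * ∑ e ∈ O ∩ G.ins K, ((G.n e).val : ℤ)) := by
    rw [sub (G.cut K) fun e he => (mem_cut.1 he).1, sub _ (inter_subset_right.trans ins_sub_A),
      mul_sum, ← sum_add_distrib, ← sum_sub_distrib]
    refine dvd_sum fun e he => ?_
    by_cases k5 : e ∈ G.cut K
    · simp [k5, f1 e k5, out, not_ins_of_cut k5]
    by_cases k1 : G.s e ∈ K
    · have k2 : G.t e ∈ K := by simpa [mem_cut, he, k1] using k5
      have k3 := (f2 e (mem_tch.2 ⟨he, Or.inl k1⟩)).2.1
      rw [Int.odd_iff] at k3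
      simp only [k5, if_false, mem_inter, mem_ins, he, k1, k2, and_true, kap, iv, if_true,
        chi_zero]
      rcases z2 (G.n e) with k | k <;> rw [k]
      · simp
      · rw [chi_one, show (1 : ZMod 2).val = 1 from rfl]
        split_ifs with k4
        · have := k3.2 k4
          omega
        · have := mt k3.1 k4
          omega
    · have k2 : G.t e ∉ K := by simpa [mem_cut, he, k1] using k5
      simp [k5, mem_ins, k1, kap_out k1 k2]
  have h5 : (2 : ℤ) ∣ ((G.par (O ∩ G.ins K)).val : ℤ) - ∑ e ∈ O ∩ G.ins K, ((G.n e).val : ℤ) := by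
    refine (ZMod.intCast_zmod_eq_zero_iff_dvd _ 2).1 ?_
    simp [par]
  rw [Df, and_iff_right hg, Nat.odd_iff]
  omega

theorem lift6 (hc : G.Cub) (hW : W ⊆ G.vs G.A) (hl : ∀ e ∈ G.tch W, G.s e ≠ G.t e) (hOA : O ⊆ G.A)
    (hO : ∀ v ∈ W, G.dg O v = 0) (hφ : G.Sl W O ∅ φ) (hP : P ⊆ G.cut W)
    (hh : ∀ e ∈ P, Av O φ e (h e)) (w : V → ℕ) (wp : E → ℕ) (hwp : ∀ e ∈ P, |h e| ≤ wp e)
    (hK : ∀ K ⊂ W, K.Nonempty → (∀ e ∈ G.cut K, e ∈ G.cut W → e ∈ P) → ∀ g, G.Df O φ K g →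
      6 ≤ ∑ e ∈ G.cut K \ P, |g e| + ∑ e ∈ G.cut K ∩ P, max |g e| (wp e : ℤ) +
        ∑ v ∈ K, (w v : ℤ))
    (ht : (P = G.cut W ∧ ¬ G.Df O φ W h ∧ ∑ v ∈ W, w v + ∑ e ∈ P, wp e < 12) ∨
      (P ≠ G.cut W ∧ ∑ v ∈ W, w v + ∑ e ∈ P, wp e < 6)) :
    ∃ f : E → ℤ, (∀ e ∈ P, f e = h e) ∧ (∀ v ∈ W, G.bd f v = 0) ∧
      ∀ e ∈ G.tch W, Av O φ e (f e) := by
  have at1 : ∀ v ∈ W, ∀ e ∈ G.A, G.At e v → e ∈ G.tch W := fun v hv e he k =>
    mem_tch.2 ⟨he, by rcases k with rfl | rfl <;> simp [hv]⟩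
  choose r r1 r5 r0 using fun e => Lift6_r (O := O) (φ := φ) e
  have hr : ∀ e, 1 ≤ r e ∧ r e ≤ 5 := fun e => ⟨r1 e, r5 e⟩
  have hA : ∀ e ∈ G.tch W, ∀ x, Av O φ e x ↔ x = r e ∨ x = r e - 6 := fun e he =>
    r0 e (hφ.2.1 e he)
  have k0 : ∀ v, ∃ η : ℤ, (η = 1 ∨ η = -1) ∧ (v ∈ W → ∑ e ∈ G.A,
      (iv (G.s e = v) * |Lift6_u (r e) (-η)| +
        iv (G.t e = v) * |Lift6_u (r e) (-(-η * chi (G.n e)))|) = 6) := fun v => by
    by_cases hv : v ∈ W
    · obtain ⟨η, k1, k2⟩ := Lift6_eps hr ((hc v).resolve_left (deg_pos.2 (hW hv)).ne')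
        (fun e he k => hl e (at1 v hv e he k)) hOA (hO v hv) (hφ.1 v hv)
        fun e he k => hA e (at1 v hv e he k)
      exact ⟨η, k1, fun _ => k2⟩
    · exact ⟨1, Or.inl rfl, fun k => absurd k hv⟩
  choose ε hε e6 using k0
  obtain ⟨a, ha⟩ : ∃ a : E → ℤ, ∀ e, a e = ε (G.s e) := ⟨_, fun _ => rfl⟩
  obtain ⟨b, hb⟩ : ∃ b : E → ℤ, ∀ e, b e = -ε (G.t e) * chi (G.n e) := ⟨_, fun _ => rfl⟩
  have a1 : ∀ e, a e = 1 ∨ a e = -1 := fun e => ha e ▸ hε _
  have b1 : ∀ e, b e = 1 ∨ b e = -1 := fun e => by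
    rw [hb]
    rcases hε (G.t e) with k | k <;> rcases Lift6_chi (G.n e) with k' | k' <;> simp [k, k']
  have t1 : ∀ (X : Finset V) e, (if G.s e ∈ X then a e else b e) = 1 ∨
      (if G.s e ∈ X then a e else b e) = -1 := fun X e => by
    split_ifs
    exacts [a1 e, b1 e]
  have t2 : ∀ (X : Finset V) e, (if G.s e ∈ X then |Lift6_u (r e) (-a e)|
      else |Lift6_u (r e) (-b e)|) = |Lift6_u (r e) (-(if G.s e ∈ X then a e else b e))| :=
    fun X e => by split_ifs <;> rfl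
  have hv : ∀ v ∈ W, ∑ e ∈ G.A, (iv (G.s e = v) * |Lift6_u (r e) (-a e)| +
      iv (G.t e = v) * |Lift6_u (r e) (-b e)|) = 6 := fun v hv => by
    rw [← e6 v hv]
    refine sum_congr rfl fun e _ => ?_
    rw [ha, hb]
    unfold iv
    split_ifs with k1 k2 k2 <;> simp [*]
  have hx : ∀ e ∈ P, h e = if 0 < (if G.s e ∈ W then a e else b e) * h e then
      Lift6_u (r e) (if G.s e ∈ W then a e else b e)
      else Lift6_u (r e) (-(if G.s e ∈ W then a e else b e)) := fun e he =>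
    (Lift6_u2 (r1 e) (r5 e) (t1 W e) ((hA e (cut_sub_tch (hP he)) _).1 (hh e he))).1
  obtain ⟨Q, q1, q2, q3⟩ := Lift6_core (G := G) (W := W) (P := P)
    (Pk := P.filter fun e => 0 < (if G.s e ∈ W then a e else b e) * h e) (ty := fun e => a e = b e)
    (y1 := fun e => |Lift6_u (r e) (-a e)|) (y2 := fun e => |Lift6_u (r e) (-b e)|) (w := w)
    (wp := wp) hP (filter_subset _ _) hl (fun e => ⟨abs_nonneg _, abs_nonneg _⟩)
    (fun e _ => ⟨fun k => by rw [k], fun k => by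
      have k1 := (Lift6_u1 (r1 e) (r5 e) (a1 e)).2.2.2.2
      have k2 : -b e = a e := by
        have := a1 e
        have := b1 e
        omega
      rw [k2]
      omega⟩)
    (fun v hv' => (hv v hv').le)
    (fun e he => by
      obtain ⟨k1, k2⟩ := mem_filter.1 he
      have k3 := hwp e k1
      have k4 := (Lift6_u1 (r1 e) (r5 e) (t1 W e)).2.2.2.2
      rw [hx e k1, if_pos k2] at k3
      rw [t2]
      omega)
    (fun K kW B kB k1 k2 => by
      obtain ⟨g, hg⟩ : ∃ g : E → ℤ, ∀ e, g e = if e ∈ B then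
          Lift6_u (r e) (if G.s e ∈ K then a e else b e)
          else Lift6_u (r e) (-(if G.s e ∈ K then a e else b e)) := ⟨_, fun _ => rfl⟩
      have g1 : G.Df O φ K g := by
        refine (Lift6_par hr hε ha hb (fun e he => hl e (tch_mono kW he))
          (fun e he => hA e (tch_mono kW he)) (fun v hv' => hv v (kW hv')) (fun e he => ?_)
          fun e => ?_).2 k2
        · rw [hA e (tch_mono kW (cut_sub_tch he)), hg]
          have := Lift6_u1 (r1 e) (r5 e) (t1 K e)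
          by_cases k : e ∈ B
          · rw [if_pos k]
            exact this.1
          · rw [if_neg k]
            exact this.2.1
        · have := Lift6_u1 (r1 e) (r5 e) (t1 K e)
          rw [hg]
          by_cases k : e ∈ B
          · exact iff_of_true k ⟨kB k, by rw [if_pos k]; exact this.2.2.1⟩
          · exact iff_of_false k fun k3 => this.2.2.2.1 (by rw [if_neg k] at k3; exact k3.2)
      have g2 : ∀ e ∈ G.cut K, e ∈ G.cut W → g e = h e := fun e k3 k4 => by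
        obtain ⟨k5, k6⟩ := k1 e k3 k4
        have k7 : G.s e ∈ K ↔ G.s e ∈ W := by
          have k8 := (mem_cut.1 k3).2
          have k9 := (mem_cut.1 k4).2
          have := @kW (G.s e)
          have := @kW (G.t e)
          grind
        rw [hg, hx e k5]
        simp only [k6, k7, mem_filter, k5, true_and]
      by_cases k3 : K = W
      · subst k3
        have k4 : P = G.cut K := Subset.antisymm hP fun e he => (k1 e he he).1
        rcases ht with ⟨-, k5, -⟩ | ⟨k5, -⟩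
        · refine absurd ⟨fun e he => g2 e he he ▸ g1.1 e he, fun k => g1.2 ?_⟩ k5
          rwa [sum_congr rfl fun e he => show G.out K g e = G.out K h e by
            rw [out, out, g2 e he he]]
        · exact absurd k4 k5
      have k4 := hK K (ssubset_of_ne_of_subset k3 kW) (by
        rw [nonempty_iff_ne_empty]
        rintro rfl
        have e1 : G.ins ∅ = ∅ := by simp [ins]
        have e2 : B = ∅ := by simpa [cut, crs] using kB
        simp [e1, e2] at k2) (fun e k5 k6 => (k1 e k5 k6).1) g g1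
      refine k4.trans (le_of_eq ?_)
      congr 2
      · refine sum_congr rfl fun e _ => ?_
        rw [hg, t2]
        split_ifs
        exacts [(Lift6_u1 (r1 e) (r5 e) (a1 e)).2.2.2.2, (Lift6_u1 (r1 e) (r5 e) (b1 e)).2.2.2.2,
          rfl, rfl]
      · refine sum_congr rfl fun e he => ?_
        obtain ⟨k5, k6⟩ := mem_inter.1 he
        rw [g2 e k5 (hP k6)]
        exact max_eq_right (hwp e k6))
    (ht.imp (fun k => ⟨k.1, by
      rw [← Nat.not_odd_iff_even, ← Lift6_par hr hε ha hb hl hA hv (k.1 ▸ hh)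
        fun e => by rw [mem_filter, k.1]]
      exact k.2.1, k.2.2⟩) fun k => k.2)
  classical
  obtain ⟨f, hf⟩ : ∃ f : E → ℤ, ∀ e, f e = if Q (G.ie W e) e then
      Lift6_u (r e) (if G.s e ∈ W then a e else b e)
      else Lift6_u (r e) (-(if G.s e ∈ W then a e else b e)) := ⟨_, fun _ => rfl⟩
  have f1 : ∀ e, f e = r e ∨ f e = r e - 6 := fun e => by
    have := Lift6_u1 (r1 e) (r5 e) (t1 W e)
    rw [hf]
    by_cases k : Q (G.ie W e) e
    · rw [if_pos k]
      exact this.1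
    · rw [if_neg k]
      exact this.2.1
  have f2 : ∀ e, 0 < (if G.s e ∈ W then a e else b e) * f e ↔ Q (G.ie W e) e := fun e => by
    have := Lift6_u1 (r1 e) (r5 e) (t1 W e)
    rw [hf]
    by_cases k : Q (G.ie W e) e
    · rw [if_pos k]
      exact iff_of_true this.2.2.1 k
    · rw [if_neg k]
      exact iff_of_false this.2.2.2.1 k
  refine ⟨f, fun e he => ?_, fun v hv' => ?_, fun e he => (hA e he _).2 (f1 e)⟩
  · rw [hf, hx e he]
    simp only [q3 e he, mem_filter, he, true_and]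
  · obtain ⟨e0, k1, k2, k3⟩ := q1 v hv'
    have k4 := Lift6_bd (f := f) (a := a) (b := b) hr (hε v)
      (fun e he k => hl e (at1 v hv' e he k)) (fun e k => by rw [ha, k])
      (fun e k => by rw [hb, k]) fun e _ _ => f1 e
    have k5 : ∑ e ∈ G.A, (iv (G.s e = v) * iv (0 < a e * f e) +
        iv (G.t e = v) * iv (0 < b e * f e) : ℤ) = ∑ e ∈ G.A, if e = e0 then 1 else 0 := by
      refine sum_congr rfl fun e he => ?_
      have k6 := f2 e
      by_cases s1 : G.s e = v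
      · have s2 : G.t e ≠ v := fun k => hl e (at1 v hv' e he (Or.inl s1)) (s1.trans k.symm)
        simp only [ie, s1, hv', if_true, k3] at k6
        simp only [iv, s1, s2, k6, if_true, if_false, one_mul, zero_mul, add_zero]
      by_cases s2 : G.t e = v
      · have k7 : 0 < b e * f e ↔ e = e0 := by
          rw [← k3, ← s2]
          by_cases s3 : G.s e ∈ W
          · simp only [ie, s3, if_true] at k6
            obtain ⟨k8, k9⟩ := q2 e (mem_ins.2 ⟨he, s3, s2 ▸ hv'⟩)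
            by_cases s4 : a e = b e
            · rw [← s4, k6, k8 s4]
            · have s5 : b e = -a e := by
                have := a1 e
                have := b1 e
                omega
              have s6 := k9 s4
              have s7 : 0 < b e * f e ↔ ¬ 0 < a e * f e := by
                have := f1 e
                have := hr e
                rw [s5]
                rcases a1 e with k | k <;> rw [k] <;> omega
              rw [s7, k6, s6, not_not]
          · simpa only [ie, s3, if_false] using k6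
        simp only [iv, s1, s2, k7, if_true, if_false, one_mul, zero_mul, zero_add]
      · have k7 : e ≠ e0 := by
          rintro rfl
          exact k2.elim s1 s2
        simp [iv, s1, s2, k7]
    rw [k5, hv v hv', sum_ite_eq', if_pos k1] at k4
    rcases hε v with k | k <;> rw [k] at k4 <;> omega

end SG

end Pool.Agent.Work.MP_8c679b_co
end
end

-- merged part: Pool.Agent.Work.MP_8c679b_co.A3.Defs
section
/-!
Definitions for three-sides with frustration at least two.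
-/

set_option autoImplicit false

namespace Pool.Agent.Work.MP_8c679b_co

open Finset

namespace SG

variable {V E : Type} [Fintype V] [DecidableEq V] [DecidableEq E] {G : SG V E}

variable (G)

/-- no single edge meets all odd circuits of `T` -/
def F2 (T : Finset V) : Prop := ∀ z, ¬ G.Bal ((G.ins T).erase z)

/-- the values two and four, with at most one four, extend into `T` -/
def Acc (T : Finset V) : Prop :=
  ∀ h : E → ℤ, (∀ e ∈ G.cut T, |h e| = 2 ∨ |h e| = 4) →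
    (∀ e ∈ G.cut T, ∀ e' ∈ G.cut T, |h e| = 4 → |h e'| = 4 → e = e') → G.Ext T h

/-- `T` can be contracted to a vertex -/
def Xn (T : Finset V) : Prop := ∃ q, ∀ h, G.Bv T h → G.tw q T h = 0 → G.Ext T h

/-- the statement about three-sides with frustration at least two -/
def A3 : Prop := ∀ T, G.T3 T → G.F2 T → G.Acc T ∨ G.Xn T

/-- an unbalanced side all of whose leaving edges lie in `O` and have a nonzero residue -/
def Bad (O : Finset E) (φ : E → ZMod 3) (S : Finset V) : Prop :=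
  G.US S ∧ ∀ e ∈ G.cut S, e ∈ O ∧ φ e ≠ 0

/-- a residue solution on `T` with the values `η` on the leaving edges and parity `ε` -/
def Rq (T : Finset V) (η : E → ZMod 3) (ε : ZMod 2) (O : Finset E) (φ : E → ZMod 3) : Prop :=
  G.St T O ∅ ∧ G.par O = ε ∧ G.Sl T O ∅ φ ∧ ∀ e ∈ G.cut T, φ e = η e

/-- a residue solution whose bad sides are met by `m` vertices -/
def Rs (T : Finset V) (η : E → ZMod 3) (ε : ZMod 2) (m : ℕ) : Prop :=
  ∃ O φ, ∃ M : Finset V, G.Rq T η ε O φ ∧ M.card ≤ m ∧ ∀ S ⊆ T, G.Bad O φ S → ¬ Disjoint S M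

/-- solutions with parity `ε` for all nonzero values on the leaving edges -/
def Rall (T : Finset V) (ε : ZMod 2) (m : ℕ) : Prop :=
  ∀ η : E → ZMod 3, (∀ e ∈ G.cut T, η e ≠ 0) → G.Rs T η ε m

/-- three-edge-connected graphs -/
def E3 : Prop := ∀ K ⊂ G.vs G.A, K.Nonempty → 3 ≤ (G.cut K).card

end SG

end Pool.Agent.Work.MP_8c679b_co
end

-- merged part: Pool.Agent.Work.MP_8c679b_co.Top.Defs
section
/-!
The interfaces of the top layer.
-/

set_option autoImplicit false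

namespace Pool.Agent.Work.MP_8c679b_co

open Finset

namespace SG

variable {V E : Type} [Fintype V] [DecidableEq V] [DecidableEq E] {G : SG V E}

variable (G)

/-- for given residues one leaving edge is free and the other two do not both have size four -/
def Pr (T : Finset V) : Prop :=
  ∀ η : E → ZMod 3, (∀ e ∈ G.cut T, η e ≠ 0) → ∃ i ∈ G.cut T, ∀ h : E → ℤ,
    (∀ e ∈ G.cut T, (|h e| = 2 ∨ |h e| = 4) ∧ (h e : ZMod 3) = η e) →
    (∀ e ∈ G.cut T, ∀ e' ∈ G.cut T, e ≠ i → e' ≠ i → |h e| = 4 → |h e'| = 4 → e = e') →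
    G.Ext T h

/-- two edges meet all odd circuits of `T` -/
def B2 (T : Finset V) : Prop := ∃ z z', G.Bal (((G.ins T).erase z).erase z')

/-- the statement about three-sides used by the top layer -/
def A3P : Prop :=
  ∀ T, G.T3 T → G.F2 T → (G.Rall T 0 1 ∧ G.Rall T 1 1) ∨ (G.Xn T ∧ G.B2 T)

/-- the outer ends of a port-free three-side are different -/
def N7 : Prop :=
  ∀ T, G.PF T → G.T3 T → ∀ e ∈ G.cut T, ∀ e' ∈ G.cut T, G.oe T e = G.oe T e' → e = e'

/-- all port-free three-sides have frustration at least two and are pair groups -/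
def N8 : Prop := ∀ T, G.PF T → G.T3 T → G.F2 T ∧ G.Pr T

/-- the pair lemma -/
def PairL : Prop := ∀ T, G.T3 T → G.Rall T 0 1 → G.Rall T 1 1 → G.Pr T

/-- the base case of the main induction with three-sides -/
def TopL : Prop :=
  G.Adm2 → G.Con → G.N1 → G.N2 → G.N3 → G.N5 → G.N7 → G.N8 → (∃ T, G.PF T ∧ G.T3 T) → G.Six

end SG

end Pool.Agent.Work.MP_8c679b_co
end

-- merged part: Pool.Agent.Work.MP_8c679b_co.Top.LDefs
section
/-!
The interface of the lifting layer: pieces, weights, the deficiency condition, final states.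
-/

set_option autoImplicit false

namespace Pool.Agent.Work.MP_8c679b_co

open Finset

namespace SG

variable {V E : Type} [Fintype V] [DecidableEq V] [DecidableEq E] {G : SG V E}

variable (G)

/-- pieces of `Y`: two-edge-connected sets that are left inside `Y` only through bridges -/
def Pc (Y W : Finset V) : Prop :=
  W ⊆ Y ∧ W.Nonempty ∧ G.Two W (G.ins W) ∧ ∀ e ∈ G.cut W, e ∈ G.ins Y → G.Bri Y e

/-- the weight of a leaving edge of `W`; the edges of `R` are protected -/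
def wt (O M R : Finset E) (W : Finset V) (e : E) : ℕ :=
  if e ∈ G.cut W then (if e ∈ O then (if e ∈ R then 1 else 3) else if e ∈ M then 2 else 4) else 0

/-- the deficiency condition; `M` is the set of edges that lead to a group -/
def DL (Y : Finset V) (O : Finset E) (φ : E → ZMod 3) (M : Finset E) : Prop :=
  ∀ W, G.Pc Y W → (3 ≤ (G.cut W).card ∨ Disjoint (G.cut W) M) ∧
    ∃ R ⊆ G.cut W ∩ O, (R.card = 2 ∨ Disjoint (G.cut W) O) ∧
      ∀ K ⊆ W, K.Nonempty → (∀ e ∈ G.cut K, e ∈ G.cut Y → e ∉ O) → ∀ g, G.Df O φ K g →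
        6 ≤ ∑ e ∈ G.cut K, max |g e| (G.wt O M R W e : ℤ)

/-- final states: `Y` is the part that is lifted, `TN` the three-sides that are cut out, `Hh` the
hard digons -/
structure Fs (Y : Finset V) (TN Hh : Finset (Finset V)) (O : Finset E) (φ : E → ZMod 3) :
    Prop where
  act : Y ⊆ G.vs G.A
  nl : ∀ v ∈ Y, ¬ G.Lv v
  pd : PD (TN ∪ Hh)
  out : ∀ N ∈ TN ∪ Hh, Disjoint N Y
  cov : ∀ v ∈ G.vs G.A, v ∈ Y ∨ (∃ N ∈ TN ∪ Hh, v ∈ N) ∨ G.Lv v
  tn : ∀ T ∈ TN, G.T3 T ∧ G.Pr T ∧ ∀ e ∈ G.cut T, e ∈ G.tch Y → e ∉ O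
  hh : ∀ N ∈ Hh, G.Dg N ∧ G.cut N ⊆ O ∧ G.cut N ⊆ G.tch Y ∧
    (∃ e ∈ G.cut N, φ e = 0) ∧ ∃ e ∈ G.cut N, φ e ≠ 0
  lv : ∀ l, G.Lv l → ∀ e ∈ G.cut {l}, (e ∈ G.tch Y ∧ e ∉ O) ∨ e ∈ G.ends TN
  oa : O ⊆ G.A
  ev : ∀ v ∈ Y, G.dg O v = 0
  sl : G.Sl Y O ∅ φ
  dl : G.DL Y O φ (G.cut Y ∩ G.ends TN)

/-- the standing hypotheses of a lift -/
structure Lx (W : Finset V) (O : Finset E) (φ : E → ZMod 3) : Prop where
  cub : G.Cub
  act : W ⊆ G.vs G.A
  nl : ∀ e ∈ G.tch W, G.s e ≠ G.t e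
  oa : O ⊆ G.A
  ev : ∀ v ∈ W, G.dg O v = 0
  sl : G.Sl W O ∅ φ

/-- lifts of a residue solution on `W` -/
def Lf (W : Finset V) (O : Finset E) (φ : E → ZMod 3) (f : E → ℤ) : Prop :=
  (∀ v ∈ W, G.bd f v = 0) ∧ ∀ e ∈ G.tch W, Av O φ e (f e)

/-- every vertex of `W` picks one edge -/
def Pick (W : Finset V) (ty : E → Prop) (Q : V → E → Prop) : Prop :=
  (∀ v ∈ W, ∃ e0 ∈ G.A, G.At e0 v ∧ ∀ e, Q v e ↔ e = e0) ∧
    ∀ e ∈ G.ins W, (ty e → (Q (G.s e) e ↔ Q (G.t e) e)) ∧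
      (¬ ty e → (Q (G.s e) e ↔ ¬ Q (G.t e) e))

/-- the node that represents a prescribed edge -/
def Tnu (W : Finset V) (Pk : Finset E) (e : E) : V ⊕ E :=
  if e ∈ Pk then Sum.inr e else Sum.inl (G.ie W e)

/-- the standing hypotheses of the matching problem: `P` prescribed, `Pk` picked, `D` the edges
with a node -/
structure Mx (W : Finset V) (P Pk D : Finset E) (ty : E → Prop) : Prop where
  sub : P ⊆ G.cut W
  pk : Pk ⊆ P
  nl : ∀ e ∈ G.tch W, G.s e ≠ G.t e
  mem : ∀ e, e ∈ D ↔ e ∈ G.tch W ∧ (e ∈ G.ins W → ¬ ty e) ∧ (e ∈ P → e ∈ Pk)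

/-- odd sets of nodes that avoid `M`, contain no free node and are left only towards `M` -/
def Odc (W : Finset V) (P D : Finset E) (ty : E → Prop) (M K : Finset (V ⊕ E)) : Prop :=
  K ⊆ W.disjSum D ∧ Disjoint K M ∧ Odd K.card ∧ (∀ e, Sum.inr e ∈ K → e ∈ G.cut W → e ∈ P) ∧
    ∀ a ∈ K, ∀ b ∈ W.disjSum D, G.Lift6_adj W ty a b → b ∈ K ∨ b ∈ M

/-- the condition of Tutte with absorbers `Ab`; the absorber `j` serves the edges `nb j` -/
def Tut {ι : Type} (W : Finset V) (P Pk D : Finset E) (ty : E → Prop) (Ab : Finset ι)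
    (nb : ι → Finset E) : Prop :=
  ∀ M ⊆ W.disjSum D, ∀ A' ⊆ Ab, ∀ Ks : Finset (Finset (V ⊕ E)), PD Ks →
    (∀ K ∈ Ks, G.Odc W P D ty M K ∧ ∀ j ∈ Ab, ∀ e ∈ nb j, G.Tnu W Pk e ∈ K → j ∈ A') →
    Ks.card ≤ M.card + A'.card

/-- the data that translate a residue solution into a matching problem -/
structure Frm (W : Finset V) (O : Finset E) (φ : E → ZMod 3) (r a b : E → ℤ) (ε : V → ℤ) :
    Prop where
  hr : ∀ e, 1 ≤ r e ∧ r e ≤ 5
  av : ∀ e ∈ G.tch W, ∀ x, Av O φ e x ↔ x = r e ∨ x = r e - 6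
  eps : ∀ v, ε v = 1 ∨ ε v = -1
  ha : ∀ e, a e = ε (G.s e)
  hb : ∀ e, b e = -ε (G.t e) * chi (G.n e)
  hv : ∀ v ∈ W, ∑ e ∈ G.A, (iv (G.s e = v) * |Lift6_u (r e) (-a e)| +
    iv (G.t e = v) * |Lift6_u (r e) (-b e)|) = 6
  nl : ∀ e ∈ G.tch W, G.s e ≠ G.t e

variable {G}

theorem Lx.mono {W X : Finset V} {O : Finset E} {φ : E → ZMod 3} (h : G.Lx W O φ) (hX : X ⊆ W) :
    G.Lx X O φ :=
  ⟨h.cub, hX.trans h.act, fun e he => h.nl e (tch_mono hX he), h.oa, fun v hv => h.ev v (hX hv),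
    fun v hv => h.sl.1 v (hX hv), fun e he => h.sl.2.1 e (tch_mono hX he), fun _ k => k.elim⟩

end SG

end Pool.Agent.Work.MP_8c679b_co
end

-- merged part: Pool.Agent.Work.MP_8c679b_co.Top.LRad
section
/-!
The condition of Tutte with absorbers from systems of picks for every set of absorbers.
-/

set_option autoImplicit false

namespace Pool.Agent.Work.MP_8c679b_co

open Finset

namespace SG

variable {V E : Type} [Fintype V] [DecidableEq V] [DecidableEq E] {G : SG V E}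
  {W : Finset V} {P Pk D : Finset E} {ty : E → Prop} {ι : Type} {Ab : Finset ι}
  {nb : ι → Finset E} {Q : V → E → Prop}

/-- the pairs of nodes matched by a system of picks -/
def LRad_R (G : SG V E) (W : Finset V) (D : Finset E) (ty : E → Prop) (Q : V → E → Prop) :
    V ⊕ E → V ⊕ E → Prop
  | Sum.inl u, Sum.inl v => u ∈ W ∧ v ∈ W ∧ ∃ e ∈ G.ins W, ty e ∧ G.Je e u v ∧ Q u e ∧ Q v e
  | Sum.inl u, Sum.inr e => u ∈ W ∧ e ∈ D ∧ Q u e
  | Sum.inr e, Sum.inl u => u ∈ W ∧ e ∈ D ∧ Q u e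
  | Sum.inr _, Sum.inr _ => False

omit [Fintype V] [DecidableEq E] in
theorem LRad_symm {a b : V ⊕ E} (h : G.LRad_R W D ty Q a b) : G.LRad_R W D ty Q b a := by
  rcases a with u | e <;> rcases b with v | f
  · obtain ⟨h1, h2, e, h3, h4, h5, h6, h7⟩ := h
    exact ⟨h2, h1, e, h3, h4, h5.symm, h7, h6⟩
  · exact h
  · exact h
  · exact h

omit [Fintype V] [DecidableEq E] in
theorem LRad_at (hQ : G.Pick W ty Q) {v : V} {e : E} (hv : v ∈ W) (h : Q v e) :
    e ∈ G.A ∧ G.At e v ∧ ∀ f, Q v f → f = e := by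
  obtain ⟨e0, h1, h2, h3⟩ := hQ.1 v hv
  obtain rfl := (h3 e).1 h
  exact ⟨h1, h2, fun f hf => (h3 f).1 hf⟩

omit [Fintype V] in
theorem LRad_fun (hm : G.Mx W P Pk D ty) (hQ : G.Pick W ty Q) {a b b' : V ⊕ E}
    (h : G.LRad_R W D ty Q a b) (h' : G.LRad_R W D ty Q a b') : b = b' := by
  rcases a with u | e <;> rcases b with v | f <;> rcases b' with v' | f'
  · obtain ⟨h1, -, e, -, -, h5, h6, -⟩ := h
    obtain ⟨-, -, e', -, -, k5, k6, -⟩ := h'
    obtain rfl := (LRad_at hQ h1 h6).2.2 e' k6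
    congr 1
    rcases h5 with ⟨p1, p2⟩ | ⟨p1, p2⟩ <;> rcases k5 with ⟨q1, q2⟩ | ⟨q1, q2⟩
    · exact p2.symm.trans q2
    · exact p2.symm.trans (q2.trans (p1.symm.trans q1))
    · exact p1.symm.trans (q1.trans (p2.symm.trans q2))
    · exact p1.symm.trans q1
  · obtain ⟨h1, -, e, h3, h4, -, h6, -⟩ := h
    obtain rfl := (LRad_at hQ h1 h6).2.2 f' h'.2.2
    exact absurd h4 (((hm.mem _).1 h'.2.1).2.1 h3)
  · obtain ⟨h1, -, e, h3, h4, -, h6, -⟩ := h'
    obtain rfl := (LRad_at hQ h1 h6).2.2 f h.2.2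
    exact absurd h4 (((hm.mem _).1 h.2.1).2.1 h3)
  · exact congrArg _ ((LRad_at hQ h.1 h'.2.2).2.2 f h.2.2)
  · congr 1
    obtain ⟨h1, h2, h3⟩ := h
    obtain ⟨k1, -, k3⟩ := h'
    obtain ⟨hA, p, -⟩ := LRad_at hQ h1 h3
    obtain ⟨-, q, -⟩ := LRad_at hQ k1 k3
    rcases p with rfl | rfl <;> rcases q with q | q
    · exact q
    · subst q
      have hi := mem_ins.2 ⟨hA, h1, k1⟩
      exact absurd k3 (((hQ.2 e hi).2 (((hm.mem _).1 h2).2.1 hi)).1 h3)
    · subst q
      have hi := mem_ins.2 ⟨hA, k1, h1⟩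
      exact absurd h3 (((hQ.2 e hi).2 (((hm.mem _).1 h2).2.1 hi)).1 k3)
    · exact q
  · exact h'.elim
  · exact h.elim
  · exact h.elim

omit [Fintype V] [DecidableEq E] in
theorem LRad_adj (hQ : G.Pick W ty Q) {a b : V ⊕ E} (h : G.LRad_R W D ty Q a b) :
    b ∈ W.disjSum D ∧ G.Lift6_adj W ty a b := by
  rcases a with u | e <;> rcases b with v | f
  · obtain ⟨-, h2, e, h3, h4, h5, -⟩ := h
    exact ⟨inl_mem_disjSum.2 h2, e, h3, h4, h5⟩
  · exact ⟨inr_mem_disjSum.2 h.2.1, (LRad_at hQ h.1 h.2.2).2.1⟩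
  · exact ⟨inl_mem_disjSum.2 h.1, (LRad_at hQ h.1 h.2.2).2.1⟩
  · exact h.elim

theorem LRad_tot (hm : G.Mx W P Pk D ty) (hQ : G.Pick W ty Q) {a : V ⊕ E} (ha : a ∈ W.disjSum D)
    (hf : ¬ (∃ e, a = Sum.inr e ∧ e ∈ G.cut W ∧ e ∉ P)) : (∃ b, G.LRad_R W D ty Q a b) ∨
      ∃ e ∈ P, G.Tnu W Pk e = a ∧ ¬ (Q (G.ie W e) e ↔ e ∈ Pk) := by
  rcases a with v | e
  · have hv := inl_mem_disjSum.1 ha
    obtain ⟨e, h1, h2, h3⟩ := hQ.1 v hv
    have h4 : Q v e := (h3 e).2 rfl
    have ht : e ∈ G.tch W := mem_tch.2 ⟨h1, by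
      rcases h2 with k | k
      exacts [Or.inl (k ▸ hv), Or.inr (k ▸ hv)]⟩
    by_cases hD : e ∈ D
    · exact Or.inl ⟨Sum.inr e, hv, hD, h4⟩
    by_cases hi : e ∈ G.ins W ∧ ty e
    · have h5 := (hQ.2 e hi.1).1 hi.2
      rcases h2 with rfl | rfl
      · exact Or.inl ⟨Sum.inl (G.t e), hv, (mem_ins.1 hi.1).2.2, e, hi.1, hi.2, Or.inl ⟨rfl, rfl⟩,
          h4, h5.1 h4⟩
      · exact Or.inl ⟨Sum.inl (G.s e), hv, (mem_ins.1 hi.1).2.1, e, hi.1, hi.2, Or.inr ⟨rfl, rfl⟩,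
          h4, h5.2 h4⟩
    · have h5 : e ∈ P ∧ e ∉ Pk := by
        by_contra h6
        exact hD ((hm.mem e).2 ⟨ht, fun k k' => hi ⟨k, k'⟩, fun k => by
          by_contra k'
          exact h6 ⟨k, k'⟩⟩)
      have h6 := eq_ie (hm.sub h5.1) hv h2
      refine Or.inr ⟨e, h5.1, ?_, fun k => h5.2 (k.1 (h6 ▸ h4))⟩
      rw [Tnu, if_neg h5.2, ← h6]
  · have hD := inr_mem_disjSum.1 ha
    obtain ⟨ht, h1, h2⟩ := (hm.mem e).1 hD
    by_cases hv : ∃ v ∈ W, Q v e
    · obtain ⟨v, h3, h4⟩ := hv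
      exact Or.inl ⟨Sum.inl v, h3, hD, h4⟩
    rcases mem_tch_iff.1 ht with hi | hc
    · have h3 := (hQ.2 e hi).2 (h1 hi)
      exact absurd ⟨_, (mem_ins.1 hi).2.1, h3.2 fun k => hv ⟨_, (mem_ins.1 hi).2.2, k⟩⟩ hv
    · have hP : e ∈ P := by
        by_contra k
        exact hf ⟨e, rfl, hc, k⟩
      refine Or.inr ⟨e, hP, ?_, fun k => hv ⟨_, ie_mem ht, k.2 (h2 hP)⟩⟩
      rw [Tnu, if_pos (h2 hP)]

/-- The partner map of a system of picks.
HINT: choose the edge `c v` picked by `v ∈ W`.  `m (inl v) = inr (c v)` if `c v ∈ D`; if `c v ∉ D` and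
`c v ∈ ins W` (then `ty`) it is the other end of `c v`, which picks the same edge; otherwise
(`c v ∈ P`, not in `Pk`, `ie W (c v) = v`: violated) `m (inl v) = inl v`.  `m (inr e) = inl v` if an end
`v ∈ W` of `e` picks `e` (for an inner edge of `D` exactly one end does), else `inr e` (then
`e ∈ cut W`, and if `e ∈ P` it is in `Pk` and violated). -/
theorem LRad_map (hm : G.Mx W P Pk D ty) (hQ : G.Pick W ty Q) :
    ∃ m : V ⊕ E → V ⊕ E, ∀ a ∈ W.disjSum D, ¬ (∃ e, a = Sum.inr e ∧ e ∈ G.cut W ∧ e ∉ P) →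
      (m a ∈ W.disjSum D ∧ m (m a) = a ∧ G.Lift6_adj W ty a (m a)) ∨
        ∃ e ∈ P, G.Tnu W Pk e = a ∧ ¬ (Q (G.ie W e) e ↔ e ∈ Pk) := by
  classical
  obtain ⟨m, hm1⟩ : ∃ m : V ⊕ E → V ⊕ E, ∀ a, (∃ b, G.LRad_R W D ty Q a b) →
      G.LRad_R W D ty Q a (m a) :=
    ⟨fun a => if h : ∃ b, G.LRad_R W D ty Q a b then h.choose else a, fun a h => by
      beta_reduce
      rw [dif_pos h]
      exact h.choose_spec⟩
  refine ⟨m, fun a ha hf => (LRad_tot hm hQ ha hf).imp_left fun h => ?_⟩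
  have h1 := hm1 a h
  have h2 := LRad_symm h1
  exact ⟨(LRad_adj hQ h1).1, LRad_fun hm hQ (hm1 _ ⟨a, h2⟩) h2, (LRad_adj hQ h1).2⟩

/-- HINT: take the system for `S = A'` and `m` from `LRad_map`.  Every `K ∈ Ks` contains a node `a`
with `m a ∈ M` (first case) or with a violated edge `e`, `Tnu W Pk e = a` (then `e ∈ Vi`): otherwise
`m` is an involution of `K` without fixed point (`Lift6_adj` is irreflexive by `hm.nl`) and `K.card`
is even (`Finset.card_involution`-like argument: `Finset.sum_involution` over `ZMod 2` for the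
constant one).  Map `K` to `inl (m a)` or `inr e` in `M.disjSum Vi`; this is injective on `Ks`
because `a` is recovered (`m (m a) = a`, `Tnu`) and the members of `Ks` are disjoint
(`card_le_card_of_injOn`, or `card_le_card_of_forall_subsingleton`). -/
theorem Top_rad (hm : G.Mx W P Pk D ty)
    (h : ∀ S ⊆ Ab, ∃ Q, G.Pick W ty Q ∧ ∃ Vi : Finset E, Vi.card ≤ S.card ∧
      ∀ e ∈ P, (∀ j ∈ Ab, e ∈ nb j → j ∈ S) → e ∉ Vi → (Q (G.ie W e) e ↔ e ∈ Pk)) :
    G.Tut W P Pk D ty Ab nb := by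
  classical
  intro M _ A' hA' Ks hPD hK
  obtain ⟨Q, hQ, Vi, hVi, hV⟩ := h A' hA'
  obtain ⟨m, hm'⟩ := LRad_map hm hQ
  have key : ∀ K ∈ Ks, ∃ x, x ∈ M.disjSum Vi ∧ Sum.elim m (G.Tnu W Pk) x ∈ K := by
    intro K hKs
    obtain ⟨⟨k1, -, k3, k4, k5⟩, k6⟩ := hK K hKs
    by_contra hc
    have h1 : ∀ a ∈ K, m a ∈ K ∧ m (m a) = a ∧ m a ≠ a := by
      intro a ha
      rcases hm' a (k1 ha) (by
        rintro ⟨e, rfl, p1, p2⟩
        exact p2 (k4 e ha p1)) with ⟨p1, p2, p3⟩ | ⟨e, p1, p2, p3⟩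
      · refine ⟨(k5 a ha _ p1 p3).resolve_right fun q => hc ⟨Sum.inl (m a),
          inl_mem_disjSum.2 q, (congrArg (· ∈ K) p2).mpr ha⟩, p2, fun q => ?_⟩
        rw [q] at p3
        rcases a with v | e
        · obtain ⟨e, q1, -, q2⟩ := p3
          refine hm.nl e (ins_sub_tch q1) ?_
          rcases q2 with ⟨r1, r2⟩ | ⟨r1, r2⟩ <;> exact r1.trans r2.symm
        · exact p3
      · subst p2
        refine absurd ⟨Sum.inr e, inr_mem_disjSum.2 ?_, ha⟩ hc
        by_contra q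
        exact p3 (hV e p1 (fun j hj he => k6 j hj e he ha) q)
    have h2 : ∑ _a ∈ K, (1 : ZMod 2) = 0 :=
      Finset.sum_involution (fun a _ => m a) (fun _ _ => by decide) (fun a ha _ => (h1 a ha).2.2)
        (fun a ha => (h1 a ha).1) fun a ha => (h1 a ha).2.1
    rw [sum_const, nsmul_eq_mul, mul_one, ZMod.natCast_eq_zero_iff_even] at h2
    exact Nat.not_even_iff_odd.2 k3 h2
  refine (card_le_card_of_forall_subsingleton (fun K x => Sum.elim m (G.Tnu W Pk) x ∈ K) key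
    fun x _ K hK1 K' hK2 => ?_).trans ?_
  · by_contra hne
    exact disjoint_left.1 (hPD K hK1.1 K' hK2.1 hne) hK1.2 hK2.2
  · rw [card_disjSum]
    omega

end SG

end Pool.Agent.Work.MP_8c679b_co
end
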