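import Pool.Agent.Work.MP_8c679b_co.Six.Cut
import Pool.Agent.Work.MP_8c679b_co.Six.GNorm
import Pool.Agent.Work.MP_8c679b_co.Top.LRad

-- merged part: Pool.Agent.Work.MP_8c679b_co.Top.TJoin2
section
-- merged part: Pool.Agent.Work.MP_8c679b_co.EJ
section
set_option autoImplicit false

namespace Pool.Agent.Work.MP_8c679b_co

open Finset

namespace EJ

section matching

variable {X : Type} [Fintype X] [DecidableEq X]

/-- the weight leaving `K`, loops included -/
def cw (w : X → X → ℚ) (K : Finset X) : ℚ :=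
  ∑ a, ∑ b, if a ∈ K ∧ (b ∉ K ∨ a = b) then w a b else 0

/-- a perfect matching through a given edge of the support of a point of the polytope -/
theorem pm0 (w : X → X → ℚ) (hs : ∀ a b, w a b = w b a) (h0 : ∀ a b, 0 ≤ w a b)
    (hd : ∀ a, w a a = 0) (h1 : ∀ a, ∑ b, w a b = 1)
    (ho : ∀ K : Finset X, Odd K.card → 1 ≤ cw w K) {a0 b0 : X} (hab : 0 < w a0 b0) :
    ∃ m : X → X, (∀ a, m (m a) = a) ∧ (∀ a, 0 < w a (m a)) ∧ m a0 = b0 := by
  classical
  let H : SimpleGraph X :=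
    { Adj := fun a b => 0 < w a b ∧ (a = a0 → b = b0) ∧ (b = a0 → a = b0)
      symm := ⟨fun a b h => ⟨hs a b ▸ h.1, h.2.2, h.2.1⟩⟩
      loopless := ⟨fun a h => by simpa [hd a] using h.1⟩ }
  have hev : Even (Fintype.card X) := by
    by_contra k
    have := ho univ (Nat.not_even_iff_odd.1 k)
    simp [cw, hd] at this
    linarith
  obtain ⟨M, hM⟩ : ∃ M : H.Subgraph, M.IsPerfectMatching := by
    refine SimpleGraph.tutte.2 fun u hu => ?_
    unfold SimpleGraph.IsTutteViolator at hu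
    set D := ((⊤ : H.Subgraph).deleteVerts u).coe with hD
    have hv : ∀ a, a ∈ ((⊤ : H.Subgraph).deleteVerts u).verts ↔ a ∉ u := fun a => by simp
    let cmp : X → Option D.ConnectedComponent := fun a =>
      if h : a ∈ u then none else some (D.connectedComponentMk ⟨a, (hv a).2 h⟩)
    let K : D.ConnectedComponent → Finset X := fun c => univ.filter fun a => cmp a = some c
    have hK : ∀ c, (K c).card = c.supp.ncard := fun c => by
      rw [← Set.ncard_image_of_injective c.supp Subtype.val_injective, ← Set.ncard_coe_finset]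
      congr 1
      ext a
      simp only [K, cmp, coe_filter, mem_univ, true_and, Set.mem_ofPred_eq, Set.mem_image,
        SimpleGraph.ConnectedComponent.mem_supp_iff]
      constructor
      · intro h
        split_ifs at h with h'
        exact ⟨⟨a, (hv a).2 h'⟩, Option.some.inj h, rfl⟩
      · rintro ⟨⟨x, hx⟩, h, rfl⟩
        rw [dif_neg ((hv x).1 hx), h]
    let g : X → X → ℚ := fun a b => (if b ∈ u then w a b else 0) +
      (if a = a0 then w a b - (if b = b0 then w a b else 0) else 0) +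
      (if b = a0 then w a b - (if a = b0 then w a b else 0) else 0)
    have g0 : ∀ a b, 0 ≤ g a b := fun a b => by
      have := h0 a b
      simp only [g]
      split_ifs <;> linarith
    have hc : ∀ c, cw w (K c) ≤ ∑ a, if cmp a = some c then ∑ b, g a b else 0 := fun c => by
      refine sum_le_sum fun a _ => ?_
      split_ifs with h
      · refine sum_le_sum fun b _ => ?_
        split_ifs with h'
        · rcases h'.2 with k | rfl
          · have k0 := h0 a b
            by_cases k1 : b ∈ u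
            · simp only [g, k1, if_true]
              split_ifs <;> linarith
            by_cases k2 : H.Adj a b
            · exfalso
              apply k
              simp only [K, mem_filter, mem_univ, true_and, cmp, dif_neg k1]
              simp only [cmp] at h
              split_ifs at h with k3
              rw [← h]
              congr 1
              refine SimpleGraph.ConnectedComponent.connectedComponentMk_eq_of_adj ?_
              simp [D, k1, k3, k2.symm]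
            · rcases k0.eq_or_lt with k4 | k4
              · rw [← k4]; exact g0 a b
              have k5 : (a = a0 ∧ b ≠ b0) ∨ (b = a0 ∧ a ≠ b0) := by
                by_contra k5
                exact k2 ⟨k4, by (clear * - h' k2 k4 k5; tauto), by (clear * - h' k2 k4 k5; tauto)⟩
              simp only [g, k1, if_false]
              rcases k5 with ⟨k5, k6⟩ | ⟨k5, k6⟩
              · rw [if_pos k5, if_neg k6]
                split_ifs <;> linarith
              · rw [if_pos k5, if_neg k6]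
                split_ifs <;> linarith
          · rw [hd]; exact g0 a a
        · exact g0 a b
      · refine le_of_eq (sum_eq_zero fun b _ => if_neg fun k => h ?_)
        simpa [K] using k.1
    have ht : ∑ a, ∑ b, g a b = u.ncard + 2 * (1 - w a0 b0) := by
      simp only [g, sum_add_distrib]
      rw [sum_comm (f := fun a b => if b ∈ u then w a b else 0),
        sum_comm (f := fun a b => if b = a0 then w a b - (if a = b0 then w a b else 0) else 0)]
      have e1 : ∀ b, ∑ a, w a b = 1 := fun b => by simp only [hs _ b, h1]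
      simp only [sum_ite_irrel, sum_const_zero, sum_sub_distrib, sum_ite_eq', mem_univ, if_true,
        e1, h1, hs b0 a0]
      rw [sum_boole, Set.ncard_eq_toFinset_card', show u.toFinset = univ.filter (· ∈ u) by
        ext; simp]
      ring
    have hle : ((D.oddComponents.toFinset.card : ℕ) : ℚ) ≤ ∑ a, ∑ b, g a b := by
      calc _ = ∑ c ∈ D.oddComponents.toFinset, (1 : ℚ) := by simp
        _ ≤ ∑ c ∈ D.oddComponents.toFinset, ∑ a, if cmp a = some c then ∑ b, g a b else 0 :=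
          sum_le_sum fun c hc' => (ho _ (by
            rw [hK c]
            exact (Set.mem_toFinset (s := D.oddComponents)).1 hc')).trans (hc c)
        _ ≤ _ := by
          rw [sum_comm]
          refine sum_le_sum fun a _ => ?_
          have := sum_nonneg fun b (_ : b ∈ univ) => g0 a b
          cases cmp a with
          | none => simpa using this
          | some d =>
            simp only [Option.some.injEq, sum_ite_eq]
            split_ifs
            exacts [le_rfl, this]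
    have hp := SimpleGraph.odd_ncard_oddComponents D
    have hn : Nat.card ((⊤ : H.Subgraph).deleteVerts u).verts + u.ncard = Fintype.card X := by
      rw [Nat.card_coe_set_eq, ← Nat.card_eq_fintype_card, ← Set.ncard_add_ncard_compl u, add_comm]
      congr 2
      ext a
      simp
    rw [ht, ← Set.ncard_eq_toFinset_card'] at hle
    have h2 : ((D.oddComponents.ncard : ℕ) : ℚ) < ((u.ncard + 2 : ℕ) : ℚ) := by
      push_cast
      linarith
    have h3 := Nat.cast_lt.1 h2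
    rw [Nat.odd_iff, Nat.odd_iff] at hp
    rw [Nat.even_iff] at hev
    omega
  rw [SimpleGraph.Subgraph.isPerfectMatching_iff] at hM
  choose m h2 h3 using hM
  exact ⟨m, fun a => (h3 _ _ (h2 a).symm).symm, fun a => (h2 a).adj_sub.1,
    (h2 a0).adj_sub.2.1 rfl⟩


lemma sum_sig (f : X → ℕ) (U : X → Prop) [DecidablePred U] :
    (∑ p : Σ a, Fin (f a), if U p.1 then 1 else 0) = ∑ a, if U a then f a else 0 := by
  rw [Fintype.sum_sigma]
  refine sum_congr rfl fun a _ => ?_
  by_cases h : U a <;> simp [h]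

/-- integer points for prescribed degrees, no loops -/
theorem bm0 (f : X → ℕ) (w : X → X → ℚ) (hs : ∀ a b, w a b = w b a) (h0 : ∀ a b, 0 ≤ w a b)
    (hd : ∀ a, w a a = 0) (h1 : ∀ a, ∑ b, w a b = f a)
    (ho : ∀ K : Finset X, Odd (∑ a ∈ K, f a) → 1 ≤ cw w K) {a0 b0 : X} (hab : 0 < w a0 b0) :
    ∃ M : X → X → ℕ, (∀ a b, M a b = M b a) ∧ (∀ a, ∑ b, M a b = f a) ∧
      (∀ a b, w a b = 0 → M a b = 0) ∧ 1 ≤ M a0 b0 := by
  classical
  have hf : ∀ a b, f a = 0 → w a b = 0 := fun a b h =>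
    (sum_eq_zero_iff_of_nonneg fun b _ => h0 a b).1 (by rw [h1, h, Nat.cast_zero]) b (mem_univ b)
  have hm : ∀ a b, (f b : ℚ) * (w a b / (f a * f b)) = w a b / f a := fun a b => by
    by_cases h : f b = 0
    · rw [hs a b, hf b a h]
      simp
    · have : (f b : ℚ) ≠ 0 := Nat.cast_ne_zero.2 h
      by_cases h' : f a = 0
      · simp [h']
      · have : (f a : ℚ) ≠ 0 := Nat.cast_ne_zero.2 h'
        field_simp
  have hm' : ∀ a b, (f a : ℚ) * (w a b / f a) = w a b := fun a b => by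
    by_cases h : f a = 0
    · simp [hf a b h]
    · have : (f a : ℚ) ≠ 0 := Nat.cast_ne_zero.2 h
      field_simp
  let w' : (Σ a, Fin (f a)) → (Σ a, Fin (f a)) → ℚ := fun p q => w p.1 q.1 / (f p.1 * f q.1)
  have s' : ∀ p q, w' p q = w' q p := fun p q => by simp only [w', hs p.1, mul_comm]
  have n' : ∀ p q, 0 ≤ w' p q := fun p q => div_nonneg (h0 _ _) (by positivity)
  have r' : ∀ p, ∑ q, w' p q = 1 := fun p => by
    have : (f p.1 : ℚ) ≠ 0 := Nat.cast_ne_zero.2 p.2.pos.ne'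
    simp only [w', Fintype.sum_sigma, sum_const, card_univ, Fintype.card_fin, nsmul_eq_mul, hm]
    rw [← sum_div, h1, div_self this]
  have f0 : ∀ a b, 0 < w a b → 0 < f a := fun a b h =>
    Nat.pos_of_ne_zero fun k => h.ne' (hf a b k)
  obtain ⟨m, h2, h3, h4⟩ := pm0 w' s' n' (fun p => by simp [w', hd]) r'
    (a0 := ⟨a0, ⟨0, f0 _ _ hab⟩⟩) (b0 := ⟨b0, ⟨0, f0 _ _ (hs a0 b0 ▸ hab)⟩⟩) (fun K hK => by
      by_cases h : ∃ p q : Σ a, Fin (f a), p.1 = q.1 ∧ p ∈ K ∧ q ∉ K
      · obtain ⟨p, q, h2, h3, h4⟩ := h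
        have e : ∀ r, w' r q = w' p r := fun r => by simp only [w', ← h2, hs r.1, mul_comm]
        calc (1 : ℚ) = ∑ a, ∑ b, ((if a = p then (if b ∈ K then 0 else w' a b) else 0) +
              if b = q then (if a ∈ K then w' a b else 0) else 0) := by
              simp only [sum_add_distrib, sum_ite_irrel, sum_const_zero, sum_ite_eq', mem_univ,
                if_true, e]
              rw [← sum_add_distrib, ← r' p]
              exact sum_congr rfl fun r _ => by split_ifs <;> simp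
          _ ≤ _ := sum_le_sum fun a _ => sum_le_sum fun b _ => by
              have := n' a b
              by_cases k1 : a = p <;> by_cases k2 : b = q
              · subst k1 k2
                simp [h3, h4, w', h2, hd]
              · subst k1
                by_cases k3 : b ∈ K <;> simp [h3, k2, k3]
                split_ifs <;> simp [this]
              · subst k2
                by_cases k3 : a ∈ K <;> simp [h4, k1, k3]
              · simp only [k1, k2, if_false, add_zero]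
                split_ifs <;> simp [this]
      · let U : Finset X := univ.filter fun a => ∃ p ∈ K, p.1 = a
        have hU : ∀ p, p ∈ K ↔ p.1 ∈ U := fun p => by
          simp only [U, mem_filter, mem_univ, true_and]
          refine ⟨fun k => ⟨p, k, rfl⟩, fun ⟨q, k, k'⟩ => ?_⟩
          by_contra k2
          exact h ⟨q, p, k', k, k2⟩
        have e : K.card = ∑ a ∈ U, f a := by
          rw [show K = univ.filter (·.1 ∈ U) by ext; simp [hU], card_filter, sum_sig f (· ∈ U),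
            ← sum_filter]
          simp
        refine (ho U (e ▸ hK)).trans (le_of_eq ?_)
        have e2 : ∀ p q : Σ a, Fin (f a), (if p ∈ K ∧ (q ∉ K ∨ p = q) then w' p q else 0) =
            if p.1 ∈ U ∧ (q.1 ∉ U ∨ p.1 = q.1) then w p.1 q.1 / (f p.1 * f q.1) else 0 := by
          intro p q
          by_cases k : p.1 = q.1
          · simp [w', k, hd]
          · have : p ≠ q := fun k' => k (k' ▸ rfl)
            simp [hU, k, this, w']
        simp only [cw, e2, Fintype.sum_sigma, sum_const, card_univ, Fintype.card_fin, nsmul_eq_mul,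
          mul_ite, mul_zero, hm, mul_sum, hm'])
    (div_pos hab (by
      have := f0 _ _ hab
      have := f0 _ _ (hs a0 b0 ▸ hab)
      positivity))
  refine ⟨fun a b => (univ.filter fun p => p.1 = a ∧ (m p).1 = b).card, fun a b => ?_,
    fun a => ?_, fun a b h => ?_, card_pos.2 ⟨⟨a0, ⟨0, f0 _ _ hab⟩⟩, by simp [h4]⟩⟩
  · refine card_bij' (fun p _ => m p) (fun p _ => m p) ?_ ?_ (fun p _ => h2 p) fun p _ => h2 p
    all_goals
      intro p hp
      simp only [mem_filter, mem_univ, true_and, h2] at hp ⊢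
      exact hp.symm
  · simp only [card_filter]
    rw [sum_comm]
    simp only [ite_and, sum_ite_irrel, sum_ite_eq, mem_univ, if_true, sum_const_zero]
    rw [sum_sig f (· = a)]
    simp
  · refine card_eq_zero.2 (filter_eq_empty_iff.2 fun p _ k => ?_)
    have := h3 p
    simp [w', k.1, k.2, h] at this

/-- integer points for prescribed degrees; a loop stands for an edge to a free root -/
theorem bm (f : X → ℕ) (w : X → X → ℚ) (hs : ∀ a b, w a b = w b a) (h0 : ∀ a b, 0 ≤ w a b)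
    (h1 : ∀ a, ∑ b, w a b = f a)
    (ho : ∀ K : Finset X, Odd (∑ a ∈ K, f a) → 1 ≤ cw w K) {a0 b0 : X} (hab : 0 < w a0 b0) :
    ∃ M : X → X → ℕ, (∀ a b, M a b = M b a) ∧ (∀ a, ∑ b, M a b = f a) ∧
      (∀ a b, w a b = 0 → M a b = 0) ∧ 1 ≤ M a0 b0 := by
  classical
  let w' : X × Bool → X × Bool → ℚ := fun p q =>
    if (p.1 = q.1 ↔ p.2 = q.2) then 0 else w p.1 q.1
  have n' : ∀ p q, 0 ≤ w' p q := fun p q => by
    simp only [w']
    split_ifs
    exacts [le_rfl, h0 _ _]
  obtain ⟨M, h2, h3, h4, h5⟩ := bm0 (fun p => f p.1) w'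
    (fun p q => by simp only [w', hs p.1, eq_comm]) n' (fun p => by simp [w'])
    (fun p => by
      rw [← h1, Fintype.sum_prod_type]
      refine sum_congr rfl fun b _ => ?_
      obtain ⟨a, i⟩ := p
      by_cases h : a = b <;> cases i <;> simp [w', h])
    (a0 := (a0, false)) (b0 := (b0, decide (a0 = b0))) (fun K hK => by
      let D : Bool → Finset X := fun i => univ.filter fun a => (a, i) ∈ K ∧ (a, !i) ∉ K
      let T : Bool → X → X → ℚ := fun i a b =>
        ∑ j, if (a, i) ∈ K ∧ ((b, j) ∉ K ∨ (a, i) = (b, j)) then w' (a, i) (b, j) else 0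
      have e1 : ∀ i, cw w' K = ∑ a, ∑ b, (T i a b + T (!i) b a) := fun i => by
        simp only [sum_add_distrib]
        rw [sum_comm (f := fun a b => T (!i) b a)]
        simp only [cw, Fintype.sum_prod_type, T]
        rw [← sum_add_distrib]
        refine sum_congr rfl fun a _ => ?_
        rw [Fintype.sum_bool]
        cases i
        · exact add_comm _ _
        · rfl
      have e2 : ∀ i, cw w (D i) ≤ cw w' K := fun i => by
        rw [e1 i]
        refine sum_le_sum fun a _ => sum_le_sum fun b _ => ?_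
        have k0 := h0 a b
        have k1 := hs b a
        by_cases h : a = b
        · subst h
          by_cases k2 : (a, true) ∈ K <;> by_cases k3 : (a, false) ∈ K <;> cases i <;>
            simp [T, D, w', k0, k2, k3]
        · have h' : ¬ b = a := fun k => h k.symm
          by_cases k2 : (a, true) ∈ K <;> by_cases k3 : (a, false) ∈ K <;>
            by_cases k4 : (b, true) ∈ K <;> by_cases k5 : (b, false) ∈ K <;> cases i <;>
            simp [T, D, w', k0, k1, k2, k3, k4, k5, h, h']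
      have e3 : ∑ p ∈ K, f p.1 = ∑ a ∈ D true, f a + ∑ a ∈ D false, f a +
          2 * ∑ a, if (a, true) ∈ K ∧ (a, false) ∈ K then f a else 0 := by
        rw [show ∑ p ∈ K, f p.1 = ∑ p, if p ∈ K then f p.1 else 0 by rw [← sum_filter]; simp]
        simp only [D, sum_filter, mul_sum, ← sum_add_distrib, Fintype.sum_prod_type,
          Fintype.sum_bool]
        refine sum_congr rfl fun a _ => ?_
        by_cases k2 : (a, true) ∈ K <;> by_cases k3 : (a, false) ∈ K <;> simp [k2, k3, two_mul]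
      by_cases h : Odd (∑ a ∈ D true, f a)
      · exact (ho _ h).trans (e2 _)
      · refine (ho (D false) ?_).trans (e2 _)
        rw [e3] at hK
        rw [Nat.odd_iff] at *
        omega)
    (by by_cases h : a0 = b0 <;> simpa [w', h] using hab)
  refine ⟨fun a b => ∑ j, M (a, false) (b, j), fun a b => ?_,
    fun a => by rw [← h3 (a, false), Fintype.sum_prod_type], fun a b h => ?_,
    h5.trans (single_le_sum (f := fun j => M (a0, false) (b0, j)) (fun _ _ => Nat.zero_le _)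
      (mem_univ _))⟩
  · by_cases h : a = b
    · rw [h]
    · have h' : ¬ b = a := fun k => h k.symm
      simp only [Fintype.sum_bool]
      rw [h4 (a, false) (b, true) (by simp [w', h]), h4 (b, false) (a, true) (by simp [w', h']), h2]
  · exact sum_eq_zero fun j _ => h4 _ _ (by simp [w', h])

end matching

/-- the value of a literal -/
def zz {R : Type} [Ring R] (n : Bool) (y : R) : R := if n then 1 - y else y

/-- the weights inside the gadget of one edge -/
def wi (r n : Bool → Bool) (y : ℚ) (a a' : Bool × Bool) : ℚ :=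
  if a.1 = a'.1 then
    if a.2 = a'.2 then
      (if a.2 = n a.1 then (if r a.1 then 0 else zz (n a.1) y) else if a.2 then 1 else 0)
    else if n a.1 then y else 0
  else if a.2 = false ∧ a'.2 = false then 1 - y else 0

lemma side (g h u r n : Bool) {y : ℚ} (h0 : 0 ≤ y) (h1 : y ≤ 1) :
    ∃ q : Bool, (g.toNat + h.toNat + (u && r && n).toNat) % 2 = q.toNat ∧
    (if q = g then (if g = (u && r) then 0 else y) else if g = (u && r) then 1 else 1 - y) ≤
      (if h then (if n then (if r then 0 else 1 - y) else 1) else 0) +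
      (if g then (if n then 0 else if r then 0 else y) else 0) +
      (if g = h then 0 else if n then y else 0) +
      (if r then (if n then (if h = u then 0 else 1 - y) else if g = u then 0 else y) else 0) := by
  refine ⟨xor (xor g h) (u && r && n), ?_⟩
  cases g <;> cases h <;> cases u <;> cases r <;> cases n <;> simp <;> linarith

lemma edge (r n u : Bool → Bool) (κ : Bool × Bool → Bool) {y : ℚ} (h0 : 0 ≤ y) (h1 : y ≤ 1)
    (N : ℕ) (hN : N = ∑ a, (κ a).toNat + ∑ j, (u j && r j && n j).toNat) :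
    (if (u false && r false) = (u true && r true) then (if Odd N then 1 else 0)
      else if Odd N then 1 - y else y) ≤
    ∑ a, (∑ a', (if κ a ∧ (¬ κ a' ∨ a = a') then wi r n y a a' else 0) +
      if κ a = u a.1 then 0 else if a.2 = n a.1 ∧ r a.1 then zz (n a.1) y else 0) := by
  obtain ⟨q0, k0, l0⟩ := side (κ (false, false)) (κ (false, true)) (u false) (r false) (n false) h0 h1
  obtain ⟨q1, k1, l1⟩ := side (κ (true, false)) (κ (true, true)) (u true) (r true) (n true) h0 h1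
  have e1 : Odd N ↔ q0 ≠ q1 := by
    simp only [hN, Fintype.sum_prod_type, Fintype.sum_bool, Nat.odd_iff]
    cases q0 <;> cases q1 <;> simp at k0 k1 ⊢ <;> omega
  have e2 : ∀ j, ∑ k, (∑ a', (if κ (j, k) ∧ (¬ κ a' ∨ (j, k) = a') then wi r n y (j, k) a' else 0) +
      if κ (j, k) = u j then 0 else if k = n j ∧ r j then zz (n j) y else 0) =
      (if κ (j, true) then (if n j then (if r j then 0 else 1 - y) else 1) else 0) +
      (if κ (j, false) then (if n j then 0 else if r j then 0 else y) else 0) +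
      (if κ (j, false) = κ (j, true) then 0 else if n j then y else 0) +
      (if r j then (if n j then (if κ (j, true) = u j then 0 else 1 - y)
        else if κ (j, false) = u j then 0 else y) else 0) +
      if κ (j, false) ∧ ¬ κ (!j, false) then 1 - y else 0 := fun j => by
    simp only [Fintype.sum_prod_type, Fintype.sum_bool, wi, zz]
    cases j <;> simp only [Bool.not_true, Bool.not_false]
    · generalize κ (false, false) = a, κ (false, true) = b, κ (true, false) = c, n false = d,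
        r false = e, u false = f
      cases a <;> cases b <;> cases c <;> cases d <;> cases e <;> cases f <;> simp
      ring
    · generalize κ (true, false) = a, κ (true, true) = b, κ (false, false) = c, n true = d,
        r true = e, u true = f
      cases a <;> cases b <;> cases c <;> cases d <;> cases e <;> cases f <;> simp
      ring
  rw [Fintype.sum_prod_type, Fintype.sum_bool, e2, e2]
  simp only [e1, Bool.not_true, Bool.not_false]
  refine le_trans ?_ (add_le_add (add_le_add l1 le_rfl) (add_le_add l0 le_rfl))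
  generalize κ (false, false) = a, κ (true, false) = b, (u false && r false) = c,
    (u true && r true) = d
  clear * - h0 h1
  cases a <;> cases b <;> cases c <;> cases d <;> cases q0 <;> cases q1 <;> simp <;> linarith

lemma wi_symm (r n : Bool → Bool) (y : ℚ) (a a' : Bool × Bool) : wi r n y a a' = wi r n y a' a := by
  obtain ⟨i, j⟩ := a
  obtain ⟨k, l⟩ := a'
  cases i <;> cases j <;> cases k <;> cases l <;> simp [wi]

lemma zz_nonneg (n : Bool) {y : ℚ} (h0 : 0 ≤ y) (h1 : y ≤ 1) : 0 ≤ zz n y := by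
  cases n <;> simp [zz, h0, h1]

lemma wi_nonneg (r n : Bool → Bool) {y : ℚ} (h0 : 0 ≤ y) (h1 : y ≤ 1) (a a' : Bool × Bool) :
    0 ≤ wi r n y a a' := by
  have := zz_nonneg (n a.1) h0 h1
  unfold wi
  split_ifs <;> linarith

lemma wi_row (r n : Bool → Bool) (y : ℚ) (a : Bool × Bool) :
    ∑ a', wi r n y a a' + (if a.2 = n a.1 ∧ r a.1 then zz (n a.1) y else 0) = 1 := by
  obtain ⟨i, j⟩ := a
  simp only [Fintype.sum_prod_type, Fintype.sum_bool, wi, zz]
  cases i <;> cases j <;> generalize n _ = a, r _ = b <;> cases a <;> cases b <;> simp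


open Sum

variable {ι V : Type} [Fintype ι] [DecidableEq ι] [Fintype V] [DecidableEq V]
  (en : ι → Bool → V) (n : ι → Bool → Bool) (W : Finset V) (y : ι → ℚ)

/-- the weight between a gadget node and a vertex -/
def wp (p : ι × Bool × Bool) (v : V) : ℚ :=
  if en p.1 p.2.1 = v then
    (if p.2.2 = n p.1 p.2.1 ∧ decide (v ∈ W) = true then zz (n p.1 p.2.1) (y p.1) else 0) else 0

/-- the weights of the gadget graph -/
def wg : (ι × Bool × Bool) ⊕ V → (ι × Bool × Bool) ⊕ V → ℚ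
  | inl p, inl q =>
    if p.1 = q.1 then wi (fun j => decide (en p.1 j ∈ W)) (n p.1) (y p.1) p.2 q.2 else 0
  | inl p, inr v => wp en n W y p v
  | inr v, inl p => wp en n W y p v
  | inr _, inr _ => 0

variable {en n W y}

section rows

variable {R : Type} [AddCommMonoid R] {φ : (ι × Bool × Bool) ⊕ V → (ι × Bool × Bool) ⊕ V → R}

lemma row_inl (h : ∀ a b, wg en n W y a b = 0 → φ a b = 0) (e : ι) (a : Bool × Bool) :
    ∑ b, φ (inl (e, a)) b =
      ∑ a', φ (inl (e, a)) (inl (e, a')) + φ (inl (e, a)) (inr (en e a.1)) := by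
  rw [Fintype.sum_sum_type, Fintype.sum_prod_type, Fintype.sum_eq_single e,
    Fintype.sum_eq_single (en e a.1)]
  · exact fun v hv => h _ _ (if_neg hv.symm)
  · exact fun d hd => sum_eq_zero fun a' _ => h _ _ (if_neg hd.symm)

lemma row_inr (h : ∀ a b, wg en n W y a b = 0 → φ a b = 0) (v : V) :
    ∑ b, φ (inr v) b = ∑ e, ∑ a, φ (inr v) (inl (e, a)) := by
  rw [Fintype.sum_sum_type, Fintype.sum_prod_type, sum_eq_zero fun u _ => h (inr v) (inr u) rfl,
    add_zero]

lemma tot (h : ∀ a b, wg en n W y a b = 0 → φ a b = 0) :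
    ∑ a, ∑ b, φ a b = ∑ e, ∑ a, (∑ a', φ (inl (e, a)) (inl (e, a')) +
      (φ (inl (e, a)) (inr (en e a.1)) + φ (inr (en e a.1)) (inl (e, a)))) := by
  rw [Fintype.sum_sum_type, Fintype.sum_prod_type]
  simp only [row_inl h, row_inr h]
  rw [sum_comm (s := (univ : Finset V)), ← sum_add_distrib]
  refine sum_congr rfl fun e _ => ?_
  rw [sum_comm (s := (univ : Finset V)), ← sum_add_distrib]
  refine sum_congr rfl fun a _ => ?_
  rw [Fintype.sum_eq_single (en e a.1) fun v hv =>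
    h (inr v) (inl (e, a)) (if_neg hv.symm), add_assoc]

end rows

theorem core (f : V → ℕ) (h0 : ∀ e, 0 ≤ y e ∧ y e ≤ 1)
    (hB : ∀ v ∈ W, ∑ e, ∑ j, (if en e j = v then zz (n e j) (y e) else 0) = f v)
    (ho : ∀ K ⊆ W, ∀ F : Finset ι, (∀ e ∈ F, ¬ (en e false ∈ K ↔ en e true ∈ K)) →
      Odd (∑ v ∈ K, f v + ∑ e, ∑ j, (if en e j ∈ K ∧ n e j then 1 else 0) + F.card) →
      1 ≤ ∑ e, if (en e false ∈ K ↔ en e true ∈ K) then 0 else if e ∈ F then 1 - y e else y e)
    (e0 : ι) (c : ℤ) (hc : (c = 0 ∧ y e0 < 1) ∨ (c = 1 ∧ 0 < y e0)) :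
    ∃ x : ι → ℤ, (∀ e, x e = 0 ∨ x e = 1) ∧
      (∀ v ∈ W, ∑ e, ∑ j, (if en e j = v then zz (n e j) (x e) else 0) = f v) ∧ x e0 = c := by
  classical
  let w := wg en n W y
  let f' : (ι × Bool × Bool) ⊕ V → ℕ := Sum.elim (fun _ => 1) fun v => if v ∈ W then f v else 0
  have hp : ∀ p v, 0 ≤ wp en n W y p v := fun p v => by
    have := zz_nonneg (n p.1 p.2.1) (h0 p.1).1 (h0 p.1).2
    unfold wp
    split_ifs <;> linarith
  have s' : ∀ a b, w a b = w b a := by
    rintro (⟨d, a⟩ | u) (⟨e, b⟩ | v) <;> try rfl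
    by_cases h : d = e
    · subst h
      simp [w, wg, wi_symm _ _ _ a]
    · simp [w, wg, h, Ne.symm h]
  have n' : ∀ a b, 0 ≤ w a b := by
    rintro (p | u) (q | v)
    · simp only [w, wg]
      split_ifs
      exacts [wi_nonneg _ _ (h0 _).1 (h0 _).2 _ _, le_rfl]
    exacts [hp _ _, hp _ _, le_rfl]
  have r' : ∀ a, ∑ b, w a b = f' a := by
    rintro (⟨e, a⟩ | v)
    · rw [row_inl (φ := w) fun _ _ h => h]
      simpa [w, wg, wp, f'] using wi_row (fun j => decide (en e j ∈ W)) (n e) (y e) a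
    · rw [row_inr (φ := w) fun _ _ h => h]
      by_cases h : v ∈ W
      · simp only [f', Sum.elim_inr, h, if_true, ← hB v h]
        refine sum_congr rfl fun e _ => ?_
        rw [Fintype.sum_prod_type]
        refine sum_congr rfl fun j _ => ?_
        simp [w, wg, wp, h]
      · simp [w, wg, wp, h, f']
  have o' : ∀ K : Finset ((ι × Bool × Bool) ⊕ V), Odd (∑ a ∈ K, f' a) → 1 ≤ cw w K := by
    intro K hK
    let U := W.filter fun v => inr v ∈ K
    let N : ι → ℕ := fun e => ∑ a, (decide (inl (e, a) ∈ K)).toNat +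
      ∑ j, (decide (inr (en e j) ∈ K) && decide (en e j ∈ W) && n e j).toNat
    have hU : ∀ v, v ∈ U ↔ inr v ∈ K ∧ v ∈ W := fun v => by simp [U, and_comm]
    have h1 : ∑ e, (if (en e false ∈ U ↔ en e true ∈ U) then (if Odd (N e) then 1 else 0)
        else if Odd (N e) then 1 - y e else y e) ≤ cw w K := by
      rw [cw, tot (en := en) (n := n) (W := W) (y := y) fun a b h => by simp [w, h]]
      refine sum_le_sum fun e _ => ?_
      have := edge (fun j => decide (en e j ∈ W)) (n e) (fun j => decide (inr (en e j) ∈ K))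
        (fun a => decide (inl (e, a) ∈ K)) (h0 e).1 (h0 e).2 (N e) rfl
      refine le_trans (le_of_eq ?_) (this.trans (le_of_eq (sum_congr rfl fun a _ => ?_)))
      · simp only [hU, ← Bool.decide_and, decide_eq_decide]
      · congr 1
        · simp [w, wg]
        · by_cases k1 : inl (e, a) ∈ K <;> by_cases k2 : inr (en e a.1) ∈ K <;>
            simp [w, wg, wp, k1, k2]
    refine le_trans ?_ h1
    have h2 : ∀ e, (0 : ℚ) ≤ (if (en e false ∈ U ↔ en e true ∈ U) then (if Odd (N e) then 1 else 0)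
        else if Odd (N e) then 1 - y e else y e) := fun e => by
      have := h0 e
      split_ifs <;> linarith
    by_cases h : ∃ e, (en e false ∈ U ↔ en e true ∈ U) ∧ Odd (N e)
    · obtain ⟨e, k1, k2⟩ := h
      refine le_trans ?_ (single_le_sum (fun e _ => h2 e) (mem_univ e))
      rw [if_pos k1, if_pos k2]
    refine (ho U (filter_subset _ _) (univ.filter fun e => Odd (N e))
      (fun e he k => h ⟨e, k, (mem_filter.1 he).2⟩) ?_).trans (sum_le_sum fun e _ => ?_)
    · have e1 : ∑ e, N e + ∑ v ∈ U, f v =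
          ∑ a ∈ K, f' a + ∑ e, ∑ j, (if en e j ∈ U ∧ n e j then 1 else 0) := by
        rw [show ∑ a ∈ K, f' a = ∑ a, if a ∈ K then f' a else 0 by rw [← sum_filter]; simp,
          Fintype.sum_sum_type, Fintype.sum_prod_type,
          show ∑ v ∈ U, f v = ∑ v, if v ∈ U then f v else 0 by rw [← sum_filter]; simp]
        simp only [N, sum_add_distrib, f', Sum.elim_inl, Sum.elim_inr, hU, ite_and,
          Bool.toNat, Bool.cond_eq_ite, Bool.and_eq_true, decide_eq_true_eq]
        ring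
      have e2 := Finset.odd_sum_iff_odd_card_odd (s := univ) N
      simp only [Nat.odd_iff] at e2 hK ⊢
      omega
    · simp only [mem_filter, mem_univ, true_and]
      split_ifs <;> linarith
  obtain ⟨b0, k1, k2⟩ : ∃ b0, 0 < w (inl (e0, false, false)) b0 ∧
      (b0 = inl (e0, true, false) ↔ c = 0) := by
    have k0 : w (inl (e0, false, false)) (inl (e0, true, false)) = 1 - y e0 := by simp [w, wg, wi]
    rcases hc with ⟨rfl, h⟩ | ⟨rfl, h⟩
    · exact ⟨_, by rw [k0]; linarith, by simp⟩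
    · by_contra k
      have := r' (inl (e0, false, false))
      rw [Fintype.sum_eq_single (inl (e0, true, false)) fun b hb =>
        le_antisymm (not_lt.1 fun k' => k ⟨b, k', by simp [hb]⟩) (n' _ _), k0] at this
      simp [f'] at this
      linarith
  obtain ⟨M, m1, m2, m3, m4⟩ := bm f' w s' n' r' o' k1
  have m5 : ∀ p a b, a ≠ b → M (inl p) a + M (inl p) b ≤ 1 := fun p a b h => by
    rw [← sum_pair (f := M (inl p)) h]
    exact (sum_le_sum_of_subset (subset_univ _)).trans (m2 _).le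
  refine ⟨fun e => 1 - M (inl (e, false, false)) (inl (e, true, false)), fun e => ?_,
    fun v hv => ?_, ?_⟩
  · have := m5 (e, false, false) (inl (e, true, false)) (inl (e, false, false)) (by simp)
    beta_reduce
    omega
  · have := m2 (inr v)
    rw [row_inr m3] at this
    simp only [f', Sum.elim_inr, hv, if_true] at this
    rw [← this]
    push_cast
    refine sum_congr rfl fun e _ => ?_
    rw [Fintype.sum_prod_type]
    refine sum_congr rfl fun j _ => ?_
    split_ifs with h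
    · subst h
      have a1 := m2 (inl (e, j, false))
      have a2 := m2 (inl (e, j, true))
      rw [row_inl m3] at a1 a2
      have z : ∀ k a', wi (fun j => decide (en e j ∈ W)) (n e) (y e) (j, k) a' = 0 →
          M (inl (e, j, k)) (inl (e, a')) = 0 := fun k a' h => m3 _ _ (by simp [w, wg, h])
      have z' : ∀ k, k ≠ n e j → M (inl (e, j, k)) (inr (en e j)) = 0 := fun k h =>
        m3 _ _ (by simp [w, wg, wp, h])
      have a3 := m1 (inl (e, false, false)) (inl (e, true, false))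
      have a4 := m1 (inl (e, j, false)) (inl (e, j, true))
      simp only [Fintype.sum_prod_type, Fintype.sum_bool, f', Sum.elim_inl, m1 (inr _), zz]
        at a1 a2 ⊢
      have b1 := z false (j, false)
      have b2 := z false (j, true)
      have b3 := z false (!j, true)
      have b4 := z true (j, true)
      have b5 := z true (!j, false)
      have b6 := z true (!j, true)
      have b7 := z' false
      have b8 := z' true
      cases k : n e j <;> cases j <;> simp [wi, k, hv] at b1 b2 b3 b4 b5 b6 b7 b8 ⊢ <;> omega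
    · exact (sum_eq_zero fun k _ => by rw [m3 _ _ (by simp [w, wg, wp, h]), Nat.cast_zero]).symm
  · have := m5 (e0, false, false) (inl (e0, true, false))
    beta_reduce
    by_cases h : b0 = inl (e0, true, false)
    · have := this (inl (e0, false, false)) (by simp)
      rw [h] at m4
      rw [k2.1 h]
      omega
    · have := this b0 (Ne.symm h)
      have := mt k2.2 h
      omega

end EJ

namespace SG

variable {V E : Type} [Fintype V] [DecidableEq V] [DecidableEq E] {G : SG V E}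

variable (G) in
/-- the boundary for arbitrary signs at the two ends -/
def bb {R : Type} [Ring R] (α β : E → ℤ) (y : E → R) (v : V) : R :=
  ∑ e ∈ G.A, (iv (G.s e = v) * (α e : R) + iv (G.t e = v) * (β e : R)) * y e

lemma bb_eq {R : Type} [CommRing R] {α β : E → ℤ} (hα : ∀ e, α e = 1 ∨ α e = -1)
    (hβ : ∀ e, β e = 1 ∨ β e = -1) (z : E → R) (v : V) :
    ∑ e : G.A, ∑ j, (if (bif j then G.t e else G.s e) = v then
      EJ.zz (decide ((bif j then β e else α e) = -1)) (z e) else 0) = G.bb α β z v +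
      (∑ e : G.A, ∑ j, if (bif j then G.t e else G.s e) = v ∧
        decide ((bif j then β e else α e) = -1) = true then 1 else 0 : ℕ) := by
  rw [bb, ← sum_coe_sort G.A, Nat.cast_sum, ← sum_add_distrib]
  refine sum_congr rfl fun e _ => ?_
  simp only [Fintype.sum_bool, cond_true, cond_false, EJ.zz, iv, decide_eq_true_eq, ite_and]
  push_cast
  rcases hα e with h1 | h1 <;> rcases hβ e with h2 | h2 <;> rw [h1, h2] <;>
    norm_num only [if_true, if_false] <;> split_ifs <;> ring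

/-- the theorem of Edmonds and Johnson for unit capacities, with one prescribed edge -/
theorem ej (G : SG V E) (α β : E → ℤ) (hα : ∀ e, α e = 1 ∨ α e = -1)
    (hβ : ∀ e, β e = 1 ∨ β e = -1) (W : Finset V) (b : V → ℤ) (y : E → ℚ)
    (h0 : ∀ e ∈ G.A, 0 ≤ y e ∧ y e ≤ 1) (hB : ∀ v ∈ W, G.bb α β y v = b v)
    (hodd : ∀ K ⊆ W, ∀ F ⊆ G.cut K, Odd (∑ v ∈ K, b v + F.card) →
      1 ≤ ∑ e ∈ G.cut K \ F, y e + ∑ e ∈ F, (1 - y e))
    (e0 : E) (c : ℤ) (hc : e0 ∈ G.A → (c = 0 ∧ y e0 < 1) ∨ (c = 1 ∧ 0 < y e0)) :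
    ∃ x : E → ℤ, (∀ e ∈ G.A, x e = 0 ∨ x e = 1) ∧ (∀ v ∈ W, G.bb α β x v = b v) ∧
      (e0 ∈ G.A → x e0 = c) := by
  classical
  rcases G.A.eq_empty_or_nonempty with hA | ⟨e2, h2⟩
  · refine ⟨fun _ => 0, by simp, fun v hv => ?_, by simp [hA]⟩
    have := hB v hv
    simp only [bb, hA, sum_empty] at this ⊢
    exact_mod_cast this
  obtain ⟨e1, h1, c1, hc1, hh⟩ : ∃ e1 ∈ G.A, ∃ c1 : ℤ,
      ((c1 = 0 ∧ y e1 < 1) ∨ (c1 = 1 ∧ 0 < y e1)) ∧ (e0 ∈ G.A → e1 = e0 ∧ c1 = c) := by
    by_cases h : e0 ∈ G.A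
    · exact ⟨e0, h, c, hc h, fun _ => ⟨rfl, rfl⟩⟩
    · by_cases k : y e2 < 1
      · exact ⟨e2, h2, 0, Or.inl ⟨rfl, k⟩, fun k => absurd k h⟩
      · exact ⟨e2, h2, 1, Or.inr ⟨rfl, by linarith⟩, fun k => absurd k h⟩
  let en : G.A → Bool → V := fun e j => bif j then G.t e else G.s e
  let n : G.A → Bool → Bool := fun e j => decide ((bif j then β e else α e) = -1)
  let N : V → ℕ := fun v => ∑ e, ∑ j, if en e j = v ∧ n e j = true then 1 else 0
  have k1 : ∀ v ∈ W, ∑ e, ∑ j, (if en e j = v then EJ.zz (n e j) (y e) else 0) =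
      ((b v + N v : ℤ) : ℚ) := fun v hv => by
    rw [Int.cast_add, ← hB v hv, Int.cast_natCast]
    exact bb_eq hα hβ y v
  have k2 : ∀ v ∈ W, ((b v + N v).toNat : ℤ) = b v + N v := fun v hv => by
    refine Int.toNat_of_nonneg (Int.cast_nonneg_iff (R := ℚ) |>.1 ?_)
    rw [← k1 v hv]
    refine sum_nonneg fun e _ => sum_nonneg fun j _ => ?_
    split_ifs
    exacts [EJ.zz_nonneg _ (h0 _ e.2).1 (h0 _ e.2).2, le_rfl]
  obtain ⟨x, x1, x2, x3⟩ := EJ.core (en := en) (n := n) (W := W) (y := fun e => y e)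
    (fun v => (b v + N v).toNat) (fun e => h0 _ e.2)
    (fun v hv => by rw [k1 v hv, ← k2 v hv, Int.cast_natCast, Int.toNat_natCast])
    (fun K hK F hF hO => by
      have m : ∀ e : G.A, e ∈ F ↔ e.1 ∈ F.map (Function.Embedding.subtype _) := fun e =>
        (mem_map' (Function.Embedding.subtype _)).symm
      have s : F.map (Function.Embedding.subtype _) ⊆ G.cut K := fun e he => by
        obtain ⟨d, h3, rfl⟩ := mem_map.1 he
        exact mem_cut.2 ⟨d.2, hF d h3⟩
      refine (hodd K hK _ s ?_).trans (le_of_eq ?_)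
      · have e1 : ∑ v ∈ K, N v = ∑ e, ∑ j, if en e j ∈ K ∧ n e j = true then 1 else 0 := by
          rw [sum_comm]
          refine sum_congr rfl fun e _ => ?_
          rw [sum_comm]
          refine sum_congr rfl fun j _ => ?_
          simp only [ite_and, sum_ite_eq]
        have e2 : ((∑ v ∈ K, (b v + N v).toNat : ℕ) : ℤ) = ∑ v ∈ K, b v + (∑ v ∈ K, N v : ℕ) := by
          push_cast
          rw [← sum_add_distrib]
          exact sum_congr rfl fun v hv => k2 v (hK hv)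
        rw [← e1, Nat.odd_iff] at hO
        rw [card_map, Int.odd_iff]
        omega
      · simp only [m]
        refine Eq.trans ?_ (sum_coe_sort G.A fun e => if (G.s e ∈ K ↔ G.t e ∈ K) then 0 else
          if e ∈ F.map (Function.Embedding.subtype _) then 1 - y e else y e).symm
        generalize F.map (Function.Embedding.subtype _) = F' at s
        rw [← sum_filter_add_sum_filter_not G.A fun e => (G.s e ∈ K ↔ G.t e ∈ K),
          sum_eq_zero (s := G.A.filter _) fun e he => if_pos (mem_filter.1 he).2, zero_add,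
          sum_congr rfl fun e he => if_neg (mem_filter.1 he).2]
        change _ = ∑ e ∈ G.cut K, _
        rw [← sum_sdiff s]
        congr 1
        · exact sum_congr rfl fun e he => (if_neg (mem_sdiff.1 he).2).symm
        · exact sum_congr rfl fun e he => (if_pos he).symm)
    ⟨e1, h1⟩ c1 hc1
  refine ⟨fun e => if h : e ∈ G.A then x ⟨e, h⟩ else 0, fun e he => by simpa [he] using x1 _,
    fun v hv => ?_, fun h => ?_⟩
  · have := bb_eq (G := G) hα hβ (fun e => if h : e ∈ G.A then x ⟨e, h⟩ else 0) v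
    simp only [coe_mem, dif_pos] at this
    have k := (x2 v hv).trans (k2 v hv)
    exact add_right_cancel (this.symm.trans k)
  · obtain ⟨rfl, rfl⟩ := hh h
    simpa [h] using x3

end SG

end Pool.Agent.Work.MP_8c679b_co
end

-- merged part: Pool.Agent.Work.MP_8c679b_co.Six.GTj
section
/-!
A join that uses every box at most once (PROOF.md, lemma TJ), from `ej` (EJ.lean).
-/

set_option autoImplicit false

namespace Pool.Agent.Work.MP_8c679b_co

open Finset

namespace SG

variable {V E : Type} [Fintype V] [DecidableEq V] [DecidableEq E] {G : SG V E}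
  {Y : Finset V} {J : Finset E} {Bs : Finset (Finset V)}

omit [Fintype V] in
theorem GTj_slack {C F : Finset E} (h : F ⊆ C) (y : E → ℚ) :
    ∑ e ∈ C \ F, y e + ∑ e ∈ F, (1 - y e) = ∑ e ∈ C, if e ∈ F then 1 - y e else y e := by
  rw [← sum_sdiff h]
  exact congrArg₂ (· + ·) (sum_congr rfl fun e he => (if_neg (mem_sdiff.1 he).2).symm)
    (sum_congr rfl fun e he => (if_pos he).symm)

/-- the theorem of Edmonds and Johnson with a loop at every vertex -/
theorem GTj_ej (Q : SG V E) (W : Finset V) (b : V → ℤ) (y : E → ℚ)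
    (h0 : ∀ e, 0 ≤ y e ∧ y e ≤ 1)
    (hB : ∀ v ∈ W, (b v : ℚ) - 2 ≤ ∑ e ∈ Q.A, Q.inc e v * y e ∧ ∑ e ∈ Q.A, Q.inc e v * y e ≤ b v)
    (hodd : ∀ K ⊆ W, ∀ F ⊆ Q.cut K, Odd (∑ v ∈ K, b v + F.card) →
      1 ≤ ∑ e ∈ Q.cut K \ F, y e + ∑ e ∈ F, (1 - y e)) (e0 : E) (he : y e0 < 1) :
    ∃ F ⊆ Q.A, e0 ∉ F ∧ ∀ v ∈ W, (Q.deg F v : ℤ) = b v ∨ (Q.deg F v : ℤ) + 2 = b v := by
  let H : SG V (E ⊕ V) := ⟨Q.A.disjSum W, Sum.elim Q.s id, Sum.elim Q.t id, fun _ => 0⟩
  have k1 : ∀ (R : Type) [CommRing R] (z : E ⊕ V → R), ∀ v ∈ W,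
      H.bb (fun _ => 1) (fun _ => 1) z v =
        ∑ e ∈ Q.A, Q.inc e v * z (.inl e) + 2 * z (.inr v) := by
    intro R _ z v hv
    rw [bb, sum_disjSum]
    refine congrArg₂ (· + ·) (sum_congr rfl fun e _ => by
      by_cases a : Q.s e = v <;> by_cases b : Q.t e = v <;>
        simp [H, inc, iv, a, b, one_add_one_eq_two]) ?_
    rw [sum_eq_single_of_mem v hv fun u _ k => by simp [H, iv, k]]
    simp [H, iv, one_add_one_eq_two]
  have k2 : ∀ K, H.cut K = (Q.cut K).map Function.Embedding.inl := fun K => by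
    ext (e | v) <;> simp [mem_cut, H]
  obtain ⟨x, x1, x2, x3⟩ := ej H (fun _ => 1) (fun _ => 1) (fun _ => Or.inl rfl)
    (fun _ => Or.inl rfl) W b (Sum.elim y fun v => (b v - ∑ e ∈ Q.A, Q.inc e v * y e) / 2)
    (by
      rintro (e | v) h
      · exact h0 e
      · have := hB v (inr_mem_disjSum.1 h)
        constructor <;> simp only [Sum.elim_inr] <;> linarith)
    (fun v hv => by
      rw [k1 ℚ _ v hv]
      simp only [Sum.elim_inl, Sum.elim_inr]
      ring)
    (fun K hK F hF hO => by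
      rw [k2] at hF ⊢
      obtain ⟨F, h1, rfl⟩ := subset_map_iff.1 hF
      rw [card_map] at hO
      rw [← Finset.map_sdiff, sum_map, sum_map]
      exact hodd K hK F h1 hO)
    (.inl e0) 0 fun _ => Or.inl ⟨rfl, he⟩
  refine ⟨Q.A.filter fun e => x (.inl e) = 1, filter_subset _ _, fun h => ?_, fun v hv => ?_⟩
  · have := x3 (inl_mem_disjSum.2 (mem_filter.1 h).1)
    rw [(mem_filter.1 h).2] at this
    exact one_ne_zero this
  · have h1 : (Q.deg (Q.A.filter fun e => x (.inl e) = 1) v : ℤ) =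
        ∑ e ∈ Q.A, Q.inc e v * x (.inl e) := by
      rw [deg, Nat.cast_sum, sum_filter]
      refine sum_congr rfl fun e h => ?_
      rcases x1 _ (inl_mem_disjSum.2 h) with k | k <;> simp [k]
    have h2 := x2 v hv
    rw [k1 ℤ _ v hv, ← h1] at h2
    rcases x1 _ (inr_mem_disjSum.2 hv) with k | k <;> rw [k] at h2 <;> omega

omit [Fintype V] in
theorem GTj_join (hcn : G.Cn Y (G.ins Y)) {r : V} (hr : r ∈ Y) (hJ : J ⊆ G.cut Y) :
    ∃ F ⊆ G.ins Y, ∀ v ∈ Y, G.dg F v + G.dg J v = J.card * iv (v = r) := by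
  induction J using Finset.induction_on with
  | empty => exact ⟨∅, empty_subset _, fun v _ => by simp [dg]⟩
  | insert e J he ih =>
    obtain ⟨F, h1, h2⟩ := ih ((subset_insert e J).trans hJ)
    have h3 := (mem_cut.1 (hJ (mem_insert_self e J))).2
    obtain ⟨u, hu, h4⟩ : ∃ u ∈ Y, ∀ v ∈ Y,
        (iv (G.s e = v) + iv (G.t e = v) : ZMod 2) = iv (v = u) := by
      by_cases k : G.s e ∈ Y
      · refine ⟨_, k, fun v hv => ?_⟩
        have : G.t e ≠ v := fun k' => h3 (iff_of_true k (k' ▸ hv))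
        simp [iv, this, eq_comm]
      · refine ⟨G.t e, by_contra fun k' => h3 (iff_of_false k k'), fun v hv => ?_⟩
        have : G.s e ≠ v := fun k' => k (k' ▸ hv)
        simp [iv, this, eq_comm]
    obtain ⟨P, h5, h6⟩ := (hcn r hr u hu).od
    refine ⟨symmDiff F P, symmDiff_le_sup.trans (union_subset h1 h5), fun v hv => ?_⟩
    rw [dg_symmDiff, h6 v, insert_eq, dg_union (disjoint_singleton_left.2 he), dg_singleton,
      h4 v hv, ← insert_eq, card_insert_of_notMem he, Nat.cast_succ]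
    linear_combination h2 v hv + z2_add_self (iv (v = u))

omit [Fintype V] in
theorem GTj_bri {e : E} (S : Finset E) : ∀ X ⊆ Y, G.crs (G.ins Y) X = insert e S → e ∉ S →
    (∀ f ∈ S, G.Bri Y f) → G.Bri Y e := by
  induction S using Finset.induction_on with
  | empty => exact fun X h1 h2 _ _ => ⟨X, h1, h2⟩
  | insert f S hf ih =>
    intro X h1 h2 h3 h4
    obtain ⟨X', h5, h6⟩ := h4 f (mem_insert_self f S)
    refine ih (symmDiff X X') (symmDiff_le_sup.trans (union_subset h1 h5)) (ext fun g => ?_)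
      (fun k => h3 (mem_insert_of_mem k)) fun g k => h4 g (mem_insert_of_mem k)
    have a1 := Finset.ext_iff.1 h2 g
    have a2 := Finset.ext_iff.1 h6 g
    have a3 : g = f → g ∉ S ∧ g ≠ e :=
      fun k => k ▸ ⟨hf, fun k' => h3 (k' ▸ mem_insert_self _ _)⟩
    have a4 : g ∈ G.crs (G.ins Y) (symmDiff X X') ↔
        ¬ (g ∈ G.crs (G.ins Y) X ↔ g ∈ G.crs (G.ins Y) X') := by
      simp only [mem_crs, mem_symmDiff]
      generalize (g ∈ G.ins Y) = p, (G.s g ∈ X) = a, (G.t g ∈ X) = b, (G.s g ∈ X') = c,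
        (G.t g ∈ X') = d
      by_cases p <;> by_cases a <;> by_cases b <;> by_cases c <;> by_cases d <;> simp [*]
    rw [a4, a1, a2]
    simp only [mem_insert, mem_singleton]
    (clear * - a1 a2 a3 a4; grind)

omit [Fintype V] in
theorem GTj_odd {F0 : Finset E} (h1 : F0 ⊆ G.ins Y) (h2 : ∀ v ∈ Y, G.dg F0 v = G.dg J v)
    {y : E → ℚ} (h0 : ∀ e, 0 ≤ y e ∧ y e ≤ 1) (y1 : ∀ e, ¬ G.Bri Y e → y e = 1 / 2)
    (y2 : ∀ e, G.Bri Y e → y e = if e ∈ F0 then 1 else 0) {X : Finset V} (hX : X ⊆ Y)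
    {F : Finset E} (hF : F ⊆ G.crs (G.ins Y) X) (hO : Odd ((G.crs J X).card + F.card)) :
    1 ≤ ∑ e ∈ G.crs (G.ins Y) X \ F, y e + ∑ e ∈ F, (1 - y e) := by
  rw [GTj_slack hF]
  have k0 : ∀ e, 0 ≤ if e ∈ F then 1 - y e else y e := fun e => by
    have := h0 e
    split_ifs <;> linarith
  by_cases k : ∀ e ∈ G.crs (G.ins Y) X, G.Bri Y e
  · obtain ⟨e, a1, a2⟩ : ∃ e ∈ G.crs (G.ins Y) X, ¬ (e ∈ F ↔ e ∈ F0) := by
      by_contra! a
      have a1 : F = G.crs F0 X := ext fun e => ⟨fun h => mem_crs.2 ⟨(a e (hF h)).1 h,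
        (mem_crs.1 (hF h)).2⟩, fun h => (a e (mem_crs.2 ⟨h1 (mem_crs.1 h).1,
          (mem_crs.1 h).2⟩)).2 (mem_crs.1 h).1⟩
      rw [← ZMod.natCast_eq_one_iff_odd, a1, Nat.cast_add, ← sum_dg, ← sum_dg,
        sum_congr rfl fun v hv => h2 v (hX hv), z2_add_self] at hO
      exact zero_ne_one hO
    refine le_trans (le_of_eq ?_) (single_le_sum (fun e _ => k0 e) a1)
    rw [y2 e (k e a1)]
    by_cases b1 : e ∈ F <;> by_cases b2 : e ∈ F0 <;> simp_all
  · push Not at k
    obtain ⟨e, a1, a2⟩ := k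
    obtain ⟨f, b1, b2⟩ : ∃ f ∈ (G.crs (G.ins Y) X).erase e, ¬ G.Bri Y f := by
      by_contra! b
      exact a2 (GTj_bri _ X hX (insert_erase a1).symm (notMem_erase _ _) b)
    refine le_trans (le_of_eq ?_) (sum_le_sum_of_subset_of_nonneg (s := {f, e})
      (insert_subset (mem_of_mem_erase b1) (singleton_subset_iff.2 a1)) fun e _ _ => k0 e)
    rw [sum_pair (ne_of_mem_erase b1), y1 e a2, y1 f b2]
    split_ifs <;> norm_num

theorem tjoin (hc : G.Cub) (hY : Y ⊆ G.vs G.A) (hl : ∀ e ∈ G.tch Y, G.s e ≠ G.t e)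
    (hcn : G.Cn Y (G.ins Y)) (hJ : J ⊆ G.cut Y) (hE : Even J.card) (hpd : PD Bs)
    (hB : ∀ B ∈ Bs, B ⊆ Y ∧ (G.cut B).card = 4 ∧ G.cut B ⊆ G.ins Y ∧ G.Cn B (G.ins B) ∧
      ∀ e ∈ G.cut B, ¬ G.Bri Y e) (e0 : E) (h0 : ¬ G.Bri Y e0) :
    ∃ F, G.Tq Y J Bs F ∧ e0 ∉ F := by
  classical
  have _ := hY
  rcases Y.eq_empty_or_nonempty with rfl | ⟨r, hr⟩
  · exact ⟨∅, ⟨empty_subset _, by simp, by simp⟩, notMem_empty _⟩
  obtain ⟨F0, f1, f2⟩ := GTj_join hcn hr hJ
  replace f2 : ∀ v ∈ Y, G.dg F0 v = G.dg J v := fun v hv => z2_eq_of_add (by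
    rw [f2 v hv, ZMod.natCast_eq_zero_iff_even.2 hE, zero_mul])
  obtain ⟨y, y1, y2⟩ : ∃ y : E → ℚ, (∀ e, ¬ G.Bri Y e → y e = 1 / 2) ∧
      ∀ e, G.Bri Y e → y e = if e ∈ F0 then 1 else 0 :=
    ⟨fun e => if G.Bri Y e then (if e ∈ F0 then 1 else 0) else 1 / 2, fun e h => if_neg h,
      fun e h => if_pos h⟩
  have y0 : ∀ e, 0 ≤ y e ∧ y e ≤ 1 := fun e => by
    by_cases k : G.Bri Y e
    · rw [y2 e k]
      split_ifs <;> norm_num
    · rw [y1 e k]
      norm_num
  have hs : ∀ N ∈ Bs, N ⊆ Y := fun N h => (hB N h).1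
  have hd : Disjoint (G.ins Y) J := disjoint_left.2 fun e a b =>
    (mem_cut.1 (hJ b)).2 (iff_of_true (mem_ins.1 a).2.1 (mem_ins.1 a).2.2)
  have d1 : ∀ v, (∀ B ∈ Bs, v ∉ B) → ∀ S, (G.quo Y Bs).deg S (nd Bs v) = G.deg S v := by
    refine fun v hv S => sum_congr rfl fun e _ => ?_
    change iv (nd Bs (G.s e) = _) + iv (nd Bs (G.t e) = _) = _
    simp only [nd_eq_iff hpd]
    simp only [nd_of_not hv, mem_singleton, inc]
  have d2 : ∀ v, nd Bs v ∈ Bs → (G.quo Y Bs).deg J (nd Bs v) = 0 := by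
    refine fun v hv => sum_eq_zero fun e he => ?_
    have a1 := (mem_cut.1 (hJ he)).2
    have a2 : e ∉ G.cut (nd Bs v) := fun k => disjoint_left.1 hd ((hB _ hv).2.2.1 k) he
    have a3 : G.s e ∈ nd Bs v ↔ G.t e ∈ nd Bs v :=
      by_contra fun k => a2 (mem_cut.2 ⟨(mem_cut.1 (hJ he)).1, k⟩)
    have a4 : G.s e ∉ nd Bs v := fun k => a1 (iff_of_true (hs _ hv k) (hs _ hv (a3.1 k)))
    change iv (nd Bs (G.s e) = _) + iv (nd Bs (G.t e) = _) = _
    simp only [nd_eq_iff hpd, iv, ← a3, a4, if_false, add_zero]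
  have d3 : ∀ v ∈ Y, ∑ e ∈ (G.quo Y Bs).A, ((G.quo Y Bs).inc e (nd Bs v) : ℚ) * y e =
      ∑ e ∈ G.crs (G.ins Y) (nd Bs v), y e := by
    intro v hv
    rw [← un_single hpd hs hv, ← quo_crs, crs, sum_filter, un_single hpd hs hv]
    refine sum_congr rfl fun e he => ?_
    have := quo_noloop he
    by_cases a : (G.quo Y Bs).s e = nd Bs v <;> by_cases b : (G.quo Y Bs).t e = nd Bs v
    · exact (this (a.trans b.symm)).elim
    all_goals simp [inc, iv, a, b]
  refine (GTj_ej (G.quo Y Bs) (Y.image (nd Bs))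
    (fun N => 2 - (G.quo Y Bs).deg J N) y y0 (fun N hN => ?_) (fun K hK F hF hO => ?_) e0
    (by rw [y1 e0 h0]; norm_num)).elim fun F ⟨a1, a2, a3⟩ => ?_
  rotate_right
  · have a4 : F ⊆ G.ins Y := a1.trans (filter_subset _ _)
    refine ⟨F, ⟨a4, fun v hv k => ?_, fun B k => ?_⟩, a2⟩
    · have := a3 _ (mem_image_of_mem _ hv)
      rw [d1 v k, d1 v k] at this
      rw [dg_eq_zero, deg_union (hd.mono_left a4), Nat.even_iff]
      omega
    · obtain ⟨e, he⟩ := card_pos.1 (lt_of_lt_of_eq four_pos (hB B k).2.1.symm)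
      obtain ⟨v, hv⟩ : ∃ v, v ∈ B := by_contra fun q =>
        (mem_cut.1 he).2 (iff_of_false (fun z => q ⟨_, z⟩) fun z => q ⟨_, z⟩)
      obtain rfl := nd_of_mem hpd k hv
      have := a3 _ (mem_image_of_mem _ (hs _ k hv))
      rw [d2 v k, quo_deg hpd a1] at this
      omega
  · obtain ⟨v, hv, rfl⟩ := mem_image.1 hN
    have b0 : 0 ≤ ∑ e ∈ G.crs (G.ins Y) (nd Bs v), y e := sum_nonneg fun e _ => (y0 e).1
    rw [d3 v hv]
    push_cast
    refine ⟨by linarith [Nat.cast_nonneg (α := ℚ) ((G.quo Y Bs).deg J (nd Bs v))], ?_⟩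
    rcases nd_cases hpd v with k | ⟨k, k'⟩
    · obtain ⟨-, b1, b2, -, b3⟩ := hB _ k
      have b4 : G.crs (G.ins Y) (nd Bs v) = G.cut (nd Bs v) := ext fun e =>
        ⟨fun h => mem_cut.2 ⟨ins_sub_A (mem_crs.1 h).1, (mem_crs.1 h).2⟩,
          fun h => mem_crs.2 ⟨b2 h, (mem_cut.1 h).2⟩⟩
      rw [d2 v k, b4, sum_congr rfl fun e he => y1 e (b3 e he), sum_const, b1]
      norm_num
    · have b1 : ∀ S ⊆ G.A, G.deg S v = (G.crs S {v}).card := fun S hS => by
        rw [crs, card_filter]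
        refine sum_congr rfl fun e he => ?_
        by_cases a : G.s e = v <;> by_cases b : G.t e = v
        · exact (hl e (mem_tch.2 ⟨hS he, Or.inl (a ▸ hv)⟩) (a.trans b.symm)).elim
        all_goals simp [inc, iv, a, b]
      have b2 : J ⊆ G.A := hJ.trans (filter_subset _ _)
      have b3 := hc.le3 (union_subset (ins_sub_A (W := Y)) b2) v
      rw [deg_union hd, b1 _ ins_sub_A, b1 _ b2] at b3
      rw [d1 v k, k', b1 _ b2]
      rcases b3.lt_or_eq with b3 | b3
      · have b4 := sum_le_card_nsmul (G.crs (G.ins Y) {v}) y 1 fun e _ => (y0 e).2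
        have b5 : ((G.crs (G.ins Y) {v}).card : ℚ) + (G.crs J {v}).card ≤ 2 := by
          exact_mod_cast Nat.le_of_lt_succ b3
        rw [nsmul_one] at b4
        linarith
      · have b4 := GTj_odd f1 f2 y0 y1 y2 (singleton_subset_iff.2 hv) Subset.rfl
          (by rw [add_comm, b3]; decide)
        have b5 : ((G.crs (G.ins Y) {v}).card : ℚ) + (G.crs J {v}).card = 3 := by
          exact_mod_cast b3
        rw [Finset.sdiff_self, sum_empty, sum_sub_distrib, sum_const, nsmul_one] at b4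
        linarith
  · rw [cut, quo_crs] at hF ⊢
    refine GTj_odd f1 f2 y0 y1 y2 (X := un Y Bs K) (filter_subset _ _) hF ?_
    have b1 : ∀ u, nd Bs u ∈ K ↔ u ∈ un Y Bs K := fun u => by
      refine ⟨fun h => mem_un.2 ⟨?_, h⟩, fun h => (mem_un.1 h).2⟩
      obtain ⟨v, hv, e⟩ := mem_image.1 (hK h)
      exact nd_sub hs hv ((nd_eq_iff hpd).1 e.symm)
    have b2 : G.crs J (un Y Bs K) = (G.quo Y Bs).crs J K :=
      filter_congr fun e _ => by rw [← b1, ← b1]; rfl
    rw [← ZMod.intCast_eq_one_iff_odd] at hO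
    rw [← ZMod.natCast_eq_one_iff_odd, b2, Nat.cast_add, ← sum_dg, ← hO]
    push_cast
    refine congrArg (· + _) (sum_congr rfl fun N _ => ?_)
    rw [dg_eq]
    generalize (((G.quo Y Bs).deg J N : ℕ) : ZMod 2) = a
    revert a
    decide

end SG

end Pool.Agent.Work.MP_8c679b_co
end

-- merged part: Pool.Agent.Work.MP_8c679b_co.Top.TJoin2
section
/-!
A join of one two-edge-connected piece that uses every box at most once; two given leaving edges
may lie in the cuts of the boxes.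
-/

set_option autoImplicit false

namespace Pool.Agent.Work.MP_8c679b_co

open Finset

namespace SG

variable {V E : Type} [Fintype V] [DecidableEq V] [DecidableEq E] {G : SG V E}
  {Y : Finset V} {J R : Finset E} {Bs : Finset (Finset V)}

/-- the theorem of Edmonds and Johnson with a loop at every vertex and a chosen edge -/
theorem TJoin2_ej (Q : SG V E) (W : Finset V) (b : V → ℤ) (y : E → ℚ)
    (h0 : ∀ e, 0 ≤ y e ∧ y e ≤ 1)
    (hB : ∀ v ∈ W, (b v : ℚ) - 2 ≤ ∑ e ∈ Q.A, Q.inc e v * y e ∧ ∑ e ∈ Q.A, Q.inc e v * y e ≤ b v)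
    (hodd : ∀ K ⊆ W, ∀ F ⊆ Q.cut K, Odd (∑ v ∈ K, b v + F.card) →
      1 ≤ ∑ e ∈ Q.cut K \ F, y e + ∑ e ∈ F, (1 - y e)) (e0 : E) (he : 0 < y e0) :
    ∃ F ⊆ Q.A, (e0 ∈ Q.A → e0 ∈ F) ∧
      ∀ v ∈ W, (Q.deg F v : ℤ) = b v ∨ (Q.deg F v : ℤ) + 2 = b v := by
  let H : SG V (E ⊕ V) := ⟨Q.A.disjSum W, Sum.elim Q.s id, Sum.elim Q.t id, fun _ => 0⟩
  have k1 : ∀ (R : Type) [CommRing R] (z : E ⊕ V → R), ∀ v ∈ W,
      H.bb (fun _ => 1) (fun _ => 1) z v =
        ∑ e ∈ Q.A, Q.inc e v * z (.inl e) + 2 * z (.inr v) := by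
    intro R _ z v hv
    rw [bb, sum_disjSum]
    refine congrArg₂ (· + ·) (sum_congr rfl fun e _ => by
      by_cases a : Q.s e = v <;> by_cases b : Q.t e = v <;>
        simp [H, inc, iv, a, b, one_add_one_eq_two]) ?_
    rw [sum_eq_single_of_mem v hv fun u _ k => by simp [H, iv, k]]
    simp [H, iv, one_add_one_eq_two]
  have k2 : ∀ K, H.cut K = (Q.cut K).map Function.Embedding.inl := fun K => by
    ext (e | v) <;> simp [mem_cut, H]
  obtain ⟨x, x1, x2, x3⟩ := ej H (fun _ => 1) (fun _ => 1) (fun _ => Or.inl rfl)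
    (fun _ => Or.inl rfl) W b (Sum.elim y fun v => (b v - ∑ e ∈ Q.A, Q.inc e v * y e) / 2)
    (by
      rintro (e | v) h
      · exact h0 e
      · have := hB v (inr_mem_disjSum.1 h)
        constructor <;> simp only [Sum.elim_inr] <;> linarith)
    (fun v hv => by
      rw [k1 ℚ _ v hv]
      simp only [Sum.elim_inl, Sum.elim_inr]
      ring)
    (fun K hK F hF hO => by
      rw [k2] at hF ⊢
      obtain ⟨F, h1, rfl⟩ := subset_map_iff.1 hF
      rw [card_map] at hO
      rw [← Finset.map_sdiff, sum_map, sum_map]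
      exact hodd K hK F h1 hO)
    (.inl e0) 1 fun _ => Or.inr ⟨rfl, he⟩
  refine ⟨Q.A.filter fun e => x (.inl e) = 1, filter_subset _ _,
    fun h => mem_filter.2 ⟨h, x3 (inl_mem_disjSum.2 h)⟩, fun v hv => ?_⟩
  have h1 : (Q.deg (Q.A.filter fun e => x (.inl e) = 1) v : ℤ) =
      ∑ e ∈ Q.A, Q.inc e v * x (.inl e) := by
    rw [deg, Nat.cast_sum, sum_filter]
    refine sum_congr rfl fun e h => ?_
    rcases x1 _ (inl_mem_disjSum.2 h) with k | k <;> simp [k]
  have h2 := x2 v hv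
  rw [k1 ℤ _ v hv, ← h1] at h2
  rcases x1 _ (inr_mem_disjSum.2 hv) with k | k <;> rw [k] at h2 <;> omega

omit [Fintype V] in
/-- odd sets have two leaving edges -/
theorem TJoin2_odd (h2 : G.Two Y (G.ins Y)) (hJ : J ⊆ G.cut Y) (hE : Even J.card) (hR : R ⊆ J)
    (hR2 : R.card = 2 ∨ R = ∅) {X : Finset V} (hX : X ⊆ Y) {F : Finset E}
    (hF : F ⊆ G.crs (G.ins Y ∪ R) X) (hO : Odd ((G.crs (J \ R) X).card + F.card)) :
    2 ≤ (G.crs (G.ins Y ∪ R) X).card := by
  rcases X.eq_empty_or_nonempty with rfl | hn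
  · have a1 : ∀ S, G.crs S ∅ = ∅ := fun S => filter_eq_empty_iff.2 fun e _ => by simp
    rw [a1] at hF hO
    rw [subset_empty.1 hF] at hO
    simp at hO
  by_cases k : X = Y
  · subst k
    rcases hR2 with k | rfl
    · exact k ▸ card_le_card fun e he =>
        mem_crs.2 ⟨mem_union_right _ he, (mem_cut.1 (hJ (hR he))).2⟩
    · have a1 : F = ∅ := eq_empty_of_forall_notMem fun e he => by
        obtain ⟨a, b⟩ := mem_crs.1 (hF he)
        rw [union_empty] at a
        exact b (iff_of_true (mem_ins.1 a).2.1 (mem_ins.1 a).2.2)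
      have a2 : G.crs (J \ ∅) X = J := by
        rw [sdiff_empty]
        exact filter_true_of_mem fun e he => (mem_cut.1 (hJ he)).2
      rw [a1, a2, card_empty, add_zero] at hO
      exact absurd hE (Nat.not_even_iff_odd.2 hO)
  · exact (h2 X hX hn k).trans (card_le_card (filter_subset_filter _ subset_union_left))

theorem tjoin2 (hc : G.Cub) (hY : Y ⊆ G.vs G.A) (hl : ∀ e ∈ G.tch Y, G.s e ≠ G.t e)
    (h2 : G.Two Y (G.ins Y)) (hJ : J ⊆ G.cut Y) (hE : Even J.card) (hR : R ⊆ J)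
    (hR2 : R.card = 2 ∨ R = ∅) (hpd : PD Bs)
    (hB : ∀ B ∈ Bs, B ⊆ Y ∧ (G.cut B).card = 4 ∧ G.cut B ⊆ G.ins Y ∪ R) :
    ∃ F ⊆ G.ins Y, (∀ v ∈ Y, (∀ B ∈ Bs, v ∉ B) → G.dg (F ∪ J) v = 0) ∧
      ∀ B ∈ Bs, ((F ∪ J) ∩ G.cut B).card = 0 ∨ ((F ∪ J) ∩ G.cut B).card = 2 := by
  classical
  have hne : ∀ B ∈ Bs, B.Nonempty := fun B k => by
    obtain ⟨e, he⟩ := card_pos.1 (lt_of_lt_of_eq four_pos (hB B k).2.1.symm)
    exact by_contra fun q =>
      (mem_cut.1 he).2 (iff_of_false (fun z => q ⟨_, z⟩) fun z => q ⟨_, z⟩)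
  have hs : ∀ N ∈ Bs, N ⊆ Y := fun N h => (hB N h).1
  rcases Y.eq_empty_or_nonempty with rfl | ⟨r, hr⟩
  · exact ⟨∅, empty_subset _, by simp, fun B k =>
      absurd (subset_empty.1 (hs B k)) (hne B k).ne_empty⟩
  obtain ⟨e0, he0⟩ : ∃ e0, R.Nonempty → e0 ∈ R := by
    rcases R.eq_empty_or_nonempty with rfl | ⟨e, he⟩
    · obtain ⟨e, -⟩ := mem_vs.1 (hY hr)
      exact ⟨e, fun k => absurd k not_nonempty_empty⟩
    · exact ⟨e, fun _ => he⟩
  let Q : SG (Finset V) E :=
    ⟨(G.quo Y Bs).A ∪ R, fun e => nd Bs (G.s e), fun e => nd Bs (G.t e), G.n⟩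
  have hd : Disjoint (G.ins Y) J := disjoint_left.2 fun e a b =>
    (mem_cut.1 (hJ b)).2 (iff_of_true (mem_ins.1 a).2.1 (mem_ins.1 a).2.2)
  have hA : G.ins Y ∪ J ⊆ G.A := union_subset ins_sub_A (hJ.trans (filter_subset _ _))
  have b1 : ∀ K ⊆ Y.image (nd Bs), ∀ u, nd Bs u ∈ K ↔ u ∈ un Y Bs K := fun K hK u => by
    refine ⟨fun h => mem_un.2 ⟨?_, h⟩, fun h => (mem_un.1 h).2⟩
    obtain ⟨v, hv, e⟩ := mem_image.1 (hK h)
    exact nd_sub hs hv ((nd_eq_iff hpd).1 e.symm)
  have b2 : ∀ K ⊆ Y.image (nd Bs), ∀ S, Q.crs S K = G.crs S (un Y Bs K) := fun K hK S =>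
    filter_congr fun e _ => by rw [← b1 K hK, ← b1 K hK]
  have b3 : ∀ K ⊆ Y.image (nd Bs), Q.cut K = G.crs (G.ins Y ∪ R) (un Y Bs K) := fun K hK => by
    rw [cut, ← b2 K hK]
    ext e
    simp only [mem_crs, Q, mem_union, mem_quo]
    refine and_congr_left fun k => or_congr_left (and_iff_left fun q => k (by rw [q]))
  have nl : ∀ e ∈ J, Q.s e ≠ Q.t e := fun e he k => by
    have a1 := (mem_cut.1 (hJ he)).2
    have a2 : G.s e ∈ nd Bs (G.t e) := (nd_eq_iff hpd).1 k
    have a3 : G.t e ∈ nd Bs (G.s e) := (nd_eq_iff hpd).1 k.symm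
    exact a1 ⟨fun q => nd_sub hs q a3, fun q => nd_sub hs q a2⟩
  have nq : ∀ e ∈ Q.A ∪ J, Q.s e ≠ Q.t e := fun e he => by
    rcases mem_union.1 he with k | k
    · exact (mem_union.1 k).elim (fun k => quo_noloop k) fun k => nl e (hR k)
    · exact nl e k
  have d0 : ∀ v ∈ Y, ∀ S ⊆ Q.A ∪ J, Q.deg S (nd Bs v) = (G.crs S (nd Bs v)).card := by
    intro v hv S hS
    rw [← un_single hpd hs hv, ← b2 _ (singleton_subset_iff.2 (mem_image_of_mem _ hv)),
      un_single hpd hs hv, crs, card_filter]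
    refine sum_congr rfl fun e he => ?_
    have := nq e (hS he)
    by_cases a : Q.s e = nd Bs v <;> by_cases b : Q.t e = nd Bs v
    · exact (this (a.trans b.symm)).elim
    all_goals simp [inc, iv, a, b]
  have dv : ∀ v ∈ Y, ∀ S ⊆ G.A, G.deg S v = (G.crs S {v}).card := fun v hv S hS => by
    rw [crs, card_filter]
    refine sum_congr rfl fun e he => ?_
    by_cases a : G.s e = v <;> by_cases b : G.t e = v
    · exact (hl e (mem_tch.2 ⟨hS he, Or.inl (a ▸ hv)⟩) (a.trans b.symm)).elim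
    all_goals simp [inc, iv, a, b]
  have hJR : J \ R ⊆ Q.A ∪ J := sdiff_subset.trans subset_union_right
  have d2 : ∀ B ∈ Bs, G.crs (J \ R) B = ∅ := fun B k => filter_eq_empty_iff.2 fun e he q => by
    rcases mem_union.1 ((hB B k).2.2 (mem_cut.2 ⟨hA (mem_union_right _ (mem_sdiff.1 he).1), q⟩))
      with z | z
    exacts [disjoint_left.1 hd z (mem_sdiff.1 he).1, (mem_sdiff.1 he).2 z]
  have d3 : ∀ v ∈ Y, ∑ e ∈ Q.A, (Q.inc e (nd Bs v) : ℚ) * (1 / 2) =
      (G.crs (G.ins Y ∪ R) (nd Bs v)).card * (1 / 2) := by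
    intro v hv
    have a1 := b3 _ (singleton_subset_iff.2 (mem_image_of_mem _ hv))
    rw [cut, b2 _ (singleton_subset_iff.2 (mem_image_of_mem _ hv)), un_single hpd hs hv] at a1
    rw [← sum_mul, ← Nat.cast_sum, ← a1, ← d0 v hv _ subset_union_left]
    rfl
  have hdj : Disjoint (G.ins Y ∪ R) (J \ R) :=
    disjoint_union_left.2 ⟨hd.mono_right sdiff_subset, disjoint_sdiff⟩
  refine (TJoin2_ej Q (Y.image (nd Bs)) (fun N => 2 - Q.deg (J \ R) N)
    (fun _ => 1 / 2) (fun _ => by norm_num) (fun N hN => ?_) (fun K hK F hF hO => ?_) e0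
    (by norm_num)).elim fun F ⟨a1, a2, a3⟩ => ?_
  rotate_right
  · have a4 : F ⊆ G.ins Y ∪ R := a1.trans (union_subset_union_left (filter_subset _ _))
    have a5 : ∀ v ∈ Y, (G.crs F (nd Bs v)).card + (G.crs (J \ R) (nd Bs v)).card = 2 ∨
        (G.crs F (nd Bs v)).card + (G.crs (J \ R) (nd Bs v)).card = 0 := fun v hv => by
      have := a3 _ (mem_image_of_mem _ hv)
      rw [d0 v hv _ (a1.trans subset_union_left), d0 v hv _ hJR] at this
      omega
    have a6 : R ⊆ F := by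
      rcases hR2 with k | rfl
      swap
      · exact empty_subset _
      have c1 : un Y Bs (Y.image (nd Bs)) = Y :=
        filter_true_of_mem fun v hv => mem_image_of_mem _ hv
      have c2 : ∑ N ∈ Y.image (nd Bs), Q.dg F N = ∑ N ∈ Y.image (nd Bs), Q.dg (J \ R) N := by
        refine sum_congr rfl fun N hN => ?_
        obtain ⟨v, hv, rfl⟩ := mem_image.1 hN
        refine z2_eq_of_add ?_
        rw [dg_eq, dg_eq, d0 v hv _ (a1.trans subset_union_left), d0 v hv _ hJR, ← Nat.cast_add]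
        rcases a5 v hv with q | q <;> rw [q] <;> decide
      have c3 : G.crs F Y = F ∩ R := ext fun e => by
        rw [mem_crs, mem_inter]
        refine and_congr_right fun q => ⟨fun z => (mem_union.1 (a4 q)).resolve_left fun w =>
          z (iff_of_true (mem_ins.1 w).2.1 (mem_ins.1 w).2.2), fun z => (mem_cut.1 (hJ (hR z))).2⟩
      have c4 : G.crs (J \ R) Y = J \ R :=
        filter_true_of_mem fun e he => (mem_cut.1 (hJ (mem_sdiff.1 he).1)).2
      rw [sum_dg, sum_dg, b2 _ Subset.rfl, b2 _ Subset.rfl, c1, c3, c4, ZMod.natCast_eq_natCast_iff',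
        card_sdiff_of_subset hR, k] at c2
      have c5 : e0 ∈ R := he0 (card_pos.1 (k ▸ two_pos))
      have c6 := card_pos.2 ⟨e0, mem_inter.2 ⟨a2 (mem_union_right _ c5), c5⟩⟩
      have c7 := card_le_card hR
      rw [Nat.even_iff] at hE
      exact inter_eq_right.1 (eq_of_subset_of_card_le inter_subset_right (by
        have := card_le_card (inter_subset_right : F ∩ R ⊆ R)
        omega))
    have a7 : F \ R ∪ J = F ∪ J \ R := ext fun e => by
      have := @a6 e
      have := @hR e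
      simp only [mem_union, mem_sdiff]
      grind
    have a8 : ∀ X, (G.crs (F ∪ J \ R) X).card = (G.crs F X).card + (G.crs (J \ R) X).card :=
      fun X => by
        rw [crs, filter_union, card_union_of_disjoint]
        · rfl
        · exact (hdj.mono_left a4).mono (filter_subset _ _) (filter_subset _ _)
    have a9 : F ∪ J \ R ⊆ G.A := union_subset
      (a4.trans ((union_subset_union_right hR).trans hA))
      (sdiff_subset.trans (subset_union_right.trans hA))
    refine ⟨F \ R, fun e he => (mem_union.1 (a4 (mem_sdiff.1 he).1)).resolve_right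
      (mem_sdiff.1 he).2, fun v hv k => ?_, fun B k => ?_⟩
    · have := a5 v hv
      rw [nd_of_not k] at this
      rw [a7, dg_eq_zero, dv v hv _ a9, a8, Nat.even_iff]
      omega
    · obtain ⟨v, hv⟩ := hne B k
      have := a5 v (hs B k hv)
      have c1 : (F ∪ J \ R) ∩ G.cut B = G.crs (F ∪ J \ R) B := ext fun e => by
        rw [mem_inter, mem_crs, mem_cut]
        exact and_congr_right fun q => and_iff_right (a9 q)
      rw [nd_of_mem hpd k hv] at this
      rw [a7, c1, a8]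
      omega
  · obtain ⟨v, hv, rfl⟩ := mem_image.1 hN
    rw [d3 v hv, d0 v hv _ hJR]
    push_cast
    have c0 : (0 : ℚ) ≤ (G.crs (G.ins Y ∪ R) (nd Bs v)).card := Nat.cast_nonneg _
    have c1 : (0 : ℚ) ≤ (G.crs (J \ R) (nd Bs v)).card := Nat.cast_nonneg _
    refine ⟨by linarith, ?_⟩
    suffices h : (G.crs (G.ins Y ∪ R) (nd Bs v)).card + 2 * (G.crs (J \ R) (nd Bs v)).card ≤ 4 by
      have : ((G.crs (G.ins Y ∪ R) (nd Bs v)).card : ℚ) +
        2 * (G.crs (J \ R) (nd Bs v)).card ≤ 4 := by exact_mod_cast h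
      linarith
    rcases nd_cases hpd v with k | ⟨-, k'⟩
    · rw [d2 _ k, ← (hB _ k).2.1]
      exact card_le_card (filter_subset_filter _ ((union_subset_union_right hR).trans hA))
    · have c2 : G.ins Y ∪ R ⊆ G.A := (union_subset_union_right hR).trans hA
      have c3 : J \ R ⊆ G.A := sdiff_subset.trans (subset_union_right.trans hA)
      have c4 := hc.le3 (union_subset c2 c3) v
      rw [deg_union hdj, dv v hv _ c2, dv v hv _ c3] at c4
      rw [k']
      have c5 := fun h => TJoin2_odd h2 hJ hE hR hR2 (singleton_subset_iff.2 hv) Subset.rfl h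
      rw [Nat.odd_iff] at c5
      omega
  · rw [b3 K hK] at hF ⊢
    have c1 := TJoin2_odd h2 hJ hE hR hR2 (X := un Y Bs K) (filter_subset _ _) hF (by
      rw [← ZMod.intCast_eq_one_iff_odd] at hO
      rw [← ZMod.natCast_eq_one_iff_odd, ← b2 K hK, Nat.cast_add, ← sum_dg, ← hO]
      push_cast
      refine congrArg (· + _) (sum_congr rfl fun N _ => ?_)
      rw [dg_eq]
      generalize ((Q.deg (J \ R) N : ℕ) : ZMod 2) = a
      revert a
      decide)
    have c2 : ((G.crs (G.ins Y ∪ R) (un Y Bs K) \ F).card : ℚ) + F.card ≥ 2 := by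
      rw [← Nat.cast_add, card_sdiff_add_card_eq_card hF]
      exact_mod_cast c1
    rw [sum_const, sum_const, nsmul_eq_mul, nsmul_eq_mul]
    linarith

end SG

end Pool.Agent.Work.MP_8c679b_co
end
end

-- merged part: Pool.Agent.Work.MP_8c679b_co.Top.TJoin
section
-- merged part: Pool.Agent.Work.MP_8c679b_co.Top.LFrm
section
/-!
Translation between lifts and systems of picks.  All proofs are pieces of the proof of `lift6`
(file `Six/Lift6`).
-/

set_option autoImplicit false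

namespace Pool.Agent.Work.MP_8c679b_co

open Finset

namespace SG

variable {V E : Type} [Fintype V] [DecidableEq V] [DecidableEq E] {G : SG V E}
  {W : Finset V} {O P : Finset E} {φ : E → ZMod 3} {r a b f h : E → ℤ} {ε : V → ℤ}
  {Q : V → E → Prop} {w : V → ℕ} {wp : E → ℕ}

omit [Fintype V] in
lemma LFrm_at {v : V} {e : E} (hv : v ∈ W) (he : e ∈ G.A) (k : G.At e v) : e ∈ G.tch W :=
  mem_tch.2 ⟨he, by rcases k with rfl | rfl <;> simp [hv]⟩

omit [Fintype V] [DecidableEq E] in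
lemma Frm.LFrm_a (hF : G.Frm W O φ r a b ε) (e : E) : a e = 1 ∨ a e = -1 := hF.ha e ▸ hF.eps _

omit [Fintype V] [DecidableEq E] in
lemma Frm.LFrm_b (hF : G.Frm W O φ r a b ε) (e : E) : b e = 1 ∨ b e = -1 := by
  rw [hF.hb]
  rcases hF.eps (G.t e) with k | k <;> rcases Lift6_chi (G.n e) with k' | k' <;> simp [k, k']

omit [Fintype V] [DecidableEq E] in
lemma Frm.LFrm_t (hF : G.Frm W O φ r a b ε) (X : Finset V) (e : E) :
    (if G.s e ∈ X then a e else b e) = 1 ∨ (if G.s e ∈ X then a e else b e) = -1 := by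
  split_ifs
  exacts [hF.LFrm_a e, hF.LFrm_b e]

omit [Fintype V] [DecidableEq E] in
lemma LFrm_t2 (X : Finset V) (e : E) : (if G.s e ∈ X then |Lift6_u (r e) (-a e)|
    else |Lift6_u (r e) (-b e)|) = |Lift6_u (r e) (-(if G.s e ∈ X then a e else b e))| := by
  split_ifs <;> rfl

omit [Fintype V] [DecidableEq E] in
lemma Frm.LFrm_opp (hF : G.Frm W O φ r a b ε) {e : E} (h : ¬ a e = b e) {x : ℤ}
    (hx : x = r e ∨ x = r e - 6) : 0 < b e * x ↔ ¬ 0 < a e * x := by
  have := hF.hr e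
  rcases hF.LFrm_a e with k | k <;> rcases hF.LFrm_b e with k' | k' <;> rw [k, k'] at h ⊢ <;> omega

omit [Fintype V] in
lemma Frm.LFrm_bd (hF : G.Frm W O φ r a b ε) {v : V} (hv : v ∈ W)
    (hf : ∀ e ∈ G.tch W, f e = r e ∨ f e = r e - 6) : ε v * G.bd f v = 6 * ∑ e ∈ G.A,
      (iv (G.s e = v) * iv (0 < a e * f e) + iv (G.t e = v) * iv (0 < b e * f e)) - 6 := by
  rw [Lift6_bd (f := f) (a := a) (b := b) hF.hr (hF.eps v)
    (fun e he k => hF.nl e (LFrm_at hv he k)) (fun e k => by rw [hF.ha, k])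
    (fun e k => by rw [hF.hb, k]) (fun e he k => hf e (LFrm_at hv he k)), hF.hv v hv]

/-- HINT: the first thirty lines of the proof of `lift6`. -/
theorem Top_frm (hx : G.Lx W O φ) : ∃ r a b ε, G.Frm W O φ r a b ε := by
  choose r r1 r5 r0 using fun e => Lift6_r (O := O) (φ := φ) e
  have hr : ∀ e, 1 ≤ r e ∧ r e ≤ 5 := fun e => ⟨r1 e, r5 e⟩
  have hA : ∀ e ∈ G.tch W, ∀ x, Av O φ e x ↔ x = r e ∨ x = r e - 6 := fun e he =>
    r0 e (hx.sl.2.1 e he)
  have k0 : ∀ v, ∃ η : ℤ, (η = 1 ∨ η = -1) ∧ (v ∈ W → ∑ e ∈ G.A,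
      (iv (G.s e = v) * |Lift6_u (r e) (-η)| +
        iv (G.t e = v) * |Lift6_u (r e) (-(-η * chi (G.n e)))|) = 6) := fun v => by
    by_cases hv : v ∈ W
    · obtain ⟨η, k1, k2⟩ := Lift6_eps hr ((hx.cub v).resolve_left (deg_pos.2 (hx.act hv)).ne')
        (fun e he k => hx.nl e (LFrm_at hv he k)) hx.oa (hx.ev v hv) (hx.sl.1 v hv)
        fun e he k => hA e (LFrm_at hv he k)
      exact ⟨η, k1, fun _ => k2⟩
    · exact ⟨1, Or.inl rfl, fun k => absurd k hv⟩
  choose ε hε e6 using k0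
  refine ⟨r, fun e => ε (G.s e), fun e => -ε (G.t e) * chi (G.n e), ε, hr, hA, hε, fun _ => rfl,
    fun _ => rfl, fun v hv => ?_, hx.nl⟩
  rw [← e6 v hv]
  refine sum_congr rfl fun e _ => ?_
  unfold iv
  split_ifs with k1 k2 k2 <;> simp [*]

/-- HINT: the last part of the proof of `lift6`. -/
theorem Frm.lift (hF : G.Frm W O φ r a b ε) (hQ : G.Pick W (fun e => a e = b e) Q) :
    ∃ f, G.Lf W O φ f ∧
      ∀ e ∈ G.cut W, (Q (G.ie W e) e ↔ 0 < (if G.s e ∈ W then a e else b e) * f e) := by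
  classical
  obtain ⟨q1, q2⟩ := hQ
  obtain ⟨f, hf⟩ : ∃ f : E → ℤ, ∀ e, f e = if Q (G.ie W e) e then
      Lift6_u (r e) (if G.s e ∈ W then a e else b e)
      else Lift6_u (r e) (-(if G.s e ∈ W then a e else b e)) := ⟨_, fun _ => rfl⟩
  have f1 : ∀ e, f e = r e ∨ f e = r e - 6 := fun e => by
    have := Lift6_u1 (hF.hr e).1 (hF.hr e).2 (hF.LFrm_t W e)
    rw [hf]
    by_cases k : Q (G.ie W e) e
    · rw [if_pos k]
      exact this.1
    · rw [if_neg k]
      exact this.2.1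
  have f2 : ∀ e, 0 < (if G.s e ∈ W then a e else b e) * f e ↔ Q (G.ie W e) e := fun e => by
    have := Lift6_u1 (hF.hr e).1 (hF.hr e).2 (hF.LFrm_t W e)
    rw [hf]
    by_cases k : Q (G.ie W e) e
    · rw [if_pos k]
      exact iff_of_true this.2.2.1 k
    · rw [if_neg k]
      exact iff_of_false this.2.2.2.1 k
  refine ⟨f, ⟨fun v hv' => ?_, fun e he => (hF.av e he _).2 (f1 e)⟩, fun e _ => (f2 e).symm⟩
  obtain ⟨e0, k1, k2, k3⟩ := q1 v hv'
  have k4 := hF.LFrm_bd (f := f) hv' fun e _ => f1 e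
  have k5 : ∑ e ∈ G.A, (iv (G.s e = v) * iv (0 < a e * f e) +
      iv (G.t e = v) * iv (0 < b e * f e) : ℤ) = ∑ e ∈ G.A, if e = e0 then 1 else 0 := by
    refine sum_congr rfl fun e he => ?_
    have k6 := f2 e
    by_cases s1 : G.s e = v
    · have s2 : G.t e ≠ v := fun k => hF.nl e (LFrm_at hv' he (Or.inl s1)) (s1.trans k.symm)
      simp only [ie, s1, hv', if_true, k3] at k6
      simp only [iv, s1, s2, k6, if_true, if_false, one_mul, zero_mul, add_zero]
    by_cases s2 : G.t e = v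
    · have k7 : 0 < b e * f e ↔ e = e0 := by
        rw [← k3, ← s2]
        by_cases s3 : G.s e ∈ W
        · simp only [ie, s3, if_true] at k6
          obtain ⟨k8, k9⟩ := q2 e (mem_ins.2 ⟨he, s3, s2 ▸ hv'⟩)
          by_cases s4 : a e = b e
          · rw [← s4, k6, k8 s4]
          · rw [hF.LFrm_opp s4 (f1 e), k6, k9 s4, not_not]
        · simpa only [ie, s3, if_false] using k6
      simp only [iv, s1, s2, k7, if_true, if_false, one_mul, zero_mul, zero_add]
    · have k7 : e ≠ e0 := by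
        rintro rfl
        exact k2.elim s1 s2
      simp [iv, s1, s2, k7]
  rw [k5, sum_ite_eq', if_pos k1] at k4
  rcases hF.eps v with k | k <;> rw [k] at k4 <;> omega

/-- HINT: `Q v e := e ∈ G.A ∧ ((G.s e = v ∧ 0 < a e * f e) ∨ (G.t e = v ∧ 0 < b e * f e))`.
`Lift6_bd` and `hF.hv` show that the sum of the indicators at `v` is one, so exactly one edge
satisfies `Q v` (`card_eq_one` for the filter).  `a e`, `b e` are signs and `f e ≠ 0`. -/
theorem Frm.pick (hF : G.Frm W O φ r a b ε) (hf : G.Lf W O φ f) :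
    ∃ Q, G.Pick W (fun e => a e = b e) Q ∧
      ∀ e ∈ G.cut W, (Q (G.ie W e) e ↔ 0 < (if G.s e ∈ W then a e else b e) * f e) := by
  have f1 : ∀ e ∈ G.tch W, f e = r e ∨ f e = r e - 6 := fun e he => (hF.av e he _).1 (hf.2 e he)
  obtain ⟨Q, hQ⟩ : ∃ Q : V → E → Prop, ∀ v e, Q v e ↔
      e ∈ G.A ∧ ((G.s e = v ∧ 0 < a e * f e) ∨ (G.t e = v ∧ 0 < b e * f e)) :=
    ⟨_, fun _ _ => Iff.rfl⟩
  have q1 : ∀ e ∈ G.tch W, Q (G.s e) e ↔ 0 < a e * f e := fun e he => by
    simp [hQ, (mem_tch.1 he).1, (hF.nl e he).symm]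
  have q2 : ∀ e ∈ G.tch W, Q (G.t e) e ↔ 0 < b e * f e := fun e he => by
    simp [hQ, (mem_tch.1 he).1, hF.nl e he]
  refine ⟨Q, ⟨fun v hv => ?_, fun e he => ?_⟩, fun e he => ?_⟩
  · have k4 := hF.LFrm_bd hv f1
    have k5 : ∑ e ∈ G.A, (iv (G.s e = v) * iv (0 < a e * f e) +
        iv (G.t e = v) * iv (0 < b e * f e) : ℤ) = (G.A.filter fun e =>
          (G.s e = v ∧ 0 < a e * f e) ∨ (G.t e = v ∧ 0 < b e * f e)).card := by
      rw [card_filter, Nat.cast_sum]
      refine sum_congr rfl fun e he => ?_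
      by_cases s1 : G.s e = v
      · have s2 : G.t e ≠ v := fun k => hF.nl e (LFrm_at hv he (Or.inl s1)) (s1.trans k.symm)
        simp [iv, s1, s2]
      · by_cases s2 : G.t e = v <;> simp [iv, s1, s2]
    rw [k5, hf.1 v hv] at k4
    obtain ⟨e0, h0⟩ := card_eq_one.1 (show (G.A.filter fun e =>
      (G.s e = v ∧ 0 < a e * f e) ∨ (G.t e = v ∧ 0 < b e * f e)).card = 1 by omega)
    obtain ⟨k1, k2⟩ := mem_filter.1 (h0 ▸ mem_singleton_self e0)
    exact ⟨e0, k1, k2.imp And.left And.left, fun e => by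
      rw [hQ, ← mem_singleton (b := e), ← h0, mem_filter]⟩
  · have he' : e ∈ G.tch W := mem_tch.2 ⟨(mem_ins.1 he).1, Or.inl (mem_ins.1 he).2.1⟩
    rw [q1 e he', q2 e he']
    exact ⟨fun k => by rw [show a e = b e from k],
      fun k => by rw [hF.LFrm_opp k (f1 e he'), not_not]⟩
  · unfold ie
    split_ifs
    exacts [q1 e (cut_sub_tch he), q2 e (cut_sub_tch he)]

/-- HINT: both values are `r e` or `r e - 6`. -/
theorem Frm.eq_iff (hF : G.Frm W O φ r a b ε) {e : E} (he : e ∈ G.tch W) {x y : ℤ}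
    (hx : Av O φ e x) (hy : Av O φ e y) :
    x = y ↔ (0 < (if G.s e ∈ W then a e else b e) * x ↔
      0 < (if G.s e ∈ W then a e else b e) * y) := by
  have h1 := (hF.av e he _).1 hx
  have h2 := (hF.av e he _).1 hy
  have h3 := hF.hr e
  refine ⟨fun k => by rw [k], fun k => ?_⟩
  rcases hF.LFrm_t W e with k' | k' <;> rw [k'] at k <;> omega

/-- HINT: `Lift6_u1`; compare the arguments of `Lift6_core` in the proof of `lift6`. -/
theorem Frm.wts (hF : G.Frm W O φ r a b ε) :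
    (∀ e, 1 ≤ |Lift6_u (r e) (-a e)| ∧ 1 ≤ |Lift6_u (r e) (-b e)|) ∧
    (∀ e, (a e = b e → |Lift6_u (r e) (-a e)| = |Lift6_u (r e) (-b e)|) ∧
      (¬ a e = b e → |Lift6_u (r e) (-a e)| + |Lift6_u (r e) (-b e)| = 6)) ∧
    ∀ e ∈ G.tch W, ∀ x, Av O φ e x → 0 < (if G.s e ∈ W then a e else b e) * x →
      6 ≤ (if G.s e ∈ W then |Lift6_u (r e) (-a e)| else |Lift6_u (r e) (-b e)|) + |x| := by
  have k : ∀ e x, 1 ≤ |Lift6_u (r e) x| := fun e x => Int.one_le_abs (by
    have := hF.hr e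
    unfold Lift6_u
    split_ifs <;> omega)
  refine ⟨fun e => ⟨k e _, k e _⟩, fun e => ⟨fun k => by rw [k], fun k => ?_⟩,
    fun e he x hx k2 => ?_⟩
  · have k1 := (Lift6_u1 (hF.hr e).1 (hF.hr e).2 (hF.LFrm_a e)).2.2.2.2
    have k2 : -b e = a e := by
      have := hF.LFrm_a e
      have := hF.LFrm_b e
      omega
    rw [k2]
    omega
  · have k3 := (Lift6_u2 (hF.hr e).1 (hF.hr e).2 (hF.LFrm_t W e) ((hF.av e he _).1 hx)).1
    have k4 := (Lift6_u1 (hF.hr e).1 (hF.hr e).2 (hF.LFrm_t W e)).2.2.2.2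
    rw [if_pos k2] at k3
    rw [LFrm_t2, k3]
    omega

/-- HINT: the argument `hK` of `Lift6_core` in the proof of `lift6` (`Lift6_par`); the case
`K = W` needs no special treatment here. -/
theorem Frm.odd (hF : G.Frm W O φ r a b ε) (hP : P ⊆ G.cut W) (hh : ∀ e ∈ P, Av O φ e (h e))
    (hK : ∀ K ⊆ W, K.Nonempty → (∀ e ∈ G.cut K, e ∈ G.cut W → e ∈ P) → ∀ g, G.Df O φ K g →
      (∀ e ∈ G.cut K, e ∈ P → g e = h e) →
      6 ≤ ∑ e ∈ G.cut K \ P, |g e| + ∑ e ∈ G.cut K ∩ P, (wp e : ℤ) + ∑ v ∈ K, (w v : ℤ)) :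
    ∀ K ⊆ W, ∀ B ⊆ G.cut K, (∀ e ∈ G.cut K, e ∈ G.cut W → e ∈ P ∧
      (e ∈ B ↔ e ∈ P.filter fun e => 0 < (if G.s e ∈ W then a e else b e) * h e)) →
      Odd (K.card + ((G.ins K).filter fun e => ¬ a e = b e).card + B.card) →
      6 ≤ ∑ e ∈ G.cut K \ P, (if e ∈ B then
          6 - (if G.s e ∈ K then |Lift6_u (r e) (-a e)| else |Lift6_u (r e) (-b e)|)
        else (if G.s e ∈ K then |Lift6_u (r e) (-a e)| else |Lift6_u (r e) (-b e)|)) +
        ∑ e ∈ G.cut K ∩ P, (wp e : ℤ) + ∑ v ∈ K, (w v : ℤ) := by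
  intro K kW B kB k1 k2
  have hx : ∀ e ∈ P, h e = if 0 < (if G.s e ∈ W then a e else b e) * h e then
      Lift6_u (r e) (if G.s e ∈ W then a e else b e)
      else Lift6_u (r e) (-(if G.s e ∈ W then a e else b e)) := fun e he =>
    (Lift6_u2 (hF.hr e).1 (hF.hr e).2 (hF.LFrm_t W e)
      ((hF.av e (cut_sub_tch (hP he)) _).1 (hh e he))).1
  obtain ⟨g, hg⟩ : ∃ g : E → ℤ, ∀ e, g e = if e ∈ B then
      Lift6_u (r e) (if G.s e ∈ K then a e else b e)
      else Lift6_u (r e) (-(if G.s e ∈ K then a e else b e)) := ⟨_, fun _ => rfl⟩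
  have g1 : G.Df O φ K g := by
    refine (Lift6_par hF.hr hF.eps hF.ha hF.hb (fun e he => hF.nl e (tch_mono kW he))
      (fun e he => hF.av e (tch_mono kW he)) (fun v hv' => hF.hv v (kW hv')) (fun e he => ?_)
      fun e => ?_).2 k2
    · rw [hF.av e (tch_mono kW (cut_sub_tch he)), hg]
      have := Lift6_u1 (hF.hr e).1 (hF.hr e).2 (hF.LFrm_t K e)
      by_cases k : e ∈ B
      · rw [if_pos k]
        exact this.1
      · rw [if_neg k]
        exact this.2.1
    · have := Lift6_u1 (hF.hr e).1 (hF.hr e).2 (hF.LFrm_t K e)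
      rw [hg]
      by_cases k : e ∈ B
      · exact iff_of_true k ⟨kB k, by rw [if_pos k]; exact this.2.2.1⟩
      · exact iff_of_false k fun k3 => this.2.2.2.1 (by rw [if_neg k] at k3; exact k3.2)
  have g2 : ∀ e ∈ G.cut K, e ∈ P → g e = h e := fun e k3 k5 => by
    have k4 := hP k5
    have k6 := (k1 e k3 k4).2
    have k7 : G.s e ∈ K ↔ G.s e ∈ W := by
      have k8 := (mem_cut.1 k3).2
      have k9 := (mem_cut.1 k4).2
      have := @kW (G.s e)
      have := @kW (G.t e)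
      grind
    rw [hg, hx e k5]
    simp only [k6, k7, mem_filter, k5, true_and]
  have k4 := hK K kW (by
    rw [nonempty_iff_ne_empty]
    rintro rfl
    have e1 : G.ins ∅ = ∅ := by simp [ins]
    have e2 : B = ∅ := by simpa [cut, crs] using kB
    simp [e1, e2] at k2) (fun e k5 k6 => (k1 e k5 k6).1) g g1 g2
  refine k4.trans (le_of_eq ?_)
  congr 2
  refine sum_congr rfl fun e _ => ?_
  rw [hg, LFrm_t2]
  split_ifs
  exacts [(Lift6_u1 (hF.hr e).1 (hF.hr e).2 (hF.LFrm_a e)).2.2.2.2,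
    (Lift6_u1 (hF.hr e).1 (hF.hr e).2 (hF.LFrm_b e)).2.2.2.2, rfl, rfl]

end SG

end Pool.Agent.Work.MP_8c679b_co
end

-- merged part: Pool.Agent.Work.MP_8c679b_co.Top.TBlk
section
/-!
Pieces and bridges.
-/

set_option autoImplicit false

namespace Pool.Agent.Work.MP_8c679b_co

open Finset

namespace SG

variable {V E : Type} [Fintype V] [DecidableEq V] [DecidableEq E] {G : SG V E}
  {Y W W' S : Finset V} {O O' : Finset E} {e : E} {v : V}

omit [Fintype V] in
/-- an inner edge of a two-edge-connected set is no bridge -/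
theorem Two.nbri (h : G.Two S (G.ins S)) (hS : S ⊆ Y) (he : e ∈ G.ins S) : ¬ G.Bri Y e := by
  rintro ⟨X, -, h1⟩
  obtain ⟨-, h2⟩ := mem_crs.1 (h1 ▸ mem_singleton_self e : e ∈ G.crs (G.ins Y) X)
  obtain ⟨-, h3, h4⟩ := mem_ins.1 he
  have h5 : G.crs (G.ins S) (S ∩ X) ⊆ {e} := fun f hf => by
    obtain ⟨a1, a2⟩ := mem_crs.1 hf
    obtain ⟨-, a3, a4⟩ := mem_ins.1 a1
    refine h1 ▸ mem_crs.2 ⟨ins_mono hS a1, fun k => a2 ?_⟩
    simp only [mem_inter, a3, a4, k]
  have h6 := (h (S ∩ X) inter_subset_left ?_ fun k => ?_).trans (card_le_card h5)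
  · rw [card_singleton] at h6
    omega
  · by_cases k : G.s e ∈ X
    · exact ⟨_, mem_inter.2 ⟨h3, k⟩⟩
    · exact ⟨_, mem_inter.2 ⟨h4, by_contra fun k' => h2 (iff_of_false k k')⟩⟩
  · exact h2 (iff_of_true (inter_eq_left.1 k h3) (inter_eq_left.1 k h4))

omit [Fintype V] in
/-- a two-edge-connected set that meets a piece lies inside -/
theorem Pc.sub (hW : G.Pc Y W) (h : G.Two S (G.ins S)) (hS : S ⊆ Y) (hd : ¬ Disjoint S W) :
    S ⊆ W := by
  by_contra k
  obtain ⟨e, he⟩ := card_pos.1 (lt_of_lt_of_le two_pos (h (S ∩ W) inter_subset_left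
    (not_disjoint_iff_nonempty_inter.1 hd) fun k' => k (inter_eq_left.1 k')))
  obtain ⟨a1, a2⟩ := mem_crs.1 he
  obtain ⟨a0, a3, a4⟩ := mem_ins.1 a1
  refine h.nbri hS a1 (hW.2.2.2 e (mem_cut.2 ⟨a0, fun q => a2 ?_⟩) (ins_mono hS a1))
  simp only [mem_inter, a3, a4, q]

omit [Fintype V] in
/-- pieces that meet are equal -/
theorem Pc.eq (hW : G.Pc Y W) (hW' : G.Pc Y W') (hd : ¬ Disjoint W W') : W = W' :=
  (hW'.sub hW.2.2.1 hW.1 hd).antisymm (hW.sub hW'.2.2.1 hW'.1 fun k => hd k.symm)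

omit [Fintype V] in
/-- every vertex lies in a piece -/
theorem Pc_ex (hv : v ∈ Y) : ∃ W, G.Pc Y W ∧ v ∈ W := by
  classical
  let N := (G.ins Y).filter fun e => ¬ G.Bri Y e
  let W := Y.filter (G.Rch N v)
  have h0 : v ∈ W := mem_filter.2 ⟨hv, Rch.refl _ _⟩
  have h1 : ∀ e ∈ N, G.s e ∈ W ↔ G.t e ∈ W := fun e he => by
    obtain ⟨-, a1, a2⟩ := mem_ins.1 (mem_filter.1 he).1
    exact ⟨fun k => mem_filter.2 ⟨a2, (mem_filter.1 k).2.trans (rch_edge he)⟩,
      fun k => mem_filter.2 ⟨a1, (mem_filter.1 k).2.trans (rch_edge he).symm⟩⟩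
  have h2 : ∀ e ∈ G.cut W, e ∈ G.ins Y → G.Bri Y e := fun e he k =>
    by_contra fun q => (mem_cut.1 he).2 (h1 e (mem_filter.2 ⟨k, q⟩))
  have hW : W ⊆ Y := filter_subset _ _
  refine ⟨W, ⟨hW, ⟨v, h0⟩, fun X hX hn hne => ?_, h2⟩, h0⟩
  obtain ⟨e, a1, a2⟩ : ∃ e ∈ N, ¬ (G.s e ∈ X ↔ G.t e ∈ X) := by
    by_contra! a
    have a3 : ∀ u ∈ W, v ∈ X ↔ u ∈ X := fun u hu =>
      ⟨fun k => (mem_filter.1 hu).2.closed (P := (· ∈ X)) a k,
        fun k => (mem_filter.1 hu).2.symm.closed (P := (· ∈ X)) a k⟩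
    obtain ⟨x, hx⟩ := hn
    exact hne (hX.antisymm fun u hu => (a3 u hu).1 ((a3 x (hX hx)).2 hx))
  have key : ∀ f ∈ G.crs (G.ins Y) X, ¬ G.Bri Y f → f ∈ G.crs (G.ins W) X := fun f hf k => by
    obtain ⟨b1, b2⟩ := mem_crs.1 hf
    have b3 := h1 f (mem_filter.2 ⟨b1, k⟩)
    have b4 : G.s f ∈ W := by
      by_cases q : G.s f ∈ X
      · exact hX q
      · exact b3.2 (hX (by_contra fun q' => b2 (iff_of_false q q')))
    exact mem_crs.2 ⟨mem_ins.2 ⟨ins_sub_A b1, b4, b3.1 b4⟩, b2⟩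
  have a3 : e ∈ G.crs (G.ins Y) X := mem_crs.2 ⟨(mem_filter.1 a1).1, a2⟩
  obtain ⟨f, b1, b2⟩ : ∃ f ∈ (G.crs (G.ins Y) X).erase e, ¬ G.Bri Y f := by
    by_contra! b
    exact (mem_filter.1 a1).2
      (GTj_bri _ X (hX.trans hW) (insert_erase a3).symm (notMem_erase _ _) b)
  exact one_lt_card.2 ⟨f, key f (mem_of_mem_erase b1) b2, e, key e a3 (mem_filter.1 a1).2,
    ne_of_mem_erase b1⟩

/-- an edge inside `Y` that is no bridge lies inside the piece of each of its ends -/
theorem Pc.ins (hW : G.Pc Y W) (he : e ∈ G.ins Y) (ht : e ∈ G.tch W) (hb : ¬ G.Bri Y e) :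
    e ∈ G.ins W :=
  (mem_tch_iff.1 ht).resolve_right fun k => hb (hW.2.2.2 e k he)

/-- even sets with the same trace on the cut agree on the bridges -/
theorem bri_agree (hO : O ⊆ G.A) (hO' : O' ⊆ G.A) (h : ∀ v ∈ Y, G.dg O v = 0)
    (h' : ∀ v ∈ Y, G.dg O' v = 0) (hc : O ∩ G.cut Y = O' ∩ G.cut Y) (hb : G.Bri Y e) :
    e ∈ O ↔ e ∈ O' := by
  obtain ⟨X, hX, h1⟩ := hb
  have h2 : symmDiff O O' ⊆ G.A := symmDiff_le_sup.trans (union_subset hO hO')
  have h3 := GNorm_even (N := X) h2 fun v hv => by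
    rw [dg_symmDiff, h v (hX hv), h' v (hX hv), add_zero]
  rw [crs_ins hX] at h1
  have h4 : symmDiff O O' ∩ G.cut X ⊆ {e} := fun f hf => by
    obtain ⟨a1, a2⟩ := mem_inter.1 hf
    refine h1 ▸ mem_sdiff.2 ⟨a2, fun k => ?_⟩
    have := Finset.ext_iff.1 hc f
    simp only [mem_inter, k, and_true] at this
    rw [mem_symmDiff, this] at a1
    tauto
  by_contra k
  have h5 : e ∈ symmDiff O O' ∩ G.cut X := mem_inter.2 ⟨by rw [mem_symmDiff]; tauto,
    (mem_sdiff.1 (h1 ▸ mem_singleton_self e : e ∈ G.cut X \ G.cut Y)).1⟩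
  rw [h4.antisymm (singleton_subset_iff.2 h5), card_singleton] at h3
  exact Nat.not_even_one h3

/-- even sets with the same trace on the cut have the same trace on the cut of a piece -/
theorem Pc.agree (hW : G.Pc Y W) (hO : O ⊆ G.A) (hO' : O' ⊆ G.A) (h : ∀ v ∈ Y, G.dg O v = 0)
    (h' : ∀ v ∈ Y, G.dg O' v = 0) (hc : O ∩ G.cut Y = O' ∩ G.cut Y) :
    O ∩ G.cut W = O' ∩ G.cut W := by
  ext e
  rw [mem_inter, mem_inter]
  refine and_congr_left fun k => ?_
  rcases mem_tch_iff.1 (tch_mono hW.1 (cut_sub_tch k)) with q | q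
  · exact bri_agree hO hO' h h' hc (hW.2.2.2 e k q)
  · have := Finset.ext_iff.1 hc e
    simpa only [mem_inter, q, and_true] using this

end SG

end Pool.Agent.Work.MP_8c679b_co
end

-- merged part: Pool.Agent.Work.MP_8c679b_co.Top.TJoin
section
/-!
The join with two protected leaving edges at every piece.
-/

set_option autoImplicit false

namespace Pool.Agent.Work.MP_8c679b_co

open Finset

namespace SG

variable {V E : Type} [Fintype V] [DecidableEq V] [DecidableEq E] {G : SG V E}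
  {T U Y W : Finset V} {J F0 : Finset E} {Bs : Finset (Finset V)} {Fm : Set (Finset V)}

/-- normalising a join inside the boxes -/
theorem TJoin_norm (hc : G.Cub) (hT : G.HT T) (hF : ∀ S ∈ Fm, S ⊆ T ∧ G.US S)
    (hB : G.Bx Fm W ∅ Bs) (hJ : J ⊆ G.cut W) (h : G.Tq W J Bs F0) :
    ∃ F, G.Tj W J F ∧ G.As Fm W F := by
  classical
  have key : ∀ B, ∃ O, B ∈ Bs → G.St B O (F0 ∩ G.cut B) ∧
      ∀ S' ⊆ B, G.US S' → ¬ G.cut S' ⊆ O := by
    intro B
    by_cases hm : B ∈ Bs
    swap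
    · exact ⟨∅, fun h => absurd h hm⟩
    rcases h.2.2 B hm with h0 | h2
    · refine ⟨∅, fun _ => ⟨?_, fun S' _ hu' hs => ?_⟩⟩
      · rw [card_eq_zero.1 h0]
        exact st_of_ev (empty_subset _) ev_empty
      · have := card_le_card hs
        rw [hu'.1] at this
        simp at this
    · obtain ⟨x, y, hxy, e⟩ := card_eq_two.1 h2
      have hx : x ∈ F0 ∩ G.cut B := by simp [e]
      have hy : y ∈ F0 ∩ G.cut B := by simp [e]
      obtain ⟨O, hO⟩ := asp hc hT (hF B (hB.1 B hm).1).1 (hF B (hB.1 B hm).1).2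
        (mem_inter.1 hx).2 (mem_inter.1 hy).2 hxy
      exact ⟨O, fun _ => e ▸ hO⟩
  choose O hO using key
  obtain ⟨F, hmF⟩ : ∃ F : Finset E, ∀ e, e ∈ F ↔ e ∈ G.ins W ∧ (∀ B ∈ Bs, e ∈ G.ins B → e ∈ O B) ∧
      ((∀ B ∈ Bs, e ∉ G.ins B) → e ∈ F0) := ⟨(G.ins W).filter _, fun e => mem_filter⟩
  have h3 : ∀ e, (∀ B ∈ Bs, e ∉ G.ins B) → (e ∈ F ↔ e ∈ F0) := fun e he => by
    rw [hmF]
    exact ⟨fun k => k.2.2 he, fun k => ⟨h.1 k, fun B hm k' => absurd k' (he B hm), fun _ => k⟩⟩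
  have hFW : F ⊆ G.ins W := fun e he => ((hmF e).1 he).1
  have h4 : ∀ B ∈ Bs, ∀ e ∈ G.tch B, e ∈ F ∪ J ↔ e ∈ O B := by
    intro B hm e he
    have k1 : ∀ B' ∈ Bs, e ∈ G.ins B' → B' = B := fun B' hm' k => by
      by_contra k'
      exact Quo_ins k (hB.2.1 B hm B' hm' (Ne.symm k')) he
    have k2 : e ∈ G.ins W := by
      rcases mem_tch_iff.1 he with k | k
      · exact ins_mono (hB.1 B hm).2.1 k
      · simpa using (hB.1 B hm).2.2 k
    rw [mem_union, or_iff_left fun k => not_ins_of_cut (hJ k) k2]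
    rcases mem_tch_iff.1 he with k | k
    · rw [hmF]
      exact ⟨fun k' => k'.2.1 B hm k, fun k' => ⟨k2, fun B' hm' k3 => k1 B' hm' k3 ▸ k',
        fun k3 => absurd k (k3 B hm)⟩⟩
    · rw [h3 e fun B' hm' k3 => not_ins_of_cut k (k1 B' hm' k3 ▸ k3)]
      have := Finset.ext_iff.1 (hO B hm).1.2.2 e
      simp only [mem_inter, k, and_true] at this
      exact this.symm
  refine ⟨F, ⟨hFW, fun v hv => ?_⟩, fun S hS hSW hs => ?_⟩
  · by_cases hb : ∃ B ∈ Bs, v ∈ B
    · obtain ⟨B, hm, hvB⟩ := hb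
      rw [← (hO B hm).1.2.1 v hvB]
      refine Ab_dg fun e he => ?_
      by_cases hA : e ∈ G.A
      · exact h4 B hm e (Cut_tch hA he hvB)
      · exact iff_of_false (fun k => hA (union_subset (hFW.trans ins_sub_A)
          (hJ.trans GNorm_cutA) k)) fun k => hA (Ab_tch_sub ((hO B hm).1.1 k))
    · push Not at hb
      rw [← h.2.1 v hv hb]
      refine Ab_dg fun e he => ?_
      rw [mem_union, mem_union, h3 e fun B hm k => hb B hm ?_]
      rcases he with rfl | rfl
      exacts [(mem_ins.1 k).2.1, (mem_ins.1 k).2.2]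
  · obtain ⟨B, hm, hSB⟩ := hB.2.2 S hS hSW ((hs.trans hFW).trans subset_union_left)
    exact (hO B hm).2 S hSB (hF S hS).2 fun e he =>
      (h4 B hm e (tch_mono hSB (cut_sub_tch he))).1 (mem_union_left _ (hs he))

/-- unions of unbalanced sides that meet -/
theorem TJoin_us (hc : G.Cub) (hT : G.HT T) (h3 : (G.cut T).card = 3 → T.card = 1)
    {S S' : Finset V} (h1 : S ⊆ T) (h2 : S' ⊆ T) (hu : G.US S) (hu' : G.US S')
    (hd : ¬ Disjoint S S') : G.US (S ∪ S') := by
  by_cases k1 : S ⊆ S'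
  · rwa [union_eq_right.2 k1]
  by_cases k2 : S' ⊆ S
  · rwa [union_eq_left.2 k2]
  have c1 := hT.us_card hc h1 hu
  have c2 := hT.us_card hc h2 hu'
  refine ⟨(hT.f4 hc h1 h2 hu.1 hu'.1 (by omega) (by omega) (fun k => ?_)
    (not_disjoint_iff_nonempty_inter.1 hd) (sdiff_nonempty.2 k1) (sdiff_nonempty.2 k2)).2.1,
    fun k => hu.2 (k.mono (ins_mono subset_union_left))⟩
  have c3 := card_le_card (subset_union_left (s₁ := S) (s₂ := S'))
  rcases (hT _ (union_subset h1 h2) (card_pos.1 (by omega))).2 k with k3 | k3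
  · omega
  · rw [k3] at k c3
    have := h3 k
    omega

/-- gluing the joins of the pieces -/
theorem TJoin_glue (hc : G.Cub) (hY : Y ⊆ G.vs G.A) (hl : ∀ e ∈ G.tch Y, G.s e ≠ G.t e)
    (hJ : J ⊆ G.cut Y) (h0 : G.Tj Y J F0) {R : Finset V → Finset E}
    (hR : ∀ W, G.Pc Y W → R W ⊆ (F0 ∪ J) ∩ G.cut W ∧ ((R W).card = 2 ∨ R W = ∅)) (hpd : PD Bs)
    (hB : ∀ B ∈ Bs, B.Nonempty ∧ (G.cut B).card = 4 ∧ G.cut B ⊆ G.ins Y ∧
      ∃ W, G.Pc Y W ∧ B ⊆ W ∧ G.cut B ⊆ G.ins W ∪ R W) : ∃ F, G.Tq Y J Bs F := by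
  classical
  have hA : F0 ∪ J ⊆ G.A := union_subset (h0.1.trans ins_sub_A) (hJ.trans GNorm_cutA)
  have key : ∀ W, ∃ F, G.Pc Y W → F ⊆ G.ins W ∧
      (∀ v ∈ W, (∀ B ∈ Bs, v ∉ B) → G.dg (F ∪ (F0 ∪ J) ∩ G.cut W) v = 0) ∧
      ∀ B ∈ Bs, B ⊆ W → ((F ∪ (F0 ∪ J) ∩ G.cut W) ∩ G.cut B).card = 0 ∨
        ((F ∪ (F0 ∪ J) ∩ G.cut W) ∩ G.cut B).card = 2 := by
    intro W
    by_cases hW : G.Pc Y W
    swap
    · exact ⟨∅, fun k => absurd k hW⟩
    obtain ⟨F, a1, a2, a3⟩ := tjoin2 (Bs := Bs.filter (· ⊆ W)) hc (hW.1.trans hY)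
      (fun e he => hl e (tch_mono hW.1 he)) hW.2.2.1 inter_subset_right
      (GNorm_even hA fun v hv => h0.2 v (hW.1 hv)) (hR W hW).1 (hR W hW).2
      (hpd.mono (filter_subset _ _)) fun B k => by
        obtain ⟨k1, k2⟩ := mem_filter.1 k
        obtain ⟨⟨x, b1⟩, b2, -, W', b3, b4, b5⟩ := hB B k1
        obtain rfl := hW.eq b3 (not_disjoint_iff.2 ⟨x, k2 b1, b4 b1⟩)
        exact ⟨k2, b2, b5⟩
    exact ⟨F, fun _ => ⟨a1, fun v hv k => a2 v hv fun B q => k B (mem_filter.1 q).1,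
      fun B k q => a3 B (mem_filter.2 ⟨k, q⟩)⟩⟩
  choose Fw hFw using key
  obtain ⟨F, hmF⟩ : ∃ F : Finset E, ∀ e, e ∈ F ↔ e ∈ G.ins Y ∧
      ((G.Bri Y e ∧ e ∈ F0) ∨ ∃ W, G.Pc Y W ∧ e ∈ Fw W) := ⟨(G.ins Y).filter _, fun e => mem_filter⟩
  have hFY : F ⊆ G.ins Y := fun e he => ((hmF e).1 he).1
  have h4 : ∀ W, G.Pc Y W → ∀ e ∈ G.tch W, e ∈ F ∪ J ↔ e ∈ Fw W ∪ (F0 ∪ J) ∩ G.cut W := by
    intro W hW e he
    have k1 : (∃ W', G.Pc Y W' ∧ e ∈ Fw W') ↔ e ∈ Fw W := by
      refine ⟨fun ⟨W', a1, a2⟩ => ?_, fun k => ⟨W, hW, k⟩⟩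
      rwa [hW.eq a1 fun q => Quo_ins ((hFw W' a1).1 a2) q he]
    have k2 := @(hFw W hW).1 e
    have k3 := fun q => not_ins_of_cut (G := G) (X := Y) (e := e) (hJ q)
    have k4 := @h0.1 e
    rw [mem_union, hmF, k1, mem_union, mem_inter, mem_union]
    rcases mem_tch_iff.1 he with k | k
    · have k5 := hW.2.2.1.nbri hW.1 k
      have k6 := ins_mono hW.1 k
      have k7 := fun q => not_ins_of_cut (G := G) (X := W) (e := e) q k
      (clear * - k1 k2 k3 k4 k5 k6 k7; grind)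
    · have k5 := hW.2.2.2 e k
      have k7 := not_ins_of_cut k
      (clear * - k k1 k2 k3 k4 k5 k7; grind)
  refine ⟨F, hFY, fun v hv k => ?_, fun B k => ?_⟩
  · obtain ⟨W, hW, hv'⟩ := Pc_ex (G := G) hv
    rw [← (hFw W hW).2.1 v hv' k]
    refine Ab_dg fun e he => ?_
    by_cases q : e ∈ G.A
    · exact h4 W hW e (Cut_tch q he hv')
    · exact iff_of_false (fun z => q (union_subset (hFY.trans ins_sub_A) (hJ.trans GNorm_cutA) z))
        fun z => q (union_subset ((hFw W hW).1.trans ins_sub_A) (inter_subset_left.trans hA) z)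
  · obtain ⟨-, -, b2, W, hW, b4, -⟩ := hB B k
    have b5 : F ∩ G.cut B = (Fw W ∪ (F0 ∪ J) ∩ G.cut W) ∩ G.cut B := ext fun e => by
      rw [mem_inter, mem_inter]
      refine and_congr_left fun q => ?_
      rw [← h4 W hW e (tch_mono b4 (cut_sub_tch q)), mem_union,
        or_iff_left fun z => not_ins_of_cut (hJ z) (b2 q)]
    exact b5 ▸ (hFw W hW).2.2 B k b4

/-- The join with protected pairs: `T` carries the sides, `U` the join, `Y` the pieces. -/
theorem blk_join (hc : G.Cub) (hT : G.HT T) (h3 : (G.cut T).card = 3 → T.card = 1)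
    (hTU : T ⊆ U) (hUY : U ⊆ Y) (hY : Y ⊆ G.vs G.A) (hl : ∀ e ∈ G.tch Y, G.s e ≠ G.t e)
    (hb : ∀ e ∈ G.cut U, e ∈ G.ins Y → G.Bri Y e) (hJ : J ⊆ G.cut U ∩ G.cut Y)
    (h0 : G.Tj U J F0) :
    ∃ (R : Finset V → Finset E) (Fm : Set (Finset V)) (F : Finset E),
      (∀ S ∈ Fm, S ⊆ T ∧ G.US S ∧ G.cut S ⊆ G.ins U) ∧
      (∀ S ∈ Fm, ∀ S' ∈ Fm, ¬ Disjoint S S' → S ∪ S' ∈ Fm) ∧
      G.Tj U J F ∧ (∀ S ∈ Fm, ¬ G.cut S ⊆ F) ∧
      ∀ O ⊆ G.A, (∀ v ∈ Y, G.dg O v = 0) → O ∩ G.cut Y = J → ∀ W, G.Pc Y W →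
        R W ⊆ G.cut W ∩ O ∧ ((R W).card = 2 ∨ Disjoint (G.cut W) O) ∧
        ∀ S ⊆ T, S ⊆ W → G.US S → G.cut S ⊆ G.ins U → G.cut S ⊆ G.ins W ∪ R W → S ∈ Fm := by
  classical
  have hJU : J ⊆ G.cut U := hJ.trans inter_subset_left
  have hJY : J ⊆ G.cut Y := hJ.trans inter_subset_right
  have tr : ∀ F ⊆ G.ins Y, (F ∪ J) ∩ G.cut Y = J := fun F hF => ext fun e => by
    have a1 := fun q => not_ins_of_cut (G := G) (X := Y) (e := e) q
    have a2 := @hF e
    have a3 := @hJY e
    simp only [mem_inter, mem_union]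
    (clear * - a1 a2 a3 h3; grind)
  have sa : ∀ F ⊆ G.ins Y, F ∪ J ⊆ G.A := fun F hF =>
    union_subset (hF.trans ins_sub_A) (hJY.trans GNorm_cutA)
  have h1 : G.Tj Y J F0 := by
    refine ⟨h0.1.trans (ins_mono hUY), fun v hv => ?_⟩
    by_cases k : v ∈ U
    · exact h0.2 v k
    refine dg_of_not_mem fun q => ?_
    obtain ⟨e, a1, a2⟩ := mem_vs.1 q
    have a3 : e ∉ G.ins U := fun z => by
      rcases a2 with rfl | rfl
      exacts [k (mem_ins.1 z).2.1, k (mem_ins.1 z).2.2]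
    have a4 := (mem_union.1 a1).resolve_left fun z => a3 (h0.1 z)
    exact not_ins_of_cut (hJY a4) (Quo_two hUY (singleton_subset_iff.2 hv)
      (disjoint_singleton_right.2 k) (cut_sub_tch (hJU a4))
      (Cut_tch (GNorm_cutA (hJU a4)) a2 (mem_singleton_self v)))
  have key : ∀ W, ∃ R, G.Pc Y W → R ⊆ (F0 ∪ J) ∩ G.cut W ∧
      (R.card = 2 ∨ (F0 ∪ J) ∩ G.cut W = ∅) := by
    intro W
    by_cases hW : G.Pc Y W
    swap
    · exact ⟨∅, fun k => absurd k hW⟩
    rcases ((F0 ∪ J) ∩ G.cut W).eq_empty_or_nonempty with k | k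
    · exact ⟨∅, fun _ => ⟨empty_subset _, Or.inr k⟩⟩
    obtain ⟨m, hm⟩ := GNorm_even (N := W) (sa _ h1.1) fun v hv => h1.2 v (hW.1 hv)
    have := card_pos.2 k
    obtain ⟨R, a1, a2⟩ := exists_subset_card_eq (s := (F0 ∪ J) ∩ G.cut W) (n := 2) (by omega)
    exact ⟨R, fun _ => ⟨a1, Or.inl a2⟩⟩
  choose R hR using key
  let Fm : Set (Finset V) := {S | S ⊆ T ∧ G.US S ∧ G.cut S ⊆ G.ins U ∧
    ∃ W, G.Pc Y W ∧ S ⊆ W ∧ G.cut S ⊆ G.ins W ∪ R W}
  have hun : ∀ S ∈ Fm, ∀ S' ∈ Fm, ¬ Disjoint S S' → S ∪ S' ∈ Fm := by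
    rintro S ⟨a1, a2, a3, W, a4, a5, a6⟩ S' ⟨b1, b2, b3, W', b4, b5, b6⟩ hd
    obtain rfl := a4.eq b4 fun k => hd (k.mono a5 b5)
    exact ⟨union_subset a1 b1, TJoin_us hc hT h3 a1 b1 a2 b2 hd,
      cut_union_sub.trans (union_subset a3 b3), W, a4, union_subset a5 b5,
      cut_union_sub.trans (union_subset a6 b6)⟩
  obtain ⟨Bs, hB⟩ : ∃ Bs, G.Bx Fm Y ∅ Bs :=
    Cut_boxes fun S a1 _ _ S' a2 _ _ hd => hun S a1 S' a2 hd
  obtain ⟨F1, h2⟩ := TJoin_glue (Bs := Bs) (R := R) hc hY hl hJY h1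
    (fun W hW => ⟨(hR W hW).1,
      (hR W hW).2.imp_right fun k => subset_empty.1 ((hR W hW).1.trans k.subset)⟩)
    hB.2.1 fun B k => by
      obtain ⟨⟨-, a2, a3, a4⟩, -⟩ := hB.1 B k
      exact ⟨Spl_nonempty a2.1, a2.1, a3.trans (ins_mono hUY), a4⟩
  obtain ⟨F, h4, h5⟩ := TJoin_norm hc hT (fun S k => ⟨k.1, k.2.1⟩) hB hJY h2
  refine ⟨R, Fm, F ∩ G.ins U, fun S k => ⟨k.1, k.2.1, k.2.2.1⟩, hun,
    ⟨inter_subset_right, fun v hv => ?_⟩,
    fun S k q => h5 S k ((k.1.trans hTU).trans hUY) (q.trans inter_subset_left),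
    fun O hO h6 h7 W hW => ?_⟩
  · rw [← h4.2 v (hUY hv)]
    refine Ab_dg fun e he => ?_
    rw [mem_union, mem_union, mem_inter]
    refine or_congr_left (and_iff_left_of_imp fun k => ?_)
    refine (mem_tch_iff.1 (Cut_tch (ins_sub_A (h4.1 k)) he hv)).resolve_right fun q => ?_
    have a1 := (bri_agree (sa _ h4.1) (sa _ h1.1) h4.2 h1.2 ((tr _ h4.1).trans (tr _ h1.1).symm)
      (hb e q (h4.1 k))).1 (mem_union_left _ k)
    rcases mem_union.1 a1 with z | z
    exacts [not_ins_of_cut q (h0.1 z), not_ins_of_cut (hJY z) (h4.1 k)]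
  · have a1 := hW.agree hO (sa _ h1.1) h6 h1.2 (h7.trans (tr _ h1.1).symm)
    obtain ⟨a2, a3⟩ := hR W hW
    rw [← a1, inter_comm] at a2 a3
    exact ⟨a2, a3.imp_right disjoint_iff_inter_eq_empty.2,
      fun S b1 b2 b3 b4 b5 => ⟨b1, b3, b4, W, hW, b2, b5⟩⟩

end SG

end Pool.Agent.Work.MP_8c679b_co
end
end
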