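import Pool.Agent.Work.MP_8c679b_co.Top.LRad
import Pool.Agent.Work.MP_8c679b_co.Top.TJoin
import Pool.Agent.Work.MP_8c679b_co.A3.E5
import Pool.Agent.Work.MP_8c679b_co.Six.AGad

-- merged part: Pool.Agent.Work.MP_8c679b_co.Top.LWt
section
/-!
The condition of Tutte with absorbers from a system of weights.
-/

set_option autoImplicit false

namespace Pool.Agent.Work.MP_8c679b_co

open Finset

theorem LWt_once {X : Type} [DecidableEq X] {Ks : Finset (Finset X)} (hpd : PD Ks) (a : X) {c : ℤ}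
    (hc : 0 ≤ c) : ∑ K ∈ Ks, (if a ∈ K then c else 0) ≤ c := by
  by_cases h : ∃ K ∈ Ks, a ∈ K
  · obtain ⟨K, h1, h2⟩ := h
    rw [sum_eq_single_of_mem K h1 fun K' h3 h4 =>
      if_neg (disjoint_right.1 (hpd _ h3 _ h1 h4) h2), if_pos h2]
  · rwa [sum_eq_zero fun K h1 => if_neg fun h2 => h ⟨K, h1, h2⟩]

theorem LWt_abs {X Λ : Type} [DecidableEq X] {L : Finset Λ} {tl hd : Λ → X} {wt : Λ → ℤ}
    (w1 : ∀ l, 1 ≤ wt l) {M : Finset X} {Ks : Finset (Finset X)} (hpd : PD Ks)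
    (h1 : ∀ K ∈ Ks, ∀ l ∈ L, hd l ∈ K → tl l ∈ K ∨ tl l ∈ M)
    (h2 : ∀ a ∈ M, ∑ l ∈ L, (if tl l = a then wt l else 0) ≤ 6) :
    ∑ K ∈ Ks, ∑ l ∈ L, (if tl l ∉ K ∧ hd l ∈ K then wt l else 0) +
      ((L.filter fun l => tl l ∈ M ∧ ∀ K ∈ Ks, hd l ∉ K).card : ℤ) ≤ 6 * (M.card : ℤ) := by
  calc _ ≤ ∑ l ∈ L, (if tl l ∈ M then wt l else 0) := by
        rw [sum_comm, card_filter, Nat.cast_sum, ← sum_add_distrib]
        refine sum_le_sum fun l hl => ?_
        have w0 := w1 l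
        by_cases k : ∃ K ∈ Ks, tl l ∉ K ∧ hd l ∈ K
        · obtain ⟨K, k1, k2, k3⟩ := k
          rw [sum_eq_single_of_mem K k1 fun K' h3 h4 =>
            if_neg fun k => disjoint_right.1 (hpd _ h3 _ k1 h4) k3 k.2, if_pos ⟨k2, k3⟩,
            if_neg fun k => k.2 K k1 k3, if_pos ((h1 K k1 l hl k3).resolve_left k2)]
          simp
        · rw [sum_eq_zero fun K h3 => if_neg fun h4 => k ⟨K, h3, h4⟩]
          split_ifs with i1 i2
          · simpa using w0
          · exact absurd i1.1 i2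
          · simpa using zero_le_one.trans w0
          · simp
    _ = ∑ a ∈ M, ∑ l ∈ L, (if tl l = a then wt l else 0) := by
        rw [sum_comm]
        exact sum_congr rfl fun l _ => by simp
    _ ≤ ∑ a ∈ M, (6 : ℤ) := sum_le_sum h2
    _ = _ := by simp [mul_comm]

namespace SG

variable {V E : Type} [Fintype V] [DecidableEq V] [DecidableEq E] {G : SG V E}
  {W : Finset V} {P Pk D B : Finset E} {ty : E → Prop} [DecidablePred ty] {y1 y2 : E → ℤ}
  {w : V → ℕ} {wp : E → ℕ} {M : Finset (V ⊕ E)} {Ks : Finset (Finset (V ⊕ E))}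

open Sum in
omit [DecidablePred ty] in
theorem LWt_adj (hm : G.Mx W P Pk D ty) {l : E × Bool × Bool} (kA : l.1 ∈ G.A)
    (k2 : G.Lift6_act W D l) :
    G.Lift6_tl l ∈ W.disjSum D ∧ G.Lift6_adj W ty (G.Lift6_hd D l) (G.Lift6_tl l) := by
  obtain ⟨e, j, o⟩ := l
  have kt : G.s e ∈ W → G.t e ∈ W → e ∉ D → e ∈ G.ins W ∧ ty e := fun k3 k4 k5 => by
    have k6 := mem_ins.2 ⟨kA, k3, k4⟩
    refine ⟨k6, ?_⟩
    by_contra k7
    exact k5 ((hm.mem e).2 ⟨ins_sub_tch k6, fun _ => k7,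
      fun k8 => absurd k6 (not_ins_of_cut (hm.sub k8))⟩)
  rcases j with _ | _ <;> rcases o with _ | _ <;>
    simp only [Lift6_act, Lift6_tl, Lift6_hd] at k2 ⊢
  · exact ⟨inr_mem_disjSum.2 k2.2, Or.inl rfl⟩
  · split_ifs with k
    · exact ⟨inl_mem_disjSum.2 k2.1, Or.inl rfl⟩
    · have k3 := kt k2.1 (k2.2.resolve_left k) k
      exact ⟨inl_mem_disjSum.2 k2.1, e, k3.1, k3.2, Or.inr ⟨rfl, rfl⟩⟩
  · exact ⟨inr_mem_disjSum.2 k2.2, Or.inr rfl⟩
  · split_ifs with k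
    · exact ⟨inl_mem_disjSum.2 k2.1, Or.inr rfl⟩
    · have k3 := kt (k2.2.resolve_left k) k2.1 k
      exact ⟨inl_mem_disjSum.2 k2.1, e, k3.1, k3.2, Or.inl ⟨rfl, rfl⟩⟩

open Sum in
omit [Fintype V] in
theorem LWt_arc {e : E} {u : V} (hD : e ∈ D) (hu : u ∈ W) (ha : G.At e u) :
    (∃ x, G.Lift6_act W D (e, x) ∧ G.Lift6_tl (e, x) = inr e ∧ G.Lift6_hd D (e, x) = inl u) ∧
      ∃ x, G.Lift6_act W D (e, x) ∧ G.Lift6_tl (e, x) = inl u ∧ G.Lift6_hd D (e, x) = inr e := by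
  rcases ha with rfl | rfl
  · exact ⟨⟨(false, false), ⟨hu, hD⟩, rfl, rfl⟩, (false, true), ⟨hu, Or.inl hD⟩, rfl, if_pos hD⟩
  · exact ⟨⟨(true, false), ⟨hu, hD⟩, rfl, rfl⟩, (true, true), ⟨hu, Or.inl hD⟩, rfl, if_pos hD⟩

open Sum in
omit [Fintype V] in
theorem LWt_arc' {e : E} {u v : V} (hD : e ∉ D) (hu : u ∈ W) (hv : v ∈ W) (ha : G.Je e u v) :
    ∃ x, G.Lift6_act W D (e, x) ∧ G.Lift6_tl (e, x) = inl v ∧ G.Lift6_hd D (e, x) = inl u := by
  rcases ha with ⟨rfl, rfl⟩ | ⟨rfl, rfl⟩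
  · exact ⟨(true, true), ⟨hv, Or.inr hu⟩, rfl, if_neg hD⟩
  · exact ⟨(false, true), ⟨hv, Or.inr hu⟩, rfl, if_neg hD⟩

open Sum in
omit [DecidablePred ty] in
theorem LWt_waste (hm : G.Mx W P Pk D ty) (two : G.Two W (G.ins W)) (hn : Ks.Nonempty)
    (hK : ∀ K ∈ Ks, G.Odc W P D ty M K) (hf : ∀ e ∈ G.cut W, e ∉ P → Sum.inr e ∉ M) :
    ∃ T ⊆ G.A, min 2 (G.cut W \ P).card ≤ T.card ∧ ∀ e ∈ T, ∃ x, G.Lift6_act W D (e, x) ∧
      G.Lift6_tl (e, x) ∈ M ∧ ∀ K ∈ Ks, G.Lift6_hd D (e, x) ∉ K := by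
  obtain ⟨Z, hZ⟩ : ∃ Z : Finset V, ∀ v, v ∈ Z ↔ v ∈ W ∧ inl v ∉ M ∧ ∀ K ∈ Ks, inl v ∉ K :=
    ⟨W.filter _, fun v => mem_filter⟩
  have k1 : ∀ e ∈ D, ∀ u ∈ Z, G.At e u → ∀ K ∈ Ks, inr e ∉ K := fun e _ u hu ha K h1 h2 =>
    ((hK K h1).2.2.2.2 _ h2 (inl u) (inl_mem_disjSum.2 ((hZ u).1 hu).1) ha).elim
      (((hZ u).1 hu).2.2 K h1) ((hZ u).1 hu).2.1
  have k2 : ∀ v ∈ W, v ∉ Z → ∀ b ∈ W.disjSum D, G.Lift6_adj W ty (inl v) b → b ∉ M →
      (∀ K ∈ Ks, b ∉ K) → inl v ∈ M := fun v h1 h2 b h3 h4 h5 h6 => by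
    by_contra k
    exact h2 ((hZ v).2 ⟨h1, k, fun K h7 h8 => ((hK K h7).2.2.2.2 _ h8 b h3 h4).elim (h6 K h7) h5⟩)
  have k3 : ∀ e ∈ D, ∀ v ∈ W, v ∉ Z → G.At e v → inr e ∉ M → (∀ K ∈ Ks, inr e ∉ K) →
      ∃ x, G.Lift6_act W D (e, x) ∧ G.Lift6_tl (e, x) ∈ M ∧ ∀ K ∈ Ks, G.Lift6_hd D (e, x) ∉ K :=
    fun e he v h1 h2 h3 h4 h5 => by
      obtain ⟨x, a1, a2, a3⟩ := (LWt_arc he h1 h3).2
      exact ⟨x, a1, a2 ▸ k2 v h1 h2 _ (inr_mem_disjSum.2 he) h3 h4 h5, a3 ▸ h5⟩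
  rcases Z.eq_empty_or_nonempty with rfl | hne
  · refine ⟨G.cut W \ P, fun e he => (mem_cut.1 (mem_sdiff.1 he).1).1, min_le_right _ _,
      fun e he => ?_⟩
    obtain ⟨h1, h2⟩ := mem_sdiff.1 he
    exact k3 e ((hm.mem e).2 ⟨cut_sub_tch h1, fun k => absurd k (not_ins_of_cut h1),
      fun k => absurd k h2⟩) _ (ie_mem (cut_sub_tch h1)) (notMem_empty _) ie_at (hf e h1 h2)
      fun K h3 h4 => h2 ((hK K h3).2.2.2.1 e h4 h1)
  have hW : Z ≠ W := by
    rintro rfl
    obtain ⟨K, h1⟩ := hn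
    obtain ⟨v | e, h2⟩ := card_pos.1 (hK K h1).2.2.1.pos
    · exact ((hZ v).1 (inl_mem_disjSum.1 ((hK K h1).1 h2))).2.2 K h1 h2
    · have h3 := inr_mem_disjSum.1 ((hK K h1).1 h2)
      exact k1 e h3 _ (ie_mem ((hm.mem e).1 h3).1) ie_at K h1 h2
  refine ⟨G.crs (G.ins W) Z, fun e he => ins_sub_A (mem_filter.1 he).1,
    (min_le_left _ _).trans (two Z (fun v hv => ((hZ v).1 hv).1) hne hW), fun e he => ?_⟩
  obtain ⟨h1, h2⟩ := mem_filter.1 he
  obtain ⟨u, v, hu, hv, h3, h4⟩ : ∃ u v, u ∈ Z ∧ v ∉ Z ∧ v ∈ W ∧ G.Je e u v := by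
    by_cases k : G.s e ∈ Z
    · exact ⟨_, _, k, by tauto, (mem_ins.1 h1).2.2, Or.inl ⟨rfl, rfl⟩⟩
    · exact ⟨_, _, by tauto, k, (mem_ins.1 h1).2.1, Or.inr ⟨rfl, rfl⟩⟩
  obtain ⟨u1, u2, u3⟩ := (hZ u).1 hu
  have au : G.At e u := h4.imp And.left And.right
  by_cases hD : e ∈ D
  · by_cases h5 : inr e ∈ M
    · obtain ⟨x, a1, a2, a3⟩ := (LWt_arc hD u1 au).1
      exact ⟨x, a1, a2 ▸ h5, a3 ▸ u3⟩
    · exact k3 e hD v h3 hv (h4.symm.imp And.left And.right) h5 (k1 e hD u hu au)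
  · obtain ⟨x, a1, a2, a3⟩ := LWt_arc' hD u1 h3 h4
    refine ⟨x, a1, a2 ▸ k2 v h3 hv _ (inl_mem_disjSum.2 u1) ⟨e, h1, ?_, Lift6_je h4⟩ u2 u3, a3 ▸ u3⟩
    by_contra k
    exact hD ((hm.mem e).2 ⟨ins_sub_tch h1, fun _ => k,
      fun k8 => absurd h1 (not_ins_of_cut (hm.sub k8))⟩)

/-- The weight that enters the odd sets comes from `M`, and some weight is wasted.
HINT: the arcs are `l ∈ (G.A ×ˢ univ).filter (Lift6_act W D)` with tail `Lift6_tl l`, head
`Lift6_hd D l`, weight `Lift6_w W y1 y2 l`; tail and head are adjacent nodes of `W.disjSum D` and every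
node sends at most six (copy these two facts from the proof of `Lift6_match`).  An arc that enters
`K ∈ Ks` has its tail in `M` (`Odc`), so the first sum is at most the weight of the arcs with tail
in `M` and head in a member of `Ks`.  It remains to find `min 2 _` arcs with tail in `M` and head
in no member of `Ks` (all arcs weigh at least one).  Let `Z` be the vertices of `W` that are neither
in `M` nor in a member of `Ks`.  `Z = W`: a member of `Ks` is nonempty, and a node `inr e` of it has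
a neighbour `inl v`, `v ∈ W`; so `Ks = ∅`, impossible.  `Z` nonempty and proper: two edges of
`crs (ins W) Z` (`two`); for such an edge `uv`, `u ∈ Z`: if it is not in `D` then `inl v ∈ M` and
the arc from `v` to `u` is wasted; if it is in `D` then `inr e` is in no member of `Ks`, and either
`inr e ∈ M` (arc to `u`) or `inl v ∈ M` (arc to `inr e`).  `Z = ∅`: for `e ∈ cut W \ P` (such an
edge is in `D`) the node `inr e` is neither in `M` nor in a member of `Ks`, so `inl (ie W e) ∈ M` and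
its arc to `inr e` is wasted. -/
theorem LWt_sum (hm : G.Mx W P Pk D ty) (y0 : ∀ e, 1 ≤ y1 e ∧ 1 ≤ y2 e)
    (hy : ∀ e ∈ G.ins W, (ty e → y1 e = y2 e) ∧ (¬ ty e → y1 e + y2 e = 6))
    (hv : ∀ v ∈ W, ∑ e ∈ G.A, (iv (G.s e = v) * y1 e + iv (G.t e = v) * y2 e) ≤ 6)
    (two : G.Two W (G.ins W)) (hM : M ⊆ W.disjSum D) (hpd : PD Ks) (hn : Ks.Nonempty)
    (hK : ∀ K ∈ Ks, G.Odc W P D ty M K) (hf : ∀ e ∈ G.cut W, e ∉ P → Sum.inr e ∉ M) :
    ∑ K ∈ Ks, ∑ e ∈ G.A, G.Lift6_con W D y1 y2 K e + (min 2 (G.cut W \ P).card : ℕ) ≤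
      6 * (M.card : ℤ) := by
  classical
  have hsum : ∀ φ : E × Bool × Bool → ℤ,
      ∑ l ∈ (G.A ×ˢ univ).filter (G.Lift6_act W D), φ l =
        ∑ e ∈ G.A, ∑ x : Bool × Bool, if G.Lift6_act W D (e, x) then φ (e, x) else 0 :=
    fun φ => by rw [sum_filter, sum_product]
  have h1 := LWt_abs (L := (G.A ×ˢ univ).filter (G.Lift6_act W D)) (tl := G.Lift6_tl)
    (hd := G.Lift6_hd D) (wt := G.Lift6_w W y1 y2) (M := M) (fun l => by
      obtain ⟨e, _ | _, _ | _⟩ := l <;> simp only [Lift6_w] <;> have := y0 e <;>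
        (try split_ifs) <;> omega) hpd (fun K h1 l hl h2 => by
      obtain ⟨k1, k2⟩ := mem_filter.1 hl
      obtain ⟨k3, k4⟩ := LWt_adj hm (mem_product.1 k1).1 k2
      exact (hK K h1).2.2.2.2 _ h2 _ k3 k4) (by
      rintro (v | e0) ha
      · rw [hsum]
        refine le_trans (sum_le_sum fun e _ => ?_) (hv v (inl_mem_disjSum.1 (hM ha)))
        have := y0 e
        simp only [Fintype.sum_prod_type, Fintype.sum_bool, Lift6_tl, Lift6_w, Sum.inl.injEq, iv,
          reduceCtorEq, if_false, ite_self]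
        split_ifs <;> omega
      · rw [hsum]
        have k0 := inr_mem_disjSum.1 (hM ha)
        obtain ⟨k1, k2, -⟩ := (hm.mem e0).1 k0
        rw [sum_eq_single_of_mem e0 (mem_tch.1 k1).1 fun e _ he => by
          simp [Fintype.sum_prod_type, Lift6_tl, he]]
        by_cases k3 : G.s e0 ∈ W <;> by_cases k4 : G.t e0 ∈ W
        · have k5 := mem_ins.2 ⟨(mem_tch.1 k1).1, k3, k4⟩
          have := (hy e0 k5).2 (k2 k5)
          simp [Fintype.sum_prod_type, Lift6_tl, Lift6_w, Lift6_act, k3, k4, k0]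
          omega
        all_goals
          simp [Fintype.sum_prod_type, Lift6_tl, Lift6_w, Lift6_act, k3, k4, k0])
  obtain ⟨T, t1, t2, t3⟩ := LWt_waste hm two hn hK hf
  simp only [hsum] at h1
  refine le_trans (add_le_add (le_of_eq (by simp only [Lift6_con])) (Int.ofNat_le.2 ?_)) h1
  refine t2.trans (le_trans (card_le_card fun e he => ?_) (card_image_le (f := Prod.fst)))
  obtain ⟨x, a1, a2⟩ := t3 e he
  rw [mem_image]
  refine ⟨(e, x), ?_, rfl⟩
  rw [mem_filter, mem_filter, mem_product]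
  exact ⟨⟨⟨t1 he, mem_univ _⟩, a1⟩, a2⟩

/-- Free nodes can be removed from `M`.
HINT: induction on `M.card` (or on the number of free nodes in `M`).  If `inr e ∈ M` is free, erase
it from `M` and erase from `Ks` the member that contains `inl (ie W e)` (`PD`: at most one;
`filter` and `card_le_one`); the only neighbour of `inr e` in `W.disjSum D` is `inl (ie W e)`
(`eq_ie`). -/
theorem LWt_free {ι : Type} {Ab : Finset ι} {nb : ι → Finset E}
    (h : ∀ M ⊆ W.disjSum D, (∀ e ∈ G.cut W, e ∉ P → Sum.inr e ∉ M) → ∀ A' ⊆ Ab,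
      ∀ Ks : Finset (Finset (V ⊕ E)), PD Ks →
      (∀ K ∈ Ks, G.Odc W P D ty M K ∧ ∀ j ∈ Ab, ∀ e ∈ nb j, G.Tnu W Pk e ∈ K → j ∈ A') →
      Ks.card ≤ M.card + A'.card) : G.Tut W P Pk D ty Ab nb := by
  intro M hM A' hA
  induction M using Finset.strongInduction with
  | H M ih =>
  intro Ks hpd hK
  by_cases hf : ∀ e ∈ G.cut W, e ∉ P → Sum.inr e ∉ M
  · exact h M hM hf A' hA Ks hpd hK
  push Not at hf
  obtain ⟨e, e1, -, e3⟩ := hf
  have h1 := ih _ (erase_ssubset e3) ((erase_subset _ _).trans hM)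
    (Ks.filter fun K => Sum.inl (G.ie W e) ∉ K)
    (fun N h1 N' h2 => hpd N (mem_filter.1 h1).1 N' (mem_filter.1 h2).1) fun K h1 => by
      obtain ⟨h2, h3⟩ := mem_filter.1 h1
      obtain ⟨⟨a1, a2, a3, a4, a5⟩, a6⟩ := hK K h2
      refine ⟨⟨a1, a2.mono_right (erase_subset _ _), a3, a4, fun a ha b hb k => ?_⟩, a6⟩
      refine (a5 a ha b hb k).imp_right fun k' => mem_erase.2 ⟨?_, k'⟩
      rintro rfl
      rcases a with u | e'
      · exact h3 (eq_ie e1 (inl_mem_disjSum.1 (a1 ha)) k ▸ ha)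
      · exact k
  have h2 : (Ks.filter fun K => Sum.inl (G.ie W e) ∈ K).card ≤ 1 :=
    card_le_one.2 fun N h1 N' h2 => by
      by_contra k
      exact disjoint_left.1 (hpd N (mem_filter.1 h1).1 N' (mem_filter.1 h2).1 k)
        (mem_filter.1 h1).2 (mem_filter.1 h2).2
  have h3 := card_filter_add_card_filter_not (s := Ks) fun K => Sum.inl (G.ie W e) ∈ K
  have h4 := card_erase_add_one e3
  omega

/-- HINT: `LWt_free`, then sum `Lift6_odd` over `Ks` and use `LWt_sum`.  The members of `Ks` are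
disjoint, so the vertex weights add up to at most `∑ v ∈ W, w v` and every `e ∈ P` is counted at
most once.  If `A' = range n` use `h2`.  Otherwise some `j ∈ range n` is not in `A'`, no member
contains `Tnu W Pk e` with `e ∈ B`, and `h1` gives `Ks.card ≤ M.card`. -/
theorem Top_wt (hm : G.Mx W P Pk D ty) (y0 : ∀ e, 1 ≤ y1 e ∧ 1 ≤ y2 e)
    (hy : ∀ e ∈ G.ins W, (ty e → y1 e = y2 e) ∧ (¬ ty e → y1 e + y2 e = 6))
    (hv : ∀ v ∈ W, ∑ e ∈ G.A, (iv (G.s e = v) * y1 e + iv (G.t e = v) * y2 e) ≤ 6)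
    (hwp : ∀ e ∈ Pk, 6 ≤ (if G.s e ∈ W then y1 e else y2 e) + wp e)
    (hK : ∀ K ⊆ W, ∀ B ⊆ G.cut K, (∀ e ∈ G.cut K, e ∈ G.cut W → e ∈ P ∧ (e ∈ B ↔ e ∈ Pk)) →
      Odd (K.card + ((G.ins K).filter fun e => ¬ ty e).card + B.card) →
      6 ≤ ∑ e ∈ G.cut K \ P, (if e ∈ B then 6 - (if G.s e ∈ K then y1 e else y2 e)
        else (if G.s e ∈ K then y1 e else y2 e)) + ∑ e ∈ G.cut K ∩ P, (wp e : ℤ) +
        ∑ v ∈ K, (w v : ℤ))
    (two : G.Two W (G.ins W)) (n : ℕ)
    (h1 : ∑ v ∈ W, w v + ∑ e ∈ P \ B, wp e < 6 + min 2 (G.cut W \ P).card)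
    (h2 : ∑ v ∈ W, w v + ∑ e ∈ P, wp e < 6 + 6 * n + min 2 (G.cut W \ P).card) :
    G.Tut W P Pk D ty (range n) fun _ => B := by
  refine LWt_free fun M hM hf A' hA Ks hpd hKs => ?_
  rcases Ks.eq_empty_or_nonempty with rfl | hn
  · exact Nat.zero_le _
  have k1 := LWt_sum hm y0 hy hv two hM hpd hn (fun K k => (hKs K k).1) hf
  have k2 : ∑ K ∈ Ks, (6 : ℤ) ≤ _ := sum_le_sum fun K k => Lift6_odd hm.sub hm.mem
    (fun e => ⟨zero_le_one.trans (y0 e).1, zero_le_one.trans (y0 e).2⟩) hy hwp hK (hKs K k).1.1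
    (hKs K k).1.2.2.1 (hKs K k).1.2.2.2.1
  have k3 : ∑ K ∈ Ks, ∑ v ∈ K.toLeft, (w v : ℤ) ≤ ∑ v ∈ W, (w v : ℤ) := by
    rw [sum_congr rfl (g := fun K => ∑ v ∈ W, if Sum.inl v ∈ K then (w v : ℤ) else 0) fun K k => by
      rw [← sum_filter]
      congr 1
      ext v
      rw [mem_filter, mem_toLeft]
      exact ⟨fun a => ⟨inl_mem_disjSum.1 ((hKs K k).1.1 a), a⟩, And.right⟩, sum_comm]
    exact sum_le_sum fun v _ => LWt_once hpd _ (Int.natCast_nonneg _)
  rw [sum_add_distrib, sum_add_distrib, sum_comm (t := P), sum_const, nsmul_eq_mul] at k2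
  have k4 : ∀ e, ∑ K ∈ Ks, (if (if e ∈ Pk then Sum.inr e else Sum.inl (G.ie W e)) ∈ K
      then (wp e : ℤ) else 0) ≤ wp e := fun e => LWt_once hpd _ (Int.natCast_nonneg _)
  by_cases hA' : A' = range n
  · have k5 := sum_le_sum fun e (_ : e ∈ P) => k4 e
    rw [hA', card_range]
    zify at h2
    push_cast at k1
    omega
  · obtain ⟨j, j1, j2⟩ := exists_of_ssubset (hA.ssubset_of_ne hA')
    have k5 := sum_le_sum fun e (_ : e ∈ P \ B) => k4 e
    rw [sum_subset sdiff_subset fun e e1 e2 => sum_eq_zero fun K k => if_neg fun k' =>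
      j2 ((hKs K k).2 j j1 e (by simpa [e1] using e2) (by exact k'))] at k5
    zify at h1
    push_cast at k1
    omega

end SG

end Pool.Agent.Work.MP_8c679b_co
end

-- merged part: Pool.Agent.Work.MP_8c679b_co.Top.LPair
section
-- merged part: Pool.Agent.Work.MP_8c679b_co.Top.LTut
section
/-!
The theorem of Tutte for sets of nodes, with optional nodes.
-/

set_option autoImplicit false

namespace Pool.Agent.Work.MP_8c679b_co

open Finset

namespace SG

theorem LTut_one {X : Type} [Fintype X] [DecidableEq X] (adj : X → X → Prop)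
    (hs : ∀ a b, adj a b → adj b a) (hi : ∀ a, ¬ adj a a) (F : X → Prop)
    (hF : ∀ a b, F a → F b → a ≠ b → adj a b) (hev : Even (Fintype.card X))
    (h : ∀ (M : Finset X) (Ks : Finset (Finset X)), PD Ks →
      (∀ K ∈ Ks, Disjoint K M ∧ Odd K.card ∧ (∀ a ∈ K, ¬ F a) ∧
        ∀ a ∈ K, ∀ b, adj a b → b ∈ K ∨ b ∈ M) → Ks.card ≤ M.card) :
    ∃ m : X → X, (∀ a, m (m a) = a) ∧ ∀ a, adj a (m a) := by
  classical
  let H : SimpleGraph X :=
    { Adj := adj
      symm := ⟨hs⟩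
      loopless := ⟨hi⟩ }
  obtain ⟨M, hM⟩ : ∃ M : H.Subgraph, M.IsPerfectMatching := by
    refine SimpleGraph.tutte.2 fun u hu => ?_
    unfold SimpleGraph.IsTutteViolator at hu
    set D := ((⊤ : H.Subgraph).deleteVerts u).coe with hD
    have hv : ∀ a, a ∈ ((⊤ : H.Subgraph).deleteVerts u).verts ↔ a ∉ u := fun a => by simp
    let cmp : X → Option D.ConnectedComponent := fun a =>
      if h : a ∈ u then none else some (D.connectedComponentMk ⟨a, (hv a).2 h⟩)
    let K : D.ConnectedComponent → Finset X := fun c => univ.filter fun a => cmp a = some c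
    have mK : ∀ c a, a ∈ K c ↔ cmp a = some c := fun c a => by simp [K]
    have hK : ∀ c, (K c).card = c.supp.ncard := fun c => by
      rw [← Set.ncard_image_of_injective c.supp Subtype.val_injective, ← Set.ncard_coe_finset]
      congr 1
      ext a
      simp only [K, cmp, coe_filter, mem_univ, true_and, Set.mem_ofPred_eq, Set.mem_image,
        SimpleGraph.ConnectedComponent.mem_supp_iff]
      constructor
      · intro h
        split_ifs at h with h'
        exact ⟨⟨a, (hv a).2 h'⟩, Option.some.inj h, rfl⟩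
      · rintro ⟨⟨x, hx⟩, h, rfl⟩
        rw [dif_neg ((hv x).1 hx), h]
    have hadj : ∀ a b c, adj a b → a ∉ u → cmp b = some c → cmp a = some c := by
      intro a b c k2 k1 h
      simp only [cmp] at h ⊢
      split_ifs at h with k3
      rw [dif_neg k1, ← h]
      congr 1
      refine SimpleGraph.ConnectedComponent.connectedComponentMk_eq_of_adj ?_
      simp [D, H, k1, k3, k2]
    have hnu : ∀ a c, cmp a = some c → a ∉ u := fun a c h k => by simp [cmp, k] at h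
    let C := D.oddComponents.toFinset
    let C' := C.filter fun c => ∀ a ∈ K c, ¬ F a
    have hodd : ∀ c ∈ C', Odd (K c).card := fun c hc => by
      rw [hK c]
      exact (Set.mem_toFinset (s := D.oddComponents)).1 (mem_filter.1 hc).1
    have hle : C'.card ≤ u.ncard := by
      rw [Set.ncard_eq_toFinset_card', ← card_image_of_injOn (f := K) fun c hc c' _ e => ?_]
      · refine h _ _ (fun N hN N' hN' e => ?_) fun N hN => ?_
        · obtain ⟨c, -, rfl⟩ := mem_image.1 hN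
          obtain ⟨c', -, rfl⟩ := mem_image.1 hN'
          refine disjoint_left.2 fun a a1 a2 => e ?_
          rw [Option.some.inj (((mK _ _).1 a1).symm.trans ((mK _ _).1 a2))]
        · obtain ⟨c, hc, rfl⟩ := mem_image.1 hN
          refine ⟨disjoint_left.2 fun a a1 a2 => hnu a c ((mK _ _).1 a1) (Set.mem_toFinset.1 a2),
            hodd c hc, (mem_filter.1 hc).2, fun a ha b hb => ?_⟩
          by_cases k : b ∈ u
          · exact Or.inr (Set.mem_toFinset.2 k)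
          · exact Or.inl ((mK _ _).2 (hadj b a c (hs a b hb) k ((mK _ _).1 ha)))
      · obtain ⟨a, ha⟩ := card_pos.1 (hodd c hc).pos
        exact Option.some.inj (((mK _ _).1 ha).symm.trans ((mK _ _).1 (e ▸ ha)))
    have hp := SimpleGraph.odd_ncard_oddComponents D
    have hn : Nat.card ((⊤ : H.Subgraph).deleteVerts u).verts + u.ncard = Fintype.card X := by
      rw [Nat.card_coe_set_eq, ← Nat.card_eq_fintype_card, ← Set.ncard_add_ncard_compl u, add_comm]
      congr 2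
      ext a
      simp
    have hC : D.oddComponents.ncard = C.card := Set.ncard_eq_toFinset_card' _
    rw [Nat.odd_iff, Nat.odd_iff] at hp
    rw [Nat.even_iff] at hev
    have k1 : (C.filter fun c => ¬ ∀ a ∈ K c, ¬ F a).card ≤ 1 := by
      refine card_le_one.2 fun c hc c' hc' => ?_
      have k2 := (mem_filter.1 hc).2
      have k3 := (mem_filter.1 hc').2
      push Not at k2 k3
      obtain ⟨a, a1, a2⟩ := k2
      obtain ⟨b, b1, b2⟩ := k3
      rw [mK] at a1 b1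
      by_cases k : a = b
      · subst k
        exact Option.some.inj (a1.symm.trans b1)
      · exact Option.some.inj
          (a1.symm.trans (hadj a b c' (hF a b a2 b2 k) (hnu _ _ a1) b1))
    have k2 := card_filter_add_card_filter_not (s := C) fun c => ∀ a ∈ K c, ¬ F a
    have k3 : C'.card = (C.filter fun c => ∀ a ∈ K c, ¬ F a).card := rfl
    omega
  rw [SimpleGraph.Subgraph.isPerfectMatching_iff] at hM
  choose m h2 h3 using hM
  exact ⟨m, fun a => (h3 _ _ (h2 a).symm).symm, fun a => (h2 a).adj_sub⟩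

theorem LTut_two {X : Type} [DecidableEq X] (N : Finset X) (adj : X → X → Prop)
    (hs : ∀ a b, adj a b → adj b a) (hi : ∀ a, ¬ adj a a) (F : X → Prop)
    (hF : ∀ a b, F a → F b → a ≠ b → adj a b) (hev : Even N.card)
    (h : ∀ M ⊆ N, ∀ Ks : Finset (Finset X), PD Ks →
      (∀ K ∈ Ks, K ⊆ N ∧ Disjoint K M ∧ Odd K.card ∧ (∀ a ∈ K, ¬ F a) ∧
        ∀ a ∈ K, ∀ b ∈ N, adj a b → b ∈ K ∨ b ∈ M) → Ks.card ≤ M.card) :
    ∃ m : X → X, ∀ a ∈ N, m a ∈ N ∧ m (m a) = a ∧ adj a (m a) := by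
  obtain ⟨m, m1, m2⟩ := LTut_one (X := N) (fun a b => adj a b) (fun a b => hs a b)
    (fun a => hi a) (fun a => F a) (fun a b k1 k2 k3 => hF a b k1 k2 fun k => k3 (Subtype.ext k))
    (by rwa [Fintype.card_coe])
    (fun M Ks k1 k2 => by
      have hsub : ∀ K : Finset N, K.map (Function.Embedding.subtype _) ⊆ N := fun K a ha => by
        obtain ⟨b, -, rfl⟩ := mem_map.1 ha
        exact b.2
      rw [← card_map (Function.Embedding.subtype _) (s := M),
        ← card_image_of_injective Ks (map_injective (Function.Embedding.subtype _))]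
      refine h _ (hsub M) _ (fun A hA A' hA' e => ?_) fun A hA => ?_
      · obtain ⟨K, hK, rfl⟩ := mem_image.1 hA
        obtain ⟨K', hK', rfl⟩ := mem_image.1 hA'
        exact (disjoint_map _).2 (k1 K hK K' hK' fun k => e (by rw [k]))
      · obtain ⟨K, hK, rfl⟩ := mem_image.1 hA
        obtain ⟨j1, j2, j3, j4⟩ := k2 K hK
        refine ⟨hsub K, (disjoint_map _).2 j1, by rwa [card_map], fun a ha => ?_,
          fun a ha b hb hab => ?_⟩
        · obtain ⟨b, hb, rfl⟩ := mem_map.1 ha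
          exact j3 b hb
        · obtain ⟨c, hc, rfl⟩ := mem_map.1 ha
          exact (j4 c hc ⟨b, hb⟩ hab).imp (mem_map_of_mem _) (mem_map_of_mem _))
  refine ⟨fun a => if h : a ∈ N then m ⟨a, h⟩ else a, fun a ha => ?_⟩
  simp only [dif_pos ha, dif_pos (m ⟨a, ha⟩).2, Subtype.coe_eta, m1]
  exact ⟨(m _).2, trivial, m2 ⟨a, ha⟩⟩

/-- A matching covers all nodes of `N` that do not satisfy `F`.
HINT: copy the three steps `Lift6_wt`, `Lift6_wtN`, `Lift6_wtF` of `Six/Lift6A`.  Step 1 (`X` a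
`Fintype`, `N = univ`, the nodes with `F` pairwise adjacent, even number of nodes): for a Tutte
violator `u` let `K c` be the node set of the component `c` and `C'` the odd components without a
node with `F`; apply `h` to `M = u.toFinset` and the image of `C'` under `K` (`K` is injective on
`C'`: the sets are nonempty and disjoint); at most one odd component contains a node with `F`, and
the number of odd components is congruent to `u.ncard` modulo two.  Step 2: restrict to the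
subtype of `N`.  Step 3: add the node `none` if `N.card` is odd and join all nodes with `F`;
for `M' : Finset (Option X)` use `eraseNone M'` (not larger), and a set `K` of the family does not
contain `none` and no node with `F`, so the new adjacencies do not touch it. -/
theorem Top_tutte {X : Type} [DecidableEq X] (N : Finset X) (adj : X → X → Prop)
    (hs : ∀ a b, adj a b → adj b a) (hi : ∀ a, ¬ adj a a) (F : X → Prop)
    (h : ∀ M ⊆ N, ∀ Ks : Finset (Finset X), PD Ks →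
      (∀ K ∈ Ks, K ⊆ N ∧ Disjoint K M ∧ Odd K.card ∧ (∀ a ∈ K, ¬ F a) ∧
        ∀ a ∈ K, ∀ b ∈ N, adj a b → b ∈ K ∨ b ∈ M) → Ks.card ≤ M.card) :
    ∃ m : X → X, ∀ a ∈ N, ¬ F a → m a ∈ N ∧ m (m a) = a ∧ adj a (m a) := by
  obtain ⟨N', n1, n2⟩ : ∃ N' : Finset (Option X), eraseNone N' = N ∧ Even N'.card := by
    by_cases k : Even N.card
    · exact ⟨N.map Function.Embedding.some, eraseNone_map_some _, by rwa [card_map]⟩
    · exact ⟨insertNone N, eraseNone_insertNone _, by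
        rw [card_insertNone]
        exact (Nat.not_even_iff_odd.1 k).add_one⟩
  have n4 : ∀ a, some a ∈ N' ↔ a ∈ N := fun a => by rw [← n1, mem_eraseNone]
  let F' : Option X → Prop := fun o => ∀ a, o = some a → F a
  obtain ⟨m, hm⟩ := LTut_two N'
    (fun o o' => (∃ a b, o = some a ∧ o' = some b ∧ adj a b) ∨ (F' o ∧ F' o' ∧ o ≠ o'))
    (by
      rintro _ _ (⟨a, b, rfl, rfl, h⟩ | ⟨k1, k2, k3⟩)
      exacts [Or.inl ⟨b, a, rfl, rfl, hs _ _ h⟩, Or.inr ⟨k2, k1, k3.symm⟩])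
    (by
      rintro _ (⟨a, b, rfl, k, h⟩ | ⟨-, -, k3⟩)
      · cases k
        exact hi _ h
      · exact k3 rfl)
    F' (fun a b k1 k2 k3 => Or.inr ⟨k1, k2, k3⟩) n2
    (fun M hM Ks k1 k2 => by
      have k4 : ∀ K ∈ Ks, none ∉ K := fun K hK k => (k2 K hK).2.2.2.1 _ k fun a h => by cases h
      rw [← card_image_of_injOn (f := eraseNone) (s := Ks) fun K hK K' hK' e => ?_]
      · refine (h (eraseNone M) (fun a ha => (n4 a).1 (hM (mem_eraseNone.1 ha))) _
          (fun A hA A' hA' e => ?_) fun A hA => ?_).trans (card_eraseNone_le M)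
        · obtain ⟨K, hK, rfl⟩ := mem_image.1 hA
          obtain ⟨K', hK', rfl⟩ := mem_image.1 hA'
          exact disjoint_left.2 fun a a1 a2 => disjoint_left.1
            (k1 K hK K' hK' fun k => e (by rw [k])) (mem_eraseNone.1 a1) (mem_eraseNone.1 a2)
        · obtain ⟨K, hK, rfl⟩ := mem_image.1 hA
          obtain ⟨j0, j1, j2, j3, j4⟩ := k2 K hK
          refine ⟨fun a ha => (n4 a).1 (j0 (mem_eraseNone.1 ha)), disjoint_left.2 fun a a1 a2 =>
            disjoint_left.1 j1 (mem_eraseNone.1 a1) (mem_eraseNone.1 a2),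
            by rwa [card_eraseNone_of_not_mem (k4 K hK)],
            fun a ha hf => j3 _ (mem_eraseNone.1 ha) fun b hb => ?_, fun a ha b hb hab => ?_⟩
          · cases hb
            exact hf
          · exact (j4 _ (mem_eraseNone.1 ha) _ ((n4 b).2 hb) (Or.inl ⟨a, b, rfl, rfl, hab⟩)).imp
              mem_eraseNone.2 mem_eraseNone.2
      · ext (_ | a)
        · exact iff_of_false (k4 K hK) (k4 K' hK')
        · rw [← mem_eraseNone, ← mem_eraseNone, e])
  refine ⟨fun a => (m (some a)).getD a, fun a ha hf => ?_⟩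
  obtain ⟨m1, m2, ⟨a', b, k1, k2, k3⟩ | k⟩ := hm _ ((n4 a).2 ha)
  · cases k1
    rw [k2] at m1 m2
    simp only [k2, Option.getD_some, m2]
    exact ⟨(n4 b).1 m1, trivial, k3⟩
  · exact absurd (k.1 a rfl) hf

end SG

end Pool.Agent.Work.MP_8c679b_co
end

-- merged part: Pool.Agent.Work.MP_8c679b_co.Top.LCore
section
/-!
From the condition of Tutte with absorbers to a system of picks.
-/

set_option autoImplicit false

namespace Pool.Agent.Work.MP_8c679b_co

open Finset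

namespace SG

variable {V E : Type} [Fintype V] [DecidableEq V] [DecidableEq E] {G : SG V E}
  {W : Finset V} {P Pk D : Finset E} {ty : E → Prop} {ι : Type} [DecidableEq ι] {Ab : Finset ι}
  {nb : ι → Finset E}

/-- The matching with absorbers.
HINT: `Top_tutte` for `X = (V ⊕ E) ⊕ ι`, `N = (W.disjSum D).disjSum Ab`; `inl a` and `inl b` are
adjacent iff `Lift6_adj W ty a b` (symmetric, irreflexive: see `Lift6_match`), `inl a` and `inr j` iff
`∃ e ∈ nb j, Tnu W Pk e = a`, two absorbers never; `F` holds for the absorbers and for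
`inl (inr e)` with `e ∈ cut W`, `e ∉ P`.  For `M`, `Ks` apply `h` to `M.toLeft`, `M.toRight` and the
image of `Ks` under `toLeft` (members of `Ks` contain no absorber, so `K = K.toLeft.disjSum ∅` or
`K = K.toLeft.map inl`). -/
theorem LCore_match (hm : G.Mx W P Pk D ty) (hnb : ∀ j ∈ Ab, nb j ⊆ P)
    (h : G.Tut W P Pk D ty Ab nb) :
    ∃ m : (V ⊕ E) ⊕ ι → (V ⊕ E) ⊕ ι, ∀ a ∈ W.disjSum D,
      ¬ (∃ e, a = Sum.inr e ∧ e ∈ G.cut W ∧ e ∉ P) → m (m (Sum.inl a)) = Sum.inl a ∧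
        ((∃ b ∈ W.disjSum D, m (Sum.inl a) = Sum.inl b ∧ G.Lift6_adj W ty a b) ∨
          ∃ j ∈ Ab, m (Sum.inl a) = Sum.inr j ∧ ∃ e ∈ nb j, G.Tnu W Pk e = a) := by
  obtain ⟨adj, a1, a2, a3, a4⟩ : ∃ adj : (V ⊕ E) ⊕ ι → (V ⊕ E) ⊕ ι → Prop,
      (∀ a b, adj (.inl a) (.inl b) ↔ G.Lift6_adj W ty a b) ∧
      (∀ a j, adj (.inl a) (.inr j) ↔ ∃ e ∈ nb j, G.Tnu W Pk e = a) ∧
      (∀ a j, adj (.inr j) (.inl a) ↔ ∃ e ∈ nb j, G.Tnu W Pk e = a) ∧
      ∀ i j, ¬ adj (.inr i) (.inr j) :=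
    ⟨fun x y => match x, y with
      | .inl a, .inl b => G.Lift6_adj W ty a b
      | .inl a, .inr j => ∃ e ∈ nb j, G.Tnu W Pk e = a
      | .inr j, .inl a => ∃ e ∈ nb j, G.Tnu W Pk e = a
      | .inr _, .inr _ => False,
      fun _ _ => Iff.rfl, fun _ _ => Iff.rfl, fun _ _ => Iff.rfl, fun _ _ k => k⟩
  refine (Top_tutte ((W.disjSum D).disjSum Ab) adj ?_ ?_
    (Sum.elim (fun a => ∃ e, a = Sum.inr e ∧ e ∈ G.cut W ∧ e ∉ P) fun _ => True) ?_).imp
    fun m hm' a ha hF => ?_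
  rotate_right
  · obtain ⟨k1, k2, k3⟩ := hm' (.inl a) (inl_mem_disjSum.2 ha) hF
    refine ⟨k2, ?_⟩
    rcases k4 : m (.inl a) with b | j <;> rw [k4] at k1 k3
    · exact Or.inl ⟨b, inl_mem_disjSum.1 k1, rfl, (a1 _ _).1 k3⟩
    · exact Or.inr ⟨j, inr_mem_disjSum.1 k1, rfl, (a2 _ _).1 k3⟩
  · rintro (a | i) (b | j) k
    · rw [a1] at k ⊢
      rcases a with u | e <;> rcases b with v | e'
      · obtain ⟨e, k1, k2, k3⟩ := k
        exact ⟨e, k1, k2, Lift6_je k3⟩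
      exacts [k, k, k]
    · exact (a3 _ _).2 ((a2 _ _).1 k)
    · exact (a2 _ _).2 ((a3 _ _).1 k)
    · exact absurd k (a4 _ _)
  · rintro (a | i) k
    · rw [a1] at k
      rcases a with u | e
      · obtain ⟨e, k1, -, k3⟩ := k
        exact hm.nl e (ins_sub_tch k1)
          (k3.elim (fun k => k.1.trans k.2.symm) fun k => k.1.trans k.2.symm)
      · exact k
    · exact a4 _ _ k
  · intro M hM Ks hp hK
    have n1 : ∀ K ∈ Ks, ∀ j, Sum.inr j ∉ K := fun K k j k1 => (hK K k).2.2.2.1 _ k1 trivial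
    have h1 := h M.toLeft (fun a k => inl_mem_disjSum.1 (hM (mem_toLeft.1 k))) M.toRight
      (fun a k => inr_mem_disjSum.1 (hM (mem_toRight.1 k))) (Ks.image toLeft) ?_ ?_
    · rwa [card_toLeft_add_card_toRight, card_image_of_injOn] at h1
      intro K k K' k' e
      ext (a | j)
      · rw [← mem_toLeft, ← mem_toLeft, e]
      · exact iff_of_false (n1 K k j) (n1 K' k' j)
    · intro N hN N' hN' ne
      obtain ⟨K, k, rfl⟩ := mem_image.1 hN
      obtain ⟨K', k', rfl⟩ := mem_image.1 hN'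
      exact disjoint_left.2 fun a k1 k2 => disjoint_left.1 (hp K k K' k' fun e => ne (e ▸ rfl))
        (mem_toLeft.1 k1) (mem_toLeft.1 k2)
    · intro N hN
      obtain ⟨K, k, rfl⟩ := mem_image.1 hN
      obtain ⟨k1, k2, k3, k4, k5⟩ := hK K k
      refine ⟨⟨fun a k6 => inl_mem_disjSum.1 (k1 (mem_toLeft.1 k6)), disjoint_left.2 fun a k6 k7 =>
        disjoint_left.1 k2 (mem_toLeft.1 k6) (mem_toLeft.1 k7), ?_, fun e k6 k7 => ?_,
        fun a k6 b k7 k8 => ?_⟩, fun j k6 e k7 k8 => ?_⟩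
      · rwa [← card_toLeft_add_card_toRight, eq_empty_of_forall_notMem (s := K.toRight)
          fun j k6 => n1 K k j (mem_toRight.1 k6), card_empty, add_zero] at k3
      · by_contra k8
        exact k4 _ (mem_toLeft.1 k6) ⟨e, rfl, k7, k8⟩
      · exact (k5 _ (mem_toLeft.1 k6) _ (inl_mem_disjSum.2 k7) ((a1 _ _).2 k8)).imp mem_toLeft.2
          mem_toLeft.2
      · exact mem_toRight.2 ((k5 _ (mem_toLeft.1 k8) _ (inr_mem_disjSum.2 k6)
          ((a2 _ _).2 ⟨e, k7, rfl⟩)).resolve_left (n1 K k j))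

/-- Every vertex picks one edge; a prescribed edge is violated only if an absorber takes it.
HINT: as `Lift6_core` (`Six/Lift6C`).  For an absorber `j` with `m (inr j) = inl a` choose
`τ j = some e` with `e ∈ nb j`, `Tnu W Pk e = a` (if there is one, else `none`).  `Q v e` holds iff
`m (inl (inl v)) = inl (inr e)`, or `v` is matched to a vertex along the chosen edge `e` (as in
`Lift6_core`), or `m (inl (inl v)) = inr j` and `τ j = some e` (then `e ∈ P`, `e ∉ Pk`,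
`ie W e = v`).  A violated `e ∈ Pk` has its node `inr e` matched to an absorber `j`, and
`Tnu W Pk e' = inr e` forces `e' = e`. -/
theorem Top_core (hm : G.Mx W P Pk D ty) (hnb : ∀ j ∈ Ab, nb j ⊆ P)
    (h : G.Tut W P Pk D ty Ab nb) :
    ∃ Q, G.Pick W ty Q ∧ ∃ τ : ι → Option E, (∀ j ∈ Ab, ∀ e, τ j = some e → e ∈ nb j) ∧
      ∀ e ∈ P, (Q (G.ie W e) e ↔ e ∈ Pk) ∨ ∃ j ∈ Ab, τ j = some e := by
  classical
  obtain ⟨m, hm'⟩ := LCore_match hm hnb h
  have hP := hm.sub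
  have hl := hm.nl
  have hD := hm.mem
  obtain ⟨ch, c1, c2⟩ : ∃ ch : (E → Prop) → Option E,
      (∀ R e, ch R = some e → R e) ∧ ∀ R e, R e → ∃ e', ch R = some e' := by
    refine ⟨fun R => if h : ∃ e, R e then some h.choose else none, fun R e h => ?_,
      fun R e h => ⟨_, dif_pos ⟨e, h⟩⟩⟩
    dsimp only at h
    split_ifs at h with k
    exact Option.some.inj h ▸ k.choose_spec
  obtain ⟨τ, t1, t2⟩ : ∃ τ : ι → Option E,
      (∀ j e, τ j = some e → e ∈ nb j ∧ m (.inr j) = .inl (G.Tnu W Pk e)) ∧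
      ∀ j, ∀ e ∈ nb j, m (.inr j) = .inl (G.Tnu W Pk e) → ∃ e', τ j = some e' :=
    ⟨fun j => ch fun e => e ∈ nb j ∧ m (.inr j) = .inl (G.Tnu W Pk e), fun j e k => c1 _ _ k,
      fun j e k1 k2 => c2 _ e ⟨k1, k2⟩⟩
  have n1 : ∀ e e', G.Tnu W Pk e' = .inr e → e' = e := fun e e' k => by
    unfold Tnu at k
    split_ifs at k
    exact Sum.inr.inj k
  have n2 : ∀ v e, G.Tnu W Pk e = .inl v → G.ie W e = v := fun v e k => by
    unfold Tnu at k
    split_ifs at k
    exact Sum.inl.inj k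
  have mv := fun v (hv : v ∈ W) => hm' _ (inl_mem_disjSum.2 hv) (by rintro ⟨e, k, -⟩; cases k)
  have mD : ∀ v ∈ W, ∀ e, m (.inl (.inl v)) = .inl (.inr e) → e ∈ D := fun v hv e k => by
    rcases (mv v hv).2 with ⟨b, k1, k2, -⟩ | ⟨j, -, k2, -⟩ <;> rw [k] at k2
    · rw [← Sum.inl.inj k2] at k1
      exact inr_mem_disjSum.1 k1
    · cases k2
  have mA : ∀ v ∈ W, ∀ j, m (.inl (.inl v)) = .inr j → j ∈ Ab := fun v hv j k => by
    rcases (mv v hv).2 with ⟨b, -, k2, -⟩ | ⟨i, k1, k2, -⟩ <;> rw [k] at k2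
    · cases k2
    · exact Sum.inr.inj k2 ▸ k1
  have me : ∀ e ∈ D, (e ∈ G.cut W → e ∈ P) → (∃ u ∈ W, G.At e u ∧
      m (.inl (.inr e)) = .inl (.inl u) ∧ m (.inl (.inl u)) = .inl (.inr e)) ∨
      ∃ j ∈ Ab, τ j = some e := by
    intro e he k
    obtain ⟨k1, k2⟩ := hm' _ (inr_mem_disjSum.2 he) (by
      rintro ⟨e', k4, k5, k6⟩
      cases k4
      exact k6 (k k5))
    rcases k2 with ⟨u | e', k2, k3, k4⟩ | ⟨j, k2, k3, e', k4, k5⟩ <;> rw [k3] at k1
    · exact Or.inl ⟨u, inl_mem_disjSum.1 k2, k4, k3, k1⟩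
    · exact k4.elim
    · obtain ⟨e1, k6⟩ := t2 j e' k4 (k5 ▸ k1)
      have k7 := (t1 j e1 k6).2
      rw [k1] at k7
      exact Or.inr ⟨j, k2, n1 _ _ (Sum.inl.inj k7).symm ▸ k6⟩
  let Q : V → E → Prop := fun v e => m (.inl (.inl v)) = .inl (.inr e) ∨
    (∃ u, m (.inl (.inl v)) = .inl (.inl u) ∧
      ch (fun e => e ∈ G.ins W ∧ ty e ∧ G.Je e v u) = some e) ∨
    ∃ j, m (.inl (.inl v)) = .inr j ∧ τ j = some e
  have q0 : ∀ e ∈ G.ins W, ∀ j ∈ Ab, τ j ≠ some e := fun e he j k k1 =>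
    not_ins_of_cut (hP (hnb j k (t1 j e k1).1)) he
  have q1 : ∀ e u v, u ∈ W → e ∈ G.ins W → ty e → G.Je e u v → Q u e → Q v e := by
    rintro e u v hu k1 k2 k3 (k | ⟨x, k4, k5⟩ | ⟨j, k4, k5⟩)
    · exact absurd k2 (((hD e).1 (mD u hu e k)).2.1 k1)
    · have k6 := (c1 _ _ k5).2.2
      have k7 := hl e (ins_sub_tch k1)
      obtain rfl : x = v := by
        rcases k3 with ⟨rfl, rfl⟩ | ⟨rfl, rfl⟩ <;> rcases k6 with k6 | k6
        exacts [k6.2.symm, absurd k6.2.symm k7, absurd k6.1 k7, k6.1.symm]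
      have k8 := (mv u hu).1
      rw [k4] at k8
      refine Or.inr (Or.inl ⟨u, k8, ?_⟩)
      rw [← k5]
      congr 1
      funext e'
      exact propext ⟨fun k => ⟨k.1, k.2.1, Lift6_je k.2.2⟩, fun k => ⟨k.1, k.2.1, Lift6_je k.2.2⟩⟩
    · exact absurd k5 (q0 e k1 j (mA u hu j k4))
  have q2 : ∀ e ∈ G.ins W, ∀ v ∈ W, ¬ ty e → (Q v e ↔ m (.inl (.inl v)) = .inl (.inr e)) := by
    refine fun e he v hv k => ⟨?_, Or.inl⟩
    rintro (k1 | ⟨x, -, k5⟩ | ⟨j, k4, k5⟩)
    exacts [k1, absurd (c1 _ _ k5).2.1 k, absurd k5 (q0 e he j (mA v hv j k4))]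
  refine ⟨Q, ⟨fun v hv => ?_, fun e he => ⟨fun k => ?_, fun k => ?_⟩⟩, τ,
    fun j _ e k => (t1 j e k).1, fun e he => ?_⟩
  · obtain ⟨k1, ⟨u | e0, k2, k4, k3⟩ | ⟨j, k2, k4, e1, k5, k6⟩⟩ := mv v hv
    · obtain ⟨e1, k5⟩ := k3
      obtain ⟨e0, k6⟩ := c2 (fun e => e ∈ G.ins W ∧ ty e ∧ G.Je e v u) e1 k5
      obtain ⟨k7, -, k8⟩ := c1 _ _ k6
      refine ⟨e0, ins_sub_A k7, k8.elim (fun k => Or.inl k.1) fun k => Or.inr k.2, fun e => ?_⟩
      simp only [Q, k4, reduceCtorEq, false_or, Sum.inl.injEq, exists_eq_left', k6,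
        Option.some.injEq, false_and, exists_false, or_false]
      exact eq_comm
    · refine ⟨e0, (mem_tch.1 ((hD e0).1 (inr_mem_disjSum.1 k2)).1).1, k3, fun e => ?_⟩
      simp only [Q, k4, reduceCtorEq, false_and, exists_false, or_false, Sum.inr.injEq,
        Sum.inl.injEq]
      exact eq_comm
    · rw [k4] at k1
      obtain ⟨e0, k7⟩ := t2 j e1 k5 (k6 ▸ k1)
      obtain ⟨k8, k9⟩ := t1 j e0 k7
      rw [k1] at k9
      refine ⟨e0, (mem_cut.1 (hP (hnb j k2 k8))).1, ?_, fun e => ?_⟩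
      · rw [← n2 _ _ (Sum.inl.inj k9).symm]
        exact ie_at
      · simp only [Q, k4, reduceCtorEq, false_and, exists_false, false_or, Sum.inr.injEq,
          exists_eq_left', k7, Option.some.injEq]
        exact eq_comm
  · exact ⟨q1 e _ _ (mem_ins.1 he).2.1 he k (Or.inl ⟨rfl, rfl⟩),
      q1 e _ _ (mem_ins.1 he).2.2 he k (Or.inr ⟨rfl, rfl⟩)⟩
  · obtain ⟨u, -, k1, k2, k3⟩ | ⟨j, k1, k2⟩ := me e ((hD e).2 ⟨ins_sub_tch he, fun _ => k,
      fun k1 => absurd he (not_ins_of_cut (hP k1))⟩) fun k1 => absurd he (not_ins_of_cut k1)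
    · have k4 : ∀ v ∈ W, m (.inl (.inl v)) = .inl (.inr e) ↔ v = u := fun v hv' => by
        refine ⟨fun k5 => ?_, fun k5 => k5 ▸ k3⟩
        have k6 := (mv v hv').1
        rw [k5, k2] at k6
        exact (Sum.inl.inj (Sum.inl.inj k6)).symm
      have k7 := hl e (ins_sub_tch he)
      rw [q2 e he _ (mem_ins.1 he).2.1 k, q2 e he _ (mem_ins.1 he).2.2 k, k4 _ (mem_ins.1 he).2.1,
        k4 _ (mem_ins.1 he).2.2]
      rcases k1 with rfl | rfl
      · simpa using k7.symm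
      · simpa using k7
    · exact absurd k2 (q0 e he j k1)
  · have k0 := hP he
    have k1 := ie_mem (cut_sub_tch k0)
    by_cases k : e ∈ Pk
    · refine (me e ((hD e).2 ⟨cut_sub_tch k0, fun k1 => absurd k1 (not_ins_of_cut k0),
        fun _ => k⟩) fun _ => he).imp_left ?_
      rintro ⟨u, k2, k3, -, k4⟩
      rw [← eq_ie k0 k2 k3]
      exact iff_of_true (Or.inl k4) k
    by_cases k2 : Q (G.ie W e) e
    · rcases k2 with k2 | ⟨x, -, k5⟩ | ⟨j, k4, k5⟩
      · exact absurd (((hD e).1 (mD _ k1 e k2)).2.2 he) k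
      · exact absurd (c1 _ _ k5).1 (not_ins_of_cut k0)
      · exact Or.inr ⟨j, mA _ k1 j k4, k5⟩
    · exact Or.inl (iff_of_false k2 k)

end SG

end Pool.Agent.Work.MP_8c679b_co
end

-- merged part: Pool.Agent.Work.MP_8c679b_co.Top.LK
section
/-!
Lifts in which a bounded number of prescribed values may be violated.
-/

set_option autoImplicit false

namespace Pool.Agent.Work.MP_8c679b_co

open Finset

namespace SG

variable {V E : Type} [Fintype V] [DecidableEq V] [DecidableEq E] {G : SG V E}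
  {W : Finset V} {O P B : Finset E} {φ : E → ZMod 3} {h : E → ℤ}

omit [Fintype V] [DecidableEq E] in
theorem LK_tch {e : E} (he : e ∈ G.cut W) : e ∈ G.tch W := by
  simp only [cut, crs, tch, mem_filter] at he ⊢
  tauto

omit [Fintype V] in
theorem LK_mx (hx : G.Lx W O φ) (hP : P ⊆ G.cut W) (a b h : E → ℤ) :
    G.Mx W P (P.filter fun e => 0 < (if G.s e ∈ W then a e else b e) * h e)
      ((G.tch W).filter fun e => (e ∈ G.ins W → ¬ a e = b e) ∧
        (e ∈ P → e ∈ P.filter fun e => 0 < (if G.s e ∈ W then a e else b e) * h e))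
      fun e => a e = b e :=
  ⟨hP, filter_subset _ _, hx.nl, fun _ => mem_filter⟩

theorem LK_fin {ι : Type} [DecidableEq ι] {Ab : Finset ι} {nb : ι → Finset E} {D : Finset E}
    {r a b : E → ℤ} {ε : V → ℤ} (hF : G.Frm W O φ r a b ε) (hP : P ⊆ G.cut W)
    (hh : ∀ e ∈ P, Av O φ e (h e))
    (hm : G.Mx W P (P.filter fun e => 0 < (if G.s e ∈ W then a e else b e) * h e) D
      fun e => a e = b e) (hnb : ∀ j ∈ Ab, nb j ⊆ P)
    (hT : G.Tut W P (P.filter fun e => 0 < (if G.s e ∈ W then a e else b e) * h e) D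
      (fun e => a e = b e) Ab nb) :
    ∃ f, G.Lf W O φ f ∧ ∃ τ : ι → Option E, (∀ j ∈ Ab, ∀ e, τ j = some e → e ∈ nb j) ∧
      ∀ e ∈ P, f e = h e ∨ ∃ j ∈ Ab, τ j = some e := by
  obtain ⟨Q, hQ, τ, t1, t2⟩ := Top_core hm hnb hT
  obtain ⟨f, hf, hq⟩ := hF.lift hQ
  refine ⟨f, hf, τ, t1, fun e he => (t2 e he).imp_left fun k => ?_⟩
  have h1 := LK_tch (hP he)
  rw [hF.eq_iff h1 (hf.2 e h1) (hh e he), ← hq e (hP he), k, mem_filter, and_iff_right he]

/-- At most `n` of the values prescribed on `B` are violated.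
HINT: `Top_frm`; `Pk = P.filter fun e => 0 < (if G.s e ∈ W then a e else b e) * h e`,
`ty e := a e = b e`, `D = (tch W).filter _` (`Mx`); `Top_wt` with `Frm.wts`, `Frm.odd`; `Top_core`;
`Frm.lift`; `Frm.eq_iff`.  The violated edges are values of `τ` on `range n`. -/
theorem lift6k (hx : G.Lx W O φ) (two : G.Two W (G.ins W)) (hP : P ⊆ G.cut W) (hB : B ⊆ P)
    (hh : ∀ e ∈ P, Av O φ e (h e)) (w : V → ℕ) (wp : E → ℕ) (hwp : ∀ e ∈ P, |h e| ≤ wp e)
    (hK : ∀ K ⊆ W, K.Nonempty → (∀ e ∈ G.cut K, e ∈ G.cut W → e ∈ P) → ∀ g, G.Df O φ K g →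
      (∀ e ∈ G.cut K, e ∈ P → g e = h e) →
      6 ≤ ∑ e ∈ G.cut K \ P, |g e| + ∑ e ∈ G.cut K ∩ P, (wp e : ℤ) + ∑ v ∈ K, (w v : ℤ))
    (n : ℕ) (h1 : ∑ v ∈ W, w v + ∑ e ∈ P \ B, wp e < 6 + min 2 (G.cut W \ P).card)
    (h2 : ∑ v ∈ W, w v + ∑ e ∈ P, wp e < 6 + 6 * n + min 2 (G.cut W \ P).card) :
    ∃ f, G.Lf W O φ f ∧ (∀ e ∈ P, e ∉ B → f e = h e) ∧
      (B.filter fun e => f e ≠ h e).card ≤ n := by
  obtain ⟨r, a, b, ε, hF⟩ := Top_frm hx
  have hm := LK_mx hx hP a b h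
  obtain ⟨y0, hy, hw⟩ := hF.wts
  have hT := Top_wt (B := B) (w := w) (wp := wp) hm y0 (fun e _ => hy e)
    (fun v hv => (hF.hv v hv).le)
    (fun e he => by
      rw [mem_filter] at he
      exact (hw e (LK_tch (hP he.1)) _ (hh e he.1) he.2).trans
        (add_le_add_right (hwp e he.1) _))
    (hF.odd hP hh hK) two n h1 h2
  obtain ⟨f, hf, τ, t1, t2⟩ := LK_fin hF hP hh hm (fun _ _ => hB) hT
  refine ⟨f, hf, fun e he hb => (t2 e he).resolve_right fun ⟨j, hj, k⟩ => hb (t1 j hj e k), ?_⟩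
  refine le_trans ?_ ((card_image_le (s := range n) (f := τ)).trans (card_range n).le)
  refine card_le_card_of_injOn some (fun e he => ?_) (Option.some_injective _).injOn
  rw [mem_coe, mem_filter] at he
  obtain ⟨j, hj, k⟩ := (t2 e (hB he.1)).resolve_left he.2
  exact mem_coe.2 (mem_image.2 ⟨j, hj, k⟩)

/-- The theorem of Rado for lifts: every absorber takes at most one violated edge.
HINT: `Top_frm`, `Pk`, `ty`, `D` as above; `Frm.pick` and `Frm.eq_iff` give the hypothesis of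
`Top_rad`; `Top_core`; `Frm.lift`. -/
theorem lift6g {ι : Type} [DecidableEq ι] {Ab : Finset ι} {nb : ι → Finset E}
    (hx : G.Lx W O φ) (hP : P ⊆ G.cut W) (hh : ∀ e ∈ P, Av O φ e (h e))
    (hnb : ∀ j ∈ Ab, nb j ⊆ P)
    (hS : ∀ S ⊆ Ab, ∃ f, G.Lf W O φ f ∧ ∃ Vi : Finset E, Vi.card ≤ S.card ∧
      ∀ e ∈ P, (∀ j ∈ Ab, e ∈ nb j → j ∈ S) → e ∉ Vi → f e = h e) :
    ∃ f, G.Lf W O φ f ∧ ∃ τ : ι → Option E, (∀ j ∈ Ab, ∀ e, τ j = some e → e ∈ nb j) ∧
      ∀ e ∈ P, f e = h e ∨ ∃ j ∈ Ab, τ j = some e := by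
  obtain ⟨r, a, b, ε, hF⟩ := Top_frm hx
  have hm := LK_mx hx hP a b h
  refine LK_fin hF hP hh hm hnb (Top_rad hm fun S hs => ?_)
  obtain ⟨f, hf, Vi, h1, h2⟩ := hS S hs
  obtain ⟨Q, hQ, hq⟩ := hF.pick hf
  refine ⟨Q, hQ, Vi, h1, fun e he k k' => ?_⟩
  rw [hq e (hP he), h2 e he k k', mem_filter, and_iff_right he]

end SG

end Pool.Agent.Work.MP_8c679b_co
end

-- merged part: Pool.Agent.Work.MP_8c679b_co.Top.LPair
section
/-!
The pair lemma.
-/

set_option autoImplicit false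

namespace Pool.Agent.Work.MP_8c679b_co

open Finset

namespace SG

variable {V E : Type} [Fintype V] [DecidableEq V] [DecidableEq E] {G : SG V E}
  {T K : Finset V} {O : Finset E} {φ η : E → ZMod 3} {f : E → ℤ}

/-- a lift is not deficient.  HINT: `Def6_split` with `p = 0`, `Def6_ins`, `Def6_par`. -/
theorem Lf.not_df (hf : G.Lf K O φ f) : ¬ G.Df O φ K f := by
  intro hd
  have h1 := Def6_split (G := G) (fun _ => 0) K f
  have h2 := Def6_par (G := G) (O := O) (G.ins K) fun e he => (hf.2 e (ins_sub_tch he)).2.1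
  rw [sum_eq_zero fun v hv => by rw [hf.1 v hv, mul_zero], Def6_ins] at h1
  have h3 : G.tw (fun _ => 0) K f = ∑ e ∈ G.cut K, G.out K f e := rfl
  refine hd.2 ?_
  rw [← h3]
  omega

/-- HINT: `cut_add`, `HT.mono3` for `X` and `T \ X`. -/
theorem LPair_two (hT : G.T3 T) : G.Two T (G.ins T) := by
  intro X hX hn hne
  have h1 := cut_add (G := G) hX
  have h2 := hT.1.mono3 hX hn
  have h3 := hT.1.mono3 (sdiff_subset (s := T) (t := X))
    (sdiff_nonempty.2 fun k => hne (Subset.antisymm hX k))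
  have h4 := hT.2.1
  omega

/-- For every leaving edge `i` the values four on `i` and on a second edge, two on the third edge,
are accepted.
HINT: `av_exists` gives the value `x` of size four on `i`.  `lift6k` with `W = T`, `P = {i}`, `B = ∅`,
`n = 0`, `wp = 4`, weight two on `M`: `2 + 4 < 6 + min 2 2`.  The condition on `K ⊂ T` as in
`Acc_lift`; `K = T` is excluded because `cut T ⊆ {i}` fails.  All values on `cut T` have size two or
four (off `O`, `Av.ne_zero`), every outflow is congruent to the size modulo four, so `Lf.not_df`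
and `par O = 1` make the sum of the three sizes two modulo four.  `ext_of_av`, `Ext.congr`: two
values with the same size (two or four) and the same residue are equal. -/
theorem LPair_one (hc : G.Cub) (hT : G.T3 T) (hη : ∀ e ∈ G.cut T, η e ≠ 0) (h1 : G.Rs T η 1 1)
    {i : E} (hi : i ∈ G.cut T) : ∃ k ∈ G.cut T, k ≠ i ∧ ∀ h : E → ℤ,
      (∀ e ∈ G.cut T, |h e| = (if e = k then 2 else 4) ∧ (h e : ZMod 3) = η e) → G.Ext T h := by
  obtain ⟨O, φ, M, ⟨hO, hp, hφ, hφη⟩, hM, hit⟩ := h1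
  have hOA : O ⊆ G.A := hO.sub_ins.trans ins_sub_A
  have nO : ∀ e ∈ G.cut T, e ∉ O := fun e he k => not_ins_of_cut he (hO.sub_ins k)
  obtain ⟨x, x1, x2⟩ := av_exists (nO i hi) (φ := φ) (by rw [hφη i hi]; exact hη i hi)
    (c := 4) (Or.inr rfl)
  have hcard : (G.cut T \ {i}).card = 2 := by
    rw [sdiff_singleton_eq_erase, card_erase_of_mem hi, hT.2.1]
  have hw : ∑ v ∈ T, (if v ∈ M then 2 else 0 : ℕ) ≤ 2 := by
    have k' := card_le_card (inter_subset_right (s₁ := T) (s₂ := M))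
    simp only [sum_ite_mem, sum_const, smul_eq_mul]
    omega
  obtain ⟨f, f1, f2, -⟩ := lift6k (G := G) (W := T) (O := O) (φ := φ) (P := {i}) (B := ∅)
    (h := fun _ => x) ⟨hc, hT.1.act, fun e he => hT.1.noloop hc he, hOA, hO.2.1, hφ⟩
    (LPair_two hT) (singleton_subset_iff.2 hi) (empty_subset _)
    (fun e he => by rw [mem_singleton.1 he]; exact x1)
    (fun v => if v ∈ M then 2 else 0) (fun _ => 4) (fun e _ => by rw [x2]; rfl)
    (fun K hK0 hn hP g hd hg => by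
      have hK : K ⊂ T := by
        refine Finset.ssubset_iff_subset_ne.2 ⟨hK0, ?_⟩
        rintro rfl
        have k := card_le_card (show G.cut K ⊆ {i} from fun e he => hP e he he)
        rw [hT.2.1, card_singleton] at k
        omega
      have k2 : ∑ e ∈ G.cut K, |g e| =
          ∑ e ∈ G.cut K \ {i}, |g e| + ∑ e ∈ G.cut K ∩ {i}, ((4 : ℕ) : ℤ) := by
        rw [← sum_inter_add_sum_sdiff (G.cut K) {i}, add_comm]
        congr 1
        refine sum_congr rfl fun e he => ?_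
        rw [hg e (mem_inter.1 he).1 (mem_inter.1 he).2, x2]
        rfl
      have k0 : (0 : ℤ) ≤ ∑ v ∈ K, ((if v ∈ M then 2 else 0 : ℕ) : ℤ) :=
        sum_nonneg fun _ _ => Nat.cast_nonneg _
      have hO' : ∀ v ∈ K, G.dg O v = 0 := fun v hv => hO.2.1 v (hK.1 hv)
      by_cases hB : G.Bad O φ K
      · obtain ⟨v, v1, v2⟩ := not_disjoint_iff.1 (hit K hK.1 hB)
        have k6 := single_le_sum (f := fun v => ((if v ∈ M then 2 else 0 : ℕ) : ℤ))
          (fun _ _ => Nat.cast_nonneg _) v1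
        have := hd.four hOA hO' (fun e he => hφ.2.1 e (tch_mono hK.1 (cut_sub_tch he)))
          (hT.1.mono3 hK.1 hn)
        simp only [if_pos v2, Nat.cast_ofNat] at k6
        omega
      · have := hT.1.df hc hK hn hOA hO' ⟨fun v hv => hφ.1 v (hK.1 hv),
          fun e he => hφ.2.1 e (tch_mono hK.1 he), fun t ht => ht.elim⟩ (fun hu => Or.inl (by
            by_contra r
            refine hB ⟨hu, fun e he => ⟨?_, fun r' => r ⟨e, he, Or.inr r'⟩⟩⟩
            by_contra r'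
            exact r ⟨e, he, Or.inl r'⟩)) hd
        omega)
    0 (by rw [hcard, sdiff_empty, sum_singleton]; omega) (by rw [hcard, sum_singleton]; omega)
  have fi : |f i| = 4 := by rw [f2 i (mem_singleton_self i) (notMem_empty i), x2]
  have f24 : ∀ e ∈ G.cut T, |f e| = 2 ∨ |f e| = 4 := fun e he => by
    have k1 := f1.2 e (cut_sub_tch he)
    have k2 := k1.ne_zero (hφ.2.1 e (cut_sub_tch he))
    have k3 : ¬ Odd (f e) := fun k => nO e he (k1.2.1.1 k)
    have k4 := k1.1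
    rw [Int.odd_iff] at k3
    rcases abs_cases (f e) with k | k <;> omega
  have h4 : (4 : ℤ) ∣ ∑ e ∈ G.cut T, |f e| + 2 := by
    have k : (4 : ℤ) ∣ ∑ e ∈ G.cut T, G.out T f e - ∑ e ∈ G.cut T, |f e| := by
      rw [← sum_sub_distrib]
      refine dvd_sum fun e he => ?_
      have k1 := f24 e he
      rw [out]
      rcases Def6_kap (fun _ => 0) he with k | k <;> rw [k] <;>
        rcases abs_cases (f e) with k | k <;> omega
    have k' : (4 : ℤ) ∣ ∑ e ∈ G.cut T, G.out T f e + 2 * ((G.par (O ∩ G.ins T)).val : ℤ) := by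
      by_contra r
      exact f1.not_df ⟨fun e he => f1.2 e (cut_sub_tch he), r⟩
    rw [inter_eq_left.2 hO.sub_ins, hp, ZMod.val_one] at k'
    omega
  obtain ⟨a, b, hab, e2⟩ := card_eq_two.1 hcard
  have ha : a ∈ G.cut T \ {i} := e2 ▸ mem_insert_self a {b}
  have hb : b ∈ G.cut T \ {i} := e2 ▸ mem_insert_of_mem (mem_singleton_self b)
  rw [mem_sdiff, mem_singleton] at ha hb
  have hall : ∀ e ∈ G.cut T, e = i ∨ e = a ∨ e = b := fun e he => by
    by_cases k : e = i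
    · exact Or.inl k
    · have k' : e ∈ G.cut T \ {i} := mem_sdiff.2 ⟨he, fun r => k (mem_singleton.1 r)⟩
      rw [e2, mem_insert, mem_singleton] at k'
      exact Or.inr k'
  rw [← sum_sdiff (singleton_subset_iff.2 hi), e2, sum_pair hab, sum_singleton, fi] at h4
  have key : ∀ k : E, (∀ e ∈ G.cut T, |f e| = if e = k then 2 else 4) → ∀ h : E → ℤ,
      (∀ e ∈ G.cut T, |h e| = (if e = k then 2 else 4) ∧ (h e : ZMod 3) = η e) → G.Ext T h := by
    intro k hk h hh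
    refine (ext_of_av (h := f) hφ (fun _ _ => rfl) f1.1 f1.2).congr fun e he => ?_
    have k1 : (h e : ZMod 3) = (f e : ZMod 3) := by
      rw [(hh e he).2, (f1.2 e (cut_sub_tch he)).2.2, hφη e he]
    have k2 := (ZMod.intCast_eq_intCast_iff_dvd_sub _ _ 3).1 k1
    have k3 : |h e| = |f e| := by rw [(hh e he).1, hk e he]
    have k4 := f24 e he
    rcases abs_cases (f e) with k | k <;> rcases abs_cases (h e) with k' | k' <;> omega
  have ka := f24 a ha.1
  have kb := f24 b hb.1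
  by_cases k2 : |f a| = 2
  · refine ⟨a, ha.1, ha.2, key a fun e he => ?_⟩
    rcases hall e he with rfl | rfl | rfl
    · rw [if_neg (Ne.symm ha.2), fi]
    · rw [if_pos rfl, k2]
    · rw [if_neg (Ne.symm hab)]
      omega
  · refine ⟨b, hb.1, hb.2, key b fun e he => ?_⟩
    rcases hall e he with rfl | rfl | rfl
    · rw [if_neg (Ne.symm hb.2), fi]
    · rw [if_neg hab]
      omega
    · rw [if_pos rfl]
      omega

/-- HINT: call `k ∈ cut T` good if the pattern with size two on `k` only is accepted.  `LPair_one`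
gives a good `k1`, then (for `i = k1`) a good `k2 ≠ k1`; let `i` be the third edge.  A pattern in
which `k1`, `k2` do not both have size four has at most one four (`acc_of_rall` with `Rs.mono`) or
has size two exactly on `k1` or exactly on `k2`. -/
theorem pair_l (hc : G.Cub) : G.PairL := by
  intro T hT h0 h1 η hη
  have hA := acc_of_rall hc hT (fun η hη => (h1 η hη).mono one_le_two) h0
  obtain ⟨e0, he0⟩ : (G.cut T).Nonempty := card_pos.1 (by rw [hT.2.1]; omega)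
  obtain ⟨k1, a1, -, g1⟩ := LPair_one hc hT hη (h1 η hη) he0
  obtain ⟨k2, a2, b2, g2⟩ := LPair_one hc hT hη (h1 η hη) a1
  have hc1 : (((G.cut T).erase k1).erase k2).card = 1 := by
    rw [card_erase_of_mem (mem_erase.2 ⟨b2, a2⟩), card_erase_of_mem a1, hT.2.1]
  obtain ⟨i, hi⟩ := card_eq_one.1 hc1
  have hi' : i ∈ ((G.cut T).erase k1).erase k2 := hi ▸ mem_singleton_self i
  rw [mem_erase, mem_erase] at hi'
  obtain ⟨i2, i1, i0⟩ := hi'
  have hall : ∀ e ∈ G.cut T, e = i ∨ e = k1 ∨ e = k2 := fun e he => by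
    by_cases r1 : e = k1
    · exact Or.inr (Or.inl r1)
    by_cases r2 : e = k2
    · exact Or.inr (Or.inr r2)
    exact Or.inl (mem_singleton.1 (hi ▸ mem_erase.2 ⟨r2, mem_erase.2 ⟨r1, he⟩⟩))
  refine ⟨i, i0, fun h hh hu => ?_⟩
  have n12 : ¬ (|h k1| = 4 ∧ |h k2| = 4) := fun r =>
    b2 (hu k1 a1 k2 a2 (Ne.symm i1) (Ne.symm i2) r.1 r.2).symm
  have ci := (hh i i0).1
  have c1 := (hh k1 a1).1
  have c2 := (hh k2 a2).1
  by_cases r1 : |h i| = 4 ∧ |h k2| = 4
  · refine g1 h fun e he => ⟨?_, (hh e he).2⟩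
    rcases hall e he with rfl | rfl | rfl
    · rw [if_neg i1, r1.1]
    · rw [if_pos rfl]
      omega
    · rw [if_neg b2, r1.2]
  by_cases r2 : |h i| = 4 ∧ |h k1| = 4
  · refine g2 h fun e he => ⟨?_, (hh e he).2⟩
    rcases hall e he with rfl | rfl | rfl
    · rw [if_neg i2, r2.1]
    · rw [if_neg (Ne.symm b2), r2.2]
    · rw [if_pos rfl]
      omega
  refine hA h (fun e he => (hh e he).1) fun e he e' he' s s' => ?_
  rcases hall e he with rfl | rfl | rfl <;> rcases hall e' he' with rfl | rfl | rfl <;>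
    first
    | rfl
    | omega

end SG

end Pool.Agent.Work.MP_8c679b_co
end

-- merged part: Pool.Agent.Work.MP_8c679b_co.Top.LTree
section
/-!
The induction over the tree of pieces.
-/

set_option autoImplicit false

namespace Pool.Agent.Work.MP_8c679b_co

open Finset

namespace SG

variable {V E : Type} [Fintype V] [DecidableEq V] [DecidableEq E] {G : SG V E}
  {W Y : Finset V} {O M P B : Finset E} {φ : E → ZMod 3} {h : E → ℤ}

/-- two lifts that agree on the common edges -/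
theorem Lf.glue {X Z : Finset V} {f1 f2 : E → ℤ} (h1 : G.Lf X O φ f1) (h2 : G.Lf Z O φ f2)
    (h : ∀ e ∈ G.tch X, e ∈ G.tch Z → f1 e = f2 e) :
    ∃ f, G.Lf (X ∪ Z) O φ f ∧ (∀ e ∈ G.tch X, f e = f1 e) ∧ ∀ e ∈ G.tch Z, f e = f2 e := by
  have c2 : ∀ e ∈ G.tch Z, (if e ∈ G.tch X then f1 e else f2 e) = f2 e := fun e he => by
    split_ifs with k
    exacts [h e k he, rfl]
  refine ⟨fun e => if e ∈ G.tch X then f1 e else f2 e, ⟨fun v hv => ?_, fun e he => ?_⟩,
    fun e he => if_pos he, c2⟩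
  · rcases mem_union.1 hv with k | k
    · exact (bd_congr fun e he ha => if_pos (Cut_tch he ha k)).trans (h1.1 v k)
    · exact (bd_congr fun e he ha => c2 e (Cut_tch he ha k)).trans (h2.1 v k)
  · rw [tch_union, mem_union] at he
    beta_reduce
    rcases he with k | k
    · rw [if_pos k]
      exact h1.2 e k
    · rw [c2 e k]
      exact h2.2 e k

omit [Fintype V] [DecidableEq V] [DecidableEq E] in
theorem LTree_one {e : E} (he : e ∈ O) (h0 : φ e ≠ 0) : ∃ x, Av O φ e x ∧ |x| = 1 := by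
  have h1 : ∀ y : ZMod 3, y ≠ 0 → ((1 : ℤ) : ZMod 3) = y ∨ ((-1 : ℤ) : ZMod 3) = y := by decide
  rcases h1 _ h0 with k | k
  · exact ⟨1, ⟨by decide, iff_of_true odd_one he, k⟩, rfl⟩
  · exact ⟨-1, ⟨by decide, iff_of_true odd_neg_one he, k⟩, rfl⟩

/-- one piece -/
theorem lt2_base (hx : G.Lx Y O φ) (hD : G.DL Y O φ M) (hM : ∀ e ∈ M, e ∉ O) (hW : G.Pc Y W)
    (hP : P ⊆ G.cut W) (h1 : P.card ≤ 1) (hPO : ∀ e ∈ P, e ∉ O ∨ e ∈ G.ins Y)
    (hh : ∀ e ∈ P, Av O φ e (h e))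
    (hB : ∀ e ∈ B, e ∈ G.cut W ∧ e ∉ P ∧ (e ∈ M ∨ (e ∈ O ∧ φ e ≠ 0 ∧ e ∈ G.ins Y))) :
    ∃ f, G.Lf W O φ f ∧ (∀ e ∈ P, f e = h e) ∧
      2 * (B.filter fun e => 4 ≤ |f e|).card ≤ B.card + (P.filter fun e => |h e| = 5).card := by
  obtain ⟨d1, R, r1, r2, d3⟩ := hD W hW
  have lo : ∀ e ∈ B, ∃ x, Av O φ e x ∧ |x| ≤ 2 ∧ |x| ≤ G.wt O M R W e := fun e he => by
    obtain ⟨k1, -, k2 | k2⟩ := hB e he
    · obtain ⟨x, k3, k4⟩ := av_exists (hM e k2)
        (hx.sl.2.1 e (tch_mono hW.1 (cut_sub_tch k1)) (hM e k2)) (Or.inl rfl)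
      exact ⟨x, k3, k4.le, by simp [wt, k1, k2, hM e k2, k4]⟩
    · obtain ⟨x, k3, k4⟩ := LTree_one k2.1 k2.2.1
      refine ⟨x, k3, by omega, ?_⟩
      simp only [wt, k1, k2.1, if_true, k4]
      split_ifs <;> simp
  choose! lo l1 l2 l3 using lo
  obtain ⟨h', p1, p2⟩ : ∃ h' : E → ℤ, (∀ e ∈ P, h' e = h e) ∧ ∀ e ∈ B, h' e = lo e :=
    ⟨fun e => if e ∈ P then h e else lo e, fun e he => if_pos he, fun e he => if_neg (hB e he).2.1⟩
  have dj : Disjoint P B := disjoint_right.2 fun e he => (hB e he).2.1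
  have s1 : ∑ e ∈ B, max (h' e).natAbs (G.wt O M R W e) + (B ∩ M).card + 2 * (B ∩ R).card ≤
      3 * B.card := by
    rw [← filter_mem_eq_inter, ← filter_mem_eq_inter, card_filter, card_filter, mul_sum,
      ← sum_add_distrib, ← sum_add_distrib, card_eq_sum_ones, mul_sum]
    refine sum_le_sum fun e he => ?_
    have k0 := l3 e he
    rw [← p2 e he, ← Int.natCast_natAbs, Nat.cast_le] at k0
    rw [max_eq_right k0]
    obtain ⟨k1, -, k2 | k2⟩ := hB e he
    · have k3 : e ∉ R := fun k => hM e k2 (mem_inter.1 (r1 k)).2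
      simp [wt, k1, k2, hM e k2, k3]
    · have k3 : e ∉ M := fun k => hM e k k2.1
      simp only [wt, k1, k2.1, k3, if_true, if_false]
      split_ifs <;> simp
  have s2 : (P.filter fun e => |h e| = 5).card ≤ 1 ∧
      ∑ e ∈ P, max (h' e).natAbs (G.wt O M R W e) ≤ 4 + (P.filter fun e => |h e| = 5).card ∧
      ((R ∩ P).card = 0 ∨ ((R ∩ P).card = 1 ∧ ∑ e ∈ P, max (h' e).natAbs (G.wt O M R W e) ≤
        3 + 2 * (P.filter fun e => |h e| = 5).card)) := by
    refine ⟨(card_filter_le _ _).trans h1, ?_⟩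
    obtain rfl | ⟨a, rfl⟩ : P = ∅ ∨ ∃ e, P = {e} := by
      rw [← card_eq_zero, ← card_eq_one]
      omega
    · simp
    have k1 := hh a (mem_singleton_self a)
    have k2 := k1.1
    have k0 := Int.natCast_natAbs (h a)
    have k3 : G.wt O M R W a ≤ 4 := by
      unfold wt
      split_ifs <;> omega
    rw [sum_singleton, p1 a (mem_singleton_self a), filter_singleton]
    refine ⟨by split_ifs <;> simp <;> omega, ?_⟩
    by_cases k4 : a ∈ R
    · have k5 := (mem_inter.1 (r1 k4)).2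
      have k6 : G.wt O M R W a = 1 := by simp [wt, hP (mem_singleton_self a), k4, k5]
      have k7 := Int.odd_iff.1 (k1.2.1.2 k5)
      refine Or.inr ⟨by rw [inter_singleton_of_mem k4, card_singleton], ?_⟩
      rw [k6]
      split_ifs <;> simp <;> omega
    · exact Or.inl (by rw [inter_singleton_of_notMem k4, card_empty])
  have s3 : ∀ S ⊆ G.cut W, S.card ≤ (S ∩ P).card + (B ∩ S).card + (G.cut W \ (P ∪ B)).card :=
    fun S hS => by
      refine le_trans (card_le_card (t := S ∩ P ∪ B ∩ S ∪ G.cut W \ (P ∪ B)) fun e he => ?_)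
        ((card_union_le _ _).trans (Nat.add_le_add_right (card_union_le _ _) _))
      have := hS he
      simp only [mem_union, mem_inter, mem_sdiff]
      (clear * - d1 he r2 s2 this; grind)
  have s4 : R.card = 2 ∨ B.card = 0 ∨
      ((B ∩ M).card = B.card ∧ 2 ≤ B.card + (G.cut W \ (P ∪ B)).card) := by
    refine r2.imp_right fun k => ?_
    have k1 : B ⊆ M := fun e he => (hB e he).2.2.resolve_right fun k2 =>
      disjoint_left.1 k (hB e he).1 k2.1
    rcases d1 with k2 | k2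
    · have k3 := s3 _ Subset.rfl
      have k4 := card_le_card (inter_subset_right (s₁ := G.cut W) (s₂ := P))
      have k5 := card_le_card (inter_subset_left (s₁ := B) (s₂ := G.cut W))
      exact Or.inr ⟨by rw [inter_eq_left.2 k1], by omega⟩
    · exact Or.inl (card_eq_zero.2 (eq_empty_of_forall_notMem fun e he =>
        disjoint_left.1 k2 (hB e he).1 (k1 he)))
  have s5 := s3 R (r1.trans inter_subset_left)
  obtain ⟨f, f1, f2, f3⟩ := lift6k (h := h') (B := B) (hx.mono hW.1) hW.2.2.1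
    (union_subset hP fun e he => (hB e he).1) subset_union_right
    (fun e he => (mem_union.1 he).elim (fun k => p1 e k ▸ hh e k) fun k => p2 e k ▸ l1 e k)
    (fun _ => 0) (fun e => max (h' e).natAbs (G.wt O M R W e))
    (fun e _ => by rw [Nat.cast_max, Int.natCast_natAbs]; exact le_max_left _ _)
    (fun K k1 k2 k3 g hg k4 => by
      refine (d3 K k1 k2 (fun e he k5 => ?_) g hg).trans (le_of_eq ?_)
      · have k6 := (cut_of_sub hW.1 k5 (tch_mono k1 (cut_sub_tch he))).1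
        rcases mem_union.1 (k3 e he k6) with k7 | k7
        · exact (hPO e k7).resolve_right (not_ins_of_cut k5)
        · exact hM e ((hB e k7).2.2.resolve_right fun k8 => not_ins_of_cut k5 k8.2.2)
      · rw [← sum_inter_add_sum_sdiff _ (P ∪ B), add_comm]
        simp only [Nat.cast_zero, sum_const_zero, add_zero]
        congr 1
        · refine sum_congr rfl fun e he => ?_
          obtain ⟨k5, k6⟩ := mem_sdiff.1 he
          rw [wt, if_neg fun k => k6 (k3 e k5 k), Nat.cast_zero, max_eq_left (abs_nonneg _)]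
        · refine sum_congr rfl fun e he => ?_
          obtain ⟨k5, k6⟩ := mem_inter.1 he
          rw [k4 e k5 k6, Nat.cast_max, Int.natCast_natAbs])
    ((B.card + (P.filter fun e => |h e| = 5).card) / 2)
    (by
      rw [union_sdiff_cancel_right dj, sum_const_zero]
      omega)
    (by
      rw [sum_union dj, sum_const_zero]
      omega)
  refine ⟨f, f1, fun e he => (f2 e (mem_union_left _ he) (disjoint_left.1 dj he)).trans (p1 e he),
    ?_⟩
  have k : (B.filter fun e => 4 ≤ |f e|) ⊆ B.filter fun e => f e ≠ h' e := fun e he => by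
    obtain ⟨k1, k2⟩ := mem_filter.1 he
    refine mem_filter.2 ⟨k1, fun k3 => ?_⟩
    have := l2 e k1
    rw [k3, p2 e k1] at k2
    omega
  have := card_le_card k
  omega

/-- a union of pieces -/
theorem lt2 (hx : G.Lx Y O φ) (hD : G.DL Y O φ M) (hM : ∀ e ∈ M, e ∉ O) (hW : W ⊆ Y)
    (hb : ∀ e ∈ G.cut W, e ∈ G.ins Y → G.Bri Y e)
    (hP : P ⊆ G.cut W) (h1 : P.card ≤ 1) (hPO : ∀ e ∈ P, e ∉ O ∨ e ∈ G.ins Y)
    (hh : ∀ e ∈ P, Av O φ e (h e))
    (hB : ∀ e ∈ B, e ∈ G.cut W ∧ e ∉ P ∧ (e ∈ M ∨ (e ∈ O ∧ φ e ≠ 0 ∧ e ∈ G.ins Y))) :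
    ∃ f, G.Lf W O φ f ∧ (∀ e ∈ P, f e = h e) ∧
      2 * (B.filter fun e => 4 ≤ |f e|).card ≤ B.card + (P.filter fun e => |h e| = 5).card := by
  induction W using Finset.strongInduction generalizing P h B with
  | H W ih =>
  rcases W.eq_empty_or_nonempty with rfl | hn
  · obtain rfl : B = ∅ := eq_empty_of_forall_notMem fun e he => by
      simpa [mem_cut] using (hB e he).1
    exact ⟨h, ⟨fun _ h => absurd h (notMem_empty _), fun _ h => by simp [mem_tch] at h⟩,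
      fun _ _ => rfl, by simp⟩
  by_cases two : G.Two W (G.ins W)
  · exact lt2_base hx hD hM ⟨hW, hn, two, hb⟩ hP h1 hPO hh hB
  obtain ⟨X, x1, x2, x3, x4⟩ : ∃ X ⊆ W, X.Nonempty ∧ X ≠ W ∧ (G.crs (G.ins W) X).card ≤ 1 := by
    by_contra k
    exact two fun X a b c => not_lt.1 fun d => k ⟨X, a, b, c, by omega⟩
  obtain ⟨Z, z0, z1, -⟩ := SpLift_root (D0 := ∅)
    (fun X k1 k2 => absurd (subset_empty.1 k1) k2.ne_empty) hP h1 (Or.inl (disjoint_empty_right _)) x1 x4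
  obtain ⟨y1, y2, y3⟩ : Z ⊂ W ∧ W \ Z ⊂ W ∧ (G.crs (G.ins W) Z).card ≤ 1 := by
    rcases z0 with rfl | rfl
    · exact ⟨x1.ssubset_of_ne x3, sdiff_ssubset x1 x2, x4⟩
    · rw [Finset.sdiff_sdiff_eq_self x1, crs_sdiff x1]
      exact ⟨sdiff_ssubset x1 x2, x1.ssubset_of_ne x3, x4⟩
  have cr := fun e => SpLift_crs (G := G) (e := e) y1.subset
  have br : ∀ U ⊆ W, (G.crs (G.ins W) U).card ≤ 1 → ∀ e ∈ G.cut U, e ∈ G.ins Y → G.Bri Y e := by
    intro U hU k0 e k1 k2
    by_cases k3 : e ∈ G.cut W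
    · exact hb e k3 k2
    have k4 : e ∈ G.crs (G.ins W) U := by rw [crs_ins hU]; exact mem_sdiff.2 ⟨k1, k3⟩
    refine GTj_bri ((G.crs (G.ins Y) U).erase e) U (hU.trans hW) (insert_erase (mem_crs.2
      ⟨k2, (mem_cut.1 k1).2⟩)).symm (notMem_erase _ _) fun e' he' => ?_
    obtain ⟨k5, k6⟩ := mem_erase.1 he'
    obtain ⟨k7, k8⟩ := mem_crs.1 k6
    refine hb e' ?_ k7
    by_contra k9
    exact k5 (card_le_one.1 k0 e' (by
      rw [crs_ins hU]
      exact mem_sdiff.2 ⟨mem_cut.2 ⟨ins_sub_A k7, k8⟩, k9⟩) e k4)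
  have cW : ∀ e ∈ G.crs (G.ins W) Z, e ∈ G.ins Y ∧ e ∉ G.cut W := fun e he =>
    ⟨ins_mono hW (mem_crs.1 he).1, fun k => not_ins_of_cut k (mem_crs.1 he).1⟩
  obtain ⟨C, c1, c2, c3⟩ : ∃ C ⊆ G.crs (G.ins W) Z, (∀ e ∈ C, e ∈ O ∧ φ e ≠ 0) ∧
      ((C = ∅ ∧ (Even (B ∩ G.tch (W \ Z)).card ∨
        ∀ e ∈ G.crs (G.ins W) Z, e ∉ O ∨ φ e = 0)) ∨
       (C = G.crs (G.ins W) Z ∧ Odd (B ∩ G.tch (W \ Z)).card)) := by
    by_cases k : Odd (B ∩ G.tch (W \ Z)).card ∧ ∀ e ∈ G.crs (G.ins W) Z, e ∈ O ∧ φ e ≠ 0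
    · exact ⟨_, Subset.rfl, k.2, Or.inr ⟨rfl, k.1⟩⟩
    · refine ⟨∅, empty_subset _, by simp, Or.inl ⟨rfl, ?_⟩⟩
      by_contra k1
      push Not at k1
      obtain ⟨k1, e, k2, k3⟩ := k1
      exact k ⟨Nat.not_even_iff_odd.1 k1, fun e' he' => card_le_one.1 y3 e k2 e' he' ▸ k3⟩
  obtain ⟨f1, a1, a2, a3⟩ := ih Z y1 (B := B ∩ G.tch Z ∪ C) (y1.subset.trans hW)
    (br Z y1.subset y3) z1 h1 hPO hh fun e he => by
      rcases mem_union.1 he with k | k
      · obtain ⟨k1, k2⟩ := mem_inter.1 k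
        exact ⟨(cut_of_sub y1.subset (hB e k1).1 k2).1, (hB e k1).2⟩
      · have k1 := c1 k
        refine ⟨?_, fun k2 => (cW e k1).2 (hP k2), Or.inr ⟨(c2 e k).1, (c2 e k).2, (cW e k1).1⟩⟩
        rw [crs_ins y1.subset] at k1
        exact (mem_sdiff.1 k1).1
  obtain ⟨f2, b1, b2, b3⟩ := ih _ y2 (B := B ∩ G.tch (W \ Z)) (h := f1) (y2.subset.trans hW)
    (br _ y2.subset (by rwa [crs_sdiff y1.subset]))
    (fun e he => (Ab_link disjoint_sdiff ((cr e).1 he).1 ((cr e).1 he).2).2) y3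
    (fun e he => Or.inr (cW e he).1) (fun e he => a1.2 e ((cr e).1 he).1) fun e he => by
      obtain ⟨k1, k2⟩ := mem_inter.1 he
      exact ⟨(cut_of_sub y2.subset (hB e k1).1 k2).1, fun k => (cW e k).2 (hB e k1).1,
        (hB e k1).2.2⟩
  obtain ⟨f, g1, g2, g3⟩ := a1.glue b1 fun e k1 k2 => (b2 e ((cr e).2 ⟨k1, k2⟩)).symm
  rw [union_sdiff_of_subset y1.subset] at g1
  refine ⟨f, g1, fun e he => (g2 e (cut_sub_tch (z1 he))).trans (a2 e he), ?_⟩
  have e1 : B = B ∩ G.tch Z ∪ B ∩ G.tch (W \ Z) := by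
    rw [← inter_union_distrib_left, ← tch_union, union_sdiff_of_subset y1.subset]
    exact (inter_eq_left.2 fun e he => cut_sub_tch (hB e he).1).symm
  have d1 : Disjoint (B ∩ G.tch Z) (B ∩ G.tch (W \ Z)) := disjoint_left.2 fun e k1 k2 =>
    (cW e ((cr e).2 ⟨(mem_inter.1 k1).2, (mem_inter.1 k2).2⟩)).2 (hB e (mem_inter.1 k1).1).1
  have d2 : Disjoint (B ∩ G.tch Z) C := disjoint_left.2 fun e k1 k2 =>
    (cW e (c1 k2)).2 (hB e (mem_inter.1 k1).1).1
  have e2 : B.card = (B ∩ G.tch Z).card + (B ∩ G.tch (W \ Z)).card := by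
    rw [← card_union_of_disjoint d1, ← e1]
  have e3 : (B.filter fun e => 4 ≤ |f e|).card ≤ ((B ∩ G.tch Z).filter fun e => 4 ≤ |f1 e|).card +
      ((B ∩ G.tch (W \ Z)).filter fun e => 4 ≤ |f2 e|).card := by
    refine le_trans (card_le_card fun e he => ?_) (card_union_le _ _)
    obtain ⟨k1, k2⟩ := mem_filter.1 he
    rw [e1] at k1
    rcases mem_union.1 k1 with k | k
    · exact mem_union_left _ (mem_filter.2 ⟨k, g2 e (mem_inter.1 k).2 ▸ k2⟩)
    · exact mem_union_right _ (mem_filter.2 ⟨k, g3 e (mem_inter.1 k).2 ▸ k2⟩)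
  rw [filter_union, card_union_of_disjoint d2,
    card_union_of_disjoint (d2.mono (filter_subset _ _) (filter_subset _ _))] at a3
  have e4 := (card_filter_le (G.crs (G.ins W) Z) fun e => |f1 e| = 5).trans y3
  rcases c3 with ⟨rfl, k | k⟩ | ⟨rfl, k⟩
  · rw [Nat.even_iff] at k
    rw [card_empty] at a3
    omega
  · rw [filter_false_of_mem (s := G.crs (G.ins W) Z) fun e he k1 => ?_, card_empty] at b3
    · rw [card_empty] at a3
      omega
    · have k2 := a1.2 e ((cr e).1 he).1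
      rcases k e he with k3 | k3
      · have := mt k2.2.1.1 k3
        rw [← odd_abs, k1] at this
        exact this (by decide)
      · have := (Def6_dvd k2).1 k3
        rw [← dvd_abs, k1] at this
        omega
  · rw [Nat.odd_iff] at k
    have e5 : ((G.crs (G.ins W) Z).filter fun e => |f1 e| = 5).card ≤
        ((G.crs (G.ins W) Z).filter fun e => 4 ≤ |f1 e|).card :=
      card_le_card (monotone_filter_right _ fun e _ k1 => by omega)
    omega

/-- at most one value of size four in every group -/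
theorem top_lift {ι : Type} [DecidableEq ι] {Ab : Finset ι} {nb : ι → Finset E}
    (hx : G.Lx Y O φ) (hD : G.DL Y O φ M) (hM : ∀ e ∈ M, e ∈ G.cut Y ∧ e ∉ O)
    (hP : P ⊆ G.cut Y) (h1 : P.card ≤ 1) (hPO : ∀ e ∈ P, e ∉ O)
    (hh : ∀ e ∈ P, Av O φ e (h e)) (hnb : ∀ j ∈ Ab, nb j ⊆ M \ P ∧ (nb j).card ≤ 2)
    (hdj : ∀ j ∈ Ab, ∀ j' ∈ Ab, j ≠ j' → Disjoint (nb j) (nb j')) :
    ∃ f, G.Lf Y O φ f ∧ (∀ e ∈ P, f e = h e) ∧
      ∀ j ∈ Ab, ∀ e ∈ nb j, ∀ e' ∈ nb j, |f e| = 4 → |f e'| = 4 → e = e' := by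
  have lo : ∀ e ∈ M, ∃ x, Av O φ e x ∧ |x| = 2 := fun e he => av_exists (hM e he).2
    (hx.sl.2.1 e (cut_sub_tch (hM e he).1) (hM e he).2) (Or.inl rfl)
  choose! lo l1 l2 using lo
  obtain ⟨h', p1, p2⟩ : ∃ h' : E → ℤ, (∀ e ∈ P, h' e = h e) ∧ ∀ e ∈ M \ P, h' e = lo e :=
    ⟨fun e => if e ∈ P then h e else lo e, fun e he => if_pos he,
      fun e he => if_neg (mem_sdiff.1 he).2⟩
  have nS : ∀ S ⊆ Ab, S.biUnion nb ⊆ M \ P := fun S hS =>
    biUnion_subset.2 fun j hj => (hnb j (hS hj)).1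
  obtain ⟨f, f1, τ, t1, t2⟩ := lift6g (h := h') (P := P ∪ Ab.biUnion nb) (Ab := Ab) (nb := nb) hx
    (union_subset hP fun e he => (hM e (mem_sdiff.1 (nS Ab Subset.rfl he)).1).1)
    (fun e he => (mem_union.1 he).elim (fun k => p1 e k ▸ hh e k) fun k =>
      p2 e (nS Ab Subset.rfl k) ▸ l1 e (mem_sdiff.1 (nS Ab Subset.rfl k)).1)
    (fun j hj => (subset_biUnion_of_mem nb hj).trans subset_union_right)
    fun S hS => by
      obtain ⟨f, f1, f2, f3⟩ := lt2 (B := S.biUnion nb) hx hD (fun e he => (hM e he).2)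
        Subset.rfl (fun e k1 k2 => absurd k2 (not_ins_of_cut k1)) hP h1
        (fun e he => Or.inl (hPO e he)) hh fun e he =>
          have k := mem_sdiff.1 (nS S hS he)
          ⟨(hM e k.1).1, k.2, Or.inl k.1⟩
      refine ⟨f, f1, (S.biUnion nb).filter fun e => 4 ≤ |f e|, ?_, fun e he k1 k2 => ?_⟩
      · rw [filter_false_of_mem (s := P) fun e he k1 => ?_, card_empty] at f3
        · have := card_biUnion_le_card_mul S nb 2 fun j hj => (hnb j (hS hj)).2
          omega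
        · have := mt (hh e he).2.1.1 (hPO e he)
          rw [← odd_abs, k1] at this
          exact this (by decide)
      · rcases mem_union.1 he with k | k
        · exact (f2 e k).trans (p1 e k).symm
        · obtain ⟨j, k3, k4⟩ := mem_biUnion.1 k
          have k5 := mem_biUnion.2 ⟨j, k1 j k3 k4, k4⟩
          have k6 := nS S hS k5
          have k7 := (mem_sdiff.1 k6).1
          have k8 : ¬ 4 ≤ |f e| := fun k9 => k2 (mem_filter.2 ⟨k5, k9⟩)
          obtain ⟨-, m1, m2⟩ := f1.2 e (cut_sub_tch (hM e k7).1)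
          have m3 := (ZMod.intCast_eq_intCast_iff' _ _ 3).1 (m2.trans (l1 e k7).2.2.symm)
          have m4 := mt m1.1 (hM e k7).2
          have m5 := l2 e k7
          rw [Int.odd_iff] at m4
          rw [p2 e k6]
          push_cast at m3
          rcases abs_cases (f e) with k | k <;> rcases abs_cases (lo e) with k' | k' <;> omega
  refine ⟨f, f1, fun e he => ?_, fun j hj => ?_⟩
  · refine ((t2 e (mem_union_left _ he)).resolve_right ?_).trans (p1 e he)
    rintro ⟨j, k1, k2⟩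
    exact (mem_sdiff.1 ((hnb j k1).1 (t1 j k1 e k2))).2 he
  · have k : ∀ e ∈ nb j, |f e| = 4 → τ j = some e := fun e he k1 => by
      have k2 := (hnb j hj).1 he
      rcases t2 e (mem_union_right _ (mem_biUnion.2 ⟨j, hj, he⟩)) with k3 | ⟨j', k3, k4⟩
      · rw [k3, p2 e k2, l2 e (mem_sdiff.1 k2).1] at k1
        omega
      · by_cases k5 : j = j'
        · exact k5 ▸ k4
        · exact absurd (t1 j' k3 e k4) (disjoint_left.1 (hdj j hj j' k3 k5) he)
    exact fun e he e' he' k1 k2 => Option.some.inj ((k e he k1).symm.trans (k e' he' k2))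

end SG

end Pool.Agent.Work.MP_8c679b_co
end

-- merged part: Pool.Agent.Work.MP_8c679b_co.Top.LAsm
section
/-!
From a final state to a six-flow.
-/

set_option autoImplicit false

namespace Pool.Agent.Work.MP_8c679b_co

open Finset

namespace SG

variable {V E : Type} [Fintype V] [DecidableEq V] [DecidableEq E] {G : SG V E}
  {Y : Finset V} {TN Hh : Finset (Finset V)} {O : Finset E} {φ : E → ZMod 3}

omit [Fintype V] in
theorem LAsm_three {A B C : Finset V} {e : E} (h1 : Disjoint A B) (h2 : Disjoint A C)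
    (h3 : Disjoint B C) (ha : e ∈ G.tch A) (hb : e ∈ G.tch B) : e ∉ G.tch C := fun hc => by
  have a1 := @disjoint_left.1 h1
  have a2 := @disjoint_left.1 h2
  have a3 := @disjoint_left.1 h3
  rcases (mem_tch.1 ha).2 with k1 | k1 <;> rcases (mem_tch.1 hb).2 with k2 | k2 <;>
    rcases (mem_tch.1 hc).2 with k3 | k3
  exacts [a1 k1 k2, a1 k1 k2, a2 k1 k3, a3 k2 k3, a3 k2 k3, a2 k1 k3, a1 k1 k2, a1 k1 k2]

theorem LAsm_lv (hc : G.Cub) (h : G.Fs Y TN Hh O φ) {l : V} (hl : G.Lv l) :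
    Disjoint {l} Y ∧ ∀ N ∈ TN ∪ Hh, Disjoint {l} N := by
  refine ⟨disjoint_singleton_left.2 fun k => h.nl l k hl, fun N hN => disjoint_singleton_left.2 ?_⟩
  rcases mem_union.1 hN with k | k
  · obtain ⟨m, k1, k2, k3⟩ := hl
    exact fun k4 => (h.tn N k).1.1.noloop hc (mem_tch.2 ⟨k1, Or.inl (k2 ▸ k4)⟩) (k2.trans k3.symm)
  · exact Def6_lv hc hl (h.hh N k).1

/-- the prescribed edge and the values off `Y` -/
theorem LAsm_pre (hc : G.Cub) (hC : G.Con) (n1 : G.N1) (h : G.Fs Y TN Hh O φ) (i : Finset V → E)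
    (hi : ∀ T ∈ TN, i T ∈ G.cut T) (e0 : E) {c : ℤ} (hc0 : c = 2 ∨ c = 4) :
    ∃ (P : Finset E) (x z : E → ℤ), P ⊆ G.cut Y ∧ P.card ≤ 1 ∧ (∀ e ∈ P, e ∉ O ∧ Av O φ e (x e)) ∧
      (∀ e, z e = 4 ∨ z e = -2) ∧
      (G.Brg e0 → (e0 ∈ P ∧ |x e0| = c) ∨ (e0 ∉ G.tch Y ∧ |z e0| = c)) ∧
      ∀ T ∈ TN, ∀ e ∈ G.cut T, (e ∈ P → |x e| = 2) ∧ (z e = 4 → e ≠ i T →
        ∀ e' ∈ G.cut T, e' ≠ i T → e' ≠ e → e' ∈ P ∨ (e' ∉ G.tch Y ∧ z e' = -2)) := by
  by_cases hb : G.Brg e0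
  swap
  · exact ⟨∅, 0, fun _ => -2, empty_subset _, by simp, by simp, fun _ => Or.inr rfl,
      fun k => absurd k hb, by simp⟩
  obtain ⟨l, hl, a1⟩ := brg_lv hc hC n1 hb
  have a2 : e0 ∈ G.cut {l} := a1 ▸ mem_singleton_self e0
  obtain ⟨a3, a4⟩ := LAsm_lv hc h hl
  rcases h.lv l hl e0 a2 with ⟨k1, k2⟩ | k1
  · obtain ⟨x, k3, k4⟩ := av_exists k2 (h.sl.2.1 e0 k1 k2) hc0
    refine ⟨{e0}, fun _ => x, fun _ => -2, singleton_subset_iff.2
      (Ab_link a3 (cut_sub_tch a2) k1).2, by simp, fun e he => mem_singleton.1 he ▸ ⟨k2, k3⟩,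
      fun _ => Or.inr rfl, fun _ => Or.inl ⟨mem_singleton_self _, k4⟩,
      fun T hT e he => ⟨fun k => ?_, by simp⟩⟩
    rw [mem_singleton.1 k] at he
    exact absurd k1 (LAsm_three (a4 T (mem_union_left _ hT)) a3 (h.out T (mem_union_left _ hT))
      (cut_sub_tch a2) (cut_sub_tch he))
  obtain ⟨T0, t1, t2⟩ := mem_biUnion.1 k1
  have t0 := mem_union_left Hh t1
  have a5 : e0 ∉ G.tch Y := LAsm_three (a4 T0 t0) a3 (h.out T0 t0) (cut_sub_tch a2) (cut_sub_tch t2)
  have a6 : ∀ T ∈ TN, e0 ∈ G.cut T → T = T0 := fun T hT k => by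
    by_contra k2
    exact LAsm_three (a4 T (mem_union_left _ hT)) (a4 T0 t0) (h.pd T (mem_union_left _ hT) T0 t0 k2)
      (cut_sub_tch a2) (cut_sub_tch k) (cut_sub_tch t2)
  have lo : ∀ e ∈ G.cut T0 ∩ G.tch Y, ∃ x, Av O φ e x ∧ |x| = 2 := fun e he =>
    have k := (h.tn T0 t1).2.2 e (mem_inter.1 he).1 (mem_inter.1 he).2
    av_exists k (h.sl.2.1 e (mem_inter.1 he).2 k) (Or.inl rfl)
  choose! x x1 x2 using lo
  have z1 : ∀ e, (if e = e0 ∧ c = 4 then 4 else -2 : ℤ) = 4 → e = e0 := fun e k => by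
    by_contra k2
    rw [if_neg fun k3 => k2 k3.1] at k
    exact absurd k (by decide)
  obtain ⟨P, p1, p2, p3⟩ : ∃ P ⊆ G.cut T0 ∩ G.tch Y, P.card ≤ 1 ∧ (e0 ≠ i T0 →
      ∀ e ∈ G.cut T0, e ≠ i T0 → e ≠ e0 → e ∈ G.tch Y → e ∈ P) := by
    by_cases k : e0 = i T0
    · exact ⟨∅, empty_subset _, by simp, fun k2 => absurd k k2⟩
    · refine ⟨((G.cut T0).erase (i T0)).erase e0 ∩ G.tch Y,
        inter_subset_inter_right ((erase_subset _ _).trans (erase_subset _ _)),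
        (card_le_card inter_subset_left).trans ?_, fun _ e k1 k2 k3 k4 => by simp [*]⟩
      rw [card_erase_of_mem (mem_erase.2 ⟨k, t2⟩), card_erase_of_mem (hi T0 t1),
        (h.tn T0 t1).1.2.1]
  refine ⟨P, x, fun e => if e = e0 ∧ c = 4 then 4 else -2, fun e he => (Ab_link (h.out T0 t0)
    (cut_sub_tch (mem_inter.1 (p1 he)).1) (mem_inter.1 (p1 he)).2).2, p2, fun e he =>
      ⟨(h.tn T0 t1).2.2 e (mem_inter.1 (p1 he)).1 (mem_inter.1 (p1 he)).2, x1 e (p1 he)⟩,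
    fun e => by beta_reduce; split_ifs <;> simp, fun _ => Or.inr ⟨a5, ?_⟩,
    fun T hT e he => ⟨fun k => x2 e (p1 k), fun k2 k3 e' k4 k5 k6 => ?_⟩⟩
  · rcases hc0 with rfl | rfl <;> simp
  · obtain rfl := z1 e k2
    obtain rfl := a6 T hT he
    by_cases k7 : e' ∈ G.tch Y
    · exact Or.inl (p3 k3 e' k4 k5 k6 k7)
    · exact Or.inr ⟨k7, if_neg fun k8 => k6 k8.1⟩

theorem fs_six (hc : G.Cub) (hA : G.Adm1) (hC : G.Con) (n1 : G.N1)
    (h : G.Fs Y TN Hh O φ) : G.Six := by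
  classical
  intro e0 c hc0
  have hx : G.Lx Y O φ := ⟨hc, h.act, fun e he k => h.nl (G.s e)
    ((mem_tch.1 he).2.elim id fun k1 => k ▸ k1) ⟨e, (mem_tch.1 he).1, rfl, k.symm⟩, h.oa, h.ev, h.sl⟩
  have pr := fun T hT => (h.tn T hT).2.1 (fun e => if e ∈ G.tch Y then φ e else 1) fun e he => by
    split_ifs with k
    exacts [h.sl.2.1 e k ((h.tn T hT).2.2 e he k), one_ne_zero]
  have : Nonempty E := ⟨e0⟩
  choose! i i1 i2 using pr
  obtain ⟨P, x, z, p1, p2, p3, p4, p5, p6⟩ := LAsm_pre hc hC n1 h i i1 e0 hc0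
  obtain ⟨f, f1, f2, f3⟩ := top_lift (h := x) (Ab := TN)
    (nb := fun T => (G.cut T ∩ G.cut Y).erase (i T) \ P) hx h.dl
    (fun e he => by
      obtain ⟨T, k1, k2⟩ := mem_biUnion.1 (mem_inter.1 he).2
      exact ⟨(mem_inter.1 he).1, (h.tn T k1).2.2 e k2 (cut_sub_tch (mem_inter.1 he).1)⟩)
    p1 p2 (fun e he => (p3 e he).1) (fun e he => (p3 e he).2)
    (fun T hT => ⟨sdiff_subset_sdiff (fun e he => by
      obtain ⟨k1, k2⟩ := mem_inter.1 (mem_of_mem_erase he)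
      exact mem_inter.2 ⟨k2, mem_biUnion.2 ⟨T, hT, k1⟩⟩) Subset.rfl, by
      refine (card_le_card (sdiff_subset.trans (erase_subset_erase _ inter_subset_left))).trans ?_
      rw [card_erase_of_mem (i1 T hT), (h.tn T hT).1.2.1]⟩)
    fun T hT T' hT' k => disjoint_left.2 fun e k1 k2 => by
      obtain ⟨k3, k4⟩ := mem_inter.1 (mem_of_mem_erase (mem_sdiff.1 k1).1)
      exact LAsm_three (h.pd T (mem_union_left _ hT) T' (mem_union_left _ hT') k)
        (h.out T (mem_union_left _ hT)) (h.out T' (mem_union_left _ hT')) (cut_sub_tch k3)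
        (cut_sub_tch (mem_inter.1 (mem_of_mem_erase (mem_sdiff.1 k2).1)).1) (cut_sub_tch k4)
  obtain ⟨g, g1, g2⟩ : ∃ g : E → ℤ, (∀ e ∈ G.tch Y, g e = f e) ∧ ∀ e ∉ G.tch Y, g e = z e :=
    ⟨fun e => if e ∈ G.tch Y then f e else z e, fun e he => if_pos he, fun e he => if_neg he⟩
  have g3 : ∀ e, g e ≠ 0 ∧ |g e| ≤ 5 := fun e => by
    by_cases k : e ∈ G.tch Y
    · exact g1 e k ▸ ⟨(f1.2 e k).ne_zero (h.sl.2.1 e k), (f1.2 e k).1⟩
    · rw [g2 e k]
      rcases p4 e with k1 | k1 <;> rw [k1] <;> decide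
  have g4 : ∀ e, (e ∈ G.tch Y → e ∉ O) → |g e| = 2 ∨ |g e| = 4 := fun e he => by
    by_cases k : e ∈ G.tch Y
    · have k1 := mt (f1.2 e k).2.1.1 (he k)
      have k2 := g3 e
      rw [Int.odd_iff, ← g1 e k] at k1
      rcases abs_cases (g e) with k3 | k3 <;> omega
    · rw [g2 e k]
      rcases p4 e with k1 | k1 <;> rw [k1] <;> decide
  have hm : ∀ N, N ∈ univ.filter (fun N : Finset V => N ∈ TN ∪ Hh ∨ ∃ l, G.Lv l ∧ N = {l}) ↔
      N ∈ TN ∪ Hh ∨ ∃ l, G.Lv l ∧ N = {l} := fun N => by simp only [mem_filter, mem_univ, true_and]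
  obtain ⟨f', q1, q2⟩ := glue_fam (G := G) (h := g)
    (Ps := univ.filter fun N : Finset V => N ∈ TN ∪ Hh ∨ ∃ l, G.Lv l ∧ N = {l})
    (fun N hN N' hN' k => by
      rcases (hm N).1 hN with k1 | ⟨l, k1, rfl⟩ <;> rcases (hm N').1 hN' with k2 | ⟨l', k2, rfl⟩
      exacts [h.pd N k1 N' k2 k, ((LAsm_lv hc h k2).2 N k1).symm, (LAsm_lv hc h k1).2 N' k2,
        disjoint_singleton.2 fun k3 => k (k3 ▸ rfl)])
    (fun N hN => by
      rcases (hm N).1 hN with k1 | ⟨l, k1, rfl⟩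
      · rcases mem_union.1 k1 with hT | hH
        · refine i2 N hT g (fun e he => ⟨g4 e ((h.tn N hT).2.2 e he), ?_⟩)
            fun e he e' he' k2 k3 k4 k5 => ?_
          · split_ifs with k
            · rw [g1 e k, (f1.2 e k).2.2]
            · rw [g2 e k]
              rcases p4 e with k2 | k2 <;> rw [k2] <;> decide
          have a1 : ∀ e ∈ G.cut N, |g e| = 4 → e ∉ P := fun e he k k' => by
            have := (p6 N hT e he).1 k'
            rw [g1 e (cut_sub_tch (p1 k')), f2 e k'] at k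
            omega
          have a2 : ∀ e ∈ G.cut N, ∀ e' ∈ G.cut N, e ≠ i N → e' ≠ i N → |g e| = 4 → |g e'| = 4 →
              e' ≠ e → e ∈ G.tch Y := fun e he e' he' k2 k3 k4 k5 k6 => by
            by_contra k
            rw [g2 e k] at k4
            rcases (p6 N hT e he).2 ((p4 e).resolve_right fun k7 => by
              rw [k7] at k4
              exact absurd k4 (by decide)) k2 e' he' k3 k6 with k7 | ⟨k7, k8⟩
            · exact a1 e' he' k5 k7
            · rw [g2 e' k7, k8] at k5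
              exact absurd k5 (by decide)
          by_contra k6
          have a3 := a2 e he e' he' k2 k3 k4 k5 (Ne.symm k6)
          have a4 := a2 e' he' e he k3 k2 k5 k4 k6
          have a5 : ∀ e ∈ G.cut N, e ≠ i N → |g e| = 4 → e ∈ G.tch Y →
              e ∈ (G.cut N ∩ G.cut Y).erase (i N) \ P := fun e he k k' k'' =>
            mem_sdiff.2 ⟨mem_erase.2 ⟨k, mem_inter.2
              ⟨he, (Ab_link (h.out N k1) (cut_sub_tch he) k'').2⟩⟩, a1 e he k'⟩
          exact k6 (f3 N hT e (a5 e he k2 k4 a3) e' (a5 e' he' k3 k5 a4) (g1 e a3 ▸ k4)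
            (g1 e' a4 ▸ k5))
        · obtain ⟨hD, h6, h4, ⟨e', h9, h10⟩, e, h7, h8⟩ := h.hh N hH
          obtain ⟨-, -, -, -, a, b, -, -, -, -, -, -, -, hab, -⟩ := hD.str hc
          have ha : a ∈ G.cut N := by rw [hab]; simp
          have hb : b ∈ G.cut N := by rw [hab]; simp
          have av : ∀ e ∈ G.cut N, Av O φ e (g e) := fun e he => g1 e (h4 he) ▸ f1.2 e (h4 he)
          refine hD.ext hc hab (fun e _ => g3 e) (((av a ha).2.1.2 (h6 ha)).add_odd
            ((av b hb).2.1.2 (h6 hb))) fun hh => ?_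
          have h11 := (av e h7).not_three h8
          have h12 := (av e' h9).three (h6 h9) h10
          rw [hab] at h7 h9
          simp only [mem_insert, mem_singleton] at h7 h9
          rcases h7 with rfl | rfl <;> rcases h9 with rfl | rfl <;> omega
      · refine k1.ext hc hA (fun e _ => g3 e) fun e he => ?_
        have k2 := g4 e fun k => (h.lv l k1 e he).elim (fun k3 => k3.2) fun k3 => by
          obtain ⟨T, k4, k5⟩ := mem_biUnion.1 k3
          exact (h.tn T k4).2.2 e k5 k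
        rw [Int.even_iff]
        rcases abs_cases (g e) with k3 | k3 <;> omega)
    (fun v hv => by
      by_cases h1 : v ∈ Y
      · exact (bd_congr fun e he ha => g1 e (Cut_tch he ha h1)).trans (f1.1 v h1)
      have h3 : v ∉ G.vs G.A := fun a => by
        rcases (h.cov v a).resolve_left h1 with ⟨N, k1, k2⟩ | k1
        · exact hv N ((hm N).2 (Or.inl k1)) k2
        · exact hv {v} ((hm _).2 (Or.inr ⟨v, k1, rfl⟩)) (mem_singleton_self v)
      rw [bd_congr (g := fun _ => 0) fun e he hat => absurd (mem_vs.2 ⟨e, he, hat⟩) h3]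
      simp [bd])
    fun e _ _ => g3 e
  refine ⟨f', q1, fun hb => ?_⟩
  obtain ⟨l, hl, a1⟩ := brg_lv hc hC n1 hb
  have a2 : e0 ∈ G.cut {l} := a1 ▸ mem_singleton_self e0
  rw [q2 e0 fun N hN k => ?_]
  · rcases p5 hb with ⟨k1, k2⟩ | ⟨k1, k2⟩
    · rw [g1 e0 (cut_sub_tch (p1 k1)), f2 e0 k1, k2]
    · rw [g2 e0 k1, k2]
  · rcases (hm N).1 hN with k1 | ⟨l', k1, rfl⟩
    · exact not_ins_of_cut (Ab_link ((LAsm_lv hc h hl).2 N k1) (cut_sub_tch a2)
        (ins_sub_tch k)).2 k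
    · obtain ⟨-, k2, k3⟩ := mem_ins.1 k
      have k4 := (mem_cut.1 a2).2
      rw [mem_singleton.1 k2, mem_singleton.1 k3] at k4
      exact k4 Iff.rfl

end SG

end Pool.Agent.Work.MP_8c679b_co
end
end
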