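import Pool.Agent.Work.MP_8c679b_co.A3.E5
import Pool.Agent.Work.MP_8c679b_co.Key.MB4
import Pool.Agent.Work.MP_8c679b_co.Key.IH
import Pool.Agent.Work.MP_8c679b_co.A3.DF4
import Pool.Agent.Work.MP_8c679b_co.A3.GA2
import Pool.Agent.Work.MP_8c679b_co.Top.LRad
import Pool.Agent.Work.MP_8c679b_co.ND.Main

-- merged part: Pool.Agent.Work.MP_8c679b_co.A3.Z5
section
-- merged part: Pool.Agent.Work.MP_8c679b_co.A3.CE1
section
/-!
Closing a ring inside a four-side all of whose leaving edges are dead.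
-/

set_option autoImplicit false

namespace Pool.Agent.Work.MP_8c679b_co

open Finset

namespace SG

variable {V E : Type} [Fintype V] [DecidableEq V] [DecidableEq E] (G : SG V E)

/-- no two edges of `D` are joined inside `W` -/
def Sepd (W : Finset V) (D : Finset E) : Prop :=
  ∀ e ∈ G.cut W, ∀ f ∈ G.cut W, e ∈ D → f ∈ D → G.Rch (G.ins W) (G.ie W e) (G.ie W f) → e = f

/-- the side `B` is a seed -/
def S4 (B : Finset V) : Prop :=
  (∃ O v, G.par O = 1 ∧ G.Abs0 B O ∅ (G.Kv B v)) ∧ ∃ O, G.Abs0 B O ∅ (G.Kus B)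

variable {G} {T B W X X0 X2 M M1 M2 : Finset V} {Bs : Finset (Finset V)} {O O0 O2 D Z : Finset E}
  {K K0 : Set (Finset E)} {v v0 : V} {a b c d e0 e1 e2 e3 : E} {s0 s2 : ZMod 2}

theorem Eh.eb_s4 (h : G.Eh T Bs v0) (hB : B ∈ Bs) (p : G.S4 B) : G.Eb Bs B ∅ := by
  obtain ⟨-, k1, k2⟩ := h.ea_box hB
  obtain ⟨⟨O, v, p1, p2⟩, O', p3⟩ := p
  exact ⟨⟨O, v, p1, (k2 v).symm ▸ p2⟩, _, O', rfl, k1.symm ▸ p3⟩

theorem s4_odd (h : G.Abs0 B O ∅ (G.Kus B)) (ho : G.par O = 1) (v : V) : G.S4 B :=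
  ⟨⟨O, v, ho, h.cov fun t ht => Or.inl ⟨t, kv_sub ht, Subset.rfl⟩⟩, O, h⟩

/-- one dead edge per component is free -/
theorem abs_sep (h : G.Abs0 W O (G.cut W) K) (hg : G.Sepd W D) : G.Abs0 W O (G.cut W \ D) K := by
  classical
  refine ⟨h.1, fr_sub_tch, fun ψ hψ _ => ?_⟩
  obtain ⟨φ, hφ⟩ := h.2.sl
  let Y := W.filter fun x => ∃ e ∈ G.cut W, e ∈ D ∧ φ e ≠ ψ e ∧ G.Rch (G.ins W) (G.ie W e) x
  have hY : ∀ e ∈ G.tch Y, ∀ v ∈ W, G.At e v → v ∈ Y := fun e he v hv ha => by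
    obtain ⟨k1, f, f1, f2, f3, f4⟩ := mem_filter.1 (ie_mem he)
    refine mem_filter.2 ⟨hv, f, f1, f2, f3, ?_⟩
    by_cases k : e ∈ G.cut W
    · rwa [eq_ie k hv ha, ← eq_ie k k1 ie_at]
    · exact f4.trans (rch_at ((mem_tch_iff.1 (tch_mono (filter_subset _ _) he)).resolve_right k)
        ie_at ha)
  refine ⟨fun e => if e ∈ G.tch W then if e ∈ G.tch Y then -φ e else φ e else ψ e, fun e he => ?_,
    (hφ.negOn hY).congr (fun e he => if_pos he) fun _ _ => Iff.rfl⟩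
  by_cases k : e ∈ G.tch W
  swap
  · exact if_neg k
  have k1 : e ∉ G.ins W := fun r => he (mem_union_left _ r)
  have k2 := (mem_tch_iff.1 k).resolve_left k1
  have k3 : e ∈ D := by_contra fun r =>
    he (mem_union_right _ (mem_inter.2 ⟨k2, mem_sdiff.2 ⟨k2, r⟩⟩))
  refine (if_pos k).trans ?_
  split_ifs with r
  · obtain ⟨-, f, f1, f2, f3, f4⟩ := mem_filter.1 (ie_mem r)
    rw [(cut_of_sub (filter_subset _ _) k2 r).2] at f4
    obtain rfl : f = e := hg _ f1 _ k2 f2 k3 f4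
    exact (Ab_sgn _ _ (hφ.2.1 f k (h.not_mem k1)) (hψ f k he (h.not_mem k1))).resolve_left f3
  · exact by_contra fun q => r (Cut_tch (mem_cut.1 k2).1 ie_at
      (mem_filter.2 ⟨ie_mem k, e, k2, k3, q, Rch.refl _ _⟩))

/-- finishing by a balanced rest -/
theorem ce_fin (hc : G.Cub) (hT : G.HT T) (hB : B ⊆ T) (hX : X ⊆ B) (h : G.Abs0 X O ∅ K)
    (hb : G.Bal (G.ins (B \ X))) (hg : G.Sepd (B \ X) (G.cut B)) (ha : a ∈ G.cut B)
    (hK : ∀ t ∈ K0, t ∈ K ∨ t = G.cut B) : ∃ O', G.par O' = G.par O ∧ G.Abs0 B O' ∅ K0 := by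
  obtain ⟨O1, k1, k2⟩ := (par_all hc hT (B \ X) (sdiff_subset.trans hB)).1 ∅ vd_empty 0
    (Or.inr (nu_bal hb).1.symm)
  obtain ⟨h1, h2⟩ := (abs_sep k2 hg).seq (L := ∅) h sdiff_disjoint
    (fun e k => absurd k (notMem_empty e)) (fun e k _ => Or.inl (by
      obtain ⟨r1, r2⟩ := mem_sdiff.1 k
      exact (PQ_rest r1).resolve_right fun r => r2 r.1)) fun e k => absurd k (notMem_empty e)
  rw [sdiff_union_of_subset hX] at h1
  refine ⟨_, by rw [h2, k1, zero_add], h1.cov fun t ht => (hK t ht).imp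
    (fun k => ⟨t, Or.inr k, Subset.rfl⟩) fun k => ?_⟩
  exact ⟨a, k ▸ ha, cut_sub_tch ha, h1.not_mem (not_ins_of_cut ha)⟩

/-- no box: an odd circuit with a balanced rest -/
theorem ce_odd (hc : G.Cub) (hT : G.HT T) (hB : B ⊆ T) (hZ : Z ⊆ G.ins B) (cZ : G.Cc Z)
    (ho : G.par Z = 1) (hb : G.Bal (G.ins (B \ G.vs Z))) (hg : G.Sepd (B \ G.vs Z) (G.cut B))
    (ha : a ∈ G.cut B) (hK : ∀ S ⊆ B, G.US S → S = B) : G.S4 B := by
  obtain ⟨O, k1, k2⟩ := ce_fin (K0 := G.Kus B) hc hT hB (sub_ins_iff.1 hZ).2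
    (pure_odd (hZ.trans ins_sub_A) cZ ho).2.2 hb hg ha
    fun t ⟨S, r1, r2, r3⟩ => Or.inr (hK S r1 r2 ▸ r3)
  exact s4_odd k2 (k1.trans ho) (G.s a)

theorem CE1_z : ∀ a b c x : ZMod 2, x + 1 = a + b + c + x + (1 + a + b + c) ∧
    (1 + a + b + c + x) + 1 = a + b + c + x ∧ 1 = a + b + c + (1 + a + b + c + x) + x := by
  decide

/-- a ring with two boxes, the second one is passed by `P s` -/
theorem CE1_ring {O1 O3 : Finset E} {K1 : Set (Finset E)} {s : ZMod 2} (hc : G.Cub) (hT : G.HT T)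
    (hB : B ⊆ T) (h0 : G.Pas0 X0 O0 e0 e1 ∅ ∅ (Rl.P s0)) (h2 : G.Pas0 X2 O2 e2 e3 ∅ ∅ (Rl.P s2))
    (h1 : G.Pas0 M1 O1 e1 e2 ∅ K1 (Rl.Mt (s0 + s2 + (G.n e0 + G.n e1 + G.n e2 + G.n e3) + s)))
    (h3 : G.Pas0 M2 O3 e3 e0 ∅ K (Rl.P s)) (d01 : Disjoint X0 M1) (d02 : Disjoint X0 X2)
    (d03 : Disjoint X0 M2) (d12 : Disjoint M1 X2) (d13 : Disjoint M1 M2) (d23 : Disjoint X2 M2)
    (hX : X0 ∪ M1 ∪ X2 ∪ M2 ⊆ B) (hb : G.Bal (G.ins (B \ (X0 ∪ M1 ∪ X2 ∪ M2))))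
    (hg : G.Sepd (B \ (X0 ∪ M1 ∪ X2 ∪ M2)) (G.cut B)) (ha : a ∈ G.cut B)
    (hK : ∀ t ∈ K0, t ∈ K1 ∨ t ∈ K ∨ t = G.cut B) :
    ∃ O', G.par O' = G.par (O0 ∩ G.ins X0) + G.par (O2 ∩ G.ins X2) +
      (G.n e0 + G.n e1 + G.n e2 + G.n e3) + G.par (O1 ∩ G.ins M1) + G.par (O3 ∩ G.ins M2) ∧
      G.Abs0 B O' ∅ K0 := by
  obtain ⟨O, k1, k2⟩ := y_ring4 h3 h0 h1 h2 d03.symm d13.symm d23.symm d01 d02 d12
    fun R0 R1 R2 R3 r0 r1 r2 r3 => Rl.y4_mt r0 r1 r2 r3 (by ring)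
  have e : M2 ∪ X0 ∪ M1 ∪ X2 = X0 ∪ M1 ∪ X2 ∪ M2 := by ac_rfl
  rw [e] at k1
  obtain ⟨O', k3, k4⟩ := ce_fin (K0 := K0) hc hT hB hX k1 hb hg ha fun t ht => by
    rcases hK t ht with r | r | r
    · exact Or.inl (Or.inl (Or.inr r))
    · exact Or.inl (Or.inl (Or.inl (Or.inl r)))
    · exact Or.inr r
  exact ⟨O', by rw [k3, k2]; ring, k4⟩

/-- A ring with two boxes that are passed completely; `X0, X2` are passed by real paths. -/
theorem ce_two (hc : G.Cub) (hT : G.HT T) (hB : B ⊆ T)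
    (h0 : G.Pas0 X0 O0 e0 e1 ∅ ∅ (Rl.P s0)) (p0 : G.par (O0 ∩ G.ins X0) = s0)
    (h2 : G.Pas0 X2 O2 e2 e3 ∅ ∅ (Rl.P s2)) (p2 : G.par (O2 ∩ G.ins X2) = s2)
    (n1 : G.BNu M1 e1 e2) (n3 : G.BCt M2 e3 e0) (d01 : Disjoint X0 M1) (d02 : Disjoint X0 X2)
    (d03 : Disjoint X0 M2) (d12 : Disjoint M1 X2) (d13 : Disjoint M1 M2) (d23 : Disjoint X2 M2)
    (hX : X0 ∪ M1 ∪ X2 ∪ M2 ⊆ B) (hb : G.Bal (G.ins (B \ (X0 ∪ M1 ∪ X2 ∪ M2))))
    (hg : G.Sepd (B \ (X0 ∪ M1 ∪ X2 ∪ M2)) (G.cut B)) (ha : a ∈ G.cut B)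
    (hK : ∀ S ⊆ B, G.US S → S = B ∨ S ⊆ M1 ∨ S ⊆ M2) : G.S4 B := by
  have c1 : ∀ v, ∀ t ∈ G.Kv B v, t ∈ G.Kv M1 v ∨ t ∈ G.Kus M2 ∨ t = G.cut B := by
    rintro v t ⟨S, r1, r2, r3, rfl⟩
    rcases hK S r1 r2 with r | r | r
    exacts [Or.inr (Or.inr (r ▸ rfl)), Or.inl ⟨S, r, r2, r3, rfl⟩, Or.inr (Or.inl ⟨S, r, r2, rfl⟩)]
  have c2 : ∀ v, ∀ t ∈ G.Kv B v, t ∈ G.Kv M2 v ∨ t ∈ G.Kus M1 ∨ t = G.cut B := by
    rintro v t ⟨S, r1, r2, r3, rfl⟩
    rcases hK S r1 r2 with r | r | r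
    exacts [Or.inr (Or.inr (r ▸ rfl)), Or.inr (Or.inl ⟨S, r, r2, rfl⟩), Or.inl ⟨S, r, r2, r3, rfl⟩]
  have c3 : ∀ t ∈ G.Kus B, t ∈ G.Kus M1 ∨ t ∈ G.Kus M2 ∨ t = G.cut B := by
    rintro t ⟨S, r1, r2, rfl⟩
    rcases hK S r1 r2 with r | r | r
    exacts [Or.inr (Or.inr (r ▸ rfl)), Or.inl ⟨S, r, r2, rfl⟩, Or.inr (Or.inl ⟨S, r, r2, rfl⟩)]
  generalize hτ : G.n e0 + G.n e1 + G.n e2 + G.n e3 = τ
  have key := fun {O1 O3 K1 K K0 s} h1 h3 hK => CE1_ring (O1 := O1) (O3 := O3) (K1 := K1) (K := K)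
    (K0 := K0) (s := s) hc hT hB h0 h2 h1 h3 d01 d02 d03 d12 d13 d23 hX hb hg ha hK
  simp only [hτ, p0, p2] at key
  have mt : ∀ {O1 K1 s}, G.Pas0 M1 O1 e1 e2 ∅ K1 (Rl.P (1 + s0 + s2 + τ + s)) →
      G.Pas0 M1 O1 e1 e2 ∅ K1 (Rl.Mt (s0 + s2 + τ + s)) := fun {_ _ s} k =>
    k.imp fun R r => (CE1_z s0 s2 τ s).2.1 ▸ r.mt
  refine ⟨?_, ?_⟩
  · rcases n3.2 with ⟨s, O3, q1, q2⟩ | r
    · rcases n1.2 (1 + s0 + s2 + τ + s) with ⟨O1, q3, q4⟩ | r
      · obtain ⟨O', k1, k2⟩ := key (mt q4) q2 c3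
        exact ⟨O', G.s a, by rw [k1, q1, q3]; exact (CE1_z s0 s2 τ s).2.2.symm,
          k2.cov fun t ht => Or.inl ⟨t, kv_sub ht, Subset.rfl⟩⟩
      · obtain ⟨O1, v, -, q3, q4⟩ := r (1 + s0 + s2 + τ + s)
        rw [(CE1_z s0 s2 τ s).2.1] at q4
        obtain ⟨O', k1, k2⟩ := key q4 q2 (c1 v)
        exact ⟨O', v, by rw [k1, q1, q3]; exact (CE1_z s0 s2 τ s).2.2.symm, k2⟩
    · obtain ⟨O1, q1⟩ := n1.1 0
      obtain ⟨O3, v, -, q3, q4⟩ := r (1 + s0 + s2 + τ + 0)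
        (1 + s0 + s2 + τ + G.par (O1 ∩ G.ins M1))
      have e : X2 ∪ M2 ∪ X0 ∪ M1 = X0 ∪ M1 ∪ X2 ∪ M2 := by ac_rfl
      obtain ⟨O', k1, k2⟩ := CE1_ring (s := 0) hc hT hB h2 h0 (q4.imp fun R r => by
          rw [(CE1_z s0 s2 τ 0).2.1, ← hτ] at r
          exact (show s0 + s2 + (G.n e0 + G.n e1 + G.n e2 + G.n e3) + 0 =
            s2 + s0 + (G.n e2 + G.n e3 + G.n e0 + G.n e1) + 0 by ring) ▸ r)
        q1 d23 d02.symm d12.symm d03.symm d13.symm d01 (e ▸ hX) (e ▸ hb) (e ▸ hg) ha (c2 v)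
      refine ⟨O', v, ?_, k2⟩
      rw [k1, q3, p0, p2, ← hτ]
      linear_combination z2_add_self (s0 + s2 + G.n e0 + G.n e1 + G.n e2 + G.n e3 +
        G.par (O1 ∩ G.ins M1))
  · obtain ⟨s, O3, q2⟩ := n3.1
    obtain ⟨O1, q4⟩ := n1.1 (1 + s0 + s2 + τ + s)
    obtain ⟨O', -, k2⟩ := key (mt q4) q2 c3
    exact ⟨O', k2⟩

/-- every side has a pairing with complete passes of both signs -/
theorem ce_nu (hc : G.Cub) (hT : G.HT T) (hM : M ⊆ T) (hu : G.US M) (hq : G.Q4 M a b c d)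
    (hI : G.IHd M) :
    (M.card = 4 ∧ (G.BNu M a b ∨ G.BNu M a c ∨ G.BNu M a d)) ∨ (G.BNu M a b ∧ G.BNu M a c) ∨
      (G.BNu M a b ∧ G.BNu M a d) ∨ (G.BNu M a c ∧ G.BNu M a d) := by
  have q : ∀ {x y z : E}, G.Q4 M a x y z → G.Qd M a x → G.BNu M a x := fun k k' =>
    ⟨fun s => ((bx_qd hc hT hM hu k k').1 s).imp fun _ r => r.2,
      fun s => Or.inl ((bx_qd hc hT hM hu k k').1 s)⟩
  by_cases h4 : M.card = 4
  · exact Or.inl ⟨h4, (yh_qd hc hT hM hq h4).imp (q hq) (Or.imp (q hq.mid) (q hq.swap2.mid))⟩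
  have n : ∀ {x y z : E}, G.Q4 M a x y z → G.NC M a x → G.BNu M a x := fun k k' =>
    bx_nc hc hT hM hu k hI k'
  refine Or.inr ?_
  by_cases k1 : G.NC M a b
  · by_cases k2 : G.NC M a c
    · exact Or.inl ⟨n hq k1, n hq.mid k2⟩
    · obtain ⟨X, k⟩ := not_forall.1 k2
      exact Or.inr (Or.inl ⟨n hq k1,
        n hq.swap2.mid (cross_nc hc hT hM hq.mid (not_not.1 k) h4).2.1⟩)
  · obtain ⟨X, k⟩ := not_forall.1 k1
    have r := cross_nc hc hT hM hq (not_not.1 k) h4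
    exact Or.inr (Or.inr ⟨n hq.mid r.1, n hq.swap2.mid r.2.1⟩)

end SG

end Pool.Agent.Work.MP_8c679b_co
end

-- merged part: Pool.Agent.Work.MP_8c679b_co.A3.E6
section
/-!
Passes of the wrong parity on a ring.
-/

set_option autoImplicit false

namespace Pool.Agent.Work.MP_8c679b_co

open Finset

namespace SG

variable {V E : Type} [Fintype V] [DecidableEq V] [DecidableEq E] {G : SG V E}
  {T W W' X X' X1 X2 X3 Y N N2 N3 B : Finset V} {Bs H D M : Finset (Finset V)} {v0 v : V}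
  {O O' O2 O3 F L L1 L2 : Finset E} {K K' : Set (Finset E)} {a b c d a2 b2 c2 d2 a3 b3 c3 d3 : E}
  {ε ε1 ε2 g l s s2 π : ZMod 2} {C C' : Rl → Prop} {fr : Prop}
  {xf : Finset V → E → E → ZMod 2 → Finset V}

theorem E6a_top : T \ un T Bs ∅ = T := by
  simp [un]

/-- the rest after a ring whose boxes are passed completely -/
theorem E6a_rest (hX : un T Bs (H \ Bs) ⊆ X) (h1 : ∀ B ∈ Bs, B ∈ H → B ⊆ X) :
    ∀ v ∈ T \ X, nd Bs v ∉ H := by
  intro v hv k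
  obtain ⟨vT, vX⟩ := mem_sdiff.1 hv
  by_cases m : nd Bs v ∈ Bs
  · exact vX (h1 _ m k mem_nd_self)
  · exact vX (hX (mem_un.2 ⟨vT, mem_sdiff.2 ⟨k, m⟩⟩))

/-- closing a context whose rest is balanced -/
theorem E6a_fin (h : G.Eh T Bs v0) (hx : G.Ecx T Bs T N a b c d X O K (Rl.P l))
    (hs : s + 1 = l + G.n a + G.n b) (hl : G.par (O ∩ G.ins X) = l)
    (hp : G.Tp N N a b c d s (s + 1)) (hM : ∀ v ∈ T \ (X ∪ N), nd Bs v ∉ H)
    (hg : (G.quo T Bs).Goo (G.tq T) H) (ho : (G.quo T Bs).Ofr Bs H) : G.Rall T 0 1 := by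
  obtain ⟨O', v, -, p1, p2⟩ := hp
  have z : ∀ l x y : ZMod 2, 0 = l + (l + x + y) + (x + y) + 0 := by decide
  obtain ⟨O2, k1, k2⟩ := hx.fin_mt (g := 0) (v := v) h hs p2 Subset.rfl
    (bk_rg hx.q4 (Or.inl rfl) (inter_self _) subset_rfl) (h.gd2_goo sdiff_subset hM hg)
    (Or.inr (by rw [hl, p1, hs, (nu_bal (h.bal_ofr sdiff_subset hM ho)).1]; exact z _ _ _))
  exact h.rall ⟨O2, v, k1, k2⟩

/-- One box.  HINT: `Eh.cx0` with `D = ∅`, `Ecx.fin_mt`, `Eh.bal_ofr`. -/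
theorem Eh.pm_one (h : G.Eh T Bs v0) (hH : (G.quo T Bs).Cw H F) (hN : N ∈ Bs)
    (hq : G.Q4 N a b c d) (ha : a ∈ F) (hb : b ∈ F) (h1 : ∀ B ∈ Bs, B ∈ H → B = N)
    (hs : s = G.par F + 1) (hp : G.Tp N N a b c d s (s + 1))
    (hg : (G.quo T Bs).Goo (G.tq T) H) (ho : (G.quo T Bs).Ofr Bs H) : G.Rall T 0 1 := by
  obtain ⟨O, -, p1, cx⟩ := h.cx0 (D := ∅) hH (disjoint_empty_right _) hN hq ha hb h1 rfl
  rw [E6a_top] at cx
  have z : ∀ p x y : ZMod 2, p + 1 + 1 = p + x + y + x + y := by decide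
  exact E6a_fin h cx (hs ▸ z _ _ _) p1 hp (E6a_rest subset_union_left fun B k k' =>
    h1 B k k' ▸ subset_union_right) hg ho

theorem E6b_gd (h : G.Eh T Bs v0) (hg : (G.quo T Bs).Goo (G.tq T) (H \ Bs))
    (hX : un T Bs (H \ Bs) ⊆ X) : G.Gd2 T ((T \ un T Bs ∅) \ X) := by
  refine h.gd2_goo (sdiff_subset.trans sdiff_subset) (fun v hv hm => ?_) hg
  rw [mem_sdiff, mem_sdiff] at hv
  exact hv.2 (hX (mem_un.2 ⟨hv.1.1, hm⟩))

theorem E6b_rall (h : G.Eh T Bs v0) (hA : G.Ea1 Bs (T \ un T Bs ∅) (G.ins T) ε) :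
    G.Rall T ε 1 := by
  have e : T \ un T Bs ∅ = T := by
    ext v
    simp [mem_un]
  rw [e] at hA
  exact h.rall hA

theorem E6b_z2 : ∀ p x y t : ZMod 2, p + 1 + t + 1 = p + x + y + t + x + y ∧
    t + 1 = p + x + y + (p + 1 + t) + x + y ∧
    (0 : ZMod 2) = p + x + y + (p + 1 + t) + (t + 1) + (x + y) + 0 ∧ (p ≠ 0 → 0 = 1 + p) := by
  decide

/-- an odd circuit of the rest runs through the rung left in `N2` -/
theorem E6b_rung {Z : Finset E} (h : G.Eh T Bs v0) (hN2 : N2 ∈ Bs)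
    (hq2 : G.Q4 N2 a2 b2 c2 d2) (r2 : G.Rg N2 X2 c2 d2)
    (h1 : ∀ B ∈ Bs, B ∈ H → B = N ∨ B = N2) (ho : (G.quo T Bs).Ofr Bs H)
    (hZ : Z ∈ G.ocs ((T \ un T Bs ∅) \ (un T Bs (H \ Bs) ∪ X2 ∪ N))) : N2 \ X2 ⊆ G.vs Z := by
  obtain ⟨k1, -, k3⟩ := ocs_vs hZ
  obtain ⟨b1, b2, -⟩ := h.hy.bx N2 hN2
  have hm : ¬ Disjoint N2 (G.vs Z) := by
    intro hd
    have hB : G.Bal (G.ins (G.vs Z)) := by
      refine h.bal_ofr (k1.trans (sdiff_subset.trans sdiff_subset)) (fun v hv hm => ?_) ho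
      have hv' := k1 hv
      simp only [mem_sdiff, mem_union, not_or] at hv'
      by_cases hb : nd Bs v ∈ Bs
      · have hs : v ∈ nd Bs v := mem_nd_self
        rcases h1 _ hb hm with e | e
        · exact hv'.2.2 (e ▸ hs)
        · exact disjoint_left.1 hd (e ▸ hs) hv
      · exact hv'.2.1.1 (mem_un.2 ⟨hv'.1.1, mem_sdiff.2 ⟨hm, hb⟩⟩)
    have := k3 _ Subset.rfl
    rw [ocs_empty.2 hB] at this
    exact notMem_empty _ this
  have hsub : G.vs Z ⊆ T \ X2 := by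
    intro v hv
    have hv' := k1 hv
    simp only [mem_sdiff, mem_union, not_or] at hv' ⊢
    exact ⟨hv'.1.1, hv'.2.1.2⟩
  obtain ⟨z1, z2, -⟩ := mem_ocs.1 (k3 _ hsub)
  exact (rg_on h.hc h.hT.1 b1 b2 hq2 r2 z1 z2.2.1 hm).2.1

/-- Two free boxes.
HINT: sign `s2 = G.par F + 1 + s` at `N2`.  A local win at `N2`: `can_w`.  Else `Eh.cx1` with the
real pass of `N2` on `X2`, rest `W` (with the rung left in `N2`).  `Ecx.fin_mt` gives the parity
`nu W`.  If this is one, `can_w` or `can_r` at `N` gives `1 + nu W`; for `hno` an odd circuit of `W`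
meets `N2` (`Eh.bal_ofr`), so it contains the rung (`rg_on`). -/
theorem Eh.pm_two (h : G.Eh T Bs v0) (hx : G.PkA T xf) (hH : (G.quo T Bs).Cw H F) (hN : N ∈ Bs)
    (hq : G.Q4 N a b c d) (ha : a ∈ F) (hb : b ∈ F) (hN2 : N2 ∈ Bs) (hm2 : N2 ∈ H) (hne : N2 ≠ N)
    (h1 : ∀ B ∈ Bs, B ∈ H → B = N ∨ B = N2) (hp : G.Tp N N a b c d s (s + 1))
    (hg : (G.quo T Bs).Goo (G.tq T) (H \ Bs)) (ho : (G.quo T Bs).Ofr Bs H) : G.Rall T 0 1 := by
  obtain ⟨a2, b2, c2, d2, hq2, ha2, hb2⟩ := h.ring_q4 hN2 hH hm2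
  obtain ⟨n1, n2, -⟩ := h.hy.bx N hN
  obtain ⟨m1, m2, -⟩ := h.hy.bx N2 hN2
  obtain ⟨⟨X1, π, r1, -, p1⟩, hL⟩ := lp_free (hx N n1 n2 a b c d hq) s
  obtain ⟨-, hL2⟩ := lp_free (hx N2 m1 m2 a2 b2 c2 d2 hq2) (G.par F + 1 + s)
  have hD : Disjoint H (∅ : Finset (Finset V)) := disjoint_empty_right _
  rcases hL2 with ⟨X2, r2, -, p2, -⟩ | hw
  · obtain ⟨O, -, hO, hc⟩ := h.cx1 hH hD hN hq ha hb hN2 hne hq2 ha2 hb2 h1 r2 p2 rfl
    have hs := (E6b_z2 (G.par F) (G.n a) (G.n b) s).2.1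
    have g1 := E6b_gd (X := un T Bs (H \ Bs) ∪ X2 ∪ N) h hg
      (subset_union_left.trans subset_union_left)
    have g2 := E6b_gd (X := un T Bs (H \ Bs) ∪ X2) h hg subset_union_left
    refine E6b_rall h ?_
    by_cases hf : G.FH ((T \ un T Bs ∅) \ (un T Bs (H \ Bs) ∪ X2 ∪ N)) ∨
        G.nu ((T \ un T Bs ∅) \ (un T Bs (H \ Bs) ∪ X2 ∪ N)) = 0
    · obtain ⟨O', v, -, hO', hp'⟩ := hp
      obtain ⟨O2, e1, e2⟩ := Ecx.fin_mt (g := 0) h hc hs hp' Subset.rfl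
        (bk_rg hq (Or.inl rfl) (inter_self N) subset_rfl) g1 (hf.imp id fun k => by
          rw [hO, hO', k]
          exact (E6b_z2 (G.par F) (G.n a) (G.n b) s).2.2.1)
      exact ⟨O2, v, e1, e2⟩
    · rw [not_or] at hf
      rcases hL with hr | hw
      · refine can_r h hc hs hO hr g1 (fun _ => g2) (fun Z hZ _ hdj B hB _ hBX => ?_)
          (Or.inr ((E6b_z2 _ 0 0 0).2.2.2 hf.2))
        have hx2 : X2 ⊆ N2 := by
          rcases r2 with e | e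
          exacts [e.subset, e.1]
        obtain ⟨v, v1, v2⟩ := not_disjoint_iff.1 hBX
        have hB2 : B = N2 := by
          rcases mem_union.1 v2 with k | k
          · have k2 := (mem_sdiff.1 (mem_un.1 k).2).2
            rw [nd_of_mem h.hy.pd hB v1] at k2
            exact absurd hB k2
          · by_contra hn
            exact disjoint_left.1 (h.hy.pd B hB N2 hN2 hn) v1 (hx2 k)
        obtain ⟨Z', hZ'⟩ : (G.ocs ((T \ un T Bs ∅) \ (un T Bs (H \ Bs) ∪ X2 ∪ N))).Nonempty := by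
          rw [nonempty_iff_ne_empty]
          exact fun k => hf.2 (nu_bal (ocs_empty.1 k)).1
        have k1 := E6b_rung h hN2 hq2 r2 h1 ho hZ'
        rw [hB2]
        refine disjoint_left.2 fun u u1 u2 => ?_
        have u3 := (mem_sdiff.1 ((ocs_vs hZ).1 u2)).2
        exact disjoint_left.1 (hdj Z' hZ')
          (k1 (mem_sdiff.2 ⟨u1, fun k => u3 (mem_union_right _ k)⟩)) u2
      · exact can_w h hc hs hw g1 (fun _ => g2) 0
  · obtain ⟨O, -, -, hc⟩ := h.cx1 hH hD hN2 hq2 ha2 hb2 hN hne.symm hq ha hb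
      (fun B hB hm => (h1 B hB hm).symm) r1 p1 rfl
    exact E6b_rall h (can_w h hc (E6b_z2 (G.par F) (G.n a2) (G.n b2) s).1 hw
      (E6b_gd h hg (subset_union_left.trans subset_union_left))
      (fun _ => E6b_gd h hg subset_union_left) 0)

/-- two boxes that are passed completely -/
theorem Eh.pm_c (h : G.Eh T Bs v0) (hH : (G.quo T Bs).Cw H F) (hN : N ∈ Bs)
    (hq : G.Q4 N a b c d) (ha : a ∈ F) (hb : b ∈ F) (hN2 : N2 ∈ Bs) (hne : N2 ≠ N)
    (hq2 : G.Q4 N2 a2 b2 c2 d2) (ha2 : a2 ∈ F) (hb2 : b2 ∈ F)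
    (h1 : ∀ B ∈ Bs, B ∈ H → B = N ∨ B = N2) (hs : s + s2 = G.par F + 1)
    (hp : G.Tp N N a b c d s (s + 1)) (hz : G.Lz N a b c d s False)
    (hp2 : G.Lp N2 a2 b2 c2 d2 s2 False) (hg : (G.quo T Bs).Goo (G.tq T) H)
    (ho : (G.quo T Bs).Ofr Bs H) : G.Rall T 0 1 := by
  have z : ∀ s s2 p x y : ZMod 2, s + s2 = p + 1 → s + 1 = p + x + y + s2 + x + y := by decide
  rcases hp2.2 with ⟨X2, r, e, p, -⟩ | w
  · obtain rfl := e.resolve_left id
    obtain ⟨O, -, p1, cx⟩ := h.cx1 (D := ∅) hH (disjoint_empty_right _) hN hq ha hb hN2 hne hq2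
      ha2 hb2 h1 r p rfl
    rw [E6a_top] at cx
    refine E6a_fin h cx (z _ _ _ _ _ hs) p1 hp (E6a_rest
      (subset_union_left.trans subset_union_left) fun B k k' => ?_) hg ho
    rcases h1 B k k' with rfl | rfl
    exacts [subset_union_right, subset_union_right.trans subset_union_left]
  · obtain ⟨X, π, r, e, p⟩ := hz
    obtain rfl := e.resolve_left id
    obtain ⟨O, -, -, cx⟩ := h.cx1 (D := ∅) hH (disjoint_empty_right _) hN2 hq2 ha2 hb2 hN hne.symm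
      hq ha hb (fun B k k' => (h1 B k k').symm) r p rfl
    rw [E6a_top] at cx
    refine h.rall (can_w h cx (z _ _ _ _ _ (add_comm s s2 ▸ hs)) w (h.gd2_goo sdiff_subset
      (E6a_rest (subset_union_left.trans subset_union_left) fun B k k' => ?_) hg) False.elim 0)
    rcases h1 B k k' with rfl | rfl
    exacts [subset_union_right.trans subset_union_left, subset_union_right]

/-- The rule for rings through two terminals when there are at most two boxes.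
HINT: the ring is valid, so `Ha` gives `Ofr`; `goo_two`. -/
theorem Eh.pm (h : G.Eh T Bs v0) (hx : G.PkA T xf) (hA : (G.quo T Bs).Ha Bs (G.tq T))
    (h2 : Bs.card ≤ 2) (hH : (G.quo T Bs).Mr (G.tq T) a b H F) (hN : N ∈ Bs)
    (hq : G.Q4 N a b c d) (hs : s = G.par F + 1 ∨ ∃ B ∈ Bs, B ∈ H ∧ B ≠ N)
    (hp : G.Tp N N a b c d s (s + 1)) : G.Rall T 0 1 := by
  obtain ⟨cw, ⟨t, ht, t', ht', ne, m, m'⟩, ha, hb⟩ := hH
  have hm : N ∈ H := h.on_ring hN cw ha hq.mem.1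
  have ho : (G.quo T Bs).Ofr Bs H := fun D hD k =>
    hA H ⟨F, cw, Or.inr fun k' => disjoint_left.1 k' hm hN⟩ t ht t' ht' ne m m' D hD k.symm
  by_cases k : ∃ B ∈ Bs, B ∈ H ∧ B ≠ N
  · obtain ⟨B, hB, mB, nB⟩ := k
    refine h.pm_two hx cw hN hq ha hb hB mB nB (fun B' hB' _ => ?_) hp
      (goo_two h.tq3.1 ht ht' ne (mem_sdiff.2 ⟨m, disjoint_left.1 h.tq3.2 ht⟩)
        (mem_sdiff.2 ⟨m', disjoint_left.1 h.tq3.2 ht'⟩)) ho
    by_contra k
    push Not at k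
    exact absurd (two_lt_card_iff.2 ⟨B', N, B, hB', hN, hB, k.1, k.2, nB.symm⟩) (not_lt.2 h2)
  · refine h.pm_one cw hN hq ha hb (fun B hB mB => ?_) (hs.resolve_right k) hp
      (goo_two h.tq3.1 ht ht' ne m m') ho
    by_contra k'
    exact k ⟨B, hB, mB, k'⟩

end SG

end Pool.Agent.Work.MP_8c679b_co
end

-- merged part: Pool.Agent.Work.MP_8c679b_co.A3.ZF
section
/-!
The final configurations with an isolated box as a seed.
-/

set_option autoImplicit false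

namespace Pool.Agent.Work.MP_8c679b_co

open Finset

namespace SG

variable {V E : Type} [Fintype V] [DecidableEq V] [DecidableEq E] {G : SG V E}
  {T A B B1 : Finset V} {Bs H : Finset (Finset V)} {v0 : V} {F : Finset E} {a b c d x y : E}
  {ε s : ZMod 2} {xf : Finset V → E → E → ZMod 2 → Finset V}

/-- a local win on a ring through two terminals -/
theorem Eh.lw_ring (h : G.Eh T Bs v0) (hx : G.PkA T xf) (hH : (G.quo T Bs).Mr (G.tq T) a b H F)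
    (m : B ∈ Bs) (hq : G.Q4 B a b c d) (hs : s = G.par F + 1 ∨ ∃ B' ∈ Bs, B' ∈ H ∧ B' ≠ B)
    (r : G.Lw1 B a b c d s ∨ G.Lw2 B a b c d s) (g : ZMod 2) : G.Rall T g 1 := by
  have z : ∀ s x y : ZMod 2, s = s + x + y + x + y := by decide
  obtain ⟨X, O, K, h1, hc⟩ := h.cxz (l := s + 1 + G.n a + G.n b) hx hH.1 (disjoint_empty_right _)
    m hq hH.2.2.1 hH.2.2.2 (hs.imp_left fun e => by rw [e, add_assoc (G.par F), z2_add_self, add_zero])
  rw [E5c_top] at hc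
  exact h.rall (can_w (fr := True) h hc (z _ _ _)
    (r.imp (fun e => e.imp fun _ e => ⟨e.1, Or.inl trivial, e.2⟩) fun e => ⟨trivial, e⟩)
    (E5c_gd h hH (h1.trans subset_union_left)) (fun _ => E5c_gd h hH h1) g)

/-- with two boxes a ring through two terminals excludes both signs -/
theorem Eh.no_pw2 (h : G.Eh T Bs v0) (hx : G.PkA T xf) (hA : (G.quo T Bs).Ha Bs (G.tq T))
    (hn : ¬ G.Rall T 0 1) (hB : Bs = {B1, B}) (hne : B1 ≠ B) (hq : G.Q4 B a b c d)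
    (hm : (G.quo T Bs).Mo (G.tq T) a b) : G.NoP B a b := by
  obtain ⟨H, F, hH⟩ := hm
  have m : B ∈ Bs := by simp [hB]
  have m1 : B1 ∈ Bs := by simp [hB]
  obtain ⟨k1, ⟨t, k2, t', k3, k4, k5, k6⟩, k7, -⟩ := id hH
  have k8 := h.on_ring m k1 k7 hq.mem.1
  have k9 := hA H ⟨F, k1, Or.inr fun r => disjoint_left.1 r k8 m⟩ t k2 t' k3 k4 k5 k6 {B1}
    (Or.inl ⟨B1, m1, rfl⟩)
  have k : ∃ B' ∈ Bs, B' ∈ H ∧ B' ≠ B := ⟨B1, m1, by simpa using k9, hne⟩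
  exact fun s => ⟨fun p => hn (h.pm hx hA (by rw [hB]; exact card_le_two) hH m hq (Or.inr k)
    (p.tp c d)), fun c d q r => hn (h.lw_ring hx hH m q (Or.inr k) r 0)⟩

theorem z4_even (h : G.Eh T Bs v0) (hx : G.PkA T xf) (hA : (G.quo T Bs).Ha Bs (G.tq T))
    (hk : G.CoreH T Bs) (hz : (G.quo T Bs).Z4 Bs (G.tq T)) : G.Rall T 0 1 := by
  by_contra hn
  obtain ⟨B, B1, a, b, c, d, X1, F1, hB, hq, hX, k1, k2, ho, hg, m1, m2, -, m4, -⟩ := hz
  have hne : B1 ≠ B := fun r => k1 (r ▸ k2)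
  have m : B ∈ Bs := by simp [hB]
  have hq := h.q4 m hq
  have p := hk B m a b c d hq (h.no_pw2 hx hA hn hB hne hq m1)
    (h.no_pw2 hx hA hn hB hne hq.mid m2) (h.no_pw2 hx hA hn hB hne hq.swap1.mid m4)
  have e : X1 ∪ {B} = insert B X1 := by rw [union_comm, ← insert_eq]
  have q := h.eb_free (D := {B}) hx hX (disjoint_singleton_right.2 k1) (N := B1) (by simp [hB]) k2
    (fun B' r1 r2 => by
      rw [hB, mem_insert, mem_singleton] at r1
      exact r1.resolve_right fun r => k1 (r ▸ r2)) (e ▸ hg) (e ▸ ho)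
  rw [h.un_box m] at q
  exact hn (h.ss (h.ea_box m).1 q p)

/-- a split with two unbalanced parts gives local wins of both signs -/
theorem lw_all (hc : G.Cub) (hT : G.HT T) (hB : B ⊆ T) (hu : G.US B) (hq : G.Q4 B a b c d)
    (hI : G.IHd B) (h : G.Sp B a b A) (h1 : ¬ G.Bal (G.ins A)) (h2 : ¬ G.Bal (G.ins (B \ A)))
    (s : ZMod 2) : G.Lw1 B a b c d s ∨ G.Lw2 B a b c d s := by
  obtain ⟨X0, X1, hd⟩ := exists_head hc hT hB hu hq
  have k : ∀ X ⊆ X1, ¬ G.Bal (G.ins (B \ X)) := fun X hX r =>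
    h2 (r.mono (ins_mono (sdiff_subset_sdiff Subset.rfl (hX.trans (hd.min A h h1)))))
  by_cases hs : G.Hs a b X0 X1 s
  · obtain ⟨Xs, -, -, r⟩ := pk_sign hc hT hB hq hI hd
    exact (r s hs).resolve_left fun r => k X1 Subset.rfl r.2
  · exact Or.inr ((lw2_short hc hT hB hq hd hs).2.2 (k X0 (hd.str hc hT hB hq).1.subset))

theorem Eh.sp_ring (h : G.Eh T Bs v0) (hx : G.PkA T xf) (hI : G.IHd T) (m : B ∈ Bs)
    (hq : G.Q4 B a b c d) (hs : G.Sp B a b A) (h1 : ¬ G.Bal (G.ins A))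
    (h2 : ¬ G.Bal (G.ins (B \ A))) (hm : (G.quo T Bs).Mo (G.tq T) a b) : G.Rall T 0 1 := by
  obtain ⟨H, F, hH⟩ := hm
  obtain ⟨k1, k2, -⟩ := h.hy.bx B m
  exact h.lw_ring hx hH m hq (Or.inl rfl)
    (lw_all h.hc h.hT.1 k1 k2 hq (fun S hS => hI S (hS.trans k1)) hs h1 h2 _) 0

theorem z7_even (h : G.Eh T Bs v0) (hx : G.PkA T xf) (hI : G.IHd T) (h2 : G.Ch2 Bs)
    (hz : (G.quo T Bs).Z7 Bs (G.tq T)) : G.Rall T 0 1 := by
  obtain ⟨B, a, b, c, d, X2, hB, hq, -, -, -, -, m1, m2, m3, -⟩ := hz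
  have m : B ∈ Bs := by simp [hB]
  have hq := h.q4 m hq
  have sy : ∀ x y, (G.quo T Bs).Mo (G.tq T) x y → (G.quo T Bs).Mo (G.tq T) y x :=
    fun x y ⟨H, F, k1, k2, k3, k4⟩ => ⟨H, F, k1, k2, k4, k3⟩
  obtain ⟨H, F, m1, -⟩ := m1 0
  have mo : ∀ x ∈ G.cut B, ∀ y ∈ G.cut B, x ≠ y → x ≠ d → y ≠ d →
      (G.quo T Bs).Mo (G.tq T) x y := by
    intro x hx y hy k1 k2 k3
    rw [hq.1] at hx hy
    simp only [mem_insert, mem_singleton] at hx hy
    rcases hx with rfl | rfl | rfl | rfl <;> rcases hy with rfl | rfl | rfl | rfl <;>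
      first | contradiction | assumption | exact sy _ _ ‹_› | exact ⟨H, F, m1⟩ |
        exact sy _ _ ⟨H, F, m1⟩
  obtain ⟨e, f, g, k, A, q, s1, u1, u2⟩ := h2 B hB
  obtain ⟨me, mf, mg, mk⟩ := q.mem
  by_cases r : e ≠ d ∧ f ≠ d
  · exact h.sp_ring hx hI m q s1 u1 u2 (mo e me f mf q.2.1 r.1 r.2)
  obtain ⟨-, -, n1, n2, n3, n4, n5⟩ := id q
  refine h.sp_ring hx hI m q.flip (s1.compl q) u2 (by rwa [Finset.sdiff_sdiff_eq_self s1.1])
    (mo g mg k mk n5 ?_ ?_) <;> rintro rfl <;> tauto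

end SG

end Pool.Agent.Work.MP_8c679b_co
end

-- merged part: Pool.Agent.Work.MP_8c679b_co.A3.KH
section
/-!
A chain without passes of the wrong parity is a seed.
-/

set_option autoImplicit false

namespace Pool.Agent.Work.MP_8c679b_co

open Finset

namespace SG

variable {V E : Type} [Fintype V] [DecidableEq V] [DecidableEq E] {G : SG V E}
  {T B X X0 : Finset V} {a b c d u w : E}

theorem KC_z : ∀ s t x y : ZMod 2, 1 + s + (x + y) + 1 = s + (x + y) ∧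
    s + (1 + s + (x + y)) + (x + y) = 1 ∧ 1 + t = t + 1 := by decide

/-- an unbalanced piece and a balanced tail: the ring through the two links -/
theorem KC_one (hc : G.Cub) (hT : G.HT T) (hB : B ⊆ T) (hq : G.Q4 B c d a b) (hI : G.IHd B)
    (h : G.Hd B c d ∅ X) (hX : X ≠ B) (hb : G.Bal (G.ins (B \ X))) : G.S4 B := by
  obtain ⟨-, s1, u, w, q1, -, -, k⟩ := h.str hc hT hB hq
  obtain ⟨q2, dv⟩ := k hX
  have nc : G.NC X c d := (h.pc.resolve_right fun r => by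
    simpa using Spl_nonempty r.1.2.1).2
  have nu := bx_nc hc hT (s1.trans hB) h.us q1.flip (fun S hS => hI S (hS.trans s1))
    (bx_flip q1 nc)
  obtain ⟨p, hp⟩ := id hb
  obtain ⟨O2, p2, P2⟩ := (kb hc hT (B \ X) (sdiff_subset.trans hB)).1 w u a b q2.swap1 dv.symm p hp
  generalize p (G.ie (B \ X) w) + p (G.ie (B \ X) u) = s at p2 P2
  have key : ∀ {O K} (K0 : Set (Finset E)),
      G.Pas0 X O u w ∅ K (Rl.Mt (1 + s + (G.n u + G.n w) + 1)) →
      (∀ S ⊆ X, G.cut S ∈ K0 → G.cut S ∈ K) → K0 ⊆ G.Kus B →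
      ∃ O', G.par O' = s + G.par (O ∩ G.ins X) + (G.n u + G.n w) ∧ G.Abs0 B O' ∅ K0 := by
    intro O K K0 P1 h1 h2
    obtain ⟨k1, k2⟩ := close_two (Y := B) P2 P1 sdiff_disjoint (empty_subset _) sdiff_subset s1
      fun R1 R2 r1 r2 => Rl.y2_mt r1 r2 (by rw [(KC_z s s _ _).1, add_comm (G.n u)])
    rw [sdiff_union_of_subset s1] at k1
    refine ⟨_, by rw [k2, p2, add_comm (G.n w)], k1.cov fun t ht => ?_⟩
    obtain ⟨S, r1, r2, rfl⟩ := h2 ht
    rcases hd_cov hc hT hB hq h r1 r2 with r | r | r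
    · exact Or.inl ⟨_, Or.inr (h1 S (r.trans sdiff_subset) ht), Subset.rfl⟩
    · rw [sdiff_empty] at r
      exact Or.inr ⟨c, Spl_mid r r1 q1.mem.1 hq.mem.1, cut_sub_tch hq.mem.1,
        k1.not_mem (not_ins_of_cut hq.mem.1)⟩
    · exact absurd (hb.mono (ins_mono (subset_sdiff.2 ⟨r1, r⟩))) r2.2
  have c1 : ∀ S ⊆ X, G.cut S ∈ G.Kus B → G.cut S ∈ G.Kus X := fun S hS ⟨S', r1, r2, r3⟩ =>
    ⟨S, hS, cut_inj hT (hS.trans (s1.trans hB)) (r1.trans hB) r3 ▸ r2, rfl⟩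
  refine ⟨?_, ?_⟩
  · rcases nu.2 (1 + s + (G.n u + G.n w)) with ⟨O, r1, r2⟩ | r
    · obtain ⟨O', k1, k2⟩ := key _ (r2.imp fun R r => r.mt) c1 Set.Subset.rfl
      exact (s4_odd k2 (by rw [k1, r1, (KC_z s s _ _).2.1]) (G.s a)).1
    · obtain ⟨O, v, -, r1, r2⟩ := r (1 + s + (G.n u + G.n w))
      obtain ⟨O', k1, k2⟩ := key (G.Kv B v) r2 (fun S hS ⟨S', r1, r2, r3, r4⟩ => by
        obtain rfl := cut_inj hT (hS.trans (s1.trans hB)) (r1.trans hB) r4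
        exact ⟨S, hS, r2, r3, rfl⟩) kv_sub
      exact ⟨O', v, by rw [k1, r1, (KC_z s s _ _).2.1], k2⟩
  · obtain ⟨O, r⟩ := nu.1 (1 + s + (G.n u + G.n w))
    obtain ⟨O', -, k⟩ := key _ (r.imp fun R r => r.mt) c1 Set.Subset.rfl
    exact ⟨O', k⟩

/-- a ring on the head and a balanced tail: a pass of the wrong parity -/
theorem KC_two (hc : G.Cub) (hT : G.HT T) (hB : B ⊆ T) (hq : G.Q4 B c d a b) (hI : G.IHd B)
    (h : G.Hd B c d X0 X) (h0 : X0 ≠ ∅) (hX : X ≠ B) (hb : G.Bal (G.ins (B \ X))) :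
    ∃ s, G.Pw0 B a b s := by
  obtain ⟨-, s1, u, w, q1, -, -, k⟩ := h.str hc hT hB hq
  obtain ⟨q2, -⟩ := k hX
  have sp := h.sp.resolve_left hX
  obtain ⟨-, -, -, -, -, -, -, dv, -, -, na, nb, -⟩ := sp.str hc hT hB hq
  obtain ⟨p, hp⟩ := id hb
  obtain ⟨O2, p2, P2⟩ := (kb hc hT (B \ X) (sdiff_subset.trans hB)).1 a b u w q2.flip dv p hp
  generalize p (G.ie (B \ X) a) + p (G.ie (B \ X) b) = s at p2 P2
  obtain ⟨v, hv, k1, O1, p1, P1⟩ : ∃ v ∈ X, (∀ Z ⊆ X, (G.cut Z).card = 4 → u ∈ G.cut Z →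
      w ∈ G.cut Z → v ∈ Z) ∧ G.Yr X (G.Kv X v) 1 := by
    obtain ⟨⟨v, k1, k2⟩, ⟨O, k3, k4⟩ | k3⟩ := yh_ring hc hT hB hq hI h h0 q1
    · exact ⟨v, k1, k2, O, k3, k4.cov fun t ht => Or.inl ⟨t, kv_sub ht, Subset.rfl⟩⟩
    · exact k3.2 1
  obtain ⟨k2, k3⟩ := P1.seqP (L := ∅) P2 disjoint_sdiff na nb
    (fun e k => absurd k (notMem_empty e)) (fun e k => absurd k (notMem_empty e))
    fun e k => absurd k (notMem_empty e)
  rw [union_sdiff_of_subset s1] at k2 k3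
  refine ⟨s, a, a, _, v, s1 hv, by rw [k3, p1, p2, add_comm],
    (k2.imp fun R r => r.mt).cov ?_⟩
  rintro t ⟨⟨S, r1, r2, r3, rfl⟩, -⟩
  by_cases c1 : S ⊆ X
  · exact Or.inl ⟨_, Or.inl ⟨S, c1, r2, r3, rfl⟩, Subset.rfl⟩
  obtain ⟨-, -, j1, j2, j3⟩ := ch_link hc hT hB hq sp q1 r1 r2 c1
    fun r => r2.2 (hb.mono (ins_mono r))
  exact absurd (mem_inter.1 (k1 _ inter_subset_right j1 j2 j3)).1 r3

theorem core_chain (hc : G.Cub) (hT : G.HT T) (hB : B ⊆ T) (hu : G.US B) (hq : G.Q4 B a b c d)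
    (hI : G.IHd B) (hn : ¬ G.NC B a b) (hp : G.NoP B a b) : G.S4 B := by
  obtain ⟨X0, X, h⟩ := exists_head hc hT hB hu hq.flip
  by_cases hX : X = B
  · subst hX
    have h0 : X0 ≠ ∅ := fun r => hn (bx_flip hq.flip (h.pc.resolve_right fun k => by
      simpa [r] using Spl_nonempty k.1.2.1).2)
    obtain ⟨-, ⟨O, k3, k4⟩ | ⟨⟨_, O, -, k3⟩, k4⟩⟩ := yh_ring hc hT hB hq.flip hI h h0 hq.flip
    · exact s4_odd k4 k3 (G.s a)
    · obtain ⟨v, -, -, O', k5⟩ := k4 1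
      exact ⟨⟨O', v, k5⟩, O, k3⟩
  have sp := h.sp.resolve_left hX
  by_cases hb : G.Bal (G.ins (B \ X))
  swap
  · exact absurd (lw_all hc hT hB hu hq hI (sp.compl hq.flip) hb
      (by rw [Finset.sdiff_sdiff_eq_self sp.1]; exact h.us.2) 0) ((hp 0).2 c d hq)
  by_cases h0 : X0 = ∅
  · exact KC_one hc hT hB hq.flip hI (h0 ▸ h) hX hb
  · obtain ⟨s, k⟩ := KC_two hc hT hB hq.flip hI h h0 hX hb
    exact absurd k (hp s).1

/-- the statement about boxes from the case without splits -/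
theorem Eh.core_of {Bs : Finset (Finset V)} {v0 : V} (h : G.Eh T Bs v0) (hI : G.IHd T)
    (hs : ∀ B ⊆ T, G.US B → ∀ a b c d, G.Q4 B a b c d → G.NC B a b → G.NC B a c → G.NC B a d →
      (∀ s, ¬ G.Pw0 B a b s) → (∀ s, ¬ G.Pw0 B a c s) → (∀ s, ¬ G.Pw0 B b c s) → G.S4 B) :
    G.CoreH T Bs := by
  intro B hB a b c d hq p1 p2 p3
  obtain ⟨k1, k2, -⟩ := h.hy.bx B hB
  have i : G.IHd B := fun S hS => hI S (hS.trans k1)
  refine h.eb_s4 hB ?_
  by_cases n1 : G.NC B a b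
  · by_cases n2 : G.NC B a c
    · by_cases n3 : G.NC B b c
      · exact hs B k1 k2 a b c d hq n1 n2 (bx_flip hq.swap1.mid n3) (fun s => (p1 s).1)
          (fun s => (p2 s).1) fun s => (p3 s).1
      · exact core_chain h.hc h.hT.1 k1 k2 hq.swap1.mid i n3 p3
    · exact core_chain h.hc h.hT.1 k1 k2 hq.mid i n2 p2
  · exact core_chain h.hc h.hT.1 k1 k2 hq i n1 p1

end SG

end Pool.Agent.Work.MP_8c679b_co
end

-- merged part: Pool.Agent.Work.MP_8c679b_co.A3.DQ2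
section
/-!
The quotient of a three-side by a system of boxes.
-/

set_option autoImplicit false

namespace Pool.Agent.Work.MP_8c679b_co

open Finset

namespace SG

variable {V E : Type} [Fintype V] [DecidableEq V] [DecidableEq E] {G : SG V E}
  {T : Finset V} {Bs : Finset (Finset V)} {v0 : V} {F : Kf V E} {M : MP_8c679b_co.Mb V E} {e1 e2 : E}
  {xf : Finset V → E → E → ZMod 2 → Finset V}

/-- HINT: `Sy.cut_un`, `un_single`, `un_dich`.  `ht`: `un T Bs X` is one vertex or `T`.  `s2`: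
`un T Bs X` is an unbalanced side (it contains a box) with its cut inside `T`; if it lies in a box
then `X` is this box.  `m3`: `un T Bs {b, b'} = b ∪ b'`. -/
theorem Sy.qg (hc : G.Cub) (hT : G.T3 T) (hF : G.F2 T) (h : G.Sy T Bs v0) :
    (G.quo T Bs).QG (T.image (nd Bs)) Bs (G.tq T) := by
  have hY : ∀ B ∈ Bs, B ⊆ T := fun B hB => (h.bx B hB).1
  have hne : ∀ B ∈ Bs, B.Nonempty := fun B hB => by
    have := hT.1.us_card hc (hY B hB) (h.bx B hB).2.1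
    exact card_pos.1 (by omega)
  have hT1 : 1 < T.card := by
    have : (G.ins T).Nonempty := by
      by_contra k
      rw [not_nonempty_iff_eq_empty] at k
      exact hT.2.2 ⟨fun _ => 0, by simp [k]⟩
    obtain ⟨e, he⟩ := this
    exact one_lt_card.2 ⟨_, (mem_ins.1 he).2.1, _, (mem_ins.1 he).2.2,
      hT.1.noloop hc (ins_sub_tch he)⟩
  have hdj : Disjoint Bs (G.tq T) := by
    refine disjoint_left.2 fun B hB hB' => ?_
    obtain ⟨e, he, rfl⟩ := mem_image.1 hB'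
    exact (h.nd_term he).1 _ hB (mem_singleton_self _)
  have hsub : ∀ X, un T Bs X ⊆ T := fun X => filter_subset _ _
  have him : ∀ X ⊆ T.image (nd Bs), ∀ N ∈ X, ∃ v ∈ un T Bs X, nd Bs v = N := by
    intro X hX N hN
    obtain ⟨v, hv, rfl⟩ := mem_image.1 (hX hN)
    exact ⟨v, mem_un.2 ⟨hv, hN⟩, rfl⟩
  have hzero : ∀ X, Disjoint X (G.tq T) →
      (G.cut (un T Bs X)).card = ((G.quo T Bs).cut X).card := fun X hX => by
    rw [(h.cut_un hc hT X).2, disjoint_iff_inter_eq_empty.1 hX, card_empty, add_zero]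
  refine ⟨fun e he => ?_, fun B hB => ?_, fun t ht => ?_, hdj, ?_, fun B hB => ?_,
    fun t ht => ?_, fun N hN h1 h2 => ?_, fun X hX hn => ?_, fun X hX hd h4 hb => ?_,
    fun B hB B' hB' hBB => ?_, fun t ht t' ht' => ?_⟩
  · have k := mem_ins.1 (mem_quo.1 he).1
    exact ⟨mem_image_of_mem _ k.2.1, mem_image_of_mem _ k.2.2, quo_noloop he⟩
  · obtain ⟨v, hv⟩ := hne B hB
    exact mem_image.2 ⟨v, hY B hB hv, nd_of_mem h.pd hB hv⟩
  · obtain ⟨e, he, rfl⟩ := mem_image.1 ht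
    exact mem_image.2 ⟨_, ie_mem (cut_sub_tch he), (h.nd_term he).2⟩
  · rw [tq, card_image_of_injOn, hT.2.1]
    intro e he f hf k
    by_contra k1
    exact hT.1.f2' hc hT.2.1 hT1 he hf k1 (singleton_injective k)
  · obtain ⟨v, hv⟩ := hne B hB
    have k := un_single h.pd hY (hY B hB hv)
    rw [nd_of_mem h.pd hB hv] at k
    rw [← hzero _ (disjoint_singleton_left.2 (disjoint_left.1 hdj hB)), k]
    exact (h.bx B hB).2.1.1
  · obtain ⟨e, he, rfl⟩ := mem_image.1 ht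
    have hv := ie_mem (cut_sub_tch he)
    have k := un_single h.pd hY hv
    rw [(h.nd_term he).2] at k
    have k1 := (h.cut_un hc hT {{G.ie T e}}).2
    rw [k, (hT.1.vtx hc hv).1, singleton_inter_of_mem ht, card_singleton] at k1
    omega
  · obtain ⟨v, hv, rfl⟩ := mem_image.1 hN
    have k := un_single h.pd hY hv
    rw [← hzero _ (disjoint_singleton_left.2 h2), k, ((nd_cases h.pd v).resolve_left h1).2]
    exact (hT.1.vtx hc hv).1
  · rw [← (h.cut_un hc hT X).2]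
    obtain ⟨N, hN⟩ := hn
    obtain ⟨v, hv, -⟩ := him X hX N hN
    obtain ⟨k1, k2⟩ := hT.1 _ (hsub X) ⟨v, hv⟩
    refine ⟨k1, fun k => (k2 k).imp (fun k3 => ?_) fun k3 => ?_⟩
    · obtain ⟨w, hw⟩ := card_eq_one.1 k3
      refine card_eq_one.2 ⟨nd Bs w, eq_singleton_iff_nonempty_unique_mem.2 ⟨⟨N, hN⟩, ?_⟩⟩
      intro N' hN'
      obtain ⟨u, hu, rfl⟩ := him X hX N' hN'
      rw [hw, mem_singleton] at hu
      rw [hu]
    · refine hX.antisymm fun N' hN' => ?_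
      obtain ⟨u, hu, rfl⟩ := mem_image.1 hN'
      rw [← k3] at hu
      exact (mem_un.1 hu).2
  · obtain ⟨B, hBX, hB⟩ := not_disjoint_iff.1 hb
    have k0 := hzero X hd
    have k1 : B ⊆ un T Bs X := (un_dich h.pd hY hB (hne B hB)).1 hBX
    have k2 : G.cut (un T Bs X) \ G.cut T = G.cut (un T Bs X) := by
      refine eq_of_subset_of_card_le sdiff_subset ?_
      rw [← (h.cut_un hc hT X).1, k0]
    have k3 : G.KA T (un T Bs X) := by
      refine ⟨hsub X, ⟨k0.trans h4, fun k => (h.bx B hB).2.1.2 (k.mono (ins_mono k1))⟩, ?_⟩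
      rw [← k2, ← crs_ins (hsub X)]
      exact filter_subset _ _
    rcases h.cov _ k3 with ⟨B', hB', k4⟩ | ⟨-, k4⟩
    · refine Or.inl (card_eq_one.2 ⟨B', eq_singleton_iff_nonempty_unique_mem.2 ⟨⟨B, hBX⟩, ?_⟩⟩)
      intro N hN
      obtain ⟨u, hu, rfl⟩ := him X hX N hN
      exact nd_of_mem h.pd hB' (k4 hu)
    · refine Or.inr fun B' hB' => ?_
      obtain ⟨v, hv⟩ := hne B' hB'
      have := (mem_un.1 (k4 B' hB' hv)).2
      rwa [nd_of_mem h.pd hB' hv] at this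
  · have k : un T Bs {B, B'} = B ∪ B' := by
      ext v
      rw [mem_un, mem_union, mem_insert, mem_singleton]
      refine ⟨fun k => k.2.imp (fun k1 => by rw [← k1]; exact mem_nd_self)
        fun k1 => by rw [← k1]; exact mem_nd_self, ?_⟩
      rintro (k | k)
      · exact ⟨hY B hB k, Or.inl (nd_of_mem h.pd hB k)⟩
      · exact ⟨hY B' hB' k, Or.inr (nd_of_mem h.pd hB' k)⟩
    rw [← hzero _ (hdj.mono_left (insert_subset hB (singleton_subset_iff.2 hB'))), k]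
    exact h.m3 B hB B' hB' hBB
  · obtain ⟨e, he, rfl⟩ := mem_image.1 ht
    obtain ⟨f, hf, rfl⟩ := mem_image.1 ht'
    rintro ⟨g, hg, hj⟩
    obtain ⟨k1, k2, -, -, -, -, k3⟩ := quo_je_inv h.pd hg hj
    rw [mem_singleton.1 (ie_mem (cut_sub_tch k1)), mem_singleton.1 (ie_mem (cut_sub_tch k2))] at k3
    exact t3_nadj hc hT hF he hf ⟨g, (mem_cut.1 k1).1, k3⟩

end SG

end Pool.Agent.Work.MP_8c679b_co
end

-- merged part: Pool.Agent.Work.MP_8c679b_co.A3.Z5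
section
/-!
The final configurations with two boxes and terminals between them.
-/

set_option autoImplicit false
set_option linter.unusedSectionVars false

namespace Pool.Agent.Work.MP_8c679b_co

open Finset

namespace SG

variable {V E : Type} [Fintype V] [DecidableEq V] [DecidableEq E] [Nonempty E] {G : SG V E}
  {T N B B1 : Finset V} {Bs H : Finset (Finset V)} {v0 : V} {F : Finset E} {a b c d : E}
  {xf : Finset V → E → E → ZMod 2 → Finset V}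

theorem z5_mb (h : G.Eh T Bs v0) (hA : (G.quo T Bs).Ha Bs (G.tq T)) (hB : B ∈ Bs) (h1 : B1 ∈ Bs)
    (hne : B1 ≠ B) (ha : a ∈ G.cut B) (hm : (G.quo T Bs).Mo (G.tq T) a b) :
    (G.quo T Bs).Mb Bs (G.tq T) B a b := fun _ => by
  obtain ⟨X, R, k⟩ := hm
  refine ⟨X, R, k, Or.inr ⟨B1, h1, ?_, hne⟩⟩
  obtain ⟨hc, ⟨t, ht, t', ht', hne, m, m'⟩, ma, -⟩ := k
  simpa using hA X ⟨R, hc, Or.inr (not_disjoint_iff.2 ⟨B, h.on_ring hB hc ma ha, hB⟩)⟩ t ht t' ht'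
    hne m m' {B1} (Or.inl ⟨B1, h1, rfl⟩)

/-- a seed `B` and the rest -/
theorem z5_ss (h : G.Eh T Bs v0) (hB : B ∈ Bs) (p1 : G.Eb Bs (T \ un T Bs {B}) (G.ins T))
    (p2 : G.Eb Bs B ∅) : G.Rall T 0 1 := by
  rw [h.un_box hB] at p1
  exact h.ss (h.ea_box hB).1 p1 p2

theorem z5_two (hN : Bs = {B1, B}) : B ∈ Bs ∧ B1 ∈ Bs ∧ ∀ N ∈ Bs, N = B ∨ N = B1 := by
  subst hN
  exact ⟨by simp, by simp, fun N k => (mem_insert.1 k).symm.imp_left mem_singleton.1⟩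

/-- both boxes are seeds -/
theorem z5_pair (h : G.Eh T Bs v0) (hN : Bs = {B1, B}) (hne : B1 ≠ B) (p1 : G.Eb Bs B1 ∅)
    (p2 : G.Eb Bs B ∅) (hg : (G.quo T Bs).Goo (G.tq T) Bs) (ho : (G.quo T Bs).Ofr Bs Bs) :
    G.Rall T 0 1 := by
  obtain ⟨hB, h1, hb⟩ := z5_two hN
  have k := eb_seq (L := ∅) (h.ea_box h1).1 (h.hy.pd _ h1 _ hB hne)
    (fun e he => absurd he (notMem_empty _)) (fun e he => absurd he (notMem_empty _))
    (fun e he => absurd he (notMem_empty _)) p1 p2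
  have hM : ∀ v ∈ T \ (B1 ∪ B), nd Bs v ∉ Bs := fun v hv r => (mem_sdiff.1 hv).2 <| by
    rcases hb _ r with r | r
    exacts [mem_union_right _ (r ▸ mem_nd_self), mem_union_left _ (r ▸ mem_nd_self)]
  refine h.seed ((h.ea_box h1).1.union (h.ea_box hB).1) k (h.gd2_goo sdiff_subset hM hg) (Or.inr ?_)
  rw [(nu_bal (h.bal_ofr sdiff_subset hM ho)).1, add_zero]

theorem z5_ins (X : Finset (Finset V)) (N : Finset V) : X ∪ {N} = insert N X := by
  rw [union_comm, ← insert_eq]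

theorem z5_even (h : G.Eh T Bs v0) (hx : G.PkA T xf) (hA : (G.quo T Bs).Ha Bs (G.tq T))
    (hk : G.CoreH T Bs) (hz : (G.quo T Bs).Z5 Bs (G.tq T)) : G.Rall T 0 1 := by
  by_contra hn
  obtain ⟨B, B1, t, a, b, c, d, p, q, g, X1, F1, X3, F3, X4, F4, hN, hne, -, q1, q2, -, -, c1, m1,
    -, n1, o1, g1, -, -, -, -, -, -, -, -, -, -, -, -, ab, ad, -, bd⟩ := hz
  obtain ⟨hB, h1, hb2⟩ := z5_two hN
  replace q1 := h.q4 hB q1
  have np := fun {a b c d : E} (hq : G.Q4 B a b c d) => h.no_pw2 hx hA hn hN hne hq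
  exact hn (z5_ss h hB (h.eb_free hx c1 (disjoint_singleton_right.2 n1) h1
    (h.on_ring h1 c1 m1 (h.q4 h1 q2).mem.1)
    (fun N k r => (hb2 N k).resolve_left fun e => n1 (e ▸ r)) (by rwa [z5_ins]) (by rwa [z5_ins]))
    (hk B hB a b d c q1.swap2 (np q1 ab) (np q1.swap2.mid ad) (np q1.swap1.swap2.mid bd)))

theorem z6_je {t : Finset V} (hB : B ∈ Bs) (ht : t ∈ G.tq T) (h : G.Eh T Bs v0) : t ≠ B :=
  fun e => disjoint_left.1 h.tq3.2 ht (e ▸ hB)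

theorem z6_mem (hq : (G.quo T Bs).Q4 {B} a b c d) : a ∈ (G.quo T Bs).A ∧ b ∈ (G.quo T Bs).A ∧
    c ∈ (G.quo T Bs).A ∧ d ∈ (G.quo T Bs).A :=
  ⟨(mem_cut.1 hq.mem.1).1, (mem_cut.1 hq.mem.2.1).1, (mem_cut.1 hq.mem.2.2.1).1,
    (mem_cut.1 hq.mem.2.2.2).1⟩

/-- the ring through two terminals that are adjacent to both boxes -/
theorem z6_ring {t u : Finset V} {g k : E} (h : G.Eh T Bs v0) (hB : B ∈ Bs) (h1 : B1 ∈ Bs)
    (hne : B1 ≠ B) (ht : t ∈ G.tq T) (hu : u ∈ G.tq T) (htu : t ≠ u) (ma : a ∈ (G.quo T Bs).A)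
    (mb : b ∈ (G.quo T Bs).A) (mg : g ∈ (G.quo T Bs).A) (mk : k ∈ (G.quo T Bs).A)
    (ja : (G.quo T Bs).Je a t B) (jg : (G.quo T Bs).Je g t B1) (jb : (G.quo T Bs).Je b u B)
    (jk : (G.quo T Bs).Je k u B1) :
    (G.quo T Bs).Mo (G.tq T) a b ∧ (G.quo T Bs).Mo (G.tq T) g k := by
  have r := ring4 ma mb mk mg ja jb.symm jk jg.symm (z6_je hB ht h) htu (z6_je h1 ht h)
    (z6_je hB hu h).symm hne.symm (z6_je h1 hu h)
  exact ⟨⟨_, _, r, ⟨t, ht, u, hu, htu, by simp, by simp⟩, by simp, by simp⟩,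
    ⟨_, _, r, ⟨t, ht, u, hu, htu, by simp, by simp⟩, by simp, by simp⟩⟩

theorem z6_even (h : G.Eh T Bs v0) (hx : G.PkA T xf) (hA : (G.quo T Bs).Ha Bs (G.tq T))
    (hb : G.BoxH T Bs) (hk : G.CoreH T Bs) (hz : (G.quo T Bs).Z6 Bs (G.tq T)) : G.Rall T 0 1 := by
  by_contra hn
  obtain ⟨B, B1, t, u, a, b, c, d, p, q, g, k, X1, F1, X2, F2, hN, hne, ht, hu, htu, q1, q2, ja, jg,
    jb, jk, c1, m1, m2, n1, g1, -, -, -, -, -, g0, o0, ac, -, bc, -⟩ := hz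
  obtain ⟨hB, h1, hb2⟩ := z5_two hN
  obtain ⟨ab, gk⟩ := z6_ring h hB h1 hne ht hu htu (z6_mem q1).1 (z6_mem q1).2.1
    (z6_mem q2).2.2.1 (z6_mem q2).2.2.2 ja jg jb jk
  replace q1 := h.q4 hB q1
  replace q2 := h.q4 h1 q2
  have np := fun {a b c d : E} (hq : G.Q4 B a b c d) => h.no_pw2 hx hA hn hN hne hq
  have s4 := hk B hB a b c d q1 (np q1 ab) (np q1.mid ac) (np q1.swap1.mid bc)
  rcases hb B1 h1 p q g k q2 (z5_mb h hA h1 hB hne.symm q2.mem.2.2.1 gk) with k1 | k1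
  · refine hn (z5_ss h hB (h.eb_one c1 (disjoint_singleton_right.2 n1) h1 q2 m1 m2
      (fun N k r => (hb2 N k).resolve_left fun e => n1 (e ▸ r)) (k1.1.lp g k _)
      (by rwa [z5_ins]) False.elim (o0.mono fun N k => ?_)) s4)
    rcases hb2 N k with rfl | rfl
    exacts [mem_union_right _ (mem_singleton_self _),
      mem_union_left _ (h.on_ring h1 c1 m1 q2.mem.1)]
  · exact hn (z5_pair h hN hne ((h.seed_th h1 k1).eb v0) s4 g0 o0)

theorem z8_even (h : G.Eh T Bs v0) (hF : G.F2 T) (hx : G.PkA T xf)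
    (hA : (G.quo T Bs).Ha Bs (G.tq T)) (hk : G.CoreH T Bs)
    (hz : (G.quo T Bs).Z8 (T.image (nd Bs)) Bs (G.tq T)) : G.Rall T 0 1 := by
  by_contra hn
  obtain ⟨B, B1, t1, t2, t3, a, b, c, a', b', c', d, hN, hne, h3, hU, q1, q2, ja, jb, jc, ja', jb',
    jc'⟩ := hz
  have hq := h.hy.qg h.hc h.hT hF
  obtain ⟨h1, hB, -⟩ := z5_two hN
  obtain ⟨m1, m2, m3, -⟩ := h3.mem
  obtain ⟨ma, mb, mc, -⟩ := z6_mem q1
  obtain ⟨ma', mb', mc', -⟩ := z6_mem q2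
  obtain ⟨ab, ab'⟩ := z6_ring h hB h1 hne.symm m1 m2 h3.2.1 ma mb ma' mb' ja ja' jb jb'
  obtain ⟨ac, ac'⟩ := z6_ring h hB h1 hne.symm m1 m3 h3.2.2.1 ma mc ma' mc' ja ja' jc jc'
  obtain ⟨bc, bc'⟩ := z6_ring h hB h1 hne.symm m2 m3 h3.2.2.2 mb mc mb' mc' jb jb' jc jc'
  have nb : ∀ e ∈ (G.quo T Bs).A, ∀ x y, (G.quo T Bs).Je e x y → x ∈ G.tq T → y ∈ Bs :=
    fun e he x y j hx' => (mem_union.1 (hU ▸ (hq.je he j).2.1)).resolve_right fun r =>
      hq.nj x hx' y r ⟨e, he, j⟩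
  have go : (G.quo T Bs).Goo (G.tq T) Bs := fun t ht t' _ _ _ r =>
    (mem_singleton.1 (r.stay (mem_singleton_self t) fun e he x y j k _ =>
      Or.inr (nb e he x y j (mem_singleton.1 k ▸ ht)))).symm
  have o0 : (G.quo T Bs).Ofr Bs Bs := by
    rintro D (⟨N, k, rfl⟩ | ⟨R, k, -, k'⟩) hd
    · exact disjoint_singleton_left.1 hd k
    · obtain ⟨v, hv⟩ := k.ne
      obtain ⟨e, he⟩ : (R ∩ (G.quo T Bs).cut {v}).Nonempty := card_pos.1 (by rw [k.deg hv]; decide)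
      obtain ⟨e1, w, j⟩ := hq.cut1.1 (mem_inter.1 he).2
      have vt : v ∈ G.tq T := (mem_union.1 (hU ▸ hq.cw k hv)).resolve_left (disjoint_left.1 k' hv)
      refine disjoint_left.1 k' (k.ends (mem_inter.1 he).1 ?_) (nb e e1 v w j vt)
      exact j.elim (fun r => Or.inr r.2) fun r => Or.inl r.1
  replace q1 := h.q4 hB q1
  replace q2 := h.q4 h1 q2
  have np := fun {a b c d : E} (hq : G.Q4 B a b c d) =>
    h.no_pw2 hx hA hn (hN.trans (pair_comm _ _)) hne.symm hq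
  have np' := fun {a b c d : E} (hq : G.Q4 B1 a b c d) => h.no_pw2 hx hA hn hN hne hq
  exact hn (z5_pair h hN hne (hk B hB a b c d q1 (np q1 ab) (np q1.mid ac) (np q1.swap1.mid bc))
    (hk B1 h1 a' b' c' d q2 (np' q2 ab') (np' q2.mid ac') (np' q2.swap1.mid bc')) go o0)

end SG

end Pool.Agent.Work.MP_8c679b_co
end
end

-- merged part: Pool.Agent.Work.MP_8c679b_co.Top.RA3
section
-- merged part: Pool.Agent.Work.MP_8c679b_co.A3.DF5
section
/-!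
Frames and members from rings of the quotient.
-/

set_option autoImplicit false

namespace Pool.Agent.Work.MP_8c679b_co

open Finset

namespace SG

variable {V E : Type} [Fintype V] [DecidableEq V] [DecidableEq E] {G : SG V E}
  {T : Finset V} {Bs : Finset (Finset V)} {v0 : V} {F : Kf V E} {M : MP_8c679b_co.Mb V E} {e1 e2 : E}
  {xf : Finset V → E → E → ZMod 2 → Finset V}

theorem DF5_es {a b : E} {n : ℕ} {g : ℕ → E} :
    pv (n + 1) (es a b n g) = insert a (insert b (pe n g)) := by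
  ext x
  simp only [mem_pv, mem_insert, mem_pe]
  constructor
  · rintro ⟨_ | k, hk, rfl⟩
    · exact Or.inl rfl
    · rcases Nat.lt_or_ge k n with h | h
      · exact Or.inr (Or.inr ⟨k, h, (Quo_es_succ h).symm⟩)
      · rw [show k = n by omega]
        exact Or.inr (Or.inl Quo_es_last)
  · rintro (rfl | rfl | ⟨k, hk, rfl⟩)
    exacts [⟨0, Nat.zero_le _, rfl⟩, ⟨n + 1, le_rfl, Quo_es_last⟩,
      ⟨k + 1, by omega, Quo_es_succ hk⟩]

/-- the sign of a track with its ends.  HINT: the edges `F.e M i k` are different (`Pth.einj`; the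
ends leave `F.Y`), `sum_range_succ`, `sum_range_succ'`. -/
theorem on_par (hw : F.Wf G) (hM : F.IsM G M) {Xs : Bool → Finset (Finset V)}
    {Rs : Bool → Finset E} (ho : F.On M Xs Rs) (i : Bool) :
    G.par (Rs i) = G.n (F.p i) + Kf.sl G M i + G.n (F.q i) := by
  have h1 : ∀ c ∈ G.cut F.Y, c ∉ pe (M.n i) (M.g i) := fun c hc k => by
    obtain ⟨j, hj, rfl⟩ := mem_pe.1 k
    exact not_ins_of_cut hc (mem_quo.1 ((hM.pth i).mem j hj)).1
  have h2 : Rs i = insert (F.p i) (insert (F.q i) (pe (M.n i) (M.g i))) :=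
    (ho i).2.symm.trans DF5_es
  rw [h2, par, sum_insert fun k => (mem_insert.1 k).elim (hw.pq i i) (h1 _ (hw.pc i)),
    sum_insert (h1 _ (hw.qc i)), pe, sum_image fun j hj k hk e =>
      (hM.pth i).einj (mem_range.1 hj) (mem_range.1 hk) e, Kf.sl]
  ring

/-- the rest of a member.  HINT: `trk_of_pth`. -/
theorem on_rest (hw : F.Wf G) (hM : F.IsM G M) {Xs : Bool → Finset (Finset V)}
    {Rs : Bool → Finset E} (ho : F.On M Xs Rs) {v : V} :
    v ∈ F.rest M ↔ v ∈ F.Y ∧ nd F.Bs v ∉ Xs false ∪ Xs true := by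
  have h1 : ∀ i, M.vt i = un F.Y F.Bs (Xs i) := fun i => (ho i).1 ▸
    (trk_of_pth hw.pd (fun N k => (hw.sub N k).1) (hM.pth i) (hw.pc i) (hw.qc i) (hw.pq i i)
      (hM.fst i) (hM.lst i)).2.2.2
  rw [Kf.rest, h1, h1, mem_sdiff, mem_union, mem_union, mem_un, mem_un]
  tauto

/-- signs can be prescribed on a track with a box.  HINT: a box occurs once on the two tracks;
take `σ` zero except at the chosen boxes. -/
theorem on_sign (hM : F.IsM G M) {Xs : Bool → Finset (Finset V)} {Rs : Bool → Finset E}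
    (ho : F.On M Xs Rs) (s : Bool → ZMod 2)
    (hs : ∀ i, s i = Kf.sl G M i ∨ ¬ Disjoint (Xs i) F.Bs) : ∃ σ, ∀ i, F.ts G M σ i = s i := by
  have h1 : ∀ i, ∃ B, s i = Kf.sl G M i ∨ (B ∈ Xs i ∧ B ∈ F.Bs) := fun i =>
    (hs i).elim (fun k => ⟨∅, Or.inl k⟩) fun k => (not_disjoint_iff.1 k).imp fun _ => Or.inr
  choose B hB using h1
  obtain ⟨σ, hσ⟩ : ∃ σ : Finset V → ZMod 2, ∀ i, ∀ k ≤ M.n i,
      σ (M.w i k) = if M.w i k = B i then s i - Kf.sl G M i else 0 := by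
    refine ⟨fun N => if N ∈ pv (M.n false) (M.w false) then
      (if N = B false then s false - Kf.sl G M false else 0)
      else if N = B true then s true - Kf.sl G M true else 0, ?_⟩
    rintro (_ | _) k hk
    · exact if_pos (mem_pv.2 ⟨k, hk, rfl⟩)
    · refine if_neg fun h => ?_
      obtain ⟨l, hl, e⟩ := mem_pv.1 h
      exact hM.dj l hl k hk e
  refine ⟨σ, fun i => ?_⟩
  rw [Kf.ts, Kf.tz, ← eq_sub_iff_add_eq']
  rcases hB i with h | ⟨h2, h3⟩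
  · rw [h, sub_self]
    refine sum_eq_zero fun k hk => ?_
    rw [hσ i k (Nat.lt_succ_iff.1 (mem_range.1 hk)), h, sub_self, ite_self, ite_self]
  · obtain ⟨l, hl, e⟩ := mem_pv.1 ((ho i).1 ▸ h2)
    rw [sum_eq_single_of_mem l (mem_range.2 (Nat.lt_succ_iff.2 hl)) fun k hk hkl => ?_,
      if_pos ⟨e ▸ h3, notMem_empty _⟩, hσ i l hl, if_pos e]
    have hk := Nat.lt_succ_iff.1 (mem_range.1 hk)
    rw [hσ i k hk, if_neg fun e' : M.w i k = B i =>
      hkl ((hM.pth i).inj k hk l hl (e'.trans e.symm)), ite_self]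

end SG

end Pool.Agent.Work.MP_8c679b_co
end

-- merged part: Pool.Agent.Work.MP_8c679b_co.Top.RA3
section
/-!
The statement about three-sides from the case of two disjoint odd circuits.
-/

set_option autoImplicit false

namespace Pool.Agent.Work.MP_8c679b_co

open Finset

namespace SG

variable {V E : Type} [Fintype V] [DecidableEq V] [DecidableEq E] {G : SG V E} {T : Finset V}

theorem cube_b2 (h : G.NCx T) (c : G.Cube T) : G.B2 T := by
  obtain ⟨p, a, b, x, y, t1, t2, t3, z, f, g1, g2, g3, g4, g5, g6, g7, hT, h7, -, -, -,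
    hA, hJ, hs⟩ := c
  obtain ⟨w, hw⟩ : ∃ w : Fin 7 → V, w = ![a, b, x, y, t1, t2, t3] := ⟨_, rfl⟩
  obtain ⟨d, hd⟩ : ∃ d : Fin 9 → E, d = ![z, f, g1, g2, g3, g4, g5, g6, g7] := ⟨_, rfl⟩
  have w1 : T = univ.image w := by
    ext v
    simp only [hT, hw, mem_image, mem_univ, true_and, Fin.exists_fin_succ, mem_insert,
      mem_singleton, Matrix.cons_val_zero, Matrix.cons_val_succ, IsEmpty.exists_iff, or_false,
      eq_comm (a := v)]
  have w2 : Function.Injective w := fun i j =>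
    card_image_iff.1 (by rw [← w1, h7, card_fin]) (mem_univ i) (mem_univ j)
  have w3 : ∀ i, w i ∈ T := fun i => w1 ▸ mem_image_of_mem _ (mem_univ i)
  have d1 : ∀ i, d i ∈ G.A ∧ G.Je (d i) (w (ndCu_s i)) (w (ndCu_t i)) ∧
      (d i ≠ z → d i ≠ f → G.sw p (d i) = 0) := by
    obtain ⟨m1, m2, m3, m4, m5, m6, m7, m8, m9⟩ := hA
    obtain ⟨j1, j2, j3, j4, j5, j6, j7, j8, j9⟩ := hJ
    obtain ⟨-, -, s3, s4, s5, s6, s7, s8, s9⟩ := hs
    subst hw hd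
    intro i
    fin_cases i
    exacts [⟨m1, j1, fun k => absurd rfl k⟩, ⟨m2, j2, fun _ k => absurd rfl k⟩,
      ⟨m3, j3, fun _ _ => s3⟩, ⟨m4, j4, fun _ _ => s4⟩, ⟨m5, j5, fun _ _ => s5⟩,
      ⟨m6, j6, fun _ _ => s6⟩, ⟨m7, j7, fun _ _ => s7⟩, ⟨m8, j8, fun _ _ => s8⟩,
      ⟨m9, j9, fun _ _ => s9⟩]
  have d2 : Function.Injective d := fun i j k => by
    have k1 := (d1 i).2.1
    have k2 := (d1 j).2.1
    rw [← k] at k2
    refine ndCu_inj.2 i j ?_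
    rcases k1 with k1 | k1 <;> rcases k2 with k2 | k2
    exacts [.inl ⟨w2 (k1.1.symm.trans k2.1), w2 (k1.2.symm.trans k2.2)⟩,
      .inr ⟨w2 (k1.1.symm.trans k2.1), w2 (k1.2.symm.trans k2.2)⟩,
      .inr ⟨w2 (k1.2.symm.trans k2.2), w2 (k1.1.symm.trans k2.1)⟩,
      .inl ⟨w2 (k1.2.symm.trans k2.2), w2 (k1.1.symm.trans k2.1)⟩]
  have d3 : univ.image d = G.ins T := by
    refine eq_of_subset_of_card_le (image_subset_iff.2 fun i _ =>
      Cut_je_ins (d1 i).1 (d1 i).2.1 (w3 _) (w3 _)) ?_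
    have := deg_sum h.hc h.hT.act
    rw [card_image_of_injective _ d2, card_fin]
    rw [h.h3, h7] at this
    omega
  refine ⟨z, f, p, fun e he => ?_⟩
  obtain ⟨k1, k2⟩ := mem_erase.1 he
  obtain ⟨k2, k3⟩ := mem_erase.1 k2
  obtain ⟨i, -, rfl⟩ := mem_image.1 (d3 ▸ k3)
  exact (d1 i).2.2 k2 k1

variable (G) in
/-- the statement about three-sides with two disjoint odd circuits -/
def D2P : Prop := ∀ T, G.T3 T → G.F2 T → ¬ G.K1 T → G.Rall T 0 1 ∧ G.Rall T 1 1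

theorem a3p_of_d2 (hc : G.Cub) (h : G.D2P) : G.A3P := by
  intro T hT hF
  by_cases hK : G.K1 T
  · have k : G.NCx T := ⟨hc, hT.1, hT.2.1, hK, hF⟩
    rcases nd2_even k with k' | k'
    exacts [.inr ⟨cube_xn k k', cube_b2 k k'⟩, .inl ⟨k', nd2_odd1 k⟩]
  · exact .inl (h T hT hF hK)

end SG

end Pool.Agent.Work.MP_8c679b_co
end

-- merged part: Pool.Agent.Work.MP_8c679b_co.A3.DMain
section
/-!
Three-sides with two disjoint odd circuits.
-/

set_option autoImplicit false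

namespace Pool.Agent.Work.MP_8c679b_co

open Finset

namespace SG

variable {V E : Type} [Fintype V] [DecidableEq V] [DecidableEq E] {G : SG V E}
  {T : Finset V} {Bs : Finset (Finset V)} {v0 : V} {F : Kf V E} {M : MP_8c679b_co.Mb V E} {e1 e2 : E}
  {xf : Finset V → E → E → ZMod 2 → Finset V}

/-- a box is not the node of a terminal -/
theorem DMain_box (h : G.Sy T Bs v0) (h1 : e1 ∈ G.cut T) {Z : Finset (Finset V)}
    (hZ : ¬ Disjoint (insert {G.ie T e1} Z) Bs) : ¬ Disjoint Z Bs := fun k =>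
  hZ (disjoint_insert_left.2 ⟨fun r => (h.nd_term h1).1 _ r (mem_singleton_self _), k⟩)

/-- HINT: `top_one`, `on_par`, `on_sign` (closable), `hM`, `top_rall`; the object lies in the rest
(`on_rest`, `Sy.ob_unb`, `Bal` is monotone). -/
theorem d_key (hc : G.Cub) (hT : G.T3 T) (hF : G.F2 T) (h : G.Sy T Bs v0) (hx : G.PkA T xf)
    (hM : G.ThM T) {X t t' : _} (hX : (G.quo T Bs).Vr Bs X) (ht : t ∈ G.tq T) (ht' : t' ∈ G.tq T)
    (hne : t ≠ t') (m : t ∈ X) (m' : t' ∈ X) :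
    G.Rall T 1 1 ∧ ∀ D, (G.quo T Bs).Ob Bs D → Disjoint X D → G.Rall T 0 1 := by
  obtain ⟨R, hR, hv⟩ := hX
  obtain ⟨e1, h1, rfl⟩ := mem_image.1 ht
  obtain ⟨e2, h2, rfl⟩ := mem_image.1 ht'
  obtain ⟨F, M, Xs, Rs, top, ty, rfl, -, -, ok, isM, on, hXe, hRe, hdj⟩ :=
    top_one hc hT hF h hx h1 h2 (fun k => hne (k ▸ rfl)) hR m m'
  obtain ⟨-, -, l0, l1⟩ := top.one ty
  have cb : F.Cb G M := by
    have key : ∀ s : Bool → ZMod 2, (∀ i, s i = Kf.sl G M i ∨ ¬ Disjoint (Xs i) F.Bs) →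
        s false + s true = 1 + F.lam false + F.lam true → F.Cb G M := fun s hs he => by
      obtain ⟨σ, hσ⟩ := on_sign isM on s hs
      refine ⟨σ, ?_⟩
      rw [Kf.Cls, if_pos ty, hσ, hσ]
      exact Or.inr he
    rcases hv with hv | hv
    · refine key (Kf.sl G M) (fun i => Or.inl rfl) ?_
      have k : G.par R = 1 := hv
      rw [hRe, par_union hdj, on_par ok.wf isM on, on_par ok.wf isM on] at k
      rw [l0, l1, ← k]
      linear_combination -z2_add_self (G.n (F.p false)) - z2_add_self (G.n (F.p true)) -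
        z2_add_self (G.n (F.q false)) - z2_add_self (G.n (F.q true))
    · rw [hXe] at hv
      have k := DMain_box h h2 (DMain_box h h1 hv)
      rw [disjoint_union_left, not_and_or] at k
      rcases k with k | k
      · refine key (fun i => if i then Kf.sl G M true else
          1 + F.lam false + F.lam true + Kf.sl G M true) (fun i => ?_) ?_
        · cases i
          exacts [Or.inr k, Or.inl rfl]
        · simp only [if_true, Bool.false_eq_true, if_false]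
          rw [add_assoc, z2_add_self, add_zero]
      · refine key (fun i => if i then 1 + F.lam false + F.lam true + Kf.sl G M false else
          Kf.sl G M false) (fun i => ?_) ?_
        · cases i
          exacts [Or.inl rfl, Or.inr k]
        · simp only [if_true, Bool.false_eq_true, if_false]
          rw [add_comm, add_assoc, z2_add_self, add_zero]
  obtain ⟨w1, w2⟩ := hM F M ok isM cb
  rw [Kf.nat, if_pos ty] at w1
  refine ⟨top_rall hc hT hF top w1, fun D hD hd => top_rall hc hT hF top (w2 (fun k => ?_) 0)⟩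
  refine h.ob_unb hc hT hD (k.mono (ins_mono fun v hv => ?_))
  obtain ⟨v1, v2⟩ := mem_un.1 hv
  have nX : nd F.Bs v ∉ X := fun r => disjoint_left.1 hd r v2
  refine (on_rest ok.wf isM on).2 ⟨?_, fun r => nX ?_⟩
  · rw [top.hY]
    refine mem_erase.2 ⟨?_, mem_erase.2 ⟨?_, v1⟩⟩
    · rintro rfl
      exact nX ((h.nd_term h2).2.symm ▸ m')
    · rintro rfl
      exact nX ((h.nd_term h1).2.symm ▸ m)
  · rw [hXe]
    exact mem_insert_of_mem (mem_insert_of_mem r)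

/-- HINT: `top_two`, `on_par`, `on_sign`, `hM`, `top_rall`. -/
theorem d_fam (hc : G.Cub) (hT : G.T3 T) (hF : G.F2 T) (h : G.Sy T Bs v0) (hx : G.PkA T xf)
    (hM : G.ThM T) {X X' t t' : _} (hX : (G.quo T Bs).Vr Bs X) (hX' : (G.quo T Bs).Vr Bs X')
    (ht : t ∈ G.tq T) (ht' : t' ∈ G.tq T) (m : t ∈ X) (m' : t' ∈ X') (hd : Disjoint X X') :
    G.Rall T 0 1 := by
  obtain ⟨R, hR, hv⟩ := hX
  obtain ⟨R', hR', hv'⟩ := hX'
  obtain ⟨e1, h1, rfl⟩ := mem_image.1 ht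
  obtain ⟨e2, h2, rfl⟩ := mem_image.1 ht'
  obtain ⟨F, M, Xs, top, ty, rfl, -, -, ok, isM, on, hXe, hXe'⟩ :=
    top_two hc hT hF h hx h1 h2 hR hR' hd m m'
  obtain ⟨-, -, l⟩ := top.two ty
  have hs : ∀ i, G.par (if i then R' else R) = 1 → F.lam i + 1 = Kf.sl G M i := fun i k => by
    rw [on_par ok.wf isM on i] at k
    rw [l, ← k]
    linear_combination z2_add_self (G.n (F.p i)) + z2_add_self (G.n (F.q i))
  obtain ⟨σ, hσ⟩ := on_sign isM on (fun i => F.lam i + 1) fun i => by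
    cases i
    · exact hv.imp (hs false) fun k => DMain_box h h1 (hXe ▸ k)
    · exact hv'.imp (hs true) fun k => DMain_box h h2 (hXe' ▸ k)
  have cb : F.Cb G M := ⟨σ, by
    rw [Kf.Cls, if_neg (by simp [ty])]
    exact hσ⟩
  have w1 := (hM F M ok isM cb).1
  rw [Kf.nat, if_neg (by simp [ty])] at w1
  exact top_rall hc hT hF top w1

theorem d_ha (hc : G.Cub) (hT : G.T3 T) (hF : G.F2 T) (h : G.Sy T Bs v0) (hx : G.PkA T xf)
    (hM : G.ThM T) (hn : ¬ G.Rall T 0 1) : (G.quo T Bs).Ha Bs (G.tq T) :=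
  fun _ hX _ ht _ ht' hne m m' D hD hd => hn ((d_key hc hT hF h hx hM hX ht ht' hne m m').2 D hD hd)

theorem d_hb (hc : G.Cub) (hT : G.T3 T) (hF : G.F2 T) (h : G.Sy T Bs v0) (hx : G.PkA T xf)
    (hM : G.ThM T) (hn : ¬ G.Rall T 0 1) : (G.quo T Bs).Hb Bs (G.tq T) :=
  fun _ _ hX hX' _ ht _ ht' m m' hd => hn (d_fam hc hT hF h hx hM hX hX' ht ht' m m' hd)

theorem d_odd (hc : G.Cub) (hT : G.T3 T) (hF : G.F2 T) (hx : G.PkA T xf) (hM : G.ThM T) :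
    G.Rall T 1 1 := by
  obtain ⟨Bs, v0, X, h, hX, t, ht, t', ht', hne, m, m'⟩ := sy_ring hc hT hF
  exact (d_key hc hT hF h hx hM hX ht ht' hne m m').1

end SG

end Pool.Agent.Work.MP_8c679b_co
end
end
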