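import Pool.Agent.Work.MP_8c679b_co.Six.AGad
import Pool.Agent.Work.MP_8c679b_co.K1.Tp2
import Pool.Agent.Work.MP_8c679b_co.Top.LRad
import Pool.Agent.Work.MP_8c679b_co.Six.PAll
import Pool.Agent.Work.MP_8c679b_co.Six.GNorm
import Pool.Agent.Work.MP_8c679b_co.Cubic
import Pool.Agent.Work.MP_8c679b_co.Six.Cut
import Pool.Agent.Work.MP_8c679b_co.Key.MB4

-- merged part: Pool.Agent.Work.MP_8c679b_co.A3.Fam
section
-- merged part: Pool.Agent.Work.MP_8c679b_co.Six.AStepB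
section
/-!
The reductions at cuts with three edges.
-/

set_option autoImplicit false

namespace Pool.Agent.Work.MP_8c679b_co

open Finset

namespace SG

variable {V E : Type} [Fintype V] [DecidableEq V] [DecidableEq E] {G : SG V E}
  {X N N' : Finset V} {a b e : E}

omit [Fintype V] in
theorem AStepB_inter (X : Finset V) :
    G.cut (X ∩ G.vs G.A) = G.cut X ∧ G.ins (X ∩ G.vs G.A) = G.ins X := by
  constructor <;> ext e
  · rw [mem_cut, mem_cut]
    refine and_congr_right fun he => ?_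
    rw [mem_inter, mem_inter, and_iff_left (s_mem_vs he), and_iff_left (t_mem_vs he)]
  · rw [mem_ins, mem_ins]
    refine and_congr_right fun he => ?_
    rw [mem_inter, mem_inter, and_iff_left (s_mem_vs he), and_iff_left (t_mem_vs he)]

omit [Fintype V] in
theorem AStepB_vs : G.cut (G.vs G.A) = ∅ ∧ G.ins (G.vs G.A) = G.A :=
  ⟨eq_empty_of_forall_notMem fun _ he => (mem_cut.1 he).2
    (iff_of_true (s_mem_vs (mem_cut.1 he).1) (t_mem_vs (mem_cut.1 he).1)),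
    Subset.antisymm ins_sub_A (sub_ins_vs Subset.rfl)⟩

omit [Fintype V] in
theorem AStepB_bd {f : E → ℤ} {v : V} (hv : v ∉ G.vs G.A) : G.bd f v = 0 :=
  sum_eq_zero fun e he => by
    have h1 : G.s e ≠ v := fun k => hv (k ▸ s_mem_vs he)
    have h2 : G.t e ≠ v := fun k => hv (k ▸ t_mem_vs he)
    simp [iv, h1, h2]

omit [Fintype V] in
theorem AStepB_nlv {l : V} (h : G.ins {l} = ∅) : ¬ G.Lv l := fun ⟨e, he, h1, h2⟩ =>
  notMem_empty e (h ▸ mem_ins.2 ⟨he, mem_singleton.2 h1, mem_singleton.2 h2⟩)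

theorem AStepB_two (h3 : (G.cut X).card = 3) (h1 : X.card ≠ 1) : 2 ≤ X.card := by
  obtain ⟨e, he⟩ : (G.cut X).Nonempty := card_pos.1 (by omega)
  have := card_pos.2 ⟨_, ie_mem (cut_sub_tch he)⟩
  omega

omit [Fintype V] [DecidableEq E] in
theorem AStepB_min (n3 : G.N3) (hX : X ⊆ G.vs G.A)
    (h : ∀ Y ⊆ X, Y.Nonempty → 3 ≤ (G.cut Y).card) (h3 : (G.cut X).card = 3) (h2 : 2 ≤ X.card) :
    ∃ T ⊆ X, G.T3 T ∧ 2 ≤ T.card := by
  obtain ⟨T, hT, hm⟩ := exists_min_image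
    (X.powerset.filter fun T => (G.cut T).card = 3 ∧ 2 ≤ T.card) card
    ⟨X, mem_filter.2 ⟨mem_powerset_self X, h3, h2⟩⟩
  obtain ⟨h4, h5, h6⟩ := mem_filter.1 hT
  have h7 := mem_powerset.1 h4
  refine ⟨T, h7, ⟨fun Y hY hn => ⟨h Y (hY.trans h7) hn, fun h8 => ?_⟩, h5,
    n3 T h5 (by rwa [inter_eq_left.2 (h7.trans hX)])⟩, h6⟩
  refine or_iff_not_imp_left.2 fun h9 => eq_of_subset_of_card_le hY (hm Y (mem_filter.2
    ⟨mem_powerset.2 (hY.trans h7), h8, ?_⟩))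
  have := card_pos.2 hn
  omega

theorem AStepB_con (hc : G.Cub) (hI : G.IHM) (hC : G.Con) (n1 : G.N1) {G' : SG V E} {x : V}
    {q : V → ZMod 2} (hG : G.Ce G' X x fun e => G.n e + q (G.ie X e)) (h3 : (G.cut X).card = 3)
    (hn : (G.ins X).Nonempty) (hl : ∀ l ∈ X, ¬ G.Lv l) (hA : G'.Adm2)
    (hE : ∀ h, G.Bv X h → G.tw q X h = 0 → G.Ext X h) : G.Six := by
  refine hG.agr.six hc hC n1 (hI G' (hG.cub hc h3) hA (hG.card hn)) hl fun f hf =>
    hE _ (fun e he => (ACon_bv f e).2 (hf.2 e (ACon_cs hG he))) ?_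
  rw [← hG.tw_in, cf_cf]
  exact hf.1 x

/-- HINT: replace `X` by `X ∩ vs A`; `exists_ce`, `Ce.adm_bal` with `bal_rch`, `Ce.tw_in`,
`Agr.six`, `b23`. -/
theorem step3 (hc : G.Cub) (hA : G.Adm2) (hI : G.IHM) (hC : G.Con) (n1 : G.N1) (h : ¬ G.N3) :
    G.Six := by
  unfold N3 at h
  push Not at h
  obtain ⟨X, h3, h2, hB⟩ := h
  rw [← (AStepB_inter X).1] at h3
  rw [← (AStepB_inter X).2] at hB
  have h1 : ∀ Z ⊆ X ∩ G.vs G.A, (G.cut Z).card ≠ 1 := fun Z hZ e =>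
    hA.1 Z e (hB.mono (ins_mono hZ))
  have hl : ∀ l ∈ X ∩ G.vs G.A, ¬ G.Lv l := fun l hl hv =>
    Po.unbal hc hA.1 (Or.inl ⟨l, hv, rfl⟩) (hB.mono (ins_mono (singleton_subset_iff.2 hl)))
  obtain ⟨p, hp⟩ := hB
  obtain ⟨x, hx⟩ := card_pos.1 (lt_of_lt_of_le two_pos h2)
  obtain ⟨G', hG⟩ := exists_ce (G := G) hx fun e => G.n e + p (G.ie (X ∩ G.vs G.A) e)
  have h4 := deg_sum hc (inter_subset_right (s₁ := X))
  exact AStepB_con hc hI hC n1 hG h3 (card_pos.1 (by omega)) hl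
    (hG.adm_bal hA hp (bal_rch h1 h3.le)) fun h => b23 hc inter_subset_right h1 h3.le hp

/-- contraction of a three-side.  HINT: `X3N`, `exists_ce`, `Ce.adm`, `Ce.tw_in`, `Agr.six`
(`HT.vtx`: no loop in `T`). -/
theorem step_con (hc : G.Cub) (hA : G.Adm2) (hI : G.IHM) (hC : G.Con) (n1 : G.N1) (hN : G.X3N)
    {T : Finset V} (hT : G.T3 T)
    (h1 : ∀ Z, T ⊆ Z → (G.cut Z).card = 1 → ¬ G.Bal (G.ins (Z \ T)))
    (h2 : ∀ z, ¬ G.Bal ((G.ins (univ \ T)).erase z)) : G.Six := by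
  obtain ⟨q, -, hq⟩ := hN T hT
  obtain ⟨ht, h3, hu⟩ := hT
  have hn : (G.cut T).Nonempty := card_pos.1 (by omega)
  obtain ⟨e, he⟩ := id hn
  obtain ⟨G', hG⟩ := exists_ce (G := G) (ie_mem (cut_sub_tch he)) fun e => G.n e + q (G.ie T e)
  refine AStepB_con hc hI hC n1 hG h3 (nonempty_iff_ne_empty.2 fun h0 => hu ?_) ?_
    (hG.adm hA hC hn h1 h2) hq
  · rw [h0]
    exact ⟨0, fun _ h => absurd h (notMem_empty _)⟩
  · exact fun l hl => AStepB_nlv (ht.vtx hc hl).2.1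

/-- HINT: a minimal port-free set `T` with three leaving edges and at least two vertices is `T3`
(`small_cut`, `N4`, `N3`).  Both ports are disjoint from `T` and unbalanced (`Po.unbal`); a set
`Z ⊇ T` with one leaving edge misses only a loop vertex, so it contains one of the ports. -/
theorem step6 (hc : G.Cub) (hA : G.Adm2) (hI : G.IHM) (hC : G.Con) (n1 : G.N1) (n3 : G.N3)
    (n4 : G.N4) (h2 : G.TwoP) (hN : G.X3N) (h : ¬ G.N6) : G.Six := by
  unfold N6 at h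
  push Not at h
  obtain ⟨X, hX, h3, h1⟩ := h
  obtain ⟨N, N', hP, hP', hd⟩ := h2
  have hpf : ∀ Y ⊆ X, G.PF Y := fun Y hY v hv => hX v (hY hv)
  have hdj : ∀ M, G.Po M → ∀ v ∈ M, v ∉ X := fun M hM v hv hx =>
    (hX v hx).2 (pt_iff.2 ⟨M, hM, hv⟩)
  obtain ⟨⟨u, hu⟩, hv⟩ := SpSet_po hP
  obtain ⟨⟨u', hu'⟩, hv'⟩ := SpSet_po hP'
  have h4 : ∀ Y ⊆ X, Y.Nonempty → 3 ≤ (G.cut Y).card := fun Y hY hn => by
    have h5 := n4 Y (hpf Y hY)
    by_contra h6
    rcases small_cut hc hC n1 (fun v hv => (hpf Y hY v hv).1) hn (by omega) with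
      ⟨l, hl, rfl⟩ | h7 | ⟨l, -, h7⟩
    · exact (hX l (hY (mem_singleton_self l))).2 (Or.inl hl)
    · exact hdj N hP u hu (hY (h7 ▸ hv hu))
    · have k1 : u ∈ G.vs G.A \ Y := mem_sdiff.2 ⟨hv hu, fun h => hdj N hP u hu (hY h)⟩
      have k2 : u' ∈ G.vs G.A \ Y := mem_sdiff.2 ⟨hv' hu', fun h => hdj N' hP' u' hu' (hY h)⟩
      rw [h7, mem_singleton] at k1 k2
      exact disjoint_left.1 hd hu (k1.trans k2.symm ▸ hu')
  obtain ⟨T, hTX, hT, hT2⟩ := AStepB_min n3 (fun v hv => (hX v hv).1) h4 h3 (AStepB_two h3 h1)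
  refine step_con hc hA hI hC n1 hN hT (fun Z hZ hZ1 hB => ?_) fun z hB => ?_
  · have hTZ : T ⊆ Z ∩ G.vs G.A := subset_inter hZ hT.1.act
    have key : ∀ M, G.Po M → M ⊆ Z → False := fun M hM h => Po.unbal hc hA.1 hM
      (hB.mono (ins_mono fun v hv => mem_sdiff.2 ⟨h hv, fun ht => hdj M hM v hv (hTX ht)⟩))
    rcases small_cut hc hC n1 (inter_subset_right (s₁ := Z))
      (card_pos.1 (lt_of_lt_of_le two_pos (hT2.trans (card_le_card hTZ))))
      (by rw [(AStepB_inter Z).1, hZ1]) with ⟨l, -, h7⟩ | h7 | ⟨l, -, h7⟩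
    · have := card_le_card hTZ
      rw [h7, card_singleton] at this
      omega
    · exact key N hP fun v h => (mem_inter.1 (h7.ge (hv h))).1
    · have k : ∀ M, M ⊆ G.vs G.A → l ∉ M → M ⊆ Z := fun M hM hl v h => by
        by_contra h8
        have : v ∈ G.vs G.A \ (Z ∩ G.vs G.A) := mem_sdiff.2 ⟨hM h, fun k => h8 (mem_inter.1 k).1⟩
        rw [h7, mem_singleton] at this
        exact hl (this ▸ h)
      by_cases hl : l ∈ N
      · exact key N' hP' (k N' hv' (disjoint_left.1 hd hl))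
      · exact key N hP (k N hv hl)
  · have key : ∀ M, G.Po M → z ∉ G.ins M → False := fun M hM h => Po.unbal hc hA.1 hM
      (hB.mono fun e he => mem_erase.2 ⟨fun k => h (k ▸ he), ins_mono
        (fun v hv => mem_sdiff.2 ⟨mem_univ v, fun ht => hdj M hM v hv (hTX ht)⟩) he⟩)
    by_cases hz : z ∈ G.ins N
    · exact key N' hP' fun k => disjoint_left.1 hd (mem_ins.1 hz).2.1 (mem_ins.1 k).2.1
    · exact key N hP hz

/-- HINT: if `N` were the only port then `vs A \ N` (digon) or `vs A \ N` without the neighbour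
of the loop vertex would be a port-free two-side (`Po.disj`, `pt_iff`).  Without ports use
`small_cut` and `N4`. -/
theorem three_conn (hc : G.Cub) (hC : G.Con) (n1 : G.N1) (n4 : G.N4) (h2 : ¬ G.TwoP) :
    (∀ l, ¬ G.Lv l) ∧ ∀ K ⊂ G.vs G.A, K.Nonempty → 3 ≤ (G.cut K).card := by
  have h0 : ∀ N, G.Po N → ∀ M, N ⊆ M → (G.cut M).card ≠ 2 := fun N hN M hM => by
    rw [← SpSet_compl]
    refine n4 _ fun v hv => ⟨(mem_sdiff.1 hv).1, fun hp => ?_⟩
    obtain ⟨N', hN', hv'⟩ := pt_iff.1 hp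
    refine h2 ⟨N, N', hN, hN', hN.disj hc hN' fun e => (mem_sdiff.1 hv).2 (hM (e ▸ hv'))⟩
  have h1 : ∀ l, ¬ G.Lv l := fun l hl => by
    obtain ⟨m, a, -, ha⟩ := hl.str hc
    have ha' : a ∈ G.cut {l} := ha ▸ mem_singleton_self a
    have hu : G.oe {l} a ∉ ({l} : Finset V) := oe_not_mem ha'
    have hA : a ∈ G.A := (mem_cut.1 ha').1
    have hj : G.Je a l (G.oe {l} a) := by
      have := je_ie_oe (G := G) (X := {l}) (e := a)
      rwa [mem_singleton.1 (ie_mem (cut_sub_tch ha'))] at this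
    have hv : G.oe {l} a ∈ G.vs G.A := mem_vs.2 ⟨a, hA, oe_at⟩
    generalize G.oe {l} a = u at hu hj hv
    have k1 : G.ins {u} = ∅ := eq_empty_of_forall_notMem fun e he => by
      obtain ⟨e1, e2, e3⟩ := mem_ins.1 he
      exact h2 ⟨{l}, {u}, Or.inl ⟨l, hl, rfl⟩,
        Or.inl ⟨u, ⟨e, e1, mem_singleton.1 e2, mem_singleton.1 e3⟩, rfl⟩,
        disjoint_singleton_right.2 hu⟩
    have k2 := deg_sum hc (singleton_subset_iff.2 hv)
    have k3 : ({l} : Finset V) ⊆ {l, u} := singleton_subset_iff.2 (mem_insert_self _ _)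
    have k4 := cut_add (G := G) k3
    have k5 : ({l, u} : Finset V) \ {l} = {u} := by
      rw [sdiff_singleton_eq_erase, erase_insert fun h => hu (mem_singleton.2 (mem_singleton.1 h).symm)]
    have k6 : ({a} : Finset E) \ G.cut {l, u} = {a} :=
      sdiff_eq_self_of_disjoint (disjoint_singleton_left.2 fun h => not_ins_of_cut h
        (Cut_je_ins hA hj (mem_insert_self _ _) (mem_insert_of_mem (mem_singleton_self u))))
    rw [k1, card_empty, card_singleton] at k2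
    rw [k5, crs_ins k3, ha, k6, card_singleton] at k4
    exact h0 {l} (Or.inl ⟨l, hl, rfl⟩) _ k3 (by omega)
  refine ⟨h1, fun K hK hn => ?_⟩
  have h3 : G.PF K := fun v hv => ⟨hK.1 hv, fun hp => ?_⟩
  · have h5 := n4 K h3
    by_contra h6
    rcases small_cut hc hC n1 hK.1 hn (by omega) with ⟨l, hl, -⟩ | h7 | ⟨l, hl, -⟩
    · exact h1 l hl
    · exact hK.ne h7
    · exact h1 l hl
  · rcases hp with hp | ⟨N, hN, -⟩
    · exact h1 v hp
    · obtain ⟨_, _, _, _, _, _, _, _, _, _, _, k⟩ := id hN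
      exact h0 N (Or.inr hN) N Subset.rfl k

/-- No nontrivial three-cut.  HINT: `T = (vs A).erase r` is `T3` (a graph with two vertices and
three parallel edges of two signs contradicts `Adm2`); the twist `q` with
`q (ie T e) = n e` (`HT.f2'`) is admissible by `Adm2`; give the edges at `r` the outflows
`1, 1, -2`; `X3O`, `Out.glue`. -/
theorem step7_root (hc : G.Cub) (hA : G.Adm2) (n3 : G.N3) (hO : G.X3O)
    (h3 : ∀ K ⊂ G.vs G.A, K.Nonempty → 3 ≤ (G.cut K).card) (hu : ¬ G.Bal G.A)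
    (hN : ∀ K ⊆ G.vs G.A, (G.cut K).card = 3 → K.card = 1 ∨ (G.vs G.A \ K).card = 1) :
    ∃ f, G.Fl6 f := by
  have hz : ∀ z, ¬ G.Bal (G.A.erase z) := by
    have := hA.2 (G.vs G.A) AStepB_vs.1
    rw [AStepB_vs.2] at this
    exact this hu
  obtain ⟨e0, he0⟩ : G.A.Nonempty := nonempty_iff_ne_empty.2 fun h0 => hu (by
    rw [h0]
    exact ⟨0, fun _ h => absurd h (notMem_empty _)⟩)
  obtain ⟨r, hr⟩ : (G.vs G.A).Nonempty := ⟨_, s_mem_vs he0⟩
  have k0 := deg_sum hc (Subset.refl (G.vs G.A))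
  rw [AStepB_vs.1, card_empty] at k0
  have k1 : ({r} : Finset V) ⊂ G.vs G.A :=
    (singleton_subset_iff.2 hr).ssubset_of_ne fun e => by
      rw [← e, card_singleton] at k0
      omega
  have k2 := h3 _ k1 (singleton_nonempty r)
  have k3 := deg_sum hc k1.1
  rw [card_singleton] at k3
  have k4 : G.ins {r} = ∅ := card_eq_zero.1 (by omega)
  obtain ⟨T, hT⟩ : ∃ T, T = G.vs G.A \ {r} := ⟨_, rfl⟩
  have k5 : G.cut T = G.cut {r} := hT ▸ SpSet_compl _
  have k6 : (G.cut T).card = 3 := by rw [k5]; omega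
  have hm : ∀ v, v ∈ T ↔ v ∈ G.vs G.A ∧ v ≠ r := fun v => by rw [hT, mem_sdiff, mem_singleton]
  have hTs : T ⊆ G.vs G.A := fun v hv => ((hm v).1 hv).1
  have hE : ∀ e ∈ G.A, e ∉ G.ins T → e ∈ G.cut T := fun e he h => by
    refine (mem_tch_iff.1 (mem_tch.2 ⟨he, ?_⟩)).resolve_left h
    by_contra h1
    rw [not_or, hm, hm, not_and, not_and, not_not, not_not] at h1
    exact notMem_empty e (k4 ▸ mem_ins.2 ⟨he, mem_singleton.2 (h1.1 (s_mem_vs he)),
      mem_singleton.2 (h1.2 (t_mem_vs he))⟩)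
  have hbal : ∀ (z : E) (p : V → ZMod 2), (∀ e ∈ G.ins T, e ≠ z → G.sw p e = 0) →
      (∀ e ∈ G.cut T, e ≠ z → p (G.ie T e) = G.n e) → False := fun z p h1 h2 => by
    refine hz z ⟨fun v => if v ∈ T then p v else 0, fun e he => ?_⟩
    obtain ⟨e1, e2⟩ := mem_erase.1 he
    by_cases hi : e ∈ G.ins T
    · have := h1 e hi e1
      rw [sw] at this ⊢
      rwa [if_pos (mem_ins.1 hi).2.1, if_pos (mem_ins.1 hi).2.2]
    · have e3 := hE e e2 hi
      rw [Cut_sw (je_ie_oe (X := T)), if_pos (ie_mem (cut_sub_tch e3)), if_neg (oe_not_mem e3),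
        h2 e e3 e1, add_zero, z2_add_self]
  obtain ⟨a, b, c, hq, hab, hac, hbc⟩ := exists_q3 k6
  have hT2 : 2 ≤ T.card := AStepB_two k6 fun h1 => by
    have k7 := deg_sum hc hTs
    have k8 : G.ins T = ∅ := card_eq_zero.1 (by omega)
    have k9 : ∀ z x, (∀ e ∈ G.cut T, e ≠ z → x = G.n e) → False := fun z x h =>
      hbal z (fun _ => x) (fun e he => absurd (k8 ▸ he) (notMem_empty e)) h
    simp only [hq, mem_insert, mem_singleton, forall_eq_or_imp, forall_eq] at k9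
    have z3 : ∀ x y z : ZMod 2, x = y ∨ x = z ∨ y = z := by decide
    rcases z3 (G.n a) (G.n b) (G.n c) with h | h | h
    · exact k9 c _ ⟨fun _ => rfl, fun _ => h, fun k => absurd rfl k⟩
    · exact k9 b _ ⟨fun _ => rfl, fun k => absurd rfl k, fun _ => h⟩
    · exact k9 a _ ⟨fun k => absurd rfl k, fun _ => rfl, fun _ => h⟩
  have ht : G.HT T := fun Y hY hn => by
    have hrY : r ∉ Y := fun h => ((hm r).1 (hY h)).2 rfl
    refine ⟨h3 Y ((hY.trans hTs).ssubset_of_ne fun e => hrY (e ▸ hr)) hn, fun h => ?_⟩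
    refine (hN Y (hY.trans hTs) h).imp_right fun h1 => Subset.antisymm hY fun v hv => ?_
    by_contra h2
    exact ((hm v).1 hv).2 (card_le_one.1 h1.le v (mem_sdiff.2 ⟨hTs hv, h2⟩) r
      (mem_sdiff.2 ⟨hr, hrY⟩))
  have ha : a ∈ G.cut T := by simp [hq]
  have hb : b ∈ G.cut T := by simp [hq]
  have hc' : c ∈ G.cut T := by simp [hq]
  obtain ⟨q, hq'⟩ : ∃ q : V → ZMod 2, ∀ e ∈ G.cut T, q (G.ie T e) = G.n e := by
    refine ⟨fun v => if v = G.ie T a then G.n a else if v = G.ie T b then G.n b else G.n c, ?_⟩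
    simp only [hq, mem_insert, mem_singleton, forall_eq_or_imp, forall_eq]
    refine ⟨if_pos trivial, ?_, ?_⟩
    · rw [if_neg (ht.f2' hc k6 hT2 hb ha hab.symm), if_pos trivial]
    · rw [if_neg (ht.f2' hc k6 hT2 hc' ha hac.symm), if_neg (ht.f2' hc k6 hT2 hc' hb hbc.symm)]
  obtain ⟨w, hw⟩ : ∃ w : E → ℤ, ∀ e, w e = if e = c then -2 else 1 := ⟨_, fun _ => rfl⟩
  have hw0 : ∑ e ∈ G.cut T, w e = 0 := by
    rw [hq, sum_insert (by simp [hab, hac]), sum_pair hbc, hw, hw, hw, if_neg hac, if_neg hbc,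
      if_pos rfl]
    rfl
  obtain ⟨h, hh⟩ : ∃ h : E → ℤ, ∀ e, h e = G.kap (fun _ => 0) {r} e * w e := ⟨_, fun _ => rfl⟩
  have ho : ∀ e ∈ G.cut {r}, G.out {r} h e = w e := fun e he => by
    rw [out, hh, ← mul_assoc, (kap_sign (fun _ => 0) he).2, one_mul]
  have hB : G.Bv T h := fun e he => by
    rw [hh, hw]
    rcases Def6_kap (fun _ => 0) (k5 ▸ he) with k | k <;> rw [k] <;> split_ifs <;> decide
  have hext := hO T q h ⟨ht, k6, n3 T k6 (by rwa [inter_eq_left.2 hTs])⟩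
    (fun z ⟨p, h1, h2⟩ => hbal z p h1 fun e he k => (h2 e he k).trans (hq' e he)) hB (by
      rw [tw, ← neg_eq_zero, ← hw0, ← sum_neg_distrib]
      refine sum_congr rfl fun e he => ?_
      have := out_link h (disjoint_singleton_left.2 fun k => ((hm r).1 k).2 rfl) (k5 ▸ he) he
      rw [ho e (k5 ▸ he), out] at this
      rw [(kap_sign q he).1, hq' e he, mul_assoc, this, neg_mul, mul_neg, neg_neg, ← mul_assoc,
        chi_mul_self, one_mul])
    ⟨a, ha, by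
      rw [hh, hw, if_neg hac]
      rcases Def6_kap (fun _ => 0) (k5 ▸ ha) with k | k <;> rw [k] <;> decide⟩
  have hout : G.Out T h := ⟨fun v hv => by
    by_cases k : v = r
    · rw [k, bd_single h k4, sum_congr rfl ho, ← k5, hw0]
    · exact AStepB_bd fun k' => hv ((hm v).2 ⟨k', k⟩), fun e he k => hB e (hE e he k)⟩
  obtain ⟨f, hf, -⟩ := hout.glue hext
  exact ⟨f, hf⟩

/-- HINT: `three_conn`, `brg_lv`: there is no bridge.  Balanced: `b23` for `vs A`.  Otherwise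
`step7_root`, or a nontrivial three-cut with sides `X`, `Y`.  If `Y` minus any edge is unbalanced
take a minimal `T ⊆ X` with three leaving edges and at least two vertices: `step_con`; the same
with the sides exchanged.  Otherwise `X - z1` and `Y - z2` are balanced, so an unbalanced set
contains an end of `z1`, of `z2` or of one of two fixed edges of the cut: `tol`. -/
theorem step7 (hc : G.Cub) (hA : G.Adm2) (hI : G.IHM) (hC : G.Con) (n1 : G.N1) (n3 : G.N3)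
    (n4 : G.N4) (h2 : ¬ G.TwoP) (hO : G.X3O) (hN : G.X3N) : G.Six := by
  obtain ⟨hl, h3⟩ := three_conn hc hC n1 n4 h2
  have hb : ∀ e, ¬ G.Brg e := fun e he => by
    obtain ⟨l, k, -⟩ := brg_lv hc hC n1 he
    exact hl l k
  have fin : (∃ f, G.Fl6 f) → G.Six := fun ⟨f, hf⟩ e0 _ _ => ⟨f, hf, fun k => absurd k (hb e0)⟩
  by_cases hu : G.Bal G.A
  · have h1 : ∀ Y ⊆ G.vs G.A, (G.cut Y).card ≠ 1 := fun Y _ e => hA.1 Y e (hu.mono ins_sub_A)
    obtain ⟨p, hp⟩ := hu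
    have h4 := b23 (h := 0) hc Subset.rfl h1 (by rw [AStepB_vs.1]; simp)
      (fun e he => hp e (ins_sub_A he)) (fun e he => absurd ((AStepB_vs (G := G)).1 ▸ he) (notMem_empty e))
      (by simp [tw])
    obtain ⟨f, hf, -⟩ := Out.glue
      ⟨fun v hv => AStepB_bd hv, fun e he k => absurd (AStepB_vs.2.ge he) k⟩ h4
    exact fin ⟨f, hf⟩
  by_cases h4 : ∀ K ⊆ G.vs G.A, (G.cut K).card = 3 → K.card = 1 ∨ (G.vs G.A \ K).card = 1
  · exact fin (step7_root hc hA n3 hO h3 hu h4)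
  push Not at h4
  obtain ⟨X, hX, k3, k1, k2⟩ := h4
  have side : ∀ Y ⊆ G.vs G.A, (G.cut Y).card = 3 → Y.card ≠ 1 →
      (∀ z, ¬ G.Bal ((G.ins (G.vs G.A \ Y)).erase z)) → G.Six := fun Y hY y3 y1 hz => by
    have hY' : Y ⊂ G.vs G.A := hY.ssubset_of_ne fun e => by
      rw [e, AStepB_vs.1, card_empty] at y3
      omega
    obtain ⟨T, hTY, hT, -⟩ := AStepB_min n3 hY
      (fun Z hZ hn => h3 Z (Finset.ssubset_of_subset_of_ssubset hZ hY') hn) y3 (AStepB_two y3 y1)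
    refine step_con hc hA hI hC n1 hN hT (fun Z _ hZ => ?_) fun z hB =>
      hz z (hB.mono (erase_subset_erase z (ins_mono (sdiff_subset_sdiff (subset_univ _) hTY))))
    obtain ⟨e, he⟩ := card_eq_one.1 hZ
    exact absurd ⟨Z, he⟩ (hb e)
  by_cases c2 : ∀ z, ¬ G.Bal ((G.ins (G.vs G.A \ X)).erase z)
  · exact side X hX k3 k1 c2
  by_cases c1 : ∀ z, ¬ G.Bal ((G.ins X).erase z)
  · refine side _ sdiff_subset (by rwa [SpSet_compl]) k2 ?_
    rwa [Finset.sdiff_sdiff_eq_self hX]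
  push Not at c1 c2
  obtain ⟨z1, p1, h1⟩ := c1
  obtain ⟨z2, p2, h2⟩ := c2
  obtain ⟨a, b, c, hq, -⟩ := exists_q3 k3
  have hc' : c ∈ G.cut X := by simp [hq]
  refine fin (tol hc hA h3 n3 hu (M := {G.s z1, G.s z2, G.s a, G.s b})
    (card_le_four.trans (by norm_num)) fun K hK hd => hK ⟨fun v => if v ∈ X then p1 v else
      p2 v + (G.n c + p1 (G.ie X c) + p2 (G.oe X c)), fun e he => ?_⟩)
  obtain ⟨e1, e2, -⟩ := mem_ins.1 he
  have e3 := disjoint_left.1 hd e2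
  simp only [mem_insert, mem_singleton, not_or] at e3
  by_cases e4 : e ∈ G.cut X
  · have e5 := e4
    simp only [hq, mem_insert, mem_singleton] at e5
    obtain rfl : e = c := (e5.resolve_left fun k => e3.2.2.1 (k ▸ rfl)).resolve_left
      fun k => e3.2.2.2 (k ▸ rfl)
    rw [Cut_sw (je_ie_oe (X := X)), if_pos (ie_mem (cut_sub_tch e4)), if_neg (oe_not_mem e4)]
    linear_combination z2_add_self (G.n e + p1 (G.ie X e) + p2 (G.oe X e))
  · rw [mem_cut, not_and, not_not] at e4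
    have e5 := e4 e1
    by_cases e6 : G.s e ∈ X
    · have := h1 e (mem_erase.2 ⟨fun k => e3.1 (k ▸ rfl), mem_ins.2 ⟨e1, e6, e5.1 e6⟩⟩)
      rw [sw] at this ⊢
      rwa [if_pos e6, if_pos (e5.1 e6)]
    · have e7 : G.t e ∉ X := fun k => e6 (e5.2 k)
      have := h2 e (mem_erase.2 ⟨fun k => e3.2.1 (k ▸ rfl), mem_ins.2
        ⟨e1, mem_sdiff.2 ⟨s_mem_vs e1, e6⟩, mem_sdiff.2 ⟨t_mem_vs e1, e7⟩⟩⟩)
      rw [sw] at this ⊢
      rw [if_neg e6, if_neg e7]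
      linear_combination this + z2_add_self (G.n c + p1 (G.ie X c) + p2 (G.oe X c))

end SG

end Pool.Agent.Work.MP_8c679b_co
end

-- merged part: Pool.Agent.Work.MP_8c679b_co.Six.AStepA
section
/-!
The reductions at cuts with at most two edges.
-/

set_option autoImplicit false

namespace Pool.Agent.Work.MP_8c679b_co

open Finset

namespace SG

variable {V E : Type} [Fintype V] [DecidableEq V] [DecidableEq E] {G : SG V E}
  {X N N' : Finset V} {a b e : E}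

omit [Fintype V] in
theorem AStepA_iff (hX : G.cut X = ∅) (he : e ∈ G.A) : G.s e ∈ X ↔ G.t e ∈ X := by
  by_contra k
  exact notMem_empty e (hX ▸ mem_cut.2 ⟨he, k⟩)

theorem AStepA_part (hc : G.Cub) (hA : G.Adm2) (hI : G.IHM) (hX : G.cut X = ∅) (ha : a ∈ G.A)
    (ha' : a ∉ G.ins X) (e0 : E) {c : ℤ} (hc' : c = 2 ∨ c = 4) :
    ∃ f : E → ℤ, (∀ v ∈ X, G.bd f v = 0) ∧ (∀ e ∈ G.ins X, f e ≠ 0 ∧ |f e| ≤ 5) ∧
      (G.Brg e0 → e0 ∈ G.ins X → |f e0| = c) := by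
  have ht : G.tch X = G.ins X := by
    ext e
    rw [mem_tch_iff, hX]
    simp
  let G' : SG V E := ⟨G.ins X, G.s, G.t, G.n⟩
  have h1 : ∀ Z, G'.cut Z = G.cut (Z ∩ X) := fun Z => by
    ext e
    rw [mem_cut, mem_cut, mem_inter, mem_inter]
    change e ∈ G.ins X ∧ ¬ (G.s e ∈ Z ↔ G.t e ∈ Z) ↔ _
    rw [mem_ins]
    have := AStepA_iff (e := e) hX
    (clear * - hc' this; grind)
  have h2 : ∀ Z, G'.ins Z = G.ins (Z ∩ X) := fun Z => by
    ext e
    rw [mem_ins, mem_ins (W := Z ∩ X), mem_inter, mem_inter]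
    change e ∈ G.ins X ∧ G.s e ∈ Z ∧ G.t e ∈ Z ↔ _
    rw [mem_ins]
    tauto
  have h3 : G'.Cub := fun v => by
    change G.deg (G.ins X) v = 0 ∨ G.deg (G.ins X) v = 3
    by_cases hv : v ∈ X
    · have := ACon_dsum (G := G) hv
      rw [ht] at this
      exact (show G.deg G.A v = G.deg (G.ins X) v from this) ▸ hc v
    · refine .inl (Nat.eq_zero_of_not_pos fun k => hv ?_)
      exact (sub_ins_iff.1 subset_rfl).2 (deg_pos.1 k)
  have h4 : G'.Adm2 := ⟨fun Z k => by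
      rw [h1] at k
      rw [h2]
      exact hA.1 _ k, fun Z k k' z => by
      rw [h1] at k
      rw [h2] at k' ⊢
      exact hA.2 _ k k' z⟩
  obtain ⟨f, h5, h6⟩ := hI G' h3 h4 (card_lt_card ⟨ins_sub_A, fun k => ha' (k ha)⟩) e0 c hc'
  refine ⟨f, fun v hv => ?_, h5.2, fun ⟨Z, hZ⟩ he => h6 ⟨Z, ?_⟩⟩
  · rw [← h5.1 v]
    refine (sum_subset ins_sub_A fun e he k => ?_).symm
    rw [← ht] at k
    have k1 : G.s e ≠ v := fun k' => k (mem_tch.2 ⟨he, .inl (k' ▸ hv)⟩)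
    have k2 : G.t e ≠ v := fun k' => k (mem_tch.2 ⟨he, .inr (k' ▸ hv)⟩)
    simp [iv, k1, k2]
  · ext e
    rw [mem_cut, mem_singleton]
    change e ∈ G.ins X ∧ ¬ (G.s e ∈ Z ↔ G.t e ∈ Z) ↔ _
    have k : e ∈ G.cut Z ↔ e = e0 := by rw [hZ, mem_singleton]
    rw [mem_cut] at k
    exact ⟨fun k' => k.1 ⟨ins_sub_A k'.1, k'.2⟩, fun k' => ⟨k' ▸ he, (k.2 k').2⟩⟩

/-- HINT: a component `X` of `vs A` (`cmp_spec`); apply the induction hypothesis to the graphs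
with the edge sets `ins X` and `A \ ins X` and add the flows; a bridge of `G` is a bridge of the
part that contains it. -/
theorem step0 (hc : G.Cub) (hA : G.Adm2) (hI : G.IHM) (h : ¬ G.Con) : G.Six := by
  simp only [Con, Cn, not_forall] at h
  obtain ⟨u, hu, w, hw, huw⟩ := h
  have hi : G.ins (G.vs G.A) = G.A := Subset.antisymm ins_sub_A (sub_ins_vs subset_rfl)
  obtain ⟨k1, -, k2, -⟩ := cmp_spec (G := G) hu
  rw [hi] at k2
  have k3 : w ∉ G.cmp (G.vs G.A) u := fun k => huw (hi ▸ (mem_cmp.1 k).2)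
  generalize G.cmp (G.vs G.A) u = X at k1 k2 k3
  change G.cut X = ∅ at k2
  obtain ⟨a, ha, hau⟩ := mem_vs.1 hu
  obtain ⟨b, hb, hbw⟩ := mem_vs.1 hw
  have k4 : b ∉ G.ins X := fun k => by
    rcases hbw with rfl | rfl
    exacts [k3 (mem_ins.1 k).2.1, k3 (mem_ins.1 k).2.2]
  have k5 : a ∉ G.ins (univ \ X) := fun k => by
    rcases hau with rfl | rfl
    exacts [ACon_c.1 (mem_ins.1 k).2.1 k1, ACon_c.1 (mem_ins.1 k).2.2 k1]
  have k6 : ∀ e ∈ G.A, e ∉ G.ins X → e ∈ G.ins (univ \ X) := fun e he k =>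
    ACon_split (ACon_tch.2 ⟨he, k⟩) (k2 ▸ notMem_empty e)
  intro e0 c hc'
  obtain ⟨f1, a1, a2, a3⟩ := AStepA_part hc hA hI k2 hb k4 e0 hc'
  obtain ⟨f2, b1, b2, b3⟩ := AStepA_part hc hA hI (cut_compl.trans k2) ha k5 e0 hc'
  refine ⟨fun e => if e ∈ G.ins X then f1 e else f2 e, ⟨fun v => ?_, fun e he => ?_⟩,
    fun hb' => ?_⟩
  · rw [Def6_glue fun e he => absurd (k2 ▸ he) (notMem_empty e)]
    split_ifs with hv
    exacts [a1 v hv, b1 v (ACon_c.2 hv)]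
  · dsimp only
    split_ifs with k
    exacts [a2 e k, b2 e (k6 e he k)]
  · dsimp only
    split_ifs with k
    · exact a3 hb' k
    · obtain ⟨Z, hZ⟩ := id hb'
      exact b3 hb' (k6 e0 (mem_cut.1 (hZ ▸ mem_singleton_self e0)).1 k)

theorem AStepA_half (hc : G.Cub) (hA : G.Adm2) (hI : G.IHM) (hX : G.cut X = {e})
    (h2 : (X ∩ G.vs G.A).card ≠ 1) (e0 : E) {c : ℤ} (hc' : c = 2 ∨ c = 4) :
    ∃ f, G.Out X f ∧ ∀ Z, Disjoint Z X → G.cut Z = {e0} → |f e0| = c := by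
  obtain ⟨G', h, k1, k2, k3⟩ := exists_rl hc hA hX h2
  obtain ⟨f, h3, h4⟩ := hI G' k1 k2 k3 e0 c hc'
  refine ⟨G.cf X f, h.outX.1 ?_, fun Z hZ k => ?_⟩
  · rw [cf_cf]
    exact ⟨fun v _ => h3.1 v, fun e he _ => h3.2 e he⟩
  · rw [(cf_abs f e0).1]
    exact h4 ⟨Z, (h.loc hZ).2.1.trans k⟩

theorem AStepA_side (hX : G.cut X = {e}) (ha : a ∉ G.ins X) (hb : G.Brg a) :
    ∃ Z, Disjoint Z X ∧ G.cut Z = {a} := by
  by_cases hae : a = e
  · exact ⟨univ \ X, sdiff_disjoint, hae ▸ cut_compl.trans hX⟩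
  have key : ∀ Z, G.cut Z = {a} → G.s e ∉ Z → G.cut (Z \ X) = {a} := fun Z hZ hs => by
    have k1 : ∀ g, g ∈ G.A ∧ ¬ (G.s g ∈ Z ↔ G.t g ∈ Z) ↔ g = a := fun g => by
      rw [← mem_cut, hZ, mem_singleton]
    have k2 : ∀ g, g ∈ G.A ∧ ¬ (G.s g ∈ X ↔ G.t g ∈ X) ↔ g = e := fun g => by
      rw [← mem_cut, hX, mem_singleton]
    ext g
    rw [mem_cut, mem_sdiff, mem_sdiff, mem_singleton]
    constructor
    · rintro ⟨k3, k4⟩
      by_contra k5
      have k6 : G.s g ∈ Z ↔ G.t g ∈ Z := by_contra fun k => k5 ((k1 g).1 ⟨k3, k⟩)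
      have k7 : g = e := (k2 g).1 ⟨k3, fun k => k4 (by rw [k6, k])⟩
      subst k7
      tauto
    · rintro rfl
      have k3 := (k1 g).2 rfl
      have k4 : G.s g ∈ X ↔ G.t g ∈ X := by_contra fun k => hae ((k2 g).1 ⟨k3.1, k⟩)
      rw [mem_ins] at ha
      (clear * - ha k3 k4; grind)
  obtain ⟨Z, hZ⟩ := hb
  by_cases hs : G.s e ∈ Z
  · exact ⟨_, sdiff_disjoint, key (univ \ Z) (cut_compl.trans hZ) fun k => ACon_c.1 k hs⟩
  · exact ⟨_, sdiff_disjoint, key Z hZ hs⟩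

theorem AStepA_brg (hc : G.Cub) (hA : G.Adm2) (hI : G.IHM) (hX : G.cut X = {e})
    (h1 : (X ∩ G.vs G.A).card ≠ 1) (h2 : ((univ \ X) ∩ G.vs G.A).card ≠ 1) {e0 : E}
    (h0 : e0 ∉ G.ins X) {c : ℤ} (hc' : c = 2 ∨ c = 4) :
    ∃ f, G.Fl6 f ∧ (G.Brg e0 → |f e0| = c) := by
  have he : e ∈ G.cut X := hX ▸ mem_singleton_self e
  obtain ⟨f1, a1, a2⟩ := AStepA_half hc hA hI hX h1 e0 hc'
  have a3 : Even (f1 e) := even_of_cut (cut_compl.trans hX) fun v hv => a1.1 v (ACon_c.1 hv)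
  have a4 := a1.2 e (mem_cut.1 he).1 (not_ins_of_cut he)
  have a5 : |f1 e| = 2 ∨ |f1 e| = 4 := by
    obtain ⟨r, hr⟩ := a3
    rcases abs_cases (f1 e) with k | k <;> omega
  obtain ⟨f2, b1, b2⟩ := AStepA_half hc hA hI (cut_compl.trans hX) h2 e a5
  have b3 := b2 X disjoint_sdiff hX
  have b4 : G.Ext X f2 := ⟨f2, fun _ _ => rfl, fun v hv => b1.1 v fun k => ACon_c.1 k hv,
    fun g hg => b1.2 g (ins_sub_A hg) fun k => ACon_c.1 (mem_ins.1 k).2.1 (mem_ins.1 hg).2.1⟩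
  have b5 : G.Ext X f1 := by
    rcases abs_eq_abs.1 b3 with k | k
    · exact b4.congr fun g hg => by rw [show g = e from mem_singleton.1 (hX ▸ hg), k]
    · exact b4.neg.congr fun g hg => by
        rw [show g = e from mem_singleton.1 (hX ▸ hg), k, neg_neg]
  obtain ⟨f, c1, c2⟩ := a1.glue b5
  refine ⟨f, c1, fun hb => ?_⟩
  obtain ⟨Z, k1, k2⟩ := AStepA_side hX h0 hb
  rw [c2 e0 h0]
  exact a2 Z k1 k2

/-- HINT: let `cut X = {e}` with both sides nontrivial; exchanging `X` with `univ \ X` assume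
`e0 ∉ ins X`.  `exists_rl` for `X` gives `f1` (a bridge `e0 ≠ e` is the cut of a set disjoint
from `X`); the value of `e` is even (`even_of_cut`); `exists_rl` for `univ \ X` gives `f2` with
the same size on `e`; `Agr.outX`, negate if necessary, glue. -/
theorem step1 (hc : G.Cub) (hA : G.Adm2) (hI : G.IHM) (h : ¬ G.N1) : G.Six := by
  simp only [N1, not_forall, not_or] at h
  obtain ⟨X, e, hX, h1, h2⟩ := h
  have h3 : (univ \ X) ∩ G.vs G.A = G.vs G.A \ X := by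
    ext v
    simp [and_comm]
  intro e0 c hc'
  by_cases h0 : e0 ∈ G.ins X
  · refine AStepA_brg hc hA hI (cut_compl.trans hX) (h3 ▸ h2) ?_
      (fun k => ACon_c.1 (mem_ins.1 k).2.1 (mem_ins.1 h0).2.1) hc'
    rwa [sdiff_sdiff_right_self, inf_eq_inter, univ_inter]
  · exact AStepA_brg hc hA hI hX h1 (h3 ▸ h2) h0 hc'

/-- HINT: replace `X` by `X ∩ vs A`; `exists_se`, `Se.adm_bal` with `bal_rch`, `Se.six`, `b23`
(`kap_sign`).  A loop inside a balanced set contradicts `Adm1`. -/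
theorem step2 (hc : G.Cub) (hA : G.Adm2) (hI : G.IHM) (hC : G.Con) (n1 : G.N1) (h : ¬ G.N2) :
    G.Six := by
  simp only [N2, not_forall, not_not] at h
  obtain ⟨X0, h1, p, hp⟩ := h
  have e1 : G.cut (G.vs G.A ∩ X0) = G.cut X0 := by
    rw [← sdiff_sdiff_self_left, SpSet_compl, SpSet_compl]
  have hp' : ∀ e ∈ G.ins (G.vs G.A ∩ X0), G.sw p e = 0 := fun e he =>
    hp e (ins_mono inter_subset_right he)
  rw [← e1] at h1
  have hv : G.vs G.A ∩ X0 ⊆ G.vs G.A := inter_subset_left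
  generalize G.vs G.A ∩ X0 = X at h1 hp' hv
  obtain ⟨a, b, hab, hX⟩ := card_eq_two.1 h1
  have ha : a ∈ G.cut X := hX ▸ mem_insert_self _ _
  have hb : b ∈ G.cut X := hX ▸ mem_insert_of_mem (mem_singleton_self _)
  have hB : ∀ Y ⊆ X, G.Bal (G.ins Y) := fun Y hY => Bal.mono ⟨p, hp'⟩ (ins_mono hY)
  have h2 : ∀ Y ⊆ X, (G.cut Y).card ≠ 1 := fun Y hY k => hA.1 Y k (hB Y hY)
  obtain ⟨G', h⟩ := exists_se hX hab (G.n a + G.n b + p (G.ie X a) + p (G.ie X b))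
  refine h.six hc hC n1 (hI G' (h.cub hc).1
    (Se.adm_bal hA hp' (bal_rch h2 (by omega) a ha b hb) h) (h.cub hc).2)
    (fun l hl k => Po.unbal hc hA.1 (.inl ⟨l, k, rfl⟩) (hB _ (singleton_subset_iff.2 hl)))
    fun g k1 _ k2 => b23 hc hv h2 (by omega) hp' k1 ?_
  have e2 : G.n a + G.n b + p (G.ie X a) + p (G.ie X b) + G.n a + G.n b =
      p (G.ie X a) + p (G.ie X b) := by
    generalize G.n a = x, G.n b = y, p (G.ie X a) = z, p (G.ie X b) = w
    revert x y z w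
    decide
  rw [e2, chi_add] at k2
  rw [tw, hX, sum_pair hab, (kap_sign p ha).1, (kap_sign p hb).1]
  simp only [out] at k2
  have e3 := chi_mul_self (R := ℤ) (p (G.ie X a))
  linear_combination chi (p (G.ie X a)) * k2 -
    chi (p (G.ie X b)) * G.kap (fun _ => 0) X b * g b * e3

theorem AStepA_dg (h2 : X.card = 2) (hl : ∀ l ∈ X, ¬ G.Lv l) (hu : ¬ G.Bal (G.ins X))
    (h : (G.cut X).card = 2) : G.Dg X := by
  obtain ⟨u, v, huv, rfl⟩ := card_eq_two.1 h2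
  have hj : ∀ e ∈ G.ins {u, v}, G.Je e u v := fun e he => by
    obtain ⟨k1, k2, k3⟩ := mem_ins.1 he
    have k4 : G.s e ≠ G.t e := fun k => hl _ k2 ⟨e, k1, rfl, k.symm⟩
    rw [mem_insert, mem_singleton] at k2 k3
    rcases k2 with k2 | k2 <;> rcases k3 with k3 | k3
    exacts [absurd (k2.trans k3.symm) k4, .inl ⟨k2, k3⟩, .inr ⟨k2, k3⟩,
      absurd (k2.trans k3.symm) k4]
  by_contra k
  rcases (G.ins {u, v}).eq_empty_or_nonempty with k1 | ⟨e1, k1⟩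
  · exact hu (k1 ▸ ⟨0, fun e he => absurd he (notMem_empty e)⟩)
  refine hu ⟨fun w => if w = u then G.n e1 else 0, fun e he => ?_⟩
  have k2 : G.n e = G.n e1 := by_contra fun k' =>
    k ⟨u, v, e, e1, huv, rfl, ins_sub_A he, ins_sub_A k1, hj e he, hj e1 k1, k', h⟩
  rw [Cut_sw (hj e he), if_pos rfl, if_neg huv.symm, k2, add_zero, z2_add_self]

/-- HINT: a minimal port-free set `X` with two leaving edges; its proper subsets have at least
three leaving edges (`small_cut`); it is not a digon, so it has at least four vertices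
(`deg_sum`); `exists_rd`, `Dg.nec`, `cf_abs`, `Agr.six`. -/
theorem step4 (hc : G.Cub) (hA : G.Adm2) (hI : G.IHM) (hC : G.Con) (n1 : G.N1) (n2 : G.N2)
    (hS : G.SRD) (h : ¬ G.N4) : G.Six := by
  simp only [N4, not_forall, not_not] at h
  classical
  obtain ⟨X, hX, hm⟩ := exists_min_image
    (univ.filter fun X : Finset V => G.PF X ∧ (G.cut X).card = 2) card
    (h.imp fun X ⟨k1, k2⟩ => mem_filter.2 ⟨mem_univ X, k1, k2⟩)
  obtain ⟨hP, h1⟩ := (mem_filter.1 hX).2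
  have hv : X ⊆ G.vs G.A := fun v hv => (hP v hv).1
  have hl : ∀ l ∈ X, ¬ G.Lv l := fun l hl k => (hP l hl).2 (.inl k)
  have h3 : ∀ Y ⊂ X, Y.Nonempty → 3 ≤ (G.cut Y).card := fun Y hY hn => by
    have k1 : (G.cut Y).card ≠ 2 := fun k => (card_lt_card hY).not_ge
      (hm Y (mem_filter.2 ⟨mem_univ Y, fun v hv => hP v (hY.1 hv), k⟩))
    by_contra k2
    rcases small_cut hc hC n1 (hY.1.trans hv) hn (by omega) with ⟨l, k3, k4⟩ | k3 | ⟨l, k3, k4⟩
    · exact hl l (hY.1 (k4 ▸ mem_singleton_self l)) k3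
    · exact hY.2 (k3 ▸ hv)
    · obtain ⟨x, k5, k6⟩ := exists_of_ssubset hY
      exact hl l (mem_singleton.1 (k4 ▸ mem_sdiff.2 ⟨hv k5, k6⟩) ▸ k5) k3
  have h4 := deg_sum hc hv
  have h5 : X.card ≠ 2 := fun k => by
    obtain ⟨x, hx⟩ := card_pos.1 (show 0 < X.card by omega)
    exact (hP x hx).2 (.inr ⟨X, AStepA_dg k hl (n2 X h1) h1, hx⟩)
  obtain ⟨a, b, hab, hab'⟩ := card_eq_two.1 h1
  obtain ⟨G', N, h, k1, k2, k3, k4, k5⟩ := exists_rd hc hA n2 hab' hab (by omega) (by omega)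
  refine h.six hc hC n1 (hI G' k1 k2 k3) hl fun f hf => ?_
  obtain ⟨k6, k7⟩ := k4.nec k1 k5 hab hf
  refine hS X a b _ hab' hab h3 (n2 X h1)
    (fun e he => (ACon_bv f e).2 (hf.2 e (mem_cut.1 (h.cutX ▸ he)).1)) ?_ ?_
  · rwa [Int.even_add, (cf_abs f a).2.2, (cf_abs f b).2.2, ← Int.even_add]
  · rwa [(cf_abs f a).1, (cf_abs f b).1]

/-- graphs that consist of ports only -/
theorem six_of_ports (hc : G.Cub) (hA : G.Adm1) {Ps : Finset (Finset V)} (hP : ∀ N ∈ Ps, G.Po N)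
    (hv : ∀ v ∈ G.vs G.A, ∃ N ∈ Ps, v ∈ N) {h : E → ℤ} (hB : ∀ e, h e ≠ 0 ∧ |h e| ≤ 5)
    (hL : ∀ l, G.Lv l → ∀ e ∈ G.cut {l}, Even (h e))
    (hD : ∀ N ∈ Ps, G.Dg N → ∀ e ∈ G.cut N, ∀ f ∈ G.cut N, e ≠ f →
      Even (h e + h f) ∧ |h e| ≠ |h f|) :
    ∃ f, G.Fl6 f ∧ ∀ N ∈ Ps, ∀ e ∈ G.cut N, f e = h e := by
  have hpd : PD Ps := fun N k N' k' => (hP N k).disj hc (hP N' k')
  obtain ⟨f, k1, k2⟩ := glue_fam (G := G) (h := h) hpd (fun N hN => by
    rcases hP N hN with ⟨l, k1, rfl⟩ | k1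
    · exact k1.ext hc hA (fun e _ => hB e) (hL l k1)
    · obtain ⟨a, b, hab, k2⟩ := card_eq_two.1 (show (G.cut N).card = 2 by
        obtain ⟨_, _, _, _, _, _, _, _, _, _, _, k⟩ := k1
        exact k)
      have k3 := hD N hN k1 a (k2 ▸ mem_insert_self _ _) b
        (k2 ▸ mem_insert_of_mem (mem_singleton_self _)) hab
      exact k1.ext hc k2 (fun e _ => hB e) k3.1 k3.2) (fun v k => by
    have k1 : v ∉ G.vs G.A := fun k' => (hv v k').elim fun N k'' => k N k''.1 k''.2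
    refine sum_eq_zero fun e he => ?_
    have k2 : G.s e ≠ v := fun k' => k1 (k' ▸ s_mem_vs he)
    have k3 : G.t e ≠ v := fun k' => k1 (k' ▸ t_mem_vs he)
    simp [iv, k2, k3]) fun e _ _ => hB e
  refine ⟨f, k1, fun N hN e he => k2 e fun N' hN' k => ?_⟩
  by_cases k3 : N = N'
  · exact not_ins_of_cut he (k3 ▸ k)
  · refine disjoint_left.1 (hpd N hN N' hN' k3) (ie_mem (cut_sub_tch he)) ?_
    rcases ie_at (G := G) (X := N) (e := e) with k4 | k4
    exacts [k4 ▸ (mem_ins.1 k).2.1, k4 ▸ (mem_ins.1 k).2.2]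

theorem AStepA_fin (hc : G.Cub) (hA : G.Adm1) (hC : G.Con) (n1 : G.N1) {Ps : Finset (Finset V)}
    (hP : ∀ N ∈ Ps, G.Po N) (hv : ∀ v ∈ G.vs G.A, ∃ N ∈ Ps, v ∈ N)
    (hh : ∀ (e0 : E) (c : ℤ), (c = 2 ∨ c = 4) → ∃ h : E → ℤ, (∀ e, h e ≠ 0 ∧ |h e| ≤ 5) ∧
      (∀ l, G.Lv l → (∀ e, Even (h e)) ∧ |h e0| = c) ∧
      ∀ N ∈ Ps, G.Dg N → ∀ e ∈ G.cut N, ∀ f ∈ G.cut N, e ≠ f →
        Even (h e + h f) ∧ |h e| ≠ |h f|) : G.Six := by
  intro e0 c hc'
  obtain ⟨h, h1, h2, h3⟩ := hh e0 c hc'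
  obtain ⟨f, k1, k2⟩ := six_of_ports hc hA hP hv h1 (fun l hl e _ => (h2 l hl).1 e) h3
  refine ⟨f, k1, fun hb => ?_⟩
  obtain ⟨l, k3, k4⟩ := brg_lv hc hC n1 hb
  have k5 : G.Po {l} := .inl ⟨l, k3, rfl⟩
  obtain ⟨N, k6, k7⟩ := hv l ((SpSet_po k5).2 (mem_singleton_self l))
  have k8 : N = {l} := by_contra fun k =>
    disjoint_left.1 ((hP N k6).disj hc k5 k) k7 (mem_singleton_self l)
  rw [k2 N k6 e0 (by rw [k8, k4]; exact mem_singleton_self e0)]
  exact (h2 l k3).2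

omit [Fintype V] in
theorem AStepA_two {m : E} (hN : G.Dg N) (hm : m ∈ G.cut N) : ∃ a, a ≠ m ∧ G.cut N = {a, m} := by
  obtain ⟨_, _, _, _, _, _, _, _, _, _, _, k⟩ := hN
  obtain ⟨a, b, hab, k2⟩ := card_eq_two.1 k
  rw [k2, mem_insert, mem_singleton] at hm
  rcases hm with rfl | rfl
  exacts [⟨b, hab.symm, k2.trans (pair_comm _ _)⟩, ⟨a, hab, k2⟩]

theorem AStepA_even (hc : G.Cub) (hA : G.Adm1) (hC : G.Con) (n1 : G.N1) {Ps : Finset (Finset V)}
    (hP : ∀ N ∈ Ps, G.Po N) (hv : ∀ v ∈ G.vs G.A, ∃ N ∈ Ps, v ∈ N) {m : E}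
    (hm : ∀ N ∈ Ps, G.Dg N → m ∈ G.cut N) : G.Six := by
  refine AStepA_fin hc hA hC n1 hP hv fun e0 c hc' => ?_
  obtain ⟨x, hx, hx'⟩ : ∃ x : ℤ, (x = 2 ∨ x = 4) ∧ (if e0 = m then x else 6 - x) = c := by
    by_cases k : e0 = m
    · exact ⟨c, hc', if_pos k⟩
    · exact ⟨6 - c, by omega, by rw [if_neg k]; ring⟩
  refine ⟨fun e => if e = m then x else 6 - x, fun e => ?_, fun l _ => ⟨fun e => ?_, ?_⟩,
    fun N hN hD e he f hf hef => ?_⟩
  · rcases hx with rfl | rfl <;> dsimp only <;> split_ifs <;> decide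
  · rcases hx with rfl | rfl <;> dsimp only <;> split_ifs <;> decide
  · dsimp only
    rw [hx']
    rcases hc' with rfl | rfl <;> rfl
  · obtain ⟨a, k1, k2⟩ := AStepA_two hD (hm N hN hD)
    rw [k2, mem_insert, mem_singleton] at he hf
    rcases he with rfl | rfl <;> rcases hf with rfl | rfl
    · exact absurd rfl hef
    · rcases hx with rfl | rfl <;> simp only [if_neg k1, if_pos] <;> decide
    · rcases hx with rfl | rfl <;> simp only [if_neg k1, if_pos] <;> decide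
    · exact absurd rfl hef

omit [Fintype V] in
theorem AStepA_cut (hd : Disjoint N N') :
    e ∈ G.cut (N ∪ N') ↔ ¬ (e ∈ G.cut N ↔ e ∈ G.cut N') := by
  rw [mem_cut, mem_cut, mem_cut, mem_union, mem_union]
  have k1 : G.s e ∈ N → G.s e ∉ N' := fun k => disjoint_left.1 hd k
  have k2 : G.t e ∈ N → G.t e ∉ N' := fun k => disjoint_left.1 hd k
  (clear * - k1 k2; grind)

theorem AStepA_eq (hc : G.Cub) (hA : G.Adm1) (hC : G.Con) (n1 : G.N1) (hN : G.Po N) (hN' : G.Po N')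
    (hne : N ≠ N') (h : G.cut N = G.cut N') (he : e ∈ G.cut N) : G.Six := by
  have h1 : G.cut (N ∪ N') = ∅ := eq_empty_of_forall_notMem fun g hg =>
    (AStepA_cut (hN.disj hc hN' hne)).1 hg (by rw [h])
  obtain ⟨⟨u, hu⟩, hu'⟩ := SpSet_po hN
  refine AStepA_even hc hA hC n1 (Ps := {N, N'}) (m := e) ?_ (fun v hv => ?_) ?_
  · simp only [mem_insert, mem_singleton, forall_eq_or_imp, forall_eq]
    exact ⟨hN, hN'⟩
  · simp only [mem_insert, mem_singleton, exists_eq_or_imp, exists_eq_left]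
    exact mem_union.1 ((hC u (hu' hu) v hv).closed (P := (· ∈ N ∪ N'))
      (fun g hg => AStepA_iff h1 hg) (mem_union_left _ hu))
  · simp only [mem_insert, mem_singleton, forall_eq_or_imp, forall_eq]
    exact ⟨fun _ => he, fun _ => h ▸ he⟩

theorem AStepA_ld (hc : G.Cub) (hA : G.Adm1) (hC : G.Con) (n1 : G.N1) {l : V} (hl : G.Lv l)
    (hN : G.Dg N) (he : e ∈ G.cut {l}) (he' : e ∈ G.cut N) : G.Six := by
  obtain ⟨_, e', -, k1⟩ := hl.str hc
  obtain rfl : e = e' := mem_singleton.1 (k1 ▸ he)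
  obtain ⟨a, k2, k3⟩ := AStepA_two hN he'
  have p1 : G.Po {l} := .inl ⟨l, hl, rfl⟩
  have k4 : G.cut ({l} ∪ N) = {a} := by
    ext g
    rw [AStepA_cut (disjoint_singleton_left.2 (Def6_lv hc hl hN)), k1, k3, mem_insert,
      mem_singleton, mem_singleton]
    constructor
    · tauto
    · rintro rfl
      tauto
  rcases small_cut hc hC n1 (union_subset (SpSet_po p1).2 (SpSet_po (.inr hN)).2)
    ⟨l, mem_union_left _ (mem_singleton_self l)⟩ (by rw [k4, card_singleton]) with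
    ⟨l', k5, k6⟩ | k5 | ⟨l', k5, k6⟩
  · obtain ⟨u, hu⟩ := (SpSet_po (.inr hN)).1
    exact absurd (mem_singleton.1 (k6 ▸ mem_union_right _ hu) ▸ hu) (Def6_lv hc k5 hN)
  · have k6 := mem_cut.1 (show a ∈ G.cut (G.vs G.A) by rw [← k5, k4]; exact mem_singleton_self a)
    exact absurd (iff_of_true (s_mem_vs k6.1) (t_mem_vs k6.1)) k6.2
  refine AStepA_even hc hA hC n1 (Ps := {{l}, N, {l'}}) (m := e) ?_ (fun v hv => ?_) ?_
  · simp only [mem_insert, mem_singleton, forall_eq_or_imp, forall_eq]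
    exact ⟨p1, .inr hN, .inl ⟨l', k5, rfl⟩⟩
  · by_cases k : v ∈ {l} ∪ N
    · rcases mem_union.1 k with k | k
      exacts [⟨_, by simp, k⟩, ⟨_, by simp, k⟩]
    · exact ⟨{l'}, by simp, k6 ▸ mem_sdiff.2 ⟨hv, k⟩⟩
  · simp only [mem_insert, mem_singleton, forall_eq_or_imp, forall_eq]
    exact ⟨fun _ => he, fun _ => he',
      fun k => absurd (mem_singleton_self l') (Def6_lv hc k5 k)⟩

/-- HINT: two adjacent ports `N, N'`.  Two loop vertices, or a loop vertex and a digon (then by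
`small_cut` the only other vertex has a loop), or two digons with both edges in common:
`six_of_ports` with the values `c`; `c, 6 - c`; `1, 3` (`brg_lv`, `Po.disj`).  Two digons in
series: `se_adm`, `Se.six`, `dd_ext`, or three digons with the values `1, 3, 5`. -/
theorem step5 (hc : G.Cub) (hA : G.Adm2) (hI : G.IHM) (hC : G.Con) (n1 : G.N1) (n2 : G.N2)
    (n3 : G.N3) (h : ¬ G.N5) : G.Six := by
  simp only [N5, not_forall, not_disjoint_iff] at h
  obtain ⟨N, N', hN, hN', hne, m, hm, hm'⟩ := h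
  by_cases he : G.cut N = G.cut N'
  · exact AStepA_eq hc hA.1 hC n1 hN hN' hne he hm
  have hd := hN.disj hc hN' hne
  rcases hN with ⟨l, hl, rfl⟩ | hN <;> rcases hN' with ⟨l', hl', rfl⟩ | hN'
  · obtain ⟨_, a, -, k1⟩ := hl.str hc
    obtain ⟨_, b, -, k2⟩ := hl'.str hc
    exact absurd (by rw [k1, k2, ← show m = a from mem_singleton.1 (k1 ▸ hm),
      ← show m = b from mem_singleton.1 (k2 ▸ hm')]) he
  · exact AStepA_ld hc hA.1 hC n1 hl hN' hm hm'
  · exact AStepA_ld hc hA.1 hC n1 hl' hN hm' hm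
  obtain ⟨a, k1, k2⟩ := AStepA_two hN hm
  obtain ⟨b, k3, k4⟩ := AStepA_two hN' hm'
  have hab : a ≠ b := fun k => he (by rw [k2, k4, k])
  have k5 : G.cut (N ∪ N') = {a, b} := by
    clear * - E V G N N' a b hd m k2 k4 k1 hab k3
    ext g
    rw [AStepA_cut hd, k2, k4]
    simp only [mem_insert, mem_singleton]
    constructor
    · tauto
    · rintro (rfl | rfl)
      · tauto
      · have := hab.symm
        tauto
  have hv : N ∪ N' ⊆ G.vs G.A := union_subset (SpSet_po (.inr hN)).2 (SpSet_po (.inr hN')).2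
  have h2 : 2 ≤ (N ∪ N').card := by
    obtain ⟨u, v, _, _, huv, rfl, _⟩ := hN
    exact (card_pair huv).ge.trans (card_le_card subset_union_left)
  rcases se_adm hc hA hC n1 n2 n3 k5 hab hv h2 with ⟨τ, hτ⟩ | h3
  · obtain ⟨G', h⟩ := exists_se k5 hab τ
    exact h.six hc hC n1 (hI G' (h.cub hc).1 (hτ G' h) (h.cub hc).2)
      (fun l hl k => (mem_union.1 hl).elim (Def6_lv hc k hN) (Def6_lv hc k hN'))
      fun g hg k _ => dd_ext hc hN hN' hd k2 (k4.trans (pair_comm _ _)) hab hg k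
  have h4 : ∀ v ∈ G.vs G.A, v ∈ N ∨ v ∈ N' ∨ v ∈ G.vs G.A \ (N ∪ N') := fun v hv => by
    by_cases k : v ∈ N ∪ N'
    · exact (mem_union.1 k).imp id .inl
    · exact .inr (.inr (mem_sdiff.2 ⟨hv, k⟩))
  refine AStepA_fin hc hA.1 hC n1 (Ps := {N, N', G.vs G.A \ (N ∪ N')}) ?_ (fun v hv => ?_)
    fun e0 c _ => ⟨fun e => if e = a then 1 else if e = b then 3 else 5, fun e => ?_,
      fun l hl => ?_, fun M hM _ e he f hf hef => ?_⟩
  · simp only [mem_insert, mem_singleton, forall_eq_or_imp, forall_eq]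
    exact ⟨.inr hN, .inr hN', .inr h3⟩
  · simp only [mem_insert, mem_singleton, exists_eq_or_imp, exists_eq_left]
    exact h4 v hv
  · dsimp only
    split_ifs <;> decide
  · rcases h4 l ((SpSet_po (.inl ⟨l, hl, rfl⟩)).2 (mem_singleton_self l)) with k | k | k
    exacts [absurd k (Def6_lv hc hl hN), absurd k (Def6_lv hc hl hN'),
      absurd k (Def6_lv hc hl h3)]
  · have h5 : ∀ g ∈ G.cut M, g = a ∨ g = b ∨ g = m := fun g hg => by
      simp only [mem_insert, mem_singleton] at hM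
      rcases hM with rfl | rfl | rfl
      · rw [k2, mem_insert, mem_singleton] at hg
        grind
      · rw [k4, mem_insert, mem_singleton] at hg
        grind
      · rw [SpSet_compl, k5, mem_insert, mem_singleton] at hg
        grind
    rcases h5 e he with rfl | rfl | rfl <;> rcases h5 f hf with rfl | rfl | rfl <;>
      first
        | exact absurd rfl hef
        | (simp only [if_neg hab.symm, if_neg k1.symm, if_neg k3.symm, if_pos]; decide)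

end SG

end Pool.Agent.Work.MP_8c679b_co
end

-- merged part: Pool.Agent.Work.MP_8c679b_co.Top.RSeven
section
/-!
A vertex with two edges to a three-side.
-/

set_option autoImplicit false

namespace Pool.Agent.Work.MP_8c679b_co

open Finset

namespace SG

variable {V E : Type} [Fintype V] [DecidableEq V] [DecidableEq E] {G : SG V E}
  {G' : SG V E} {X T Z : Finset V} {a b c d m m' : E} {u w : V}

omit [Fintype V] [DecidableEq V] [DecidableEq E] in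
theorem RSeven_loop {S : Finset E} (h1 : G.s m = G.t m) (h2 : G.n m = 1) (hm : m ∈ S) :
    ¬ G.Bal S := by
  rintro ⟨p, hp⟩
  have := hp m hm
  rw [sw, h1, h2, add_assoc, z2_add_self, add_zero] at this
  exact one_ne_zero this

theorem RSeven_one (h : G.Agr G' X) (hA : G.Adm1) (hX : G.cut X = {a, b}) (ha : G'.t a ∈ Z)
    (hb : G'.t b ∉ Z) (hZ : G'.cut Z = ∅) : ¬ G'.Bal (G'.ins (Z \ X)) := by
  obtain ⟨k3, k4, -⟩ := h.loc (Z := Z \ X) sdiff_disjoint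
  have k : ∀ f ∈ G.cut X, f ∈ G'.cut (Z \ X) ↔ G'.t f ∈ Z := fun f hf => by
    have k5 := mem_cut.1 (h.cutX ▸ hf : f ∈ G'.cut X)
    have k6 := (h.cut f hf).2
    have k7 : f ∉ G'.cut Z := by simp [hZ]
    simp only [mem_cut, k5.1, true_and, not_not, k6, iff_true] at k5 k7
    simp [mem_cut, (mem_cut.1 (h.cutX ▸ hf : f ∈ G'.cut X)).1, k5, k6, k7]
  rw [k3, (h.bal sdiff_disjoint Subset.rfl).1]
  refine hA _ (card_eq_one.2 ⟨a, ?_⟩)
  rw [← k4]
  refine eq_singleton_iff_unique_mem.2 ⟨(k a (by simp [hX])).2 ha, fun f hf => ?_⟩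
  have k5 := cut_sdiff_sub hf
  rw [hZ, empty_union, h.cutX] at k5
  have k6 := (k f k5).1 hf
  rw [hX, mem_insert, mem_singleton] at k5
  exact k5.resolve_right fun r => hb (r ▸ k6)

theorem RSeven_adm (h : G.Agr G' X) (hA : G.Adm2) (hX : G.cut X = {a, b}) (hu : u ∈ X)
    (hw : w ∈ X) (h0 : ∀ f ∈ G'.A, ∀ v ∈ X, G'.At f v → v ∈ ({u, w} : Finset V))
    (h1 : m ∈ G'.A ∧ G'.s m = u ∧ G'.t m = u ∧ G'.n m = 1)
    (h2 : m' ∈ G'.A ∧ G'.s m' = w ∧ G'.t m' = w ∧ G'.n m' = 1) (hm : m ≠ m') (ha : G'.t a = u)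
    (hb : G'.t b = w) : G'.Adm2 := by
  have k : ∀ Z, u ∉ Z → w ∉ Z → G'.ins Z = G.ins (Z \ X) ∧ G'.cut Z = G.cut (Z \ X) := by
    intro Z z1 z2
    obtain ⟨k1, k2⟩ := AGad_loc (G := G') (Z := Z) (Z' := Z \ X) fun f hf v hv =>
      ⟨fun k => mem_sdiff.2 ⟨k, fun k' => by
        rcases mem_insert.1 (h0 f hf v k' hv) with r | r
        exacts [z1 (r ▸ k), z2 (mem_singleton.1 r ▸ k)]⟩, fun k => (mem_sdiff.1 k).1⟩
    obtain ⟨k3, k4, -⟩ := h.loc (Z := Z \ X) sdiff_disjoint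
    exact ⟨k1.trans k3, k2.trans k4⟩
  have l1 : ∀ {S}, m ∈ S → ¬ G'.Bal S := RSeven_loop (h1.2.1.trans h1.2.2.1.symm) h1.2.2.2
  have l2 : ∀ {S}, m' ∈ S → ¬ G'.Bal S := RSeven_loop (h2.2.1.trans h2.2.2.1.symm) h2.2.2.2
  have i1 : ∀ {Z}, u ∈ Z → m ∈ G'.ins Z := fun r =>
    mem_ins.2 ⟨h1.1, h1.2.1 ▸ r, h1.2.2.1 ▸ r⟩
  have i2 : ∀ {Z}, w ∈ Z → m' ∈ G'.ins Z := fun r =>
    mem_ins.2 ⟨h2.1, h2.2.1 ▸ r, h2.2.2.1 ▸ r⟩
  have sub : ∀ {Z y}, G'.s y ∈ X → G'.ins (Z \ X) ⊆ (G'.ins Z).erase y := fun r f hf =>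
    mem_erase.2 ⟨fun k5 => (mem_sdiff.1 (mem_ins.1 hf).2.1).2 (k5 ▸ r), ins_mono sdiff_subset hf⟩
  refine ⟨fun Z hZ hB => ?_, fun Z hZ hB z hz => ?_⟩
  · obtain ⟨k1, k2⟩ := k Z (fun r => l1 (i1 r) hB) fun r => l2 (i2 r) hB
    rw [k1] at hB
    exact hA.1 _ (k2 ▸ hZ) ((h.bal sdiff_disjoint Subset.rfl).1.1 hB)
  have z1 : u ∈ Z → z = m := fun r => by_contra fun r' => l1 (mem_erase.2 ⟨Ne.symm r', i1 r⟩) hz
  have z2 : w ∈ Z → z = m' := fun r => by_contra fun r' => l2 (mem_erase.2 ⟨Ne.symm r', i2 r⟩) hz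
  by_cases c1 : u ∈ Z <;> by_cases c2 : w ∈ Z
  · exact hm ((z1 c1).symm.trans (z2 c2))
  · exact RSeven_one h hA.1 hX (ha ▸ c1) (hb ▸ c2) hZ (hz.mono (sub (z1 c1 ▸ h1.2.1 ▸ hu)))
  · exact RSeven_one h hA.1 (hX.trans (pair_comm _ _)) (hb ▸ c2) (ha ▸ c1) hZ
      (hz.mono (sub (z2 c2 ▸ h2.2.1 ▸ hw)))
  · obtain ⟨k1, k2⟩ := k Z c1 c2
    rw [k1] at hB hz
    exact hA.2 _ (k2 ▸ hZ) (fun k => hB ((h.bal sdiff_disjoint Subset.rfl).1.2 k)) z
      ((h.bal sdiff_disjoint (erase_subset _ _)).1.1 hz)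

/-- Replacing a two-side by two vertices with negative loops. -/
theorem exists_rll (hc : G.Cub) (hA : G.Adm2) (hX : G.cut X = {a, b}) (hab : a ≠ b)
    (h2 : 2 ≤ X.card) (h3 : 3 ≤ (G.ins X).card) :
    ∃ G', G.Agr G' X ∧ G'.Cub ∧ G'.Adm2 ∧ G'.A.card < G.A.card ∧ G'.Brg a ∧ G'.Brg b := by
  obtain ⟨u, hu, w, hw, huw⟩ := one_lt_card.1 h2
  obtain ⟨e1, he1, e2, he2, h12⟩ := one_lt_card.1 (by omega : 1 < (G.ins X).card)
  obtain ⟨G', hG, l1, l2, l3, l4⟩ := AGad_mk (insert_subset he1 (singleton_subset_iff.2 he2))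
    (fun f => if f = e1 then u else w) (fun f => if f = e1 ∨ f = a then u else w) (fun _ => 1)
    (fun f => by split_ifs <;> assumption) fun f => by split_ifs <;> assumption
  have ha : a ∈ G.cut X := by simp [hX]
  have hb : b ∈ G.cut X := by simp [hX]
  have k1 : b ≠ e1 := fun k => not_ins_of_cut hb (k ▸ he1)
  have k2 : e2 ≠ a := fun k => not_ins_of_cut ha (k ▸ he2)
  obtain ⟨m1, m2, m3⟩ := l3 e1 (by simp)
  obtain ⟨m4, m5, m6⟩ := l3 e2 (by simp)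
  have l5 := l4 a ha
  have l6 := l4 b hb
  simp only [k1, k2, h12.symm, hab.symm, if_true, if_false, true_or, or_true, or_self]
    at m1 m2 m4 m5 l5 l6
  have a1 : e1 ∈ G'.A := ins_sub_A (W := X) (by simp [l1])
  have a2 : e2 ∈ G'.A := ins_sub_A (W := X) (by simp [l1])
  have h0 := AGad_act (N := {u, w}) hG (by simp [l1, m1, m2, m4, m5]) fun f hf => by
    rw [l4 f hf]
    split_ifs <;> simp
  have hc' : G'.Cub := fun v => by
    by_cases hv : v ∈ X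
    · rw [AGad_deg hv, l1, hG.cutX, hX, deg, sum_pair h12, sum_pair hab, inc, inc, m1, m2, m4, m5,
        l5, l6]
      by_cases k : u = v
      · simp [iv, k, show w ≠ v from fun k' => huw (k.trans k'.symm)]
      · by_cases k' : w = v <;> simp [iv, k, k']
    · rw [(hG.deg hv).1]
      exact hc v
  have t : ∀ f ∈ G.cut X, G'.t f = G'.ie X f := fun f hf =>
    eq_ie (hG.cutX ▸ hf) (hG.cut f hf).2 (.inr rfl)
  have br : ∀ f ∈ G.cut X, G'.Lv (G'.ie X f) → G'.Brg f := fun f hf hl => by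
    obtain ⟨y, g, -, k⟩ := hl.str hc'
    have k3 := (mem_inter.1 (Cut_ie (hG.cutX ▸ hf : f ∈ G'.cut X) rfl)).1
    exact ⟨_, k.trans (congrArg _ (mem_singleton.1 (k ▸ k3)).symm)⟩
  refine ⟨G', hG, hc', RSeven_adm hG hA hX hu hw h0 ⟨a1, m1, m2, m3⟩ ⟨a2, m4, m5, m6⟩ h12
    ((t a ha).trans l5) ((t b hb).trans l6), ?_, br a ha (l5 ▸ ⟨e1, a1, m1, m2⟩),
    br b hb (l6 ▸ ⟨e2, a2, m4, m5⟩)⟩
  rw [card_pair h12] at l2
  omega

/-- a pair group together with a vertex that sends two edges to it accepts all even values -/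
theorem RSeven_ext (hP : G.Pr T) (hq : G.Q3 T a b c) (hu : u ∉ T) (hs : G.Q3 {u} a b d)
    (h0 : G.ins {u} = ∅) (hK : G.cut (T ∪ {u}) = {c, d}) {h : E → ℤ}
    (hc : |h c| = 2 ∨ |h c| = 4) (hd : |h d| = 2 ∨ |h d| = 4) : G.Ext (T ∪ {u}) h := by
  obtain ⟨q1, hab, hac, hbc⟩ := hq
  obtain ⟨q2, -, had, hbd⟩ := hs
  have ma : a ∈ G.cut {u} := by simp [q2]
  have mb : b ∈ G.cut {u} := by simp [q2]
  have md : d ∈ G.cut {u} := by simp [q2]
  obtain ⟨r, hr⟩ : ∃ r, r = G.out {u} h d := ⟨_, rfl⟩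
  have r1 : |r| = |h d| := by rcases Def6_out h md with k | k <;> simp [hr, k]
  obtain ⟨g, hg⟩ : ∃ g : ℤ → ℤ → E → ℤ, ∀ x y e, g x y e =
      if e = a then G.kap (fun _ => 0) {u} a * x else
        if e = b then G.kap (fun _ => 0) {u} b * y else h e := ⟨_, fun _ _ _ => rfl⟩
  have ga : ∀ x y, g x y a = G.kap (fun _ => 0) {u} a * x := fun x y => by rw [hg, if_pos rfl]
  have gb : ∀ x y, g x y b = G.kap (fun _ => 0) {u} b * y := fun x y => by
    rw [hg, if_neg hab.symm, if_pos rfl]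
  have gc : ∀ x y, g x y c = h c := fun x y => by rw [hg, if_neg hac.symm, if_neg hbc.symm]
  have gd : ∀ x y, g x y d = h d := fun x y => by rw [hg, if_neg had.symm, if_neg hbd.symm]
  have aa : ∀ x y, |g x y a| = |x| := fun x y => by
    rcases Def6_kap (fun _ => 0) ma with k | k <;> simp [ga, k]
  have ab : ∀ x y, |g x y b| = |y| := fun x y => by
    rcases Def6_kap (fun _ => 0) mb with k | k <;> simp [gb, k]
  have nz : ∀ x : ℤ, |x| = 2 ∨ |x| = 4 → (x : ZMod 3) ≠ 0 := fun x hx k => by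
    rw [ZMod.intCast_zmod_eq_zero_iff_dvd] at k
    rcases abs_cases x with k' | k' <;> omega
  obtain ⟨i, mi, hi⟩ := hP (fun e => (g r r e : ZMod 3)) (by
    simp only [q1, mem_insert, mem_singleton, forall_eq_or_imp, forall_eq]
    exact ⟨nz _ (by rwa [aa, r1]), nz _ (by rwa [ab, r1]), nz _ (by rwa [gc])⟩)
  obtain ⟨x, y, x1, x2, x3, x4, x5, x6, x7⟩ : ∃ x y : ℤ, x + (y + r) = 0 ∧
      (|x| = 2 ∨ |x| = 4) ∧ (|y| = 2 ∨ |y| = 4) ∧ (x : ZMod 3) = r ∧ (y : ZMod 3) = r ∧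
      (i = b → |x| ≠ 4) ∧ (i ≠ b → |y| ≠ 4) := by
    obtain ⟨x, y, k1, k2, k3, k4, k5⟩ : ∃ x y : ℤ, x + (y + r) = 0 ∧
        (|x| = 2 ∨ |x| = 4) ∧ |y| = 2 ∧ (x : ZMod 3) = r ∧ (y : ZMod 3) = r := by
      have : r = 2 ∨ r = -2 ∨ r = 4 ∨ r = -4 := by rcases abs_cases r with k | k <;> omega
      rcases this with rfl | rfl | rfl | rfl
      exacts [⟨-4, 2, by decide⟩, ⟨4, -2, by decide⟩, ⟨-2, -2, by decide⟩, ⟨2, 2, by decide⟩]
    by_cases k : i = b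
    · exact ⟨y, x, by omega, .inl k3, k2, k5, k4, fun _ => by omega, fun k' => absurd k k'⟩
    · exact ⟨x, y, k1, k2, .inl k3, k4, k5, fun k' => absurd k' k, fun _ => by omega⟩
  have sz : ∀ e ∈ G.cut T, |g x y e| = 2 ∨ |g x y e| = 4 := by
    simp only [q1, mem_insert, mem_singleton, forall_eq_or_imp, forall_eq]
    exact ⟨by rwa [aa], by rwa [ab], by rwa [gc]⟩
  refine Ext.trans (f := g x y) subset_union_left ?_ (fun v hv => ?_) (fun e he he' => ?_)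
    (hi _ (fun e he => ⟨sz e he, ?_⟩) ?_)
  · simp only [hK, mem_insert, mem_singleton, forall_eq_or_imp, forall_eq]
    exact ⟨gc x y, gd x y⟩
  · obtain rfl : v = u :=
      mem_singleton.1 ((mem_union.1 (mem_sdiff.1 hv).1).resolve_left (mem_sdiff.1 hv).2)
    rw [bd_single _ h0, q2, sum_insert (by simp [hab, had]), sum_pair hbd, out, out, out, ga, gb,
      gd, ← mul_assoc, ← mul_assoc, (kap_sign (fun _ => 0) ma).2, (kap_sign (fun _ => 0) mb).2,
      one_mul, one_mul, ← out, ← hr, x1]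
  · have k : e ∈ G.cut T := by
      obtain ⟨k1, k2, k3⟩ := mem_ins.1 he
      refine mem_cut.2 ⟨k1, fun k4 => ?_⟩
      by_cases k5 : G.s e ∈ T
      · exact he' (mem_ins.2 ⟨k1, k5, k4.1 k5⟩)
      · exact notMem_empty e (h0 ▸ mem_ins.2 ⟨k1, (mem_union.1 k2).resolve_left k5,
          (mem_union.1 k3).resolve_left fun k6 => k5 (k4.2 k6)⟩)
    have := sz e k
    rcases abs_cases (g x y e) with k' | k' <;> omega
  · revert e
    simp only [q1, mem_insert, mem_singleton, forall_eq_or_imp, forall_eq, ga, gb, gc,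
      Int.cast_mul, x4, x5, and_self]
  · intro e he e' he' n1 n2 k1 k2
    have k3 : ∀ f, f ≠ i → |g x y f| = 4 → f ≠ b := by
      rintro f k4 k5 rfl
      exact x7 k4.symm (ab x y ▸ k5)
    have k4 : ∀ f f', f ≠ i → f' ≠ i → |g x y f| = 4 → f = a → f' ≠ c := by
      rintro f f' k5 k6 k7 rfl rfl
      simp only [q1, mem_insert, mem_singleton, k5.symm, k6.symm, false_or, or_false] at mi
      exact x6 mi (aa x y ▸ k7)
    simp only [q1, mem_insert, mem_singleton, k3 e n1 k1, k3 e' n2 k2, false_or] at he he'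
    rcases he with he | he <;> rcases he' with he' | he'
    exacts [he.trans he'.symm, absurd he' (k4 e e' n1 n2 k1 he), absurd he (k4 e' e n2 n1 k2 he'),
      he.trans he'.symm]

/-- a vertex with two edges to a port-free three-side -/
theorem step_n7 (hc : G.Cub) (hA : G.Adm2) (hI : G.IHM) (hC : G.Con) (n1 : G.N1) (n8 : G.N8)
    (h3 : ¬ G.E3) (h : ¬ G.N7) : G.Six := by
  unfold N7 at h
  push Not at h
  obtain ⟨T, hF, hT, a, ha, b, hb, hu, hab⟩ := h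
  obtain ⟨c, hq⟩ : ∃ c, G.Q3 T a b c := by
    obtain ⟨R, k1, k2, k3, k4⟩ := Cut_rest (k := 1) hT.2.1 ha hb hab
    obtain ⟨c, rfl⟩ := card_eq_one.1 k1
    exact ⟨c, k2, hab, fun k => k3 (mem_singleton.2 k), fun k => k4 (mem_singleton.2 k)⟩
  have hn : G.oe T a ∉ T := oe_not_mem ha
  have m : ∀ e ∈ G.cut T, G.oe T e = G.oe T a → e ∈ G.cut {G.oe T a} := fun e he k =>
    (mem_cut_single (hT.1.noloop hc (cut_sub_tch he))).2 ⟨(mem_cut.1 he).1, k ▸ oe_at⟩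
  have ma := m a ha rfl
  have mb := m b hb hu.symm
  have hv : G.oe T a ∈ G.vs G.A := mem_vs.2 ⟨a, (mem_cut.1 ha).1, oe_at⟩
  generalize G.oe T a = u at hn ma mb hv
  have k1 := deg_sum hc (singleton_subset_iff.2 hv)
  have k2 := card_le_card (insert_subset ma (singleton_subset_iff.2 mb))
  rw [card_pair hab] at k2
  rw [card_singleton] at k1
  have h0 : G.ins {u} = ∅ := card_eq_zero.1 (by omega)
  obtain ⟨d, hs⟩ : ∃ d, G.Q3 {u} a b d := by
    obtain ⟨R, k1, k2, k3, k4⟩ := Cut_rest (k := 1) (by omega) ma mb hab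
    obtain ⟨c, rfl⟩ := card_eq_one.1 k1
    exact ⟨c, k2, hab, fun k => k3 (mem_singleton.2 k), fun k => k4 (mem_singleton.2 k)⟩
  have hd : Disjoint T {u} := disjoint_singleton_right.2 hn
  have hK : T ∪ {u} ⊆ G.vs G.A := union_subset hT.1.act (singleton_subset_iff.2 hv)
  have hcd : c ≠ d := by
    rintro rfl
    have k3 : G.vs G.A ⊆ T ∪ {u} := Cn.sub_of_crs hC (eq_empty_of_forall_notMem fun e he =>
      AStepA_cut hd |>.1 he (by rw [hq.1, hs.1])) hv (by simp)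
    refine h3 fun K hK' hne => ?_
    by_cases k4 : u ∈ K
    · rw [← SpSet_compl]
      exact hT.1.mono3 (fun v hv' => (mem_union.1 (k3 (mem_sdiff.1 hv').1)).resolve_right
        fun k => (mem_sdiff.1 hv').2 (mem_singleton.1 k ▸ k4)) (sdiff_nonempty.2 hK'.2)
    · exact hT.1.mono3 (fun v hv' => (mem_union.1 (k3 (hK'.1 hv'))).resolve_right
        fun k => k4 (mem_singleton.1 k ▸ hv')) hne
  have hX : G.cut (T ∪ {u}) = {c, d} := by
    clear * - E V G T u c d hd a b hq hs hab hcd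
    ext e
    rw [AStepA_cut hd, hq.1, hs.1]
    simp only [mem_insert, mem_singleton]
    have := hq.2.2.1
    have := hq.2.2.2
    have := hs.2.2.1
    have := hs.2.2.2
    by_cases r1 : e = a <;> by_cases r2 : e = b <;> by_cases r3 : e = c <;> by_cases r4 : e = d <;>
      simp_all
  have k3 := deg_sum hc hK
  have k4 := deg_sum hc hT.1.act
  have k5 : 0 < (G.ins T).card := card_pos.2 (nonempty_iff_ne_empty.2 fun k => hT.2.2 (by
    rw [k]
    exact ⟨0, fun _ h => absurd h (notMem_empty _)⟩))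
  have k6 := hT.2.1
  rw [hX, card_pair hcd, card_union_of_disjoint hd, card_singleton] at k3
  obtain ⟨G', hG, c1, c2, c3, c4, c5⟩ := exists_rll hc hA hX hcd
    (by rw [card_union_of_disjoint hd, card_singleton]; omega) (by omega)
  have sz : ∀ f, G'.Fl6 f → ∀ e ∈ G.cut (T ∪ {u}), G'.Brg e →
      |G.cf (T ∪ {u}) f e| = 2 ∨ |G.cf (T ∪ {u}) f e| = 4 := by
    rintro f hf e he ⟨Z, hZ⟩
    have r1 := (even_of_cut hZ fun v _ => hf.1 v).two_dvd
    have r2 := hf.2 e (mem_cut.1 (hG.cutX ▸ he : e ∈ G'.cut _)).1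
    rw [(cf_abs f e).1]
    rcases abs_cases (f e) with k | k <;> omega
  refine hG.six hc hC n1 (hI G' c1 c2 c3) (fun l hl => ?_) fun f hf =>
    RSeven_ext (n8 T hF hT).2 hq hn hs h0 hX (sz f hf c (by rw [hX]; simp) c4)
      (sz f hf d (by rw [hX]; simp) c5)
  rcases mem_union.1 hl with k | k
  · exact AStepB_nlv (hT.1.vtx hc k).2.1
  · exact AStepB_nlv (mem_singleton.1 k ▸ h0)

end SG

end Pool.Agent.Work.MP_8c679b_co
end

-- merged part: Pool.Agent.Work.MP_8c679b_co.A3.Lift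
section
/-!
The lift with capacity groups.

HINT.  Repeat the proof of `lift6` (file `Six/Lift6`), but call `Lift6_core` (which does not need a
cubic graph) for the graph `G'` on `V ⊕ Finset V × Bool` with edges `E ⊕ Finset V`:
`G'.A = (G.tch W).disjSum Ts`, the ends of `inl e` are `ρ (G.s e)`, `ρ (G.t e)` with
`ρ v = if v ∈ W then inl v else inr (nd Ts v, false)`, the edge `inr T` goes from `inr (T, false)` to
`inr (T, true)`.  `W' = W.disjSum (Ts ×ˢ {false})`, `P = Pk = ∅`, `w = 0`.  Weights: at an end in `W` as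
in `lift6` (`|Lift6_u (r e) (-a e)|`), at an end `inr (T, false)` of `inl e` the weight is two, the
edge `inr T` has weight zero.  For an edge `e` between `W` and `T ∈ Ts` the weight at the end in `W`
is two or four (the edge is off `O`); `ty (inl e)` holds iff it is two.  In both cases `|f e| = 4`
iff the node of `T` picks `e`, and it picks exactly one edge.  A set `K ⊆ W'` that contains the node
of `T` has the free edge `inr T` in its cut, so the hypothesis of `Lift6_core` is needed only for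
images of subsets of `W`, where it is the computation of `lift6` (`Lift6_par`).
Split the file if it gets long.
-/

set_option autoImplicit false

namespace Pool.Agent.Work.MP_8c679b_co

open Finset

namespace SG

variable {V E : Type} [Fintype V] [DecidableEq V] [DecidableEq E] {G : SG V E}
  {W : Finset V} {O : Finset E} {φ : E → ZMod 3}

omit [Fintype V] in
lemma Lift_cnd {Ts : Finset (Finset V)} (hpd : PD Ts) {T : Finset V} (hT : T ∈ Ts) {v : V} :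
    nd Ts v = T ↔ v ∈ T := by
  refine ⟨fun k => k ▸ mem_insert_self _ _, fun k => ?_⟩
  ext u
  simp only [nd, mem_insert, mem_biUnion, mem_filter, id]
  refine ⟨?_, fun k' => Or.inr ⟨T, ⟨hT, k⟩, k'⟩⟩
  rintro (rfl | ⟨N, ⟨k1, k2⟩, k3⟩)
  · exact k
  · by_contra k4
    exact disjoint_left.1 (hpd N k1 T hT fun k5 => k4 (k5 ▸ k3)) k2 k

/-- the image of a vertex in the graph with group nodes -/
def Lift_cr (W : Finset V) (Ts : Finset (Finset V)) (v : V) : V ⊕ Finset V × Bool :=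
  if v ∈ W then Sum.inl v else Sum.inr (nd Ts v, false)

/-- the graph at `W` with one node and one free edge for every member of `Ts` -/
def Lift_cG (G : SG V E) (W : Finset V) (Ts : Finset (Finset V)) :
    SG (V ⊕ Finset V × Bool) (E ⊕ Finset V) where
  A := (G.tch W).disjSum Ts
  s := Sum.elim (fun e => Lift_cr W Ts (G.s e)) fun T => Sum.inr (T, false)
  t := Sum.elim (fun e => Lift_cr W Ts (G.t e)) fun T => Sum.inr (T, true)
  n := fun _ => 0

omit [Fintype V] in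
lemma Lift_crl {Ts : Finset (Finset V)} {u v : V} :
    Lift_cr W Ts v = Sum.inl u ↔ v ∈ W ∧ v = u := by
  unfold Lift_cr
  split_ifs with k <;> simp [k]

omit [Fintype V] in
lemma Lift_crr {Ts : Finset (Finset V)} {T : Finset V} {v : V} :
    Lift_cr W Ts v = Sum.inr (T, false) ↔ v ∉ W ∧ nd Ts v = T := by
  unfold Lift_cr
  split_ifs with k <;> simp [k]

omit [Fintype V] in
lemma Lift_crm {Ts : Finset (Finset V)} {K : Finset V} {X : Finset (Finset V × Bool)} {v : V}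
    (hK : K ⊆ W) : Lift_cr W Ts v ∈ K.disjSum X ↔ v ∈ K ∨ v ∉ W ∧ (nd Ts v, false) ∈ X := by
  have := @hK v
  unfold Lift_cr
  split_ifs with k
  · simp [k]
  · simp only [inr_mem_disjSum, k, not_false_eq_true, true_and]
    exact ⟨Or.inr, fun k' => k'.resolve_left fun k1 => k (this k1)⟩

theorem Lift_ccore {ty : E → Prop} [DecidablePred ty] {y1 y2 : E → ℤ} {Ts : Finset (Finset V)}
    (hl : ∀ e ∈ G.tch W, G.s e ≠ G.t e) (y0 : ∀ e, 0 ≤ y1 e ∧ 0 ≤ y2 e)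
    (hy : ∀ e ∈ G.ins W, (ty e → y1 e = y2 e) ∧ (¬ ty e → y1 e + y2 e = 6))
    (hv : ∀ v ∈ W, ∑ e ∈ G.A, (iv (G.s e = v) * y1 e + iv (G.t e = v) * y2 e) ≤ 6)
    (hpd : PD Ts) (hT : ∀ T ∈ Ts, Disjoint T W ∧ (G.cut T).card ≤ 3 ∧ ∀ e ∈ G.cut T,
      e ∈ G.tch W → (if G.s e ∈ W then y1 e else y2 e) = 2 ∨
        (if G.s e ∈ W then y1 e else y2 e) = 4)
    (hK : ∀ K ⊆ W, ∀ B ⊆ G.cut K,
      Odd (K.card + ((G.ins K).filter fun e => ¬ ty e).card + B.card) →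
      6 ≤ ∑ e ∈ G.cut K, (if e ∈ B then 6 - (if G.s e ∈ K then y1 e else y2 e)
        else (if G.s e ∈ K then y1 e else y2 e))) :
    ∃ Q : V → E → Prop, (∀ v ∈ W, ∃ e0 ∈ G.A, G.At e0 v ∧ ∀ e, Q v e ↔ e = e0) ∧
      (∀ e ∈ G.ins W, (ty e → (Q (G.s e) e ↔ Q (G.t e) e)) ∧
        (¬ ty e → (Q (G.s e) e ↔ ¬ Q (G.t e) e))) ∧
      ∀ T ∈ Ts, ∃ e0 : E ⊕ Finset V, ∀ e ∈ G.cut T, e ∈ G.tch W →
        (Q (G.ie W e) e ↔ (if G.s e ∈ W then y1 e else y2 e) = 2) → Sum.inl e = e0 := by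
  classical
  have mA : ∀ e, Sum.inl e ∈ (G.Lift_cG W Ts).A ↔ e ∈ G.tch W := fun e => inl_mem_disjSum
  have mT : ∀ T, Sum.inr T ∈ (G.Lift_cG W Ts).A ↔ T ∈ Ts := fun e => inr_mem_disjSum
  have s1 : ∀ e, (G.Lift_cG W Ts).s (Sum.inl e) = Lift_cr W Ts (G.s e) := fun _ => rfl
  have t1 : ∀ e, (G.Lift_cG W Ts).t (Sum.inl e) = Lift_cr W Ts (G.t e) := fun _ => rfl
  have s2 : ∀ T, (G.Lift_cG W Ts).s (Sum.inr T) = Sum.inr (T, false) := fun _ => rfl
  have t2 : ∀ T, (G.Lift_cG W Ts).t (Sum.inr T) = Sum.inr (T, true) := fun _ => rfl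
  have r1 : ∀ v ∈ W, Lift_cr W Ts v = Sum.inl v := fun v k => if_pos k
  have r2 : ∀ v, v ∉ W → Lift_cr W Ts v = Sum.inr (nd Ts v, false) := fun v k => if_neg k
  have dT : ∀ T ∈ Ts, ∀ v ∈ T, v ∉ W := fun T k v k' => disjoint_left.1 (hT T k).1 k'
  have cT : ∀ T ∈ Ts, ∀ e ∈ G.tch W, G.s e ∈ T ∨ G.t e ∈ T → e ∈ G.cut T := fun T k e he k' => by
    obtain ⟨k1, k2⟩ := mem_tch.1 he
    have k3 := dT T k (G.s e)
    have k4 := dT T k (G.t e)
    exact mem_cut.2 ⟨k1, by (clear * - k' k2 k3 k4; tauto)⟩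
  obtain ⟨Q, q1, q2, -⟩ := Lift6_core (G := G.Lift_cG W Ts) (W := W.disjSum (Ts ×ˢ {false}))
    (P := ∅) (Pk := ∅)
    (ty := Sum.elim (fun e => if G.s e ∈ W ∧ G.t e ∈ W then ty e else
      (if G.s e ∈ W then y1 e else y2 e) = 2) fun _ => True)
    (y1 := Sum.elim (fun e => if G.s e ∈ W then y1 e else 2) fun _ => 0)
    (y2 := Sum.elim (fun e => if G.t e ∈ W then y2 e else 2) fun _ => 0) (w := fun _ => 0)
    (wp := fun _ => 0) (empty_subset _) Subset.rfl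
    (by
      rintro (e | T) he
      · have k := (mA e).1 (mem_tch.1 he).1
        have k1 := hl e k
        have k2 := (mem_tch.1 k).2
        rw [s1, t1]
        unfold Lift_cr
        split_ifs with k3 k4 k4
        exacts [fun k5 => k1 (Sum.inl_injective k5), Sum.inl_ne_inr, Sum.inr_ne_inl,
          (k2.elim k3 k4).elim]
      · simp [s2, t2])
    (by
      rintro (e | T)
      · have := y0 e
        simp only [Sum.elim_inl]
        constructor <;> split_ifs <;> omega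
      · simp)
    (by
      rintro (e | T) he
      · obtain ⟨k1, k2, k3⟩ := mem_ins.1 he
        rw [mA] at k1
        rw [s1, Lift_crm Subset.rfl] at k2
        rw [t1, Lift_crm Subset.rfl] at k3
        simp only [mem_product, mem_singleton, and_true] at k2 k3
        simp only [Sum.elim_inl]
        by_cases k4 : G.s e ∈ W <;> by_cases k5 : G.t e ∈ W
        · simpa only [k4, k5, and_self, if_true] using hy e (mem_ins.2 ⟨(mem_tch.1 k1).1, k4, k5⟩)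
        · have k6 := (k3.resolve_left k5).2
          have := (hT _ k6).2.2 e (cT _ k6 e k1 (Or.inr ((Lift_cnd hpd k6).1 rfl))) k1
          simp only [k4, k5, and_false, if_true, if_false] at this ⊢
          omega
        · have k6 := (k2.resolve_left k4).2
          have := (hT _ k6).2.2 e (cT _ k6 e k1 (Or.inl ((Lift_cnd hpd k6).1 rfl))) k1
          simp only [k4, k5, false_and, if_true, if_false] at this ⊢
          omega
        · exact ((mem_tch.1 k1).2.elim k4 k5).elim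
      · have := (mem_ins.1 he).2.2
        simp [t2] at this)
    (by
      clear * - V W Ts E G y1 y2 s1 t1 y0 hv hpd hT cT
      rintro (v | ⟨T, c⟩) hv'
      · rw [inl_mem_disjSum] at hv'
        refine le_trans ?_ (hv v hv')
        change ∑ e ∈ (G.tch W).disjSum Ts, _ ≤ _
        rw [sum_disjSum]
        simp only [Sum.elim_inl, Sum.elim_inr, mul_zero, add_zero, sum_const_zero, s1, t1,
          Lift_crl]
        refine (sum_congr rfl fun e _ => ?_).trans_le (sum_le_sum_of_subset_of_nonneg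
          Ab_tch_sub fun e _ _ => ?_)
        · unfold iv
          by_cases k1 : G.s e = v <;> by_cases k2 : G.t e = v <;> simp [k1, k2, hv']
        · have := y0 e
          unfold iv
          split_ifs <;> omega
      · rw [inr_mem_disjSum, mem_product, mem_singleton] at hv'
        obtain ⟨k1, rfl⟩ : T ∈ Ts ∧ c = false := hv'
        change ∑ e ∈ (G.tch W).disjSum Ts, _ ≤ _
        rw [sum_disjSum]
        simp only [Sum.elim_inl, Sum.elim_inr, mul_zero, add_zero, sum_const_zero, s1, t1,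
          Lift_crr, Lift_cnd hpd k1]
        have k2 : ∑ e ∈ G.tch W, (if e ∈ G.cut T then 2 else 0 : ℤ) ≤ 6 := by
          rw [sum_ite_mem, sum_const, nsmul_eq_mul]
          have k3 := card_le_card (inter_subset_right (s₁ := G.tch W) (s₂ := G.cut T))
          have := (hT T k1).2.1
          omega
        refine le_trans (sum_le_sum fun e he => ?_) k2
        have k3 := cT T k1 e he
        have k4 := (mem_tch.1 he).2
        unfold iv
        by_cases k5 : G.s e ∈ W <;> by_cases k6 : G.t e ∈ W <;> by_cases k7 : e ∈ G.cut T <;>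
          simp only [k5, k6, k7, not_true, not_false_eq_true, false_and, true_and, if_true,
            if_false, imp_false, not_or, or_self] at k3 k4 ⊢ <;> (try split_ifs) <;>
          first | omega | tauto)
    (fun e he => absurd he (notMem_empty e))
    (fun K kW B kB k1 k2 => by
      have e1 : K = K.toLeft.disjSum ∅ := by
        ext (v | ⟨T, c⟩)
        · simp
        · refine iff_of_false (fun k => ?_) (by simp)
          have k3 := kW k
          rw [inr_mem_disjSum, mem_product, mem_singleton] at k3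
          obtain ⟨k3, rfl⟩ : T ∈ Ts ∧ c = false := k3
          have k4 : Sum.inr (T, true) ∉ K := fun k' => by simpa using kW k'
          refine notMem_empty _ (k1 (Sum.inr T) (mem_cut.2 ⟨(mT T).2 k3, ?_⟩)
            (mem_cut.2 ⟨(mT T).2 k3, ?_⟩)).1
          · simp [s2, t2, k, k4]
          · simp [s2, t2, k3]
      have kW' : K.toLeft ⊆ W := fun v k => by simpa using kW (mem_toLeft.1 k)
      generalize K.toLeft = K0 at e1 kW'
      subst e1
      have e2 : (G.Lift_cG W Ts).cut (K0.disjSum ∅) = (G.cut K0).disjSum ∅ := by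
        clear * - E V G W Ts K0 mA s1 t1 kW' s2 t2
        ext (e | T)
        · rw [inl_mem_disjSum, mem_cut, mem_cut, mA, s1, t1, Lift_crm kW', Lift_crm kW', mem_tch]
          have := @kW' (G.s e)
          have := @kW' (G.t e)
          simp only [notMem_empty, and_false, or_false]
          tauto
        · simp [mem_cut, s2, t2]
      have e3 : ∀ e, Sum.inl e ∈ (G.Lift_cG W Ts).ins (K0.disjSum ∅) ↔ e ∈ G.ins K0 := fun e => by
        rw [mem_ins, mem_ins, mA, s1, t1, Lift_crm kW', Lift_crm kW', mem_tch]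
        have := @kW' (G.s e)
        simp only [notMem_empty, and_false, or_false]
        tauto
      rw [e2] at kB
      have e4 : B = B.toLeft.disjSum ∅ := by
        ext (e | T)
        · simp
        · exact iff_of_false (fun k => by simpa using kB k) (by simp)
      have kB' : B.toLeft ⊆ G.cut K0 := fun e k => by simpa using kB (mem_toLeft.1 k)
      generalize B.toLeft = B0 at e4 kB'
      subst e4
      have k3 := hK K0 kW' B0 kB' (by
        rw [card_disjSum, card_disjSum, show filter _ _ =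
          ((G.ins K0).filter fun e => ¬ ty e).disjSum ∅ from ?_, card_disjSum] at k2
        · simpa using k2
        ext (e | T)
        · rw [inl_mem_disjSum, mem_filter, mem_filter, e3, Sum.elim_inl]
          refine and_congr_right fun k => ?_
          rw [if_pos ⟨kW' (mem_ins.1 k).2.1, kW' (mem_ins.1 k).2.2⟩]
        · simp)
      rw [sdiff_empty, inter_empty, sum_empty, e2, sum_disjSum, sum_empty]
      simp only [Nat.cast_zero, sum_const_zero, add_zero, inl_mem_disjSum, s1, Lift_crm kW',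
        notMem_empty, and_false, or_false, Sum.elim_inl]
      refine k3.trans_eq (sum_congr rfl fun e he => ?_)
      have k4 := (mem_cut.1 he).2
      by_cases k5 : G.s e ∈ K0
      · simp only [k5, kW' k5, if_true]
      · have k6 : G.t e ∈ K0 := by tauto
        simp only [k5, kW' k6, if_true, if_false])
    (Or.inr (by simp))
  refine ⟨fun v e => Q (Sum.inl v) (Sum.inl e), fun v hv' => ?_, fun e he => ?_, fun T k => ?_⟩
  · obtain ⟨e0 | T, k1, k2, k3⟩ := q1 (Sum.inl v) (inl_mem_disjSum.2 hv')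
    · refine ⟨e0, Ab_tch_sub ((mA _).1 k1), k2.imp (fun k => (Lift_crl.1 k).2)
        fun k => (Lift_crl.1 k).2, fun e => (k3 _).trans Sum.inl_injective.eq_iff⟩
    · exact k2.elim (fun k => absurd k Sum.inr_ne_inl) fun k => absurd k Sum.inr_ne_inl
  · obtain ⟨k1, k2, k3⟩ := mem_ins.1 he
    have := q2 (Sum.inl e) (mem_ins.2 ⟨(mA e).2 (ins_sub_tch he),
      (Lift_crm Subset.rfl).2 (Or.inl k2), (Lift_crm Subset.rfl).2 (Or.inl k3)⟩)
    rwa [s1, t1, r1 _ k2, r1 _ k3, Sum.elim_inl, if_pos ⟨k2, k3⟩] at this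
  · obtain ⟨e0, -, -, k3⟩ := q1 (Sum.inr (T, false)) (by simp [k])
    refine ⟨e0, fun e he he' k4 => (k3 _).1 ?_⟩
    have k5 := (mem_cut.1 he).2
    have k6 := (mem_tch.1 he').2
    have k7 := dT T k (G.s e)
    have k8 := dT T k (G.t e)
    have k9 : ∀ v ∈ T, Lift_cr W Ts v = Sum.inr (T, false) := fun v hv' =>
      Lift_crr.2 ⟨dT T k v hv', (Lift_cnd hpd k).2 hv'⟩
    by_cases l1 : G.s e ∈ W
    · have l2 : G.t e ∈ T := by clear * - V E Q G W e y1 y2 T k4 k5 k6 k7 k8 l1 he' k k9 mA q2 r1 s1 t1; (clear * - k4 k5 k6 k7 k8 l1; tauto)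
      have := q2 (Sum.inl e) (mem_ins.2 ⟨(mA e).2 he', (Lift_crm Subset.rfl).2 (Or.inl l1),
        by rw [t1, k9 _ l2]; simp [k]⟩)
      rw [s1, t1, r1 _ l1, k9 _ l2, Sum.elim_inl, if_neg fun k' => k8 l2 k'.2] at this
      rw [ie, if_pos l1] at k4
      (clear * - k4 k5 k6 k7 k8 l1 l2 this; grind)
    · have l3 : G.t e ∈ W := k6.resolve_left l1
      have l2 : G.s e ∈ T := by (clear * - k4 k5 k6 k7 k8 l1; grind)
      have := q2 (Sum.inl e) (mem_ins.2 ⟨(mA e).2 he', by rw [s1, k9 _ l2]; simp [k],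
        (Lift_crm Subset.rfl).2 (Or.inl l3)⟩)
      rw [s1, t1, r1 _ l3, k9 _ l2, Sum.elim_inl, if_neg fun k' => l1 k'.1] at this
      rw [ie, if_neg l1] at k4
      (clear * - k4 k5 k6 k7 k8 l1 l2 this; grind)

theorem lift6c (hc : G.Cub) (hW : W ⊆ G.vs G.A) (hl : ∀ e ∈ G.tch W, G.s e ≠ G.t e)
    (hOA : O ⊆ G.A) (hO : ∀ v ∈ W, G.dg O v = 0) (hφ : G.Sl W O ∅ φ) {Ts : Finset (Finset V)}
    (hpd : PD Ts) (hT : ∀ T ∈ Ts, Disjoint T W ∧ (G.cut T).card ≤ 3 ∧ Disjoint (G.cut T) O)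
    (hK : ∀ K ⊆ W, K.Nonempty → ∀ g, G.Df O φ K g → 6 ≤ ∑ e ∈ G.cut K, |g e|) :
    ∃ f : E → ℤ, (∀ v ∈ W, G.bd f v = 0) ∧ (∀ e ∈ G.tch W, Av O φ e (f e)) ∧
      ∀ T ∈ Ts, ∀ e ∈ G.cut T, ∀ e' ∈ G.cut T, e ∈ G.tch W → e' ∈ G.tch W →
        |f e| = 4 → |f e'| = 4 → e = e' := by
  have at1 : ∀ v ∈ W, ∀ e ∈ G.A, G.At e v → e ∈ G.tch W := fun v hv e he k =>
    mem_tch.2 ⟨he, by rcases k with rfl | rfl <;> simp [hv]⟩
  choose r r1 r5 r0 using fun e => Lift6_r (O := O) (φ := φ) e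
  have hr : ∀ e, 1 ≤ r e ∧ r e ≤ 5 := fun e => ⟨r1 e, r5 e⟩
  have hA : ∀ e ∈ G.tch W, ∀ x, Av O φ e x ↔ x = r e ∨ x = r e - 6 := fun e he =>
    r0 e (hφ.2.1 e he)
  have k0 : ∀ v, ∃ η : ℤ, (η = 1 ∨ η = -1) ∧ (v ∈ W → ∑ e ∈ G.A,
      (iv (G.s e = v) * |Lift6_u (r e) (-η)| +
        iv (G.t e = v) * |Lift6_u (r e) (-(-η * chi (G.n e)))|) = 6) := fun v => by
    by_cases hv : v ∈ W
    · obtain ⟨η, k1, k2⟩ := Lift6_eps hr ((hc v).resolve_left (deg_pos.2 (hW hv)).ne')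
        (fun e he k => hl e (at1 v hv e he k)) hOA (hO v hv) (hφ.1 v hv)
        fun e he k => hA e (at1 v hv e he k)
      exact ⟨η, k1, fun _ => k2⟩
    · exact ⟨1, Or.inl rfl, fun k => absurd k hv⟩
  choose ε hε e6 using k0
  obtain ⟨a, ha⟩ : ∃ a : E → ℤ, ∀ e, a e = ε (G.s e) := ⟨_, fun _ => rfl⟩
  obtain ⟨b, hb⟩ : ∃ b : E → ℤ, ∀ e, b e = -ε (G.t e) * chi (G.n e) := ⟨_, fun _ => rfl⟩
  have a1 : ∀ e, a e = 1 ∨ a e = -1 := fun e => ha e ▸ hε _
  have b1 : ∀ e, b e = 1 ∨ b e = -1 := fun e => by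
    rw [hb]
    rcases hε (G.t e) with k | k <;> rcases Lift6_chi (G.n e) with k' | k' <;> simp [k, k']
  have t1 : ∀ (X : Finset V) e, (if G.s e ∈ X then a e else b e) = 1 ∨
      (if G.s e ∈ X then a e else b e) = -1 := fun X e => by
    split_ifs
    exacts [a1 e, b1 e]
  have t2 : ∀ (X : Finset V) e, (if G.s e ∈ X then |Lift6_u (r e) (-a e)|
      else |Lift6_u (r e) (-b e)|) = |Lift6_u (r e) (-(if G.s e ∈ X then a e else b e))| :=
    fun X e => by split_ifs <;> rfl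
  have hv : ∀ v ∈ W, ∑ e ∈ G.A, (iv (G.s e = v) * |Lift6_u (r e) (-a e)| +
      iv (G.t e = v) * |Lift6_u (r e) (-b e)|) = 6 := fun v hv => by
    rw [← e6 v hv]
    refine sum_congr rfl fun e _ => ?_
    rw [ha, hb]
    unfold iv
    split_ifs with k1 k2 k2 <;> simp [*]
  obtain ⟨Q, q1, q2, q3⟩ := Lift_ccore (G := G) (W := W) (ty := fun e => a e = b e)
    (y1 := fun e => |Lift6_u (r e) (-a e)|) (y2 := fun e => |Lift6_u (r e) (-b e)|)
    hl (fun e => ⟨abs_nonneg _, abs_nonneg _⟩)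
    (fun e _ => ⟨fun k => by rw [k], fun k => by
      have k1 := (Lift6_u1 (r1 e) (r5 e) (a1 e)).2.2.2.2
      have k2 : -b e = a e := by
        have := a1 e
        have := b1 e
        omega
      rw [k2]
      omega⟩)
    (fun v hv' => (hv v hv').le) hpd
    (fun T k => ⟨(hT T k).1, (hT T k).2.1, fun e he he' => by
      rw [t2]
      have k1 := (Lift6_u1 (r1 e) (r5 e) (t1 W e)).2.1
      have k2 := mt ((hA e he' _).2 k1).2.1.1 (disjoint_left.1 (hT T k).2.2 he)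
      have k3 := hr e
      rw [Int.odd_iff] at k2
      generalize Lift6_u (r e) (-(if G.s e ∈ W then a e else b e)) = x at k1 k2
      rcases abs_cases x with k4 | k4 <;> omega⟩)
    (fun K kW B kB k2 => by
      obtain ⟨g, hg⟩ : ∃ g : E → ℤ, ∀ e, g e = if e ∈ B then
          Lift6_u (r e) (if G.s e ∈ K then a e else b e)
          else Lift6_u (r e) (-(if G.s e ∈ K then a e else b e)) := ⟨_, fun _ => rfl⟩
      have g1 : G.Df O φ K g := by
        refine (Lift6_par hr hε ha hb (fun e he => hl e (tch_mono kW he))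
          (fun e he => hA e (tch_mono kW he)) (fun v hv' => hv v (kW hv')) (fun e he => ?_)
          fun e => ?_).2 k2
        · rw [hA e (tch_mono kW (cut_sub_tch he)), hg]
          have := Lift6_u1 (r1 e) (r5 e) (t1 K e)
          by_cases k : e ∈ B
          · rw [if_pos k]
            exact this.1
          · rw [if_neg k]
            exact this.2.1
        · have := Lift6_u1 (r1 e) (r5 e) (t1 K e)
          rw [hg]
          by_cases k : e ∈ B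
          · exact iff_of_true k ⟨kB k, by rw [if_pos k]; exact this.2.2.1⟩
          · exact iff_of_false k fun k3 => this.2.2.2.1 (by rw [if_neg k] at k3; exact k3.2)
      have k4 := hK K kW (by
        rw [nonempty_iff_ne_empty]
        rintro rfl
        have e1 : G.ins ∅ = ∅ := by simp [ins]
        have e2 : B = ∅ := by simpa [cut, crs] using kB
        simp [e1, e2] at k2) g g1
      refine k4.trans_eq (sum_congr rfl fun e _ => ?_)
      rw [hg, t2]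
      split_ifs
      exacts [(Lift6_u1 (r1 e) (r5 e) (a1 e)).2.2.2.2, (Lift6_u1 (r1 e) (r5 e) (b1 e)).2.2.2.2,
        rfl, rfl])
  classical
  obtain ⟨f, hf⟩ : ∃ f : E → ℤ, ∀ e, f e = if Q (G.ie W e) e then
      Lift6_u (r e) (if G.s e ∈ W then a e else b e)
      else Lift6_u (r e) (-(if G.s e ∈ W then a e else b e)) := ⟨_, fun _ => rfl⟩
  have f1 : ∀ e, f e = r e ∨ f e = r e - 6 := fun e => by
    have := Lift6_u1 (r1 e) (r5 e) (t1 W e)
    rw [hf]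
    by_cases k : Q (G.ie W e) e
    · rw [if_pos k]
      exact this.1
    · rw [if_neg k]
      exact this.2.1
  have f2 : ∀ e, 0 < (if G.s e ∈ W then a e else b e) * f e ↔ Q (G.ie W e) e := fun e => by
    have := Lift6_u1 (r1 e) (r5 e) (t1 W e)
    rw [hf]
    by_cases k : Q (G.ie W e) e
    · rw [if_pos k]
      exact iff_of_true this.2.2.1 k
    · rw [if_neg k]
      exact iff_of_false this.2.2.2.1 k
  have f3 : ∀ e, |f e| = 4 → (Q (G.ie W e) e ↔ (if G.s e ∈ W then |Lift6_u (r e) (-a e)|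
      else |Lift6_u (r e) (-b e)|) = 2) := fun e k1 => by
    have := (Lift6_u1 (r1 e) (r5 e) (t1 W e)).2.2.2.2
    rw [hf] at k1
    rw [t2]
    by_cases k : Q (G.ie W e) e
    · rw [if_pos k] at k1
      exact iff_of_true k (by omega)
    · rw [if_neg k] at k1
      exact iff_of_false k (by omega)
  refine ⟨f, fun v hv' => ?_, fun e he => (hA e he _).2 (f1 e),
    fun T k e he e' he' k1 k2 k3 k4 => ?_⟩
  swap
  · obtain ⟨e0, k5⟩ := q3 T k
    exact Sum.inl_injective ((k5 e he k1 (f3 e k3)).trans (k5 e' he' k2 (f3 e' k4)).symm)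
  obtain ⟨e0, k1, k2, k3⟩ := q1 v hv'
  have k4 := Lift6_bd (f := f) (a := a) (b := b) hr (hε v)
    (fun e he k => hl e (at1 v hv' e he k)) (fun e k => by rw [ha, k])
    (fun e k => by rw [hb, k]) fun e _ _ => f1 e
  have k5 : ∑ e ∈ G.A, (iv (G.s e = v) * iv (0 < a e * f e) +
      iv (G.t e = v) * iv (0 < b e * f e) : ℤ) = ∑ e ∈ G.A, if e = e0 then 1 else 0 := by
    refine sum_congr rfl fun e he => ?_
    have k6 := f2 e
    by_cases s1 : G.s e = v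
    · have s2 : G.t e ≠ v := fun k => hl e (at1 v hv' e he (Or.inl s1)) (s1.trans k.symm)
      simp only [ie, s1, hv', if_true, k3] at k6
      simp only [iv, s1, s2, k6, if_true, if_false, one_mul, zero_mul, add_zero]
    by_cases s2 : G.t e = v
    · have k7 : 0 < b e * f e ↔ e = e0 := by
        rw [← k3, ← s2]
        by_cases s3 : G.s e ∈ W
        · simp only [ie, s3, if_true] at k6
          obtain ⟨k8, k9⟩ := q2 e (mem_ins.2 ⟨he, s3, s2 ▸ hv'⟩)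
          by_cases s4 : a e = b e
          · rw [← s4, k6, k8 s4]
          · have s5 : b e = -a e := by
              have := a1 e
              have := b1 e
              omega
            have s6 := k9 s4
            have s7 : 0 < b e * f e ↔ ¬ 0 < a e * f e := by
              have := f1 e
              have := hr e
              rw [s5]
              rcases a1 e with k | k <;> rw [k] <;> omega
            rw [s7, k6, s6, not_not]
        · simpa only [ie, s3, if_false] using k6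
      simp only [iv, s1, s2, k7, if_true, if_false, one_mul, zero_mul, zero_add]
    · have k7 : e ≠ e0 := by
        rintro rfl
        exact k2.elim s1 s2
      simp [iv, s1, s2, k7]
  rw [k5, hv v hv', sum_ite_eq', if_pos k1] at k4
  rcases hε v with k | k <;> rw [k] at k4 <;> omega

end SG

end Pool.Agent.Work.MP_8c679b_co
end

-- merged part: Pool.Agent.Work.MP_8c679b_co.A3.Fam
section
/-!
A family of accepting three-sides.
-/

set_option autoImplicit false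

namespace Pool.Agent.Work.MP_8c679b_co

open Finset

namespace SG

variable {V E : Type} [Fintype V] [DecidableEq V] [DecidableEq E] {G : SG V E}

theorem Fam_ne {T : Finset V} (h : G.T3 T) : T.Nonempty := by
  obtain ⟨e, he⟩ : (G.cut T).Nonempty := card_pos.1 (by rw [h.2.1]; omega)
  exact ⟨_, ie_mem (cut_sub_tch he)⟩

theorem Fam_max (h3 : G.E3) (n3 : G.N3) (hn : ∃ T, G.T3 T) :
    ∃ Ts : Finset (Finset V), PD Ts ∧ (∀ T ∈ Ts, G.T3 T) ∧ G.HT (G.vs G.A \ Ts.biUnion id) := by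
  classical
  obtain ⟨T0, hT0⟩ := hn
  obtain ⟨Ts, hTs, hm⟩ := exists_max_image
    (univ.filter fun Ts : Finset (Finset V) => PD Ts ∧ ∀ T ∈ Ts, G.T3 T) card
    ⟨{T0}, mem_filter.2 ⟨mem_univ _, fun N a N' b c =>
      absurd ((mem_singleton.1 a).trans (mem_singleton.1 b).symm) c,
      fun T a => mem_singleton.1 a ▸ hT0⟩⟩
  obtain ⟨-, hpd, ht⟩ := mem_filter.1 hTs
  have h1 := hm {T0} (mem_filter.2 ⟨mem_univ _, fun N a N' b c =>
      absurd ((mem_singleton.1 a).trans (mem_singleton.1 b).symm) c,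
      fun T a => mem_singleton.1 a ▸ hT0⟩)
  rw [card_singleton] at h1
  obtain ⟨T1, hT1⟩ := card_pos.1 h1
  obtain ⟨v, hv⟩ := Fam_ne (ht T1 hT1)
  have h4 : ∀ X ⊆ G.vs G.A \ Ts.biUnion id, X.Nonempty → 3 ≤ (G.cut X).card := fun X hX hn =>
    h3 X ((hX.trans sdiff_subset).ssubset_of_ne fun e => (mem_sdiff.1 (hX
      (e ▸ (ht T1 hT1).1.act hv))).2 (mem_biUnion.2 ⟨T1, hT1, hv⟩)) hn
  refine ⟨Ts, hpd, ht, fun X hX hn => ⟨h4 X hX hn, fun h5 => Or.inl ?_⟩⟩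
  by_contra h6
  obtain ⟨T, hTX, hT, -⟩ := AStepB_min n3 (hX.trans sdiff_subset)
    (fun Y hY => h4 Y (hY.trans hX)) h5 (AStepB_two h5 h6)
  have hd : ∀ N ∈ Ts, Disjoint T N := fun N hN => disjoint_left.2 fun x a b =>
    (mem_sdiff.1 (hX (hTX a))).2 (mem_biUnion.2 ⟨N, hN, b⟩)
  have hn' : T ∉ Ts := fun k => (Fam_ne hT).ne_empty (disjoint_self.1 (hd T k))
  have h7 := hm (insert T Ts) (mem_filter.2 ⟨mem_univ _, fun N a N' b c => ?_, fun N a => ?_⟩)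
  · rw [card_insert_of_notMem hn'] at h7
    omega
  · rcases mem_insert.1 a with rfl | a' <;> rcases mem_insert.1 b with rfl | b'
    exacts [absurd rfl c, hd _ b', (hd _ a').symm, hpd _ a' _ b' c]
  · rcases mem_insert.1 a with rfl | a'
    exacts [hT, ht _ a']

/-- HINT: take a family `Ts` of pairwise disjoint `T3` sets of maximal size (it is not empty) and
`W = vs A \ ⋃ Ts`.  `HT W` by `AStepB_min` and maximality.  `kill` gives `CS W`, so (`vd_empty`,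
`tg_empty`) a solution `O, φ` on `W` with `O ⊆ ins W` hitting all unbalanced sides.  `lift6c`:
`HT.df` for `K ⊂ W`; for `K = W` all leaving edges are off `O` (`Av.two_le`) and there are at
least three.  Put `h e = f e` on `tch W` and `h e = 2` elsewhere; a leaving edge of `T ∈ Ts` that
touches `W` is off `O` with a nonzero residue, so its value has size two or four.  `glue_fam`:
an edge that does not touch `W` and lies inside no member has the value two. -/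
theorem fam_six (hc : G.Cub) (h3 : G.E3) (n3 : G.N3) (hT : ∀ T, G.T3 T → G.Acc T)
    (hn : ∃ T, G.T3 T) : ∃ f, G.Fl6 f := by
  classical
  obtain ⟨Ts, hpd, ht, hW⟩ := Fam_max h3 n3 hn
  have hm : ∀ v, v ∈ G.vs G.A \ Ts.biUnion id ↔ v ∈ G.vs G.A ∧ ∀ N ∈ Ts, v ∉ N := fun v => by
    simp only [mem_sdiff, mem_biUnion, id, not_exists, not_and]
  generalize G.vs G.A \ Ts.biUnion id = W at hW hm
  obtain ⟨ε, O, -, hSt, hAb⟩ := (kill hc hW W Subset.rfl).1 ∅ vd_empty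
  rw [tg_empty] at hAb
  obtain ⟨φ, hφ⟩ := hAb.sl
  have hOi : O ⊆ G.ins W := hSt.sub_ins
  have hOA : O ⊆ G.A := hOi.trans ins_sub_A
  have hcut : ∀ T ∈ Ts, ∀ e ∈ G.cut T, e ∉ O := fun T k e he ho => by
    obtain ⟨-, a, b⟩ := mem_ins.1 (hOi ho)
    exact (mem_cut.1 he).2 (iff_of_false (((hm _).1 a).2 T k) (((hm _).1 b).2 T k))
  obtain ⟨f, f1, f2, f3⟩ := lift6c hc hW.act (fun e he => hW.noloop hc he) hOA hSt.2.1
    (φ := φ) ⟨hφ.1, hφ.2.1, fun t k => absurd k (Set.notMem_empty t)⟩ hpd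
    (fun T k => ⟨disjoint_left.2 fun v a b => ((hm v).1 b).2 T k a, (ht T k).2.1.le,
      disjoint_left.2 (hcut T k)⟩) (fun K hK hn g hd => by
      rcases eq_or_ssubset_of_subset hK with rfl | hK'
      · have h1 := (hW K Subset.rfl hn).1
        have h2 : ∑ e ∈ G.cut K, (2 : ℤ) ≤ ∑ e ∈ G.cut K, |g e| := sum_le_sum fun e he =>
          (hd.1 e he).two_le (hφ.2.1 e (cut_sub_tch he))
            (Or.inl fun k => not_ins_of_cut he (hOi k))
        rw [sum_const, nsmul_eq_mul] at h2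
        omega
      · refine hW.df hc hK' hn hOA (fun v hv => hSt.2.1 v (hK hv))
          ⟨fun v hv => hφ.1 v (hK hv), fun e he => hφ.2.1 e (tch_mono hK he),
            fun t k => absurd k (Set.notMem_empty t)⟩ (fun hu => Or.inl ?_) hd
        obtain ⟨e, a, -, b⟩ := hφ.2.2 _ ⟨K, hK, hu, rfl⟩
        exact ⟨e, a, b⟩)
  refine (glue_fam (h := fun e => if e ∈ G.tch W then f e else 2) hpd
    (fun N k => hT N (ht N k) _ (fun e he => ?_) fun e he e' he' a b => ?_)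
    (fun v hv => ?_) fun e he _ => ?_).imp fun F hF => hF.1
  · beta_reduce
    split_ifs with k1
    · have a := f2 e k1
      have b := a.ne_zero (hφ.2.1 e k1)
      have c : ¬ Odd (f e) := fun k2 => hcut N k e he (a.2.1.1 k2)
      have d := a.1
      rw [Int.odd_iff] at c
      rcases abs_cases (f e) with k2 | k2 <;> omega
    · exact Or.inl rfl
  · beta_reduce at a b
    split_ifs at a b with k1 k2
    · exact f3 N k e he e' he' k1 k2 a b
    all_goals (clear * - a b; simp_all)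
  · by_cases k : v ∈ G.vs G.A
    · have k1 := (hm v).2 ⟨k, hv⟩
      exact (bd_congr fun e he ha => if_pos (Cut_tch he ha k1)).trans (f1 v k1)
    · exact AStepB_bd k
  · beta_reduce
    split_ifs with k1
    · exact ⟨(f2 e k1).ne_zero (hφ.2.1 e k1), (f2 e k1).1⟩
    · decide

end SG

end Pool.Agent.Work.MP_8c679b_co
end
end

-- merged part: Pool.Agent.Work.MP_8c679b_co.Top.PFin
section
-- merged part: Pool.Agent.Work.MP_8c679b_co.Six.SpState
section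
/-!
The state after absorbing a circuit of the join, and gluing.
-/

set_option autoImplicit false

namespace Pool.Agent.Work.MP_8c679b_co

open Finset

namespace SG

variable {V E : Type} [Fintype V] [DecidableEq V] [DecidableEq E] {G : SG V E}
  {T W Y : Finset V} {F : Finset E} {Bs Ds Ds' Hh Hs : Finset (Finset V)} {Fm : Set (Finset V)}
  {n : ℕ} {N X : ℕ → Finset V} {e : ℕ → E} {O Fr : ℕ → Finset E} {K : ℕ → Set (Finset E)}

theorem SpState_bu {α : Type} [DecidableEq α] {Z : ℕ → Finset α} {i : ℕ} (hi : i ≤ n) :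
    Z i ⊆ bu n Z := fun _ hx => mem_bu.2 ⟨i, hi, hx⟩

omit [Fintype V] in
theorem SpState_mono (hX : ∀ i ≤ n, X i ⊆ N i) : bu n X ⊆ bu n N := fun _ hx => by
  obtain ⟨i, hi, h⟩ := mem_bu.1 hx
  exact SpState_bu hi (hX i hi h)

omit [Fintype V] in
theorem SpState_ends {H : Finset (Finset V)} {f : E} : f ∈ G.ends H ↔ ∃ D ∈ H, f ∈ G.cut D :=
  mem_biUnion

/-- the links of a closed track lie inside -/
theorem SpState_ins (hd : ∀ i ≤ n, ∀ j ≤ n, i ≠ j → Disjoint (X i) (X j)) (hn : 1 ≤ n)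
    (h0 : e (n + 1) = e 0) (hu : ∀ i ≤ n, e i ∈ G.cut (X i) ∧ e (i + 1) ∈ G.cut (X i)) :
    ∀ i ≤ n + 1, e i ∈ G.ins (bu n X) := by
  have key : ∀ i ≤ n, ∀ j ≤ n, i ≠ j → e i ∈ G.cut (X j) → e i ∈ G.ins (bu n X) :=
    fun i hi j hj hij h => ins_mono (union_subset (SpState_bu hi) (SpState_bu hj))
      (ie_link (hd i hi j hj hij) (hu i hi).1 h).2
  have h1 := key 0 n.zero_le n le_rfl (by omega) (h0 ▸ (hu n le_rfl).2)
  rintro (_ | i) hi
  · exact h1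
  · rcases Nat.lt_or_ge i n with h2 | h2
    · exact key (i + 1) h2 i h2.le (by omega) (hu i h2.le).2
    · rwa [show i = n by omega, h0]

/-- no edge of the join leaves the circuit -/
theorem SpState_stay {H : Finset (Finset V)} (hC : G.Fc W H Bs Ds F n N e) {f : E}
    (hf : f ∈ F ∪ G.ends H) (ht : f ∈ G.tch (bu n N)) : f ∈ G.ins (bu n N) := by
  obtain ⟨⟨-, h1, h2⟩, h3, h4, -, h5, -⟩ := hC
  have h6 := SpState_ins h1 h3 h4 fun i hi => ⟨(h2 i hi).1, (h2 i hi).2.1⟩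
  obtain ⟨i, hi, h7⟩ := mem_bu.1 (ie_mem ht)
  rcases mem_tch_iff.1 (Cut_tch (Ab_tch_sub ht) ie_at h7) with h8 | h8
  · exact ins_mono (SpState_bu hi) h8
  · rcases h5 i hi f hf h8 with rfl | rfl
    · exact h6 i (by omega)
    · exact h6 (i + 1) (by omega)

/-- a digon off the circuit has no end at the circuit -/
theorem SpState_off {H : Finset (Finset V)} (hp : PD (Bs ∪ Ds ∪ H))
    (hC : G.Fc W H Bs Ds F n N e) {D : Finset V} (hD : D ∈ H) (hn : D ∉ pv n N) {f : E}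
    (hf : f ∈ G.cut D) : f ∉ G.tch (bu n N) := fun ht => by
  have h1 := mem_ins.1 (SpState_stay hC (mem_union_right _ (SpState_ends.2 ⟨D, hD, hf⟩)) ht)
  have h2 : G.ie D f ∈ bu n N := by
    rcases ie_at (G := G) (X := D) (e := f) with h | h <;> rw [← h]
    exacts [h1.2.1, h1.2.2]
  obtain ⟨i, hi, h3⟩ := mem_bu.1 h2
  obtain ⟨v, -, h4⟩ := hC.2.2.2.2.2 i hi
  refine hn (mem_pv.2 ⟨i, hi, ?_⟩)
  rw [h4, ← (nd_eq_iff hp).2 (h4 ▸ h3),
    nd_of_mem hp (mem_union_right _ hD) (ie_mem (cut_sub_tch hf))]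

omit [Fintype V] [DecidableEq E] in
theorem SpState_new {D : Finset V} :
    D ∈ (Hh \ pv n N) ∪ (Hs \ pv n N) ↔ D ∈ Hh ∪ Hs ∧ D ∉ pv n N := by
  rw [← union_sdiff_distrib, mem_sdiff]

omit [Fintype V] in
theorem SpState_sub : G.ends ((Hh \ pv n N) ∪ (Hs \ pv n N)) ⊆ G.ends (Hh ∪ Hs) := fun _ hf => by
  obtain ⟨D, h1, h2⟩ := SpState_ends.1 hf
  exact SpState_ends.2 ⟨D, (SpState_new.1 h1).1, h2⟩

omit [Fintype V] in
theorem SpState_cut {U : Finset V} {f : E} (h1 : f ∈ G.cut W) (h2 : f ∉ G.tch U) :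
    f ∈ G.cut (W \ U) := by
  rw [mem_cut] at h1 ⊢
  rw [mem_tch] at h2
  simp only [mem_sdiff]
  tauto

/-- The new state.
HINT: `bs_run` (all indices passed), `finc` with `J = ends (Hh ∪ Hs)` (`Bx.ends`,
`SPS.ends_sub`), `VD.monoJ`.  `F' = F \ tch (bu n N)`: no edge of `F ∪ ends` leaves `bu n N`
(it would be some `e i`, whose ends lie in two nodes of the circuit), so a digon with an end on
the circuit is a node of the circuit (`SPS.pd_all`).  -/
theorem sp_state (hc : G.Cub) (hT : G.HT T) (hF : G.FF Fm T) (h : G.SPS T W Hh Hs Ds)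
    (hB : G.Bx Fm W ∅ Bs) (hj : G.Tj W (G.ends (Hh ∪ Hs)) F) (hA : G.As Fm W F)
    (hC : G.Fc W (Hh ∪ Hs) Bs Ds F n N e)
    (hX : ∀ i ≤ n, X i ⊆ N i ∧ G.NP W Bs Ds (N i) (e i) (e (i + 1)) (X i) (K i))
    (hu : ∀ i ≤ n, e i ∈ G.cut (X i) ∧ e (i + 1) ∈ G.cut (X i)) :
    ∃ Ds' F', G.SPS T (W \ bu n X) (Hh \ pv n N) (Hs \ pv n N) Ds' ∧
      G.Tj (W \ bu n X) (G.ends ((Hh \ pv n N) ∪ (Hs \ pv n N))) F' ∧ G.As Fm (W \ bu n X) F' ∧
      W \ bu n X ⊂ W ∧ G.Fo Fm W (G.ends (Hh ∪ Hs)) Bs Ds (bu n X ∩ W) (ku n K) Ds' := by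
  obtain ⟨hJ1, hJ2⟩ := h.ends_sub
  have hp := (h.pd_all hc hF hB).1
  have hB' := hB.ends hF hJ2
  have hXN := SpState_mono fun i hi => (hX i hi).1
  have off : ∀ D ∈ (Hh \ pv n N) ∪ (Hs \ pv n N), ∀ f ∈ G.cut D, f ∉ G.tch (bu n N) :=
    fun D hD f hf => SpState_off hp hC (SpState_new.1 hD).1 (SpState_new.1 hD).2 hf
  obtain ⟨Ds', hO⟩ := finc hc hT h.sub (fun S hS => (hF.1 S hS).2.1) hB' h.vd
    (bs_run (hB'.pd h.vd).1 (hB'.pd h.vd).2 (fun ρ hρ => (h.vd.2 ρ hρ).1) (fun _ => True)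
      hC.1.2.1 (fun i hi _ => hX i hi) (fun _ _ h => absurd trivial h) fun B h => (hB.1 B h).2.1)
    fun B h f hf => .inl (by simpa using (hB.1 B h).2.2 hf)
  refine ⟨Ds', F \ G.tch (bu n N), ⟨sdiff_subset.trans h.sub, fun D hD => ?_,
    h.pd.mono fun D hD => (SpState_new.1 hD).1, h.dj.mono sdiff_subset sdiff_subset, ?_,
    fun U hU => h.inv U (hU.trans (union_subset_union sdiff_subset
      (biUnion_subset_biUnion_of_subset_left _ sdiff_subset)))⟩, ⟨fun f hf => ?_, fun v hv => ?_⟩,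
    fun S hS h1 h2 => hA S hS (h1.trans sdiff_subset) (h2.trans sdiff_subset), ?_, hO⟩
  · obtain ⟨h1, h2, h3⟩ := h.dg D (SpState_new.1 hD).1
    exact ⟨h1, h2, fun f hf => SpState_cut (h3 hf) fun ht => off D hD f hf (tch_mono hXN ht)⟩
  · have h1 := hO.1
    rw [sdiff_inter_self_right] at h1
    refine h1.monoJ fun f _ hf => mem_sdiff.2 ⟨SpState_sub hf, fun ht => ?_⟩
    obtain ⟨D, h2, h3⟩ := SpState_ends.1 hf
    exact off D h2 f h3 (tch_mono (inter_subset_left.trans hXN) ht)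
  · obtain ⟨h1, h2⟩ := mem_sdiff.1 hf
    obtain ⟨h3, h4, h5⟩ := mem_ins.1 (hj.1 h1)
    exact mem_ins.2 ⟨h3, mem_sdiff.2 ⟨h4, fun k => h2 (mem_tch.2 ⟨h3, .inl (hXN k)⟩)⟩,
      mem_sdiff.2 ⟨h5, fun k => h2 (mem_tch.2 ⟨h3, .inr (hXN k)⟩)⟩⟩
  · by_cases hvN : v ∈ bu n N
    · refine dg_of_not_mem fun k => ?_
      obtain ⟨f, h1, h2⟩ := mem_vs.1 k
      rcases mem_union.1 h1 with h3 | h3
      · exact (mem_sdiff.1 h3).2 (Cut_tch (ins_sub_A (hj.1 (mem_sdiff.1 h3).1)) h2 hvN)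
      · obtain ⟨D, h4, h5⟩ := SpState_ends.1 h3
        exact off D h4 f h5 (Cut_tch (mem_cut.1 h5).1 h2 hvN)
    · refine (Ab_dg fun f h1 => ⟨fun h2 => union_subset_union sdiff_subset SpState_sub h2,
        fun h2 => ?_⟩).trans (hj.2 v (mem_sdiff.1 hv).1)
      have h3 : f ∉ G.tch (bu n N) := fun ht => by
        have h4 := mem_ins.1 (SpState_stay hC h2 ht)
        rcases h1 with rfl | rfl
        exacts [hvN h4.2.1, hvN h4.2.2]
      rcases mem_union.1 h2 with h4 | h4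
      · exact mem_union_left _ (mem_sdiff.2 ⟨h4, h3⟩)
      · obtain ⟨D, h5, h6⟩ := SpState_ends.1 h4
        refine mem_union_right _ (SpState_ends.2 ⟨D, SpState_new.2 ⟨h5, fun k => ?_⟩, h6⟩)
        obtain ⟨i, hi, rfl⟩ := mem_pv.1 k
        exact h3 (tch_mono (SpState_bu hi) (cut_sub_tch h6))
  · have h1 := mem_ins.1 (SpState_ins (fun i hi j hj hij => (hC.1.2.1 i hi j hj hij).mono
      (hX i hi).1 (hX j hj).1) hC.2.1 hC.2.2.1 hu 0 (Nat.zero_le _))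
    have h2 : e 0 ∈ G.tch W := (mem_union.1 (hC.2.2.2.1 0 n.zero_le)).elim
      (fun k => ins_sub_tch (hj.1 k)) fun k => cut_sub_tch (hJ1 k)
    refine (ssubset_iff_of_subset sdiff_subset).2 ?_
    rcases (mem_tch.1 h2).2 with k | k
    · exact ⟨_, k, fun k' => (mem_sdiff.1 k').2 h1.2.1⟩
    · exact ⟨_, k, fun k' => (mem_sdiff.1 k').2 h1.2.2⟩

/-- Gluing a solution on the circuit to a solution of the new state.
HINT: the even set is `(O' ∪ OX) ∩ tch W`.  A digon on the circuit is absorbed completely (`NP`,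
`SPS.pd_all`), its ends are two of the `e i`; `dg_cond` with `St.res`.  All targets consist of
edges at `W`; `Fo.cover`. -/
theorem sp_glue (hc : G.Cub) (hT : G.HT T) (hF : G.FF Fm T) (h : G.SPS T W Hh Hs Ds)
    (hB : G.Bx Fm W ∅ Bs) (hC : G.Fc W (Hh ∪ Hs) Bs Ds F n N e)
    (hX : ∀ i ≤ n, X i ⊆ N i ∧ G.NP W Bs Ds (N i) (e i) (e (i + 1)) (X i) (K i))
    (hH : ∀ i ≤ n, N i ∈ Hh → G.cut (N i) ∈ K i)
    (h' : G.SPS T (W \ bu n X) (Hh \ pv n N) (Hs \ pv n N) Ds')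
    (hO : G.Fo Fm W (G.ends (Hh ∪ Hs)) Bs Ds (bu n X ∩ W) (ku n K) Ds') {O' OX : Finset E}
    {ψ φ : E → ZMod 3} (h1 : G.St (W \ bu n X) O' (G.ends ((Hh \ pv n N) ∪ (Hs \ pv n N))))
    (h2 : G.Sl (W \ bu n X) O' (G.Tg Fm (W \ bu n X) Ds') ψ)
    (h3 : G.Dc (Hh \ pv n N) (Hs \ pv n N) ψ) (h4 : G.St (bu n X) OX ∅) (h5 : ∀ i ≤ n, e i ∈ OX)
    (h6 : G.Sl (bu n X) OX (ku n K) φ) (h7 : ∀ f ∈ G.tch (W \ bu n X), φ f = ψ f) :
    G.SPc Fm W Hh Hs Ds := by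
  obtain ⟨hJ1, -⟩ := h.ends_sub
  obtain ⟨hp, hd, -⟩ := h.pd_all hc hF hB
  have hXN := SpState_mono fun i hi => (hX i hi).1
  have on : ∀ i ≤ n, N i ∈ Hh ∪ Hs → N i ⊆ bu n X ∧ G.cut (N i) ⊆ OX := fun i hi hN => by
    refine ⟨?_, fun f hf => ?_⟩
    · rcases (hX i hi).2 with ⟨-, -, k⟩ | ⟨-, k, -⟩ | ⟨k, -⟩
      · exact k ▸ SpState_bu hi
      · exact k ▸ SpState_bu hi
      · exact absurd hN (disjoint_left.1 hd (mem_union_left _ k))
    · rcases hC.2.2.2.2.1 i hi f (mem_union_right _ (SpState_ends.2 ⟨_, hN, hf⟩)) hf with rfl | rfl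
      · exact h5 i hi
      · rcases hi.eq_or_lt with rfl | k
        · rw [hC.2.2.1]
          exact h5 0 (Nat.zero_le _)
        · exact h5 _ k
  obtain ⟨u1, u2, u3, -⟩ := h1.union h4 sdiff_disjoint fun f _ hf => ⟨fun k => by
    obtain ⟨D, k1, k2⟩ := SpState_ends.1 k
    exact absurd (tch_mono hXN hf)
      (SpState_off hp hC (SpState_new.1 k1).1 (SpState_new.1 k1).2 k2), fun k => by simp at k⟩
  have hW : W ⊆ W \ bu n X ∪ bu n X := by
    rw [sdiff_union_self_eq_union]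
    exact subset_union_left
  have old : ∀ f ∈ O', f ∈ G.cut (W \ bu n X) → f ∈ G.ends (Hh ∪ Hs) := fun f k1 k2 =>
    SpState_sub (h1.2.2 ▸ mem_inter.2 ⟨k1, k2⟩)
  have hE : (O' ∪ OX) ∩ G.cut W = G.ends (Hh ∪ Hs) := by
    refine Subset.antisymm (fun f hf => ?_) fun f hf => mem_inter.2 ⟨?_, hJ1 hf⟩
    · obtain ⟨k1, k2⟩ := mem_inter.1 hf
      rcases mem_union.1 k1 with k3 | k3
      · exact old f k3 (cut_of_sub sdiff_subset k2 (h1.1 k3)).1
      · have k4 := mem_ins.1 (h4.sub_ins k3)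
        have k5 : G.oe W f ∈ bu n X := by
          rcases oe_at (G := G) (X := W) (e := f) with k | k <;> rw [← k]
          exacts [k4.2.1, k4.2.2]
        obtain ⟨i, hi, k6⟩ := mem_bu.1 k5
        obtain ⟨D, k7, k8⟩ := mem_biUnion.1 ((mem_union.1
          (hC.1.1 i hi ((hX i hi).1 k6))).resolve_left (oe_not_mem k2))
        exact SpState_ends.2 ⟨D, k7, (Node_cut k4.1 je_ie_oe.symm k8 fun k =>
          disjoint_left.1 (h.dg D k7).2.1 k (h.sub (ie_mem (cut_sub_tch k2)))).1⟩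
    · obtain ⟨D, k1, k2⟩ := SpState_ends.1 hf
      by_cases k3 : D ∈ pv n N
      · obtain ⟨i, hi, rfl⟩ := mem_pv.1 k3
        exact mem_union_right _ ((on i hi k1).2 k2)
      · have k4 := SpState_ends.2 ⟨D, SpState_new.2 ⟨k1, k3⟩, k2⟩
        rw [← h1.2.2] at k4
        exact mem_union_left _ (mem_inter.1 k4).1
  obtain ⟨s1, s2, s3⟩ := (h2.congr h7 u2).union (h6.congr (fun _ _ => rfl) u3)
  refine ⟨(O' ∪ OX) ∩ G.tch W, φ, hE ▸ u1.res hW, ⟨fun v hv => s1 v (hW hv),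
    fun f k1 k2 => s2 f (tch_mono hW k1) fun k => k2 (mem_inter.2 ⟨k, k1⟩), fun t ht => ?_⟩,
    fun D hD => ?_, fun D hD => ?_⟩
  · have k1 : t ⊆ G.tch W := by
      rcases ht with ⟨S, -, k, rfl⟩ | ⟨ρ, -, rfl⟩
      · exact cut_sub_tch.trans (tch_mono k)
      · exact inter_subset_right.trans ins_sub_tch
    have k2 := hO.cover (fun B k => (hB.1 B k).2.1) inter_subset_right hJ1 t ht
    rw [sdiff_inter_self_right] at k2
    rcases k2 with ⟨t', k2, k3⟩ | ⟨f, k2, k3, k4, k5, k6⟩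
    · obtain ⟨f, k4, -, k5⟩ := s3 t' (Or.symm k2)
      exact ⟨f, k3 k4, k1 (k3 k4), k5.imp_left fun k k' => k (mem_inter.1 k').1⟩
    · refine ⟨f, k2, k3, .inl fun k => ?_⟩
      rcases mem_union.1 (mem_inter.1 k).1 with k7 | k7
      · exact (mem_tch_iff.1 (h1.1 k7)).elim k5 fun k8 => k6 (old f k7 k8)
      · rcases mem_tch_iff.1 k3 with k8 | k8
        · obtain ⟨k9, k10, k11⟩ := mem_ins.1 (h4.sub_ins k7)
          exact k4 (mem_ins.2 ⟨k9, mem_inter.2 ⟨k10, (mem_ins.1 k8).2.1⟩,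
            mem_inter.2 ⟨k11, (mem_ins.1 k8).2.2⟩⟩)
        · exact k6 (hE ▸ mem_inter.2 ⟨mem_union_right _ k7, k8⟩)
  · by_cases k : D ∈ pv n N
    · obtain ⟨i, hi, rfl⟩ := mem_pv.1 k
      obtain ⟨k1, k2⟩ := on i hi hD
      have k3 := h4.res k1
      rw [inter_eq_right.2 k2] at k3
      exact dg_cond hc (h.dg _ hD).1 k3 ⟨fun v hv => h6.1 v (k1 hv), fun f k4 k5 =>
        h6.2.1 f (tch_mono k1 k4) fun k6 => k5 (mem_inter.2 ⟨k6, k4⟩), fun _ k4 => k4.elim⟩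
    · have k1 := SpState_new.2 ⟨hD, k⟩
      obtain ⟨f, k2, k3⟩ := h3.1 D k1
      exact ⟨f, k2, by rwa [h7 f (cut_sub_tch ((h'.dg D k1).2.2 k2))]⟩
  · by_cases k : D ∈ pv n N
    · obtain ⟨i, hi, rfl⟩ := mem_pv.1 k
      obtain ⟨f, k1, -, k2⟩ := h6.2.2 _ ⟨i, hi, hH i hi hD⟩
      exact ⟨f, k1, k2.resolve_left fun k3 => k3 ((on i hi (mem_union_left _ hD)).2 k1)⟩
    · have k1 := mem_sdiff.2 ⟨hD, k⟩
      obtain ⟨f, k2, k3⟩ := h3.2 D k1
      exact ⟨f, k2, by rwa [h7 f (cut_sub_tch ((h'.dg D (mem_union_left _ k1)).2.2 k2))]⟩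

end SG

end Pool.Agent.Work.MP_8c679b_co
end

-- merged part: Pool.Agent.Work.MP_8c679b_co.Six.SpStep
section
/-!
One step of the process.
-/

set_option autoImplicit false

namespace Pool.Agent.Work.MP_8c679b_co

open Finset

namespace SG

variable {V E : Type} [Fintype V] [DecidableEq V] [DecidableEq E] {G : SG V E}
  {T W Y : Finset V} {F : Finset E} {Bs Ds Ds' Hh Hs : Finset (Finset V)} {Fm : Set (Finset V)}
  {n : ℕ} {N X : ℕ → Finset V} {e : ℕ → E} {O Fr : ℕ → Finset E} {K : ℕ → Set (Finset E)}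

variable (G) in
/-- negation on the edges at `Y` -/
def ngo (Y : Finset V) (ψ : E → ZMod 3) (f : E) : ZMod 3 := if f ∈ G.tch Y then -ψ f else ψ f

/-- edges leaving `W` off the ends of the digons leave `W` together with the digons -/
theorem SpStep_L (h : G.SPS T W Hh Hs Ds) :
    G.cut W \ G.ends (Hh ∪ Hs) ⊆ G.cut (W ∪ (Hh ∪ Hs).biUnion id) := by
  intro f hf
  obtain ⟨h1, h2⟩ := mem_sdiff.1 hf
  have key : ∀ x, G.At f x → x ∉ W → x ∉ (Hh ∪ Hs).biUnion id := by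
    intro x hx hxW hm
    obtain ⟨M, hM, hxM⟩ := mem_biUnion.1 hm
    apply h2
    refine mem_biUnion.2 ⟨M, hM, ?_⟩
    have hd := (h.dg M hM).2.1
    have hnot : ∀ y ∈ W, y ∉ M := fun y hy hy' => disjoint_left.1 hd hy' (h.sub hy)
    obtain ⟨hA, hc⟩ := mem_cut.1 h1
    refine mem_cut.2 ⟨hA, fun k => ?_⟩
    rcases hx with hx | hx
    · have h3 : G.t f ∈ W := by
        by_contra h3
        exact hc ⟨fun k' => absurd (hx ▸ k') hxW, fun k' => absurd k' h3⟩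
      exact hnot _ h3 (k.1 (hx ▸ hxM))
    · have h3 : G.s f ∈ W := by
        by_contra h3
        exact hc ⟨fun k' => absurd k' h3, fun k' => absurd (hx ▸ k') hxW⟩
      exact hnot _ h3 (k.2 (hx ▸ hxM))
  obtain ⟨hA, hc⟩ := mem_cut.1 h1
  refine mem_cut.2 ⟨hA, fun k => ?_⟩
  by_cases hs : G.s f ∈ W
  · have ht : G.t f ∉ W := fun ht => hc ⟨fun _ => ht, fun _ => hs⟩
    rcases mem_union.1 (k.1 (mem_union_left _ hs)) with k' | k'
    · exact ht k'
    · exact key _ (Or.inr rfl) ht k'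
  · have ht : G.t f ∈ W := by
      by_contra ht
      exact hc ⟨fun k' => absurd k' hs, fun k' => absurd k' ht⟩
    rcases mem_union.1 (k.2 (mem_union_left _ ht)) with k' | k'
    · exact hs k'
    · exact key _ (Or.inl rfl) hs k'

/-- the rest is disjoint from every absorbed set -/
theorem SpStep_rest {i : ℕ} (hi : i ≤ n) : Disjoint (W \ bu n X) (X i) :=
  disjoint_left.2 fun _ hx hx' => (mem_sdiff.1 hx).2 (Run_mem_bu.2 ⟨i, hi, hx'⟩)

/-- a member of a disjoint family is disjoint from every other node -/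
theorem SpStep_node {Ns : Finset (Finset V)} (hp : PD Ns) {M : Finset V} (hM : M ∈ Ns) {v : V}
    (hne : M ≠ nd Ns v) : Disjoint M (nd Ns v) := by
  rcases nd_cases hp v with h1 | ⟨h1, h2⟩
  · exact hp M hM _ h1 hne
  · rw [h2]
    exact disjoint_singleton_right.2 (h1 M hM)

/-- negation on `Y` agrees on the rest with negation on a closed part of the rest -/
theorem SpStep_neg (hY : Y ⊆ W) (hY' : ∀ f ∈ G.crs (G.ins W) Y, G.oe Y f ∈ bu n X) {f : E}
    {v : V} (hf : f ∈ G.tch Y) (hv : v ∈ W \ bu n X) (ha : G.At f v) : v ∈ Y \ bu n X := by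
  obtain ⟨h1, h2⟩ := mem_sdiff.1 hv
  refine mem_sdiff.2 ⟨?_, h2⟩
  by_contra h3
  obtain ⟨hA, hu⟩ := mem_tch.1 hf
  have hcut : f ∈ G.cut Y := by
    refine mem_cut.2 ⟨hA, fun k => ?_⟩
    rcases ha with ha | ha
    · rcases hu with hu | hu
      · exact h3 (ha ▸ hu)
      · exact h3 (ha ▸ k.2 hu)
    · rcases hu with hu | hu
      · exact h3 (ha ▸ k.1 hu)
      · exact h3 (ha ▸ hu)
  have hin : f ∈ G.ins W := by
    refine mem_ins.2 ⟨hA, ?_⟩
    rcases ha with ha | ha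
    · rcases hu with hu | hu
      · exact absurd (ha ▸ hu) h3
      · exact ⟨ha ▸ h1, hY hu⟩
    · rcases hu with hu | hu
      · exact ⟨hY hu, ha ▸ h1⟩
      · exact absurd (ha ▸ hu) h3
  have h4 := hY' f (mem_crs.2 ⟨hin, (mem_cut.1 hcut).2⟩)
  rw [← eq_oe hcut h3 ha] at h4
  exact h2 h4

theorem SpStep_ngo {ψ : E → ZMod 3} {f : E} : G.ngo Y ψ f = 0 ↔ ψ f = 0 := by
  unfold ngo
  split_ifs
  · exact neg_eq_zero
  · exact Iff.rfl

/-- Absorbing a circuit of the join that closes for one of two systems of given values.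
HINT: `sp_state`, the induction hypothesis, `run_closed` inside `W ∪ (Hh ∪ Hs).biUnion id` with
`Z = ∅` and `L = cut W \ ends`.  Given values: the solution of the rest `W'` on `tch W'`, one
elsewhere.  The negated system is a solution of `W'` as well (`Sl.negOn` with `Y \ bu n X`,
`Sl.congr`), and `Dc` only sees the zeros.  The free edges do not touch `W'`.  `sp_glue`. -/
theorem sp_step (hc : G.Cub) (hT : G.HT T) (hF : G.FF Fm T) (h : G.SPS T W Hh Hs Ds)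
    (hB : G.Bx Fm W ∅ Bs) (hj : G.Tj W (G.ends (Hh ∪ Hs)) F) (hA : G.As Fm W F)
    (hC : G.Fc W (Hh ∪ Hs) Bs Ds F n N e) (hI : G.SPI Fm T W)
    (hX : ∀ i ≤ n, X i ⊆ N i ∧ G.NP W Bs Ds (N i) (e i) (e (i + 1)) (X i) (K i))
    (hH : ∀ i ≤ n, N i ∈ Hh → G.cut (N i) ∈ K i)
    (hS : ∀ i ≤ n, G.St (X i) (O i) {e i, e (i + 1)})
    (hR : ∀ i ≤ n, Fr i ⊆
      G.fr (X i) (insert (e i) (insert (e (i + 1)) (G.cut W \ G.ends (Hh ∪ Hs)))))
    {C : ℕ → (E → ZMod 3) → Rl → Prop}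
    (hP : ∀ i ≤ n, G.Pa (X i) (O i) (Fr i) (K i) (e i) (e (i + 1)) (C i)) (hY : Y ⊆ W)
    (hY' : ∀ f ∈ G.crs (G.ins W) Y, G.oe Y f ∈ bu n X)
    (hcl : ∀ ψ, (∀ i ≤ n, G.Pre (X i) (O i) (Fr i) ψ) → ∀ Rs Rs' : ℕ → Rl,
      (∀ i ≤ n, C i ψ (Rs i)) → (∀ i ≤ n, C i (G.ngo Y ψ) (Rs' i)) →
      Rl.Cl (fun i => G.n (e i)) Rs n ∨ Rl.Cl (fun i => G.n (e i)) Rs' n) :
    G.SPc Fm W Hh Hs Ds := by
  obtain ⟨⟨t1, t2, t3⟩, hn, h0, -, -, hnd⟩ := id hC
  have hu : ∀ i ≤ n, e i ∈ G.cut (X i) ∧ e (i + 1) ∈ G.cut (X i) := fun i hi =>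
    ⟨(Run_J (hS i hi) (mem_insert_self _ _)).2,
      (Run_J (hS i hi) (mem_insert_of_mem (mem_singleton_self _))).2⟩
  obtain ⟨Ds', F', h', hj', hA', hlt, hO⟩ := sp_state hc hT hF h hB hj hA hC hX hu
  obtain ⟨O', φ', s1, s2, s3⟩ := hI _ hlt _ _ _ _ h' hj' hA'
  have hXY : ∀ i ≤ n, X i ⊆ W ∪ (Hh ∪ Hs).biUnion id := fun i hi => (hX i hi).1.trans (t1 i hi)
  have hd : ∀ i ≤ n, ∀ j ≤ n, i ≠ j → Disjoint (X i) (X j) := fun i hi j hj' hij =>
    (t2 i hi j hj' hij).mono (hX i hi).1 (hX j hj').1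
  have hL := SpStep_L h
  obtain ⟨r1, -, -, r4⟩ := run_closed (Z := fun _ => ∅) hXY hd hL
    (fun i hi => by simpa using hS i hi) (fun i hi => (t3 i hi).2.2)
    (fun i _ z hz => absurd hz (notMem_empty z)) hR hP hn h0
  rw [Run_bu_empty] at r1
  have h5 : ∀ i ≤ n, e i ∈ bu n O := fun i hi =>
    Run_mem_bu.2 ⟨i, hi, (Run_J (hS i hi) (mem_insert_self _ _)).1⟩
  -- the links do not touch the rest
  have hlink : ∀ i ≤ n + 1, e i ∉ G.tch (W \ bu n X) := by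
    have k : ∀ i ≤ n, 1 ≤ i → e i ∉ G.tch (W \ bu n X) := by
      intro i hi h1 hm
      obtain ⟨j, rfl⟩ : ∃ j, i = j + 1 := ⟨i - 1, by omega⟩
      have hj0 : j ≤ n := by omega
      exact Quo_three (SpStep_rest hj0) (SpStep_rest hi) (hd j hj0 _ hi (by omega)) hm
        (cut_sub_tch (hu j hj0).2) (cut_sub_tch (hu _ hi).1)
    have k0 : e 0 ∉ G.tch (W \ bu n X) := fun hm =>
      Quo_three (SpStep_rest (Nat.zero_le n)) (SpStep_rest le_rfl)
        (hd 0 (Nat.zero_le n) n le_rfl (by omega)) hm (cut_sub_tch (hu 0 (Nat.zero_le n)).1)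
        (h0 ▸ cut_sub_tch (hu n le_rfl).2)
    intro i hi
    rcases Nat.eq_zero_or_pos i with rfl | h1
    · exact k0
    · rcases Nat.lt_or_ge n i with h2 | h2
      · obtain rfl : i = n + 1 := by omega
        exact h0 ▸ k0
      · exact k i h2 h1
  -- the free edges do not touch the rest
  have hfree : ∀ f ∈ G.tch (W \ bu n X), f ∉ bu n Fr := by
    intro f hf hm
    obtain ⟨i, hi, hm⟩ := Run_mem_bu.1 hm
    rcases mem_union.1 (hR i hi hm) with k | k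
    · exact Quo_ins k (SpStep_rest hi) hf
    · obtain ⟨k1, k2⟩ := mem_inter.1 k
      rcases mem_insert.1 k2 with rfl | k2
      · exact hlink i (by omega) hf
      rcases mem_insert.1 k2 with rfl | k2
      · exact hlink (i + 1) (by omega) hf
      exact not_ins_of_cut (hL k2) (Quo_two (sdiff_subset.trans subset_union_left) (hXY i hi)
        (SpStep_rest hi) hf (cut_sub_tch k1))
  -- the given values
  obtain ⟨ψ, hψ1, hψ2⟩ : ∃ ψ : E → ZMod 3, (∀ f ∈ G.tch (W \ bu n X), ψ f = φ' f) ∧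
      ∀ f, f ∉ G.tch (W \ bu n X) → ψ f = 1 :=
    ⟨fun f => if f ∈ G.tch (W \ bu n X) then φ' f else 1, fun f hf => if_pos hf,
      fun f hf => if_neg hf⟩
  have hpd := (SPS.pd_all hc hF h hB).1
  have hnz : ∀ i ≤ n, ∀ f ∈ G.tch (X i), ψ f ≠ 0 := by
    intro i hi f hf
    by_cases hw : f ∈ G.tch (W \ bu n X)
    · rw [hψ1 f hw]
      refine s2.2.1 f hw fun hm => ?_
      have hcut : f ∈ G.cut (W \ bu n X) := (Ab_link (SpStep_rest hi) hw hf).1
      have hen : f ∈ G.ends ((Hh \ pv n N) ∪ (Hs \ pv n N)) := by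
        rw [← s1.2.2]
        exact mem_inter.2 ⟨hm, hcut⟩
      obtain ⟨M, hM, hfM⟩ := mem_biUnion.1 hen
      have hM1 : M ∈ Hh ∪ Hs ∧ M ∉ pv n N := by
        rcases mem_union.1 hM with k | k
        · exact ⟨mem_union_left _ (mem_sdiff.1 k).1, (mem_sdiff.1 k).2⟩
        · exact ⟨mem_union_right _ (mem_sdiff.1 k).1, (mem_sdiff.1 k).2⟩
      obtain ⟨v, -, hv⟩ := hnd i hi
      have hMN : Disjoint M (N i) := by
        rw [hv]
        refine SpStep_node hpd (mem_union_right _ hM1.1) fun k => hM1.2 ?_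
        rw [k, ← hv]
        exact mem_image.2 ⟨i, mem_range.2 (by omega), rfl⟩
      exact Quo_three (SpStep_rest hi)
        ((h.dg M hM1.1).2.1.symm.mono_left (sdiff_subset.trans h.sub))
        (hMN.symm.mono_left (hX i hi).1) hw hf (cut_sub_tch hfM)
    · rw [hψ2 f hw]
      exact one_ne_zero
  have hdc : ∀ χ : E → ZMod 3, (∀ f, χ f = 0 ↔ ψ f = 0) →
      G.Dc (Hh \ pv n N) (Hs \ pv n N) χ := by
    intro χ hχ
    have k : ∀ M ∈ (Hh \ pv n N) ∪ (Hs \ pv n N), ∀ f ∈ G.cut M, (χ f = 0 ↔ φ' f = 0) := by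
      intro M hM f hf
      rw [hχ f, hψ1 f (cut_sub_tch ((h'.dg M hM).2.2 hf))]
    refine ⟨fun M hM => ?_, fun M hM => ?_⟩
    · obtain ⟨f, hf, hf'⟩ := s3.1 M hM
      exact ⟨f, hf, fun k' => hf' ((k M hM f hf).1 k')⟩
    · obtain ⟨f, hf, hf'⟩ := s3.2 M hM
      exact ⟨f, hf, (k M (mem_union_left _ hM) f hf).2 hf'⟩
  have fin : ∀ χ : E → ZMod 3, (∀ f, χ f = 0 ↔ ψ f = 0) →
      G.Sl (W \ bu n X) O' (G.Tg Fm (W \ bu n X) Ds') χ →
      (∀ Rs : ℕ → Rl, (∀ i ≤ n, C i χ (Rs i)) → Rl.Cl (fun i => G.n (e i)) Rs n) →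
      G.SPc Fm W Hh Hs Ds := by
    intro χ hχ hs hI'
    obtain ⟨φ, q1, q2⟩ := r4.2 χ (fun f hf _ _ => by
      obtain ⟨i, hi, hf'⟩ := Run_tch_bu.1 hf
      exact fun k => hnz i hi f hf' ((hχ f).1 k)) hI'
    exact sp_glue hc hT hF h hB hC hX hH h' hO s1 hs (hdc χ hχ) r1 h5 q2
      fun f hf => q1 f (hfree f hf)
  have sψ : G.Sl (W \ bu n X) O' (G.Tg Fm (W \ bu n X) Ds') ψ :=
    s2.congr hψ1 fun _ _ => Iff.rfl
  by_cases hc1 : ∀ Rs : ℕ → Rl, (∀ i ≤ n, C i ψ (Rs i)) → Rl.Cl (fun i => G.n (e i)) Rs n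
  · exact fin ψ (fun _ => Iff.rfl) sψ hc1
  · obtain ⟨Rs, hc2⟩ := not_forall.1 hc1
    obtain ⟨hc3, hc4⟩ := Classical.not_imp.1 hc2
    refine fin (G.ngo Y ψ) (fun _ => SpStep_ngo) ?_ fun Rs' hRs' =>
      (hcl ψ (fun i hi f hf _ _ => hnz i hi f hf) Rs Rs' hc3 hRs').resolve_left hc4
    refine (sψ.negOn (Y := Y \ bu n X) fun f hf v hv ha =>
      SpStep_neg hY hY' (tch_mono sdiff_subset hf) hv ha).congr (fun f hf => ?_) fun _ _ => Iff.rfl
    have k : f ∈ G.tch Y ↔ f ∈ G.tch (Y \ bu n X) := by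
      refine ⟨fun k => ?_, fun k => tch_mono sdiff_subset k⟩
      have k1 := SpStep_neg hY hY' k (ie_mem hf) ie_at
      obtain ⟨hA0, -⟩ := mem_tch.1 hf
      rcases (ie_at : G.At f (G.ie (W \ bu n X) f)) with k2 | k2
      · exact mem_tch.2 ⟨hA0, Or.inl (k2 ▸ k1)⟩
      · exact mem_tch.2 ⟨hA0, Or.inr (k2 ▸ k1)⟩
    simp only [ngo, k]

variable (G) in
/-- the class of the default pass of a node of the process -/
def Scl (L : Finset E) (Bs Ds Hh Hs : Finset (Finset V)) (N : Finset V) (σ : ZMod 2) (R : Rl) :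
    Prop :=
  (N ∈ Hh → R.X0) ∧ (N ∈ Hs → R.U σ) ∧ (N ∉ Hh ∪ Hs → G.Ncl L Bs Ds N σ R)

/-- The default passes.  HINT: `dg_hard`, `dg_soft` (first clause of `NP`, `SPS.pd_all`),
`node_pass` with `J = ends (Hh ∪ Hs)` (`Bx.ends`, `Rdy.str`). -/
theorem sp_pass (hc : G.Cub) (hT : G.HT T) (hF : G.FF Fm T) (h : G.SPS T W Hh Hs Ds)
    (hB : G.Bx Fm W ∅ Bs) (hj : G.Tj W (G.ends (Hh ∪ Hs)) F) (hP : ∀ B ∈ Bs, G.PS B)
    (hC : G.Fc W (Hh ∪ Hs) Bs Ds F n N e) (σ : ℕ → ZMod 2) :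
    ∃ (X : ℕ → Finset V) (O : ℕ → Finset E) (K : ℕ → Set (Finset E)), ∀ i ≤ n, X i ⊆ N i ∧
      G.NP W Bs Ds (N i) (e i) (e (i + 1)) (X i) (K i) ∧ (N i ∈ Hh → G.cut (N i) ∈ K i) ∧
      G.Pas0 (X i) (O i) (e i) (e (i + 1)) (G.cut W \ G.ends (Hh ∪ Hs)) (K i)
        (G.Scl (G.cut W \ G.ends (Hh ∪ Hs)) Bs Ds Hh Hs (N i) (σ i)) := by
  obtain ⟨⟨-, -, t3⟩, -, h0, he, -, hnd⟩ := id hC
  have he' : ∀ i ≤ n + 1, e i ∈ G.ins W ∪ G.ends (Hh ∪ Hs) := by
    have k : ∀ i ≤ n, e i ∈ G.ins W ∪ G.ends (Hh ∪ Hs) := fun i hi =>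
      union_subset_union_left hj.1 (he i hi)
    intro i hi
    rcases Nat.lt_or_ge n i with h2 | h2
    · obtain rfl : i = n + 1 := by omega
      exact h0 ▸ k 0 (Nat.zero_le n)
    · exact k i h2
  obtain ⟨hpd, -, hW⟩ := SPS.pd_all hc hF h hB
  have key : ∀ i, ∃ (X : Finset V) (O : Finset E) (K : Set (Finset E)), i ≤ n → X ⊆ N i ∧
      G.NP W Bs Ds (N i) (e i) (e (i + 1)) X K ∧ (N i ∈ Hh → G.cut (N i) ∈ K) ∧
      G.Pas0 X O (e i) (e (i + 1)) (G.cut W \ G.ends (Hh ∪ Hs)) K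
        (G.Scl (G.cut W \ G.ends (Hh ∪ Hs)) Bs Ds Hh Hs (N i) (σ i)) := by
    intro i
    by_cases hi : i ≤ n
    swap
    · exact ⟨∅, ∅, ∅, fun k => absurd k hi⟩
    obtain ⟨a1, a2, a3⟩ := t3 i hi
    by_cases hm : N i ∈ Hh ∪ Hs
    · obtain ⟨d1, d2, -⟩ := h.dg _ hm
      have hab : G.cut (N i) = {e i, e (i + 1)} := by
        obtain ⟨u, v, e1, e2, -, -, -, -, -, -, -, d3⟩ := d1
        refine (eq_of_subset_of_card_le (insert_subset a1 (singleton_subset_iff.2 a2)) ?_).symm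
        rw [d3, card_pair a3]
      have hnp : ∀ K, G.NP W Bs Ds (N i) (e i) (e (i + 1)) (N i) K := fun K =>
        Or.inl ⟨fun B hB' => d2.symm.mono_left ((hB.1 B hB').2.1.trans h.sub),
          fun ρ hρ => d2.symm.mono_left ((h.vd.2 ρ hρ).1.trans h.sub), rfl⟩
      by_cases hh : N i ∈ Hh
      · obtain ⟨O, hO⟩ := dg_hard (L := G.cut W \ G.ends (Hh ∪ Hs)) hc d1 hab
        exact ⟨N i, O, {G.cut (N i)}, fun _ => ⟨Subset.rfl, hnp _, fun _ => rfl,
          hO.imp fun R hR => ⟨fun _ => hR, fun k => absurd k (disjoint_left.1 h.dj hh),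
            fun k => absurd hm k⟩⟩⟩
      · obtain ⟨O, hO⟩ := dg_soft (L := G.cut W \ G.ends (Hh ∪ Hs)) hc d1 hab (σ i)
        exact ⟨N i, O, ∅, fun _ => ⟨Subset.rfl, hnp _, fun k => absurd k hh,
          hO.imp fun R hR => ⟨fun k => absurd k hh, fun _ => hR, fun k => absurd hm k⟩⟩⟩
    · obtain ⟨v, hv, hN⟩ := hnd i hi
      have hvW : v ∈ W := by
        rcases mem_union.1 hv with k | k
        · exact k
        · obtain ⟨M, hM, hvM⟩ := mem_biUnion.1 k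
          rw [nd_of_mem hpd (mem_union_right _ hM) hvM] at hN
          exact absurd (hN ▸ hM) hm
      rw [hW v hvW] at hN
      obtain ⟨X, O, K, b1, b2, b3⟩ := node_pass (L := G.cut W \ G.ends (Hh ∪ Hs)) hc hT h.sub
        (fun S hS => (hF.1 S hS).2.1) (Bx.ends hF hB (SPS.ends_sub h).2) h.vd hP
        (fun ρ hρ f hf hf' => by
          obtain ⟨u, w, m, a, b, c, d, -, -, -, -, q, tg, -, -, -, -, -, -, hc', hd'⟩ :=
            Rdy.str hc hT h.sub (h.vd.2 ρ hρ)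
          refine mem_sdiff.2 ⟨hf', ?_⟩
          have hin : ∀ g ∈ ({a, b} : Finset E), g ∉ G.cut W := fun g hg hg' =>
            not_ins_of_cut hg' (mem_inter.1 (show g ∈ G.tg W ρ from tg ▸ hg)).2
          rw [q.1] at hf
          simp only [mem_insert, mem_singleton] at hf
          rcases hf with rfl | rfl | rfl | rfl
          · exact absurd hf' (hin _ (mem_insert_self _ _))
          · exact absurd hf' (hin _ (mem_insert_of_mem (mem_singleton_self _)))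
          · exact hc'
          · exact hd')
        sdiff_disjoint hvW hN a1 a2 a3 (he' i (by omega)) (he' (i + 1) (by omega)) sdiff_subset (σ i)
      exact ⟨X, O, K, fun _ => ⟨b1, b2, fun k => absurd (mem_union_left _ k) hm,
        b3.imp fun R hR => ⟨fun k => absurd (mem_union_left _ k) hm,
          fun k => absurd (mem_union_right _ k) hm, fun _ => hR⟩⟩⟩
  choose X O K hk using key
  exact ⟨X, O, K, fun i hi => hk i hi⟩

/-- the form of `sp_step` for standard passes (`Y = ∅`) -/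
theorem sp_std (hc : G.Cub) (hT : G.HT T) (hF : G.FF Fm T) (h : G.SPS T W Hh Hs Ds)
    (hB : G.Bx Fm W ∅ Bs) (hj : G.Tj W (G.ends (Hh ∪ Hs)) F) (hA : G.As Fm W F)
    (hC : G.Fc W (Hh ∪ Hs) Bs Ds F n N e) (hI : G.SPI Fm T W) {C : ℕ → Rl → Prop}
    (hX : ∀ i ≤ n, X i ⊆ N i ∧ G.NP W Bs Ds (N i) (e i) (e (i + 1)) (X i) (K i) ∧
      (N i ∈ Hh → G.cut (N i) ∈ K i) ∧
      G.Pas0 (X i) (O i) (e i) (e (i + 1)) (G.cut W \ G.ends (Hh ∪ Hs)) (K i) (C i))
    (hcl : ∀ Rs : ℕ → Rl, (∀ i ≤ n, C i (Rs i)) → Rl.Cl (fun i => G.n (e i)) Rs n) :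
    G.SPc Fm W Hh Hs Ds :=
  sp_step (Y := ∅) (C := fun i _ => C i)
    (Fr := fun i => G.fr (X i) (insert (e i) (insert (e (i + 1)) (G.cut W \ G.ends (Hh ∪ Hs)))))
    hc hT hF h hB hj hA hC hI (fun i hi => ⟨(hX i hi).1, (hX i hi).2.1⟩)
    (fun i hi => (hX i hi).2.2.1) (fun i hi => (hX i hi).2.2.2.2.1) (fun _ _ => Subset.rfl)
    (fun i hi => (hX i hi).2.2.2.2.2) (empty_subset _)
    (fun _ hf => absurd (iff_of_false (notMem_empty _) (notMem_empty _)) (mem_crs.1 hf).2)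
    fun _ _ Rs _ h1 _ => Or.inl (hcl Rs h1)

end SG

end Pool.Agent.Work.MP_8c679b_co
end

-- merged part: Pool.Agent.Work.MP_8c679b_co.Six.SpClose
section
/-!
The reasons for closing.
-/

set_option autoImplicit false

namespace Pool.Agent.Work.MP_8c679b_co

open Finset

namespace SG

variable {V E : Type} [Fintype V] [DecidableEq V] [DecidableEq E] {G : SG V E}
  {T W Y : Finset V} {F : Finset E} {Bs Ds Ds' Hh Hs : Finset (Finset V)} {Fm : Set (Finset V)}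
  {n : ℕ} {N X : ℕ → Finset V} {e : ℕ → E} {O Fr : ℕ → Finset E} {K : ℕ → Set (Finset E)}

theorem SpClose_scl {L : Finset E} {M : Finset V} {σ : ZMod 2} {R : Rl}
    (h : G.Scl L Bs Ds Hh Hs M σ R) :
    R.Tt ∧ (M ∉ Hh → M ∉ Ds → R.P (if M ∈ Hs ∨ M ∈ Bs then σ else 0)) := by
  by_cases k1 : M ∈ Hh
  · exact ⟨(h.1 k1).xi.gd.1, fun k => absurd k1 k⟩
  by_cases k2 : M ∈ Hs
  · exact ⟨(h.2.1 k2).p.tt, fun _ _ => by
      rw [if_pos (Or.inl k2)]
      exact (h.2.1 k2).p⟩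
  have k := (h.2.2 fun k => (mem_union.1 k).elim k1 k2).tt
  refine ⟨k.1, fun _ k3 => ?_⟩
  simpa only [k2, false_or] using k.2 k3

theorem SpClose_box (hF : G.FF Fm T) (h : G.SPS T W Hh Hs Ds) (hB : G.Bx Fm W ∅ Bs)
    {B : Finset V} (hb : B ∈ Bs) : B ⊆ W ∧ B ⊆ T ∧ G.US B :=
  ⟨(hB.1 B hb).2.1, (hB.1 B hb).2.1.trans h.sub, (hF.1 B (hB.1 B hb).1).2.1⟩

theorem SpClose_node (hc : G.Cub) (hT : G.HT T) (hF : G.FF Fm T) (h : G.SPS T W Hh Hs Ds)
    (hB : G.Bx Fm W ∅ Bs) (hC : G.Fc W (Hh ∪ Hs) Bs Ds F n N e) {i : ℕ} (hi : i ≤ n)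
    (h1 : N i ∉ Ds) (h2 : N i ∉ Hs) (h3 : N i ∉ Hh) : N i ⊆ W ∧ G.Cn (N i) (G.ins (N i)) := by
  obtain ⟨v, hv, hN⟩ := hC.2.2.2.2.2 i hi
  rcases nd_cases (h.pd_all hc hF hB).1 v with k | ⟨k, k'⟩
  · rw [← hN] at k
    simp only [mem_union, h1, h2, h3, or_false] at k
    obtain ⟨a, b, c⟩ := SpClose_box hF h hB k
    exact ⟨a, hT.cn4 hc b c.1⟩
  · rw [hN, k']
    refine ⟨singleton_subset_iff.2 ((mem_union.1 hv).resolve_right fun k2 => ?_),
      cn_of_base (a := v) fun u hu => ?_⟩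
    · obtain ⟨M, a, b⟩ := mem_biUnion.1 k2
      exact k M (mem_union_right _ a) b
    · rw [mem_singleton.1 hu]
      exact Rch.refl _ _

theorem SpClose_ext {A B Z : Finset V} {f : E} (hA : A ⊆ W) (hB : B ⊆ W) (hAB : Disjoint A B)
    (hBZ : Disjoint Z B) (hZ : G.crs (G.ins W) Y ⊆ G.cut Z) (h1 : f ∈ G.cut A)
    (h2 : f ∈ G.cut B) (hf : f ∉ G.crs (G.ins W) Y) (hcn : G.Cn B (G.ins B))
    (hAY : Disjoint A Y) : Disjoint B Y := by
  have k : ∀ g ∈ G.ins W, g ∉ G.crs (G.ins W) Y → (G.s g ∉ Y ↔ G.t g ∉ Y) := fun g a b =>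
    not_congr (not_not.1 fun c => b (mem_crs.2 ⟨a, c⟩))
  have k1 : G.ie B f ∉ Y := (rch_at (mem_singleton_self f) ie_at ie_at).closed
    (P := fun v => v ∉ Y) (fun g a => by
      rw [mem_singleton.1 a]
      exact k f (Quo_two hA hB hAB (cut_sub_tch h1) (cut_sub_tch h2)) hf)
    (disjoint_left.1 hAY (ie_mem (cut_sub_tch h1)))
  refine disjoint_left.2 fun v hv => (hcn _ (ie_mem (cut_sub_tch h2)) v hv).closed
    (P := fun v => v ∉ Y) (fun g a => k g (ins_mono hB a) fun b => ?_) k1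
  exact Quo_ins a hBZ (cut_sub_tch (hZ b))

theorem SpClose_seg (hc : G.Cub) (hT : G.HT T) (hF : G.FF Fm T) (h : G.SPS T W Hh Hs Ds)
    (hB : G.Bx Fm W ∅ Bs) (hC : G.Fc W (Hh ∪ Hs) Bs Ds F n N e)
    (h1 : ∀ i ≤ n, N i ∉ Ds) (h2 : ∀ i ≤ n, N i ∉ Hs) (h3 : N 0 ∉ Hh) (hY : Y ⊆ W)
    (hd : Disjoint Y (N 0)) (hZ : G.crs (G.ins W) Y ⊆ G.cut (N 0))
    (e0 : e 0 ∉ G.crs (G.ins W) Y) (e1 : e 1 ∉ G.crs (G.ins W) Y) {i : ℕ} (hi : i ≤ n)
    (hi0 : i ≠ 0) (hs : (∀ k ≤ i, N k ∉ Hh) ∨ ∀ k ≤ n, i ≤ k → N k ∉ Hh) :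
    ∀ f ∈ G.tch (N i), f ∉ G.tch Y := by
  have nd := fun i hi => SpClose_node hc hT hF h hB hC hi (h1 i hi) (h2 i hi)
  obtain ⟨⟨-, dj, ed⟩, hn, hl, -⟩ := hC
  have lk : ∀ k, k + 1 ≤ n → e (k + 1) ∉ G.crs (G.ins W) Y := fun k a b => by
    rcases Nat.eq_zero_or_pos k with rfl | c
    · exact e1 b
    · exact Quo_three (dj 0 (by omega) k (by omega) (by omega))
        (dj 0 (by omega) (k + 1) a (by omega)) (dj k (by omega) (k + 1) a (by omega))
        (cut_sub_tch (hZ b)) (cut_sub_tch (ed k (by omega)).2.1) (cut_sub_tch (ed _ a).1)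
  have up : ∀ k ≤ n, (∀ l ≤ k, N l ∉ Hh) → Disjoint (N k) Y := by
    intro k
    induction k with
    | zero => exact fun _ _ => hd.symm
    | succ k ih =>
      intro a b
      exact SpClose_ext (nd k (by omega) (b k (by omega))).1 (nd _ a (b _ le_rfl)).1
        (dj k (by omega) _ a (by omega)) (dj 0 (by omega) _ a (by omega)) hZ
        (ed k (by omega)).2.1 (ed _ a).1 (lk k a) (nd _ a (b _ le_rfl)).2
        (ih (by omega) fun l c => b l (by omega))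
  have dn : ∀ m k, k + m = n → k ≠ 0 → (∀ l ≤ n, k ≤ l → N l ∉ Hh) → Disjoint (N k) Y := by
    intro m
    induction m with
    | zero =>
      intro k a b c
      obtain rfl : k = n := a
      exact SpClose_ext (nd 0 (by omega) h3).1 (nd k le_rfl (c k le_rfl le_rfl)).1
        (dj 0 (by omega) k le_rfl b.symm) (dj 0 (by omega) k le_rfl b.symm) hZ
        (ed 0 (by omega)).1 (hl ▸ (ed k le_rfl).2.1) e0 (nd k le_rfl (c k le_rfl le_rfl)).2 hd.symm
    | succ m ih =>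
      intro k a b c
      exact SpClose_ext (nd (k + 1) (by omega) (c _ (by omega) (by omega))).1
        (nd k (by omega) (c k (by omega) le_rfl)).1 (dj _ (by omega) k (by omega) (by omega))
        (dj 0 (by omega) k (by omega) b.symm) hZ (ed (k + 1) (by omega)).1 (ed k (by omega)).2.1
        (lk k (by omega)) (nd k (by omega) (c k (by omega) le_rfl)).2
        (ih (k + 1) (by omega) (by omega) fun l d d' => c l d (by omega))
  have k1 : Disjoint (N i) Y := hs.elim (up i hi) (dn (n - i) i (by omega) hi0)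
  have k2 : N i ⊆ W := (nd i hi (hs.elim (fun a => a i le_rfl) fun a => a i hi le_rfl)).1
  intro f a b
  exact Quo_three hd k1.symm (dj 0 (by omega) i hi hi0.symm) b (cut_sub_tch (hZ (mem_crs.2
    ⟨Quo_two k2 hY k1 a b, (mem_cut.1 (Ab_link k1 a b).2).2⟩))) a

theorem SpClose_z3 : ∀ k x : ZMod 3, k ≠ 0 → x ≠ 0 → k * x ≠ k * -x := by decide

theorem SpClose_zero (hc : G.Cub) (hT : G.HT T) (hF : G.FF Fm T) (h : G.SPS T W Hh Hs Ds)
    (hB : G.Bx Fm W ∅ Bs) (hC : G.Fc W (Hh ∪ Hs) Bs Ds F n N e) (h1 : N 0 ∉ Ds) {g g' : E}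
    (hg : g ∈ G.ins W) (L : Finset E)
    (h0 : (∃ v, N 0 = {v} ∧ g' = g ∧ G.Q3 {v} (e 0) (e 1) g) ∨
      (N 0 ∈ Bs ∧ G.Qd (N 0) (e 0) (e 1) ∧ G.Q4 (N 0) (e 0) (e 1) g g')) :
    N 0 ∉ Hh ∧ (∀ f ∈ ({g, g'} : Finset E), f ∈ G.cut (N 0) ∧ f ≠ e 0 ∧ f ≠ e 1) ∧
      ∃ O0 Fr0 K0 σ, ∃ c : (E → ZMod 3) → ZMod 3, G.NP W Bs Ds (N 0) (e 0) (e 1) (N 0) K0 ∧
        G.St (N 0) O0 {e 0, e 1} ∧ Fr0 ⊆ G.fr (N 0) (insert (e 0) (insert (e 1) L)) ∧
        (G.Pa (N 0) O0 Fr0 K0 (e 0) (e 1) fun ψ R => R.PC σ (c ψ)) ∧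
        ∀ ψ ψ', G.Pre (N 0) O0 Fr0 ψ → ψ' g = -ψ g → c ψ ≠ c ψ' := by
  obtain ⟨pd, dj, -⟩ := h.pd_all hc hF hB
  rcases h0 with ⟨v, hv, rfl, hq⟩ | ⟨hb, hd, hq⟩
  · have m : e 0 ∈ G.cut {v} ∧ e 1 ∈ G.cut {v} ∧ g' ∈ G.cut {v} := by
      rw [hq.1]
      simp only [mem_insert, mem_singleton, true_or, or_true, and_self]
    have hW : v ∈ W := by
      have a := mem_cut.1 m.2.2
      have b := mem_ins.1 hg
      simp only [mem_singleton] at a
      by_cases c : G.s g' = v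
      · exact c ▸ b.2.1
      · exact (not_not.1 fun d => a.2 ⟨fun x => absurd x c, fun x => absurd x d⟩) ▸ b.2.2
    obtain ⟨u, -, hu⟩ := hC.2.2.2.2.2 0 (Nat.zero_le _)
    have huv : u = v := by
      have a : u ∈ N 0 := hu ▸ mem_nd_self
      rwa [hv, mem_singleton] at a
    have key : ∀ M ∈ Bs ∪ Ds, v ∈ M → N 0 = M := fun M a b => by
      rw [hu, huv]
      exact nd_of_mem pd (mem_union_left _ a) b
    obtain ⟨s1, s2⟩ := vtx_pc (hT.vtx hc (h.sub hW)).2.1 hq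
    have ng : g' ∉ ({e 0, e 1} : Finset E) := by
      simp only [mem_insert, mem_singleton, not_or]
      exact ⟨hq.2.2.1.symm, hq.2.2.2.symm⟩
    refine ⟨fun a => disjoint_left.1 (h.dg _ (mem_union_left _ a)).2.1
      (hv ▸ mem_singleton_self v) (h.sub hW), fun f a => ?_, {e 0, e 1}, {e 0, e 1}, ∅, 0,
      fun ψ => -(G.out {v} ψ g'), Or.inl ⟨fun B a => ?_, fun B a => ?_, rfl⟩, hv ▸ s1, ?_,
      hv ▸ s2, fun ψ ψ' a b => ?_⟩
    · obtain rfl : f = g' := by simpa only [mem_insert, mem_singleton, or_self] using a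
      exact ⟨hv ▸ m.2.2, hq.2.2.1.symm, hq.2.2.2.symm⟩
    · rw [hv, disjoint_singleton_right]
      intro b
      obtain ⟨-, c, d⟩ := SpClose_box hF h hB a
      have := hT.us_card hc c d
      rw [← key B (mem_union_left _ a) b, hv, card_singleton] at this
      omega
    · rw [hv, disjoint_singleton_right]
      exact fun b => h1 (key B (mem_union_right _ a) b ▸ a)
    · rw [hv]
      intro f a
      refine mem_union_right _ (mem_inter.2 ?_)
      rcases mem_insert.1 a with rfl | a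
      · exact ⟨m.1, mem_insert_self _ _⟩
      · rw [mem_singleton.1 a]
        exact ⟨m.2.1, mem_insert_of_mem (mem_insert_self _ _)⟩
    · rw [hv] at a
      have := SpClose_z3 (-1) _ (by decide)
        ((out_ne m.2.2).2 (a g' (cut_sub_tch m.2.2) ng ng))
      simpa only [out, b, neg_mul, one_mul, mul_neg] using this
  · obtain ⟨-, b, c⟩ := SpClose_box hF h hB hb
    obtain ⟨O0, σ, κ, a, s1, s2⟩ := q_pc hc hT b c hq hd
    have m := hq.mem
    have ng : g ∉ ({e 0, e 1} : Finset E) := by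
      simp only [mem_insert, mem_singleton, not_or]
      exact ⟨hq.2.2.1.symm, hq.2.2.2.2.1.symm⟩
    refine ⟨fun k => disjoint_left.1 dj (mem_union_left _ hb) (mem_union_left _ k),
      fun f k => ?_, O0, _, _, σ, fun ψ => κ * ψ g,
      Or.inr (Or.inr ⟨hb, g, g', hq, Or.inl rfl, fun t k => k.1⟩), s1,
      union_subset_union_right (inter_subset_inter_left (insert_subset_insert _
        (singleton_subset_iff.2 (mem_insert_self _ _)))), s2, fun ψ ψ' k k' => ?_⟩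
    · rcases mem_insert.1 k with rfl | k
      · exact ⟨m.2.2.1, hq.2.2.1.symm, hq.2.2.2.2.1.symm⟩
      · rw [mem_singleton.1 k]
        exact ⟨m.2.2.2, hq.2.2.2.1.symm, hq.2.2.2.2.2.1.symm⟩
    · dsimp only
      rw [k']
      exact SpClose_z3 κ _ a (k g (cut_sub_tch m.2.2.1)
        (fun x => (mem_union.1 x).elim (not_ins_of_cut m.2.2.1) fun y => ng (mem_inter.1 y).2)
        fun x => ng (s1.2.2 ▸ mem_inter.2 ⟨x, m.2.2.1⟩))

/-- The sensitive case.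
HINT: default passes (`sp_pass`) for `i ≠ 0`; outside `Hh` they have class `P` (`Ncl.tt`), turn
them into `PC` with local constants by `Pa.local`.  Node `0` is passed completely by `vtx_pc` or
by `q_pc` (which touches `g`).  `sp_step` with `Rl.cl_sens`, `Hd` the indices of the hard digons.
The nodes of the cyclic segment of index `0` are joined by inner edges of `W` other than `g, g'`
and are connected (`HT.cn4`), so they are disjoint from `Y`, and no edge at them touches `Y`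
(`g` and `g'` have an end in `N 0`). -/
theorem sp_sens (hc : G.Cub) (hT : G.HT T) (hF : G.FF Fm T) (h : G.SPS T W Hh Hs Ds)
    (hB : G.Bx Fm W ∅ Bs) (hj : G.Tj W (G.ends (Hh ∪ Hs)) F) (hA : G.As Fm W F)
    (hC : G.Fc W (Hh ∪ Hs) Bs Ds F n N e) (hI : G.SPI Fm T W) (hP : ∀ B ∈ Bs, G.PS B)
    (h1 : ∀ i ≤ n, N i ∉ Ds) (h2 : ∀ i ≤ n, N i ∉ Hs) (h3 : ∃ i ≤ n, N i ∈ Hh) (hY : Y ⊆ W)
    (hd : Disjoint Y (N 0)) {g g' : E} (hg : g ∈ G.crs (G.ins W) Y)
    (hg' : G.crs (G.ins W) Y ⊆ {g, g'})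
    (h0 : (∃ v, N 0 = {v} ∧ g' = g ∧ G.Q3 {v} (e 0) (e 1) g) ∨
      (N 0 ∈ Bs ∧ G.Qd (N 0) (e 0) (e 1) ∧ G.Q4 (N 0) (e 0) (e 1) g g')) :
    G.SPc Fm W Hh Hs Ds := by
  obtain ⟨z1, z2, O0, Fr0, K0, σ0, c0, a1, a2, a3, a4, a5⟩ := SpClose_zero hc hT hF h hB hC
    (h1 0 (Nat.zero_le _)) (mem_crs.1 hg).1 (G.cut W \ G.ends (Hh ∪ Hs)) h0
  obtain ⟨X, O, K, hX⟩ := sp_pass hc hT hF h hB hj hP hC fun _ => 0
  have key : ∀ i, ∃ (X' : Finset V) (O' Fr' : Finset E) (K' : Set (Finset E)) (s : ZMod 2)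
      (c : (E → ZMod 3) → ZMod 3), i ≤ n →
      (X' ⊆ N i ∧ G.NP W Bs Ds (N i) (e i) (e (i + 1)) X' K') ∧ (N i ∈ Hh → G.cut (N i) ∈ K') ∧
      G.St X' O' {e i, e (i + 1)} ∧
      Fr' ⊆ G.fr X' (insert (e i) (insert (e (i + 1)) (G.cut W \ G.ends (Hh ∪ Hs)))) ∧
      (G.Pa X' O' Fr' K' (e i) (e (i + 1)) fun ψ R =>
        (N i ∈ Hh → R.X0) ∧ (N i ∉ Hh → R.PC s (c ψ))) ∧
      (i = 0 → X' = N 0 ∧ ∀ ψ ψ', G.Pre X' O' Fr' ψ → ψ' g = -ψ g → c ψ ≠ c ψ') ∧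
      (i ≠ 0 → ∀ ψ ψ' : E → ZMod 3, (∀ f ∈ G.tch (N i), ψ' f = ψ f) → c ψ' = c ψ) := by
    intro i
    by_cases hi : i ≤ n
    swap
    · exact ⟨∅, ∅, ∅, ∅, 0, fun _ => 0, fun k => absurd k hi⟩
    by_cases i0 : i = 0
    · subst i0
      exact ⟨N 0, O0, Fr0, K0, σ0, c0, fun _ => ⟨⟨Subset.rfl, a1⟩, fun k => absurd k z1, a2, a3,
        a4.imp fun ψ R _ k => ⟨R, ⟨fun k' => absurd k' z1, fun _ => k⟩, fun _ _ => id⟩,
        fun _ => ⟨rfl, a5⟩, fun k => absurd rfl k⟩⟩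
    obtain ⟨b1, b2, b3, b4⟩ := hX i hi
    by_cases k : N i ∈ Hh
    · exact ⟨X i, O i, _, K i, 0, fun _ => 0, fun _ => ⟨⟨b1, b2⟩, b3, b4.2.1, Subset.rfl,
        b4.2.2.imp fun ψ R _ k' => ⟨R, ⟨k'.1, fun k2 => absurd k k2⟩, fun _ _ => id⟩,
        fun k' => absurd k' i0, fun _ _ _ _ => rfl⟩⟩
    · obtain ⟨c, b5, b6⟩ := (b4.imp (C' := Rl.P 0) fun R k' => by
        simpa only [ite_self] using (SpClose_scl k').2 k (h1 i hi)).2.2.local
        (cut_sub_tch b4.cut.1) (cut_sub_tch b4.cut.2.1)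
      exact ⟨X i, O i, _, K i, 0, c, fun _ => ⟨⟨b1, b2⟩, b3, b4.2.1, Subset.rfl,
        b5.imp fun ψ R _ k' => ⟨R, ⟨fun k2 => absurd k2 k, fun _ => k'⟩, fun _ _ => id⟩,
        fun k' => absurd k' i0, fun _ ψ ψ' k' => b6 ψ ψ' fun f k2 => k' f (tch_mono b1 k2)⟩⟩
  choose X' O' Fr' K' s c hk using key
  have cY : ∀ f ∈ G.crs (G.ins W) Y, f ∈ G.cut Y := fun f a =>
    mem_cut.2 ⟨ins_sub_A (mem_crs.1 a).1, (mem_crs.1 a).2⟩
  obtain ⟨y1, y2⟩ := (hk 0 (Nat.zero_le _)).2.2.2.2.2.1 rfl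
  refine sp_step hc hT hF h hB hj hA hC hI (fun i a => (hk i a).1) (fun i a => (hk i a).2.1)
    (fun i a => (hk i a).2.2.1) (fun i a => (hk i a).2.2.2.1) (fun i a => (hk i a).2.2.2.2.1) hY
    (fun f a => ?_) fun ψ a Rs Rs' r r' => ?_
  · refine Run_sub (Nat.zero_le n) ?_
    rw [y1, ← (ie_link hd (cY f a) (z2 f (hg' a)).1).1]
    exact ie_mem (cut_sub_tch (z2 f (hg' a)).1)
  · have m : ∀ i, i ∈ (range (n + 1)).filter (fun i => N i ∈ Hh) ↔ i ≤ n ∧ N i ∈ Hh := fun i => by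
      rw [mem_filter, mem_range, Nat.lt_succ_iff]
    refine Rl.cl_sens (Hd := (range (n + 1)).filter fun i => N i ∈ Hh) (s := s)
      (c := fun i => c i ψ) (c' := fun i => c i (G.ngo Y ψ)) (filter_subset _ _)
      (h3.imp fun i => (m i).2) (fun k => z1 ((m 0).1 k).2)
      (fun i k => ⟨(r i ((m i).1 k).1).1 ((m i).1 k).2, (r' i ((m i).1 k).1).1 ((m i).1 k).2⟩)
      (fun i k k' => ⟨(r i k).2 fun x => k' ((m i).2 ⟨k, x⟩),
        (r' i k).2 fun x => k' ((m i).2 ⟨k, x⟩)⟩)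
      (y2 ψ _ (a 0 (Nat.zero_le _)) (if_pos (cut_sub_tch (cY g hg)))) fun i k k' k2 => ?_
    refine ((hk i k).2.2.2.2.2.2 k' ψ _ fun f x => if_neg (SpClose_seg hc hT hF h hB hC h1 h2 z1
      hY hd (fun f y => (z2 f (hg' y)).1) (fun y => (z2 _ (hg' y)).2.1 rfl)
      (fun y => (z2 _ (hg' y)).2.2 rfl) k k' (k2.imp (fun y l y' y2 => ?_) fun y l y' y2 y3 => ?_)
      f x)).symm
    · have := y l ((m l).2 ⟨y'.trans k, y2⟩)
      omega
    · have := y l ((m l).2 ⟨y', y3⟩)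
      omega

/-- HINT: `sp_pass`, `sp_std`.  A rung: `Rl.cl_cs`.  No rung and no hard digon: choose the sign
at the soft digon or at the box for `Rl.cl_odd`.  An even number of hard digons: `Rl.cl_hard`.
An odd number: `Rl.cl_gd` with a soft digon, with a vertex that has a live edge (`Rl.U.gd`), or
with the good pass of a box (`RP`, replace the data at that index, `Pas0.monoL`); otherwise
`sp_sens`. -/
theorem sp_close (hc : G.Cub) (hT : G.HT T) (hF : G.FF Fm T) (hK : G.KB T) (hR : G.RPA T)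
    (h : G.SPS T W Hh Hs Ds) (hB : G.Bx Fm W ∅ Bs) (hj : G.Tj W (G.ends (Hh ∪ Hs)) F)
    (hA : G.As Fm W F) (hC : G.Fc W (Hh ∪ Hs) Bs Ds F n N e) (hI : G.SPI Fm T W)
    (hw : G.Why W Hh Hs Bs Ds n N e) : G.SPc Fm W Hh Hs Ds := by
  have hP : ∀ B ∈ Bs, G.PS B := fun B a =>
    (hK B (SpClose_box hF h hB a).2.1).2.2.2.2.2.2.2 (SpClose_box hF h hB a).2.2
  obtain ⟨-, dj, -⟩ := h.pd_all hc hF hB
  by_cases h1 : ∃ i ≤ n, N i ∈ Ds
  · obtain ⟨j, a, b⟩ := h1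
    obtain ⟨X, O, K, hX⟩ := sp_pass hc hT hF h hB hj hP hC fun _ => 0
    exact sp_std hc hT hF h hB hj hA hC hI hX fun Rs r => Rl.cl_cs
      (fun i k => (SpClose_scl (r i k)).1) a
      (((r j a).2.2 (disjoint_left.1 dj (mem_union_right _ b))).1 b)
  have h1' : ∀ i ≤ n, N i ∉ Ds := fun i a b => h1 ⟨i, a, b⟩
  by_cases h3 : ∃ i ≤ n, N i ∈ Hh
  swap
  · have : ∃ j ≤ n, N j ∈ Hs ∨ N j ∈ Bs := by
      rcases hw with a | ⟨j, a, b⟩ | ⟨-, j, a, b⟩ | ⟨a, -⟩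
      exacts [absurd a h1, ⟨j, a, Or.inl b⟩, ⟨j, a, Or.inr b⟩, absurd a h3]
    obtain ⟨j, a, b⟩ := this
    obtain ⟨X, O, K, hX⟩ := sp_pass hc hT hF h hB hj hP hC
      fun i => if i = j then 1 + ∑ k ∈ range (n + 1), G.n (e k) else 0
    refine sp_std hc hT hF h hB hj hA hC hI hX fun Rs r => Rl.cl_odd
      (s := fun i => if i = j then 1 + ∑ k ∈ range (n + 1), G.n (e k) else 0) (fun i k => ?_) ?_
    · have := (SpClose_scl (r i k)).2 (fun x => h3 ⟨i, k, x⟩) (h1' i k)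
      by_cases c : i = j
      · rwa [if_pos (c ▸ b)] at this
      · simpa only [if_neg c, ite_self] using this
    · rw [sum_add_distrib, sum_ite_eq', if_pos (mem_range.2 (Nat.lt_succ_of_le a)), add_assoc,
        z2_add_self, add_zero]
  have m : ∀ i, i ∈ (range (n + 1)).filter (fun i => N i ∈ Hh) ↔ i ≤ n ∧ N i ∈ Hh := fun i => by
    rw [mem_filter, mem_range, Nat.lt_succ_iff]
  obtain ⟨X, O, K, hX⟩ := sp_pass hc hT hF h hB hj hP hC fun _ => 0
  rcases Nat.even_or_odd ((range (n + 1)).filter fun i => N i ∈ Hh).card with ev | od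
  · exact sp_std hc hT hF h hB hj hA hC hI hX fun Rs r => Rl.cl_hard (filter_subset _ _)
      (h3.imp fun i => (m i).2) (fun i k => (r i ((m i).1 k).1).1 ((m i).1 k).2)
      (fun i k k' => ⟨_, (SpClose_scl (r i k)).2 (fun x => k' ((m i).2 ⟨k, x⟩)) (h1' i k)⟩) ev
  have gd : ∀ j ≤ n, N j ∉ Hh → ∀ Rs : ℕ → Rl, (Rs j).Gd → (∀ i ≤ n, i ≠ j →
      G.Scl (G.cut W \ G.ends (Hh ∪ Hs)) Bs Ds Hh Hs (N i) 0 (Rs i)) →
      Rl.Cl (fun i => G.n (e i)) Rs n := fun j a b Rs r r' => Rl.cl_gd (filter_subset _ _)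
    (fun i k => (r' i ((m i).1 k).1 fun x => b (x ▸ ((m i).1 k).2)).1 ((m i).1 k).2) a
    (fun k => b ((m j).1 k).2) r
    (fun i k k' k2 => ⟨_, (SpClose_scl (r' i k k2)).2 (fun x => k' ((m i).2 ⟨k, x⟩)) (h1' i k)⟩) od
  by_cases h2 : ∃ i ≤ n, N i ∈ Hs
  · obtain ⟨j, a, b⟩ := h2
    exact sp_std hc hT hF h hB hj hA hC hI hX fun Rs r =>
      gd j a (disjoint_right.1 h.dj b) Rs ((r j a).2.1 b).gd fun i k _ => r i k
  rcases hw with a | a | ⟨a, -⟩ | ⟨-, a | ⟨j, a, f, b, c, d⟩ | ⟨j, a, b, c⟩ |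
    ⟨Y, a, b, g, g', c, d, x⟩⟩
  · exact absurd a h1
  · exact absurd a h2
  · obtain ⟨i, b, c⟩ := h3
    exact absurd c (a i b)
  · exact absurd a (Nat.not_even_iff_odd.2 od)
  · have k1 : N j ∉ Hh ∪ Hs := fun k => c (mem_biUnion.2 ⟨_, k, d⟩)
    have k2 : N j ∉ Bs := fun k => not_ins_of_cut b (by
      simpa only [union_empty] using (hB.1 _ k).2.2 d)
    exact sp_std hc hT hF h hB hj hA hC hI hX fun Rs r =>
      gd j a (fun k => k1 (mem_union_left _ k)) Rs ((((r j a).2.2 k1).2.2 (h1' j a) k2).2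
        ⟨f, mem_sdiff.2 ⟨b, c⟩, d⟩).gd fun i k _ => r i k
  · obtain ⟨-, k1, k2⟩ := SpClose_box hF h hB b
    obtain ⟨k3, k4, k5⟩ := hC.1.2.2 j a
    obtain ⟨p, q, hq⟩ := exists_q4 k2.1 k3 k4 k5
    obtain ⟨X', O', k6, k7⟩ := hR _ k1 k2 _ _ p q hq c
    have k8 : N j ∉ Hh := fun k => disjoint_left.1 dj (mem_union_left _ b) (mem_union_left _ k)
    refine sp_std hc hT hF h hB hj hA hC hI (X := Function.update X j X')
      (O := Function.update O j O') (K := Function.update K j (G.Kp (N j) X' p q))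
      (C := Function.update (fun i => G.Scl (G.cut W \ G.ends (Hh ∪ Hs)) Bs Ds Hh Hs (N i) 0) j
        Rl.Gd) (fun i k => ?_) fun Rs r => gd j a k8 Rs ?_ fun i k k' => ?_
    · by_cases y : i = j
      · subst y
        simp only [Function.update_self]
        exact ⟨k6.elim Eq.subset fun y => y.1, Or.inr (Or.inr ⟨b, p, q, hq, k6, Set.Subset.rfl⟩),
          fun y => absurd y k8, k7.monoL fun _ _ y => absurd y (notMem_empty _)⟩
      · simp only [Function.update_of_ne y]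
        exact hX i k
    · simpa only [Function.update_self] using r j a
    · simpa only [Function.update_of_ne k'] using r i k
  · exact sp_sens hc hT hF h hB hj hA hC hI hP h1' (fun i y z => h2 ⟨i, y, z⟩) h3 a b c d x

end SG

end Pool.Agent.Work.MP_8c679b_co
end

-- merged part: Pool.Agent.Work.MP_8c679b_co.Six.GTog
section
/-!
Toggling the join along a shortest circuit (PROOF.md, lemma TOGGLE).
-/

set_option autoImplicit false

namespace Pool.Agent.Work.MP_8c679b_co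

open Finset

namespace SG

variable {V E : Type} [Fintype V] [DecidableEq V] [DecidableEq E] {G : SG V E}
  {T W : Finset V} {J F : Finset E} {Bs : Finset (Finset V)} {y : V}

omit [Fintype V] [DecidableEq V] in
theorem GTog_sub {S S' R : Finset E} (h : S ⊆ R) (h' : S' ⊆ R) : symmDiff S S' ⊆ R :=
  fun _ he => (mem_symmDiff.1 he).elim (fun k => h k.1) fun k => h' k.1

theorem GTog_dis (hJ : J ⊆ G.cut W) {S : Finset E} (h : S ⊆ G.ins W) : Disjoint S J :=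
  disjoint_left.2 fun _ he he' => not_ins_of_cut (hJ he') (h he)

theorem GTog_dg (hJ : J ⊆ G.cut W) (hj : G.Tj W J F) {Z : Finset E} (hZ : Z ⊆ G.ins W) {v : V}
    (hv : v ∈ W) : G.dg (symmDiff F Z ∪ J) v = G.dg Z v := by
  have := hj.2 v hv
  rw [dg_union (GTog_dis hJ hj.1)] at this
  rw [dg_union (GTog_dis hJ (GTog_sub hj.1 hZ)), dg_symmDiff, add_right_comm, this, zero_add]

/-- an even set that leaves a box gives the first option -/
theorem GTog_box (hJ : J ⊆ G.cut W) (hpd : PD Bs) (hB : ∀ B ∈ Bs, B ⊆ W ∧ G.US B)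
    (hj : G.Tj W J F) (hno : ∀ B ∈ Bs, Disjoint F (G.tch B)) {C : Finset E} (hC : C ⊆ G.ins W)
    (hE : G.Ev C) {B : Finset V} (hb : B ∈ Bs) {e : E} (he : e ∈ C) (he' : e ∈ G.cut B) :
    ∃ F', G.Tq W J Bs F' ∧ ∃ B ∈ Bs, (F' ∩ G.cut B).card = 2 := by
  have hn : ∀ B ∈ Bs, ∃ v, nd Bs v = B := fun B hb => by
    obtain ⟨f, hf⟩ := card_pos.1 (show 0 < (G.cut B).card by rw [(hB B hb).2.1]; omega)
    exact ⟨_, nd_of_mem hpd hb (ie_mem (cut_sub_tch hf))⟩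
  have h1 : (G.quo W Bs).Ev (C ∩ (G.quo W Bs).A) := fun N => by
    rw [dg_eq_zero]
    by_cases h : ∃ v, nd Bs v = N
    · obtain ⟨v, rfl⟩ := h
      have e1 : C ∩ (G.quo W Bs).A ∩ G.cut (nd Bs v) = G.crs C (nd Bs v) := by
        ext f
        simp only [mem_inter]
        refine ⟨fun h => mem_crs.2 ⟨h.1.1, (mem_cut.1 h.2).2⟩, fun h => ?_⟩
        have h2 : f ∈ G.cut (nd Bs v) :=
          mem_cut.2 ⟨ins_sub_A (hC (mem_crs.1 h).1), (mem_crs.1 h).2⟩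
        exact ⟨⟨(mem_crs.1 h).1, ((quo_at hpd).2 ⟨hC (mem_crs.1 h).1, h2⟩).1⟩, h2⟩
      rw [quo_deg hpd inter_subset_right, e1]
      exact hE.even_crs _
    · rw [quo_deg_zero inter_subset_right fun v _ hv => h ⟨v, hv⟩]
      exact Even.zero
  have h2 : e ∈ (G.quo W Bs).A := by
    obtain ⟨v, rfl⟩ := hn B hb
    exact ((quo_at hpd).2 ⟨hC he, he'⟩).1
  obtain ⟨Z, hZ, heZ, hd⟩ := h1.two_reg (fun f hf => quo_noloop (mem_inter.1 hf).2)
    (mem_inter.2 ⟨he, h2⟩)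
  have hZ1 : Z ⊆ (G.quo W Bs).A := hZ.trans inter_subset_right
  have hZ2 : Z ⊆ G.ins W := hZ.trans (inter_subset_left.trans hC)
  have h3 : ∀ B ∈ Bs, symmDiff F Z ∩ G.cut B = Z ∩ G.cut B := fun B hb => by
    ext f
    have : f ∈ G.cut B → f ∉ F := fun h h' => disjoint_left.1 (hno B hb) h' (cut_sub_tch h)
    simp only [mem_inter, mem_symmDiff]
    tauto
  have h4 : ∀ B ∈ Bs, (Z ∩ G.cut B).card = 0 ∨ (Z ∩ G.cut B).card = 2 := fun B hb => by
    obtain ⟨v, rfl⟩ := hn B hb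
    rw [← quo_deg hpd hZ1]
    exact hd _
  refine ⟨symmDiff F Z, ⟨GTog_sub hj.1 hZ2, fun v hv hv' => ?_, fun B hb => ?_⟩, B, hb, ?_⟩
  · have h5 := hd (nd Bs v)
    have e1 : Z ∩ G.cut {v} = G.crs Z {v} := by
      ext f
      simp only [mem_inter, mem_cut, mem_crs]
      exact ⟨fun h => ⟨h.1, h.2.2⟩, fun h => ⟨h.1, ins_sub_A (hZ2 h.1), h.2⟩⟩
    rw [quo_deg hpd hZ1, nd_of_not hv', e1] at h5
    have h6 := sum_dg (G := G) Z {v}
    rw [sum_singleton] at h6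
    rw [GTog_dg hJ hj hZ2 hv, h6]
    rcases h5 with h | h <;> rw [h] <;> rfl
  · rw [h3 B hb]
    exact h4 B hb
  · rw [h3 B hb]
    exact (h4 B hb).resolve_left (card_ne_zero_of_mem (mem_inter.2 ⟨heZ, he'⟩))

omit [Fintype V] in
/-- the choice of the circuit -/
theorem GTog_min (F : Finset E) {K : Finset V} {X0 : Finset E} (h0 : X0 ⊆ G.ins W) (h1 : G.Ev X0)
    (h2 : (G.crs X0 K).Nonempty) : ∃ C ⊆ G.ins W, G.Cc C ∧ (G.crs C K).Nonempty ∧
      ∀ X ⊆ G.ins W, G.Ev X → (G.crs X K).Nonempty →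
        ((C \ G.ins K) \ F).card ≤ ((X \ G.ins K) \ F).card ∧
        (((X \ G.ins K) \ F).card ≤ ((C \ G.ins K) \ F).card →
          (C \ G.ins K).card ≤ (X \ G.ins K).card) := by
  obtain ⟨X1, p1, m1⟩ := (measure fun X : Finset E => ((X \ G.ins K) \ F).card).wf.has_min
    {X | X ⊆ G.ins W ∧ G.Ev X ∧ (G.crs X K).Nonempty} ⟨X0, h0, h1, h2⟩
  obtain ⟨X2, ⟨⟨p2, p3, e, he⟩, p4⟩, m2⟩ :=
    (measure fun X : Finset E => (X \ G.ins K).card).wf.has_min
      {X | (X ⊆ G.ins W ∧ G.Ev X ∧ (G.crs X K).Nonempty) ∧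
        ((X \ G.ins K) \ F).card ≤ ((X1 \ G.ins K) \ F).card} ⟨X1, p1, le_rfl⟩
  obtain ⟨C, hC, heC, cC, -⟩ := p3.cc (mem_crs.1 he).1
  have s1 : C \ G.ins K ⊆ X2 \ G.ins K := sdiff_subset_sdiff hC Subset.rfl
  have s2 := (card_le_card (sdiff_subset_sdiff s1 (Subset.refl F))).trans p4
  exact ⟨C, hC.trans p2, cC, ⟨e, mem_crs.2 ⟨heC, (mem_crs.1 he).2⟩⟩, fun X a b c =>
    ⟨s2.trans (not_lt.1 (m1 X ⟨a, b, c⟩)), fun h =>
      (card_le_card s1).trans (not_lt.1 (m2 X ⟨⟨a, b, c⟩, h.trans s2⟩))⟩⟩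

theorem GTog_nil (hc : G.Cub) (hA : G.Acy F) {K : Finset V}
    (hK : ∀ e ∈ F, ∀ v ∈ K, ¬ G.At e v) {C X : Finset E} (hC : C ⊆ G.A) (cC : G.Cc C)
    (hx : (G.crs C K).Nonempty) (hE : G.Ev X) (h0 : ((X \ G.ins K) \ F).card = 0)
    (h1 : ∀ e ∈ X, e ∉ F → e ∈ C) : X = ∅ := by
  have h2 : ∀ e ∈ X, e ∉ F → e ∈ G.ins K := fun e he he' => by
    by_contra h
    exact card_ne_zero_of_mem (mem_sdiff.2 ⟨mem_sdiff.2 ⟨he, h⟩, he'⟩) h0
  have h3 : X ∩ F = ∅ := hA _ inter_subset_right fun v => by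
    by_cases hv : v ∈ K
    · refine dg_of_not_mem fun h => ?_
      obtain ⟨e, he, ha⟩ := mem_vs.1 h
      exact hK e (mem_inter.1 he).2 v hv ha
    · rw [← sdiff_sdiff_self_left, dg_sdiff sdiff_subset, hE v, zero_add]
      refine dg_of_not_mem fun h => hv ?_
      obtain ⟨e, he, ha⟩ := mem_vs.1 h
      have := mem_ins.1 (h2 e (mem_sdiff.1 he).1 (mem_sdiff.1 he).2)
      rcases ha with rfl | rfl
      exacts [this.2.1, this.2.2]
  have h4 : ∀ e ∈ X, e ∉ F := fun e he he' => notMem_empty e (h3 ▸ mem_inter.2 ⟨he, he'⟩)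
  by_contra hn
  obtain rfl := cC.min hc hC (fun e he => h1 e he (h4 e he)) hE (nonempty_iff_ne_empty.2 hn)
  obtain ⟨e, he⟩ := hx
  have := mem_ins.1 (h2 e (mem_crs.1 he).1 (h4 e (mem_crs.1 he).1))
  exact (mem_crs.1 he).2 (iff_of_true this.2.1 this.2.2)

theorem GTog_acy (hc : G.Cub) (hF : F ⊆ G.ins W) (hA : G.Acy F) {K : Finset V}
    (hK : ∀ e ∈ F, ∀ v ∈ K, ¬ G.At e v) {C : Finset E} (hC : C ⊆ G.ins W) (cC : G.Cc C)
    (hx : (G.crs C K).Nonempty) (hd : ¬ Disjoint C F)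
    (hm : ∀ X ⊆ G.ins W, G.Ev X → (G.crs X K).Nonempty →
      ((C \ G.ins K) \ F).card ≤ ((X \ G.ins K) \ F).card) : G.Acy (symmDiff F C) := by
  intro D hD hE
  have hCA := hC.trans ins_sub_A
  have h1 : ∀ e ∈ D, e ∉ F → e ∈ C := fun e he he' => by
    have := mem_symmDiff.1 (hD he)
    tauto
  have h2 : ∀ e ∈ symmDiff C D, e ∉ F → e ∈ C := fun e he he' => by
    have := mem_symmDiff.1 he
    have := h1 e
    tauto
  have hDW : D ⊆ G.ins W := hD.trans (GTog_sub hF hC)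
  have h3 : ((D \ G.ins K) \ F).card + ((symmDiff C D \ G.ins K) \ F).card ≤
      ((C \ G.ins K) \ F).card := by
    clear * - E D V G K F C h1 h2
    rw [← card_union_of_disjoint]
    · refine card_le_card fun e he => ?_
      have := h1 e
      have := h2 e
      simp only [mem_union, mem_sdiff] at he ⊢
      tauto
    · refine disjoint_left.2 fun e he he' => ?_
      have := h1 e
      simp only [mem_sdiff, mem_symmDiff] at he he'
      tauto
  have hE' := cC.2.1.symmDiff hE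
  obtain ⟨e, he⟩ := id hx
  by_cases h : e ∈ D
  · have h4 := hm D hDW hE ⟨e, mem_crs.2 ⟨h, (mem_crs.1 he).2⟩⟩
    have h5 := GTog_nil hc hA hK hCA cC hx hE' (by omega) h2
    obtain rfl : C = D := symmDiff_eq_bot.1 h5
    refine absurd (disjoint_left.2 fun f hf hf' => ?_) hd
    have := mem_symmDiff.1 (hD hf)
    tauto
  · have h4 := hm _ (GTog_sub hC hDW) hE'
      ⟨e, mem_crs.2 ⟨mem_symmDiff.2 (.inl ⟨(mem_crs.1 he).1, h⟩), (mem_crs.1 he).2⟩⟩
    exact GTog_nil hc hA hK hCA cC hx hE (by omega) h1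

theorem GTog_short {K : Finset V} (hKW : K ⊆ W) (hK : ∀ e ∈ F, ∀ v ∈ K, ¬ G.At e v)
    (hn : G.Cn K (G.ins K)) {C : Finset E} (hC : C ⊆ G.ins W) (cC : G.Cc C) {x : V} (hx : x ∈ K)
    (hx' : x ∈ G.vs C)
    (hm : ∀ X ⊆ G.ins W, G.Ev X → (G.crs X K).Nonempty →
      ((X \ G.ins K) \ F).card ≤ ((C \ G.ins K) \ F).card →
        (C \ G.ins K).card ≤ (X \ G.ins K).card)
    {e : E} {a b : V} (he : e ∈ G.ins W) (hj : G.Je e b a) (ha : a ∈ K) (ha' : a ∉ G.vs C)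
    (hb : b ∉ K) (hb' : b ∈ G.vs C) (hF : ∀ f ∈ C, G.At f b → f ∈ F) : False := by
  obtain ⟨A, hA, oA⟩ := (cC.2.2 x hx' b hb').od
  obtain ⟨P, hP, oP⟩ := (hn a ha x hx).od
  have hE := od_self.1 (((od_edge hj).symmDiff oP).symmDiff oA)
  have e1 : ¬ (G.s e ∈ K ↔ G.t e ∈ K) := by
    rcases hj with ⟨h1, h2⟩ | ⟨h1, h2⟩ <;> rw [h1, h2] <;> tauto
  have e2 : e ∉ P := fun h => e1 (iff_of_true (mem_ins.1 (hP h)).2.1 (mem_ins.1 (hP h)).2.2)
  have e3 : e ∉ A := fun h => ha' (mem_vs.2 ⟨e, hA h, hj.at_iff.2 (.inr rfl)⟩)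
  have oB := cC.2.1.sdiff oA hA
  have hxb : b ≠ x := fun h => hb (h ▸ hx)
  obtain ⟨g, hg⟩ : (G.crs (C \ A) K).Nonempty := by
    have := oB.crs_card K
    refine card_ne_zero.1 fun h => ?_
    rw [h] at this
    simp [iv, hx, hb] at this
  obtain ⟨g1, g2⟩ := mem_crs.1 hg
  have g3 : g ∉ F := fun h => g2 (iff_of_false (fun k => hK g h _ k (.inl rfl))
    fun k => hK g h _ k (.inr rfl))
  have g4 : g ∉ G.ins K := fun h => g2 (iff_of_true (mem_ins.1 h).2.1 (mem_ins.1 h).2.2)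
  obtain ⟨f, f1, f2⟩ := mem_vs.1 (mem_vs_of_dg (G := G) (S := C \ A) (v := b) (by
    rw [oB.symm.left hxb]; exact one_ne_zero))
  have f3 := hF f (mem_sdiff.1 f1).1 f2
  have f4 : f ∉ G.ins K := fun h => hK f f3 _ (mem_ins.1 h).2.1 (.inl rfl)
  have f5 : f ≠ g := fun h => g3 (h ▸ f3)
  have s0 : ∀ z ∈ symmDiff (symmDiff {e} P) A \ G.ins K, z = e ∨ z ∈ A := fun z hz => by
    have := @hP z
    simp only [mem_sdiff, mem_symmDiff, mem_singleton] at hz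
    (clear * - e1 g2 hz this; grind)
  have s1 : (symmDiff (symmDiff {e} P) A \ G.ins K) \ F ⊆
      insert e (((C \ G.ins K) \ F).erase g) := fun z hz => by
    refine mem_insert.2 ((s0 z (mem_sdiff.1 hz).1).imp_right fun h => mem_erase.2
      ⟨fun k => (mem_sdiff.1 g1).2 (k ▸ h), mem_sdiff.2
        ⟨mem_sdiff.2 ⟨hA h, (mem_sdiff.1 (mem_sdiff.1 hz).1).2⟩, (mem_sdiff.1 hz).2⟩⟩)
  have s2 : symmDiff (symmDiff {e} P) A \ G.ins K ⊆
      insert e (((C \ G.ins K).erase g).erase f) := fun z hz => by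
    refine mem_insert.2 ((s0 z hz).imp_right fun h => mem_erase.2
      ⟨fun k => (mem_sdiff.1 f1).2 (k ▸ h), mem_erase.2 ⟨fun k => (mem_sdiff.1 g1).2 (k ▸ h),
        mem_sdiff.2 ⟨hA h, (mem_sdiff.1 hz).2⟩⟩⟩)
  have m1 : g ∈ C \ G.ins K := mem_sdiff.2 ⟨(mem_sdiff.1 g1).1, g4⟩
  have c1 := (card_le_card s1).trans (card_insert_le _ _)
  have c2 := (card_le_card s2).trans (card_insert_le _ _)
  have c3 := card_erase_add_one (mem_sdiff.2 ⟨m1, g3⟩)
  have c4 := card_erase_add_one m1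
  have c5 := card_erase_add_one (mem_erase.2 ⟨f5, mem_sdiff.2 ⟨(mem_sdiff.1 f1).1, f4⟩⟩)
  have c6 := hm _ (GTog_sub (GTog_sub (singleton_subset_iff.2 he) (hP.trans (ins_mono hKW)))
    (hA.trans hC)) hE ⟨e, mem_crs.2 ⟨mem_symmDiff.2
      (.inl ⟨mem_symmDiff.2 (.inl ⟨mem_singleton_self e, e2⟩), e3⟩), e1⟩⟩ (by omega)
  omega

omit [Fintype V] in
theorem GTog_ends {S : Finset E} {K : Finset V} {e : E} (he : e ∈ G.crs S K) :
    ∃ a b, G.Je e b a ∧ a ∈ K ∧ b ∉ K := by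
  by_cases h : G.s e ∈ K
  · exact ⟨_, _, .inr ⟨rfl, rfl⟩, h, fun k => (mem_crs.1 he).2 (iff_of_true h k)⟩
  · exact ⟨_, _, .inl ⟨rfl, rfl⟩, by_contra fun k => (mem_crs.1 he).2 (iff_of_false h k), h⟩

theorem toggle (hc : G.Cub) (hT : G.HT T) (hW : W ⊆ T) (hJ : J ⊆ G.cut W) (hpd : PD Bs)
    (hB : ∀ B ∈ Bs, B ⊆ W ∧ G.US B ∧ G.cut B ⊆ G.ins W) (hj : G.Tj W J F) (hA : G.Acy F)
    (hno : ∀ B ∈ Bs, Disjoint F (G.tch B)) (hy : y ∈ W) (hy' : y ∉ G.uf W J F)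
    (hyB : ∀ B ∈ Bs, y ∉ B) (hat : (G.crs (G.ins W) (G.cmp (W \ G.uf W J F) y)).Nonempty) :
    (∃ v ∈ G.uf W J F, ∃ g, ∃ Y ⊆ W, v ∉ Y ∧ G.crs (G.ins W) Y = {g} ∧ G.At g v ∧ g ∉ F) ∨
      ∃ F', G.Tq W J Bs F' ∧ ((∃ B ∈ Bs, (F' ∩ G.cut B).card = 2) ∨
        (G.Tj W J F' ∧ G.Acy F' ∧ (∀ B ∈ Bs, Disjoint F' (G.tch B)) ∧
          (y ∈ G.uf W J F' ∨ G.cmp (W \ G.uf W J F') y ⊂ G.cmp (W \ G.uf W J F) y))) := by
  by_cases hA0 : ∃ C ⊆ G.ins W, G.Ev C ∧ ∃ B ∈ Bs, ∃ e ∈ C, e ∈ G.cut B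
  · obtain ⟨C, hC, hE, B, hb, e, he, he'⟩ := hA0
    obtain ⟨F', h1, h2⟩ :=
      GTog_box hJ hpd (fun B hb => ⟨(hB B hb).1, (hB B hb).2.1⟩) hj hno hC hE hb he he'
    exact .inr ⟨F', h1, .inl h2⟩
  obtain ⟨-, k1, k2, k3⟩ := cmp_spec (G := G) (mem_sdiff.2 ⟨hy, hy'⟩)
  have k0 : y ∈ G.cmp (W \ G.uf W J F) y := mem_cmp.2 ⟨mem_sdiff.2 ⟨hy, hy'⟩, Rch.refl ..⟩
  generalize G.cmp (W \ G.uf W J F) y = K at *
  have hKW : K ⊆ W := k1.trans sdiff_subset
  have hK : ∀ e ∈ F, ∀ v ∈ K, ¬ G.At e v := fun e he v hv ha => (mem_sdiff.1 (k1 hv)).2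
    (mem_inter.2 ⟨hKW hv, mem_vs.2 ⟨e, mem_union_left _ he, ha⟩⟩)
  have hU : ∀ e ∈ G.ins W, ∀ a b, G.Je e b a → a ∈ K → b ∉ K → b ∈ G.uf W J F := by
    intro e he a b hj ha hb
    by_contra h
    have h1 := (Pth_ends hj).1 (mem_ins.1 he).2
    refine notMem_empty e (k2 ▸ mem_crs.2 ⟨mem_ins.2 ⟨ins_sub_A he, (Pth_ends hj).2
      ⟨mem_sdiff.2 ⟨h1.1, h⟩, k1 ha⟩⟩, ?_⟩)
    rcases hj with ⟨h1, h2⟩ | ⟨h1, h2⟩ <;> rw [h1, h2] <;> tauto
  obtain ⟨g, hg⟩ := hat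
  obtain ⟨u, v, jg, hu, hv⟩ := GTog_ends hg
  have hgW := (mem_crs.1 hg).1
  by_cases hr : G.Rch ((G.ins W).erase g) u v
  swap
  · classical
    refine .inl ⟨v, hU g hgW u v jg hu hv, g, W.filter (G.Rch ((G.ins W).erase g) u),
      filter_subset _ _, fun h => hr (mem_filter.1 h).2, ?_, jg.at_iff.2 (.inl rfl),
      fun h => hK g h u hu (jg.at_iff.2 (.inr rfl))⟩
    ext f
    rw [mem_crs, mem_singleton, mem_filter, mem_filter]
    constructor
    · rintro ⟨h1, h2⟩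
      by_contra h
      have h3 := rch_edge (G := G) (mem_erase.2 ⟨h, h1⟩)
      have h4 := (mem_ins.1 h1).2
      exact h2 ⟨fun k => ⟨h4.2, k.2.trans h3⟩, fun k => ⟨h4.1, k.2.trans h3.symm⟩⟩
    · rintro rfl
      refine ⟨hgW, fun h => hr ?_⟩
      have h4 : u ∈ W ∧ G.Rch ((G.ins W).erase f) u u := ⟨hKW hu, Rch.refl ..⟩
      rcases jg with ⟨h1, h2⟩ | ⟨h1, h2⟩ <;> rw [h1, h2] at h
      exacts [(h.2 h4).2, (h.1 h4).2]
  obtain ⟨P, hP, oP⟩ := hr.od
  obtain ⟨C, hC, cC, hx, hm⟩ := GTog_min F (K := K)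
    (GTog_sub (singleton_subset_iff.2 hgW) (hP.trans (erase_subset _ _)))
    (od_self.1 ((od_edge jg).symmDiff oP)) ⟨g, mem_crs.2 ⟨mem_symmDiff.2
      (.inl ⟨mem_singleton_self g, fun h => notMem_erase g _ (hP h)⟩), (mem_crs.1 hg).2⟩⟩
  obtain ⟨g1, hg1⟩ := id hx
  obtain ⟨x, z, j1, hx1, hz⟩ := GTog_ends hg1
  have g1C := (mem_crs.1 hg1).1
  have xC : x ∈ G.vs C := mem_vs.2 ⟨g1, g1C, j1.at_iff.2 (.inr rfl)⟩
  have zC : z ∈ G.vs C := mem_vs.2 ⟨g1, g1C, j1.at_iff.2 (.inl rfl)⟩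
  obtain ⟨zW, zU⟩ := mem_inter.1 (hU g1 (hC g1C) x z j1 hx1 hz)
  have hFA : F ∪ J ⊆ G.A :=
    union_subset (hj.1.trans ins_sub_A) fun e he => (mem_cut.1 (hJ he)).1
  have hd : ¬ Disjoint C F := fun h => by
    have h1 := deg2_of_dg hc hFA zU (hj.2 z zW)
    have h2 := deg2_of_dg hc (hC.trans ins_sub_A) zC (cC.2.1 z)
    have h3 := hc.le3 (union_subset (hC.trans ins_sub_A) hFA) z
    rw [deg_union (disjoint_union_right.2 ⟨h, GTog_dis hJ hC⟩)] at h3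
    omega
  have hT' : G.Tj W J (symmDiff F C) :=
    ⟨GTog_sub hj.1 hC, fun w hw => (GTog_dg hJ hj hC hw).trans (cC.2.1 w)⟩
  have hB' : ∀ B ∈ Bs, Disjoint (symmDiff F C) (G.tch B) := fun B hb => by
    have h1 : z ∉ B := fun h => by
      obtain ⟨f, hf, ha⟩ := mem_vs.1 zU
      have h2 := Cut_tch (hFA hf) ha h
      rcases mem_union.1 hf with k | k
      · exact disjoint_left.1 (hno B hb) k h2
      · exact not_ins_of_cut (hJ k) ((hB B hb).2.2 (cut_of_sub (hB B hb).1 (hJ k) h2).1)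
    have h2 : ∀ w ∈ G.vs C, w ∉ B := fun w hw => (cC.2.2 z zC w hw).closed (P := (· ∉ B))
      (fun f hf => not_congr (by_contra fun k =>
        hA0 ⟨C, hC, cC.2.1, B, hb, f, hf, mem_cut.2 ⟨ins_sub_A (hC hf), k⟩⟩)) h1
    refine disjoint_left.2 fun f hf hf' => ?_
    rcases mem_symmDiff.1 hf with k | k
    · exact disjoint_left.1 (hno B hb) k.1 hf'
    · exact (mem_tch.1 hf').2.elim (h2 _ (s_mem_vs k.1)) (h2 _ (t_mem_vs k.1))
  have hKU : ∀ w ∈ K, w ∈ G.vs C → w ∈ G.uf W J (symmDiff F C) := fun w hw hw' => by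
    obtain ⟨f, hf, ha⟩ := mem_vs.1 hw'
    exact mem_inter.2 ⟨hKW hw, mem_vs.2 ⟨f, mem_union_left _
      (mem_symmDiff.2 (.inr ⟨hf, fun k => hK f k w hw ha⟩)), ha⟩⟩
  refine .inr ⟨symmDiff F C, ⟨hT'.1, fun w hw _ => hT'.2 w hw, fun B hb => .inl ?_⟩, .inr ⟨hT',
    GTog_acy hc hj.1 hA hK hC cC hx hd fun X a b c => (hm X a b c).1, hB', ?_⟩⟩
  · exact card_eq_zero.2 (disjoint_iff_inter_eq_empty.1 ((hB' B hb).mono_right cut_sub_tch))
  by_cases hyC : y ∈ G.vs C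
  · exact .inl (hKU y k0 hyC)
  refine .inr (Finset.ssubset_of_subset_of_ssubset (cmp_min (mem_sdiff.2 ⟨k0, hyC⟩)
    (eq_empty_of_forall_notMem fun e he => ?_))
    ((ssubset_iff_of_subset sdiff_subset).2 ⟨x, hx1, fun h => (mem_sdiff.1 h).2 xC⟩))
  obtain ⟨a, b, je, ha, hb⟩ := GTog_ends he
  obtain ⟨ha, ha'⟩ := mem_sdiff.1 ha
  have heW := ins_mono sdiff_subset (mem_crs.1 he).1
  obtain ⟨bW, bU⟩ := mem_sdiff.1 ((Pth_ends je).1 (mem_ins.1 (mem_crs.1 he).1).2).1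
  have bK : b ∉ K := fun h => hb (mem_sdiff.2 ⟨h, fun k => bU (hKU b h k)⟩)
  have h1 : ∀ f, G.At f b → f ∉ symmDiff F C ∪ J := fun f hf k =>
    bU (mem_inter.2 ⟨bW, mem_vs.2 ⟨f, k, hf⟩⟩)
  obtain ⟨f, f1, f2⟩ := mem_vs.1 (mem_inter.1 (hU e heW a b je ha bK)).2
  refine GTog_short hKW hK k3 hC cC hx1 xC (fun X a b c => (hm X a b c).2) heW je ha ha' bK
    (mem_vs.2 ⟨f, ?_, f2⟩) fun f' h2 h3 => ?_
  · have := h1 f f2
    simp only [mem_union, mem_symmDiff] at this f1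
    (clear * - f1 this; tauto)
  · have := h1 f' h3
    simp only [mem_union, mem_symmDiff] at this
    (clear * - h2 this; tauto)

end SG

end Pool.Agent.Work.MP_8c679b_co
end

-- merged part: Pool.Agent.Work.MP_8c679b_co.Six.GKot
section
/-!
A lemma of Kotzig type (PROOF.md, lemma KOTZ).  Signs play no role; loops are allowed.
-/

set_option autoImplicit false

namespace Pool.Agent.Work.MP_8c679b_co

open Finset

namespace SG

variable {V E : Type} [Fintype V] [DecidableEq V] [DecidableEq E] {G : SG V E}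

/-- the conclusion for the edge set `S` -/
def GKot_ok (G : SG V E) (S : Finset E) (N : Finset V) (ε : V → E) : Prop :=
  ∃ Z ⊆ S, (∀ v, G.deg Z v = 0 ∨ G.deg Z v = 2) ∧ (∃ x ∈ N, x ∈ G.vs Z) ∧
    ∀ x ∈ N, x ∈ G.vs Z → ε x ∈ Z

/-- `e` lies in an even subset of `S` -/
def GKot_cy (G : SG V E) (S : Finset E) (e : E) : Prop := ∃ D ⊆ S, G.Ev D ∧ e ∈ D

/-- the cut of `X` contains `e` and at most `f` besides -/
def GKot_q (G : SG V E) (S : Finset E) (X : Finset V) (e f : E) : Prop :=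
  e ∈ G.crs S X ∧ ∀ g ∈ G.crs S X, g = e ∨ g = f

/-- contraction of `w` into `v` -/
def GKot_c (G : SG V E) (v w : V) : SG V E :=
  ⟨G.A, fun e => if G.s e = w then v else G.s e, fun e => if G.t e = w then v else G.t e, G.n⟩

variable {S D Z : Finset E} {N X : Finset V} {ε : V → E} {e f : E} {v w : V}

omit [Fintype V] [DecidableEq E] in
theorem GKot_deg (h : v ≠ w) (Z : Finset E) (u : V) : (GKot_c G v w).deg Z u =
    if u = w then 0 else G.deg Z u + if u = v then G.deg Z w else 0 := by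
  have k : ∀ x : V, (iv ((if x = w then v else x) = u) : ℕ) =
      if u = w then 0 else iv (x = u) + if u = v then iv (x = w) else 0 := fun x => by
    unfold iv
    grind
  have k2 : ∀ e, (GKot_c G v w).inc e u =
      if u = w then 0 else G.inc e u + if u = v then G.inc e w else 0 := fun e =>
    (congrArg₂ (· + ·) (k _) (k _)).trans (by unfold inc; split_ifs <;> ring)
  simp only [deg, k2]
  split_ifs <;> simp [sum_add_distrib]

theorem GKot_ins (he : e ∉ Z) (hj : G.Je e v w) (u : V) :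
    G.deg (insert e Z) u = iv (v = u) + iv (w = u) + G.deg Z u := by
  rw [deg, sum_insert he, inc, Pth_iv hj, deg]

omit [Fintype V] in
theorem GKot_two (hE : G.Ev D) (he : e ∈ G.crs D X) : ∃ g ∈ G.crs D X, g ≠ e := by
  by_contra k
  push Not at k
  have h := hE.even_crs X
  rw [eq_singleton_iff_unique_mem.2 ⟨he, k⟩, card_singleton] at h
  exact Nat.not_even_one h

omit [Fintype V] in
theorem GKot_two' (h : GKot_cy G S e) (he : e ∈ G.crs S X) : ∃ g ∈ G.crs S X, g ≠ e := by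
  obtain ⟨D, h1, h2, h3⟩ := h
  obtain ⟨g, h4, h5⟩ := GKot_two h2 (mem_crs.2 ⟨h3, (mem_crs.1 he).2⟩)
  exact ⟨g, mem_crs.2 ⟨h1 (mem_crs.1 h4).1, (mem_crs.1 h4).2⟩, h5⟩

omit [Fintype V] in
theorem GKot_of (he : e ∈ S) (h : G.Rch (S.erase e) (G.s e) (G.t e)) : GKot_cy G S e := by
  obtain ⟨P, h1, h2⟩ := h.od
  exact ⟨P ∪ {e}, union_subset (h1.trans (erase_subset _ _)) (singleton_subset_iff.2 he),
    od_self.1 (h2.union (od_edge (Or.inr ⟨rfl, rfl⟩))
      (disjoint_singleton_right.2 fun k => notMem_erase e S (h1 k))), by simp⟩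

theorem GKot_cut (h : GKot_cy G S f) (h' : ¬ GKot_cy G (S.erase e) f) (hn : f ≠ e) :
    (∃ X, GKot_q G S X e f) ∧ GKot_cy G S e := by
  classical
  obtain ⟨D, h1, h2, h3⟩ := h
  let X := univ.filter (G.Rch ((S.erase e).erase f) (G.s f))
  have hX : ∀ u, u ∈ X ↔ G.Rch ((S.erase e).erase f) (G.s f) u := fun u => by simp [X]
  have h4 : ∀ g ∈ G.crs S X, g = e ∨ g = f := fun g hg => by
    by_contra k
    push Not at k
    have h5 := rch_edge (G := G) (mem_erase.2 ⟨k.2, mem_erase.2 ⟨k.1, (mem_crs.1 hg).1⟩⟩)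
    exact (mem_crs.1 hg).2 (by rw [hX, hX]; exact ⟨fun a => a.trans h5, fun a => a.trans h5.symm⟩)
  obtain ⟨g, h5, h6⟩ := GKot_two (X := X) h2 (mem_crs.2 ⟨h3, fun k => h' (GKot_of
    (mem_erase.2 ⟨hn, h1 h3⟩) ((hX _).1 (k.1 ((hX _).2 (Rch.refl _ _)))))⟩)
  have h7 : g ∈ G.crs S X := mem_crs.2 ⟨h1 (mem_crs.1 h5).1, (mem_crs.1 h5).2⟩
  obtain rfl := (h4 g h7).resolve_right h6
  exact ⟨⟨X, h7, h4⟩, D, h1, h2, (mem_crs.1 h5).1⟩

theorem GKot_con1 (hn : v ≠ w) (hj : G.Je e v w) (hf : f ≠ e) (h : GKot_cy G S f) :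
    GKot_cy (GKot_c G v w) (S.erase e) f := by
  obtain ⟨D, h1, h2, h3⟩ := h
  refine ⟨D.erase e, erase_subset_erase _ h1, fun u => ?_, mem_erase.2 ⟨hf, h3⟩⟩
  have a1 := dg_eq_zero.1 (h2 u)
  have a2 := dg_eq_zero.1 (h2 w)
  rw [dg_eq_zero, GKot_deg hn]
  by_cases he : e ∈ D
  · rw [← insert_erase he, GKot_ins (notMem_erase e D) hj] at a1 a2
    simp only [iv, Nat.even_iff, hn, if_true, if_false, @eq_comm _ v u, @eq_comm _ w u] at a1 a2 ⊢
    split_ifs at a1 ⊢ <;> omega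
  · rw [erase_eq_of_notMem he]
    simp only [Nat.even_iff] at a1 a2 ⊢
    split_ifs <;> omega

theorem GKot_con2 (hn : v ≠ w) (hj : G.Je e v w) (he : e ∈ S) (hw : w ∉ N)
    (ha : ∀ x ∈ N, G.At (ε x) x) (h : GKot_ok (GKot_c G v w) (S.erase e) N ε) :
    GKot_ok G S N ε := by
  obtain ⟨Z, h1, h2, ⟨x, h3, h4⟩, h5⟩ := h
  have h6 : e ∉ Z := fun k => notMem_erase e S (h1 k)
  have h7 := h2 v
  simp only [GKot_deg hn, ← deg_pos] at h2 h5 h7
  rw [if_neg hn, if_pos trivial] at h7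
  have h8 : ε x ∈ Z := h5 x h3 (by rw [← GKot_deg hn]; exact deg_pos.2 h4)
  by_cases k : G.deg Z w = 1
  · refine ⟨insert e Z, insert_subset he (h1.trans (erase_subset _ _)), fun u => ?_,
      ⟨x, h3, mem_vs.2 ⟨_, mem_insert_of_mem h8, ha x h3⟩⟩,
      fun u hu k' => mem_insert_of_mem (h5 u hu ?_)⟩
    · have := h2 u
      rw [GKot_ins h6 hj]
      simp only [iv, @eq_comm _ v u, @eq_comm _ w u]
      split_ifs at this ⊢ <;> subst_vars <;> first | omega | exact (hn rfl).elim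
    · rw [← deg_pos, GKot_ins h6 hj] at k'
      have h9 : u ≠ w := fun k => hw (k ▸ hu)
      simp only [iv, @eq_comm _ v u, @eq_comm _ w u, h9, if_false] at k' ⊢
      split_ifs at k' ⊢ <;> omega
  · refine ⟨Z, h1.trans (erase_subset _ _), fun u => ?_, ⟨x, h3, mem_vs.2 ⟨_, h8, ha x h3⟩⟩,
      fun u hu k' => h5 u hu ?_⟩
    · have := h2 u
      split_ifs at this <;> subst_vars <;> omega
    · rw [← deg_pos] at k'
      rw [if_neg fun k : u = w => hw (k ▸ hu)]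
      omega

omit [Fintype V] in
theorem GKot_spec (ha : ∀ x ∈ N, G.At (ε x) x) (hS : Z ⊆ S) (he : e ∈ Z) (hF : Z ⊆ N.image ε)
    (h2 : ∀ v, G.deg Z v = 0 ∨ G.deg Z v = 2) : GKot_ok G S N ε := by
  have h3 : ∑ v ∈ G.vs Z, G.deg Z v = (G.vs Z).card * 2 :=
    sum_const_nat fun v hv => (h2 v).resolve_left (deg_pos.2 hv).ne'
  have h4 : ∑ v ∈ G.vs Z, G.deg Z v ≤ Z.card * 2 := by
    unfold deg
    rw [sum_comm]
    refine sum_le_card_nsmul _ _ _ fun g _ => ?_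
    simp only [inc, iv, sum_add_distrib, sum_ite_eq]
    split_ifs <;> omega
  have h5 : Z ⊆ (N.filter fun x => ε x ∈ Z).image ε := fun g hg => by
    obtain ⟨x, hx, rfl⟩ := mem_image.1 (hF hg)
    exact mem_image_of_mem _ (mem_filter.2 ⟨hx, hg⟩)
  have h6 : (N.filter fun x => ε x ∈ Z) = G.vs Z := eq_of_subset_of_card_le
    (fun x hx => mem_vs.2 ⟨_, (mem_filter.1 hx).2, ha x (mem_filter.1 hx).1⟩)
    (le_trans (by omega) ((card_le_card h5).trans card_image_le))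
  exact ⟨Z, hS, h2, ⟨_, (mem_filter.1 (h6.ge (s_mem_vs he))).1, s_mem_vs he⟩,
    fun x _ hx => (mem_filter.1 (h6.ge hx)).2⟩

omit [Fintype V] in
theorem GKot_res (hE : G.Ev D) (h : ∀ g ∈ D, G.s g ∈ X ↔ G.t g ∈ X) :
    G.Ev (D.filter fun g => G.s g ∈ X) := by
  intro u
  by_cases hu : u ∈ X
  · rw [← hE u, dg, dg, sum_filter]
    refine sum_congr rfl fun g hg => ?_
    split_ifs with k
    · rfl
    · have k1 : G.s g ≠ u := fun a => k (a ▸ hu)
      have k2 : G.t g ≠ u := fun a => k ((h g hg).2 (a ▸ hu))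
      simp [iv, k1, k2]
  · refine dg_of_not_mem fun k => hu ?_
    obtain ⟨g, hg, rfl | rfl⟩ := mem_vs.1 k
    exacts [(mem_filter.1 hg).2, (h g (mem_filter.1 hg).1).1 (mem_filter.1 hg).2]

theorem GKot_unc {K : Finset V} {e' f' : E} (hc : ∀ g ∈ S, GKot_cy G S g) (hK : GKot_q G S K e f)
    (hX : GKot_q G S X e' f') (h1 : G.s e' ∈ K) (h2 : G.t e' ∈ K) :
    ∃ Y ⊂ K, ∃ g, GKot_q G S Y e' g := by
  obtain ⟨v, hv, ha⟩ : ∃ v ∈ K, G.At e v := by
    by_contra k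
    push Not at k
    exact (mem_crs.1 hK.1).2 (iff_of_false (fun a => k _ a (Or.inl rfl)) fun a => k _ a (Or.inr rfl))
  wlog hvX : v ∉ X generalizing X
  · have e : G.crs S Xᶜ = G.crs S X := filter_congr fun g _ => by simp only [mem_compl]; tauto
    exact this (X := Xᶜ) (by rwa [GKot_q, e]) (by simpa using hvX)
  have a0 := hK.2
  have a1 := hX.2
  have a2 := hX.1
  have a3 := fun h => GKot_two' (X := X \ K) (hc f (mem_crs.1 h).1) h
  refine ⟨K ∩ X, ⟨inter_subset_left, fun k => hvX (mem_inter.1 (k hv)).2⟩, ?_⟩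
  simp only [GKot_q, mem_crs, mem_inter, mem_sdiff, At] at a0 a1 a2 a3 ha ⊢
  by_cases b : f ∈ S ∧ ¬ (G.s f ∈ X ∧ G.s f ∉ K ↔ G.t f ∈ X ∧ G.t f ∉ K)
  · obtain ⟨g, b1, b2⟩ := a3 b
    have a4 := a0 g
    have a5 := a1 g
    have a6 := a1 f
    by_cases c : f = e' ∨ f = f'
    · exact ⟨f', by grind, fun x hx => by have := a0 x; have := a1 x; grind⟩
    · exact ⟨f, by grind, fun x hx => by have := a0 x; have := a1 x; grind⟩
  · exact ⟨f', by grind, fun x hx => by have := a0 x; have := a1 x; grind⟩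

theorem GKot_main (ε : V → E) (n : ℕ) : ∀ (G : SG V E) (S : Finset E) (N : Finset V),
    S.card + N.card < n → N.Nonempty → (∀ x ∈ N, G.At (ε x) x) →
    (∀ x ∈ N, GKot_cy G S (ε x)) → GKot_ok G S N ε := by
  induction n with
  | zero => exact fun _ _ _ h => (Nat.not_lt_zero _ h).elim
  | succ n ih =>
  intro G S N hn hN ha hc
  have hS : ∀ x ∈ N, ε x ∈ S := fun x hx => (hc x hx).elim fun D h => h.1 h.2.2
  by_cases c1 : ∃ x ∈ N, G.s (ε x) = G.t (ε x)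
  · obtain ⟨x, hx, h⟩ := c1
    refine GKot_spec ha (singleton_subset_iff.2 (hS x hx)) (mem_singleton_self _)
      (singleton_subset_iff.2 (mem_image_of_mem _ hx)) fun u => ?_
    simp only [deg, sum_singleton, inc, h, iv]
    split_ifs <;> simp
  by_cases c2 : ∃ e ∈ S, ∀ x ∈ N, GKot_cy G (S.erase e) (ε x)
  · obtain ⟨e, he, h⟩ := c2
    obtain ⟨Z, h1, h2⟩ := ih G _ N (by have := card_erase_add_one he; omega) hN ha h
    exact ⟨Z, h1.trans (erase_subset _ _), h2⟩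
  push Not at c1 c2
  have h1 : ∀ e ∈ S, e ∉ N.image ε → (∃ X f, GKot_q G S X e f) ∧ GKot_cy G S e := by
    intro e he hF
    obtain ⟨x, hx, h⟩ := c2 e he
    obtain ⟨⟨X, k1⟩, k2⟩ := GKot_cut (hc x hx) h fun k => hF (k ▸ mem_image_of_mem _ hx)
    exact ⟨⟨X, _, k1⟩, k2⟩
  have h2 : ∀ e ∈ S, G.s e ≠ G.t e ∧ GKot_cy G S e := fun e he => by
    by_cases hF : e ∈ N.image ε
    · obtain ⟨x, hx, rfl⟩ := mem_image.1 hF
      exact ⟨c1 x hx, hc x hx⟩
    · obtain ⟨⟨X, f, k1⟩, k2⟩ := h1 e he hF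
      exact ⟨fun k => (mem_crs.1 k1.1).2 (by rw [k]), k2⟩
  have h3 : ∀ D ⊆ S, G.Ev D → ∀ e ∈ D, ∃ Z ⊆ D, e ∈ Z ∧ ∀ x, G.deg Z x = 0 ∨ G.deg Z x = 2 :=
    fun D hD hE e he => hE.two_reg (fun g hg => (h2 g (hD hg)).1) he
  by_cases c3 : ∃ e ∈ S, e ∉ N.image ε ∧ ∃ w ∉ N, G.At e w
  · obtain ⟨e, he, hF, w, hw, h⟩ := c3
    obtain ⟨v, hn', hj⟩ : ∃ v, v ≠ w ∧ G.Je e v w := by
      rcases h with rfl | rfl
      exacts [⟨_, (h2 e he).1.symm, Or.inr ⟨rfl, rfl⟩⟩, ⟨_, (h2 e he).1, Or.inl ⟨rfl, rfl⟩⟩]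
    refine GKot_con2 hn' hj he hw ha (ih _ _ N (by have := card_erase_add_one he; omega) hN
      (fun x hx => ?_) fun x hx => GKot_con1 hn' hj (fun k => hF (k ▸ mem_image_of_mem _ hx))
        (hc x hx))
    have k : x ≠ w := fun k => hw (k ▸ hx)
    exact (ha x hx).imp (fun a => by simp [GKot_c, a, k]) fun a => by simp [GKot_c, a, k]
  by_cases c4 : ∃ v ∈ N, G.deg S v = 2
  · obtain ⟨v, hv, h⟩ := c4
    rcases (N.erase v).eq_empty_or_nonempty with k | k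
    · obtain ⟨D, k1, k2, k3⟩ := hc v hv
      obtain ⟨Z, k4, k5, k6⟩ := h3 D k1 k2 _ k3
      refine ⟨Z, k4.trans k1, k6, ⟨v, hv, mem_vs.2 ⟨_, k5, ha v hv⟩⟩, fun x hx _ => ?_⟩
      rwa [show x = v from by_contra fun a => notMem_empty x (k ▸ mem_erase.2 ⟨a, hx⟩)]
    · obtain ⟨Z, k1, k2, ⟨x, k3, k4⟩, k5⟩ := ih G S _ (by have := card_erase_add_one hv; omega) k
        (fun x hx => ha x (mem_of_mem_erase hx)) fun x hx => hc x (mem_of_mem_erase hx)
      refine ⟨Z, k1, k2, ⟨x, mem_of_mem_erase k3, k4⟩, fun y hy k6 => ?_⟩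
      by_contra k7
      obtain rfl : y = v := by_contra fun a => k7 (k5 y (mem_erase.2 ⟨a, hy⟩) k6)
      have a1 := deg_sdiff (G := G) (v := y) k1
      have a2 := deg_pos.2 (mem_vs.2 ⟨_, mem_sdiff.2 ⟨hS y hy, k7⟩, ha y hy⟩)
      have a3 := deg_pos.2 k6
      have a4 := k2 y
      omega
  by_cases c5 : ∃ D ⊆ S, G.Ev D ∧ D.Nonempty ∧ D ⊆ N.image ε
  · obtain ⟨D, k1, k2, ⟨e, he⟩, k3⟩ := c5
    obtain ⟨Z, k4, k5, k6⟩ := h3 D k1 k2 e he
    exact GKot_spec ha (k4.trans k1) k5 (k4.trans k3) k6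
  exfalso
  push Not at c3 c4 c5
  obtain ⟨K, ⟨e, hF, f, hK⟩, hm⟩ := (wellFounded_lt (α := Finset V)).has_min
    {K | ∃ e ∉ N.image ε, ∃ f, GKot_q G S K e f} (by
      obtain ⟨x, hx⟩ := hN
      obtain ⟨D, k1, k2, k3⟩ := hc x hx
      obtain ⟨e, k4, k5⟩ := not_subset.1 (c5 D k1 k2 ⟨_, k3⟩)
      obtain ⟨X, k6⟩ := (h1 e (k1 k4) k5).1
      exact ⟨X, e, k5, k6⟩)
  have he := (mem_crs.1 hK.1).1
  obtain ⟨v, hv, hav⟩ : ∃ v ∈ K, G.At e v := by
    by_contra k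
    push Not at k
    exact (mem_crs.1 hK.1).2 (iff_of_false (fun a => k _ a (Or.inl rfl)) fun a => k _ a (Or.inr rfl))
  obtain ⟨D0, k1, k2, k3⟩ := (h2 e he).2
  obtain ⟨C, k4, k5, k6⟩ := h3 D0 k1 k2 e k3
  have a1 := deg_sdiff (G := G) (v := v) (k4.trans k1)
  have a2 := deg_pos.2 (mem_vs.2 ⟨_, k5, hav⟩)
  have a3 := k6 v
  have a4 := c4 v (by_contra fun k => c3 e he hF v k hav)
  obtain ⟨g, hg, hag⟩ := mem_vs.1 (deg_pos.1 (by omega : 0 < G.deg (S \ C) v))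
  obtain ⟨g1, g2⟩ := mem_sdiff.1 hg
  obtain ⟨D, d1, d2, d3, d4⟩ : ∃ D ⊆ S, G.Ev D ∧ g ∈ D ∧ e ∉ D := by
    obtain ⟨D, d1, d2, d3⟩ := (h2 g g1).2
    by_cases k : e ∈ D
    · refine ⟨symmDiff D C, fun a h => ?_, d2.symmDiff fun u => dg_eq_zero.2 ?_,
        mem_symmDiff.2 (Or.inl ⟨d3, g2⟩), by simp [mem_symmDiff, k, k5]⟩
      · exact (mem_symmDiff.1 h).elim (fun h => d1 h.1) fun h => k1 (k4 h.1)
      · rcases k6 u with h | h <;> simp [h]
    · exact ⟨D, d1, d2, d3, k⟩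
  have d5 : ∀ a ∈ D, G.s a ∈ K ↔ G.t a ∈ K := by
    have k : ∀ a ∈ G.crs D K, a = f := fun a h => (hK.2 a (mem_crs.2
      ⟨d1 (mem_crs.1 h).1, (mem_crs.1 h).2⟩)).resolve_left fun k => d4 (k ▸ (mem_crs.1 h).1)
    intro a h
    by_contra k'
    obtain ⟨b, b1, b2⟩ := GKot_two d2 (mem_crs.2 ⟨h, k'⟩)
    exact b2 ((k b b1).trans (k a (mem_crs.2 ⟨h, k'⟩)).symm)
  refine c5 _ ((filter_subset _ _).trans d1) (GKot_res d2 d5) ⟨g, mem_filter.2 ⟨d3, ?_⟩⟩
    fun a h => by_contra fun k => ?_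
  · rcases hag with rfl | rfl
    exacts [hv, (d5 g d3).2 hv]
  · obtain ⟨b1, b2⟩ := mem_filter.1 h
    obtain ⟨X, f', hX⟩ := (h1 a (d1 b1) k).1
    obtain ⟨Y, y1, y2⟩ := GKot_unc (fun g hg => (h2 g hg).2) hK hX b2 ((d5 a b1).1 b2)
    exact hm Y ⟨a, k, y2⟩ y1

theorem kotz (G : SG V E) (N : Finset V) (ε : V → E) (hN : N.Nonempty)
    (h : ∀ x ∈ N, ε x ∈ G.A ∧ G.At (ε x) x ∧
      G.Rch (G.A.erase (ε x)) (G.s (ε x)) (G.t (ε x))) :
    ∃ Z ⊆ G.A, (∀ v, G.deg Z v = 0 ∨ G.deg Z v = 2) ∧ (∃ x ∈ N, x ∈ G.vs Z) ∧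
      ∀ x ∈ N, x ∈ G.vs Z → ε x ∈ Z :=
  GKot_main ε _ G G.A N (Nat.lt_succ_self _) hN (fun x hx => (h x hx).2.1)
    fun x hx => GKot_of (h x hx).1 (h x hx).2.2

end SG

end Pool.Agent.Work.MP_8c679b_co
end

-- merged part: Pool.Agent.Work.MP_8c679b_co.Six.GDiag
section
/-!
Joins that pass only four-cycles, diagonally (PROOF.md, lemma DIAG).
-/

set_option autoImplicit false

namespace Pool.Agent.Work.MP_8c679b_co

open Finset

namespace SG

variable {V E : Type} [Fintype V] [DecidableEq V] [DecidableEq E] {G : SG V E}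
  {T W : Finset V} {J F : Finset E} {Bs : Finset (Finset V)}

/-- the node of a vertex together with the side of the passed pair -/
def GDiag_nu (G : SG V E) (F : Finset E) (Bs : Finset (Finset V)) (v : V) : Finset V × Bool :=
  (nd Bs v, decide (v ∈ G.vs (F ∩ G.cut (nd Bs v))))

/-- the auxiliary graph -/
def GDiag_H (G : SG V E) (W : Finset V) (F : Finset E) (Bs : Finset (Finset V))
    (ε : Finset V → E) : SG (Finset V × Bool) E where
  A := (G.ins W).filter fun e => nd Bs (G.s e) ≠ nd Bs (G.t e) ∨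
    ∃ B ∈ Bs, (F ∩ G.cut B).card = 2 ∧ e = ε B
  s e := G.GDiag_nu F Bs (G.s e)
  t e := G.GDiag_nu F Bs (G.t e)
  n := G.n

/-- the facts about the boxes and the kept edges -/
def GDiag_Ok (G : SG V E) (W : Finset V) (F : Finset E) (Bs : Finset (Finset V))
    (ε : Finset V → E) : Prop :=
  PD Bs ∧ (∀ B ∈ Bs, B ⊆ W ∧ G.cut B ⊆ G.ins W ∧
      ∀ f ∈ G.cut B, ∀ v ∈ B, G.At f v → (v ∈ G.vs (F ∩ G.cut B) ↔ f ∈ F)) ∧
    ∀ B ∈ Bs, (F ∩ G.cut B).card = 2 → ε B ∈ G.ins B ∧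
      ¬ (G.s (ε B) ∈ G.vs (F ∩ G.cut B) ↔ G.t (ε B) ∈ G.vs (F ∩ G.cut B))

theorem GDiag_key (hc : G.Cub) (hT : G.HT T) {B : Finset V} (hB : B ⊆ T) (hu : G.US B) {f : E}
    (hf : f ∈ G.cut B) {v : V} (hv : v ∈ B) (ha : G.At f v) :
    v ∈ G.vs (F ∩ G.cut B) ↔ f ∈ F := by
  refine ⟨fun h => ?_, fun h => mem_vs.2 ⟨f, mem_inter.2 ⟨h, hf⟩, ha⟩⟩
  obtain ⟨f', h1, h2⟩ := mem_vs.1 h
  by_cases hff : f = f'
  · exact hff ▸ (mem_inter.1 h1).1
  · have h4 := hT.us_card hc hB hu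
    exact absurd ((eq_ie hf hv ha).symm.trans (eq_ie (mem_inter.1 h1).2 hv h2))
      (hT.f2 hc hB hu.1 (by omega) hf (mem_inter.1 h1).2 hff)

theorem GDiag_eps (hc : G.Cub) (hT : G.HT T) {B : Finset V} (hB : B ⊆ T) (hu : G.US B)
    (hq : ∀ a b, a ≠ b → F ∩ G.cut B = {a, b} → G.Qd B a b) (h2 : (F ∩ G.cut B).card = 2) :
    ∃ e, e ∈ G.ins B ∧ ¬ (G.s e ∈ G.vs (F ∩ G.cut B) ↔ G.t e ∈ G.vs (F ∩ G.cut B)) := by
  obtain ⟨a, b, hab, hF⟩ := card_eq_two.1 h2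
  have ha : a ∈ F ∩ G.cut B := by rw [hF]; simp
  have hb : b ∈ F ∩ G.cut B := by rw [hF]; simp
  obtain ⟨c, d, h4⟩ := exists_q4 hu.1 (mem_inter.1 ha).2 (mem_inter.1 hb).2 hab
  obtain ⟨e1, e2, e3, e4, h5, -, h6, -⟩ := hT.qst hc hB h4 (hq a b hab hF)
  have hcm := h4.mem.2.2.1
  have hcF : c ∉ F := fun h => by
    have : c ∈ ({a, b} : Finset E) := hF ▸ mem_inter.2 ⟨h, hcm⟩
    rcases mem_insert.1 this with h' | h'
    · exact h4.2.2.1 h'.symm
    · exact h4.2.2.2.2.1 (mem_singleton.1 h').symm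
  have k1 : G.ie B a ∈ G.vs (F ∩ G.cut B) := mem_vs.2 ⟨a, ha, ie_at⟩
  have k2 : G.ie B c ∉ G.vs (F ∩ G.cut B) := fun h =>
    hcF ((GDiag_key hc hT hB hu hcm (ie_mem (cut_sub_tch hcm)) ie_at).1 h)
  refine ⟨e1, by rw [h5]; simp, ?_⟩
  rcases h6 with ⟨h7, h8⟩ | ⟨h7, h8⟩
  · rw [h7, h8]; exact fun h => k2 (h.1 k1)
  · rw [h7, h8]; exact fun h => k2 (h.2 k1)

omit [Fintype V] in
theorem GDiag_nu_eq (hpd : PD Bs) {B : Finset V} (hB : B ∈ Bs) {v : V} {β : Bool} :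
    G.GDiag_nu F Bs v = (B, β) ↔ v ∈ B ∧ decide (v ∈ G.vs (F ∩ G.cut B)) = β := by
  unfold GDiag_nu
  rw [Prod.mk.injEq]
  constructor
  · rintro ⟨h1, h2⟩
    exact ⟨h1 ▸ mem_nd_self, h1 ▸ h2⟩
  · rintro ⟨h1, h2⟩
    rw [nd_of_mem hpd hB h1]
    exact ⟨rfl, h2⟩

omit [Fintype V] [DecidableEq E] in
theorem GDiag_deg {S : Finset E} (h : ∀ e ∈ S, G.s e ≠ G.t e) (x : V) :
    G.deg S x = (S.filter fun e => G.s e = x ∨ G.t e = x).card := by
  rw [card_filter, deg]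
  refine sum_congr rfl fun e he => ?_
  have := h e he
  unfold inc iv
  by_cases h1 : G.s e = x <;> by_cases h2 : G.t e = x
  · exact absurd (h1.trans h2.symm) this
  all_goals simp [h1, h2]

variable {ε : Finset V → E}

omit [Fintype V] in
theorem GDiag_mem {e : E} : e ∈ (G.GDiag_H W F Bs ε).A ↔ e ∈ G.ins W ∧
    (nd Bs (G.s e) ≠ nd Bs (G.t e) ∨ ∃ B ∈ Bs, (F ∩ G.cut B).card = 2 ∧ e = ε B) := mem_filter

omit [Fintype V] in
theorem GDiag_in (h : G.GDiag_Ok W F Bs ε) {B : Finset V} (hB : B ∈ Bs) {e : E}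
    (he : e ∈ (G.GDiag_H W F Bs ε).A) (hi : e ∈ G.ins B) :
    (F ∩ G.cut B).card = 2 ∧ e = ε B := by
  obtain ⟨-, h1, h2⟩ := mem_ins.1 hi
  rcases (GDiag_mem.1 he).2 with h3 | ⟨B', hB', h3, h4⟩
  · exact absurd ((nd_of_mem h.1 hB h1).trans (nd_of_mem h.1 hB h2).symm) h3
  · have h5 := (mem_ins.1 (h.2.2 B' hB' h3).1).2.1
    rw [← h4] at h5
    have : B = B' := by
      by_contra hn
      exact disjoint_left.1 (h.1 B hB B' hB' hn) h1 h5
    subst this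
    exact ⟨h3, h4⟩

omit [Fintype V] in
theorem GDiag_loop (h : G.GDiag_Ok W F Bs ε) {e : E} (he : e ∈ (G.GDiag_H W F Bs ε).A) :
    (G.GDiag_H W F Bs ε).s e ≠ (G.GDiag_H W F Bs ε).t e := by
  intro hst
  have hst' : G.GDiag_nu F Bs (G.s e) = G.GDiag_nu F Bs (G.t e) := hst
  rcases (GDiag_mem.1 he).2 with h3 | ⟨B, hB, h3, h4⟩
  · exact h3 (congrArg Prod.fst hst')
  · obtain ⟨h5, h6⟩ := h.2.2 B hB h3
    rw [← h4] at h5 h6
    have h7 := ((GDiag_nu_eq h.1 hB).1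
      (hst'.trans ((GDiag_nu_eq h.1 hB).2 ⟨(mem_ins.1 h5).2.2, rfl⟩))).2
    exact h6 (decide_eq_decide.1 h7)

omit [Fintype V] in
theorem GDiag_cut (h : G.GDiag_Ok W F Bs ε) {B : Finset V} (hB : B ∈ Bs) {e : E}
    (he : e ∈ G.cut B) : nd Bs (G.s e) ≠ nd Bs (G.t e) := by
  intro hst
  refine (mem_cut.1 he).2 ⟨fun h1 => ?_, fun h1 => ?_⟩
  · rw [nd_of_mem h.1 hB h1] at hst
    exact hst ▸ mem_nd_self
  · rw [nd_of_mem h.1 hB h1] at hst
    exact hst ▸ mem_nd_self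

theorem GDiag_at (h : G.GDiag_Ok W F Bs ε) {B : Finset V} (hB : B ∈ Bs) {e : E}
    (he : e ∈ (G.GDiag_H W F Bs ε).A) (β : Bool) :
    ((G.GDiag_H W F Bs ε).s e = (B, β) ∨ (G.GDiag_H W F Bs ε).t e = (B, β)) ↔
      (e ∈ G.cut B ∧ decide (e ∈ F) = β) ∨ e ∈ G.ins B := by
  have hA : e ∈ G.A := ins_sub_A (GDiag_mem.1 he).1
  change (G.GDiag_nu F Bs (G.s e) = (B, β) ∨ G.GDiag_nu F Bs (G.t e) = (B, β)) ↔ _
  rw [GDiag_nu_eq h.1 hB, GDiag_nu_eq h.1 hB]
  by_cases h1 : G.s e ∈ B <;> by_cases h2 : G.t e ∈ B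
  · have hi : e ∈ G.ins B := mem_ins.2 ⟨hA, h1, h2⟩
    obtain ⟨h3, h4⟩ := GDiag_in h hB he hi
    have h6 := (h.2.2 B hB h3).2
    rw [← h4] at h6
    refine ⟨fun _ => Or.inr hi, fun _ => ?_⟩
    by_cases h7 : G.s e ∈ G.vs (F ∩ G.cut B) <;> by_cases h8 : G.t e ∈ G.vs (F ∩ G.cut B)
    · exact absurd (iff_of_true h7 h8) h6
    · cases β <;> simp [h1, h2, h7, h8]
    · cases β <;> simp [h1, h2, h7, h8]
    · exact absurd (iff_of_false h7 h8) h6
  · have hcu : e ∈ G.cut B := mem_cut.2 ⟨hA, fun k => h2 (k.1 h1)⟩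
    have h3 := (h.2.1 B hB).2.2 e hcu _ h1 (Or.inl rfl)
    simp [h1, h2, hcu, not_ins_of_cut hcu, h3]
  · have hcu : e ∈ G.cut B := mem_cut.2 ⟨hA, fun k => h1 (k.2 h2)⟩
    have h3 := (h.2.1 B hB).2.2 e hcu _ h2 (Or.inr rfl)
    simp [h1, h2, hcu, not_ins_of_cut hcu, h3]
  · simp [h1, h2, mem_cut, mem_ins]

omit [Fintype V] in
theorem GDiag_epsA (h : G.GDiag_Ok W F Bs ε) {B : Finset V} (hB : B ∈ Bs)
    (h2 : (F ∩ G.cut B).card = 2) : ε B ∈ (G.GDiag_H W F Bs ε).A :=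
  GDiag_mem.2 ⟨ins_mono (h.2.1 B hB).1 (h.2.2 B hB h2).1, Or.inr ⟨B, hB, h2, rfl⟩⟩

theorem GDiag_same (h : G.GDiag_Ok W F Bs ε) {B B' : Finset V} (hB : B ∈ Bs) (hB' : B' ∈ Bs)
    (h2 : (F ∩ G.cut B).card = 2) (hne : B' ≠ B)
    (h0 : (F ∩ G.cut B').card = 0 ∨ (F ∩ G.cut B').card = 2) {u w : V} (hu : u ∈ B')
    (hw : w ∈ B') : (G.GDiag_H W F Bs ε).Rch ((G.GDiag_H W F Bs ε).A.erase (ε B))
      (G.GDiag_nu F Bs u) (G.GDiag_nu F Bs w) := by
  rw [(GDiag_nu_eq h.1 hB').2 ⟨hu, rfl⟩, (GDiag_nu_eq h.1 hB').2 ⟨hw, rfl⟩]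
  rcases h0 with h0 | h0
  · rw [card_eq_zero.1 h0]
    have : ∀ x, x ∉ G.vs (∅ : Finset E) := fun x hx => by
      obtain ⟨e, he, -⟩ := mem_vs.1 hx
      exact notMem_empty e he
    simp only [this, decide_false]
    exact Rch.refl _ _
  · have h3 := GDiag_epsA h hB' h0
    have h4 := (h.2.2 B' hB' h0).1
    have h5 : ε B' ≠ ε B := fun k => by
      have h6 := (mem_ins.1 (h.2.2 B hB h2).1).2.1
      rw [← k] at h6
      exact disjoint_left.1 (h.1 B' hB' B hB hne) (mem_ins.1 h4).2.1 h6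
    exact rch_at (mem_erase.2 ⟨h5, h3⟩) ((GDiag_at h hB' h3 _).2 (Or.inr h4))
      ((GDiag_at h hB' h3 _).2 (Or.inr h4))

theorem GDiag_bri (h : G.GDiag_Ok W F Bs ε)
    (h0 : ∀ B ∈ Bs, (F ∩ G.cut B).card = 0 ∨ (F ∩ G.cut B).card = 2) {B : Finset V} (hB : B ∈ Bs)
    (h2 : (F ∩ G.cut B).card = 2)
    (hr : ¬ (G.GDiag_H W F Bs ε).Rch ((G.GDiag_H W F Bs ε).A.erase (ε B)) (B, false) (B, true)) :
    ∃ Y ⊆ W, Disjoint Y B ∧ G.crs (G.ins W) Y = G.cut B \ F := by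
  classical
  obtain ⟨R, hR⟩ : ∃ R : V → Prop, ∀ v, R v ↔ (G.GDiag_H W F Bs ε).Rch
    ((G.GDiag_H W F Bs ε).A.erase (ε B)) (B, false) (G.GDiag_nu F Bs v) := ⟨_, fun _ => Iff.rfl⟩
  have hεB := mem_ins.1 (h.2.2 B hB h2).1
  have step : ∀ e ∈ G.ins W, ¬ (G.s e ∈ B ∧ G.t e ∈ B) → (R (G.s e) ↔ R (G.t e)) := by
    intro e he hn
    have key : (G.GDiag_H W F Bs ε).Rch ((G.GDiag_H W F Bs ε).A.erase (ε B))
        (G.GDiag_nu F Bs (G.s e)) (G.GDiag_nu F Bs (G.t e)) := by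
      by_cases h1 : nd Bs (G.s e) = nd Bs (G.t e)
      · rcases nd_cases h.1 (G.s e) with h3 | ⟨-, h3⟩
        · refine GDiag_same h hB h3 h2 (fun k => hn ⟨k ▸ mem_nd_self, ?_⟩) (h0 _ h3) mem_nd_self
            (h1 ▸ mem_nd_self)
          rw [← k, h1]
          exact mem_nd_self
        · have h4 : G.t e ∈ ({G.s e} : Finset V) := by
            rw [← h3, h1]
            exact mem_nd_self
          rw [mem_singleton.1 h4]
          exact Rch.refl _ _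
      · refine rch_edge (G := G.GDiag_H W F Bs ε)
          (mem_erase.2 ⟨fun k => hn ?_, GDiag_mem.2 ⟨he, Or.inl h1⟩⟩)
        rw [k]
        exact hεB.2
    rw [hR, hR]
    exact ⟨fun k => k.trans key, fun k => k.trans key.symm⟩
  have inB : ∀ e ∈ G.cut B, ∀ v ∈ B, G.At e v → (R v ↔ e ∉ F) := by
    intro e he v hv ha
    have h3 := (h.2.1 B hB).2.2 e he v hv ha
    rw [hR, (GDiag_nu_eq h.1 hB).2 ⟨hv, rfl⟩]
    by_cases h4 : e ∈ F
    · rw [decide_eq_true (h3.2 h4)]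
      exact iff_of_false hr (not_not.2 h4)
    · rw [decide_eq_false (fun k => h4 (h3.1 k))]
      exact iff_of_true (Rch.refl _ _) h4
  refine ⟨W.filter fun v => v ∉ B ∧ R v, filter_subset _ _,
    disjoint_left.2 fun v hv => (mem_filter.1 hv).2.1, ?_⟩
  ext e
  rw [mem_crs, mem_sdiff, mem_filter, mem_filter]
  constructor
  · rintro ⟨he, hn⟩
    obtain ⟨hA, hs, ht⟩ := mem_ins.1 he
    by_cases h3 : G.s e ∈ B <;> by_cases h4 : G.t e ∈ B
    · exact absurd (iff_of_false (fun k => k.2.1 h3) fun k => k.2.1 h4) hn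
    · have hcu : e ∈ G.cut B := mem_cut.2 ⟨hA, fun k => h4 (k.1 h3)⟩
      refine ⟨hcu, (inB e hcu _ h3 (Or.inl rfl)).1 ((step e he fun k => h4 k.2).2 ?_)⟩
      by_contra h5
      exact hn (iff_of_false (fun k => k.2.1 h3) fun k => h5 k.2.2)
    · have hcu : e ∈ G.cut B := mem_cut.2 ⟨hA, fun k => h3 (k.2 h4)⟩
      refine ⟨hcu, (inB e hcu _ h4 (Or.inr rfl)).1 ((step e he fun k => h3 k.1).1 ?_)⟩
      by_contra h5
      exact hn (iff_of_false (fun k => h5 k.2.2) fun k => k.2.1 h4)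
    · have h5 := step e he fun k => h3 k.1
      exact absurd ⟨fun k => ⟨ht, h4, h5.1 k.2.2⟩, fun k => ⟨hs, h3, h5.2 k.2.2⟩⟩ hn
  · rintro ⟨hcu, hF⟩
    have he := (h.2.1 B hB).2.1 hcu
    obtain ⟨hA, hs, ht⟩ := mem_ins.1 he
    have h6 := (mem_cut.1 hcu).2
    have h5 := step e he fun k => h6 (iff_of_true k.1 k.2)
    refine ⟨he, fun k => ?_⟩
    by_cases h3 : G.s e ∈ B
    · have h4 : G.t e ∉ B := fun k' => h6 (iff_of_true h3 k')
      exact (k.2 ⟨ht, h4, h5.1 ((inB e hcu _ h3 (Or.inl rfl)).2 hF)⟩).2.1 h3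
    · have h4 : G.t e ∈ B := by
        by_contra k'
        exact h6 (iff_of_false h3 k')
      exact (k.1 ⟨hs, h3, h5.2 ((inB e hcu _ h4 (Or.inr rfl)).2 hF)⟩).2.1 h4

theorem GDiag_degB (h : G.GDiag_Ok W F Bs ε) {Z : Finset E} (hZ : Z ⊆ (G.GDiag_H W F Bs ε).A)
    {B : Finset V} (hB : B ∈ Bs) :
    (G.GDiag_H W F Bs ε).deg Z (B, true) = (Z ∩ G.cut B ∩ F).card + (Z ∩ G.ins B).card ∧
      (G.GDiag_H W F Bs ε).deg Z (B, false) = ((Z ∩ G.cut B) \ F).card + (Z ∩ G.ins B).card := by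
  have hd : Disjoint (Z ∩ G.cut B) (Z ∩ G.ins B) := disjoint_left.2 fun e h1 h2 =>
    not_ins_of_cut (mem_inter.1 h1).2 (mem_inter.1 h2).2
  constructor
  · rw [GDiag_deg fun e he => GDiag_loop h (hZ he),
      ← card_union_of_disjoint (hd.mono_left inter_subset_left)]
    congr 1
    ext e
    rw [mem_filter]
    by_cases he : e ∈ Z
    · rw [GDiag_at h hB (hZ he)]
      simp [he]
    · simp [he]
  · rw [GDiag_deg fun e he => GDiag_loop h (hZ he),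
      ← card_union_of_disjoint (hd.mono_left sdiff_subset)]
    congr 1
    ext e
    rw [mem_filter]
    by_cases he : e ∈ Z
    · rw [GDiag_at h hB (hZ he)]
      simp [he]
    · simp [he]

omit [Fintype V] in
theorem GDiag_new (h : G.GDiag_Ok W F Bs ε) (Z : Finset E) {B : Finset V} (hB : B ∈ Bs) :
    symmDiff F (Z.filter fun e => nd Bs (G.s e) ≠ nd Bs (G.t e)) ∩ G.cut B =
      (F ∩ G.cut B) \ (Z ∩ G.cut B ∩ F) ∪ (Z ∩ G.cut B) \ F := by
  ext e
  by_cases he : e ∈ G.cut B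
  · have := GDiag_cut h hB he
    by_cases h1 : e ∈ F <;> by_cases h2 : e ∈ Z <;> simp [mem_symmDiff, he, this, h1, h2]
  · simp [he]

omit [Fintype V] in
theorem GDiag_card (Z : Finset E) (B : Finset V) :
    ((F ∩ G.cut B) \ (Z ∩ G.cut B ∩ F) ∪ (Z ∩ G.cut B) \ F).card + (Z ∩ G.cut B ∩ F).card =
      (F ∩ G.cut B).card + ((Z ∩ G.cut B) \ F).card ∧
    ((F ∩ G.cut B) \ (Z ∩ G.cut B ∩ F)).card + (Z ∩ G.cut B ∩ F).card = (F ∩ G.cut B).card := by
  have h1 : Z ∩ G.cut B ∩ F ⊆ F ∩ G.cut B := fun e he =>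
    mem_inter.2 ⟨(mem_inter.1 he).2, (mem_inter.1 (mem_inter.1 he).1).2⟩
  have h2 := card_sdiff_add_card_eq_card h1
  have h3 : Disjoint ((F ∩ G.cut B) \ (Z ∩ G.cut B ∩ F)) ((Z ∩ G.cut B) \ F) :=
    disjoint_left.2 fun e k1 k2 => (mem_sdiff.1 k2).2 (mem_inter.1 (mem_sdiff.1 k1).1).1
  rw [card_union_of_disjoint h3]
  omega

omit [Fintype V] in
theorem GDiag_vtx (h : G.GDiag_Ok W F Bs ε) {Z : Finset E} (hZ : Z ⊆ (G.GDiag_H W F Bs ε).A)
    {v : V} (hv : ∀ B ∈ Bs, v ∉ B) :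
    G.dg (Z.filter fun e => nd Bs (G.s e) ≠ nd Bs (G.t e)) v =
      (G.GDiag_H W F Bs ε).dg Z (G.GDiag_nu F Bs v) := by
  have key : ∀ u, G.GDiag_nu F Bs u = G.GDiag_nu F Bs v ↔ u = v := fun u => by
    refine ⟨fun k => ?_, fun k => k ▸ rfl⟩
    have h1 : nd Bs u = nd Bs v := congrArg Prod.fst k
    rw [nd_of_not hv] at h1
    exact mem_singleton.1 (h1 ▸ mem_nd_self)
  unfold dg
  rw [sum_filter]
  refine sum_congr rfl fun e he => ?_
  change _ = iv (G.GDiag_nu F Bs (G.s e) = G.GDiag_nu F Bs v) +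
    iv (G.GDiag_nu F Bs (G.t e) = G.GDiag_nu F Bs v)
  simp only [key]
  split_ifs with h1
  · rfl
  · rcases (GDiag_mem.1 (hZ he)).2 with h3 | ⟨B, hB, h3, h4⟩
    · exact absurd h3 h1
    · have h5 := mem_ins.1 (h.2.2 B hB h3).1
      rw [← h4] at h5
      have h6 : G.s e ≠ v := fun k => hv B hB (k ▸ h5.2.1)
      have h7 : G.t e ≠ v := fun k => hv B hB (k ▸ h5.2.2)
      simp [iv, h6, h7]

theorem GDiag_adj (hc : G.Cub) (hT : G.HT T) {B : Finset V} (hB : B ⊆ T) (hu : G.US B)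
    (hq : ∀ a b, a ≠ b → F ∩ G.cut B = {a, b} → G.Qd B a b) (h2 : (F ∩ G.cut B).card = 2)
    {x y : E} (hx : x ∈ F ∩ G.cut B) (hy : y ∈ G.cut B) (hy' : y ∉ F) : ¬ G.Qd B x y := by
  obtain ⟨R, hR, h3, h4, -⟩ : ∃ R : Finset E, R.card = 1 ∧ F ∩ G.cut B = insert x R ∧ x ∉ R ∧
      True := ⟨(F ∩ G.cut B).erase x, by rw [card_erase_of_mem hx, h2], (insert_erase hx).symm,
        notMem_erase _ _, trivial⟩
  obtain ⟨z, rfl⟩ := card_eq_one.1 hR
  have hxz : x ≠ z := fun k => h4 (mem_singleton.2 k)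
  have hz : z ∈ F ∩ G.cut B := by rw [h3]; simp
  obtain ⟨c, d, h5⟩ := exists_q4 hu.1 (mem_inter.1 hx).2 (mem_inter.1 hz).2 hxz
  have h6 := hq x z hxz h3
  rw [h5.1] at hy
  simp only [mem_insert, mem_singleton] at hy
  rcases hy with rfl | rfl | rfl | rfl
  · exact absurd (mem_inter.1 hx).1 hy'
  · exact absurd (mem_inter.1 hz).1 hy'
  · exact (hT.qd_mid hc hB h5 h6).1
  · exact (hT.qd_mid hc hB h5.swap2 h6).1

theorem diag (hc : G.Cub) (hT : G.HT T) (hW : W ⊆ T) (hJ : J ⊆ G.cut W) (hpd : PD Bs)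
    (hB : ∀ B ∈ Bs, B ⊆ W ∧ G.US B ∧ G.cut B ⊆ G.ins W) (hj : G.Tq W J Bs F)
    (hne : ∃ B ∈ Bs, (F ∩ G.cut B).card = 2)
    (hq : ∀ B ∈ Bs, ∀ a b, a ≠ b → F ∩ G.cut B = {a, b} → G.Qd B a b) :
    (∃ B ∈ Bs, ∃ a b g g', G.Q4 B a b g g' ∧ F ∩ G.cut B = {a, b} ∧
        ∃ Y ⊆ W, Disjoint Y B ∧ G.crs (G.ins W) Y = {g, g'}) ∨
      ∃ F', G.Tq W J Bs F' ∧ ∃ B ∈ Bs, ∃ a b, a ≠ b ∧ F' ∩ G.cut B = {a, b} ∧ ¬ G.Qd B a b := by
  classical
  obtain ⟨B0, hB0, h20⟩ := hne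
  obtain ⟨e0, -⟩ := card_pos.1 (show 0 < (F ∩ G.cut B0).card by omega)
  have : Nonempty E := ⟨e0⟩
  have hex : ∀ B ∈ Bs, (F ∩ G.cut B).card = 2 → ∃ e, e ∈ G.ins B ∧
      ¬ (G.s e ∈ G.vs (F ∩ G.cut B) ↔ G.t e ∈ G.vs (F ∩ G.cut B)) := fun B hb h2 =>
    GDiag_eps hc hT ((hB B hb).1.trans hW) (hB B hb).2.1 (hq B hb) h2
  choose! ε hε using hex
  have h : G.GDiag_Ok W F Bs ε := ⟨hpd, fun B hb => ⟨(hB B hb).1, (hB B hb).2.2,
    fun f hf v hv ha => GDiag_key hc hT ((hB B hb).1.trans hW) (hB B hb).2.1 hf hv ha⟩, hε⟩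
  by_cases hbr : ∃ B ∈ Bs, (F ∩ G.cut B).card = 2 ∧
      ¬ (G.GDiag_H W F Bs ε).Rch ((G.GDiag_H W F Bs ε).A.erase (ε B)) (B, false) (B, true)
  · obtain ⟨B, hb, h2, hr⟩ := hbr
    obtain ⟨Y, hY, hd, hcr⟩ := GDiag_bri h hj.2.2 hb h2 hr
    obtain ⟨a, b, hab, hF⟩ := card_eq_two.1 h2
    have ha : a ∈ F ∩ G.cut B := by rw [hF]; simp
    have hb' : b ∈ F ∩ G.cut B := by rw [hF]; simp
    obtain ⟨c, d, h4⟩ := exists_q4 (hB B hb).2.1.1 (mem_inter.1 ha).2 (mem_inter.1 hb').2 hab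
    refine Or.inl ⟨B, hb, a, b, c, d, h4, hF, Y, hY, hd, ?_⟩
    rw [hcr, ← sdiff_inter_self_right, hF, h4.1]
    obtain ⟨-, -, h5, h6, h7, h8, -⟩ := h4
    ext e
    simp only [mem_sdiff, mem_insert, mem_singleton, not_or]
    constructor
    · rintro ⟨h9 | h9 | h9, k1, k2⟩
      exacts [absurd h9 k1, absurd h9 k2, h9]
    · rintro (rfl | rfl)
      exacts [⟨Or.inr (Or.inr (Or.inl rfl)), h5.symm, h7.symm⟩,
        ⟨Or.inr (Or.inr (Or.inr rfl)), h6.symm, h8.symm⟩]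
  right
  push Not at hbr
  obtain ⟨Z, hZ, hdeg, ⟨x, hx, hxZ⟩, hvis⟩ := kotz (G.GDiag_H W F Bs ε)
    ((Bs.filter fun B => (F ∩ G.cut B).card = 2).image fun B => (B, false)) (fun x => ε x.1)
    ⟨_, mem_image_of_mem _ (mem_filter.2 ⟨hB0, h20⟩)⟩ (by
      intro x hx
      obtain ⟨B, hb, rfl⟩ := mem_image.1 hx
      obtain ⟨hb, h2⟩ := mem_filter.1 hb
      have h3 := GDiag_epsA h hb h2
      have h4 := (GDiag_at h hb h3 false).2 (Or.inr (hε B hb h2).1)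
      have h5 := (GDiag_at h hb h3 true).2 (Or.inr (hε B hb h2).1)
      have h6 := hbr B hb h2
      refine ⟨h3, h4, ?_⟩
      change (G.GDiag_H W F Bs ε).Rch ((G.GDiag_H W F Bs ε).A.erase (ε B))
        ((G.GDiag_H W F Bs ε).s (ε B)) ((G.GDiag_H W F Bs ε).t (ε B))
      rcases h4 with h4 | h4 <;> rcases h5 with h5 | h5
      · exact absurd (congrArg Prod.snd (h4.symm.trans h5)) (by simp)
      · rw [h4, h5]; exact h6
      · rw [h4, h5]; exact h6.symm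
      · exact absurd (congrArg Prod.snd (h4.symm.trans h5)) (by simp))
  have hZW : (Z.filter fun e => nd Bs (G.s e) ≠ nd Bs (G.t e)) ⊆ G.ins W := fun e he =>
    (GDiag_mem.1 (hZ (mem_filter.1 he).1)).1
  have hI : ∀ B ∈ Bs, (F ∩ G.cut B).card = 2 → ε B ∈ Z → (Z ∩ G.ins B).card = 1 := by
    intro B hb h2 he
    refine card_eq_one.2 ⟨ε B, eq_singleton_iff_unique_mem.2
      ⟨mem_inter.2 ⟨he, (hε B hb h2).1⟩, fun e k => ?_⟩⟩
    exact (GDiag_in h hb (hZ (mem_inter.1 k).1) (mem_inter.1 k).2).2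
  refine ⟨symmDiff F (Z.filter fun e => nd Bs (G.s e) ≠ nd Bs (G.t e)), ⟨?_, ?_, ?_⟩, ?_⟩
  · exact fun e he => (mem_symmDiff.1 he).elim (fun k => hj.1 k.1) fun k => hZW k.1
  · intro v hv hvB
    have h1 : symmDiff F (Z.filter fun e => nd Bs (G.s e) ≠ nd Bs (G.t e)) ∪ J =
        symmDiff (F ∪ J) (Z.filter fun e => nd Bs (G.s e) ≠ nd Bs (G.t e)) := by
      generalize (Z.filter fun e => nd Bs (G.s e) ≠ nd Bs (G.t e)) = Z' at hZW
      ext e
      have h2 : e ∈ J → e ∉ Z' := fun k k' => not_ins_of_cut (hJ k) (hZW k')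
      by_cases k1 : e ∈ J
      · simp [mem_symmDiff, k1, h2 k1]
      · simp [mem_symmDiff, k1]
    rw [h1, dg_symmDiff, hj.2.1 v hv hvB, zero_add, GDiag_vtx h hZ hvB, dg_eq_zero]
    rcases hdeg (G.GDiag_nu F Bs v) with k | k <;> rw [k] <;> decide
  · intro B hb
    rw [GDiag_new h Z hb]
    obtain ⟨d1, d2⟩ := GDiag_degB h hZ hb
    obtain ⟨c1, c2⟩ := GDiag_card (G := G) (F := F) Z B
    have k1 := hdeg (B, true)
    have k2 := hdeg (B, false)
    rcases hj.2.2 B hb with h0 | h2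
    · have h3 : (Z ∩ G.ins B).card = 0 := by
        refine card_eq_zero.2 (eq_empty_of_forall_notMem fun e k => ?_)
        have := (GDiag_in h hb (hZ (mem_inter.1 k).1) (mem_inter.1 k).2).1
        omega
      omega
    · by_cases he : ε B ∈ Z
      · have := hI B hb h2 he
        omega
      · have h3 : ¬ 0 < (G.GDiag_H W F Bs ε).deg Z (B, false) := fun k =>
          he (hvis _ (mem_image_of_mem _ (mem_filter.2 ⟨hb, h2⟩)) (deg_pos.1 k))
        omega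
  · have he := hvis x hx hxZ
    obtain ⟨B, hb, rfl⟩ := mem_image.1 hx
    obtain ⟨hb, h2⟩ := mem_filter.1 hb
    obtain ⟨d1, d2⟩ := GDiag_degB h hZ hb
    obtain ⟨-, c2⟩ := GDiag_card (G := G) (F := F) Z B
    have k1 := hdeg (B, true)
    have k2 := hdeg (B, false)
    have k3 := hI B hb h2 he
    obtain ⟨a, ha⟩ := card_eq_one.1
      (show ((F ∩ G.cut B) \ (Z ∩ G.cut B ∩ F)).card = 1 by omega)
    obtain ⟨b, hb'⟩ := card_eq_one.1 (show ((Z ∩ G.cut B) \ F).card = 1 by omega)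
    have ha1 := mem_sdiff.1 (ha ▸ mem_singleton_self a)
    have hb1 := mem_sdiff.1 (hb' ▸ mem_singleton_self b)
    refine ⟨B, hb, a, b, fun k => hb1.2 (k ▸ (mem_inter.1 ha1.1).1), ?_,
      GDiag_adj hc hT ((hB B hb).1.trans hW) (hB B hb).2.1 (hq B hb) h2 ha1.1
        (mem_inter.1 hb1.1).2 hb1.2⟩
    rw [GDiag_new h Z hb, ha, hb']
    rfl

end SG

end Pool.Agent.Work.MP_8c679b_co
end

-- merged part: Pool.Agent.Work.MP_8c679b_co.Six.SpCase
section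
/-!
The process with ports.
-/

set_option autoImplicit false

namespace Pool.Agent.Work.MP_8c679b_co

open Finset

namespace SG

variable {V E : Type} [Fintype V] [DecidableEq V] [DecidableEq E] {G : SG V E}
  {T W : Finset V} {F : Finset E} {Bs Ds Hh Hs : Finset (Finset V)} {Fm : Set (Finset V)}

theorem SpCase_ie {X : Finset V} {e : E} (he : e ∈ G.cut X) :
    G.ie X e ∈ X ∧ G.At e (G.ie X e) := by
  have h := (mem_cut.1 he).2
  unfold ie
  split_ifs with h1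
  · exact ⟨h1, Or.inl rfl⟩
  · exact ⟨by tauto, Or.inr rfl⟩

theorem SpCase_dg {S S' : Finset E} {v : V} (h : S' ⊆ S) (h' : ∀ e ∈ S, G.At e v → e ∈ S') :
    G.dg S' v = G.dg S v := by
  have h1 : G.dg (S \ S') v = 0 := dg_of_not_mem fun hv => by
    obtain ⟨e, he, ha⟩ := mem_vs.1 hv
    exact (mem_sdiff.1 he).2 (h' e (mem_sdiff.1 he).1 ha)
  rw [dg_sdiff h] at h1
  exact (z2_eq_of_add h1).symm

theorem SpCase_two {Z : Finset E} {f : E} {v : V} (hf : f ∈ Z) (ha : G.At f v)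
    (hl : G.s f ≠ G.t f) (h0 : G.dg Z v = 0) : ∃ f' ∈ Z, f' ≠ f ∧ G.At f' v := by
  have h1 : G.dg {f} v = 1 := by
    rw [dg_singleton]
    rcases ha with ha | ha
    · have : G.t f ≠ v := fun h => hl (ha.trans h.symm)
      simp [iv, ha, this]
    · have : G.s f ≠ v := fun h => hl (h.trans ha.symm)
      simp [iv, ha, this]
  have h2 : G.dg (Z \ {f}) v ≠ 0 := by
    rw [dg_sdiff (singleton_subset_iff.2 hf), h0, h1]
    decide
  obtain ⟨f', h3, h4⟩ := mem_vs.1 (mem_vs_of_dg h2)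
  exact ⟨f', (mem_sdiff.1 h3).1, by simpa using (mem_sdiff.1 h3).2, h4⟩

theorem SpCase_box (hF : G.FF Fm T) (hB : G.Bx Fm W ∅ Bs) :
    ∀ B ∈ Bs, B ⊆ W ∧ G.US B ∧ G.cut B ⊆ G.ins W := fun B hb =>
  ⟨(hB.1 B hb).2.1, (hF.1 B (hB.1 B hb).1).2.1, by simpa using (hB.1 B hb).2.2⟩

/-- the circuit through a passed box -/
theorem SpCase_fc (hc : G.Cub) (hT : G.HT T) (hF : G.FF Fm T) (h : G.SPS T W Hh Hs Ds)
    (hB : G.Bx Fm W ∅ Bs) (hq : G.Tq W (G.ends (Hh ∪ Hs)) Bs F) {B : Finset V} (hb : B ∈ Bs)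
    {a b : E} (hab : F ∩ G.cut B = {a, b}) :
    ∃ F' n N e, G.Tj W (G.ends (Hh ∪ Hs)) F' ∧ G.As Fm W F' ∧
      G.Fc W (Hh ∪ Hs) Bs Ds F' n N e ∧ N 0 = B ∧ e 0 = a ∧ e 1 = b := by
  obtain ⟨F', hj, hA, hE⟩ := norm_join hc hT h.sub hF hB h.ends_sub.1 hq
  have hout : ∀ f ∈ G.cut B, f ∈ F' ↔ f ∈ F := fun f hf => hE f fun B' hb' hi => by
    have h1 := SpCase_ie hf
    have h2 := mem_ins.1 hi
    by_cases e : B = B'
    · subst e
      exact (mem_cut.1 hf).2 (by tauto)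
    · refine disjoint_left.1 (hB.2.1 B hb B' hb' e) h1.1 ?_
      rcases h1.2 with h3 | h3 <;> rw [← h3]
      exacts [h2.2.1, h2.2.2]
  have hb2 : b ∈ F ∩ G.cut B := by rw [hab]; simp
  have hbc := (mem_inter.1 hb2).2
  have hv := SpCase_ie hbc
  have hn : nd (Bs ∪ Ds ∪ (Hh ∪ Hs)) (G.ie B b) = B :=
    nd_of_mem (h.pd_all hc hF hB).1 (by simp [hb]) hv.1
  obtain ⟨n, N, e, hC, h0, h1⟩ := fc_exists hc hT hF h hB hj hA (v := G.ie B b) (f := b)
    (mem_union_left _ ((hB.1 B hb).2.1 hv.1))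
    (mem_union_left _ ((hout b hbc).2 (mem_inter.1 hb2).1)) (by rw [hn]; exact hbc)
  rw [hn] at h0
  refine ⟨F', n, N, e, hj, hA, hC, h0, ?_, h1⟩
  have t := hC.1.2.2 0 (Nat.zero_le _)
  rw [h0] at t
  have h2 : e 0 ∈ F' := by
    rcases mem_union.1 (hC.2.2.2.1 0 (Nat.zero_le _)) with h3 | h3
    · exact h3
    · exact absurd (ins_mono h.sub ((SpCase_box hF hB B hb).2.2 t.1))
        (disjoint_left.1 h.ends_sub.2 h3)
  have h3 : e 0 ∈ F ∩ G.cut B := mem_inter.2 ⟨(hout _ t.1).1 h2, t.1⟩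
  rw [hab] at h3
  rcases mem_insert.1 h3 with h4 | h4
  · exact h4
  · exact absurd ((mem_singleton.1 h4).trans h1.symm) t.2.2

theorem SpCase_nq (hc : G.Cub) (hT : G.HT T) (hF : G.FF Fm T) (hK : G.KB T) (hR : G.RPA T)
    (h : G.SPS T W Hh Hs Ds) (hB : G.Bx Fm W ∅ Bs) (hI : G.SPI Fm T W)
    (hq : G.Tq W (G.ends (Hh ∪ Hs)) Bs F)
    (hne : ∃ B ∈ Bs, ∃ a b, a ≠ b ∧ F ∩ G.cut B = {a, b} ∧ ¬ G.Qd B a b) :
    G.SPc Fm W Hh Hs Ds := by
  obtain ⟨B, hb, a, b, -, hab, hQ⟩ := hne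
  obtain ⟨F', n, N, e, hj, hA, hC, h0, h1, h2⟩ := SpCase_fc hc hT hF h hB hq hb hab
  refine sp_close hc hT hF hK hR h hB hj hA hC hI (Or.inr (Or.inr ?_))
  by_cases hh : ∃ i ≤ n, N i ∈ Hh
  · refine Or.inr ⟨hh, Or.inr (Or.inr (Or.inl ⟨0, Nat.zero_le _, h0 ▸ hb, ?_⟩))⟩
    rw [h0, h1, zero_add, h2]
    exact hQ
  · exact Or.inl ⟨fun i hi hm => hh ⟨i, hi, hm⟩, 0, Nat.zero_le _, h0 ▸ hb⟩

theorem SpCase_as (hF : G.FF Fm T) (hB : G.Bx Fm W ∅ Bs) (hW : F ⊆ G.ins W)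
    (hno : ∀ B ∈ Bs, Disjoint F (G.tch B)) : G.As Fm W F := by
  intro S hS hSW hs
  obtain ⟨B, hb, hSB⟩ := hB.2.2 S hS hSW (by simpa using hs.trans hW)
  have h4 := (hF.1 S hS).2.1.1
  obtain ⟨e, he⟩ : (G.cut S).Nonempty := card_pos.1 (by omega)
  have h1 := SpCase_ie he
  exact disjoint_left.1 (hno B hb) (hs he) (Cut_tch (mem_cut.1 he).1 h1.2 (hSB h1.1))

/-- the circuit through a vertex of the join -/
theorem SpCase_fv (hc : G.Cub) (hT : G.HT T) (hF : G.FF Fm T) (h : G.SPS T W Hh Hs Ds)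
    (hB : G.Bx Fm W ∅ Bs) (hj : G.Tj W (G.ends (Hh ∪ Hs)) F)
    (hno : ∀ B ∈ Bs, Disjoint F (G.tch B)) {v : V} (hv : v ∈ G.uf W (G.ends (Hh ∪ Hs)) F) :
    ∃ n N e, G.Fc W (Hh ∪ Hs) Bs Ds F n N e ∧ v ∈ N 0 ∧ N 0 ⊆ W ∧ (N 0 ∈ Ds ∨ N 0 = {v}) := by
  have hvW := (mem_inter.1 hv).1
  have hZ : F ∪ G.ends (Hh ∪ Hs) ⊆ G.A :=
    union_subset (hj.1.trans ins_sub_A) (h.ends_sub.1.trans GNorm_cutA)
  obtain ⟨f, hf, ha⟩ := mem_vs.1 (mem_inter.1 hv).2
  have hvB : ∀ B ∈ Bs, v ∉ B := fun B hb hm => by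
    rcases mem_union.1 hf with h1 | h1
    · exact disjoint_left.1 (hno B hb) h1 (Cut_tch (hZ hf) ha hm)
    · exact hB.not_mem hb (h.ends_sub.1 h1) (notMem_empty _) ha hm
  have hp := h.pd_all hc hF hB
  have hp2 : PD (Bs ∪ Ds) := hp.1.mono subset_union_left
  have hn := hp.2.2 v hvW
  have hcase : nd (Bs ∪ Ds) v ∈ Ds ∨ nd (Bs ∪ Ds) v = {v} := by
    rcases nd_cases hp2 v with h1 | h1
    · rcases mem_union.1 h1 with h2 | h2
      · exact absurd mem_nd_self (hvB _ h2)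
      · exact Or.inl h2
    · exact Or.inr h1.2
  have hsub : nd (Bs ∪ Ds) v ⊆ W := by
    rcases hcase with h1 | h1
    · exact (h.vd.2 _ h1).1
    · rw [h1]; simpa using hvW
  have hins : ∀ x ∈ G.ins (nd (Bs ∪ Ds) v), ∀ y ∈ G.ins (nd (Bs ∪ Ds) v), x = y := by
    rcases hcase with h1 | h1
    · obtain ⟨u, w, m, a, b, c, d, -, -, h2, -⟩ := (h.vd.2 _ h1).str hc hT h.sub
      rw [h2]
      intro x hx y hy
      rw [mem_singleton.1 hx, mem_singleton.1 hy]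
    · rw [h1, (hT.vtx hc (h.sub hvW)).2.1]
      intro x hx
      exact absurd hx (notMem_empty _)
  obtain ⟨f', hf', hne, ha'⟩ := SpCase_two hf ha
    (hT.noloop hc (Cut_tch (hZ hf) ha (h.sub hvW))) (hj.2 v hvW)
  have hor : ∀ x ∈ F ∪ G.ends (Hh ∪ Hs), G.At x v → x ∉ G.cut (nd (Bs ∪ Ds) v) →
      x ∈ G.ins (nd (Bs ∪ Ds) v) := fun x hx hax hc' => by
    have h1 : G.s x ∈ nd (Bs ∪ Ds) v ↔ G.t x ∈ nd (Bs ∪ Ds) v := by
      by_contra h2
      exact hc' (mem_cut.2 ⟨hZ hx, h2⟩)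
    have h3 : v ∈ nd (Bs ∪ Ds) v := mem_nd_self
    rcases hax with h2 | h2
    · have h4 : G.s x ∈ nd (Bs ∪ Ds) v := h2.symm ▸ h3
      exact mem_ins.2 ⟨hZ hx, h4, h1.1 h4⟩
    · have h4 : G.t x ∈ nd (Bs ∪ Ds) v := h2.symm ▸ h3
      exact mem_ins.2 ⟨hZ hx, h1.2 h4, h4⟩
  obtain ⟨g, hg, hg'⟩ : ∃ g ∈ F ∪ G.ends (Hh ∪ Hs), g ∈ G.cut (nd (Bs ∪ Ds) v) := by
    by_contra hcon
    push Not at hcon
    exact hne (hins _ (hor _ hf' ha' (hcon _ hf')) _ (hor _ hf ha (hcon _ hf)))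
  obtain ⟨n, N, e, hC, h0, -⟩ := fc_exists hc hT hF h hB hj (SpCase_as hF hB hj.1 hno) (v := v)
    (f := g) (mem_union_left _ hvW) hg (by rw [hn]; exact hg')
  rw [hn] at h0
  exact ⟨n, N, e, hC, by rw [h0]; exact mem_nd_self, by rw [h0]; exact hsub,
    by rw [h0]; exact hcase⟩

/-- The join passes a box.
HINT: first the case that some box is passed by a pair that is not `Qd`: `norm_join`,
`fc_exists` at the box (the two edges `e 0`, `e 1` are the pair; `Qd.symm`), `sp_close` with the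
third or the fourth reason.  Otherwise `diag`; in its first case the last reason applies
(`Q4.swap1`). -/
theorem sp_case_a (hc : G.Cub) (hT : G.HT T) (hF : G.FF Fm T) (hK : G.KB T) (hR : G.RPA T)
    (h : G.SPS T W Hh Hs Ds) (hB : G.Bx Fm W ∅ Bs) (hI : G.SPI Fm T W)
    (hq : G.Tq W (G.ends (Hh ∪ Hs)) Bs F) (hne : ∃ B ∈ Bs, (F ∩ G.cut B).card = 2) :
    G.SPc Fm W Hh Hs Ds := by
  by_cases hn : ∃ B ∈ Bs, ∃ a b, a ≠ b ∧ F ∩ G.cut B = {a, b} ∧ ¬ G.Qd B a b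
  · exact SpCase_nq hc hT hF hK hR h hB hI hq hn
  have hQ : ∀ B ∈ Bs, ∀ a b, a ≠ b → F ∩ G.cut B = {a, b} → G.Qd B a b :=
    fun B hb a b h1 h2 => by
      by_contra h3
      exact hn ⟨B, hb, a, b, h1, h2, h3⟩
  rcases diag hc hT h.sub h.ends_sub.1 hB.2.1 (SpCase_box hF hB) hq hne hQ with
    ⟨B, hb, a, b, g, g', h4, hab, Y, hY, hd, hcr⟩ | ⟨F', hq', hn'⟩
  · obtain ⟨F', n, N, e, hj, hA, hC, h0, h1, h2⟩ := SpCase_fc hc hT hF h hB hq hb hab
    refine sp_close hc hT hF hK hR h hB hj hA hC hI (Or.inr (Or.inr ?_))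
    by_cases hh : ∃ i ≤ n, N i ∈ Hh
    · refine Or.inr ⟨hh, Or.inr (Or.inr (Or.inr ⟨Y, hY, h0 ▸ hd, g, g', by rw [hcr]; simp,
        hcr.subset, Or.inr ?_⟩))⟩
      rw [h0, h1, h2]
      exact ⟨hb, hQ B hb a b h4.2.1 hab, h4⟩
    · exact Or.inl ⟨fun i hi hm => hh ⟨i, hi, hm⟩, 0, Nat.zero_le _, h0 ▸ hb⟩
  · exact SpCase_nq hc hT hF hK hR h hB hI hq' hn'

/-- some end of a hard digon is joined inside `W` to a live edge -/
theorem SpCase_live (h : G.SPS T W Hh Hs Ds) (hne : Hh.Nonempty) :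
    ∃ N0 ∈ Hh, ∃ e0 ∈ G.cut N0, ∃ y l, G.Rch (G.ins W) (G.ie W e0) y ∧ y ∈ W ∧ l ∈ G.cut W ∧
      G.At l y ∧ l ∉ G.ends Hh := by
  classical
  by_contra hcon
  obtain ⟨N1, hN1⟩ := hne
  have hdj : ∀ N ∈ Hh, Disjoint N W := fun N hN =>
    (h.dg N (mem_union_left _ hN)).2.1.mono_right h.sub
  obtain ⟨D, hD⟩ : ∃ D : Finset V, ∀ y, y ∈ D ↔
      y ∈ W ∧ ∃ N ∈ Hh, ∃ e ∈ G.cut N, G.Rch (G.ins W) (G.ie W e) y :=
    ⟨W.filter fun y => ∃ N ∈ Hh, ∃ e ∈ G.cut N, G.Rch (G.ins W) (G.ie W e) y,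
      fun y => mem_filter⟩
  obtain ⟨u, hu⟩ : N1.Nonempty := by
    obtain ⟨u, v, e1, e2, -, h2, -⟩ := (h.dg N1 (mem_union_left _ hN1)).1
    exact ⟨u, by rw [h2]; simp⟩
  obtain ⟨f, hf⟩ := h.inv (D ∪ Hh.biUnion id)
    (union_subset_union (fun y hy => ((hD y).1 hy).1) Subset.rfl)
    ⟨u, mem_union_right _ (mem_biUnion.2 ⟨N1, hN1, hu⟩)⟩
  have hA := (mem_cut.1 hf).1
  have hi := ie_mem (cut_sub_tch hf)
  have ho := oe_not_mem hf
  have hj := je_ie_oe (G := G) (X := D ∪ Hh.biUnion id) (e := f)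
  generalize G.ie (D ∪ Hh.biUnion id) f = a at hi hj
  generalize G.oe (D ∪ Hh.biUnion id) f = b at ho hj
  have hb : ∀ N ∈ Hh, b ∉ N := fun N hN k =>
    ho (mem_union_right _ (mem_biUnion.2 ⟨N, hN, k⟩))
  rcases mem_union.1 hi with k | k
  · obtain ⟨k1, N, k2, e, k3, k4⟩ := (hD a).1 k
    by_cases hbW : b ∈ W
    · exact ho (mem_union_left _ ((hD b).2 ⟨hbW, N, k2, e, k3,
        k4.tail (adj_iff.2 ⟨f, Cut_je_ins hA hj k1 hbW, hj⟩)⟩))
    · refine hcon ⟨N, k2, e, k3, a, f, k4, k1, (Node_cut hA hj k1 hbW).1,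
        hj.at_iff.2 (.inl rfl), fun k5 => ?_⟩
      obtain ⟨N', k6, k7⟩ := mem_biUnion.1 k5
      rcases hj.at_iff.1 (ie_at (G := G) (X := N') (e := f)) with k8 | k8
      · exact disjoint_left.1 (hdj N' k6) (k8 ▸ ie_mem (cut_sub_tch k7)) k1
      · exact hb N' k6 (k8 ▸ ie_mem (cut_sub_tch k7))
  · obtain ⟨N, k1, k2⟩ := mem_biUnion.1 k
    have k3 := (Node_cut hA hj k2 (hb N k1)).1
    have k4 := (h.dg N (mem_union_left _ k1)).2.2 k3
    have k5 := ie_mem (cut_sub_tch k4)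
    rcases hj.at_iff.1 (ie_at (G := G) (X := W) (e := f)) with k8 | k8
    · exact disjoint_left.1 (hdj N k1) k2 (k8 ▸ k5)
    · exact ho (mem_union_left _ ((hD b).2 ⟨k8 ▸ k5, N, k1, f, k3, k8 ▸ Rch.refl _ _⟩))

/-- The join avoids the boxes and there is no soft digon.
HINT: `As` holds because a dangerous side with its cut inside `W` lies in a box.  Let `x` be an
end of a hard digon and `y` the vertex with a live edge given by `SpCase_live`.  Induction on the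
size of the component of `y` in `W \ uf`.  If `y ∈ uf`: `fc_exists` at `y`, `Fc.has_dg`, the node
of `y` is a rung or a vertex with a live edge.  Otherwise `toggle`: a bridge (`fc_exists` at `v`,
first or last reason, `HT.third`), `sp_case_a`, or the induction hypothesis. -/
theorem sp_case_b (hc : G.Cub) (hT : G.HT T) (hF : G.FF Fm T) (hK : G.KB T) (hR : G.RPA T)
    (h : G.SPS T W Hh ∅ Ds) (hB : G.Bx Fm W ∅ Bs) (hI : G.SPI Fm T W) (hne : Hh.Nonempty)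
    (hj : G.Tj W (G.ends (Hh ∪ ∅)) F) (hA : G.Acy F) (hno : ∀ B ∈ Bs, Disjoint F (G.tch B)) :
    G.SPc Fm W Hh ∅ Ds := by
  obtain ⟨N0, hN0, e0, he0, y, l, hr, hy, hl, hly, hle⟩ := SpCase_live h hne
  have hd0 := h.dg N0 (mem_union_left _ hN0)
  have hx := SpCase_ie (hd0.2.2 he0)
  have hxu : ∀ F : Finset E, G.ie W e0 ∈ G.uf W (G.ends (Hh ∪ ∅)) F := fun F =>
    mem_inter.2 ⟨hx.1, mem_vs.2 ⟨e0, mem_union_right _
      (mem_biUnion.2 ⟨N0, mem_union_left _ hN0, he0⟩), hx.2⟩⟩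
  have hyB : ∀ B ∈ Bs, y ∉ B := fun B hb => hB.not_mem hb hl (notMem_empty _) hly
  have hard : ∀ {F : Finset E} {n : ℕ} {N : ℕ → Finset V} {e : ℕ → E},
      G.Tj W (G.ends (Hh ∪ ∅)) F → G.Acy F → (∀ B ∈ Bs, Disjoint F (G.tch B)) →
      G.Fc W (Hh ∪ ∅) Bs Ds F n N e → ∃ i ≤ n, N i ∈ Hh := fun hj hA hno hC => by
    simpa using hC.has_dg hc hT hF h hB hj hA hno
  have base : ∀ F : Finset E, G.Tj W (G.ends (Hh ∪ ∅)) F → G.Acy F →
      (∀ B ∈ Bs, Disjoint F (G.tch B)) → y ∈ G.uf W (G.ends (Hh ∪ ∅)) F →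
      G.SPc Fm W Hh ∅ Ds := fun F hj hA hno hu => by
    obtain ⟨n, N, e, hC, h1, h2, -⟩ := SpCase_fv hc hT hF h hB hj hno hu
    refine sp_close hc hT hF hK hR h hB hj (SpCase_as hF hB hj.1 hno) hC hI
      (Or.inr (Or.inr (Or.inr ⟨hard hj hA hno hC, Or.inr (Or.inl
        ⟨0, Nat.zero_le _, l, hl, by simpa using hle, ?_⟩)⟩)))
    have h3 := mem_cut.1 hl
    refine mem_cut.2 ⟨h3.1, fun h4 => h3.2 ?_⟩
    rcases hly with h5 | h5
    · have h6 : G.s l ∈ N 0 := h5.symm ▸ h1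
      exact iff_of_true (h2 h6) (h2 (h4.1 h6))
    · have h6 : G.t l ∈ N 0 := h5.symm ▸ h1
      exact iff_of_true (h2 (h4.2 h6)) (h2 h6)
  have main : ∀ k : ℕ, ∀ F : Finset E, (G.cmp (W \ G.uf W (G.ends (Hh ∪ ∅)) F) y).card < k →
      G.Tj W (G.ends (Hh ∪ ∅)) F → G.Acy F → (∀ B ∈ Bs, Disjoint F (G.tch B)) →
      G.SPc Fm W Hh ∅ Ds := by
    intro k
    induction k with
    | zero => intro F hk; exact absurd hk (Nat.not_lt_zero _)
    | succ k ih =>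
      intro F hk hj hA hno
      by_cases hu : y ∈ G.uf W (G.ends (Hh ∪ ∅)) F
      · exact base F hj hA hno hu
      have hat : (G.crs (G.ins W) (G.cmp (W \ G.uf W (G.ends (Hh ∪ ∅)) F) y)).Nonempty := by
        by_contra hcon
        have h1 : G.ie W e0 ∈ G.cmp (W \ G.uf W (G.ends (Hh ∪ ∅)) F) y := by
          refine hr.symm.closed (P := fun v => v ∈ G.cmp (W \ G.uf W (G.ends (Hh ∪ ∅)) F) y)
            (fun e he => ?_) ?_
          · by_contra h2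
            exact hcon ⟨e, mem_crs.2 ⟨he, h2⟩⟩
          · classical
            exact mem_filter.2 ⟨mem_sdiff.2 ⟨hy, hu⟩, Rch.refl _ _⟩
        classical
        exact (mem_sdiff.1 (mem_filter.1 h1).1).2 (hxu F)
      rcases toggle hc hT h.sub h.ends_sub.1 hB.2.1 (SpCase_box hF hB) hj hA hno hy hu hyB hat with
        ⟨v, hv, g, Y, hY, hvY, hcr, hgv, hgF⟩ | ⟨F', hq', h2 | ⟨hj', hA', hno', h3 | h3⟩⟩
      · obtain ⟨n, N, e, hC, h1, h2, h3 | h3⟩ := SpCase_fv hc hT hF h hB hj hno hv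
        · exact sp_close hc hT hF hK hR h hB hj (SpCase_as hF hB hj.1 hno) hC hI
            (Or.inl ⟨0, Nat.zero_le _, h3⟩)
        have hvT := h.sub (h2 h1)
        have hg : g ∈ G.crs (G.ins W) Y := by rw [hcr]; simp
        have hgi := (mem_crs.1 hg).1
        have hgA := ins_sub_A hgi
        have t := hC.1.2.2 0 (Nat.zero_le _)
        rw [h3] at t
        obtain ⟨g0, hq⟩ := hT.third hc hvT t.1 t.2.1 t.2.2
        have hgc : g ∈ G.cut {v} :=
          (mem_cut_single (hT.noloop hc (Cut_tch hgA hgv hvT))).2 ⟨hgA, hgv⟩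
        have hne : ∀ i ≤ n, g ≠ e i := fun i hi h4 => by
          rcases mem_union.1 (hC.2.2.2.1 i hi) with h5 | h5
          · exact hgF (h4 ▸ h5)
          · have h6 := mem_cut.1 (h.ends_sub.1 h5)
            have h7 := mem_ins.1 hgi
            rw [← h4] at h6
            exact h6.2 (iff_of_true h7.2.1 h7.2.2)
        have hg0 : g = g0 := by
          rw [hq.1] at hgc
          rcases mem_insert.1 hgc with h4 | h4
          · exact absurd h4 (hne 0 (Nat.zero_le _))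
          rcases mem_insert.1 h4 with h4 | h4
          · exact absurd h4 (hne 1 hC.2.1)
          · exact mem_singleton.1 h4
        refine sp_close hc hT hF hK hR h hB hj (SpCase_as hF hB hj.1 hno) hC hI
          (Or.inr (Or.inr (Or.inr ⟨hard hj hA hno hC, Or.inr (Or.inr (Or.inr
            ⟨Y, hY, ?_, g, g, hg, by rw [hcr]; simp, Or.inl ⟨v, h3, rfl, hg0 ▸ hq⟩⟩))⟩)))
        rw [h3]
        exact disjoint_singleton_right.2 hvY
      · exact sp_case_a hc hT hF hK hR h hB hI hq' h2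
      · exact base F' hj' hA' hno' h3
      · exact ih F' (by have := card_lt_card h3; omega) hj' hA' hno'
  exact main _ F (Nat.lt_succ_self _) hj hA hno

/-- HINT: strong induction on `W.card`; `FF.boxes`.  No digon: `CS W`.  A soft digon:
`fc_exists` at it, second reason.  Otherwise `Tj.tq`, `sp_case_a`, or `Tj.acy` and `sp_case_b`
(the part of an acyclic join inside an untouched box is even, hence empty). -/
theorem spw (hc : G.Cub) (hT : G.HT T) (hF : G.FF Fm T) (hK : G.KB T) (hR : G.RPA T)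
    (h : G.SPS T W Hh Hs Ds) (hj : G.Tj W (G.ends (Hh ∪ Hs)) F) (hA : G.As Fm W F) :
    G.SPc Fm W Hh Hs Ds := by
  have main : ∀ k : ℕ, ∀ W : Finset V, W.card < k → ∀ Hh Hs Ds F, G.SPS T W Hh Hs Ds →
      G.Tj W (G.ends (Hh ∪ Hs)) F → G.As Fm W F → G.SPc Fm W Hh Hs Ds := by
    intro k
    induction k with
    | zero => intro W hk; exact absurd hk (Nat.not_lt_zero _)
    | succ k ih =>
      intro W hk Hh Hs Ds F h hj hA
      have hI : G.SPI Fm T W := fun W' hW' => ih W' (by have := card_lt_card hW'; omega)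
      obtain ⟨Bs, hB⟩ := hF.boxes W
      rcases Hs.eq_empty_or_nonempty with rfl | ⟨N0, hN0⟩
      · rcases Hh.eq_empty_or_nonempty with rfl | hne
        · have hvd := h.vd
          have e0 : G.ends ((∅ : Finset (Finset V)) ∪ ∅) = ∅ := by simp [ends]
          rw [e0] at hvd
          obtain ⟨ε, O, -, h1, -, h2⟩ := (hK W h.sub).2.2.2.2.2.2.1 Ds hvd
          obtain ⟨φ, -, h3, h4, h5⟩ := h2 (fun _ => 1) (fun _ _ _ _ => one_ne_zero) trivial
          refine ⟨O, φ, e0.symm ▸ h1, ⟨h3, h4, fun t ht => h5 t ?_⟩, by simp, by simp⟩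
          rcases ht with ⟨S, hS, h6⟩ | h6
          · exact Or.inl ⟨S, (hF.1 S hS).2.1, h6⟩
          · exact Or.inr h6
        have hq := hj.tq hF hB h.ends_sub.1 hA
        by_cases h2 : ∃ B ∈ Bs, (F ∩ G.cut B).card = 2
        · exact sp_case_a hc hT hF hK hR h hB hI hq h2
        obtain ⟨F', hs, hj', hA'⟩ := hj.acy h.ends_sub.1
        refine sp_case_b hc hT hF hK hR h hB hI hne hj' hA' fun B hb => ?_
        have h0 : F ∩ G.cut B = ∅ :=
          card_eq_zero.1 ((hq.2.2 B hb).resolve_right fun h3 => h2 ⟨B, hb, h3⟩)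
        have hin : ∀ f ∈ F', f ∈ G.tch B → f ∈ F' ∩ G.ins B := fun f hf ht => by
          have h3 : f ∉ G.cut B := fun h4 => by
            have : f ∈ F ∩ G.cut B := mem_inter.2 ⟨hs hf, h4⟩
            rw [h0] at this
            exact notMem_empty _ this
          have h4 := mem_tch.1 ht
          have h5 : G.s f ∈ B ↔ G.t f ∈ B := by
            by_contra h6
            exact h3 (mem_cut.2 ⟨h4.1, h6⟩)
          exact mem_inter.2 ⟨hf, mem_ins.2 ⟨h4.1, by tauto, by tauto⟩⟩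
        have hev : G.Ev (F' ∩ G.ins B) := fun v => by
          by_cases hv : v ∈ B
          · rw [← hj'.2 v ((hB.1 B hb).2.1 hv)]
            refine SpCase_dg (inter_subset_left.trans subset_union_left) fun f hf ha => ?_
            rcases mem_union.1 hf with h3 | h3
            · exact hin f h3 (Cut_tch (ins_sub_A (hj'.1 h3)) ha hv)
            · exact absurd hv (hB.not_mem hb (h.ends_sub.1 h3) (notMem_empty _) ha)
          · refine dg_of_not_mem fun h3 => hv ?_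
            exact (sub_ins_iff.1 inter_subset_right).2 h3
        have h3 := hA' _ inter_subset_left hev
        refine disjoint_left.2 fun f hf ht => ?_
        have := hin f hf ht
        rw [h3] at this
        exact notMem_empty _ this
      · have hm : N0 ∈ Hh ∪ Hs := mem_union_right _ hN0
        have hd0 := h.dg N0 hm
        obtain ⟨e0, he0⟩ : (G.cut N0).Nonempty := by
          obtain ⟨u, v, e1, e2, -, -, -, -, -, -, -, h2⟩ := hd0.1
          exact card_pos.1 (by omega)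
        have hx := SpCase_ie he0
        have hn : nd (Bs ∪ Ds ∪ (Hh ∪ Hs)) (G.ie N0 e0) = N0 :=
          nd_of_mem (h.pd_all hc hF hB).1 (mem_union_right _ hm) hx.1
        obtain ⟨n, N, e, hC, h0, -⟩ := fc_exists hc hT hF h hB hj hA (v := G.ie N0 e0) (f := e0)
          (mem_union_right _ (mem_biUnion.2 ⟨N0, hm, hx.1⟩))
          (mem_union_right _ (mem_biUnion.2 ⟨N0, hm, he0⟩)) (by rw [hn]; exact he0)
        rw [hn] at h0
        exact sp_close hc hT hF hK hR h hB hj hA hC hI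
          (Or.inr (Or.inl ⟨0, Nat.zero_le _, h0 ▸ hN0⟩))
  exact main _ W (Nat.lt_succ_self _) Hh Hs Ds F h hj hA

end SG

end Pool.Agent.Work.MP_8c679b_co
end

-- merged part: Pool.Agent.Work.MP_8c679b_co.Top.PAbs
section
/-!
Absorbing all circuits of the join that pass a three-side.
-/

set_option autoImplicit false

namespace Pool.Agent.Work.MP_8c679b_co

open Finset

namespace SG

variable {V E : Type} [Fintype V] [DecidableEq V] [DecidableEq E] {G : SG V E}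
  {W NX X : Finset V} {Ts Hh Bs Ds : Finset (Finset V)} {Fm : Set (Finset V)} {F O : Finset E}
  {ex : Finset V → E} {K : Set (Finset E)} {n : ℕ} {N : ℕ → Finset V} {e : ℕ → E}

/-- A circuit through a three-side closes.
HINT: `Hd` = the indices of the digons (`0 ∉ Hd`).  Empty: `C0 = P (1 + ∑ signs)`, `Rl.cl_odd`;
even and nonempty: `Rl.cl_hard`; odd: `C0 = Gd`, `Rl.cl_gd` (compare `sp_close`).  `run_abs` with
`L = ∅`. -/
theorem ring_close (hc : G.Cub) (h : G.PSu W Ts Hh Fm F ex)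
    (hB : G.Bx Fm W ((F ∪ G.ends Hh) ∩ G.cut W) Bs)
    (hR : G.Rng (W ∪ Ts.biUnion id ∪ Hh.biUnion id) (Bs ∪ Ts ∪ Hh) (F ∪ G.ends Hh) n N e)
    (h0 : N 0 ∈ Ts) :
    ∃ (Xs : ℕ → Finset V) (Os : ℕ → Finset E) (Ks : ℕ → Set (Finset E)),
      G.Abs0 (bu n Xs) (bu n Os) ∅ (ku n Ks) ∧ ∀ i ≤ n, Xs i ⊆ N i ∧
      G.NP W Bs ∅ (N i) (e i) (e (i + 1)) (Xs i) (Ks i) ∧
      (N i ∈ Hh → Xs i = N i ∧ G.cut (N i) ∈ Ks i) ∧
      (N i ∈ Ts → Xs i = N i ∧ G.Kt (N i) (G.cut (N i)) ⊆ Ks i) ∧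
      G.St (Xs i) (Os i) {e i, e (i + 1)} := by
  have h0H : N 0 ∉ Hh := disjoint_left.1 (h.nodes hB).2.2.2.1 h0
  obtain ⟨C0, hC, hcl⟩ : ∃ C0 : Rl → Prop, ((∃ σ, C0 = Rl.P σ) ∨ C0 = Rl.Gd) ∧
      ∀ Rs : ℕ → Rl, C0 (Rs 0) → (∀ i ≤ n, N i ∈ Hh → (Rs i).X0) →
        (∀ i ≤ n, i ≠ 0 → N i ∉ Hh → (Rs i).P 0) → Rl.Cl (fun i => G.n (e i)) Rs n := by
    have hm : ∀ i, i ∈ (range (n + 1)).filter (fun i => N i ∈ Hh) ↔ i ≤ n ∧ N i ∈ Hh := by
      intro i
      rw [mem_filter, mem_range, Nat.lt_succ_iff]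
    rcases Nat.even_or_odd ((range (n + 1)).filter fun i => N i ∈ Hh).card with he | ho
    · rcases ((range (n + 1)).filter fun i => N i ∈ Hh).eq_empty_or_nonempty with hE | hE
      · refine ⟨_, .inl ⟨1 + ∑ i ∈ range (n + 1), G.n (e i), rfl⟩, fun Rs a _ c =>
          Rl.cl_odd (s := fun i => if i = 0 then 1 + ∑ i ∈ range (n + 1), G.n (e i) else 0)
            (fun i hi => ?_) ?_⟩
        · by_cases k : i = 0
          · subst k
            exact a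
          · rw [if_neg k]
            exact c i hi k fun k' => notMem_empty i (hE ▸ (hm i).2 ⟨hi, k'⟩)
        · rw [sum_add_distrib, sum_ite_eq', if_pos (mem_range.2 n.succ_pos), add_assoc,
            z2_add_self, add_zero]
      · refine ⟨_, .inl ⟨0, rfl⟩, fun Rs a b c => Rl.cl_hard (filter_subset _ _) hE
          (fun i k => b i ((hm i).1 k).1 ((hm i).1 k).2) (fun i hi k => ⟨0, ?_⟩) he⟩
        by_cases k' : i = 0
        · exact k' ▸ a
        · exact c i hi k' fun k2 => k ((hm i).2 ⟨hi, k2⟩)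
    · exact ⟨_, .inr rfl, fun Rs a b c => Rl.cl_gd (filter_subset _ _)
        (fun i k => b i ((hm i).1 k).1 ((hm i).1 k).2) n.zero_le (fun k => h0H ((hm 0).1 k).2) a
        (fun i hi k k' => ⟨0, c i hi k' fun k2 => k ((hm i).2 ⟨hi, k2⟩)⟩) ho⟩
  obtain ⟨Xs, Os, Ks, hk⟩ := ring_pass hc h hB hR h0 hC
  refine ⟨Xs, Os, Ks, (run_abs (fun i hi => (hk i hi).1.trans (hR.1.1 i hi))
    (fun i hi j hj hij => (hR.1.2.1 i hi j hj hij).mono (hk i hi).1 (hk j hj).1) (empty_subset _)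
    (fun i hi => (hk i hi).2.2.2.2) hR.2.1 hR.2.2.1 fun Rs hs => hcl Rs ((hs 0 n.zero_le).1 rfl)
      (fun i hi k => (hs i hi).2.1 (fun k' => h0H (k' ▸ k)) k) fun i hi => (hs i hi).2.2).1,
    fun i hi => ?_⟩
  obtain ⟨a, b, c, d, f⟩ := hk i hi
  exact ⟨a, b, c, d, f.2.1⟩

omit [Fintype V] [DecidableEq E] in
theorem PAbs_eq {Ns : Finset (Finset V)} (hP : PD Ns) {M M' : Finset V} (hM : M ∈ Ns) {v x : V}
    (hv : M' = nd Ns v) (h1 : x ∈ M) (h2 : x ∈ M') : M' = M := by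
  rw [hv, ← (nd_eq_iff hP).2 (hv ▸ h2), nd_of_mem hP hM h1]

theorem PAbs_end {M : Finset V} {f : E} (h1 : f ∈ G.ins NX) (h2 : f ∈ G.cut M) :
    ¬ Disjoint M NX := fun k => by
  refine disjoint_left.1 k (ie_mem (cut_sub_tch h2)) ?_
  rcases ie_at (G := G) (X := M) (e := f) with a | a <;> rw [← a]
  exacts [(mem_ins.1 h1).2.1, (mem_ins.1 h1).2.2]

/-- HINT: `ring_close`, `bs_run`.  `nn`: two nodes are equal or disjoint (`nd_of_mem`,
`nd_eq_iff`).  `cl`: as `SpState_stay`.  Every `N i` lies in `W` or is a member of `Ts ∪ Hh`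
(`PSu.nodes`), so an edge of `cut W` at `N i` leaves `N i`; if it is in the join it is `e i` or
`e (i + 1)`.  A member of `Ts ∪ Hh` inside `bu n N` is some `N i`. -/
theorem ring_abs (hc : G.Cub) (h : G.PSu W Ts Hh Fm F ex)
    (hB : G.Bx Fm W ((F ∪ G.ends Hh) ∩ G.cut W) Bs)
    (hR : G.Rng (W ∪ Ts.biUnion id ∪ Hh.biUnion id) (Bs ∪ Ts ∪ Hh) (F ∪ G.ends Hh) n N e)
    (h0 : N 0 ∈ Ts) : ∃ X O K, G.PAb W Ts Hh Bs (F ∪ G.ends Hh) (bu n N) X O K := by
  obtain ⟨hP, -, -, -, hM, hW, -⟩ := h.nodes hB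
  obtain ⟨Xs, Os, Ks, hA, hk⟩ := ring_close hc h hB hR h0
  obtain ⟨⟨t1, t2, t3⟩, r1, r2, r3, r4, r5⟩ := hR
  have hcut : ∀ i ≤ n, ∀ f ∈ G.tch (N i), f ∈ G.cut W → f ∈ G.cut (N i) := by
    intro i hi f a b
    obtain ⟨v, hv, c⟩ := r5 i hi
    have k : ∀ M ∈ Bs ∪ Ts ∪ Hh, v ∈ M → Disjoint M W → f ∈ G.cut (N i) := fun M x y z =>
      (Ab_link (by rwa [c, nd_of_mem hP x y]) a (cut_sub_tch b)).1
    rcases mem_union.1 hv with d | d
    · rcases mem_union.1 d with d | d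
      · exact (cut_of_sub (c ▸ (hW v d).2) b a).1
      · obtain ⟨M, x, y⟩ := mem_biUnion.1 d
        exact k M (mem_union_left _ (mem_union_right _ x)) y (h.t3 M x).2.2.1
    · obtain ⟨M, x, y⟩ := mem_biUnion.1 d
      exact k M (mem_union_right _ x) y ((h.dg M x).2.1.mono_right subset_union_left)
  have hO : ∀ i ≤ n, ∀ f ∈ F ∪ G.ends Hh, f ∈ G.cut (N i) → f ∈ bu n Os := by
    intro i hi f a b
    refine SpState_bu hi (Run_J (hk i hi).2.2.2.2 ?_).1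
    rcases r4 i hi f a b with rfl | rfl
    exacts [mem_insert_self _ _, mem_insert_of_mem (mem_singleton_self _)]
  have hN : ∀ M ∈ Bs ∪ Ts ∪ Hh, ¬ Disjoint M (bu n N) → ∃ i ≤ n, N i = M := by
    intro M a b
    obtain ⟨x, c, d⟩ := not_disjoint_iff.1 b
    obtain ⟨i, hi, d⟩ := mem_bu.1 d
    obtain ⟨v, -, hv⟩ := r5 i hi
    exact ⟨i, hi, PAbs_eq hP a hv c d⟩
  have hN' : ∀ M ∈ Bs ∪ Ts ∪ Hh, M ⊆ bu n N → ∃ i ≤ n, N i = M := fun M a b =>
    hN M a fun c => (hM M a).2.ne_empty (disjoint_self.1 (c.mono_right b))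
  refine ⟨bu n Xs, bu n Os, ku n Ks, SpState_mono fun i hi => (hk i hi).1, fun x a => ?_,
    fun M a => ?_, fun f a b => ?_, hA, ?_, fun f a b c => ?_, fun f a b => ?_,
    fun T a b => ?_, fun D a b => ?_⟩
  · obtain ⟨i, hi, b⟩ := mem_bu.1 a
    exact t1 i hi b
  · refine (em _).symm.imp_left fun b => ?_
    obtain ⟨i, hi, rfl⟩ := hN M a b
    exact SpState_bu hi
  · have h6 := SpState_ins t2 r1 r2 fun i hi => ⟨(t3 i hi).1, (t3 i hi).2.1⟩
    obtain ⟨i, hi, c⟩ := Run_tch_bu.1 b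
    rcases mem_tch_iff.1 c with d | d
    · exact ins_mono (SpState_bu hi) d
    · rcases r4 i hi f a d with rfl | rfl
      · exact h6 i (by omega)
      · exact h6 (i + 1) (by omega)
  · exact bs_run (by rw [union_empty]; exact hB.2.1) (disjoint_empty_right _)
      (fun _ a => absurd a (notMem_empty _)) (fun _ => True) t2
      (fun i hi _ => ⟨(hk i hi).1, (hk i hi).2.1⟩) (fun _ _ a => absurd trivial a)
      fun B a => (hB.1 B a).2.1
  · obtain ⟨i, hi, d⟩ := Run_tch_bu.1 b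
    exact hO i hi f a (hcut i hi f d c)
  · obtain ⟨i, hi, c⟩ := mem_bu.1 a
    obtain ⟨k1, -, -, -, k2⟩ := hk i hi
    have d := (cut_of_sub k1 (hcut i hi f (tch_mono k1 (k2.1 c)) b) (k2.1 c)).1
    have k3 : f ∈ ({e i, e (i + 1)} : Finset E) := k2.2.2 ▸ mem_inter.2 ⟨c, d⟩
    rcases mem_insert.1 k3 with rfl | k3
    · exact r3 i hi
    · rw [mem_singleton.1 k3]
      rcases hi.eq_or_lt with rfl | k
      · exact r2 ▸ r3 0 (Nat.zero_le _)
      · exact r3 _ k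
  · obtain ⟨i, hi, rfl⟩ := hN' T (mem_union_left _ (mem_union_right _ a)) b
    obtain ⟨k1, k2⟩ := (hk i hi).2.2.2.1 a
    exact ⟨k1 ▸ SpState_bu hi, fun t k => ⟨i, hi, k2 k⟩⟩
  · obtain ⟨i, hi, rfl⟩ := hN' D (mem_union_right _ a) b
    obtain ⟨k1, k2⟩ := (hk i hi).2.2.1 a
    exact ⟨k1 ▸ SpState_bu hi, ⟨i, hi, k2⟩, fun f k =>
      hO i hi f (mem_union_right _ (SpState_ends.2 ⟨_, a, k⟩)) k⟩

/-- HINT: `Abs0.seq` with empty live sets.  A box that meets `X` lies in `NX`, so it is disjoint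
from `X'`; `BS` clause by clause. -/
theorem PAb.union {Z O' : Finset E} {NX' X' : Finset V} {K' : Set (Finset E)}
    (hn : ∀ M ∈ Bs ∪ Ts ∪ Hh, M.Nonempty) (h : G.PAb W Ts Hh Bs Z NX X O K)
    (h' : G.PAb W Ts Hh Bs Z NX' X' O' K') (hd : Disjoint NX NX') :
    G.PAb W Ts Hh Bs Z (NX ∪ NX') (X ∪ X') (O ∪ O') (K ∪ K') := by
  have k : ∀ M ∈ Bs ∪ Ts ∪ Hh, M ⊆ NX ∪ NX' → M ⊆ NX ∨ M ⊆ NX' := fun M a b =>
    (h.nn M a).imp_right fun c x d =>
      (mem_union.1 (b d)).resolve_left (disjoint_left.1 c d)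
  refine ⟨union_subset_union h.sub h'.sub, union_subset h.nx h'.nx, fun M a => ?_,
    fun f a b => ?_, (h.ab.seq h'.ab (hd.mono h.sub h'.sub) (fun _ a => absurd a (notMem_empty _))
      (fun _ a => absurd a (notMem_empty _)) fun _ a => absurd a (notMem_empty _)).1,
    ⟨inter_subset_right, fun B a => ?_, fun _ a => absurd a (notMem_empty _)⟩,
    fun f a b c => ?_, fun f a b => (mem_union.1 a).elim (fun c => h.oz f c b) fun c => h'.oz f c b,
    fun T a b => ?_, fun D a b => ?_⟩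
  · rcases h.nn M a with b | b
    · exact .inl (b.trans subset_union_left)
    · exact (h'.nn M a).imp (fun c => c.trans subset_union_right)
        fun c => disjoint_union_right.2 ⟨b, c⟩
  · rw [tch_union] at b
    rcases mem_union.1 b with c | c
    · exact ins_mono subset_union_left (h.cl f a c)
    · exact ins_mono subset_union_right (h'.cl f a c)
  · rw [disjoint_iff_inter_eq_empty, union_inter_distrib_right, inter_union_distrib_left]
    rcases h.nn B (mem_union_left _ (mem_union_left _ a)) with b | b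
    · rw [disjoint_iff_inter_eq_empty.1 (hd.mono b (inter_subset_left.trans h'.sub)), union_empty]
      refine (h.bs.2.1 B a).imp disjoint_iff_inter_eq_empty.1 ?_
      rintro ⟨a, b, c, d, k1, k2, k3⟩
      exact ⟨a, b, c, d, k1, k2, k3.trans Set.subset_union_left⟩
    · rw [disjoint_iff_inter_eq_empty.1 (b.mono_right (inter_subset_left.trans h.sub)),
        empty_union]
      refine (h'.bs.2.1 B a).imp disjoint_iff_inter_eq_empty.1 ?_
      rintro ⟨a, b, c, d, k1, k2, k3⟩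
      exact ⟨a, b, c, d, k1, k2, k3.trans Set.subset_union_right⟩
  · rw [tch_union] at b
    rcases mem_union.1 b with d | d
    · exact mem_union_left _ (h.lk f a d c)
    · exact mem_union_right _ (h'.lk f a d c)
  · rcases k T (mem_union_left _ (mem_union_right _ a)) b with c | c
    · exact (h.tt T a c).imp (fun d => d.trans subset_union_left)
        fun d => d.trans Set.subset_union_left
    · exact (h'.tt T a c).imp (fun d => d.trans subset_union_right)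
        fun d => d.trans Set.subset_union_right
  · rcases k D (mem_union_right _ a) b with c | c
    · obtain ⟨k1, k2, k3⟩ := h.hh D a c
      exact ⟨k1.trans subset_union_left, .inl k2, k3.trans subset_union_left⟩
    · obtain ⟨k1, k2, k3⟩ := h'.hh D a c
      exact ⟨k1.trans subset_union_right, .inr k2, k3.trans subset_union_right⟩

/-- HINT: induction along the circuit: if `N (i + 1)` meets `NX` then it lies in `NX` (a node of
the family by `nn`, or a single vertex), so `e (i + 1)` touches `NX` and its end in `N i` lies in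
`NX` by `cl`. -/
theorem PAb.off {Y : Finset V} {Z : Finset E} (hP : PD (Bs ∪ Ts ∪ Hh))
    (h : G.PAb W Ts Hh Bs Z NX X O K) (hR : G.Rng Y (Bs ∪ Ts ∪ Hh) Z n N e)
    (h0 : Disjoint (N 0) NX) : Disjoint NX (bu n N) := by
  obtain ⟨⟨-, -, t3⟩, -, -, r3, -, r5⟩ := hR
  have key : ∀ i ≤ n, Disjoint (N i) NX := by
    intro i
    induction i with
    | zero => exact fun _ => h0
    | succ i ih =>
      intro hi
      by_contra a
      obtain ⟨v, -, hv⟩ := r5 _ hi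
      have b : N (i + 1) ⊆ NX := by
        rcases nd_cases hP v with c | ⟨-, c⟩
        · exact (h.nn _ (hv ▸ c)).resolve_right a
        · rw [hv, c] at a ⊢
          exact singleton_subset_iff.2 (not_not.1 fun d => a (disjoint_singleton_left.2 d))
      exact PAbs_end (h.cl _ (r3 _ hi) (tch_mono b (cut_sub_tch (t3 _ hi).1)))
        (t3 i (by omega)).2.1 (ih (by omega))
  refine disjoint_left.2 fun x a b => ?_
  obtain ⟨i, hi, c⟩ := mem_bu.1 b
  exact disjoint_left.1 (key i hi) c a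

/-- HINT: induction on a subfamily of `Ts`, starting from the empty set (`abs0_empty`);
`ring_exists` (`PSu.nodes`, `PSu.deg`, `nd_of_mem`), `ring_abs`, `PAb.off`, `PAb.union`. -/
theorem pab_all (hc : G.Cub) (h : G.PSu W Ts Hh Fm F ex)
    (hB : G.Bx Fm W ((F ∪ G.ends Hh) ∩ G.cut W) Bs) :
    ∃ NX X O K, G.PAb W Ts Hh Bs (F ∪ G.ends Hh) NX X O K ∧
      ∀ T ∈ Ts, T ⊆ NX ∨ Disjoint (F ∪ G.ends Hh) (G.cut T) := by
  obtain ⟨hP, -, -, -, hM, -, hZ⟩ := h.nodes hB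
  have key : ∀ S : Finset (Finset V), S ⊆ Ts →
      ∃ NX X O K, G.PAb W Ts Hh Bs (F ∪ G.ends Hh) NX X O K ∧
        ∀ T ∈ S, T ⊆ NX ∨ Disjoint (F ∪ G.ends Hh) (G.cut T) := by
    intro S
    induction S using Finset.induction_on with
    | empty =>
      have k : ∀ f, f ∉ G.tch ∅ := fun f a => notMem_empty _ (ie_mem a)
      exact fun _ => ⟨∅, ∅, ∅, ∅, ⟨Subset.rfl, empty_subset _, fun _ _ => .inr (disjoint_empty_right _),
        fun f _ a => absurd a (k f), abs0_empty,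
        ⟨inter_subset_right, fun _ _ => .inl (by rw [empty_inter]; exact disjoint_empty_right _),
          fun _ a => absurd a (notMem_empty _)⟩, fun f _ a => absurd a (k f),
        fun _ a => absurd a (notMem_empty _),
        fun T a b => absurd (subset_empty.1 b)
          (hM T (mem_union_left _ (mem_union_right _ a))).2.ne_empty,
        fun D a b => absurd (subset_empty.1 b) (hM D (mem_union_right _ a)).2.ne_empty⟩,
        fun _ a => absurd a (notMem_empty _)⟩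
    | insert T S _ ih =>
      intro hS
      obtain ⟨NX, X, O, K, h1, h2⟩ := ih ((subset_insert _ _).trans hS)
      have hT := hS (mem_insert_self _ _)
      have hT' : T ∈ Bs ∪ Ts ∪ Hh := mem_union_left _ (mem_union_right _ hT)
      by_cases a : T ⊆ NX ∨ Disjoint (F ∪ G.ends Hh) (G.cut T)
      · exact ⟨NX, X, O, K, h1, (forall_mem_insert _ _ _).2 ⟨a, h2⟩⟩
      obtain ⟨a, b⟩ := not_or.1 a
      obtain ⟨f, c, d⟩ := not_disjoint_iff.1 b
      obtain ⟨v, hv⟩ := (hM T hT').2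
      have e1 := nd_of_mem hP hT' hv
      obtain ⟨n, N, e, hR, h0⟩ := ring_exists hP (fun M x => (hM M x).1) hZ (h.deg hc hB) c
        (e1.symm ▸ d : f ∈ G.cut (nd _ v))
      rw [e1] at h0
      obtain ⟨X', O', K', h3⟩ := ring_abs hc h hB hR (h0 ▸ hT)
      refine ⟨_, _, _, _, h1.union (fun M x => (hM M x).2) h3
        (h1.off hP hR (h0 ▸ (h1.nn T hT').resolve_left a)), (forall_mem_insert _ _ _).2
        ⟨.inl ?_, fun M x => (h2 M x).imp_left fun y => y.trans subset_union_left⟩⟩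
      exact h0 ▸ (SpState_bu n.zero_le).trans subset_union_right
  exact key Ts Subset.rfl

end SG

end Pool.Agent.Work.MP_8c679b_co
end

-- merged part: Pool.Agent.Work.MP_8c679b_co.Top.PGlue
section
/-!
Gluing the solution of the remaining state to the absorbed part.
-/

set_option autoImplicit false

namespace Pool.Agent.Work.MP_8c679b_co

open Finset

namespace SG

variable {V E : Type} [Fintype V] [DecidableEq V] [DecidableEq E] {G : SG V E}
  {W NX X : Finset V} {Ts Hh Bs Ds : Finset (Finset V)} {Fm : Set (Finset V)} {F O : Finset E}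
  {ex : Finset V → E} {K : Set (Finset E)}

theorem PGlue_main (hc : G.Cub) (h : G.PSu W Ts Hh Fm F ex)
    (hB : G.Bx Fm W ((F ∪ G.ends Hh) ∩ G.cut W) Bs)
    (hA : G.PAb W Ts Hh Bs (F ∪ G.ends Hh) NX X O K) {O2 L : Finset E} {K2 : Set (Finset E)}
    (h1 : G.Abs0 (X ∪ Ts.biUnion id) (O ∪ O2) L (K ∪ K2)) (h2 : O2 ⊆ G.ins (Ts.biUnion id))
    (h3 : ∀ f ∈ L, f ∉ G.tch W ∧ f ∉ G.ends Hh) (h4 : ∀ T ∈ Ts, G.Kt T {ex T} ⊆ K ∪ K2)
    (h5 : G.SPS W (W \ X) (Hh.filter fun D => ¬ D ⊆ NX) ∅ Ds)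
    (h6 : ∀ f ∈ G.ends ((Hh.filter fun D => ¬ D ⊆ NX) ∪ ∅), f ∉ G.tch NX)
    (h7 : G.Fo Fm W ((F ∪ G.ends Hh) ∩ G.cut W) Bs ∅ (X ∩ W) K Ds)
    (h8 : G.SPc {S | S ∈ Fm ∧ G.cut S ⊆ G.ins W} (W \ X) (Hh.filter fun D => ¬ D ⊆ NX) ∅ Ds) :
    ∃ O φ, G.PCo W Ts Hh Fm ex O φ := by
  obtain ⟨O', ψ, s1, s2, s3⟩ := h8
  have hTW : Disjoint (Ts.biUnion id) W := disjoint_left.2 fun v hv k => by
    obtain ⟨T, k1, k2⟩ := mem_biUnion.1 hv
    exact disjoint_left.1 (h.t3 T k1).2.2.1 k2 k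
  have hd : Disjoint (W \ X) (X ∪ Ts.biUnion id) :=
    disjoint_union_right.2 ⟨sdiff_disjoint, hTW.symm.mono_left sdiff_subset⟩
  have hH' : ∀ D, D ∈ (Hh.filter fun D => ¬ D ⊆ NX) ∪ ∅ ↔ D ∈ Hh ∧ ¬ D ⊆ NX := fun D => by
    rw [union_empty, mem_filter]
  have sub' : G.ends ((Hh.filter fun D => ¬ D ⊆ NX) ∪ ∅) ⊆ G.ends Hh := fun f hf => by
    obtain ⟨D, k1, k2⟩ := SpState_ends.1 hf
    exact SpState_ends.2 ⟨D, ((hH' D).1 k1).1, k2⟩
  have off : ∀ f ∈ G.ends ((Hh.filter fun D => ¬ D ⊆ NX) ∪ ∅),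
      f ∉ G.tch (X ∪ Ts.biUnion id) := fun f hf k => by
    rw [tch_union] at k
    rcases mem_union.1 k with k | k
    · exact h6 f hf (tch_mono hA.sub k)
    · obtain ⟨D, k1, k2⟩ := SpState_ends.1 hf
      have k3 := (h.dg D ((hH' D).1 k1).1).2.1
      exact Quo_three (k3.mono_right (sdiff_subset.trans subset_union_left))
        (k3.mono_right subset_union_right) (hTW.symm.mono_left sdiff_subset) (cut_sub_tch k2)
        (cut_sub_tch ((h5.dg D k1).2.2 k2)) k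
  have old : ∀ f ∈ O', f ∈ G.cut (W \ X) → f ∈ G.ends ((Hh.filter fun D => ¬ D ⊆ NX) ∪ ∅) :=
    fun f k1 k2 => s1.2.2 ▸ mem_inter.2 ⟨k1, k2⟩
  obtain ⟨u1, u2, u3, -⟩ := s1.union h1.1 hd fun f _ hf =>
    ⟨fun k => absurd hf (off f k), fun k => absurd k (notMem_empty f)⟩
  obtain ⟨χ, hχ1, hχ2⟩ : ∃ χ : E → ZMod 3, (∀ f ∈ G.tch (W \ X), χ f = ψ f) ∧
      ∀ f, f ∉ G.tch (W \ X) → χ f = 1 :=
    ⟨fun f => if f ∈ G.tch (W \ X) then ψ f else 1, fun f hf => if_pos hf, fun f hf => if_neg hf⟩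
  obtain ⟨φ, q1, q2⟩ := h1.2.2 χ (fun f hf _ _ => by
    by_cases k : f ∈ G.tch (W \ X)
    · rw [hχ1 f k]
      exact s2.2.1 f k fun k1 => off f (old f k1 (Ab_link hd k hf).1) hf
    · rw [hχ2 f k]
      exact one_ne_zero) trivial
  have q3 : ∀ f ∈ G.tch (W \ X), φ f = ψ f := fun f hf => by
    rw [q1 f fun k => ?_, hχ1 f hf]
    rcases mem_union.1 k with k | k
    · exact Quo_ins k hd hf
    · exact (h3 f (mem_inter.1 k).2).1 (tch_mono sdiff_subset hf)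
  have hW : W ∪ Ts.biUnion id ⊆ W \ X ∪ (X ∪ Ts.biUnion id) := by
    rw [← union_assoc, sdiff_union_self_eq_union]
    exact union_subset_union subset_union_left Subset.rfl
  have oX : O ⊆ G.ins X := hA.ab.1.sub_ins
  have hE : (O' ∪ (O ∪ O2)) ∩ G.cut (W ∪ Ts.biUnion id) = G.ends Hh := by
    refine Subset.antisymm (fun f hf => ?_) fun f hf => ?_
    · obtain ⟨k1, k2⟩ := mem_inter.1 hf
      rcases mem_union.1 k1 with k3 | k3
      · exact sub' (old f k3 (cut_of_sub (sdiff_subset.trans subset_union_left) k2 (s1.1 k3)).1)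
      rcases mem_union.1 k3 with k3 | k3
      · have k4 := mem_ins.1 (oX k3)
        have k5 : G.oe (W ∪ Ts.biUnion id) f ∈ X := by
          rcases oe_at (G := G) (X := W ∪ Ts.biUnion id) (e := f) with k | k <;> rw [← k]
          exacts [k4.2.1, k4.2.2]
        obtain ⟨D, k7, k8⟩ := mem_biUnion.1 ((mem_union.1
          (hA.nx (hA.sub k5))).resolve_left (oe_not_mem k2))
        exact SpState_ends.2 ⟨D, k7, (Node_cut k4.1 je_ie_oe.symm k8 fun k =>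
          disjoint_left.1 (h.dg D k7).2.1 k (ie_mem (cut_sub_tch k2))).1⟩
      · exact absurd (ins_mono subset_union_right (h2 k3)) (not_ins_of_cut k2)
    · obtain ⟨D, k1, k2⟩ := SpState_ends.1 hf
      refine mem_inter.2 ⟨?_, (h.dg D k1).2.2 k2⟩
      by_cases k3 : D ⊆ NX
      · exact mem_union_right _ (mem_union_left _ ((hA.hh D k1 k3).2.2 k2))
      · have k4 := SpState_ends.2 ⟨D, (hH' D).2 ⟨k1, k3⟩, k2⟩
        rw [← s1.2.2] at k4
        exact mem_union_left _ (mem_inter.1 k4).1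
  obtain ⟨t1, t2, t3⟩ := (s2.congr q3 u2).union (q2.congr (fun _ _ => rfl) u3)
  have hit : ∀ t ∈ K ∪ K2, ∀ t', t ⊆ t' → ∃ f ∈ t',
      f ∉ (O' ∪ (O ∪ O2)) ∩ G.tch (W ∪ Ts.biUnion id) ∨ φ f = 0 := fun t ht t' k => by
    obtain ⟨f, k1, -, k2⟩ := t3 t (Or.inr ht)
    exact ⟨f, k k1, k2.imp_left fun k3 k4 => k3 (mem_inter.1 k4).1⟩
  refine ⟨(O' ∪ (O ∪ O2)) ∩ G.tch (W ∪ Ts.biUnion id), φ, hE ▸ u1.res hW,
    ⟨fun v hv => t1 v (hW hv), fun f k1 k2 => t2 f (tch_mono hW k1) fun k =>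
      k2 (mem_inter.2 ⟨k, k1⟩), fun _ k => k.elim⟩, ⟨fun D hD => ?_, fun D hD => ?_⟩,
    fun S hS => ?_, fun T hT => ⟨fun S k1 k2 => hit _ (h4 T hT (Or.inl ⟨S, k1, k2, rfl⟩)) _
      Subset.rfl, ?_⟩⟩
  · rw [union_empty] at hD
    by_cases k : D ⊆ NX
    · obtain ⟨k1, -, k2⟩ := hA.hh D hD k
      replace k1 : D ⊆ X ∪ Ts.biUnion id := k1.trans subset_union_left
      have k3 := h1.1.res k1
      rw [inter_eq_right.2 (k2.trans subset_union_left)] at k3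
      exact dg_cond hc (h.dg _ hD).1 k3 ⟨fun v hv => q2.1 v (k1 hv), fun f k4 k5 =>
        q2.2.1 f (tch_mono k1 k4) fun k6 => k5 (mem_inter.2 ⟨k6, k4⟩), fun _ k4 => k4.elim⟩
    · have k1 := (hH' D).2 ⟨hD, k⟩
      obtain ⟨f, k2, k3⟩ := s3.1 D k1
      exact ⟨f, k2, by rwa [q3 f (cut_sub_tch ((h5.dg D k1).2.2 k2))]⟩
  · by_cases k : D ⊆ NX
    · obtain ⟨-, k1, k2⟩ := hA.hh D hD k
      obtain ⟨f, k3, -, k4⟩ := q2.2.2 _ (Or.inl k1)
      exact ⟨f, k3, k4.resolve_left fun k5 => k5 (mem_union_left _ (k2 k3))⟩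
    · obtain ⟨f, k2, k3⟩ := s3.2 D (mem_filter.2 ⟨hD, k⟩)
      exact ⟨f, k2, by rwa [q3 f (cut_sub_tch ((h5.dg D ((hH' D).2 ⟨hD, k⟩)).2.2 k2))]⟩
  · have k2 := h7.cover (fun B k => (hB.1 B k).2.1) inter_subset_right inter_subset_right
      (G.cut S) (Or.inl ⟨S, hS, (h.fm S hS).1, rfl⟩)
    rw [sdiff_inter_self_right] at k2
    rcases k2 with ⟨t', k2 | k2, k3⟩ | ⟨f, k2, k3, k4, k5, k6⟩
    · exact hit _ (Or.inl k2) _ k3
    · by_cases k4 : t' ∈ G.Tg {S | S ∈ Fm ∧ G.cut S ⊆ G.ins W} (W \ X) Ds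
      · obtain ⟨f, k5, -, k6⟩ := t3 t' (Or.inl k4)
        exact ⟨f, k3 k5, k6.imp_left fun k7 k8 => k7 (mem_inter.1 k8).1⟩
      · rcases k2 with ⟨S', l1, l2, rfl⟩ | k2
        · obtain ⟨f, l3, l4⟩ : ∃ f ∈ G.cut S', f ∉ G.ins W :=
            not_subset.1 fun k => k4 (Or.inl ⟨S', ⟨l1, k⟩, l2, rfl⟩)
          have l5 : f ∈ G.tch (W \ X) := tch_mono l2 (cut_sub_tch l3)
          have l6 : f ∈ G.cut W := (mem_tch_iff.1 (tch_mono sdiff_subset l5)).resolve_left l4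
          have l7 : f ∈ G.tch (X ∪ Ts.biUnion id) := by
            have l8 := mem_ins.1 ((h.fm S' l1).2.2 l3)
            have l9 : G.oe W f ∈ W ∪ Ts.biUnion id := by
              rcases oe_at (G := G) (X := W) (e := f) with k | k <;> rw [← k]
              exacts [l8.2.1, l8.2.2]
            exact Cut_tch l8.1 oe_at
              (mem_union_right _ ((mem_union.1 l9).resolve_left (oe_not_mem l6)))
          exact ⟨f, k3 l3, .inl fun k => off f (old f ((u2 f l5).1 (mem_inter.1 k).1)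
            (Ab_link hd l5 l7).1) l7⟩
        · exact absurd (Or.inr k2) k4
    · refine ⟨f, k2, .inl fun k => ?_⟩
      rcases mem_union.1 (mem_inter.1 k).1 with k7 | k7
      · have k8 := old f k7 ((mem_tch_iff.1 (s1.1 k7)).resolve_left k5)
        refine k6 (mem_inter.2 ⟨mem_union_right _ (sub' k8),
          (mem_tch_iff.1 k3).resolve_left fun k9 => ?_⟩)
        obtain ⟨D, l1, l2⟩ := SpState_ends.1 k8
        exact Quo_ins k9 (h5.dg D l1).2.1 (cut_sub_tch l2)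
      rcases mem_union.1 k7 with k7 | k7
      · rcases mem_tch_iff.1 k3 with k8 | k8
        · obtain ⟨k9, k10, k11⟩ := mem_ins.1 (oX k7)
          exact k4 (mem_ins.2 ⟨k9, mem_inter.2 ⟨k10, (mem_ins.1 k8).2.1⟩,
            mem_inter.2 ⟨k11, (mem_ins.1 k8).2.2⟩⟩)
        · exact k6 (mem_inter.2 ⟨hA.oz f k7 k8, k8⟩)
      · exact Quo_ins (h2 k7) hTW.symm k3
  · obtain ⟨f, k1, k2⟩ := hit _ (h4 T hT (Or.inr ⟨ex T, mem_singleton_self _,
      (h.t3 T hT).2.2.2.1, rfl⟩)) _ Subset.rfl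
    exact ⟨f, (mem_sdiff.1 k1).1, fun k => (mem_sdiff.1 k1).2 (mem_singleton.2 k), k2⟩

end SG

end Pool.Agent.Work.MP_8c679b_co
end

-- merged part: Pool.Agent.Work.MP_8c679b_co.Top.PFin
section
/-!
The residue solution with three-sides as nodes.
-/

set_option autoImplicit false

namespace Pool.Agent.Work.MP_8c679b_co

open Finset

namespace SG

variable {V E : Type} [Fintype V] [DecidableEq V] [DecidableEq E] {G : SG V E}
  {W NX X : Finset V} {Ts Hh Bs Ds : Finset (Finset V)} {Fm : Set (Finset V)} {F O : Finset E}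
  {ex : Finset V → E} {K : Set (Finset E)} {n : ℕ} {N : ℕ → Finset V} {e : ℕ → E}

/-- a leaving edge of `Y` touches only one of two disjoint subsets -/
theorem PFin_off {Y X1 X2 : Finset V} {f : E} (hd : Disjoint X1 X2) (h1 : X1 ⊆ Y) (h2 : X2 ⊆ Y)
    (hf : f ∈ G.cut Y) (hf' : f ∈ G.cut X2) : f ∉ G.tch X1 := fun k =>
  not_ins_of_cut hf (ins_mono (union_subset h1 h2)
    (ie_link hd (Ab_link hd k (cut_sub_tch hf')).1 hf').2)

omit [Fintype V] [DecidableEq E] in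
theorem PFin_bu {T : Finset V} (h : T ∈ Ts) : T ⊆ Ts.biUnion id := subset_biUnion_of_mem id h

theorem PFin_tch {f : E} (h : f ∈ G.tch (Ts.biUnion id)) : ∃ T ∈ Ts, f ∈ G.tch T := by
  obtain ⟨T, h1, h2⟩ := mem_biUnion.1 (ie_mem h)
  exact ⟨T, h1, Cut_tch (Ab_tch_sub h) ie_at h2⟩

theorem PFin_ie {Y : Finset V} {f : E} (h : f ∈ G.ins NX) : G.ie Y f ∈ NX := by
  rcases ie_at (G := G) (X := Y) (e := f) with k | k <;> rw [← k]
  exacts [(mem_ins.1 h).2.1, (mem_ins.1 h).2.2]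

theorem PFin_oe {Y : Finset V} {f : E} (h : f ∈ G.ins NX) : G.oe Y f ∈ NX := by
  rcases oe_at (G := G) (X := Y) (e := f) with k | k <;> rw [← k]
  exacts [(mem_ins.1 h).2.1, (mem_ins.1 h).2.2]

/-- an edge from the region to a three-side -/
theorem PFin_lead (h : G.PSu W Ts Hh Fm F ex) {f : E} (h1 : f ∈ G.cut W)
    (h2 : f ∈ G.ins (W ∪ Ts.biUnion id)) : ∃ T ∈ Ts, f ∈ G.cut T := by
  obtain ⟨T, h3, h4⟩ := mem_biUnion.1
    ((mem_union.1 (PFin_oe (Y := W) h2)).resolve_left (oe_not_mem h1))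
  exact ⟨T, h3, (Ab_link (h.t3 T h3).2.2.1 (Cut_tch (ins_sub_A h2) oe_at h4) (cut_sub_tch h1)).1⟩

/-- HINT: induction on `Tu`; `t_abs`, `Abs0.seq` (the edge `ex T` leaves `Y`). -/
theorem t_unp (hc : G.Cub) {Y : Finset V} {Tu : Finset (Finset V)} (hp : PD Tu)
    (h : ∀ T ∈ Tu, G.T3 T ∧ G.F2 T ∧ T ⊆ Y ∧ ex T ∈ G.cut T ∧ ex T ∈ G.cut Y) :
    ∃ O K, G.Abs0 (Tu.biUnion id) O (G.cut Y) K ∧ ∀ T ∈ Tu, G.Kt T {ex T} ⊆ K := by
  induction Tu using Finset.induction_on with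
  | empty => exact ⟨∅, ∅, abs0_empty, fun T k => absurd k (notMem_empty T)⟩
  | insert T Tu hT ih =>
    obtain ⟨O, K, h1, h2⟩ := ih (hp.mono (subset_insert _ _)) fun S k => h S (mem_insert_of_mem k)
    obtain ⟨a1, a2, a3, a4, a5⟩ := h T (mem_insert_self _ _)
    obtain ⟨O', h3⟩ := t_abs hc a1 a2 a4
    have hd : Disjoint T (Tu.biUnion id) := (disjoint_biUnion_right _ _ _).2 fun S k =>
      hp T (mem_insert_self _ _) S (mem_insert_of_mem k) fun e => hT (e ▸ k)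
    have h4 := (h3.seq h1 hd (L := G.cut Y) (fun f k1 k2 => PFin_off hd a3
      (biUnion_subset.2 fun S k => (h S (mem_insert_of_mem k)).2.2.1) k1 k2)
      (fun f k _ => Or.inr (mem_singleton.1 k ▸ a5)) fun f k _ => k).1
    refine ⟨_, _, by rw [biUnion_insert]; exact h4, fun S k => ?_⟩
    rcases mem_insert.1 k with rfl | k
    exacts [Set.subset_union_left, (h2 S k).trans Set.subset_union_right]

/-- The state that remains.
HINT: copy the proof of `sp_state` (file `Six/SpState`).  `finc` in the ambient set `W` with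
`J = (F ∪ ends Hh) ∩ cut W`, `Ds = ∅` (`vd_empty`); its last hypothesis: an edge of `J` at a box
lies inside `W ∪ ⋃ Ts`, so it leads to a member of `Ts` inside `NX`, lies in `O` by `lk`, hence
inside `X`.  A digon that is not inside `NX` is disjoint from it, its ends do not touch `NX`
(`cl`) and lead to `W` (a three-side at an end would lie in `NX`).
The new join is `(F ∩ ins W) \ tch NX`. -/
theorem p_state (hc : G.Cub) (h : G.PSu W Ts Hh Fm F ex)
    (hB : G.Bx Fm W ((F ∪ G.ends Hh) ∩ G.cut W) Bs)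
    (hA : G.PAb W Ts Hh Bs (F ∪ G.ends Hh) NX X O K)
    (hT : ∀ T ∈ Ts, T ⊆ NX ∨ Disjoint (F ∪ G.ends Hh) (G.cut T)) :
    ∃ Ds' F', G.SPS W (W \ X) (Hh.filter fun D => ¬ D ⊆ NX) ∅ Ds' ∧
      G.Tj (W \ X) (G.ends ((Hh.filter fun D => ¬ D ⊆ NX) ∪ ∅)) F' ∧
      G.As {S | S ∈ Fm ∧ G.cut S ⊆ G.ins W} (W \ X) F' ∧
      (∀ f ∈ G.ends ((Hh.filter fun D => ¬ D ⊆ NX) ∪ ∅), f ∉ G.tch NX) ∧
      G.Fo Fm W ((F ∪ G.ends Hh) ∩ G.cut W) Bs ∅ (X ∩ W) K Ds' := by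
  have hN : ∀ f ∈ F ∪ G.ends Hh, ∀ T ∈ Ts, f ∈ G.cut T → f ∈ G.tch NX := fun f k1 T k2 k3 =>
    tch_mono ((hT T k2).resolve_right fun k => disjoint_left.1 k k1 k3) (cut_sub_tch k3)
  have new : ∀ {D}, D ∈ (Hh.filter fun D => ¬ D ⊆ NX) ∪ ∅ ↔ D ∈ Hh ∧ ¬ D ⊆ NX := by
    intro D
    rw [union_empty, mem_filter]
  have hZ : ∀ D ∈ Hh, ∀ f ∈ G.cut D, f ∈ F ∪ G.ends Hh := fun D k1 f k2 =>
    mem_union_right _ (SpState_ends.2 ⟨D, k1, k2⟩)
  have off : ∀ D ∈ (Hh.filter fun D => ¬ D ⊆ NX) ∪ ∅, ∀ f ∈ G.cut D, f ∉ G.tch NX := by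
    intro D hD f hf ht
    obtain ⟨k1, k2⟩ := new.1 hD
    exact disjoint_left.1 ((hA.nn D (mem_union_right _ k1)).resolve_left k2)
      (ie_mem (cut_sub_tch hf)) (PFin_ie (hA.cl f (hZ D k1 f hf) ht))
  have cw : ∀ D ∈ (Hh.filter fun D => ¬ D ⊆ NX) ∪ ∅, G.cut D ⊆ G.cut W := by
    intro D hD f hf
    have k1 := (h.dg D (new.1 hD).1).2.2 hf
    have k2 := cut_sub_tch k1
    rw [tch_union, mem_union] at k2
    refine (cut_of_sub subset_union_left k1 (k2.resolve_right fun k3 => ?_)).1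
    obtain ⟨T, k4, k5⟩ := PFin_tch k3
    exact off D hD f hf (hN f (hZ D (new.1 hD).1 f hf) T k4
      (cut_of_sub ((PFin_bu k4).trans subset_union_right) k1 k5).1)
  obtain ⟨Ds', hO⟩ := finc hc h.ht Subset.rfl (fun S hS => (h.fm S hS).2.1) hB vd_empty hA.bs
    fun B k f hf => (mem_union.1 ((hB.1 B k).2.2 hf)).imp_right fun k1 => by
      obtain ⟨k2, k3⟩ := mem_inter.1 k1
      obtain ⟨T, k4, k5⟩ := PFin_lead h k3 ((h.fm B (hB.1 B k).1).2.2 hf)
      exact Cut_tch (mem_cut.1 k3).1 ie_at (mem_inter.2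
        ⟨PFin_ie (hA.ab.1.sub_ins (hA.lk f k2 (hN f k2 T k4 k5) k3)), ie_mem (cut_sub_tch k3)⟩)
  refine ⟨Ds', (F ∩ G.ins W) \ G.tch NX, ⟨sdiff_subset, fun D hD => ?_,
    h.ph.mono fun D hD => (new.1 hD).1, disjoint_empty_right _, ?_,
    fun U hU => h.inv U (hU.trans (union_subset_union sdiff_subset
      (biUnion_subset_biUnion_of_subset_left _ (filter_subset _ _))))⟩,
    ⟨fun f hf => ?_, fun v hv => ?_⟩,
    fun S hS _ h2 => h.nf S hS.1 (h2.trans (sdiff_subset.trans inter_subset_left)),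
    fun f hf => ?_, hO⟩
  · obtain ⟨h1, h2, -⟩ := h.dg D (new.1 hD).1
    exact ⟨h1, h2.mono_right subset_union_left, fun f hf =>
      SpState_cut (cw D hD hf) fun ht => off D hD f hf (tch_mono hA.sub ht)⟩
  · have h1 := hO.1
    rw [sdiff_inter_self_right] at h1
    refine h1.monoJ fun f _ hf => ?_
    obtain ⟨D, h2, h3⟩ := SpState_ends.1 hf
    exact mem_sdiff.2 ⟨mem_inter.2 ⟨hZ D (new.1 h2).1 f h3, cw D h2 h3⟩,
      fun ht => off D h2 f h3 (tch_mono (inter_subset_left.trans hA.sub) ht)⟩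
  · obtain ⟨h1, h2⟩ := mem_sdiff.1 hf
    obtain ⟨h3, h4, h5⟩ := mem_ins.1 (mem_inter.1 h1).2
    exact mem_ins.2 ⟨h3, mem_sdiff.2 ⟨h4, fun k => h2 (mem_tch.2 ⟨h3, .inl (hA.sub k)⟩)⟩,
      mem_sdiff.2 ⟨h5, fun k => h2 (mem_tch.2 ⟨h3, .inr (hA.sub k)⟩)⟩⟩
  · by_cases hvN : v ∈ NX
    · refine dg_of_not_mem fun k => ?_
      obtain ⟨f, h1, h2⟩ := mem_vs.1 k
      rcases mem_union.1 h1 with h3 | h3
      · exact (mem_sdiff.1 h3).2 (Cut_tch (ins_sub_A (mem_inter.1 (mem_sdiff.1 h3).1).2) h2 hvN)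
      · obtain ⟨D, h4, h5⟩ := SpState_ends.1 h3
        exact off D h4 f h5 (Cut_tch (mem_cut.1 h5).1 h2 hvN)
    · refine (Ab_dg fun f h1 => ⟨fun h2 => ?_, fun h2 => ?_⟩).trans (h.jv v (mem_sdiff.1 hv).1)
      · rcases mem_union.1 h2 with h3 | h3
        · exact mem_union_left _ (mem_inter.1 (mem_sdiff.1 h3).1).1
        · obtain ⟨D, h4, h5⟩ := SpState_ends.1 h3
          exact hZ D (new.1 h4).1 f h5
      have h3 : f ∉ G.tch NX := fun ht => by
        have h4 := mem_ins.1 (hA.cl f h2 ht)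
        rcases h1 with rfl | rfl
        exacts [hvN h4.2.1, hvN h4.2.2]
      rcases mem_union.1 h2 with h4 | h4
      · refine mem_union_left _ (mem_sdiff.2 ⟨mem_inter.2 ⟨h4, (mem_tch_iff.1
          (Cut_tch (ins_sub_A (h.jf h4)) h1 (mem_sdiff.1 hv).1)).resolve_right fun k => ?_⟩, h3⟩)
        obtain ⟨T, k1, k2⟩ := PFin_lead h k (h.jf h4)
        exact h3 (hN f h2 T k1 k2)
      · obtain ⟨D, h5, h6⟩ := SpState_ends.1 h4
        exact mem_union_right _ (SpState_ends.2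
          ⟨D, new.2 ⟨h5, fun k => h3 (tch_mono k (cut_sub_tch h6))⟩, h6⟩)
  · obtain ⟨D, h2, h3⟩ := SpState_ends.1 hf
    exact off D h2 f h3

/-- All three-sides and the absorbed part in one step.
HINT: `Tu` = the members of `Ts` that are not inside `NX`; `t_unp` with `Y = W ∪ ⋃ Ts`;
`Abs0.seq` with `hA.ab` first, live edges `L = cut Y ∩ cut (⋃ Tu)` (`Abs0.monoL`).  A live edge
does not touch `X`: its other end would lie in a digon, so it would be in `ends Hh`. -/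
theorem p_rest (hc : G.Cub) (h : G.PSu W Ts Hh Fm F ex)
    (hA : G.PAb W Ts Hh Bs (F ∪ G.ends Hh) NX X O K)
    (hT : ∀ T ∈ Ts, T ⊆ NX ∨ Disjoint (F ∪ G.ends Hh) (G.cut T)) :
    ∃ O2 L K2, G.Abs0 (X ∪ Ts.biUnion id) (O ∪ O2) L (K ∪ K2) ∧ O2 ⊆ G.ins (Ts.biUnion id) ∧
      (∀ f ∈ L, f ∉ G.tch W ∧ f ∉ G.ends Hh) ∧ ∀ T ∈ Ts, G.Kt T {ex T} ⊆ K ∪ K2 := by
  obtain ⟨Tu, hu⟩ : ∃ Tu : Finset (Finset V), ∀ T, T ∈ Tu ↔ T ∈ Ts ∧ ¬ T ⊆ NX :=
    ⟨Ts.filter fun T => ¬ T ⊆ NX, fun T => mem_filter⟩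
  have s0 : Tu ⊆ Ts := fun T k => ((hu T).1 k).1
  have s1 : Tu.biUnion id ⊆ Ts.biUnion id := biUnion_subset_biUnion_of_subset_left _ s0
  obtain ⟨O2, K2, h1, h2⟩ := t_unp (ex := ex) (Y := W ∪ Ts.biUnion id) hc (h.pt.mono s0)
    fun T k => by
      obtain ⟨a1, a2, -, a3, a4⟩ := h.t3 T (s0 k)
      exact ⟨a1, a2, (PFin_bu (s0 k)).trans subset_union_right, a3, a4⟩
  have h3 : ∀ f ∈ G.cut (Tu.biUnion id), f ∉ G.ends Hh := fun f k1 k2 => by
    obtain ⟨T, k3, k4⟩ := PFin_tch (cut_sub_tch k1)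
    exact disjoint_left.1 ((hT T (s0 k3)).resolve_left ((hu T).1 k3).2) (mem_union_right _ k2)
      (cut_of_sub (PFin_bu k3) k1 k4).1
  have hd : Disjoint X (Tu.biUnion id) := (disjoint_biUnion_right _ _ _).2 fun T k =>
    (((hA.nn T (mem_union_left _ (mem_union_right _ (s0 k)))).resolve_left
      ((hu T).1 k).2).mono_right hA.sub).symm
  have h4 := (hA.ab.seq (h1.monoL (L' := G.cut (W ∪ Ts.biUnion id) ∩ G.cut (Tu.biUnion id))
    fun f k1 k2 => mem_inter.2 ⟨k2, k1⟩) hd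
    (L := G.cut (W ∪ Ts.biUnion id) ∩ G.cut (Tu.biUnion id)) (fun f k1 k2 k3 => by
      have k4 := (mem_inter.1 k1).1
      have k5 := (cut_of_sub (s1.trans subset_union_right) k4 (cut_sub_tch k2)).2
      have k6 : G.ie X f ∉ W ∪ Ts.biUnion id := fun k => disjoint_left.1 hd (ie_mem k3)
        (by rw [eq_ie k4 k ie_at, ← k5]; exact ie_mem (cut_sub_tch k2))
      obtain ⟨D, k7, k8⟩ := mem_biUnion.1
        ((mem_union.1 (hA.nx (hA.sub (ie_mem k3)))).resolve_left k6)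
      exact h3 f k2 (SpState_ends.2 ⟨D, k7, (Ab_link (h.dg D k7).2.1
        (Cut_tch (Ab_tch_sub k3) ie_at k8) (cut_sub_tch k4)).1⟩))
    (fun f k => absurd k (notMem_empty f)) fun f k _ => k).1
  have e1 : X ∪ Tu.biUnion id = X ∪ Ts.biUnion id :=
    (union_subset_union_right s1).antisymm (union_subset subset_union_left
      (biUnion_subset.2 fun T k => by
        by_cases k1 : T ⊆ NX
        · exact (hA.tt T k k1).1.trans subset_union_left
        · exact (PFin_bu ((hu T).2 ⟨k, k1⟩)).trans subset_union_right))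
  refine ⟨O2, _, K2, e1 ▸ h4, h1.1.sub_ins.trans (ins_mono s1), fun f hf => ?_, fun T k => ?_⟩
  · obtain ⟨k1, k2⟩ := mem_inter.1 hf
    exact ⟨PFin_off ((disjoint_biUnion_right _ _ _).2 fun T k => (h.t3 T (s0 k)).2.2.1.symm)
      subset_union_left (s1.trans subset_union_right) k1 k2, h3 f k2⟩
  · by_cases k1 : T ⊆ NX
    · refine Set.Subset.trans ?_ ((hA.tt T k k1).2.trans Set.subset_union_left)
      rintro t (k2 | ⟨f, -, k2, k3⟩)
      exacts [Or.inl k2, Or.inr ⟨f, k2, k2, k3⟩]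
    · exact (h2 T ((hu T).2 ⟨k, k1⟩)).trans Set.subset_union_right

/-- HINT: compare the end of `sp_step` and `sp_glue`.  Given values: `ψ` on `tch (W \ X)`, one
elsewhere.  The even set is `(O' ∪ (O ∪ O2)) ∩ tch (W ∪ ⋃ Ts)`.  Targets: `Fo.cover` (a member of
`Fm` inside `W \ X` whose cut is not inside `W` has an edge to a three-side, which leaves `W \ X`
and is no end of a digon, so it is off the even set).  Digons inside `NX`: `hh`, `dg_cond`. -/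
theorem p_glue (hc : G.Cub) (h : G.PSu W Ts Hh Fm F ex)
    (hB : G.Bx Fm W ((F ∪ G.ends Hh) ∩ G.cut W) Bs)
    (hA : G.PAb W Ts Hh Bs (F ∪ G.ends Hh) NX X O K) {O2 L : Finset E} {K2 : Set (Finset E)}
    (h1 : G.Abs0 (X ∪ Ts.biUnion id) (O ∪ O2) L (K ∪ K2)) (h2 : O2 ⊆ G.ins (Ts.biUnion id))
    (h3 : ∀ f ∈ L, f ∉ G.tch W ∧ f ∉ G.ends Hh) (h4 : ∀ T ∈ Ts, G.Kt T {ex T} ⊆ K ∪ K2)
    (h5 : G.SPS W (W \ X) (Hh.filter fun D => ¬ D ⊆ NX) ∅ Ds)
    (h6 : ∀ f ∈ G.ends ((Hh.filter fun D => ¬ D ⊆ NX) ∪ ∅), f ∉ G.tch NX)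
    (h7 : G.Fo Fm W ((F ∪ G.ends Hh) ∩ G.cut W) Bs ∅ (X ∩ W) K Ds)
    (h8 : G.SPc {S | S ∈ Fm ∧ G.cut S ⊆ G.ins W} (W \ X) (Hh.filter fun D => ¬ D ⊆ NX) ∅ Ds) :
    ∃ O φ, G.PCo W Ts Hh Fm ex O φ :=
  PGlue_main hc h hB hA h1 h2 h3 h4 h5 h6 h7 h8

theorem p_res (hc : G.Cub) : G.PRes := by
  intro W Ts Hh Fm F ex h
  obtain ⟨Bs, hB⟩ := h.boxes
  obtain ⟨NX, X, O, K, hA, hT⟩ := pab_all hc h hB
  obtain ⟨Ds, F', s1, s2, s3, s4, s5⟩ := p_state hc h hB hA hT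
  obtain ⟨O2, L, K2, r1, r2, r3, r4⟩ := p_rest hc h hA hT
  refine p_glue hc h hB hA r1 r2 r3 r4 s1 s4 s5
    (spw hc h.ht ⟨fun S hS => ⟨(h.fm S hS.1).1, (h.fm S hS.1).2.1, hS.2⟩, fun S hS S' hS' k =>
      ⟨h.un S hS.1 S' hS'.1 k, cut_union_sub.trans (union_subset hS.2 hS'.2)⟩⟩
      (kb hc h.ht) (rpa hc h.ht) s1 s2 s3)

end SG

end Pool.Agent.Work.MP_8c679b_co
end
end
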