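import Pool.Agent.Work.MP_8c679b_co.K1.B4
import Pool.Agent.Work.MP_8c679b_co.K1.Tp2
import Pool.Agent.Work.MP_8c679b_co.K1.Ev
import Pool.Agent.Work.MP_8c679b_co.K1.GT1
import Pool.Agent.Work.MP_8c679b_co.K1.Tp3
import Pool.Agent.Work.MP_8c679b_co.Top.LRad
import Pool.Agent.Work.MP_8c679b_co.Top.PFin
import Pool.Agent.Work.MP_8c679b_co.Six.PAll
import Pool.Agent.Work.MP_8c679b_co.Six.AGad
import Pool.Agent.Work.MP_8c679b_co.Top.TJoin
import Pool.Agent.Work.MP_8c679b_co.Key.MB4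
import Pool.Agent.Work.MP_8c679b_co.Cubic
import Pool.Agent.Work.MP_8c679b_co.A3.E5

-- merged part: Pool.Agent.Work.MP_8c679b_co.K1.Main
section
-- merged part: Pool.Agent.Work.MP_8c679b_co.K1.E1
section
/-!
The pass of an unbalanced side that avoids the critical edge.
-/

set_option autoImplicit false

namespace Pool.Agent.Work.MP_8c679b_co

open Finset

namespace SG

variable {V E : Type} [Fintype V] [DecidableEq V] [DecidableEq E] {G : SG V E}
  {T X : Finset V} {p : V → ZMod 2} {z i j k a b c d : E} {ψ : E → ZMod 3}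

omit [Fintype V] in
theorem K1E1_nt {X0 : Finset V} {e : E} (h0 : X0 ⊆ X) (h1 : e ∈ G.cut X) (h2 : e ∈ G.cut X0) :
    e ∉ G.tch (X \ X0) := by
  intro h3
  have a1 := (mem_cut.1 h1).2
  have a2 := (mem_cut.1 h2).2
  have a3 := (mem_tch.1 h3).2
  have b1 : G.s e ∈ X0 → G.s e ∈ X := fun h => h0 h
  have b2 : G.t e ∈ X0 → G.t e ∈ X := fun h => h0 h
  simp only [mem_sdiff] at a3
  tauto

omit [Fintype V] in
theorem K1E1_ni {X0 : Finset V} {e : E} (h2 : e ∈ G.ins X0) : e ∉ G.tch (X \ X0) := by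
  intro h3
  have a2 := (mem_ins.1 h2).2
  have a3 := (mem_tch.1 h3).2
  simp only [mem_sdiff] at a3
  tauto

theorem K1E1_z3 : ∀ u w x : ZMod 3, u + 2 * w = 0 → w ≠ 0 → x ≠ 0 →
    (u = x ∧ w = x) ∨ (-u = x ∧ -w = x) := by decide

theorem K1E1_z2 : ∀ u : ZMod 2, u ≠ u + 1 := by decide

theorem K1E1_z2' : ∀ u w : ZMod 2, u ≠ w → u + 1 = w := by decide



/-- Completing a total pass that avoids `z`.
HINT: `ρ = X \ X0` is empty or a rung; `k1_rung0` gives `φ1` on `ρ`; overwrite it by one off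
`tch ρ`.  Let `R` be the relation of the pass for these values; the free edges
`fr X0 {a, b}` do not touch `ρ` (`Rg.ie_mem`, `HT.us_card`).  `Q4 X0 a b c' d'` for some `c', d'`
(`Rg.sp`, `Sp.str`, or `X0 = X`).  If `z ∈ ins X0` choose the exit value such that
`kap p X0 b * φ b + (kap p X0 c' * φ c' + kap p X0 d' * φ d') = 0` (totality, `kap_sign`); then
`KC.cons` gives `kap p X0 a * φ a = zv p z φ` (in `ZMod 3`, `2 = -1`).  Otherwise `z` touches `ρ`
and its value is frozen; choose the entry value.  In both cases the common value is nonzero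
(`z ∉ O`), so `φ` or `-φ` works (`Sl.neg`).  Targets: `Sl.cov`; the edge `c` is off `O`. -/
theorem k1_inn (hK : G.KC T p z i j k) (hX : X ⊆ T) (hu : G.US X) (hq : G.Q4 X a b c d)
    {X0 : Finset V} {O : Finset E} {K : Set (Finset E)} (hr : G.Rg X X0 c d)
    (hP : G.Pas0 X0 O a b ∅ K Rl.Tt) (hz : z ∉ O ∩ G.ins X0)
    (hc : ∀ t ∈ G.Kus X, t ∈ K ∨ c ∈ t) {x : ZMod 3} (hx : x ≠ 0) :
    ∃ O φ, G.St X O {a, b} ∧ z ∉ O ∧ G.Sl X O (G.Kus X) φ ∧ G.kap p X a * φ a = x ∧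
      G.zv p z φ = x := by
  have h0 : X0 ⊆ X := hr.sub
  obtain ⟨qa, qb, qc, qd⟩ := hq.mem
  obtain ⟨pa, pb, oa, ob, ocut⟩ := hP.cut
  obtain ⟨_, ⟨hS1, hS2, _⟩, _, hPa⟩ := hP
  have hzX : z ∈ G.ins X := hK.zin hX hu.2
  have hOt : ∀ e ∈ O, e ∉ G.tch (X \ X0) := by
    intro e he
    rcases mem_tch_iff.1 (hS1 he) with h | h
    · exact K1E1_ni h
    · rcases ocut e h he with rfl | rfl
      · exact K1E1_nt h0 qa pa
      · exact K1E1_nt h0 qb pb
  have hOc : O ∩ G.cut X = {a, b} := by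
    ext e
    simp only [mem_inter, mem_insert, mem_singleton]
    constructor
    · rintro ⟨h1, h2⟩
      exact ocut e (cut_of_sub h0 h2 (hS1 h1)).1 h1
    · rintro (rfl | rfl)
      · exact ⟨oa, qa⟩
      · exact ⟨ob, qb⟩
  have hSt : G.St X O {a, b} := by
    refine ⟨hS1.trans (tch_mono h0), fun v hv => ?_, hOc⟩
    by_cases hv0 : v ∈ X0
    · exact hS2 v hv0
    · apply dg_of_not_mem
      intro h
      obtain ⟨e, he, hat⟩ := mem_vs.1 h
      exact hOt e he (Cut_tch (Ab_tch_sub (hS1 he)) hat (mem_sdiff.2 ⟨hv, hv0⟩))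
  have hzO : z ∉ O := by
    intro h
    rcases mem_tch_iff.1 (hS1 h) with h1 | h1
    · exact hz (mem_inter.2 ⟨h, h1⟩)
    · rcases ocut z h1 h with rfl | rfl
      · exact not_ins_of_cut qa hzX
      · exact not_ins_of_cut qb hzX
  have hcO : c ∉ O := by
    intro h
    have h1 : c ∈ O ∩ G.cut X := mem_inter.2 ⟨h, qc⟩
    rw [hOc] at h1
    simp only [mem_insert, mem_singleton] at h1
    rcases h1 with h1 | h1
    · exact hq.2.2.1 h1.symm
    · exact hq.2.2.2.2.1 h1.symm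
  obtain ⟨φ1, hφ1⟩ : ∃ φ, G.Sl (X \ X0) ∅ ∅ φ := by
    refine k1_rung0 hK.cub hK.ht (sdiff_subset.trans hX) ?_ ?_
    · rcases hr with rfl | ⟨_, h, _⟩
      · simp
      · rw [h]; exact card_le_two
    · intro hn
      rcases hr with rfl | ⟨_, h, hd, hj⟩
      · simp at hn
      · rw [h]
        exact (hK.ht.rung' hK.cub (hX (ie_mem (cut_sub_tch qc))) (hX (ie_mem (cut_sub_tch qd)))
          hd hj).1
  obtain ⟨ψ0, hψ1, hψ2⟩ : ∃ ψ0 : E → ZMod 3, (∀ e, ψ0 e ≠ 0) ∧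
      ∀ e ∈ G.tch (X \ X0), ψ0 e = φ1 e := by
    refine ⟨fun e => if e ∈ G.tch (X \ X0) then φ1 e else 1, fun e => ?_, fun e he => if_pos he⟩
    by_cases he : e ∈ G.tch (X \ X0)
    · simp only [if_pos he]
      exact hφ1.2.1 e he (notMem_empty e)
    · simp only [if_neg he]
      exact one_ne_zero
  obtain ⟨R, hR, hRe⟩ := hPa ψ0 fun e _ _ _ => hψ1 e
  obtain ⟨x0, hx0⟩ := hR.2 (chi (p (G.ie X0 b)) * -(G.kap p X c * ψ0 c + G.kap p X d * ψ0 d))
  obtain ⟨φ, ⟨hfr, hsl⟩, _, hob⟩ := hRe _ _ hx0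
  have hmem : ∀ e ∈ G.fr X0 (insert a (insert b ∅)), e ∈ G.ins X0 ∨ e = a ∨ e = b := by
    intro e he
    simp only [fr, mem_union, mem_inter, mem_insert, notMem_empty, or_false] at he
    (clear * - he; tauto)
  have hfz : ∀ e ∈ G.tch (X \ X0), φ e = φ1 e := by
    intro e he
    rw [← hψ2 e he]
    apply hfr
    intro h
    rcases hmem e h with h | rfl | rfl
    · exact K1E1_ni h he
    · exact K1E1_nt h0 qa pa he
    · exact K1E1_nt h0 qb pb he
  have hcut : ∀ e ∈ G.cut X, e ≠ a → e ≠ b → φ e = ψ0 e := by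
    intro e he h1 h2
    apply hfr
    intro h
    rcases hmem e h with h | h | h
    · exact not_ins_of_cut he (ins_mono h0 h)
    · exact h1 h
    · exact h2 h
  have hs2 : G.Sl (X \ X0) O ∅ φ := hφ1.congr hfz fun e he =>
    ⟨fun h => absurd he (hOt e h), fun h => absurd h (notMem_empty e)⟩
  have hs3 := hsl.union hs2
  rw [union_sdiff_of_subset h0] at hs3
  have hs4 : G.Sl X O (G.Kus X) φ := hs3.cov fun t ht => by
    rcases hc t ht with h | h
    · exact Or.inl ⟨t, Or.inl h, Subset.rfl⟩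
    · exact Or.inr ⟨c, h, cut_sub_tch qc, hcO⟩
  have hcons := (hK.cons hX hs4.1).1 hzX
  rw [tw_q4 hq] at hcons
  have hb : G.kap p X b * φ b = -(G.kap p X c * φ c + G.kap p X d * φ d) := by
    rw [hcut c qc hq.2.2.1.symm hq.2.2.2.2.1.symm,
      hcut d qd hq.2.2.2.1.symm hq.2.2.2.2.2.1.symm, ← kap_sub h0 qb (cut_sub_tch pb),
      (kap_sign p pb).1, mul_assoc]
    have hob' : G.kap (fun _ => 0) X0 b * φ b = _ := hob
    rw [hob', ← mul_assoc, chi_mul_self, one_mul]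
  have he : G.kap p X a * φ a + 2 * G.zv p z φ = 0 := by
    rw [hb] at hcons
    linear_combination hcons
  have hz0 : G.zv p z φ ≠ 0 := zv_ne.2 (hs4.2.1 z (ins_sub_tch hzX) hzO)
  rcases K1E1_z3 _ _ x he hz0 hx with ⟨h1, h2⟩ | ⟨h1, h2⟩
  · exact ⟨O, φ, hSt, hzO, hs4, h1, h2⟩
  · refine ⟨O, fun e => -φ e, hSt, hzO, hs4.neg, ?_, ?_⟩
    · rw [← h1]; ring
    · rw [← h2]; simp only [zv]; ring

/-- The pass of an unbalanced side that avoids `z`.
HINT: `par_all` gives `FP X`.  First alternative: take `ε = p (ie X0 a) + p (ie X0 b)` and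
`KC.parz`.  Exceptional case `E1` with its parity `π`: one of the first two passes has the
parity `p (ie X a) + p (ie X b)` (`Rg.ie_mem`, `cut_of_sub`); `PX.tt`, `Pas0.imp`, `k1_inn`. -/
theorem k1_inE (hK : G.KC T p z i j k) (hX : X ⊆ T) (hu : G.US X) (hq : G.Q4 X a b c d)
    {x : ZMod 3} (hx : x ≠ 0) :
    ∃ O φ, G.St X O {a, b} ∧ z ∉ O ∧ G.Sl X O (G.Kus X) φ ∧ G.kap p X a * φ a = x ∧
      G.zv p z φ = x := by
  have hab : a ≠ b := hq.2.1
  have key : ∀ {X0 : Finset V} {O : Finset E} {K : Set (Finset E)}, X0 ⊆ X →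
      G.Pas0 X0 O a b ∅ K Rl.PX → G.par (O ∩ G.ins X0) = p (G.ie X0 a) + p (G.ie X0 b) →
      z ∉ O ∩ G.ins X0 := by
    intro X0 O K h0 hP hp hz
    have h1 := (hK.parz (h0.trans hX) hP.2.1 hab).1 hz
    rw [hp] at h1
    exact K1E1_z2 _ h1
  rcases (par_all hK.cub hK.ht X hX).2 hu a b c d hq with ⟨X0, hr, h⟩ | ⟨X0, _, hr, ht, π, h1, h2, _⟩
  · obtain ⟨O, hp, hP⟩ := h (p (G.ie X0 a) + p (G.ie X0 b))
    refine k1_inn hK hX hu hq hr (hP.imp fun R hR => hR.tt) (key hr.sub hP hp) (fun t ht => ?_) hx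
    by_cases hct : c ∈ t
    · exact Or.inr hct
    · exact Or.inl ⟨ht, Or.inr (Or.inl hct)⟩
  · by_cases hπ : π = p (G.ie X a) + p (G.ie X b)
    · obtain ⟨O, hp, hP⟩ := h2
      have ea := (cut_of_sub hr.sub hq.mem.1 (cut_sub_tch hP.cut.1)).2
      have eb := (cut_of_sub hr.sub hq.mem.2.1 (cut_sub_tch hP.cut.2.1)).2
      refine k1_inn hK hX hu hq hr (hP.imp fun R hR => hR.tt) (key hr.sub hP ?_)
        (fun t h => Or.inr (ht t h).1) hx
      rw [hp, ea, eb, hπ]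
    · obtain ⟨O, hp, hP⟩ := h1
      refine k1_inn hK hX hu hq (Or.inl rfl) (hP.imp fun R hR => hR.tt) (key Subset.rfl hP ?_)
        (fun t h => Or.inl h) hx
      rw [hp]
      exact K1E1_z2' _ _ hπ

end SG

end Pool.Agent.Work.MP_8c679b_co
end

-- merged part: Pool.Agent.Work.MP_8c679b_co.K1.E
section
/-!
The case that the value at `i` is even and the values at `j`, `k` are odd.
-/

set_option autoImplicit false

namespace Pool.Agent.Work.MP_8c679b_co

open Finset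

namespace SG

variable {V E : Type} [Fintype V] [DecidableEq V] [DecidableEq E] {G : SG V E}
  {T X : Finset V} {p : V → ZMod 2} {z i j k a b c d : E} {ψ : E → ZMod 3}

theorem K1E_rch (hK : G.KC T p z i j k) {x y : V} (hx : x ∈ T) (hy : y ∈ T) :
    G.Rch ((G.ins T).erase z) x y := by
  classical
  by_contra h
  have h2 := hK.ht.f3' hK.t3.2.1 (T.filter (G.Rch ((G.ins T).erase z) x))
    (filter_subset _ _) ⟨x, mem_filter.2 ⟨hx, Rch.refl _ _⟩⟩
    fun k1 => h (mem_filter.1 (k1.symm ▸ hy : y ∈ T.filter (G.Rch ((G.ins T).erase z) x))).2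
  have h3 : G.crs (G.ins T) (T.filter (G.Rch ((G.ins T).erase z) x)) ⊆ {z} := fun e he => by
    obtain ⟨h1, h4⟩ := mem_crs.1 he
    obtain ⟨-, h5, h6⟩ := mem_ins.1 h1
    by_contra h7
    have h8 := mem_erase.2 ⟨fun w => h7 (mem_singleton.2 w), h1⟩
    exact h4 ⟨fun k1 => mem_filter.2 ⟨h6, (mem_filter.1 k1).2.trans (rch_edge h8)⟩,
      fun k1 => mem_filter.2 ⟨h5, (mem_filter.1 k1).2.trans (rch_edge h8).symm⟩⟩
  have h9 := card_le_card h3
  rw [card_singleton] at h9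
  omega

/-- No side has to be hit.  HINT: `path3` with `Y = T`, `a = j`, `b = k`, `x1 = i`,
`x2 = x3 = z`, marked vertices `ie T i`, `s z`, `t z` (pairwise different by `KC.ni`, `KC.st`),
and `ψ` updated at `z` by `-(chi (p (s z))) * (kap p T i * ψ i)`.  `HT.f3'` gives the walk
(`T` stays connected without `z`), `HT.four` the cut condition; `KC.kapz`; `fil_of`. -/
theorem k1_e0 (hK : G.KC T p z i j k) (n1 : ψ i ≠ 0)
    (hs : G.kap p T j * ψ j + G.kap p T k * ψ k = G.kap p T i * ψ i) :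
    ∃ O φ, G.Fil T {j, k} ∅ ψ O φ ∧ z ∉ O := by
  obtain ⟨mi, mj, mk⟩ := hK.mem
  obtain ⟨s1, s2, s3⟩ := hK.st
  have nz : ∀ e ∈ G.cut T, e ≠ z := fun e he w => not_ins_of_cut he (w ▸ hK.zi)
  have hc : ∀ e ∈ G.tch T, e ∉ (G.ins T).erase z → e = z ∨ e ∈ G.cut T := fun e he h =>
    (mem_tch_iff.1 he).imp_left fun w => not_not.1 fun u => h (mem_erase.2 ⟨u, w⟩)
  obtain ⟨ψ', hz, hu⟩ : ∃ ψ' : E → ZMod 3, ψ' z = -(chi (p (G.s z))) * (G.kap p T i * ψ i) ∧
      ∀ e ∈ G.cut T, ψ' e = ψ e :=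
    ⟨Function.update ψ z _, Function.update_self .., fun e he => Function.update_of_ne (nz e he) ..⟩
  obtain ⟨O, φ, h1, h2, h3, h4⟩ := path3 (x1 := i) (x2 := z) (x3 := z) (p := p) (ψ := ψ') (z := z)
    hK.cub hK.ht Subset.rfl mj mk hK.dv.2.2 (ie_mem (cut_sub_tch mi)) s1 s2
    (fun e he h => by
      rcases hc e he h with rfl | w
      · exact .inr (.inr fun y _ u => .inr (u.imp (fun x => ⟨rfl, x.symm⟩) fun x => ⟨rfl, x.symm⟩))
      · rcases hK.cases w with rfl | rfl | rfl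
        exacts [.inr (.inr fun y hy u => .inl ⟨rfl, eq_ie w hy u⟩), .inl rfl, .inr (.inl rfl)])
    (K1E_rch hK (ie_mem (cut_sub_tch mj)) (ie_mem (cut_sub_tch mk)))
    (fun K hs a1 a2 a3 => by
      have c2 : 1 < K.card := one_lt_card.2 (by
        rcases a3 with w | w | w
        exacts [⟨_, w.1, _, w.2, fun u => hK.ni (.inl u.symm)⟩,
          ⟨_, w.1, _, w.2, fun u => hK.ni (.inr u.symm)⟩, ⟨_, w.1, _, w.2, s3⟩])
      have c4 := hK.ht.four Subset.rfl
        (hs.ssubset_of_ne fun w => a1 (w.symm ▸ ie_mem (cut_sub_tch mj))) c2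
      have c5 : G.cut K ⊆ G.crs ((G.ins T).erase z) K ∪ {i, z} := fun e he => by
        rw [mem_union, mem_insert, mem_singleton]
        by_cases w : e ∈ (G.ins T).erase z
        · exact .inl (mem_crs.2 ⟨w, (mem_cut.1 he).2⟩)
        · rcases hc e (tch_mono hs (cut_sub_tch he)) w with u | u
          · exact .inr (.inr u)
          · have y := (cut_of_sub hs u (cut_sub_tch he)).2 ▸ ie_mem (cut_sub_tch he)
            rcases hK.cases u with rfl | rfl | rfl
            exacts [.inr (.inl rfl), absurd y a1, absurd y a2]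
      have c6 := (card_le_card c5).trans (card_union_le _ _)
      have c7 : ({i, z} : Finset E).card ≤ 2 := card_le_two
      omega)
    hK.bal
    (fun e he h a1 a2 => by
      rcases hc e he h with rfl | w
      · rw [hz]
        refine mul_ne_zero (neg_ne_zero.2 fun u => ?_) ((kap_ne3 mi).2 n1)
        have y := chi_mul_self (R := ZMod 3) (p (G.s e))
        rw [u, zero_mul] at y
        exact zero_ne_one y
      · rcases hK.cases w with rfl | rfl | rfl
        exacts [(hu e w).symm ▸ n1, absurd rfl a1, absurd rfl a2])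
    (by
      have e1 : G.tch T \ (G.ins T).erase z = insert z (G.cut T) := by
        ext e
        rw [mem_sdiff, mem_insert]
        refine ⟨fun w => hc e w.1 w.2, ?_⟩
        rintro (rfl | w)
        exacts [⟨ins_sub_tch hK.zi, notMem_erase _ _⟩,
          ⟨cut_sub_tch w, fun u => not_ins_of_cut w (mem_of_mem_erase u)⟩]
      have e2 := tw_q3 (p := p) hK.q3 ψ'
      rw [hu i mi, hu j mj, hu k mk, hs, tw] at e2
      rw [e1, sum_insert fun w => nz z w rfl, e2, hz, hK.kapz.1 hK.zi]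
      linear_combination (-2 * (G.kap p T i * ψ i)) * chi_mul_self (R := ZMod 3) (p (G.s z)))
  obtain ⟨φ', h5, -⟩ := fil_of (ψ := ψ) h1 h3 fun e he =>
    (h4 e fun u => not_ins_of_cut he (mem_of_mem_erase u)).trans (hu e he)
  exact ⟨O, φ', h5, h2 hK.zi⟩

/-- The choice of the exit edge.  HINT: the three edges of `cut X` other than `j` have different
outer ends (`HT.oe_ne`, `KB1.mem`; two terminals lie outside `X`).  If one of them ends at
`ie T i` take it, otherwise take one that does not end at `ie T k`; `exists_q4`. -/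
theorem k1_exit (hK : G.KC T p z i j k) (hX : G.KB1 T j X) :
    ∃ g c d, G.Q4 X j g c d ∧ G.oe X g ≠ G.ie T k ∧ G.oe X c ≠ G.ie T i ∧ G.oe X d ≠ G.ie T i ∧
      G.oe X c ≠ G.oe X d := by
  obtain ⟨mi, mj, mk⟩ := hK.mem
  obtain ⟨b1, -, -, -, b5, b6⟩ := hX.mem
  have h4 := hX.2.1.1
  have ne : ∀ e ∈ G.cut X, e ≠ j → ∀ f ∈ G.cut X, e ≠ f → G.oe X e ≠ G.oe X f :=
    fun e he a1 f hf a2 => hK.ht.oe_ne hK.cub hX.1 h4 he hf a2 (mem_sdiff.1 (b6 e he a1).2).1
      fun w => by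
        have u1 := ie_mem (cut_sub_tch mi)
        have u2 := ie_mem (cut_sub_tch mk)
        rw [← w] at u1 u2
        have u3 := (mem_insert.1 u1).resolve_right (w ▸ (b5 i mi hK.q3.2.1).1)
        have u4 := (mem_insert.1 u2).resolve_right (w ▸ (b5 k mk hK.q3.2.2.2.symm).1)
        exact hK.dv.2.1 (w ▸ u3.trans u4.symm)
  have key : ∀ g ∈ G.cut X, g ≠ j → G.oe X g ≠ G.ie T k →
      (∀ e ∈ G.cut X, e ≠ j → e ≠ g → G.oe X e ≠ G.ie T i) →
      ∃ g c d, G.Q4 X j g c d ∧ G.oe X g ≠ G.ie T k ∧ G.oe X c ≠ G.ie T i ∧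
        G.oe X d ≠ G.ie T i ∧ G.oe X c ≠ G.oe X d := fun g hg a1 a2 a3 => by
    obtain ⟨c, d, hq⟩ := exists_q4 h4 b1 hg a1.symm
    obtain ⟨-, -, mc, md⟩ := hq.mem
    obtain ⟨-, -, q2, q3, q4, q5, q6⟩ := id hq
    exact ⟨g, c, d, hq, a2, a3 c mc q2.symm q4.symm, a3 d md q3.symm q5.symm,
      ne c mc q2.symm d md q6⟩
  by_cases h : ∃ g ∈ G.cut X, g ≠ j ∧ G.oe X g = G.ie T i
  · obtain ⟨g, hg, a1, a2⟩ := h
    exact key g hg a1 (a2 ▸ hK.dv.2.1) fun e he a3 a4 => a2 ▸ ne e he a3 g hg a4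
  · have h' : ∀ e ∈ G.cut X, e ≠ j → G.oe X e ≠ G.ie T i := fun e he a1 a2 => h ⟨e, he, a1, a2⟩
    obtain ⟨g, hg, a1⟩ := exists_mem_ne (by omega : 1 < (G.cut X).card) j
    obtain ⟨c, d, hq⟩ := exists_q4 h4 b1 hg a1.symm
    by_cases w : G.oe X g = G.ie T k
    · exact key c hq.mem.2.2.1 hq.2.2.1.symm
        (w ▸ ne c hq.mem.2.2.1 hq.2.2.1.symm g hg hq.2.2.2.2.1.symm) fun e he a3 _ => h' e he a3
    · exact key g hg a1 w fun e he a3 _ => h' e he a3

/-- All unbalanced sides inside `X` are hit.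
HINT: `k1_exit`, `k1_inE` with `x = kap p T j * ψ j`.  Let `ψ'` be `φ` on `tch X` and `ψ`
elsewhere.  `out5` for `Y = T \ X` with the edges `g, k, i, c, d` (`Spl_sd`, `ie_link`).  If
`K ⊆ Y` misses the ends of `g, k` and has the cut `{i, c, d, e}` then `Y \ K` is nonempty with cut
inside `{k, g, e}`, hence a single vertex.  The switched sum over `Y` vanishes by `KC.cons` for
`X`, `kap_link`, `kap_sub`.  `fil_self`, `Fil.union`, `Fil.congr`. -/
theorem k1_eB (hK : G.KC T p z i j k) (hX : G.KB1 T j X) (n1 : ψ i ≠ 0)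
    (hs : G.kap p T j * ψ j + G.kap p T k * ψ k = G.kap p T i * ψ i)
    (ho : G.kap p T j * ψ j = -(G.kap p T i * ψ i)) :
    ∃ O φ, G.Fil T {j, k} (G.Kus X) ψ O φ ∧ z ∉ O := by
  obtain ⟨mi, mj, mk⟩ := hK.mem
  obtain ⟨b1, -, b3, -, b5, b6⟩ := hX.mem
  obtain ⟨g, c, d, hq, o1, o2, o3, o4⟩ := k1_exit hK hX
  obtain ⟨-, mg, mc, md⟩ := hq.mem
  obtain ⟨-, q1, q2, q3, q4, q5, q6⟩ := id hq
  obtain ⟨-, r1, r2, r3⟩ := hK.q3
  obtain ⟨O1, φ1, h1, h2, h3, h4, h5⟩ := k1_inE hK hX.1 hX.2.1 hq (x := G.kap p T j * ψ j)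
    (ho.symm ▸ neg_ne_zero.2 ((kap_ne3 mi).2 n1))
  have zX := hK.zin hX.1 hX.2.1.2
  have ti := (b5 i mi r1).2
  have tk := (b5 k mk r3.symm).2
  have hd : Disjoint X (T \ X) := disjoint_sdiff
  have hY : T \ X ⊆ T := sdiff_subset
  obtain ⟨ψ', u1, u2⟩ : ∃ ψ' : E → ZMod 3, (∀ e ∈ G.tch X, ψ' e = φ1 e) ∧
      ∀ e, e ∉ G.tch X → ψ' e = ψ e :=
    ⟨fun e => if e ∈ G.tch X then φ1 e else ψ e, fun e he => if_pos he, fun e he => if_neg he⟩
  have cX : ∀ e ∈ G.cut X, e ≠ j → e ∈ G.cut (T \ X) := fun e he a1 =>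
    (Spl_sd hX.1 e).2 fun w => not_ins_of_cut (w.2 he) (b6 e he a1).1
  have cT : ∀ e ∈ G.cut T, e ∉ G.tch X → e ∈ G.cut (T \ X) := fun e he a1 =>
    (Spl_sd hX.1 e).2 fun w => a1 (cut_sub_tch (w.1 he))
  have yg := cX g mg q1.symm
  have yc := cX c mc q2.symm
  have yd := cX d md q3.symm
  have yi := cT i mi ti
  have yk := cT k mk tk
  have ne : ∀ e ∈ G.cut X, ∀ f, f ∉ G.tch X → f ≠ e := fun e he f hf w => hf (w ▸ cut_sub_tch he)
  have c5 : G.cut (T \ X) = {g, k, i, c, d} := by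
    ext e
    simp only [mem_insert, mem_singleton]
    constructor
    · intro he
      have w := (Spl_sd hX.1 e).1 he
      by_cases a1 : e ∈ G.cut T
      · rcases hK.cases a1 with rfl | rfl | rfl
        exacts [.inr (.inr (.inl rfl)), absurd (iff_of_true a1 b1) w, .inr (.inl rfl)]
      · have a2 : e ∈ G.cut X := not_not.1 fun a2 => w (iff_of_false a1 a2)
        rcases (Spl_mem hq e).1 a2 with rfl | rfl | rfl | rfl
        exacts [absurd mj a1, .inl rfl, .inr (.inr (.inr (.inl rfl))),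
          .inr (.inr (.inr (.inr rfl)))]
    · rintro (rfl | rfl | rfl | rfl | rfl) <;> assumption
  have eg := (ie_link hd mg yg).1
  have ec := (ie_link hd mc yc).1
  have ed := (ie_link hd md yd).1
  have ei := (cut_of_sub hY mi (cut_sub_tch yi)).2
  have ek := (cut_of_sub hY mk (cut_sub_tch yk)).2
  have dgk : G.Dv (T \ X) g k := by rw [Dv, eg, ek]; exact o1
  have nO : ∀ e ∈ G.cut X, e ≠ j → e ≠ g → ψ' e ≠ 0 := fun e he a1 a2 => by
    rw [u1 e (cut_sub_tch he)]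
    refine h3.2.1 e (cut_sub_tch he) fun w => ?_
    have y : e ∈ O1 ∩ G.cut X := mem_inter.2 ⟨w, he⟩
    rw [h1.2.2, mem_insert, mem_singleton] at y
    exact y.elim a1 a2
  have kl : ∀ e ∈ G.cut X, e ≠ j → (G.kap p (T \ X) e : ZMod 3) = -G.kap p X e := fun e he a1 =>
    kap_link hd he (cX e he a1) (hK.bal e (b6 e he a1).1 fun w => not_ins_of_cut he (w ▸ zX))
  obtain ⟨O2, φ2, h6⟩ := out5 (p := p) (ψ := ψ') hK.cub hK.ht hY c5 dgk
    (by rw [Dv, ei, ec]; exact o2.symm) (by rw [Dv, ei, ed]; exact o3.symm)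
    (by rw [Dv, ec, ed]; exact o4)
    (fun K hs a1 a2 a3 a4 a5 a6 => by
      have d1 := Spl_card (G := G) hs
      have d2 : (G.cut (T \ X)).card ≤ 5 := c5 ▸ card_le_five
      have d3 : ({i, c, d} : Finset E) ⊆ G.cut K ∩ G.cut (T \ X) :=
        insert_subset (mem_inter.2 ⟨a3, yi⟩) (insert_subset (mem_inter.2 ⟨a4, yc⟩)
          (singleton_subset_iff.2 (mem_inter.2 ⟨a5, yd⟩)))
      have d4 := card_le_card d3
      rw [card_eq_three.2 ⟨i, c, d, ne c mc i ti, ne d md i ti, q6, rfl⟩] at d4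
      have d5 := hK.ht.four Subset.rfl ((sdiff_subset (t := K)).trans hY |>.ssubset_of_ne fun w =>
        (mem_sdiff.1 (mem_sdiff.1 (w.symm ▸ hX.1 b3 : G.ie T j ∈ (T \ X) \ K)).1).2 b3)
        (one_lt_card.2 ⟨_, mem_sdiff.2 ⟨ie_mem (cut_sub_tch yg), a1⟩, _,
          mem_sdiff.2 ⟨ie_mem (cut_sub_tch yk), a2⟩, dgk⟩)
      omega)
    (hK.bal' hY fun w => (mem_sdiff.1 (mem_ins.1 w).2.1).2 (mem_ins.1 zX).2.1)
    ((u2 i ti).symm ▸ n1) (nO c mc q2.symm q4.symm) (nO d md q3.symm q5.symm)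
    (by
      have e1 := (hK.cons hX.1 h3.1).1 zX
      rw [tw_q4 hq, h4, h5] at e1
      have e3 : (3 : ZMod 3) = 0 := rfl
      rw [tw, c5, sum_insert (by
          simp only [mem_insert, mem_singleton, not_or]
          exact ⟨(ne g mg k tk).symm, (ne g mg i ti).symm, q4, q5⟩),
        sum_insert (by
          simp only [mem_insert, mem_singleton, not_or]
          exact ⟨r2.symm, ne c mc k tk, ne d md k tk⟩),
        sum_insert (by
          simp only [mem_insert, mem_singleton, not_or]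
          exact ⟨ne c mc i ti, ne d md i ti⟩),
        sum_pair q6, kl g mg q1.symm, kl c mc q2.symm, kl d md q3.symm,
        kap_sub hY mk (cut_sub_tch yk), kap_sub hY mi (cut_sub_tch yi), u2 k tk, u2 i ti,
        u1 g (cut_sub_tch mg), u1 c (cut_sub_tch mc), u1 d (cut_sub_tch md)]
      linear_combination hs - ho - e1 + (G.kap p T j * ψ j + G.kap p T i * ψ i) * e3)
  obtain ⟨φ, h7, h8, -⟩ := (fil_self h1 h3 u1).union h6 hd fun e a1 a2 => by
    simp only [mem_insert, mem_singleton]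
    refine ⟨fun w => .inl (w.resolve_left ?_), fun w => .inr (w.resolve_right ?_)⟩
    · rintro rfl
      exact (mem_sdiff.1 ((cut_of_sub hY mj a2).2 ▸ ie_mem a2)).2 b3
    · rintro rfl
      exact tk a1
  have eJ : (({j, g} ∪ {g, k}) \ ({j, g} ∩ {g, k}) : Finset E) = {j, k} := by
    have gk := ne g mg k tk
    ext e
    simp only [mem_sdiff, mem_union, mem_inter, mem_insert, mem_singleton]
    constructor
    · rintro ⟨(w | w) | w | w, y⟩
      exacts [.inl w, absurd ⟨.inr w, .inl w⟩ y, absurd ⟨.inr w, .inl w⟩ y, .inr w]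
    · rintro (rfl | rfl)
      exacts [⟨.inl (.inl rfl), fun w => w.2.elim q1 r3⟩,
        ⟨.inr (.inr rfl), fun w => w.1.elim r3.symm gk⟩]
  rw [union_sdiff_of_subset hX.1, eJ, Set.union_empty] at h7
  obtain ⟨φ', h9, -⟩ := h7.congr (ψ' := ψ) fun e he => by
    rcases hK.cases he with rfl | rfl | rfl
    · exact u2 e ti
    · rw [u1 e (cut_sub_tch b1)]
      rw [kap_sub hX.1 he (cut_sub_tch b1)] at h4
      exact kap_inj he h4
    · exact u2 e tk
  exact ⟨_, φ', h9, fun w => h2 ((h8 z (ins_sub_tch zX)).2.1 w)⟩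

theorem K1E_cast {h : E → ℤ}
    (hs : G.kap p T j * h j + G.kap p T k * h k = G.kap p T i * h i) :
    G.kap p T j * (h j : ZMod 3) + G.kap p T k * (h k : ZMod 3) = G.kap p T i * (h i : ZMod 3) := by
  have w := congrArg (Int.cast : ℤ → ZMod 3) hs
  simpa only [Int.cast_add, Int.cast_mul, Def6_cast] using w

theorem K1E_lift (hK : G.KC T p z i j k) {h : E → ℤ} (hB : G.Bv T h)
    (hs : G.kap p T j * h j + G.kap p T k * h k = G.kap p T i * h i) (hi : ¬ Odd (h i))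
    (hj : Odd (h j)) (hk : Odd (h k)) {O : Finset E} {φ : E → ZMod 3}
    (hF : G.Fil T {j, k} ∅ (fun e => (h e : ZMod 3)) O φ) (hz : z ∉ O)
    (kB : ∀ m, m = j ∨ m = k → |h m| = 1 → 4 ≤ |h i| →
      G.kap p T m * (h m : ZMod 3) = -(G.kap p T i * (h i : ZMod 3)) → ∀ X, G.KB1 T m X →
      ∃ e ∈ G.cut X, e ≠ m ∧ (e ∉ O ∨ φ e = 0)) : G.Ext T h := by
  refine lift1 hK hB hs hF (fun e he => ?_) (iff_of_false hz hi) (fun w => absurd ?_ hi)
    fun m a1 a2 a3 a4 X hX => ?_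
  · rw [mem_insert, mem_singleton]
    rcases hK.cases he with rfl | rfl | rfl
    exacts [iff_of_false (fun w => w.elim hK.q3.2.1 hK.q3.2.2.1) hi, iff_of_true (.inl rfl) hj,
      iff_of_true (.inr rfl) hk]
  · rw [Int.odd_iff]
    rcases abs_cases (h i) with u | u <;> omega
  · obtain ⟨e, b1, b2, b3⟩ := kB m a1 a2 a3 a4 X hX
    exact ⟨e, b1, b2, b3.imp_right .inl⟩

theorem K1E_side (hK : G.KC T p z i j k) {h : E → ℤ} (hB : G.Bv T h)
    (hs : G.kap p T j * h j + G.kap p T k * h k = G.kap p T i * h i) (hi : ¬ Odd (h i))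
    (hj : Odd (h j)) (hk : Odd (h k)) (h1 : |h j| = 1) (h4 : 4 ≤ |h i|)
    (ho : G.kap p T j * (h j : ZMod 3) = -(G.kap p T i * (h i : ZMod 3))) (hX : G.KB1 T j X) :
    G.Ext T h := by
  obtain ⟨mi, mj, mk⟩ := hK.mem
  obtain ⟨M, hM, hmax⟩ := hK.maxB hX
  have n1 := AX3_res (hB i mi) hi
  obtain ⟨O, φ, hF, hz⟩ := k1_eB (ψ := fun e => (h e : ZMod 3)) hK hM n1 (K1E_cast hs) ho
  refine K1E_lift hK hB hs hi hj hk (hF.mono (Set.empty_subset _)) hz ?_
  rintro m (rfl | rfl) a2 - - Y hY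
  · obtain ⟨e, b1, -, b3⟩ := hF.2.2.2.2 _ ⟨Y, hmax Y hY, hY.2.1, rfl⟩
    refine ⟨e, b1, ?_, b3⟩
    rintro rfl
    rcases b3 with w | w
    · exact w (mem_inter.1 (hF.1.2.2.ge (mem_insert_self _ _))).1
    · rw [hF.2.1 e (not_ins_of_cut mj)] at w
      beta_reduce at w
      rw [w, mul_zero, eq_comm, neg_eq_zero] at ho
      exact (kap_ne3 (φ := fun e => (h e : ZMod 3)) mi).2 n1 ho
  · exfalso
    rcases Def6_kap p mi with x | x <;> rcases Def6_kap p mj with y | y <;>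
      rcases Def6_kap p mk with w | w <;> rw [x, y, w] at hs <;>
      rcases abs_cases (h i) with u1 | u1 <;> rcases abs_cases (h j) with u2 | u2 <;>
      rcases abs_cases (h m) with u3 | u3 <;> omega

/-- HINT: `h k` is odd (`Def6_kap`).  If the hypotheses of `kB` hold for `m = j` and some side,
take the largest one (`KC.maxB`) and `k1_eB`; the hit edge is not `j` since `j ∈ O` and its
residue is nonzero; for `m = k` the hypotheses fail because then `|h k| = 5`.  Symmetrically for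
`m = k` (`KC.swap`; prove one auxiliary lemma).  Otherwise `k1_e0`.  `lift1`, `AX3_res`. -/
theorem k1_even (hK : G.KC T p z i j k) {h : E → ℤ} (hB : G.Bv T h)
    (hs : G.kap p T j * h j + G.kap p T k * h k = G.kap p T i * h i) (hi : ¬ Odd (h i))
    (hj : Odd (h j)) : G.Ext T h := by
  obtain ⟨mi, mj, mk⟩ := hK.mem
  have hk : Odd (h k) := by
    rw [Int.odd_iff] at hi hj ⊢
    rcases Def6_kap p mi with x | x <;> rcases Def6_kap p mj with y | y <;>
      rcases Def6_kap p mk with w | w <;> rw [x, y, w] at hs <;> omega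
  by_cases hc : ∃ m, (m = j ∨ m = k) ∧ |h m| = 1 ∧ 4 ≤ |h i| ∧
      G.kap p T m * (h m : ZMod 3) = -(G.kap p T i * (h i : ZMod 3)) ∧ ∃ X, G.KB1 T m X
  · obtain ⟨m, rfl | rfl, a2, a3, a4, X, hX⟩ := hc
    · exact K1E_side hK hB hs hi hj hk a2 a3 a4 hX
    · exact K1E_side hK.swap hB ((add_comm _ _).trans hs) hi hk hj a2 a3 a4 hX
  · obtain ⟨O, φ, hF, hz⟩ := k1_e0 (ψ := fun e => (h e : ZMod 3)) hK (AX3_res (hB i mi) hi)
      (K1E_cast hs)
    exact K1E_lift hK hB hs hi hj hk hF hz fun m a1 a2 a3 a4 X hX =>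
      absurd ⟨m, a1, a2, a3, a4, X, hX⟩ hc

end SG

end Pool.Agent.Work.MP_8c679b_co
end

-- merged part: Pool.Agent.Work.MP_8c679b_co.K1.Be0
section
/-!
Operations on global residue solutions.
-/

set_option autoImplicit false

namespace Pool.Agent.Work.MP_8c679b_co

open Finset

namespace SG

variable {V E : Type} [Fintype V] [DecidableEq V] [DecidableEq E] {G : SG V E}
  {p : V → ZMod 2} {O D C : Finset E} {φ : E → ZMod 3} {e f : E}

variable (G) in
/-- global residue solutions -/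
def GS (O : Finset E) (φ : E → ZMod 3) : Prop :=
  O ⊆ G.A ∧ G.Ev O ∧ (∀ v, G.bd φ v = 0) ∧ ∀ e ∈ G.A, e ∉ O → φ e ≠ 0

theorem GS.neg (h : G.GS O φ) : G.GS O fun e => -φ e := by
  obtain ⟨h1, h2, h3, h4⟩ := h
  refine ⟨h1, h2, fun v => ?_, fun e he ho => neg_ne_zero.2 (h4 e he ho)⟩
  have k := bd_mul (G := G) (v := v) (-1 : ZMod 3) φ
  rw [h3 v, mul_zero] at k
  simpa only [neg_one_mul] using k

/-- HINT: `Ev.symmDiff`. -/
theorem GS.tog (h : G.GS O φ) (hD : D ⊆ G.A) (hE : G.Ev D) (h0 : ∀ e ∈ D, φ e ≠ 0) :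
    G.GS (symmDiff O D) φ := by
  obtain ⟨h1, h2, h3, h4⟩ := h
  refine ⟨fun x hx => ?_, h2.symmDiff hE, h3, fun x hx ho => ?_⟩
  · rcases Finset.mem_symmDiff.1 hx with k | k
    exacts [h1 k.1, hD k.1]
  · by_cases k : x ∈ D
    · exact h0 x k
    · exact h4 x hx fun k' => ho (Finset.mem_symmDiff.2 (Or.inl ⟨k', k⟩))

lemma K1Be0_cut (hφ : ∀ v, G.bd φ v = 0) (he : e ∈ G.A) (h0 : φ e ≠ 0)
    (hp : ∀ x ∈ G.A, x ≠ e → x ≠ f → G.sw p x = 0 ∨ φ x = 0) {U : Finset V}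
    (hU : ¬ (G.s e ∈ U ↔ G.t e ∈ U)) (hf : G.s f ∉ U)
    (hS : ∀ x ∈ G.A, x ≠ e → φ x ≠ 0 → (G.s x ∈ U ↔ G.t x ∈ U)) : False := by
  have k := sum_bd (G := G) p U φ
  rw [sum_eq_zero fun v _ => by rw [hφ v, mul_zero], sum_eq_single_of_mem e he] at k
  · exact mul_ne_zero (sol1_kap_cut hU) h0 k.symm
  · intro x hx hxe
    by_cases hx0 : φ x = 0
    · rw [hx0, mul_zero]
    · have k1 := hS x hx hxe hx0
      by_cases hs : G.s x ∈ U
      · have hxf : x ≠ f := fun q => hf (q ▸ hs)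
        rcases hp x hx hxe hxf with q | q
        · rw [sol1_kap_zero (mem_ins.2 ⟨hx, hs, k1.1 hs⟩) q, zero_mul]
        · exact absurd q hx0
      · rw [kap_out hs fun q => hs (k1.2 q), zero_mul]

/-- An edge of the support lies in an even subset of the support.
HINT: let `S` be the support without `e`.  If `t e` is reached from `s e` in `S` use `Rch.od`
and add `e`.  Otherwise let `X` be the set of reached vertices; one of `X`, `univ \ X` does not
contain both ends of `f`; `sum_bd` for this set leaves the single nonzero term of `e`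
(`sol1_kap_zero`, `kap_out`, `sol1_kap_cut`). -/
theorem k1_brg (hφ : ∀ v, G.bd φ v = 0) (he : e ∈ G.A) (h0 : φ e ≠ 0)
    (hp : ∀ x ∈ G.A, x ≠ e → x ≠ f → G.sw p x = 0 ∨ φ x = 0) :
    ∃ D ⊆ G.A, G.Ev D ∧ e ∈ D ∧ ∀ x ∈ D, φ x ≠ 0 := by
  classical
  by_cases hR : G.Rch ((G.A.filter fun x => φ x ≠ 0).erase e) (G.s e) (G.t e)
  · obtain ⟨P, hP, hO⟩ := hR.od
    have hd : Disjoint P {e} := disjoint_singleton_right.2 fun q => notMem_erase e _ (hP q)
    refine ⟨P ∪ {e}, fun x hx => ?_, ?_, mem_union_right _ (mem_singleton_self e),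
      fun x hx => ?_⟩
    · rcases mem_union.1 hx with q | q
      · exact (mem_filter.1 (mem_of_mem_erase (hP q))).1
      · rw [mem_singleton.1 q]
        exact he
    · exact od_self.1 (hO.union (od_edge (Or.inr ⟨rfl, rfl⟩)) hd)
    · rcases mem_union.1 hx with q | q
      · exact (mem_filter.1 (mem_of_mem_erase (hP q))).2
      · rw [mem_singleton.1 q]
        exact h0
  · exfalso
    obtain ⟨X, hX⟩ : ∃ X : Finset V, ∀ v, v ∈ X ↔
        G.Rch ((G.A.filter fun x => φ x ≠ 0).erase e) (G.s e) v :=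
      ⟨univ.filter fun v => G.Rch ((G.A.filter fun x => φ x ≠ 0).erase e) (G.s e) v,
        fun v => by rw [mem_filter]; exact and_iff_right (mem_univ v)⟩
    have h1 : G.s e ∈ X := (hX _).2 (Rch.refl _ _)
    have h2 : G.t e ∉ X := fun q => hR ((hX _).1 q)
    have h3 : ∀ x ∈ G.A, x ≠ e → φ x ≠ 0 → (G.s x ∈ X ↔ G.t x ∈ X) := fun x hx hxe hx0 => by
      have q : G.Rch ((G.A.filter fun x => φ x ≠ 0).erase e) (G.s x) (G.t x) :=
        rch_edge (mem_erase.2 ⟨hxe, mem_filter.2 ⟨hx, hx0⟩⟩)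
      rw [hX, hX]
      exact ⟨fun r => r.trans q, fun r => r.trans q.symm⟩
    by_cases hf : G.s f ∈ X
    · refine K1Be0_cut hφ he h0 hp (U := Xᶜ) ?_ (fun q => mem_compl.1 q hf) ?_
      · rw [mem_compl, mem_compl]
        exact fun q => q.2 h2 h1
      · intro x hx hxe hx0
        rw [mem_compl, mem_compl]
        exact not_congr (h3 x hx hxe hx0)
    · exact K1Be0_cut hφ he h0 hp (U := X) (fun q => h2 (q.1 h1)) hf h3

lemma K1Be0_cn (cC : G.Cc C) (he : e ∈ C) : G.Cn (G.vs C) (C.erase e) := by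
  have h1 : G.Rch (C.erase e) (G.s e) (G.t e) := by
    rw [← sdiff_singleton_eq_erase]
    exact (cC.2.1.sdiff (od_edge (Or.inl ⟨rfl, rfl⟩)) (singleton_subset_iff.2 he)).rch
  refine cn_of_base (a := G.s e) fun v hv => ?_
  refine Rch.closed (P := fun v => G.Rch (C.erase e) (G.s e) v) (cC.2.2 _ (s_mem_vs he) v hv)
    (fun x hx => ?_) (Rch.refl _ _)
  have q : G.Rch (C.erase e) (G.s x) (G.t x) := by
    by_cases k : x = e
    · rw [k]
      exact h1
    · exact rch_edge (mem_erase.2 ⟨k, hx⟩)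
  exact ⟨fun r => r.trans q, fun r => r.trans q.symm⟩

/-- Shifting along a balanced circuit inside `O`.
HINT: `Cc.bal`; update `φ` at `e`; `ext3` with `U = vs C`, `H = C.erase e` (connected since
`C.erase e` has the odd vertices `s e`, `t e`: `Od.rch`); the switched sum does not change because
`kap` vanishes at `e`; `bd_congr` outside `U`. -/
theorem GS.shift (hc : G.Cub) (h : G.GS O φ) (hC : C ⊆ O) (cC : G.Cc C) (h0 : G.par C = 0)
    (he : e ∈ C) (y : ZMod 3) :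
    ∃ φ', G.GS O φ' ∧ φ' e = y ∧ ∀ x, x ∉ C → φ' x = φ x := by
  obtain ⟨h1, h2, h3, h4⟩ := h
  have hA : C ⊆ G.A := hC.trans h1
  obtain ⟨q, hq⟩ := cC.bal hc hA h0
  have hk : (G.kap q (G.vs C) e : ZMod 3) = 0 := sol1_kap_zero (sub_ins_vs hA he) (hq e he)
  have hs : ∑ x ∈ G.A, G.kap q (G.vs C) x * Function.update φ e y x = 0 := by
    have k := sum_bd (G := G) q (G.vs C) φ
    rw [sum_eq_zero fun v _ => by rw [h3 v, mul_zero]] at k
    rw [k]
    refine sum_congr rfl fun x _ => ?_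
    by_cases r : x = e
    · rw [r, hk, zero_mul, zero_mul]
    · rw [Function.update_of_ne r]
  obtain ⟨ψ, k1, k2⟩ := ext3 ((erase_subset e C).trans (sub_ins_vs hA)) (K1Be0_cn cC he)
    (Function.update φ e y) (Or.inr ⟨q, fun x hx => hq x (mem_of_mem_erase hx), hs⟩)
  have k3 : ∀ x, x ∉ C → ψ x = φ x := fun x hx => by
    have r : x ≠ e := fun r => hx (r ▸ he)
    rw [k1 x fun r' => hx (mem_of_mem_erase r'), Function.update_of_ne r]
  refine ⟨ψ, ⟨h1, h2, fun v => ?_, fun x hx ho => ?_⟩, ?_, k3⟩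
  · by_cases r : v ∈ G.vs C
    · exact k2 v r
    · rw [← h3 v]
      exact bd_congr fun x _ hx => k3 x fun r' => r (mem_vs.2 ⟨x, r', hx⟩)
  · rw [k3 x fun r => ho (hC r)]
    exact h4 x hx ho
  · rw [k1 e (notMem_erase e C), Function.update_self]

end SG

end Pool.Agent.Work.MP_8c679b_co
end

-- merged part: Pool.Agent.Work.MP_8c679b_co.K1.Be1
section
/-!
The three-side with one outer vertex.
-/

set_option autoImplicit false

namespace Pool.Agent.Work.MP_8c679b_co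

open Finset

namespace SG

variable {V E : Type} [Fintype V] [DecidableEq V] [DecidableEq E] {G : SG V E}
  {p : V → ZMod 2} {O D C : Finset E} {φ : E → ZMod 3} {e f : E}

variable (G) in
/-- the three-side together with one outer vertex is the whole graph -/
structure K0 (T : Finset V) (p : V → ZMod 2) (z i j k : E) (r : V) : Prop where
  kc : G.KC T p z i j k
  nr : r ∉ T
  hA : G.A = G.tch T
  oe : ∀ e ∈ G.cut T, G.oe T e = r
  si : G.sw p i = 1
  sj : G.sw p j = 0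
  sk : G.sw p k = 0
  ad : ∀ x, ¬ G.Bal (G.A.erase x)

variable {T : Finset V} {z i j k a b c : E} {r : V} {ψ : E → ZMod 3}

theorem K1Be1_ends (h : G.K0 T p z i j k r) (he : e ∈ G.A) :
    (G.s e ∈ T ∧ G.t e ∈ T) ∨ (G.s e ∈ T ∧ G.t e = r) ∨ (G.s e = r ∧ G.t e ∈ T) := by
  have h1 := h.hA.le he
  rcases mem_tch_iff.1 h1 with h2 | h2
  · exact .inl (mem_ins.1 h2).2
  · have h3 := h.oe e h2
    unfold SG.oe at h3
    by_cases h4 : G.s e ∈ T
    · exact .inr (.inl ⟨h4, by rwa [if_pos h4] at h3⟩)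
    · exact .inr (.inr ⟨by rwa [if_neg h4] at h3, (mem_tch.1 h1).2.resolve_left h4⟩)

theorem K1Be1_cases (h : G.K0 T p z i j k r) (he : e ∈ G.A) :
    e ∈ G.ins T ∨ e = i ∨ e = j ∨ e = k :=
  (mem_tch_iff.1 (h.hA.le he)).imp id h.kc.cases

theorem K1Be1_out (h : G.K0 T p z i j k r) {X : Finset V} (hr : r ∉ X) :
    G.cut X = G.cut (X ∩ T) := by
  ext e
  simp only [mem_cut, mem_inter]
  refine and_congr_right fun he => ?_
  have := h.nr
  rcases K1Be1_ends h he with ⟨h1, h2⟩ | ⟨h1, h2⟩ | ⟨h1, h2⟩ <;> simp [*]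

theorem K1Be1_in (h : G.K0 T p z i j k r) {X : Finset V} (hr : r ∈ X) :
    G.cut X = G.cut (T \ X) := by
  ext e
  simp only [mem_cut, mem_sdiff]
  refine and_congr_right fun he => ?_
  have := h.nr
  rcases K1Be1_ends h he with ⟨h1, h2⟩ | ⟨h1, h2⟩ | ⟨h1, h2⟩ <;> simp [*]
  tauto

theorem K1Be1_cut (h : G.K0 T p z i j k r) : G.cut {r} = G.cut T := by
  rw [K1Be1_in h (mem_singleton_self r), sdiff_singleton_eq_erase, erase_eq_of_notMem h.nr]

theorem K1Be1_ins (h : G.K0 T p z i j k r) : G.ins {r} = ∅ :=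
  eq_empty_of_forall_notMem fun e he => by
    obtain ⟨h1, h2, h3⟩ := mem_ins.1 he
    have := K1Be1_ends h h1
    rw [mem_singleton.1 h2, mem_singleton.1 h3] at this
    exact h.nr (by tauto)

theorem K1Be1_far (h : G.K0 T p z i j k r) {v : V} (h1 : v ∉ T) (h2 : v ≠ r) (he : e ∈ G.A) :
    ¬ G.At e v := by
  have := K1Be1_ends h he
  rintro (rfl | rfl) <;> tauto

theorem K1Be1_vs (h : G.K0 T p z i j k r) : G.vs G.A = insert r T := by
  refine Subset.antisymm (fun v hv => ?_) (insert_subset ?_ h.kc.ht.act)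
  · obtain ⟨e, h1, h2⟩ := mem_vs.1 hv
    by_contra hn
    rw [mem_insert, not_or] at hn
    exact K1Be1_far h hn.2 hn.1 h1 h2
  · exact mem_vs.2 ⟨i, Pure_cutA h.kc.mem.1, h.oe i h.kc.mem.1 ▸ oe_at⟩

theorem K1Be1_zi (h : G.K0 T p z i j k r) : z ≠ i := fun a =>
  not_ins_of_cut h.kc.mem.1 (a ▸ h.kc.zi)

theorem K1Be1_kap {X Y : Finset V} (hd : Disjoint X Y) (h1 : e ∈ G.cut X) (h2 : e ∈ G.cut Y)
    (hs : G.sw p e = 1) : (G.kap p Y e : ZMod 3) = G.kap p X e := by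
  have a1 := (mem_cut.1 h1).2
  have a2 := (mem_cut.1 h2).2
  have a3 : ∀ v ∈ X, v ∉ Y := fun v hv => disjoint_left.1 hd hv
  have key : ∀ x y w : ZMod 2, w + x + y = 1 → (chi x : ZMod 3) = -(chi y * chi w) := by decide
  have a4 := key _ _ _ hs
  by_cases b : G.s e ∈ X
  · have b1 : G.t e ∉ X := by tauto
    have b2 := a3 _ b
    have b3 : G.t e ∈ Y := by tauto
    simp [kap, iv, b, b1, b2, b3, a4]
  · have b1 : G.t e ∈ X := by tauto
    have b2 := a3 _ b1
    have b3 : G.s e ∈ Y := by tauto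
    simp [kap, iv, b, b1, b2, b3, a4]

theorem K1Be1_bal {x : V} {q : V → ZMod 2} (hq : G.Q3 {x} a b c)
    (h0 : ∀ e ∈ G.A, e ∉ G.cut {x} → G.sw q e = 0) : ∃ y, G.Bal (G.A.erase y) := by
  have key : ∀ α β γ : ZMod 2, ∃ δ, (α + δ = 0 ∧ β + δ = 0) ∨ (α + δ = 0 ∧ γ + δ = 0) ∨
      (β + δ = 0 ∧ γ + δ = 0) := by decide
  obtain ⟨δ, hδ⟩ := key (G.sw q a) (G.sw q b) (G.sw q c)
  have h1 : ∀ y, (∀ e ∈ G.cut {x}, e ≠ y → G.sw q e + δ = 0) → G.Bal (G.A.erase y) := by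
    refine fun y hy => ⟨fun v => q v + δ * iv (v = x), fun e he => ?_⟩
    obtain ⟨h2, h3⟩ := mem_erase.1 he
    have h4 : G.sw (fun v => q v + δ * iv (v = x)) e =
        G.sw q e + δ * (iv (G.s e = x) + iv (G.t e = x)) := by
      unfold sw
      ring
    rw [h4]
    by_cases h5 : e ∈ G.cut {x}
    · rw [Pure_dg h5 (mem_singleton_self x), mem_singleton.1 (Spl_ie h5)]
      simpa [iv] using hy e h5 h2
    · rw [h0 e h3 h5]
      have h6 : G.s e = x ↔ G.t e = x := by simpa [mem_cut, h3] using h5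
      simp only [h6, z2_add_self, mul_zero, add_zero]
  have h7 : ∀ e ∈ G.cut {x}, e = a ∨ e = b ∨ e = c := fun e he => by simpa [hq.1] using he
  rcases hδ with ⟨u, w⟩ | ⟨u, w⟩ | ⟨u, w⟩
  · refine ⟨c, h1 c fun e he hn => ?_⟩
    rcases h7 e he with rfl | rfl | rfl
    exacts [u, w, absurd rfl hn]
  · refine ⟨b, h1 b fun e he hn => ?_⟩
    rcases h7 e he with rfl | rfl | rfl
    exacts [u, absurd rfl hn, w]
  · refine ⟨a, h1 a fun e he hn => ?_⟩
    rcases h7 e he with rfl | rfl | rfl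
    exacts [absurd rfl hn, u, w]

theorem K0.swap (h : G.K0 T p z i j k r) : G.K0 T p z i k j r :=
  ⟨h.kc.swap, h.nr, h.hA, h.oe, h.si, h.sk, h.sj, h.ad⟩

/-- all edges other than `z` and `i` are consistent -/
theorem K0.sw0 (h : G.K0 T p z i j k r) : ∀ e ∈ G.A, e ≠ z → e ≠ i → G.sw p e = 0 := by
  intro e he h1 h2
  rcases K1Be1_cases h he with a | rfl | rfl | rfl
  exacts [h.kc.bal e a h1, absurd rfl h2, h.sj, h.sk]

/-- the parity of an even set.  HINT: `Ev.par_eq` with `p`. -/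
theorem K0.par (h : G.K0 T p z i j k r) (hD : D ⊆ G.A) (hE : G.Ev D) :
    G.par D = 0 ↔ (z ∈ D ↔ i ∈ D) := by
  have h1 := K1Be1_zi h
  have h2 : ∀ e ∈ D, G.sw p e = (if e = z then 1 else 0) + if e = i then 1 else 0 := by
    intro e he
    by_cases a : e = z
    · simp [a, h1, h.kc.neg]
    by_cases b : e = i
    · simp [b, h1.symm, h.si]
    · simp [a, b, h.sw0 e (hD he) a b]
  rw [hE.par_eq p, sum_congr rfl h2, sum_add_distrib, sum_ite_eq', sum_ite_eq']
  by_cases a : z ∈ D <;> by_cases b : i ∈ D <;> simp [a, b, z2_add_self]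

/-- An even set contains none or two of the edges at `r`.  HINT: `Ev.even_crs` for `T`. -/
theorem K0.two (h : G.K0 T p z i j k r) (hD : D ⊆ G.A) (hE : G.Ev D) :
    k ∈ D ↔ ¬ (i ∈ D ↔ j ∈ D) := by
  obtain ⟨q0, q1, q2, q3⟩ := h.kc.q3
  have h1 : G.crs D T = ({i, j, k} : Finset E).filter (· ∈ D) := by
    ext e
    rw [mem_filter, ← q0, mem_crs, mem_cut]
    exact ⟨fun a => ⟨⟨hD a.1, a.2⟩, a.1⟩, fun a => ⟨a.2, a.1.2⟩⟩
  have h2 := hE.even_crs T
  rw [h1, card_filter, sum_insert (by simp [q1, q2]), sum_pair q3] at h2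
  by_cases a : i ∈ D <;> by_cases b : j ∈ D <;> by_cases c : k ∈ D <;>
    simp only [a, b, c, if_true, if_false] at h2 ⊢ <;> revert h2 <;> decide

/-- Conservation at `r`.  HINT: `sum_bd` for `{r}`; on the edges at `r` compare `kap p {r}` with
`kap p T` (`kap_link`; for `i` the sign is plus). -/
theorem K0.bdr (h : G.K0 T p z i j k r) (u : E → ZMod 3) :
    G.bd u r = 0 ↔ G.kap p T j * u j + G.kap p T k * u k = G.kap p T i * u i := by
  obtain ⟨m1, m2, m3⟩ := h.kc.mem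
  have c0 := K1Be1_cut h
  have hd : Disjoint T {r} := disjoint_singleton_right.2 h.nr
  have h1 := Def6_split (G := G) p {r} u
  rw [sum_singleton, K1Be1_ins h, sum_empty, add_zero,
    tw_q3 (a := i) (b := j) (c := k) ⟨c0.trans h.kc.q3.1, h.kc.q3.2⟩,
    K1Be1_kap hd m1 (c0 ▸ m1) h.si, kap_link hd m2 (c0 ▸ m2) h.sj,
    kap_link hd m3 (c0 ▸ m3) h.sk] at h1
  have h2 := chi_mul_self (R := ZMod 3) (p r)
  constructor
  · intro h3
    rw [h3] at h1
    linear_combination h1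
  · intro h3
    linear_combination chi (p r) * h1 - chi (p r) * h3 - G.bd u r * h2

/-- the values at `z` and `i` are tied.  HINT: `KC.cons` for `T`, `K0.bdr`, `tw_q3`. -/
theorem K0.zv (h : G.K0 T p z i j k r) (hφ : ∀ v, G.bd φ v = 0) :
    G.zv p z φ = -(G.kap p T i * φ i) := by
  have h1 := (h.kc.cons subset_rfl fun v _ => hφ v).1 h.kc.zi
  rw [tw_q3 h.kc.q3] at h1
  have h2 := (h.bdr φ).1 (hφ r)
  have h3 : (3 : ZMod 3) = 0 := by decide
  linear_combination 2 * h1 - 2 * h2 - (G.kap p T i * φ i + G.zv p z φ) * h3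

/-- From a solution on `T` to a global solution.  HINT: at `r` the degree of `O` is two
(`St.card_even`, `sum_dg`), other vertices have no edges. -/
theorem K0.gs (h : G.K0 T p z i j k r) {J : Finset E} {K : Set (Finset E)}
    (hF : G.Fil T J K ψ O φ)
    (hs : G.kap p T j * ψ j + G.kap p T k * ψ k = G.kap p T i * ψ i) :
    G.GS O φ ∧ (∀ e ∈ G.cut T, φ e = ψ e) ∧ ∀ e ∈ G.cut T, e ∈ O ↔ e ∈ J := by
  obtain ⟨hS, h1, h2, h3, -⟩ := hF
  have hO : O ⊆ G.A := hS.1.trans Ab_tch_sub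
  have h4 : ∀ e ∈ G.cut T, φ e = ψ e := fun e he => h1 e (not_ins_of_cut he)
  refine ⟨⟨hO, fun v => ?_, fun v => ?_, fun e he => h3 e (h.hA.le he)⟩, h4, fun e he => ?_⟩
  · by_cases a : v ∈ T
    · exact hS.2.1 v a
    by_cases b : v = r
    · have h5 := sum_dg (G := G) O {r}
      have h6 : G.crs O {r} = J := by
        rw [← hS.2.2, ← K1Be1_cut h]
        ext e
        rw [mem_inter, mem_crs, mem_cut]
        exact ⟨fun a => ⟨a.1, hO a.1, a.2⟩, fun a => ⟨a.1, a.2.2⟩⟩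
      rw [sum_singleton, h6] at h5
      rw [b, h5]
      exact ZMod.natCast_eq_zero_iff_even.2 hS.card_even
    · refine dg_of_not_mem fun hv => ?_
      obtain ⟨e, e1, e2⟩ := mem_vs.1 hv
      exact K1Be1_far h a b (hO e1) e2
  · by_cases a : v ∈ T
    · exact h2 v a
    by_cases b : v = r
    · rw [b, h.bdr, h4 i h.kc.mem.1, h4 j h.kc.mem.2.1, h4 k h.kc.mem.2.2]
      exact hs
    · rw [bd_congr (g := fun _ => 0) fun e he ha => absurd ha (K1Be1_far h a b he)]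
      simp [bd]
  · rw [← hS.2.2, mem_inter, and_iff_left he]

theorem K0.fil (h : G.K0 T p z i j k r) (hG : G.GS O φ) (h1 : ∀ e ∈ G.cut T, φ e = ψ e)
    {J : Finset E} (hJ : O ∩ G.cut T = J) : ∃ φ', G.Fil T J ∅ ψ O φ' := by
  obtain ⟨φ', h2, -⟩ := fil_of (K := ∅) ⟨hG.1.trans h.hA.le, fun v _ => hG.2.1 v, hJ⟩
    ⟨fun v _ => hG.2.2.1 v, fun e he => hG.2.2.2 e (Ab_tch_sub he), fun _ ht => ht.elim⟩ h1
  exact ⟨φ', h2⟩

/-- A solution with an even number of negative edges.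
HINT: copy the first part of `tol`: `tmain1` for `W = vs A = insert r T`.  A proper nonempty
subset `Y` of `insert r T` has the same cut as its complement in `insert r T`, and one of the two
lies in `T`; so it has at least three leaving edges, and exactly three only if `Y` or its
complement is a single vertex or `T`.  The complement of a single vertex `x ∈ T` is unbalanced
or has to be excluded for `S3`: if `insert r T` without `x` were balanced, then by switching at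
`x` at most one of the three edges at `x` is inconsistent, which contradicts `K0.ad`. -/
theorem K0.sol (h : G.K0 T p z i j k r) : ∃ O φ, G.GS O φ ∧ G.par O = 0 := by
  have hT := h.kc.ht
  have hc := h.kc.cub
  have e0 := K1Be1_vs h
  have e1 : G.ins (G.vs G.A) = G.A := ins_sub_A.antisymm (sub_ins_vs subset_rfl)
  have sub : ∀ X ⊆ G.vs G.A, r ∉ X → X ⊆ T := fun X hX hr v hv =>
    (mem_insert.1 (e0.le (hX hv))).resolve_left fun a => hr (a ▸ hv)
  have hA : G.Adm1 := fun X hX _ => by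
    have key : ∀ Y ⊆ T, (G.cut Y).card ≠ 1 := fun Y hY a => by
      obtain ⟨e, he⟩ := card_pos.1 (a.ge.trans_lt' zero_lt_one)
      have := hT.mono3 hY ⟨_, Spl_ie he⟩
      omega
    by_cases hr : r ∈ X
    · exact key _ sdiff_subset (K1Be1_in h hr ▸ hX)
    · exact key _ inter_subset_right (K1Be1_out h hr ▸ hX)
  obtain ⟨⟨O, o1, o2, o3, φ, o4, o5⟩, -⟩ := tmain1 hc hA (G.vs G.A)
    (fun X hX hn hne => by
      rw [e1]
      refine le_trans (by norm_num : 2 ≤ 3) ?_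
      change 3 ≤ (G.cut X).card
      by_cases hr : r ∈ X
      · rw [K1Be1_in h hr]
        refine hT.mono3 sdiff_subset (sdiff_nonempty.2 fun a => hne (hX.antisymm ?_))
        rw [e0]
        exact insert_subset hr a
      · exact hT.mono3 (sub X hX hr) hn)
    (fun a => h.kc.ub (a.mono (ins_mono hT.act)))
    ⟨r, e0 ▸ mem_insert_self r T, e1.symm ▸ hc.deg3 (e0 ▸ mem_insert_self r T)⟩
    (fun X hX x2 _ hB => by
      have nT : ¬ T ⊆ X := fun a => h.kc.ub (hB.mono (ins_mono a))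
      by_cases hr : r ∈ X
      · rw [K1Be1_in h hr]
        obtain ⟨k1, k2⟩ := hT (T \ X) sdiff_subset (sdiff_nonempty.2 nT)
        by_contra k3
        rcases k2 (by omega) with k4 | k4
        · obtain ⟨x, hx⟩ := card_eq_one.1 k4
          have x1 : x ∈ T := (mem_sdiff.1 (hx ▸ mem_singleton_self x)).1
          obtain ⟨v1, -, v3⟩ := hT.vtx hc x1
          obtain ⟨a, b, c, hq⟩ := exists_q3 v1
          obtain ⟨q, hq'⟩ := hB
          have x3 : ∀ v ∈ G.vs G.A, v ∉ ({x} : Finset V) → v ∈ X := fun v hv hn => by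
            rcases mem_insert.1 (e0.le hv) with rfl | a
            · exact hr
            · by_contra b
              exact hn (hx ▸ mem_sdiff.2 ⟨a, b⟩)
          obtain ⟨y, hy⟩ := K1Be1_bal hq (q := q) fun e he hn => by
            rw [← v3, mem_tch, and_iff_right he, not_or] at hn
            exact hq' e (mem_ins.2 ⟨he, x3 _ (s_mem_vs he) hn.1, x3 _ (t_mem_vs he) hn.2⟩)
          exact h.ad y hy
        · have k5 : X ⊆ {r} := fun v hv => by
            rcases mem_insert.1 (e0.le (hX hv)) with a | a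
            · exact mem_singleton.2 a
            · exact absurd hv (mem_sdiff.1 (k4.ge a)).2
          have := card_le_card k5
          rw [card_singleton] at this
          omega
      · exact hT.four subset_rfl ⟨sub X hX hr, nT⟩ x2)
    fun _ y => e1.symm ▸ h.ad y
  refine ⟨O, φ, ⟨o1.trans ins_sub_A, o2, fun v => ?_, fun e he => o5 e (ins_sub_tch (e1.ge he))⟩, o3⟩
  by_cases a : v ∈ G.vs G.A
  · exact o4 v a
  · rw [bd_congr (g := fun _ => 0) fun e he ha => absurd (mem_vs.2 ⟨e, he, ha⟩) a]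
    simp [bd]

/-- The component of `O` through `i` contains `z`, or it gives a path with unbalanced rest.
HINT: `Ev.cc` or `exists_cmp` for the component `C` of `i`; it contains `j` and not `k` (`K0.two`).  If
`z ∉ C`: `C` without `i, j` lies inside `T` and has the odd vertices `ie T i`, `ie T j`;
`GXb_cmp`; the set `O \ C` is even, odd by `K0.par`, and lies inside `T \ U`; `Bal.par_zero`. -/
theorem K0.cmp (h : G.K0 T p z i j k r) (hOA : O ⊆ G.A) (hE : G.Ev O) (hi : i ∈ O) (hj : j ∈ O)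
    (hz : z ∈ O) : (∃ C ⊆ O, G.Cc C ∧ G.par C = 0 ∧ i ∈ C ∧ k ∉ C) ∨
      ∃ U P, U ⊆ T ∧ G.Pp U P (G.ie T i) (G.ie T j) ∧ ¬ G.Bal (G.ins (T \ U)) := by
  obtain ⟨m1, m2, -⟩ := h.kc.mem
  obtain ⟨C, hC, iC, cC, -⟩ := hE.cc hi
  have hCA := hC.trans hOA
  have kO : k ∉ O := fun a => (h.two hOA hE).1 a (iff_of_true hi hj)
  have kC : k ∉ C := fun a => kO (hC a)
  have jC : j ∈ C := by
    by_contra a
    exact kC ((h.two hCA cC.2.1).2 fun b => a (b.1 iC))
  by_cases zC : z ∈ C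
  · exact .inl ⟨C, hC, cC, (h.par hCA cC.2.1).2 (iff_of_true zC iC), iC, kC⟩
  have o1 : G.Od {i} (G.ie T i) r := od_edge (h.oe i m1 ▸ je_ie_oe)
  have o2 : G.Od {j} (G.ie T j) r := od_edge (h.oe j m2 ▸ je_ie_oe)
  have o3 := cC.2.1.sdiff (o1.union o2.symm (disjoint_singleton.2 h.kc.q3.2.1))
    (union_subset (singleton_subset_iff.2 iC) (singleton_subset_iff.2 jC))
  have o4 : C \ ({i} ∪ {j}) ⊆ G.ins T := fun e he => by
    obtain ⟨a, b⟩ := mem_sdiff.1 he
    rcases K1Be1_cases h (hCA a) with c | rfl | rfl | rfl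
    exacts [c, absurd (by simp) b, absurd (by simp) b, absurd a kC]
  obtain ⟨U, P, u1, u2, u3, -⟩ := GXb_cmp o4 o3 (Spl_ie m1)
  refine .inr ⟨U, P, u1, u2, fun hB => ?_⟩
  have u4 : ∀ v ∈ U, v ∈ G.vs C := fun v hv => by
    by_cases a : v = G.ie T i
    · exact mem_vs.2 ⟨i, iC, a ▸ ie_at⟩
    · exact vs_mono (u3.trans sdiff_subset) ((u2.2.1 v hv _ u2.2.2.2.1).mem_vs a)
  have ev : G.Ev (O \ C) := fun v => by rw [dg_sdiff hC, hE v, cC.2.1 v, add_zero]
  have u5 : O \ C ⊆ G.ins (T \ U) := fun e he => by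
    obtain ⟨a, b⟩ := mem_sdiff.1 he
    have c : ∀ v, G.At e v → v ∉ U := fun v hv hU =>
      b (mem_of_even h.kc.cub hOA (hE v) hC (u4 v hU) (cC.2.1 v) a hv)
    rcases K1Be1_cases h (hOA a) with d | rfl | rfl | rfl
    · obtain ⟨d1, d2, d3⟩ := mem_ins.1 d
      exact mem_ins.2 ⟨d1, mem_sdiff.2 ⟨d2, c _ (.inl rfl)⟩, mem_sdiff.2 ⟨d3, c _ (.inr rfl)⟩⟩
    exacts [absurd iC b, absurd jC b, absurd a kO]
  exact (mem_sdiff.1 (((h.par (sdiff_subset.trans hOA) ev).1 (hB.par_zero u5 ev)).1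
    (mem_sdiff.2 ⟨hz, zC⟩))).2 iC

end SG

end Pool.Agent.Work.MP_8c679b_co
end

-- merged part: Pool.Agent.Work.MP_8c679b_co.K1.Al
section
/-!
A path between two terminals whose complement is unbalanced.
-/

set_option autoImplicit false

namespace Pool.Agent.Work.MP_8c679b_co

open Finset

namespace SG

variable {V E : Type} [Fintype V] [DecidableEq V] [DecidableEq E] {G : SG V E}
  {T X U : Finset V} {P : Finset E} {p : V → ZMod 2} {z i j k a b c : E} {ψ : E → ZMod 3}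

/-- HINT: `W = T \ U ⊂ T`; `tpw` with the dead edge `c`, `δ = ψ c` and
`γ = chi (p (s z)) * tw p T ψ` (so that `tw p T ψ + 2 * zv = 0`; `2 = -1`).  Take the function that
is `φ` on `tch W`, `ψ` on `cut T` and one elsewhere; `fix_path` (`z ∈ ins W` by `KC.zin`, so `P` is
consistent; `KC.sumA`).  The targets stay hit: their edges touch `W`, so they are not in `P`
and differ from `a`, `b`.  `fil_of`. -/
theorem k1_alpha (hK : G.KC T p z i j k) (hq : G.Q3 T a b c) (hU : U ⊆ T)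
    (hP : G.Pp U P (G.ie T a) (G.ie T b)) (hu : ¬ G.Bal (G.ins (T \ U))) (n1 : ψ c ≠ 0) :
    ∃ O φ, G.Fil T {a, b} (G.Kus (T \ U)) ψ O φ ∧ z ∈ O := by
  have ha : a ∈ G.cut T := by simp [hq.1]
  have hb : b ∈ G.cut T := by simp [hq.1]
  have hc : c ∈ G.cut T := by simp [hq.1]
  have na := KBp_out hU ha hP.2.2.2.1
  have nb := KBp_out hU hb hP.2.2.2.2
  have hW : T \ U ⊂ T := sdiff_ssubset hU ⟨_, hP.2.2.2.1⟩
  have zW := hK.zin sdiff_subset hu
  have nP : ∀ e ∈ G.tch (T \ U), e ∉ G.ins U := fun e he k => Quo_ins k sdiff_disjoint he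
  obtain ⟨O, φ, s1, zO, s2, s3, s4⟩ := tpw hK hW hu
    (fun k => not_ins_of_cut hc (ins_mono sdiff_subset k)) (chi (p (G.s z)) * G.tw p T ψ) n1
  have cs : ∀ e ∈ G.cut T, e = a ∨ e = b ∨ e = c := fun e he => by simpa [hq.1] using he
  obtain ⟨χ, x1, x2, x3⟩ : ∃ χ : E → ZMod 3, (∀ e ∈ G.tch (T \ U), χ e = φ e) ∧
      (∀ e ∈ G.cut T, χ e = ψ e) ∧ ∀ e, e ∉ G.tch (T \ U) → e ∉ G.cut T → χ e = 1 := by
    refine ⟨fun e => if e ∈ G.tch (T \ U) then φ e else if e ∈ G.cut T then ψ e else 1,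
      fun e he => if_pos he, fun e he => ?_, fun e h1 h2 => (if_neg h1).trans (if_neg h2)⟩
    by_cases k : e ∈ G.tch (T \ U)
    · rcases cs e he with rfl | rfl | rfl
      exacts [absurd k na, absurd k nb, (if_pos k).trans s4]
    · exact (if_neg k).trans (if_pos he)
  have zt : z ∈ G.tch (T \ U) := mem_tch_iff.2 (Or.inl zW)
  obtain ⟨t1, φ', t2, t3⟩ := fix_path (p := p) (ψ := χ) ha hb hq.2.1 hU hP
    (fun e he => hK.bal' hU (nP z zt) e (hP.1 he)) s1
    (Sl.congr ⟨s2.1, s2.2.1, fun t ht => ht.elim⟩ x1 fun _ _ => Iff.rfl)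
    (fun e he _ e1 e2 => by
      by_cases k : e ∈ G.tch (T \ U)
      · rw [x1 e k]
        exact s2.2.1 e k fun k' => Quo_ins (s1.sub_ins k') disjoint_sdiff he
      · by_cases k' : e ∈ G.cut T
        · rw [x2 e k', ((cs e k').resolve_left e1).resolve_left e2]
          exact n1
        · rw [x3 e k k']
          exact one_ne_zero)
    (by
      have e1 : G.tw p T χ = G.tw p T ψ := sum_congr rfl fun e he => by rw [x2 e he]
      rw [(hK.sumA Subset.rfl χ).1 hK.zi, e1, zv, x1 z zt, s3, ← mul_assoc (chi _), chi_mul_self]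
      generalize G.tw p T ψ = y
      revert y
      decide)
  obtain ⟨φ'', h1, -⟩ := fil_of (K := G.Kus (T \ U)) (ψ := ψ) t1 ⟨t3.1, t3.2.1, fun t ht => by
      obtain ⟨e, e1, e2, e3⟩ := s2.2.2 t ht
      have e4 : e ∉ P := fun k => nP e e2 (hP.1 k)
      refine ⟨e, e1, tch_mono sdiff_subset e2, e3.imp (fun k k' => ?_) fun k => ?_⟩
      · simp only [mem_union, mem_insert] at k'
        rcases k' with k' | rfl | rfl | k'
        exacts [k k', na e2, nb e2, e4 k']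
      · rw [t2 e e4, x1 e e2, k]⟩
    fun e he => (t2 e fun k => not_ins_of_cut he (ins_mono hU (hP.1 k))).trans (x2 e he)
  exact ⟨_, φ'', h1, mem_union_left _ zO⟩

/-- A terminal is joined to the rest outside a side without terminal. -/
theorem K1Al_iso (hK : G.KC T p z i j k) (hX : G.KA T X) {Z : Finset V} (hZ : Z ⊆ T \ X)
    (h0 : G.crs (G.ins (T \ X)) Z = ∅) (ha : a ∈ G.cut T) (ma : G.ie T a ∈ Z) {y : V}
    (hy : y ∈ (T \ X) \ Z) : (G.cut Z).card ≠ 3 := by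
  intro h3
  obtain ⟨y1, y2⟩ := mem_sdiff.1 hy
  obtain ⟨y3, y4⟩ := mem_sdiff.1 y1
  have hT := hK.ht
  have zT := hZ.trans sdiff_subset
  obtain ⟨x, rfl⟩ := card_eq_one.1 (((hT Z zT ⟨_, ma⟩).2 h3).resolve_right fun e => y2 (e ▸ y3))
  have x2 := Spl_two hK.cub hT hX.1 hX.2.1.1
  have xX : x ∉ X := (mem_sdiff.1 (hZ (mem_singleton_self x))).2
  have h1 := Spl_card (G := G) (singleton_subset_iff.2 (mem_insert_self x X))
  rw [insert_sdiff_of_mem _ (mem_singleton_self x), sdiff_singleton_eq_erase,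
    erase_eq_of_notMem xX, hX.2.1.1, h3] at h1
  have h2 : G.cut {x} ∩ G.cut (insert x X) ⊆ {a} := fun e he => by
    obtain ⟨e1, e2⟩ := mem_inter.1 he
    have e3 : e ∈ G.cut (T \ X) := by
      by_contra k
      exact notMem_empty e (h0 ▸ (crs_ins (G := G) hZ).symm ▸ mem_sdiff.2 ⟨e1, k⟩)
    have xT := zT (mem_singleton_self x)
    have e4 : e ∈ G.cut T := by
      simp only [mem_cut, mem_singleton, mem_insert, mem_sdiff] at e1 e2 e3 ⊢
      by_cases k1 : G.s e = x <;> by_cases k2 : G.t e = x <;> simp_all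
    by_contra k
    refine hT.f2' hK.cub hK.t3.2.1 (lt_of_lt_of_le x2 (card_le_card hX.1)) e4 ha
      (fun k' => k (mem_singleton.2 k')) ?_
    rw [← (cut_of_sub zT e4 (cut_sub_tch e1)).2, mem_singleton.1 ma]
    exact mem_singleton.1 (Spl_ie e1)
  have h4 := card_le_card h2
  rw [card_singleton] at h4
  have h5 := hT.four Subset.rfl (X := insert x X) ⟨insert_subset (zT (mem_singleton_self x)) hX.1,
    fun k => (mem_insert.1 (k y3)).elim (fun e => y2 (mem_singleton.2 e)) y4⟩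
    (x2.trans (card_le_card (subset_insert _ _)))
  omega

/-- A path between two terminals outside a side without terminal.
HINT: `Y = T \ X` has seven leaving edges (`Spl_card`).  If the component `K` of `ie T i` in `Y`
misses `ie T j`, then `K` or `Y \ K` has three leaving edges (`cut_add`), so it is one of the two
terminals `x`, whose inner edges both go to `X`; then `insert x X` has three leaving edges and is
not `T`.  `Rch.pth`, `Pth.pp`, `Pth.sub_of_ins`. -/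
theorem k1_pathA (hK : G.KC T p z i j k) (hX : G.KA T X) :
    ∃ U P, U ⊆ T \ X ∧ G.Pp U P (G.ie T i) (G.ie T j) := by
  have m : ∀ e ∈ G.cut T, G.ie T e ∈ T \ X := fun e he => mem_sdiff.2 ⟨Spl_ie he,
    fun k => not_ins_of_cut he (hX.2.2 (Spl_cut_of hX.1 he k).1)⟩
  obtain ⟨hi, hj, -⟩ := hK.mem
  by_cases hr : G.Rch (G.ins (T \ X)) (G.ie T i) (G.ie T j)
  · obtain ⟨n, v, g, hp, h0, hn⟩ := hr.pth i
    exact ⟨_, _, hp.sub_of_ins (h0 ▸ m i hi), h0 ▸ hn ▸ hp.pp ins_sub_A⟩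
  exfalso
  obtain ⟨c1, c2, c3, -⟩ := cmp_spec (G := G) (m i hi)
  have c4 : G.ie T j ∈ (T \ X) \ G.cmp (T \ X) (G.ie T i) :=
    mem_sdiff.2 ⟨m j hj, fun k => hr (mem_cmp.1 k).2⟩
  have h7 := Spl_card (G := G) hX.1
  rw [show G.cut X ∩ G.cut T = ∅ from eq_empty_of_forall_notMem fun e he =>
    not_ins_of_cut (mem_inter.1 he).2 (hX.2.2 (mem_inter.1 he).1), hX.2.1.1, hK.t3.2.1,
    card_empty] at h7
  have h8 := cut_add (G := G) c2
  rw [c3, card_empty] at h8
  have a1 := hK.ht.mono3 (c2.trans sdiff_subset) ⟨_, c1⟩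
  have a2 := hK.ht.mono3 (sdiff_subset.trans sdiff_subset) ⟨_, c4⟩
  have a3 := K1Al_iso hK hX c2 c3 hi c1 c4
  have a4 := K1Al_iso hK hX sdiff_subset ((crs_sdiff c2).trans c3) hj c4
    (mem_sdiff.2 ⟨c2 c1, fun k => (mem_sdiff.1 k).2 c1⟩)
  omega

/-- All sides without terminal are hit.  HINT: `KC.maxA`, `k1_pathA`, `k1_alpha`, `Bal.mono`. -/
theorem k1_oA (hK : G.KC T p z i j k) (hX : G.KA T X) (n1 : ψ k ≠ 0) :
    ∃ O φ, G.Fil T {i, j} ∅ ψ O φ ∧ z ∈ O ∧
      ∀ Y, G.KA T Y → ∃ e ∈ G.cut Y, e ∉ O ∨ φ e = 0 := by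
  obtain ⟨M, hM, hm⟩ := hK.maxA hX
  obtain ⟨U, P, hU, hP⟩ := k1_pathA hK hM
  have hs : M ⊆ T \ U := fun x hx => mem_sdiff.2 ⟨hM.1 hx, fun k => (mem_sdiff.1 (hU k)).2 hx⟩
  obtain ⟨O, φ, h1, h2⟩ := k1_alpha hK hK.q3 (hU.trans sdiff_subset) hP
    (fun k => hM.2.1.2 (k.mono (ins_mono hs))) n1
  refine ⟨O, φ, h1.mono (Set.empty_subset _), h2, fun Y hY => ?_⟩
  obtain ⟨e, e1, -, e2⟩ := h1.2.2.2.2 _ ⟨Y, (hm Y hY).trans hs, hY.2.1, rfl⟩
  exact ⟨e, e1, e2⟩

end SG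

end Pool.Agent.Work.MP_8c679b_co
end

-- merged part: Pool.Agent.Work.MP_8c679b_co.K1.Be2
section
/-!
Moving the even set onto the edges `i`, `j`, `z`.
-/

set_option autoImplicit false

namespace Pool.Agent.Work.MP_8c679b_co

open Finset

namespace SG

variable {V E : Type} [Fintype V] [DecidableEq V] [DecidableEq E] {G : SG V E}
  {T : Finset V} {p : V → ZMod 2} {O : Finset E} {φ ψ : E → ZMod 3} {z i j k : E} {r : V}

/-- Step (b).  HINT: `K0.cmp`.  Circuit: `k ∉ O` (`K0.two`), so `φ k ≠ 0`; negate if necessary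
(`Ab_sgn`), `GS.shift` at `i`; the value at `j` follows from `K0.bdr` and `kap_inj`; `K0.fil`.
Path: `k1_alpha`, `Fil.mono`. -/
theorem K0.stepb (h : G.K0 T p z i j k r) (hG : G.GS O φ) (hi : i ∈ O) (hj : j ∈ O) (hz : z ∈ O)
    (n1 : ψ k ≠ 0) (hs : G.kap p T j * ψ j + G.kap p T k * ψ k = G.kap p T i * ψ i) :
    ∃ O φ, G.Fil T {i, j} ∅ ψ O φ ∧ z ∈ O := by
  obtain ⟨mi, mj, mk⟩ := h.kc.mem
  rcases h.cmp hG.1 hG.2.1 hi hj hz with ⟨C, hC, cC, pC, iC, kC⟩ | ⟨U, P, hU, hP, hu⟩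
  · have kO : k ∉ O := fun hk => (h.two hG.1 hG.2.1).1 hk ⟨fun _ => hj, fun _ => hi⟩
    have k0 : φ k ≠ 0 := hG.2.2.2 k (mem_cut.1 mk).1 kO
    obtain ⟨φ1, g1, e1⟩ : ∃ φ1, G.GS O φ1 ∧ φ1 k = ψ k := by
      rcases Ab_sgn _ _ k0 n1 with e | e
      exacts [⟨φ, hG, e⟩, ⟨fun e => -φ e, hG.neg, e⟩]
    obtain ⟨φ2, g2, e2, e3⟩ := g1.shift h.kc.cub hC cC pC iC (ψ i)
    have e4 : φ2 k = ψ k := (e3 k kC).trans e1
    have e5 : φ2 j = ψ j := by
      have b := (h.bdr φ2).1 (g2.2.2.1 r)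
      rw [e2, e4, ← hs] at b
      exact kap_inj mj (add_right_cancel b)
    have hJ : O ∩ G.cut T = {i, j} := by
      ext e
      simp only [mem_inter, mem_insert, mem_singleton]
      constructor
      · rintro ⟨h1, h2⟩
        rcases h.kc.cases h2 with rfl | rfl | rfl
        exacts [Or.inl rfl, Or.inr rfl, absurd h1 kO]
      · rintro (rfl | rfl)
        exacts [⟨hi, mi⟩, ⟨hj, mj⟩]
    obtain ⟨φ3, h3⟩ := h.fil (ψ := ψ) g2 (fun e he => by
      rcases h.kc.cases he with rfl | rfl | rfl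
      exacts [e2, e5, e4]) hJ
    exact ⟨O, φ3, h3, hz⟩
  · obtain ⟨O', φ', h1, h2⟩ := k1_alpha h.kc h.kc.q3 hU hP hu n1
    exact ⟨O', φ', h1.mono (Set.empty_subset _), h2⟩

/-- Step (c).  HINT: `K0.stepb` for `K0.swap` with values `ψ'` such that `ψ' i = 0`, `ψ' j = 1`
and `kap p T k * ψ' k = -(kap p T j * ψ' j)`; `K0.gs`; then `φ i = 0`, `φ z = 0` (`K0.zv`).
`k1_brg` for the edge `j` (with `f = j`) gives an even set `D` with `j ∈ D`, `i ∉ D`, `z ∉ D`;
`GS.tog`. -/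
theorem K0.stepc (h : G.K0 T p z i j k r) (hG : G.GS O φ) (hi : i ∈ O) (hk : k ∈ O)
    (hz : z ∈ O) : ∃ O φ, G.GS O φ ∧ i ∈ O ∧ j ∈ O ∧ z ∈ O := by
  obtain ⟨mi, mj, mk⟩ := h.kc.mem
  obtain ⟨-, ij, ik, jk⟩ := h.kc.q3
  obtain ⟨ψ', a1, a2, a3⟩ : ∃ ψ' : E → ZMod 3, ψ' i = 0 ∧ ψ' j = 1 ∧
      ψ' k = -(G.kap p T k * G.kap p T j) :=
    ⟨fun e => if e = j then 1 else if e = k then -(G.kap p T k * G.kap p T j) else 0,
      by simp [ij, ik], by simp, by simp [jk.symm]⟩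
  have hs : G.kap p T k * ψ' k + G.kap p T j * ψ' j = G.kap p T i * ψ' i := by
    have q : (G.kap p T k : ZMod 3) * G.kap p T k = 1 := kap_sq mk
    rw [a1, a2, a3]
    linear_combination -(G.kap p T j) * q
  obtain ⟨O', φ', h1, zO⟩ := h.swap.stepb hG hi hk hz (by rw [a2]; exact one_ne_zero) hs
  obtain ⟨g1, g2, g3⟩ := h.swap.gs h1 hs
  have b1 : φ' i = 0 := (g2 i mi).trans a1
  have b2 : φ' j ≠ 0 := by rw [g2 j mj, a2]; exact one_ne_zero
  have b3 : φ' z = 0 := by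
    have e := h.zv g1.2.2.1
    rw [b1, mul_zero, neg_zero] at e
    by_contra hn
    exact zv_ne.2 hn e
  obtain ⟨D, d1, d2, d3, d4⟩ := k1_brg (p := p) (f := j) g1.2.2.1 (mem_cut.1 mj).1 b2
    (fun x hx _ _ => by
      by_cases xz : x = z
      · exact Or.inr (xz ▸ b3)
      by_cases xi : x = i
      · exact Or.inr (xi ▸ b1)
      exact Or.inl (h.sw0 x hx xz xi))
  have iO : i ∈ O' := (g3 i mi).2 (mem_insert_self _ _)
  have jO : j ∉ O' := fun hj => by
    rcases mem_insert.1 ((g3 j mj).1 hj) with e | e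
    exacts [ij e.symm, jk (mem_singleton.1 e)]
  exact ⟨_, φ', g1.tog d1 d2 d4, mem_symmDiff.2 (Or.inl ⟨iO, fun hh => d4 i hh b1⟩),
    mem_symmDiff.2 (Or.inr ⟨d3, jO⟩), mem_symmDiff.2 (Or.inl ⟨zO, fun hh => d4 z hh b3⟩)⟩

/-- Step (a).  HINT: `K0.sol`, `K0.par`.  If `i ∉ O` then `z ∉ O` and both values are nonzero;
`k1_brg` for `i` (with `f = z`) and for `z` (with `f = i`); one of the two sets or their symmetric
difference contains both edges; `GS.tog`. -/
theorem K0.stepa (h : G.K0 T p z i j k r) : ∃ O φ, G.GS O φ ∧ i ∈ O ∧ z ∈ O := by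
  obtain ⟨O, φ, hG, hp⟩ := h.sol
  have e := (h.par hG.1 hG.2.1).1 hp
  by_cases hi : i ∈ O
  · exact ⟨O, φ, hG, hi, e.2 hi⟩
  have hz : z ∉ O := fun hz => hi (e.1 hz)
  have iA : i ∈ G.A := (mem_cut.1 h.kc.mem.1).1
  have zA : z ∈ G.A := ins_sub_A h.kc.zi
  obtain ⟨D, d1, d2, d3, d4⟩ := k1_brg (p := p) (f := z) hG.2.2.1 iA (hG.2.2.2 i iA hi)
    (fun x hx xi xz => Or.inl (h.sw0 x hx xz xi))
  obtain ⟨D', c1, c2, c3, c4⟩ := k1_brg (p := p) (f := i) hG.2.2.1 zA (hG.2.2.2 z zA hz)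
    (fun x hx xz xi => Or.inl (h.sw0 x hx xz xi))
  obtain ⟨B, b1, b2, b3, b4, b5⟩ : ∃ B ⊆ G.A, G.Ev B ∧ (∀ x ∈ B, φ x ≠ 0) ∧ i ∈ B ∧ z ∈ B := by
    by_cases zD : z ∈ D
    · exact ⟨D, d1, d2, d4, d3, zD⟩
    by_cases iD : i ∈ D'
    · exact ⟨D', c1, c2, c4, iD, c3⟩
    refine ⟨symmDiff D D', fun x hx => ?_, d2.symmDiff c2, fun x hx => ?_,
      mem_symmDiff.2 (Or.inl ⟨d3, iD⟩), mem_symmDiff.2 (Or.inr ⟨c3, zD⟩)⟩
    · rcases mem_symmDiff.1 hx with k | k
      exacts [d1 k.1, c1 k.1]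
    · rcases mem_symmDiff.1 hx with k | k
      exacts [d4 x k.1, c4 x k.1]
  exact ⟨_, φ, hG.tog b1 b2 b3, mem_symmDiff.2 (Or.inr ⟨b4, hi⟩),
    mem_symmDiff.2 (Or.inr ⟨b5, hz⟩)⟩

/-- HINT: `K0.stepa`, `K0.two`, `K0.stepc`, `K0.stepb`. -/
theorem K0.beta (h : G.K0 T p z i j k r) (n1 : ψ k ≠ 0)
    (hs : G.kap p T j * ψ j + G.kap p T k * ψ k = G.kap p T i * ψ i) :
    ∃ O φ, G.Fil T {i, j} ∅ ψ O φ ∧ z ∈ O := by
  obtain ⟨O, φ, hG, hi, hz⟩ := h.stepa
  by_cases hj : j ∈ O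
  · exact h.stepb hG hi hj hz n1 hs
  have hk : k ∈ O := (h.two hG.1 hG.2.1).2 fun e => hj (e.1 hi)
  obtain ⟨O', φ', g, i', j', z'⟩ := h.stepc hG hi hk hz
  exact h.stepb g i' j' z' n1 hs

end SG

end Pool.Agent.Work.MP_8c679b_co
end

-- merged part: Pool.Agent.Work.MP_8c679b_co.K1.Be3
section
/-!
The case that the values at `i` and `j` are odd.
-/

set_option autoImplicit false

namespace Pool.Agent.Work.MP_8c679b_co

open Finset

namespace SG

variable {V E : Type} [Fintype V] [DecidableEq V] [DecidableEq E] {G : SG V E}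
  {T : Finset V} {p : V → ZMod 2} {O : Finset E} {φ ψ : E → ZMod 3} {z i j k : E} {r : V}

theorem K1Be3_cf {X : Finset V} {e : E} (h : G.cf X φ e = 0) : φ e = 0 := by
  have k1 : G.cf X (G.cf X φ) e = G.cf X (fun _ => (0 : ZMod 3)) e := ACon_congr h
  rw [cf_cf] at k1
  rw [k1]
  simp only [cf, out, mul_zero, ite_self]

omit [Fintype V] [DecidableEq E] in
theorem K1Be3_kap (hr : r ∉ T) (e : E) :
    (G.kap (Function.update p r 0) T e : ZMod 3) = G.kap p T e := by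
  have k1 : ∀ v, (iv (v ∈ T) : ZMod 3) * chi (Function.update p r 0 v) = iv (v ∈ T) * chi (p v) :=
    fun v => by
      by_cases hv : v ∈ T
      · rw [Function.update_of_ne (ne_of_mem_of_not_mem hv hr)]
      · simp only [iv, hv, if_false, zero_mul]
  rw [kap, kap, k1, k1]

theorem K1Be3_k0 {G' : SG V E} (hK : G.KC T p z i j k) (hr : r ∉ T)
    (hC : G.Ce G' (univ \ T) r fun e => p (G.ie T e) + iv (G.ie T e = G.ie T i)) :
    G'.K0 T (Function.update p r 0) z i j k r := by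
  obtain ⟨mi, mj, mk⟩ := hK.mem
  obtain ⟨d1, d2, -⟩ := hK.dv
  have hd : Disjoint T (univ \ T) := disjoint_sdiff
  have cc : ∀ e ∈ G.cut T, e ∈ G.cut (univ \ T) := fun e x => by rwa [cut_compl]
  obtain ⟨l1, l2, l3, l4, l5⟩ := hC.agr.loc hd
  have hA : G'.A = G.tch T := by
    rw [ACon_cA hC, Finset.sdiff_sdiff_eq_self (subset_univ T)]
  have up : ∀ v ∈ T, Function.update p r 0 v = p v := fun v hv =>
    Function.update_of_ne (ne_of_mem_of_not_mem hv hr) _ _
  have hs : ∀ e ∈ G.cut T, G'.s e = G.ie T e := fun e x => by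
    rw [(hC.agr.cut e (cc e x)).1, AX3_oe]
  have sw' : ∀ e ∈ G.cut T, G'.sw (Function.update p r 0) e = iv (G.ie T e = G.ie T i) :=
    fun e x => by
      have y := hC.ed e (cc e x)
      rw [sw, hs e x, y.1, y.2, up _ (ie_mem (cut_sub_tch x)), Function.update_self]
      linear_combination z2_add_self (p (G.ie T e))
  refine ⟨⟨hC.cub hK.cub (by rw [cut_compl, hK.t3.2.1]), (hC.agr.ht hd).1.2 hK.ht,
    ⟨l2.trans hK.q3.1, hK.q3.2⟩, ?_, l1 ▸ hK.zi, fun e x y => ?_, ?_⟩, hr, hA.trans l3.symm,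
    fun e x => ?_, ?_, ?_, ?_, fun x y => ?_⟩
  · rw [l1, (hC.agr.bal hd Subset.rfl).1]
    exact hK.ub
  · rw [l1] at x
    obtain ⟨k1, k2, k3⟩ := l5 e x
    rw [sw, k1, k2, k3, up _ (mem_ins.1 x).2.1, up _ (mem_ins.1 x).2.2]
    exact hK.bal e x y
  · obtain ⟨k1, k2, -⟩ := l5 z hK.zi
    rw [At, k1, k2, l4 i (cut_sub_tch mi)]
    exact hK.ni
  · rw [l2] at x
    rw [oe, hs e x, if_pos (ie_mem (cut_sub_tch x)), (hC.ed e (cc e x)).1]
  · rw [sw' i mi, iv, if_pos rfl]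
  · rw [sw' j mj, iv, if_neg d1.symm]
  · rw [sw' k mk, iv, if_neg d2.symm]
  · obtain ⟨p1, y1, y2⟩ := (hC.bal (erase_subset _ _)).1 y
    rw [cut_compl] at y1 y2
    exact hK.adt x ⟨p1, fun e u w => y1 e (mem_erase.2 ⟨w, hA ▸ ins_sub_tch u⟩)
      fun u' => not_ins_of_cut u' u, fun e u w =>
      ((y2 e (mem_erase.2 ⟨w, hA ▸ cut_sub_tch u⟩) u).trans (congrArg p1 AX3_oe)).symm⟩

/-- Contracting the outside.
HINT: as in `x3o_of_root`: `r = oe T i`, `exists_ce` for `univ \ T` with the signs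
`q (ie T e)`, `q v = p v + iv (v = ie T i)`; the potential `p' = update p r 0` (it agrees with `p`
on `T`).  `Agr.loc`, `Agr.ht`, `Agr.bal`, `Ce.cub`, `Ce.ed`, `ACon_cA`, `AX3_oe`; `K0.ad` from
`KC.adt` and `Ce.bal`.  Apply `K0.beta` to `cf (univ \ T) ψ` (`ACon_kap`; `kap` of `T` depends
only on the potential on `T`) and pull the solution back along `cf` (`cf_cf`, `Agr.bd`,
`ACon_inc` or `Agr.deg` for the degrees of `O` at vertices of `T`); `fil_of`. -/
theorem k1_beta (hK : G.KC T p z i j k) (n1 : ψ k ≠ 0)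
    (hs : G.kap p T j * ψ j + G.kap p T k * ψ k = G.kap p T i * ψ i) :
    ∃ O φ, G.Fil T {i, j} ∅ ψ O φ ∧ z ∈ O := by
  obtain ⟨mi, mj, mk⟩ := hK.mem
  have hr := oe_not_mem mi
  generalize G.oe T i = r at hr
  obtain ⟨G', hC⟩ := exists_ce (G := G) (mem_sdiff.2 ⟨mem_univ r, hr⟩)
    fun e => p (G.ie T e) + iv (G.ie T e = G.ie T i)
  have hd : Disjoint T (univ \ T) := disjoint_sdiff
  obtain ⟨l1, l2, l3, -⟩ := hC.agr.loc hd
  have tt : ∀ e ∈ G.tch T, e ∈ G.tch (univ \ (univ \ T)) := fun e x => by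
    rwa [Finset.sdiff_sdiff_eq_self (subset_univ T)]
  have kp : ∀ e ∈ G.cut T, G'.kap (Function.update p r 0) T e * G.cf (univ \ T) ψ e
      = G.kap p T e * ψ e := fun e x => by
    rw [ACon_kap hC.agr hd ψ _ (tt e (cut_sub_tch x)), K1Be3_kap hr]
  obtain ⟨O, φ, ⟨⟨s1, s2, s3⟩, r1, r2, r3, -⟩, hz⟩ :=
    (K1Be3_k0 hK hr hC).beta (ψ := G.cf (univ \ T) ψ) (fun x => n1 (K1Be3_cf x))
      (by rw [kp i mi, kp j mj, kp k mk, hs])
  rw [l3] at s1 r3
  rw [l2] at s3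
  rw [l1] at r1
  have a1 : ∀ v ∈ T, G.dg O v = 0 := fun v hv => by
    rw [← s2 v hv, dg_eq, dg_eq, deg, deg, sum_congr rfl fun e x =>
      ACon_inc hC.agr (disjoint_left.1 hd hv) (tt e (s1 x))]
  have a2 : ∀ v ∈ T, G.bd (G.cf (univ \ T) φ) v = 0 := fun v hv => by
    rw [← hC.agr.bd _ (disjoint_left.1 hd hv), cf_cf, r2 v hv]
  have a3 : ∀ e ∈ G.cut T, G.cf (univ \ T) φ e = ψ e := fun e x => by
    rw [ACon_congr (r1 e (not_ins_of_cut x)), cf_cf]
  obtain ⟨φ', h1, -⟩ := fil_of (K := ∅) ⟨s1, a1, s3⟩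
    ⟨a2, fun e x y w => r3 e x y (K1Be3_cf w), fun t x => x.elim⟩ a3
  exact ⟨O, φ', h1, hz⟩

/-- HINT: `h k` is even (`Def6_kap`), `AX3_res`.  If there is a side without terminal use
`k1_oA`, otherwise `k1_beta`; `lift1` (`kB` is void: `hno` for `m = j`, parity for `m = k`); cast
`hs` with `Def6_cast`. -/
theorem k1_odd (hK : G.KC T p z i j k) {h : E → ℤ} (hB : G.Bv T h)
    (hs : G.kap p T j * h j + G.kap p T k * h k = G.kap p T i * h i) (hi : Odd (h i))
    (hj : Odd (h j)) (hno : ∀ X, ¬ G.KB1 T j X) : G.Ext T h := by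
  obtain ⟨mi, mj, mk⟩ := hK.mem
  have ek : ¬ Odd (h k) := by
    rw [Int.odd_iff] at hi hj ⊢
    rcases Def6_kap p mi with x | x <;> rcases Def6_kap p mj with y | y <;>
      rcases Def6_kap p mk with w | w <;> rw [x, y, w] at hs <;> omega
  have n1 : (h k : ZMod 3) ≠ 0 := AX3_res (hB k mk) ek
  obtain ⟨O, φ, h1, h2, h3⟩ : ∃ O φ, G.Fil T {i, j} ∅ (fun e => (h e : ZMod 3)) O φ ∧ z ∈ O ∧
      ∀ Y, G.KA T Y → ∃ e ∈ G.cut Y, e ∉ O ∨ φ e = 0 := by
    by_cases hX : ∃ X, G.KA T X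
    · obtain ⟨X, hX⟩ := hX
      exact k1_oA hK hX n1
    · have hs3 := congrArg (Int.cast : ℤ → ZMod 3) hs
      simp only [Int.cast_add, Int.cast_mul, Def6_cast] at hs3
      obtain ⟨O, φ, h1, h2⟩ := k1_beta (ψ := fun e => (h e : ZMod 3)) hK n1 hs3
      exact ⟨O, φ, h1, h2, fun Y hY => absurd ⟨Y, hY⟩ hX⟩
  refine lift1 hK hB hs h1 (fun e x => ?_) (iff_of_true h2 hi) (fun _ => h3)
    fun m hm h4 _ _ X hX => ?_
  · rw [mem_insert, mem_singleton]
    rcases hK.cases x with rfl | rfl | rfl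
    · exact iff_of_true (Or.inl rfl) hi
    · exact iff_of_true (Or.inr rfl) hj
    · exact iff_of_false (not_or.2 ⟨hK.q3.2.2.1.symm, hK.q3.2.2.2.symm⟩) ek
  · rcases hm with rfl | rfl
    · exact absurd hX (hno X)
    · refine absurd ?_ ek
      rw [Int.odd_iff]
      rcases abs_cases (h m) with x | x <;> omega

end SG

end Pool.Agent.Work.MP_8c679b_co
end

-- merged part: Pool.Agent.Work.MP_8c679b_co.K1.Main
section
/-!
Extension into a three-side with a critical edge.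
-/

set_option autoImplicit false

namespace Pool.Agent.Work.MP_8c679b_co

open Finset

namespace SG

variable {V E : Type} [Fintype V] [DecidableEq V] [DecidableEq E] {G : SG V E}
  {T X : Finset V} {p q : V → ZMod 2} {z i j k : E}

omit [Fintype V] [DecidableEq V] [DecidableEq E] in
theorem K1Main_swc (c : ZMod 2) (e : E) : G.sw (fun v => p v + c) e = G.sw p e := by
  simp only [sw]
  linear_combination z2_add_self c

/-- moving the critical edge around a terminal -/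
theorem K1Main_move (hc : G.Cub) (hT : G.T3 T) (hz : z ∈ G.ins T)
    (hp : ∀ e ∈ G.ins T, e ≠ z → G.sw p e = 0) (hi : i ∈ G.cut T) (ha : G.At z (G.ie T i)) :
    ∃ z' ∈ G.ins T, z' ≠ z ∧ G.At z' (G.ie T i) ∧
      ∀ e ∈ G.ins T, e ≠ z' → G.sw (fun v => p v + iv (v = G.ie T i)) e = 0 := by
  have hv := ie_mem (cut_sub_tch hi)
  have nl : ∀ e ∈ G.ins T, G.s e ≠ G.t e := fun e m => hT.1.noloop hc (ins_sub_tch m)
  have m1 : i ∈ G.cut {G.ie T i} := (mem_inter.1 (Cut_ie hi rfl)).1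
  have m2 : z ∈ G.cut {G.ie T i} := (mem_cut_single (nl z hz)).2 ⟨ins_sub_A hz, ha⟩
  obtain ⟨z', hq⟩ := hT.1.third hc hv m1 m2 fun k => not_ins_of_cut hi (k ▸ hz)
  have m3 := (AX3_mem hq).2.2
  have m4 : z' ∈ G.tch T := tch_mono (singleton_subset_iff.2 hv) (cut_sub_tch m3)
  have m5 := ((mem_cut_single (hT.1.noloop hc m4)).1 m3).2
  have s1 : G.sw p z = 1 := (z2_ne _).1 fun y => hT.2.2 ⟨p, fun e m => by
    by_cases w : e = z
    exacts [w ▸ y, hp e m w]⟩
  refine ⟨z', (mem_tch_iff.1 m4).resolve_right fun k =>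
    AX3_dv hc hT hi k hq.2.2.1 (eq_ie k hv m5), hq.2.2.2.symm, m5, fun e m w => ?_⟩
  by_cases k : e = z
  · subst k
    have k1 := nl e m
    simp only [sw] at s1 ⊢
    rcases ha with k2 | k2
    · simp only [iv, ← k2, k1.symm, if_true, if_false]
      linear_combination s1 + z2_add_self 1
    · simp only [iv, ← k2, k1, if_true, if_false]
      linear_combination s1 + z2_add_self 1
  · have k1 : ¬ G.At e (G.ie T i) := fun k1 => by
      have k2 := (mem_cut_single (nl e m)).2 ⟨ins_sub_A m, k1⟩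
      rw [hq.1] at k2
      simp only [mem_insert, mem_singleton] at k2
      rcases k2 with k2 | k2 | k2
      exacts [not_ins_of_cut hi (k2 ▸ m), k k2, w k2]
    have k2 := hp e m k
    simp only [At, not_or] at k1
    simp only [sw, iv, k1.1, k1.2, if_false, add_zero] at k2 ⊢
    exact k2

/-- A twist that differs from `p` at the terminal of `i`.  HINT: `tw_q3`, `kap_sign`, `chi_add`. -/
theorem k1_tw (hq : G.Q3 T i j k) {c : ZMod 2} (h1 : q (G.ie T i) = p (G.ie T i) + c + 1)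
    (h2 : q (G.ie T j) = p (G.ie T j) + c) (h3 : q (G.ie T k) = p (G.ie T k) + c) {h : E → ℤ}
    (ht : G.tw q T h = 0) : G.kap p T j * h j + G.kap p T k * h k = G.kap p T i * h i := by
  obtain ⟨mi, mj, mk⟩ := AX3_mem hq
  rw [tw_q3 hq, (kap_sign q mi).1, (kap_sign q mj).1, (kap_sign q mk).1, h1, h2, h3] at ht
  rw [(kap_sign p mi).1, (kap_sign p mj).1, (kap_sign p mk).1]
  simp only [chi_add, chi_one] at ht
  rcases z2 c with rfl | rfl
  · rw [chi_zero] at ht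
    linear_combination ht
  · rw [chi_one] at ht
    linear_combination -ht

/-- An admissible twist differs from `p` at one terminal, which is not an end of `z`.
HINT: `p + q` is not constant on the three terminals (otherwise `z` and `p + c` contradict
`AdT`), so it singles out one edge `i` (`exists_q3`, `AX3_rot`).  If `z` were at `ie T i`, let `z'`
be the third edge there (`HT.third`); `p + c + iv (v = ie T i)` makes all inner edges but `z'`
consistent and agrees with `q` at the terminals (`AX3_dv`). -/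
theorem k1_kc (hc : G.Cub) (hT : G.T3 T) (hz : z ∈ G.ins T)
    (hp : ∀ e ∈ G.ins T, e ≠ z → G.sw p e = 0) (hA : G.AdT T q) :
    ∃ i j k, G.KC T p z i j k ∧ ∀ h : E → ℤ, G.tw q T h = 0 →
      G.kap p T j * h j + G.kap p T k * h k = G.kap p T i * h i := by
  have key : ∀ i j k, G.Q3 T i j k → ∀ c : ZMod 2, q (G.ie T i) = p (G.ie T i) + c + 1 →
      q (G.ie T j) = p (G.ie T j) + c → q (G.ie T k) = p (G.ie T k) + c →
      ∃ i j k, G.KC T p z i j k ∧ ∀ h : E → ℤ, G.tw q T h = 0 →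
        G.kap p T j * h j + G.kap p T k * h k = G.kap p T i * h i := fun i j k hq c h1 h2 h3 => by
    obtain ⟨mi, mj, mk⟩ := AX3_mem hq
    refine ⟨i, j, k, ⟨hc, hT.1, hq, hT.2.2, hz, hp, fun ha => ?_⟩, fun h ht => k1_tw hq h1 h2 h3 ht⟩
    obtain ⟨z', -, -, -, k1⟩ := K1Main_move hc hT hz hp mi ha
    refine hA z' ⟨fun v => p v + iv (v = G.ie T i) + c, fun e m w => ?_, fun e m _ => ?_⟩
    · exact (K1Main_swc (p := fun v => p v + iv (v = G.ie T i)) c e).trans (k1 e m w)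
    · rw [hq.1] at m
      simp only [mem_insert, mem_singleton] at m
      rcases m with rfl | rfl | rfl
      · simp only [iv, if_true, h1]
        ring
      · simp only [iv, (AX3_dv hc hT mi mj hq.2.1).symm, if_false, add_zero, h2]
      · simp only [iv, (AX3_dv hc hT mi mk hq.2.2.1).symm, if_false, add_zero, h3]
  obtain ⟨a, b, c, hq⟩ := exists_q3 hT.2.1
  have d : ∀ qa qb qc pa pb pc : ZMod 2, (∃ x, qa = pa + x ∧ qb = pb + x ∧ qc = pc + x) ∨
      (∃ x, qa = pa + x + 1 ∧ qb = pb + x ∧ qc = pc + x) ∨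
      (∃ x, qb = pb + x + 1 ∧ qc = pc + x ∧ qa = pa + x) ∨
      ∃ x, qc = pc + x + 1 ∧ qa = pa + x ∧ qb = pb + x := by decide
  rcases d (q (G.ie T a)) (q (G.ie T b)) (q (G.ie T c)) (p (G.ie T a)) (p (G.ie T b))
    (p (G.ie T c)) with ⟨x, h1, h2, h3⟩ | ⟨x, h1, h2, h3⟩ | ⟨x, h1, h2, h3⟩ | ⟨x, h1, h2, h3⟩
  · refine absurd ⟨fun v => p v + x, fun e m w => (K1Main_swc x e).trans (hp e m w),
      fun e m _ => ?_⟩ (hA z)
    rw [hq.1] at m
    simp only [mem_insert, mem_singleton] at m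
    rcases m with rfl | rfl | rfl
    exacts [h1.symm, h2.symm, h3.symm]
  · exact key a b c hq x h1 h2 h3
  · exact key b c a (AX3_rot hq) x h1 h2 h3
  · exact key c a b (AX3_rot (AX3_rot hq)) x h1 h2 h3

/-- Exchanging the critical edge at the terminal of `j`.
HINT: `z'` is the third edge at `ie T j`, `p' v = p v + iv (v = ie T j)`.  If `z'` were at `ie T k`
then `{ie T j, ie T k}` is a rung (`HT.rung'`), its complement in `T` has three leaving edges
(`Spl_card`), so it is the vertex `ie T i`, and `z` would end there. -/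
theorem k1_flip (hK : G.KC T p z i j k) (hz : G.At z (G.ie T j)) :
    ∃ z' p', G.KC T p' z' k j i ∧ ∀ h : E → ℤ,
      G.kap p T j * h j + G.kap p T k * h k = G.kap p T i * h i →
      G.kap p' T j * h j + G.kap p' T i * h i = G.kap p' T k * h k := by
  obtain ⟨mi, mj, mk⟩ := hK.mem
  obtain ⟨d1, d2, d3⟩ := hK.dv
  obtain ⟨z', m1, m2, m3, m4⟩ := K1Main_move hK.cub hK.t3 hK.zi hK.bal mj hz
  refine ⟨z', _, ⟨hK.cub, hK.ht, AX3_rot (AX3_rot hK.swap.q3) |> AX3_rot |> AX3_rot, hK.ub, m1, m4,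
    fun ha => ?_⟩, fun h hs => ?_⟩
  · have vj := ie_mem (cut_sub_tch mj)
    have vk := ie_mem (cut_sub_tch mk)
    have je : ∀ e, G.At e (G.ie T j) → G.At e (G.ie T k) → G.Je e (G.ie T j) (G.ie T k) := by
      rintro e (a | a) (b | b)
      exacts [absurd (a.symm.trans b) d3, Or.inl ⟨a, b⟩, Or.inr ⟨b, a⟩, absurd (a.symm.trans b) d3]
    obtain ⟨r1, -, e, r2, -⟩ := hK.ht.rung' hK.cub vj vk d3 ⟨z', ins_sub_A m1, je z' m3 ha⟩
    have sb := Cut_pair vj vk
    have c1 := Spl_card (G := G) sb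
    have c2 : 1 < (G.cut {G.ie T j, G.ie T k} ∩ G.cut T).card := one_lt_card.2
      ⟨j, mem_inter.2 ⟨(cut_of_sub sb mj (Cut_tch (mem_cut.1 mj).1 (ie_at (X := T)) (by simp))).1, mj⟩,
        k, mem_inter.2 ⟨(cut_of_sub sb mk (Cut_tch (mem_cut.1 mk).1 (ie_at (X := T)) (by simp))).1, mk⟩,
        hK.q3.2.2.2⟩
    have vi : G.ie T i ∈ T \ {G.ie T j, G.ie T k} :=
      mem_sdiff.2 ⟨ie_mem (cut_sub_tch mi), by simp [d1, d2]⟩
    have c3 := hK.ht _ sdiff_subset ⟨_, vi⟩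
    have c4 := hK.t3.2.1
    have c5 := (c3.2 (by omega)).resolve_right fun x => (mem_sdiff.1 (x.symm ▸ vj :
      G.ie T j ∈ T \ {G.ie T j, G.ie T k})).2 (by simp)
    have c6 : ∀ v ∈ T, G.At z v → v ∈ ({G.ie T j, G.ie T k} : Finset V) := fun v a b => by
      by_contra x
      exact hK.ni (card_le_one.1 c5.le v (mem_sdiff.2 ⟨a, x⟩) _ vi ▸ b)
    have c7 : z ∈ G.ins {G.ie T j, G.ie T k} :=
      mem_ins.2 ⟨ins_sub_A hK.zi, c6 _ hK.st.1 (Or.inl rfl), c6 _ hK.st.2.1 (Or.inr rfl)⟩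
    have c8 : z' ∈ G.ins {G.ie T j, G.ie T k} :=
      Cut_je_ins (ins_sub_A m1) (je z' m3 ha) (by simp) (by simp)
    rw [r2, mem_singleton] at c7 c8
    exact m2 (c8.trans c7.symm)
  · rw [(kap_sign p mi).1, (kap_sign p mj).1, (kap_sign p mk).1] at hs
    rw [(kap_sign _ mi).1, (kap_sign _ mj).1, (kap_sign _ mk).1]
    simp only [iv, d1, d3.symm, if_true, if_false, add_zero, chi_add, chi_one]
    linear_combination -hs

/-- two or none of the three values are odd -/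
theorem k1_par (hK : G.KC T p z i j k) {h : E → ℤ}
    (hs : G.kap p T j * h j + G.kap p T k * h k = G.kap p T i * h i) :
    Odd (h i) ↔ ¬ (Odd (h j) ↔ Odd (h k)) := by
  obtain ⟨mi, mj, mk⟩ := hK.mem
  simp only [Int.odd_iff]
  rcases Def6_kap p mi with x | x <;> rcases Def6_kap p mj with y | y <;>
    rcases Def6_kap p mk with w | w <;> rw [x, y, w] at hs <;> omega

theorem k1_x3o (hc : G.Cub) (hT : G.T3 T) (hz : z ∈ G.ins T)
    (hp : ∀ e ∈ G.ins T, e ≠ z → G.sw p e = 0)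
    (hI : ∀ m ∈ G.cut T, G.At z (G.ie T m) ∨ ∀ X, ¬ G.KB1 T m X) (q : V → ZMod 2) (h : E → ℤ)
    (hA : G.AdT T q) (hB : G.Bv T h) (ht : G.tw q T h = 0) (ho : ∃ e ∈ G.cut T, Odd (h e)) :
    G.Ext T h := by
  obtain ⟨i, j, k, hK, hs⟩ := k1_kc hc hT hz hp hA
  have hs := hs h ht
  have key : ∀ j k, G.KC T p z i j k →
      G.kap p T j * h j + G.kap p T k * h k = G.kap p T i * h i → Odd (h i) → Odd (h j) →
      G.Ext T h := fun j k hK hs hi hj => by
    rcases hI j hK.mem.2.1 with k1 | k1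
    · obtain ⟨z', p', k2, k3⟩ := k1_flip hK k1
      exact k1_even k2 hB (k3 h hs) (fun k4 => (k1_par hK hs).1 hi (iff_of_true hj k4)) hj
    · exact k1_odd hK hB hs hi hj k1
  have hP := k1_par hK hs
  by_cases hi : Odd (h i)
  · by_cases hj : Odd (h j)
    · exact key j k hK hs hi hj
    · exact key k j hK.swap (by rw [add_comm, hs]) hi (by
        by_contra hk
        exact hP.1 hi (iff_of_false hj hk))
  · refine k1_even hK hB hs hi ?_
    have k1 := not_not.1 (hP.not.1 hi)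
    obtain ⟨e, he, k2⟩ := ho
    rcases hK.cases he with rfl | rfl | rfl
    exacts [absurd k2 hi, k2, k1.2 k2]

/-- HINT: copy the proof of `x3n` in `Six/AX3`; it uses `hO` only for this `T`. -/
theorem k1_x3n (hc : G.Cub) (hT : G.T3 T) (hO : ∀ q h, G.AdT T q → G.Bv T h → G.tw q T h = 0 →
    (∃ e ∈ G.cut T, Odd (h e)) → G.Ext T h) :
    ∃ q, G.AdT T q ∧ ∀ h, G.Bv T h → G.tw q T h = 0 → G.Ext T h := by
  obtain ⟨O, φ, h1, h2, h3⟩ := cse hc hT
  have nO : ∀ e ∈ G.cut T, e ∉ O := fun e a b => not_ins_of_cut a (h1.sub_ins b)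
  obtain ⟨q, hq⟩ : ∃ q : V → ZMod 2, ∀ e ∈ G.cut T, G.kap q T e * φ e = 1 := by
    classical
    refine ⟨fun v => if ∃ e ∈ G.cut T, G.ie T e = v ∧ G.out T φ e = -1 then 1 else 0,
      fun e a => ?_⟩
    rw [(kap_sign _ a).1, mul_assoc]
    change chi _ * G.out T φ e = 1
    split_ifs with k
    · obtain ⟨f, b, c, d⟩ := k
      obtain rfl : f = e := not_not.1 fun x => AX3_dv hc hT b a x c
      rw [d, chi_one, neg_mul_neg, one_mul]
    · rw [chi_zero, one_mul]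
      exact (by decide : ∀ x : ZMod 3, x ≠ 0 → x ≠ -1 → x = 1) _
        ((out_ne a).2 (h3.2.1 e (cut_sub_tch a) (nO e a))) fun x => k ⟨e, a, rfl, x⟩
  obtain ⟨a, b, c, k⟩ := exists_q3 hT.2.1
  obtain ⟨ma, mb, mc⟩ := AX3_mem k
  have hA : G.AdT T q := not_not.1 fun x => by
    obtain ⟨z, mz, p, p1, p2⟩ := not_adt hT x
    have s1 : G.sw p z = 1 := (z2_ne _).1 fun y => hT.2.2 ⟨p, fun e m => by
      by_cases w : e = z
      exacts [w ▸ y, p1 e m w]⟩
    have s2 : ∀ e ∈ G.cut T, G.kap p T e * φ e = 1 := fun e m => by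
      rw [(kap_sign _ m).1, p2 e m, ← (kap_sign _ m).1, hq e m]
    have s3 := Def6_split (G := G) p T φ
    rw [sum_eq_zero fun v m => by rw [h3.1 v m, mul_zero], tw, AX3_sum k, s2 a ma, s2 b mb,
      s2 c mc, sum_eq_single_of_mem z mz fun e m w => by
        rw [sol1_kap_zero m (p1 e m w), zero_mul], show (1 + (1 + 1) : ZMod 3) = 0 from rfl,
      zero_add] at s3
    have s4 : z ∈ O := not_not.1 fun y =>
      mul_ne_zero (Node_chord mz s1) (h3.2.1 z (ins_sub_tch mz) y) s3.symm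
    rw [h1.ev.par_eq p, sum_eq_single_of_mem z s4 fun e m => p1 e (h1.sub_ins m), s1] at h2
    exact one_ne_zero h2
  refine ⟨q, hA, fun h hB ht => ?_⟩
  by_cases ho : ∃ e ∈ G.cut T, Odd (h e)
  · exact hO q h hA hB ht ho
  have r : ∀ e ∈ G.cut T, (G.kap q T e : ZMod 3) * h e ≠ 0 := fun e m =>
    mul_ne_zero (red_kap_ne m) (AX3_res (hB e m) fun x => ho ⟨e, m, x⟩)
  have s := AX3_cast (G := G) (q := q) (T := T) (h := h)
  rw [ht, Int.cast_zero, tw, AX3_sum k] at s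
  obtain ⟨x, x0, x1, x2, x3⟩ := red_three _ _ _ 1 1 1 (r a ma) (r b mb) (r c mc) one_ne_zero
    one_ne_zero one_ne_zero s.symm rfl
  refine AX3_lift (φ := fun e => x * φ e) hc hT.1 (h1.sub_ins.trans ins_sub_A) h1.ev
    ⟨fun v m => by rw [bd_mul, h3.1 v m, mul_zero], fun e m y => mul_ne_zero x0 (h3.2.1 e m y),
      fun t m => absurd m (Set.notMem_empty t)⟩
    (fun e m => ⟨(hB e m).2, iff_of_false (fun y => ho ⟨e, m, y⟩) (nO e m),
      (red_cancel _ _ _ _ (red_kap_ne (p := q) m) ?_).symm⟩)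
    (fun K m y _ _ => Or.inl ?_) ht ?_ (AX3_size hT.2.1 hB ht)
  · rw [hq e m]
    rw [k.1] at m
    simp only [mem_insert, mem_singleton] at m
    rcases m with rfl | rfl | rfl
    exacts [x1, x2, x3]
  · obtain ⟨e, u, -, w⟩ := h3.2.2 _ ⟨K, m, y, rfl⟩
    exact ⟨e, u, w.imp_right fun w => by rw [w, mul_zero]⟩
  · rw [inter_eq_left.2 h1.sub_ins, ← h1.ev.par_eq, h2]

theorem k1_side (hK : G.KC T p z i j k) (hX : G.KB1 T i X) :
    ∃ q, G.AdT T q ∧ ∀ h, G.Bv T h → G.tw q T h = 0 → G.Ext T h := by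
  refine ⟨_, hK.adt, fun h hB ht => ?_⟩
  have hs := k1_tw (p := p) (c := 0) hK.q3 (by simp [iv]) (by simp [iv, hK.dv.1.symm])
    (by simp [iv, hK.dv.2.1.symm]) ht
  have key : ∀ j k, G.KC T p z i j k →
      G.kap p T j * h j + G.kap p T k * h k = G.kap p T i * h i → Odd (h i) → Odd (h j) →
      G.Ext T h := fun j k hK hs hi hj => by
    by_cases k1 : ∃ Y, G.KB1 T j Y
    · obtain ⟨Y, hY⟩ := k1
      exact k1_two hK hB hs hi hj hX hY
    · exact k1_odd hK hB hs hi hj fun Y hY => k1 ⟨Y, hY⟩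
  have hP := k1_par hK hs
  by_cases hi : Odd (h i)
  · by_cases hj : Odd (h j)
    · exact key j k hK hs hi hj
    · exact key k j hK.swap (by rw [add_comm, hs]) hi (by
        by_contra hk
        exact hP.1 hi (iff_of_false hj hk))
  · by_cases hj : Odd (h j)
    · exact k1_even hK hB hs hi hj
    · refine k1_alleven hK hX hB hs fun e he => ?_
      rcases hK.cases he with rfl | rfl | rfl
      exacts [hi, hj, fun hk => hj ((not_not.1 (hP.not.1 hi)).2 hk)]

/-- Extension into a three-side that becomes balanced after deleting one edge. -/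
theorem x3n_k1 (hc : G.Cub) (hT : G.T3 T) (hz : ∃ z, G.Bal ((G.ins T).erase z)) :
    ∃ q, G.AdT T q ∧ ∀ h, G.Bv T h → G.tw q T h = 0 → G.Ext T h := by
  obtain ⟨z, p, hp⟩ := hz
  have hp' : ∀ e ∈ G.ins T, e ≠ z → G.sw p e = 0 := fun e he hne => hp e (mem_erase.2 ⟨hne, he⟩)
  have hz : z ∈ G.ins T := by
    by_contra k
    exact hT.2.2 ⟨p, fun e he => hp' e he fun k' => k (k' ▸ he)⟩
  by_cases hI : ∀ m ∈ G.cut T, G.At z (G.ie T m) ∨ ∀ X, ¬ G.KB1 T m X
  · exact k1_x3n hc hT (k1_x3o hc hT hz hp' hI)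
  · simp only [not_forall, not_or, not_not] at hI
    obtain ⟨i, hi, h1, X, hX⟩ := hI
    obtain ⟨j, hj, hne⟩ := exists_mem_ne (s := G.cut T) (by rw [hT.2.1]; norm_num) i
    obtain ⟨k, hq⟩ := AX3_third hT.2.1 hi hj hne.symm
    exact k1_side ⟨hc, hT.1, hq, hT.2.2, hz, hp', h1⟩ hX

end SG

end Pool.Agent.Work.MP_8c679b_co
end
end

-- merged part: Pool.Agent.Work.MP_8c679b_co.Top.RMain
section
-- merged part: Pool.Agent.Work.MP_8c679b_co.Top.RTol
section
/-!
Graphs in which four edges near a three-side meet all odd circuits.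
-/

set_option autoImplicit false

namespace Pool.Agent.Work.MP_8c679b_co

open Finset

namespace SG

variable {V E : Type} [Fintype V] [DecidableEq V] [DecidableEq E] {G : SG V E}
  {T K Y : Finset V}

/-- the lift with weights and one size on all leaving edges -/
theorem RTol_core (hc : G.Cub) (hY : Y ⊆ G.vs G.A) (hl : ∀ e ∈ G.tch Y, G.s e ≠ G.t e) {c : ℤ}
    (hc' : c = 2 ∨ c = 4) {ε : ZMod 2} (hs : G.Sol Y ε)
    (h4 : (4 : ℤ) ∣ (G.cut Y).card * c + 2 * (ε.val : ℤ)) (w : V → ℕ)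
    (hw : ∀ K ⊂ Y, K.Nonempty → ¬ G.Bal (G.ins K) →
      (3 ≤ (G.cut K).card ∧ 2 ≤ ∑ v ∈ K, w v) ∨ (2 ≤ (G.cut K).card ∧ 4 ≤ ∑ v ∈ K, w v))
    (ht : ∑ v ∈ Y, w v + 4 * (G.cut Y).card < 12) :
    ∃ h, (∀ e ∈ G.cut Y, |h e| = c) ∧ G.Ext Y h := by
  obtain ⟨O, o1, o2, o3, φ, o4, o5⟩ := hs
  have hOA : O ⊆ G.A := o1.trans ins_sub_A
  have hφ : G.Sl Y O ∅ φ := ⟨o4, o5, fun t ht => ht.elim⟩
  have k0 : ∀ e, ∃ x, e ∈ G.cut Y → Av O φ e x ∧ |x| = c := fun e => by
    by_cases he : e ∈ G.cut Y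
    · have k : e ∉ O := fun k => not_ins_of_cut he (o1 k)
      obtain ⟨x, hx⟩ := av_exists k (o5 e (cut_sub_tch he) k) hc'
      exact ⟨x, fun _ => hx⟩
    · exact ⟨0, fun k => absurd k he⟩
  choose h hh using k0
  obtain ⟨f, f1, f2, f3⟩ := lift6 (h := h) hc hY hl hOA (fun v _ => o2 v) hφ subset_rfl
    (fun e he => (hh e he).1) w (fun _ => 4) (fun e he => by
      rw [(hh e he).2]
      push_cast
      omega)
    (fun K hK hn _ g hd => by
      have k2 := sum_split_max (G := G) K (G.cut Y) g fun _ => 4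
      have k3 : ((∑ v ∈ K, w v : ℕ) : ℤ) = ∑ v ∈ K, (w v : ℤ) := Nat.cast_sum _ _
      have k4 := fun e (he : e ∈ G.cut K) => o5 e (tch_mono hK.1 (cut_sub_tch he))
      by_cases hB : G.Bal (G.ins K)
      · have k1 := hd.bal hOA (fun v _ => o2 v) (fun v hv => o4 v (hK.1 hv)) hB
        omega
      rcases hw K hK hn hB with ⟨k5, k6⟩ | ⟨k5, k6⟩
      · have k1 := hd.four hOA (fun v _ => o2 v) k4 k5
        omega
      · have k1 := hd.card_le k4
        omega)
    (Or.inl ⟨rfl, fun hd => hd.2 (by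
      have k : (4 : ℤ) ∣ ∑ e ∈ G.cut Y, G.out Y h e - ∑ e ∈ G.cut Y, c := by
        rw [← sum_sub_distrib]
        refine dvd_sum fun e he => ?_
        have k1 := (hh e he).2
        rcases Def6_out h he with k | k <;> rw [k] <;>
          rcases abs_cases (h e) with k | k <;> omega
      rw [sum_const, nsmul_eq_mul] at k
      rw [inter_eq_left.2 o1, o3]
      omega), by
      rw [sum_const, smul_eq_mul]
      omega⟩)
  exact ⟨h, fun e he => (hh e he).2, ext_of_av hφ f1 f2 f3⟩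

/-- a two-side that meets a three-side misses only the neighbour of a loop vertex -/
theorem RTol_two (hc : G.Cub) (hC : G.Con) (n1 : G.N1) (hT : G.T3 T) (hK : K ⊆ G.vs G.A)
    (hl : ∀ l ∈ K, ¬ G.Lv l) (h2 : (G.cut K).card = 2) (hd : ¬ Disjoint K T) {v : V} (hv : v ∈ T)
    (hv' : v ∉ K) : ∃ l, G.Lv l ∧ ∃ e ∈ G.cut {l}, G.At e v := by
  obtain ⟨ht, h3, -⟩ := hT
  obtain ⟨u, u1, u2⟩ := not_disjoint_iff.1 hd
  have nl : ∀ l ∈ T, ¬ G.Lv l := fun l k => AStepB_nlv (ht.vtx hc k).2.1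
  have a1 := ht.mono3 (inter_subset_right (s₁ := K)) ⟨u, mem_inter.2 ⟨u1, u2⟩⟩
  obtain ⟨a2, a3⟩ := ht (T \ K) sdiff_subset ⟨v, mem_sdiff.2 ⟨hv, hv'⟩⟩
  have a4 := cut_add (G := G) (inter_subset_right (s₁ := K) (s₂ := T))
  rw [sdiff_inter_self_right] at a4
  have a5 : G.crs (G.ins T) (K ∩ T) ⊆ G.cut K := fun e he => by
    obtain ⟨k1, k2⟩ := mem_crs.1 he
    obtain ⟨k3, k4, k5⟩ := mem_ins.1 k1
    refine mem_cut.2 ⟨k3, ?_⟩
    simpa [k4, k5] using k2
  have a6 := card_le_card a5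
  have a7 : G.cut K ⊆ G.ins T := fun e he =>
    (mem_crs.1 ((eq_of_subset_of_card_le a5 (by omega)).ge he)).1
  have a8 := cut_submod (G := G) (X := K) (Y := T)
  have a9 := cut_posi (G := G) (X := K) (Y := T)
  by_cases b : (G.cut (T \ K)).card = 3
  · have b1 : T \ K = {v} := by
      obtain ⟨x, hx⟩ := card_eq_one.1 ((a3 b).resolve_right fun k =>
        (mem_sdiff.1 (k.ge u2)).2 u1)
      rw [hx, mem_singleton.1 (hx ▸ mem_sdiff.2 ⟨hv, hv'⟩ : v ∈ ({x} : Finset V))]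
    have b2 : (G.cut (K ∪ T)).card = 1 := by omega
    rcases small_cut hc hC n1 (union_subset hK ht.act) ⟨v, mem_union_right _ hv⟩ b2.le with
      ⟨l, k1, k2⟩ | k | ⟨l, k1, k2⟩
    · exact absurd (mem_singleton.1 (k2 ▸ mem_union_right _ hv) ▸ k1) (nl v hv)
    · rw [k, AStepB_vs.1, card_empty] at b2
      omega
    · obtain ⟨e, he⟩ := card_pos.1 (b2.ge.trans_lt' zero_lt_one)
      have k3 : e ∈ G.cut {l} := by rwa [← k2, SpSet_compl]
      have k4 : l ∉ K ∪ T := (mem_sdiff.1 (k2.ge (mem_singleton_self l))).2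
      have k5 : G.At e l := mem_singleton.1 (ie_mem (cut_sub_tch k3)) ▸ ie_at
      have k6 : G.ie (K ∪ T) e ∉ K := fun k => by
        have k7 := mem_ins.1 (a7 (Spl_cut_of subset_union_left he k).1)
        rcases k5 with k8 | k8
        exacts [k4 (mem_union_right _ (k8 ▸ k7.2.1)), k4 (mem_union_right _ (k8 ▸ k7.2.2))]
      have k7 : G.ie (K ∪ T) e ∈ T \ K :=
        mem_sdiff.2 ⟨(mem_union.1 (ie_mem (cut_sub_tch he))).resolve_left k6, k6⟩
      exact ⟨l, k1, e, k3, mem_singleton.1 (b1 ▸ k7) ▸ ie_at⟩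
  · have b2 : (G.cut (K \ T)).card = 1 := by omega
    obtain ⟨e, he⟩ := card_pos.1 (b2.ge.trans_lt' zero_lt_one)
    rcases small_cut hc hC n1 (sdiff_subset.trans hK) ⟨_, ie_mem (cut_sub_tch he)⟩ b2.le with
      ⟨l, k1, k2⟩ | k | ⟨l, k1, k2⟩
    · exact absurd k1 (hl l (mem_sdiff.1 (k2.ge (mem_singleton_self l))).1)
    · exact absurd hv (mem_sdiff.1 (k.ge (ht.act hv))).2
    · have k3 : v ∈ G.vs G.A \ (K \ T) := mem_sdiff.2 ⟨ht.act hv, fun k => hv' (mem_sdiff.1 k).1⟩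
      exact absurd (mem_singleton.1 (k2 ▸ k3) ▸ k1) (nl v hv)

/-- a potential with at most one negative leaving edge -/
theorem RTol_pot (h3 : (G.cut T).card = 3) {z z' y : E}
    (h1 : G.Bal (((G.ins T).erase z).erase z')) (h2 : G.Bal ((G.ins (univ \ T)).erase y)) :
    ∃ p, ∃ c ∈ G.cut T, ∀ e ∈ G.A, G.sw p e ≠ 0 →
      e = c ∨ (e ∈ G.ins T ∧ (e = z ∨ e = z')) ∨ e = y := by
  obtain ⟨p1, h1⟩ := h1
  obtain ⟨p2, h2⟩ := h2
  obtain ⟨a, b, c, hq, -⟩ := exists_q3 h3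
  obtain ⟨k, d, hd, hk⟩ : ∃ k, ∃ d ∈ G.cut T, ∀ e ∈ G.cut T, e ≠ d →
      G.n e + p1 (G.ie T e) + p2 (G.oe T e) = k := by
    simp only [hq, mem_insert, mem_singleton, forall_eq_or_imp, forall_eq, exists_eq_or_imp,
      exists_eq_left]
    have z3 : ∀ x y z : ZMod 2, x = y ∨ x = z ∨ y = z := by decide
    rcases z3 (G.n a + p1 (G.ie T a) + p2 (G.oe T a)) (G.n b + p1 (G.ie T b) + p2 (G.oe T b))
      (G.n c + p1 (G.ie T c) + p2 (G.oe T c)) with h | h | h
    · exact ⟨_, .inr (.inr ⟨fun _ => h, fun _ => rfl, fun k => absurd rfl k⟩)⟩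
    · exact ⟨_, .inr (.inl ⟨fun _ => h, fun k => absurd rfl k, fun _ => rfl⟩)⟩
    · exact ⟨_, .inl ⟨fun k => absurd rfl k, fun _ => h, fun _ => rfl⟩⟩
  refine ⟨fun v => if v ∈ T then p1 v else p2 v + k, d, hd, fun e he hs => ?_⟩
  by_contra r
  simp only [not_or, not_and] at r
  refine hs ?_
  by_cases e1 : e ∈ G.cut T
  · rw [Cut_sw (je_ie_oe (X := T)), if_pos (ie_mem (cut_sub_tch e1)), if_neg (oe_not_mem e1),
      ← hk e e1 r.1]
    linear_combination z2_add_self (G.n e + p1 (G.ie T e) + p2 (G.oe T e))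
  have e2 : G.s e ∈ T ↔ G.t e ∈ T := by
    by_contra k
    exact e1 (mem_cut.2 ⟨he, k⟩)
  by_cases e3 : G.s e ∈ T
  · have e4 := mem_ins.2 ⟨he, e3, e2.1 e3⟩
    have := h1 e (mem_erase.2 ⟨(r.2.1 e4).2, mem_erase.2 ⟨(r.2.1 e4).1, e4⟩⟩)
    rw [sw] at this ⊢
    rwa [if_pos e3, if_pos (e2.1 e3)]
  · have e4 : G.t e ∉ T := fun k => e3 (e2.2 k)
    have := h2 e (mem_erase.2 ⟨r.2.2, mem_ins.2 ⟨he, ACon_c.2 e3, ACon_c.2 e4⟩⟩)
    rw [sw] at this ⊢
    rw [if_neg e3, if_neg e4]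
    linear_combination this + z2_add_self k

/-- an end of `z` that is not the neighbour of the loop vertex -/
theorem RTol_end (hc : G.Cub) (hT : G.T3 T) {x : V} (hx : ∀ l, G.Lv l → l = x) (z : E) :
    ∃ u ∈ T, (z ∈ G.ins T → G.At z u) ∧ ∀ l, G.Lv l → ∀ e ∈ G.cut {l}, ¬ G.At e u := by
  obtain ⟨y, hy, hz⟩ : ∃ y ∈ G.ins T, z ∈ G.ins T → y = z := by
    by_cases k : z ∈ G.ins T
    · exact ⟨z, k, fun _ => rfl⟩
    · obtain ⟨y, hy⟩ : (G.ins T).Nonempty := nonempty_iff_ne_empty.2 fun h0 => hT.2.2 (by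
        rw [h0]
        exact ⟨0, fun _ h => absurd h (notMem_empty _)⟩)
      exact ⟨y, hy, fun k' => absurd k' k⟩
  obtain ⟨-, y1, y2⟩ := mem_ins.1 hy
  by_contra r
  push Not at r
  obtain ⟨l, l1, e, e1, e2⟩ := r _ y1 fun k => hz k ▸ Or.inl rfl
  obtain ⟨l', l2, e', e3, e4⟩ := r _ y2 fun k => hz k ▸ Or.inr rfl
  obtain rfl : l = l' := (hx l l1).trans (hx l' l2).symm
  obtain ⟨m, a, -, ha⟩ := l1.str hc
  obtain rfl : e = e' := (mem_singleton.1 (ha ▸ e1)).trans (mem_singleton.1 (ha ▸ e3)).symm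
  have k : ∀ v ∈ T, v ∉ ({l} : Finset V) := fun v hv k =>
    AStepB_nlv (hT.1.vtx hc hv).2.1 (mem_singleton.1 k ▸ l1)
  exact hT.1.noloop hc (ins_sub_tch hy)
    ((eq_oe e1 (k _ y1) e2).trans (eq_oe e1 (k _ y2) e4).symm)

omit [Fintype V] in
theorem RTol_sum (K : Finset V) (u : V) : ∑ v ∈ K, (iv (v = u) : ℕ) = iv (u ∈ K) := by
  simp only [iv, sum_ite_eq']

/-- two edges meet all odd circuits of a three-side and one edge meets all odd circuits outside -/
theorem tol4 (hc : G.Cub) (hA : G.Adm2) (hC : G.Con) (n1 : G.N1) (n2 : G.N2) (n3 : G.N3)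
    (hT : G.T3 T) (h1 : G.B2 T) (h2 : ¬ G.F2 (univ \ T)) : G.Six := by
  obtain ⟨z, z', h1⟩ := h1
  obtain ⟨y, h2⟩ : ∃ y, G.Bal ((G.ins (univ \ T)).erase y) := by
    by_contra k
    exact h2 fun y k' => k ⟨y, k'⟩
  obtain ⟨p, d, hd, hp⟩ := RTol_pot hT.2.1 h1 h2
  have nl : ∀ l ∈ T, ¬ G.Lv l := fun l k => AStepB_nlv (hT.1.vtx hc k).2.1
  have ub : ∀ K, ¬ G.Bal (G.ins K) → ∃ e ∈ G.ins K,
      e = d ∨ (e ∈ G.ins T ∧ (e = z ∨ e = z')) ∨ e = y := fun K hK => by
    by_contra r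
    exact hK ⟨p, fun e he => by_contra fun k => r ⟨e, he, hp e (ins_sub_A he) k⟩⟩
  have hx : ∀ l, G.Lv l → l = G.s y := fun l hl => by
    obtain ⟨e, he, k⟩ := ub {l} (Po.unbal hc hA.1 (.inl ⟨l, hl, rfl⟩))
    obtain ⟨-, k1, k2⟩ := mem_ins.1 he
    rw [mem_singleton] at k1 k2
    rcases k with rfl | k | rfl
    · exact absurd (k1.trans k2.symm) (hT.1.noloop hc (cut_sub_tch hd))
    · exact absurd hl (nl l (k1 ▸ (mem_ins.1 k.1).2.1))
    · exact k1.symm
  obtain ⟨u, u1, u2, u3⟩ := RTol_end hc hT hx z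
  obtain ⟨u', u4, u5, u6⟩ := RTol_end hc hT hx z'
  obtain ⟨w, hw⟩ : ∃ w : V → ℕ, ∀ K : Finset V, ∑ v ∈ K, w v =
      2 * iv (u ∈ K) + 2 * iv (u' ∈ K) + 2 * iv (G.s d ∈ K) + 4 * iv (G.s y ∈ K) :=
    ⟨fun v => 2 * iv (v = u) + 2 * iv (v = u') + 2 * iv (v = G.s d) + 4 * iv (v = G.s y),
      fun K => by simp only [sum_add_distrib, ← mul_sum, RTol_sum]⟩
  have at_ : ∀ {K e v}, e ∈ G.ins K → G.At e v → v ∈ K := fun he k => by
    rcases k with rfl | rfl
    exacts [(mem_ins.1 he).2.1, (mem_ins.1 he).2.2]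
  have key : ∀ K ⊆ G.vs G.A, (∀ l ∈ K, ¬ G.Lv l) → 2 ≤ (G.cut K).card → ¬ G.Bal (G.ins K) →
      (3 ≤ (G.cut K).card ∧ 2 ≤ ∑ v ∈ K, w v) ∨ (2 ≤ (G.cut K).card ∧ 4 ≤ ∑ v ∈ K, w v) := by
    intro K hK hl k2 hB
    obtain ⟨e, he, k⟩ := ub K hB
    rw [hw]
    by_cases k3 : 3 ≤ (G.cut K).card
    · refine .inl ⟨k3, ?_⟩
      rcases k with rfl | ⟨k, rfl | rfl⟩ | rfl
      · simp only [iv, (mem_ins.1 he).2.1, if_true]
        omega
      · simp only [iv, at_ he (u2 k), if_true]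
        omega
      · simp only [iv, at_ he (u5 k), if_true]
        omega
      · simp only [iv, (mem_ins.1 he).2.1, if_true]
        omega
    refine .inr ⟨k2, ?_⟩
    by_cases k4 : Disjoint K T
    · rcases k with rfl | ⟨k, -⟩ | rfl
      · exact absurd (ie_mem (cut_sub_tch hd)) (disjoint_left.1 k4 (at_ he ie_at))
      · exact absurd (mem_ins.1 k).2.1 (disjoint_left.1 k4 (mem_ins.1 he).2.1)
      · simp only [iv, (mem_ins.1 he).2.1, if_true]
        omega
    · have k5 : ∀ v ∈ T, (∀ l, G.Lv l → ∀ e ∈ G.cut {l}, ¬ G.At e v) → v ∈ K := fun v hv r => by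
        by_contra k6
        obtain ⟨l, l1, e, l2, l3⟩ := RTol_two hc hC n1 hT hK hl (by omega) k4 hv k6
        exact r l l1 e l2 l3
      simp only [iv, k5 u u1 u3, k5 u' u4 u6, if_true]
      omega
  have nloop : ∀ Y : Finset V, (∀ l, G.Lv l → l ∉ Y) → ∀ e ∈ G.tch Y, G.s e ≠ G.t e :=
    fun Y hY e he k => hY (G.s e) ⟨e, (mem_tch.1 he).1, rfl, k.symm⟩
      ((mem_tch.1 he).2.elim id fun k' => k ▸ k')
  have le1 : ∀ (a : Prop) [Decidable a], (iv a : ℕ) ≤ 1 := fun a _ => by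
    unfold iv
    split_ifs <;> omega
  intro e0 c hc'
  by_cases hL : ∃ l, G.Lv l
  · obtain ⟨l, hl⟩ := hL
    obtain ⟨m, a, -, ha⟩ := hl.str hc
    have one : ∀ l', G.Lv l' → l' = l := fun l' k => (hx l' k).trans (hx l hl).symm
    have hY : G.cut (G.vs G.A \ {l}) = {a} := (SpSet_compl _).trans ha
    have hn : ∀ l', G.Lv l' → l' ∉ G.vs G.A \ {l} := fun l' k k' =>
      (mem_sdiff.1 k').2 (mem_singleton.2 (one l' k))
    have fl := flex_of_cut hA.1 (W := G.vs G.A \ {l}) (by rw [hY, card_singleton])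
    obtain ⟨ε, s1, s2⟩ : ∃ ε : ZMod 2, G.Sol (G.vs G.A \ {l}) ε ∧
        (4 : ℤ) ∣ (G.cut (G.vs G.A \ {l})).card * c + 2 * (ε.val : ℤ) := by
      rw [hY, card_singleton]
      rcases hc' with rfl | rfl
      exacts [⟨1, fl.2, by decide⟩, ⟨0, fl.1, by decide⟩]
    obtain ⟨h, k1, f, k2, k3, k4⟩ := RTol_core hc sdiff_subset (nloop _ hn) hc' s1 s2 w
      (fun K hK hne hB => key K (hK.1.trans sdiff_subset) (fun l' k k' => hn l' k' (hK.1 k))
        (by
          by_contra r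
          rcases small_cut hc hC n1 (hK.1.trans sdiff_subset) hne (by omega) with
            ⟨l', k, k'⟩ | k | ⟨l', k, k'⟩
          · exact hn l' k (hK.1 (k'.ge (mem_singleton_self l')))
          · obtain ⟨e, he, k', -⟩ := id hl
            exact hn l hl (hK.1 (k.ge (k' ▸ s_mem_vs he)))
          · refine hK.ne ?_
            rw [← one l' k, ← k', Finset.sdiff_sdiff_eq_self (hK.1.trans sdiff_subset)]) hB) (by
        have r1 := le1 (u ∈ G.vs G.A \ {l})
        have r2 := le1 (u' ∈ G.vs G.A \ {l})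
        have r3 := le1 (G.s d ∈ G.vs G.A \ {l})
        have r4 : (iv (G.s y ∈ G.vs G.A \ {l}) : ℕ) = 0 := if_neg (hx l hl ▸ hn l hl)
        rw [hw, hY, card_singleton]
        omega)
    have k5 : ∀ e ∈ G.cut {l}, |f e| = c := fun e he => by
      rw [← SpSet_compl] at he
      rw [k2 e he, k1 e he]
    have k6 : G.Bv {l} f := fun e he => by
      have := k5 e he
      rcases abs_cases (f e) with k | k <;> omega
    obtain ⟨F, f1, f2⟩ := Out.glue (X := {l}) (h := f) ⟨fun v hv => by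
        by_cases k : v ∈ G.vs G.A
        exacts [k3 v (mem_sdiff.2 ⟨k, hv⟩), AStepB_bd k], fun e he k => by
        by_cases k' : e ∈ G.cut {l}
        · exact k6 e k'
        · have r := mem_ins.1 (ACon_split (ACon_tch.2 ⟨he, k⟩) k')
          exact k4 e (mem_ins.2 ⟨he, mem_sdiff.2 ⟨s_mem_vs he, ACon_c.1 r.2.1⟩,
            mem_sdiff.2 ⟨t_mem_vs he, ACon_c.1 r.2.2⟩⟩)⟩
      (hl.ext hc hA.1 k6 fun e he => by
        have := k5 e he
        rw [even_iff_two_dvd]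
        rcases abs_cases (f e) with k | k <;> omega)
    refine ⟨F, f1, fun hb => ?_⟩
    obtain ⟨l', l1, l2⟩ := brg_lv hc hC n1 hb
    have k7 : e0 ∈ G.cut {l} := one l' l1 ▸ l2 ▸ mem_singleton_self e0
    rw [f2 e0 (not_ins_of_cut k7), k5 e0 k7]
  · push Not at hL
    have two : ∀ K ⊂ G.vs G.A, K.Nonempty → 2 ≤ (G.cut K).card := fun K hK hne => by
      by_contra r
      rcases small_cut hc hC n1 hK.1 hne (by omega) with ⟨l', k, -⟩ | k | ⟨l', k, -⟩
      exacts [hL l' k, hK.ne k, hL l' k]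
    have hU : ¬ G.Bal (G.ins (G.vs G.A)) := fun k => hT.2.2 (k.mono (ins_mono hT.1.act))
    obtain ⟨s1, -⟩ := tmain1 hc hA.1 (G.vs G.A) (fun Y hY hn hne => by
        rw [AStepB_vs.2]
        exact two Y (hY.ssubset_of_ne hne) hn) hU
      ⟨u, hT.1.act u1, (AStepB_vs (G := G)).2.symm ▸ hc.deg3 (hT.1.act u1)⟩ (fun Y hY y2 _ hB => by
        have k1 := two Y (hY.ssubset_of_ne fun k => hU (k ▸ hB)) (card_pos.1 (by omega))
        have k2 : (G.cut Y).card ≠ 3 := fun k => n3 Y k (by rwa [inter_eq_left.2 hY]) hB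
        have k3 : (G.cut Y).card ≠ 2 := fun k => n2 Y k hB
        omega) fun k => hA.2 _ k hU
    obtain ⟨h, -, f, -, k3, k4⟩ := RTol_core hc Subset.rfl (nloop _ fun l k => absurd k (hL l)) hc'
      s1 (by rw [AStepB_vs.1]; simp) w
      (fun K hK hne hB => key K hK.1 (fun l _ => hL l) (two K hK hne) hB) (by
        have r1 := le1 (u ∈ G.vs G.A)
        have r2 := le1 (u' ∈ G.vs G.A)
        have r3 := le1 (G.s d ∈ G.vs G.A)
        have r4 := le1 (G.s y ∈ G.vs G.A)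
        rw [hw, AStepB_vs.1, card_empty]
        omega)
    refine ⟨f, ⟨fun v => ?_, fun e he => k4 e (AStepB_vs.2.ge he)⟩, fun hb => ?_⟩
    · by_cases k : v ∈ G.vs G.A
      exacts [k3 v k, AStepB_bd k]
    · obtain ⟨l, k, -⟩ := brg_lv hc hC n1 hb
      exact absurd k (hL l)

end SG

end Pool.Agent.Work.MP_8c679b_co
end

-- merged part: Pool.Agent.Work.MP_8c679b_co.Six.CFour
section
/-!
Cyclically four-edge-connected graphs.
-/

set_option autoImplicit false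

namespace Pool.Agent.Work.MP_8c679b_co

open Finset

namespace SG

variable {V E : Type} [Fintype V] [DecidableEq V] [DecidableEq E] {G : SG V E}
  {K S M : Finset V} {O Q : Finset E} {φ : E → ZMod 3}

variable (G) in
/-- no nontrivial cut with at most three edges -/
def C4 : Prop :=
  ∀ K ⊂ G.vs G.A, K.Nonempty → 3 ≤ (G.cut K).card ∧
    ((G.cut K).card = 3 → K.card = 1 ∨ (G.vs G.A \ K).card = 1)

theorem C4.one (hc : G.Cub) (h : G.C4) (hK : K ⊆ G.vs G.A) (h1 : K.card = 1) :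
    G.Bal (G.ins K) := by
  have k0 := deg_sum hc (Subset.refl (G.vs G.A))
  rw [AStepB_vs.1, card_empty] at k0
  have k1 : K ⊂ G.vs G.A := hK.ssubset_of_ne fun e => by
    rw [← e] at k0
    omega
  have k2 := (h K k1 (card_pos.1 (by omega))).1
  have k3 := deg_sum hc hK
  rw [card_eq_zero.1 (show (G.ins K).card = 0 by omega)]
  exact ⟨0, fun _ k => absurd k (notMem_empty _)⟩

theorem C4.ne1 (h : G.C4) : ∀ Y ⊆ G.vs G.A, (G.cut Y).card ≠ 1 := fun Y hY k => by
  by_cases r : Y = G.vs G.A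
  · rw [r, AStepB_vs.1, card_empty] at k
    omega
  · have := (h Y (hY.ssubset_of_ne r) (nonempty_iff_ne_empty.2 fun r' => by
      obtain ⟨e, he⟩ := card_pos.1 (k.ge.trans_lt' zero_lt_one)
      exact notMem_empty _ (r' ▸ Spl_ie he))).1
    omega

theorem C4.two (h : G.C4) : G.Two (G.vs G.A) (G.ins (G.vs G.A)) := fun Y hY hn hne => by
  rw [AStepB_vs.2]
  exact (h Y (hY.ssubset_of_ne hne) hn).1.trans' (by norm_num)

theorem C4.ht (h : G.C4) {r : V} (hr : r ∈ G.vs G.A) : G.HT (G.vs G.A \ {r}) := fun Y hY hn => by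
  have hrY : r ∉ Y := fun k => (mem_sdiff.1 (hY k)).2 (mem_singleton_self r)
  obtain ⟨k1, k2⟩ := h Y ((hY.trans sdiff_subset).ssubset_of_ne fun e => hrY (e ▸ hr)) hn
  refine ⟨k1, fun k => (k2 k).imp_right fun h1 => Subset.antisymm hY fun v hv => ?_⟩
  by_contra h2
  exact (mem_sdiff.1 hv).2 (mem_singleton.2 (card_le_one.1 h1.le v
    (mem_sdiff.2 ⟨(mem_sdiff.1 hv).1, h2⟩) r (mem_sdiff.2 ⟨hr, hrY⟩)))

/-- the lift with five tolerated vertices -/
theorem C4.fin (hc : G.Cub) (h : G.C4) (hO : G.St (G.vs G.A) O ∅) (hp : G.par O = 0)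
    (hφ : G.Sl (G.vs G.A) O ∅ φ) (hM : M.card ≤ 5)
    (hit : ∀ K ⊆ G.vs G.A, G.US K → ¬ G.Bal (G.ins (G.vs G.A \ K)) →
      (∃ e ∈ G.cut K, e ∉ O ∨ φ e = 0) ∨ ¬ Disjoint K M) : ∃ f, G.Fl6 f := by
  have hOA : O ⊆ G.A := hO.sub_ins.trans ins_sub_A
  have e2 : G.cut (G.vs G.A) = ∅ := AStepB_vs.1
  have hb : ∀ v, G.bd φ v = 0 := fun v => by
    by_cases k : v ∈ G.vs G.A
    · exact hφ.1 v k
    · refine sum_eq_zero fun e he => ?_
      have h1 : G.s e ≠ v := fun k' => k (k' ▸ s_mem_vs he)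
      have h2 : G.t e ≠ v := fun k' => k (k' ▸ t_mem_vs he)
      simp [iv, h1, h2]
  obtain ⟨f, f1, f2, f3⟩ := lift6 (h := fun _ => 0) (P := ∅) hc subset_rfl (ABal_nl hc h.ne1) hOA
    hO.2.1 hφ (empty_subset _) (fun e he => absurd he (notMem_empty e))
    (fun v => if v ∈ M then 2 else 0) (fun _ => 0) (fun e he => absurd he (notMem_empty e))
    (fun K hK hn _ g hd => by
      rw [sdiff_empty, inter_empty, sum_empty, add_zero]
      have k0 : (0 : ℤ) ≤ ∑ v ∈ K, ((if v ∈ M then 2 else 0 : ℕ) : ℤ) :=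
        sum_nonneg fun _ _ => Nat.cast_nonneg _
      have hO' : ∀ v ∈ K, G.dg O v = 0 := fun v hv => hO.2.1 v (hK.1 hv)
      have hφ' : ∀ e ∈ G.cut K, e ∉ O → φ e ≠ 0 := fun e he =>
        hφ.2.1 e (tch_mono hK.1 (cut_sub_tch he))
      by_cases b1 : G.Bal (G.ins K)
      · have := hd.bal hOA hO' (fun v _ => hb v) b1
        omega
      by_cases b2 : G.Bal (G.ins (G.vs G.A \ K))
      · have := hd.cobal hOA hO.ev hp hb b2
        omega
      obtain ⟨k1, k2⟩ := h K hK hn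
      have k3 : (G.cut K).card ≠ 3 := fun k => (k2 k).elim (fun r => b1 (h.one hc hK.1 r))
        fun r => b2 (h.one hc sdiff_subset r)
      by_cases k4 : (G.cut K).card = 4
      swap
      · have := hd.five hOA hO' hφ' (by omega)
        omega
      rcases hit K hK.1 ⟨k4, b1⟩ b2 with k5 | k5
      · have := hd.hit hOA hO' hφ' k4.ge k5
        omega
      · obtain ⟨v, v1, v2⟩ := not_disjoint_iff.1 k5
        have k6 := single_le_sum (f := fun v => ((if v ∈ M then 2 else 0 : ℕ) : ℤ))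
          (fun _ _ => Nat.cast_nonneg _) v1
        have := hd.four hOA hO' hφ' k1
        simp only [if_pos v2, Nat.cast_ofNat] at k6
        omega)
    (Or.inl ⟨e2.symm, not_df hOA hO.2.1 (fun _ => 0) (m := 0) (by simp [tw]) (by
      rw [inter_eq_left.2 hO.sub_ins, ← hO.ev.par_eq, hp, Int.cast_zero]), by
      have k := card_le_card (inter_subset_right (s₁ := G.vs G.A) (s₂ := M))
      simp only [sum_ite_mem, sum_const, smul_eq_mul, sum_empty, add_zero]
      omega⟩)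
  obtain ⟨f', k, -⟩ := Out.glue (h := fun _ => 0) ⟨fun v _ => by simp [bd],
    fun e he k => absurd (AStepB_vs.2.ge he) k⟩
    (ext_of_av hφ (fun e he => absurd (e2 ▸ he) (notMem_empty e)) f2 f3)
  exact ⟨f', k⟩

/-- an odd circuit as a seed -/
theorem C4.seed (hc : G.Cub) (h : G.C4) (hQ : Q ⊆ G.A) (cQ : G.Cc Q) (oQ : G.par Q = 1)
    (hF : G.FH (G.vs G.A \ G.vs Q) ∨ 1 = G.nu (G.vs G.A \ G.vs Q)) (hM : M.card ≤ 5)
    (hit : ∀ K ⊆ G.vs G.A, G.US K → ¬ G.Bal (G.ins (G.vs G.A \ K)) → ¬ Disjoint K (G.vs Q) →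
      ¬ Disjoint K M) : ∃ f, G.Fl6 f := by
  obtain ⟨e0, he0⟩ := cQ.1
  have hr : G.s e0 ∈ G.vs Q := s_mem_vs he0
  obtain ⟨O, o1, o2⟩ := (par_all hc (h.ht (vs_mono hQ hr)) (G.vs G.A \ G.vs Q)
    (sdiff_subset_sdiff Subset.rfl (singleton_subset_iff.2 hr))).1 ∅
    ⟨fun _ k => absurd k (notMem_empty _), fun _ k => absurd k (notMem_empty _)⟩ 1 hF
  rw [tg_empty] at o2
  obtain ⟨⟨k1, -, k2⟩, k3⟩ := fina (pure_odd (L := ∅) hQ cQ oQ).2.2 (vs_mono hQ) (empty_subset _)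
    o2 e0 (fun e he => absurd ((AStepB_vs (G := G)).1 ▸ he) (notMem_empty e))
    (K0 := G.Kus (G.vs G.A \ G.vs Q)) fun t ht => Or.inl ⟨t, Or.inr ht, Subset.rfl⟩
  obtain ⟨φ, -, k4, k5, k6⟩ := k2 (fun _ => 1) (fun _ _ _ _ => one_ne_zero) trivial
  refine h.fin hc k1 (by rw [k3, o1, oQ]; rfl) ⟨k4, k5, fun t ht => ht.elim⟩ hM
    fun K hK hu hb => ?_
  by_cases d : Disjoint K (G.vs Q)
  · obtain ⟨e, r1, -, r2⟩ := k6 _ ⟨K, subset_sdiff.2 ⟨hK, d⟩, hu, rfl⟩
    exact Or.inl ⟨e, r1, r2⟩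
  · exact Or.inr (hit K hK hu hb d)

/-- a side that meets a minimal side contains one of its terminals -/
theorem C4.term (h : G.C4) (hS : S ⊆ G.vs G.A) (h4 : (G.cut S).card = 4)
    (hm : ∀ K ⊂ S, G.US K → G.Bal (G.ins (G.vs G.A \ K))) (hK : K ⊆ G.vs G.A) (hu : G.US K)
    (hb : ¬ G.Bal (G.ins (G.vs G.A \ K))) (hd : ¬ Disjoint K S) :
    ¬ Disjoint K ((G.cut S).image (G.ie S)) := by
  intro d
  have k1 : ∀ e ∈ G.cut S, G.ie S e ∉ K := fun e he k =>
    disjoint_left.1 d k (mem_image_of_mem _ he)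
  obtain ⟨e0, he0⟩ : (G.cut S).Nonempty := card_pos.1 (by omega)
  by_cases k2 : K ⊆ S
  · exact hb (hm K (k2.ssubset_of_ne fun e => k1 e0 he0 (e.ge (Spl_ie he0))) hu)
  have k3 : K ≠ G.vs G.A := fun e => k1 e0 he0 (e ▸ hS (Spl_ie he0))
  have k4 := cut_add (G := G) (inter_subset_left (s₁ := K) (s₂ := S))
  have k5 : G.crs (G.ins K) (K ∩ S) = ∅ := eq_empty_of_forall_notMem fun e he => by
    obtain ⟨r1, r2⟩ := mem_crs.1 he
    obtain ⟨r3, r4, r5⟩ := mem_ins.1 r1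
    have r6 : e ∈ G.cut S := mem_cut.2 ⟨r3, by simpa [r4, r5] using r2⟩
    rcases ie_at (G := G) (X := S) (e := e) with r | r
    exacts [k1 e r6 (r ▸ r4), k1 e r6 (r ▸ r5)]
  have k6 := (h (K ∩ S) (Finset.ssubset_of_subset_of_ssubset inter_subset_left
    (hK.ssubset_of_ne k3)) (not_disjoint_iff_nonempty_inter.1 hd)).1
  have k7 := (h (K \ (K ∩ S)) (Finset.ssubset_of_subset_of_ssubset sdiff_subset
    (hK.ssubset_of_ne k3)) (by
      rw [sdiff_inter_self_left]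
      exact sdiff_nonempty.2 k2)).1
  rw [k5, card_empty, hu.1] at k4
  omega

/-- cyclically four-edge-connected graphs -/
theorem C4.six (hc : G.Cub) (hA : G.Adm2) (n3 : G.N3) (h : G.C4) (hu : ¬ G.Bal G.A) :
    ∃ f, G.Fl6 f := by
  classical
  have e1 : G.ins (G.vs G.A) = G.A := AStepB_vs.2
  by_cases hx : ∃ S ⊆ G.vs G.A, G.US S ∧ ¬ G.Bal (G.ins (G.vs G.A \ S))
  swap
  · have hU : ¬ G.Bal (G.ins (G.vs G.A)) := e1.symm ▸ hu
    obtain ⟨⟨O, o1, o2, o3, φ, o4, o5⟩, -⟩ := tmain1 hc hA.1 (G.vs G.A) h.two hU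
      (by
        obtain ⟨e, he⟩ : G.A.Nonempty := nonempty_iff_ne_empty.2 fun k =>
          hu ⟨fun _ => 0, fun e he => absurd (k ▸ he) (notMem_empty e)⟩
        exact ⟨G.s e, s_mem_vs he, e1.symm ▸ hc.deg3 (s_mem_vs he)⟩)
      (fun Y hY y2 _ hB => by
        have k1 := (h Y (hY.ssubset_of_ne fun k => hU (k ▸ hB)) (card_pos.1 (by omega))).1
        have k2 : (G.cut Y).card ≠ 3 := fun k => n3 Y k (by rwa [inter_eq_left.2 hY]) hB
        omega) fun k => hA.2 _ k hU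
    exact h.fin (M := ∅) hc (st_of_ev o1 o2) o3 ⟨o4, o5, fun t ht => ht.elim⟩ (by simp)
      fun K hK k1 k2 => absurd ⟨K, hK, k1, k2⟩ hx
  obtain ⟨S, hS, hm⟩ := exists_min_image ((G.vs G.A).powerset.filter fun S =>
    G.US S ∧ ¬ G.Bal (G.ins (G.vs G.A \ S))) card
    (hx.imp fun S k => mem_filter.2 ⟨mem_powerset.2 k.1, k.2⟩)
  obtain ⟨s1, s2, s3⟩ := mem_filter.1 hS
  rw [mem_powerset] at s1
  have term := fun K => h.term (K := K) s1 s2.1 fun K hK k => by_contra fun k' =>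
    (card_lt_card hK).not_ge (hm K (mem_filter.2 ⟨mem_powerset.2 (hK.1.trans s1), k, k'⟩))
  have m4 : ((G.cut S).image (G.ie S)).card ≤ 4 := card_image_le.trans s2.1.le
  obtain ⟨Q, q1, cQ, oQ⟩ := exists_odd_cc s2.2
  obtain ⟨qA, qS⟩ := sub_ins_iff.1 q1
  by_cases hF : G.FH (G.vs G.A \ G.vs Q) ∨ 1 = G.nu (G.vs G.A \ G.vs Q)
  · exact h.seed hc qA cQ oQ hF (m4.trans (by norm_num)) fun K hK k1 k2 k3 =>
      term K hK k1 k2 fun k => k3 (k.mono_right qS)
  obtain ⟨nF, n0⟩ := not_or.1 hF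
  have hSW : G.vs G.A \ S ⊆ G.vs G.A \ G.vs Q := sdiff_subset_sdiff Subset.rfl qS
  obtain ⟨C, c1, cC, oC⟩ := exists_odd_cc s3
  replace c1 := c1.trans (ins_mono hSW)
  obtain ⟨D, d1, cD, oD⟩ : ∃ D ⊆ G.ins ((G.vs G.A \ G.vs Q) \ G.vs C), G.Cc D ∧ G.par D = 1 :=
    exists_odd_cc fun k => n0 (by rw [nu_remove hc nF c1 cC oC, (nu_bal k).1, zero_add])
  have d2 := d1.trans (ins_mono sdiff_subset)
  obtain ⟨cA, cW⟩ := sub_ins_iff.1 c1
  obtain ⟨dA, dW⟩ := sub_ins_iff.1 d1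
  obtain ⟨dW1, dC⟩ := subset_sdiff.1 dW
  have dQ := (subset_sdiff.1 dW1).2
  have cQ' := (subset_sdiff.1 cW).2
  obtain ⟨e0, he0⟩ := cQ.1
  have hT := h.ht (vs_mono qA (s_mem_vs he0))
  have hWT : G.vs G.A \ G.vs Q ⊆ G.vs G.A \ {G.s e0} :=
    sdiff_subset_sdiff Subset.rfl (singleton_subset_iff.2 (s_mem_vs he0))
  have iC := Nu_of nF c1 cC oC
  have h3 : 2 < (G.vs C).card := by
    obtain ⟨e, he⟩ := cC.1
    have k1 := hT.mono3 (cW.trans hWT) ⟨_, s_mem_vs he⟩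
    have k2 := deg_sum hc (vs_mono cA)
    rw [iso_ins c1 cC iC] at k2
    by_contra k3
    refine cC.not_bal oC Subset.rfl ((Cut_bal1 (hT.noloop hc
      (ins_sub_tch (ins_mono hWT (c1 he))))).mono fun x hx => mem_singleton.2 ?_)
    exact card_le_one.1 (by omega) x hx e he
  have hF : G.FH (G.vs G.A \ G.vs D) := by
    refine ⟨C, sub_ins_iff.2 ⟨cA, subset_sdiff.2 ⟨vs_mono cA, dC.symm⟩⟩, cC, oC, fun i => ?_⟩
    obtain ⟨v1, a1, v2, a2, v3, a3, b1, b2, b3⟩ := two_lt_card.1 h3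
    have br : ∀ v ∈ G.vs C, G.Br (G.vs G.A) C v := fun v hv =>
      ⟨hv, e1.symm ▸ third_exists hc cA hv (cC.2.1 v)⟩
    exact tk_br3 hc h.two (e1.symm ▸ qA) cQ (e1.symm ▸ cA) cC (e1.symm ▸ dA) cD cQ'.symm dQ.symm
      dC iC i (br v1 a1) (br v2 a2) (br v3 a3) b1 b2 b3
  obtain ⟨e2, he2⟩ := cD.1
  refine h.seed (M := insert (G.s e2) ((G.cut S).image (G.ie S))) hc dA cD oD (Or.inl hF)
    ((card_insert_le _ _).trans (by omega)) fun K hK k1 k2 k3 k4 => ?_
  obtain ⟨k5, k6⟩ := disjoint_insert_right.1 k4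
  have k7 : K ⊆ G.vs G.A \ G.vs Q :=
    (subset_sdiff.2 ⟨hK, by_contra fun k => term K hK k1 k2 k k6⟩).trans hSW
  obtain ⟨u1, -, u3, -, u5⟩ := us_iso hc hT hWT nF k7 k1
  obtain ⟨v, v1, v2⟩ := not_disjoint_iff.1 k3
  exact k5 (u3 ▸ vs_mono (Nu_sub u5 d2 cD v2 (u3.symm ▸ v1)) (s_mem_vs he2))

end SG

end Pool.Agent.Work.MP_8c679b_co
end

-- merged part: Pool.Agent.Work.MP_8c679b_co.A3.Main
section
/-!
Three-edge-connected cubic graphs.
-/

set_option autoImplicit false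

namespace Pool.Agent.Work.MP_8c679b_co

open Finset

namespace SG

variable {V E : Type} [Fintype V] [DecidableEq V] [DecidableEq E] {G : SG V E}
  {G' : SG V E} {X : Finset V} {x : V} {τ : E → ZMod 2} {q : V → ZMod 2}

/-- HINT: `Ce.vs`, `Ce.in_`, `Ce.nin`. -/
theorem E3.ce (h : G.E3) (hG : G.Ce G' X x τ) (hX : X ⊆ G.vs G.A) (hn : (G.cut X).Nonempty) :
    G'.E3 := by
  intro K hK hne
  rw [hG.vs hn] at hK
  have h1 : K ⊆ G.vs G.A := hK.1.trans (insert_subset (hX hG.mem) sdiff_subset)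
  by_cases hx : x ∈ K
  · rw [(hG.in_ hx).1]
    obtain ⟨v, v1, v2⟩ := exists_of_ssubset hK
    have v3 := mem_sdiff.1 ((mem_insert.1 v1).resolve_left fun k => v2 (k ▸ hx))
    exact h _ ((union_subset h1 hX).ssubset_of_ne fun k =>
      (mem_union.1 (k.ge v3.1)).elim v2 v3.2) (hne.mono subset_union_left)
  · rw [(hG.nin hx).1]
    obtain ⟨v, hv⟩ := hne
    have v3 := mem_sdiff.1 ((mem_insert.1 (hK.1 hv)).resolve_left fun k => hx (k ▸ hv))
    exact h _ ((sdiff_subset.trans h1).ssubset_of_ne fun k =>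
      (mem_sdiff.1 (k.ge (hX hG.mem))).2 hG.mem) ⟨v, mem_sdiff.2 ⟨hv, v3.2⟩⟩

theorem E3.ne1 (h : G.E3) : ∀ Z, (G.cut Z).card ≠ 1 := by
  intro Z k
  rw [← (AStepB_inter Z).1] at k
  obtain ⟨e, he⟩ := card_pos.1 (k.ge.trans_lt' zero_lt_one)
  have := h _ ((inter_subset_right (s₁ := Z)).ssubset_of_ne fun r => by
    rw [r, AStepB_vs.1] at he
    exact notMem_empty e he) ⟨_, ie_mem (cut_sub_tch he)⟩
  omega

theorem E3.con (h : G.E3) : G.Con := by
  have h1 : G.Two (G.vs G.A) (G.ins (G.vs G.A)) := fun Y hY hn hne => by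
    rw [AStepB_vs.2]
    exact (h Y (hY.ssubset_of_ne hne) hn).trans' (by norm_num)
  have h2 := h1.conn
  rwa [AStepB_vs.2] at h2

/-- HINT: as `CFourB_con`. -/
theorem A3Main_con (hc : G.Cub) (h : G.E3) (hX : X ⊆ G.vs G.A) (h3 : (G.cut X).card = 3)
    (hn : (G.ins X).Nonempty) (hG : G.Ce G' X x fun e => G.n e + q (G.ie X e)) (hA : G'.Adm2)
    (hE : ∀ h, G.Bv X h → G.tw q X h = 0 → G.Ext X h)
    (hI : ∀ G' : SG V E, G'.Cub → G'.Adm2 → G'.E3 → G'.A.card < G.A.card → ∃ f, G'.Fl6 f) :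
    ∃ f, G.Fl6 f := by
  obtain ⟨f, hf⟩ := hI G' (hG.cub hc h3) hA (h.ce hG hX (card_pos.1 (by omega))) (hG.card hn)
  obtain ⟨F, k1, -⟩ := Out.glue (hG.agr.outX.1 (by
    rw [cf_cf]
    exact ⟨fun v _ => hf.1 v, fun e he _ => hf.2 e he⟩)) (hE _
      (fun e he => (ACon_bv f e).2 (hf.2 e (ACon_cs hG he))) (by
        rw [← hG.tw_in, cf_cf]
        exact hf.1 _))
  exact ⟨F, k1⟩

/-- HINT: as `step_con` (`exists_ce`, `Ce.adm`, `E3.ne1`, `E3.con`). -/
theorem A3Main_xn (hc : G.Cub) (hA : G.Adm2) (h : G.E3) {T : Finset V} (hT : G.T3 T)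
    (hx : G.Xn T) (h2 : G.F2 (univ \ T))
    (hI : ∀ G' : SG V E, G'.Cub → G'.Adm2 → G'.E3 → G'.A.card < G.A.card → ∃ f, G'.Fl6 f) :
    ∃ f, G.Fl6 f := by
  obtain ⟨q, hq⟩ := hx
  obtain ⟨ht, h3, hu⟩ := hT
  have hn : (G.cut T).Nonempty := card_pos.1 (by omega)
  obtain ⟨e, he⟩ := id hn
  obtain ⟨G', hG⟩ := exists_ce (G := G) (ie_mem (cut_sub_tch he)) fun e => G.n e + q (G.ie T e)
  refine A3Main_con hc h ht.act h3 (nonempty_iff_ne_empty.2 fun h0 => hu ?_) hG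
    (hG.adm hA h.con hn (fun Z _ k => absurd k (h.ne1 Z)) h2) hq hI
  rw [h0]
  exact ⟨0, fun _ h => absurd h (notMem_empty _)⟩

/-- HINT: the last part of the proof of `step7` (`tol`). -/
theorem A3Main_tol (hc : G.Cub) (hA : G.Adm2) (h : G.E3) (n3 : G.N3) (hu : ¬ G.Bal G.A)
    (hX : X ⊆ G.vs G.A) (h3 : (G.cut X).card = 3) (h1 : ¬ G.F2 X) (h2 : ¬ G.F2 (G.vs G.A \ X)) :
    ∃ f, G.Fl6 f := by
  unfold F2 at h1 h2
  push Not at h1 h2
  obtain ⟨z1, p1, h1⟩ := h1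
  obtain ⟨z2, p2, h2⟩ := h2
  obtain ⟨a, b, c, hq, -⟩ := exists_q3 h3
  refine tol hc hA h n3 hu (M := {G.s z1, G.s z2, G.s a, G.s b})
    (card_le_four.trans (by norm_num)) fun K hK hd => hK ⟨fun v => if v ∈ X then p1 v else
      p2 v + (G.n c + p1 (G.ie X c) + p2 (G.oe X c)), fun e he => ?_⟩
  obtain ⟨e1, e2, -⟩ := mem_ins.1 he
  have e3 := disjoint_left.1 hd e2
  simp only [mem_insert, mem_singleton, not_or] at e3
  by_cases e4 : e ∈ G.cut X
  · have e5 := e4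
    simp only [hq, mem_insert, mem_singleton] at e5
    obtain rfl : e = c := (e5.resolve_left fun k => e3.2.2.1 (k ▸ rfl)).resolve_left
      fun k => e3.2.2.2 (k ▸ rfl)
    rw [Cut_sw (je_ie_oe (X := X)), if_pos (ie_mem (cut_sub_tch e4)), if_neg (oe_not_mem e4)]
    linear_combination z2_add_self (G.n e + p1 (G.ie X e) + p2 (G.oe X e))
  · rw [mem_cut, not_and, not_not] at e4
    have e5 := e4 e1
    by_cases e6 : G.s e ∈ X
    · have := h1 e (mem_erase.2 ⟨fun k => e3.1 (k ▸ rfl), mem_ins.2 ⟨e1, e6, e5.1 e6⟩⟩)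
      rw [sw] at this ⊢
      rwa [if_pos e6, if_pos (e5.1 e6)]
    · have e7 : G.t e ∉ X := fun k => e6 (e5.2 k)
      have := h2 e (mem_erase.2 ⟨fun k => e3.2.1 (k ▸ rfl), mem_ins.2
        ⟨e1, mem_sdiff.2 ⟨s_mem_vs e1, e6⟩, mem_sdiff.2 ⟨t_mem_vs e1, e7⟩⟩⟩)
      rw [sw] at this ⊢
      rw [if_neg e6, if_neg e7]
      linear_combination this + z2_add_self (G.n c + p1 (G.ie X c) + p2 (G.oe X c))

/-- HINT: strong induction on the number of edges.  Balanced: `b23` as in `step7`.  Not `N3`: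
`A3Main_con` with `Ce.adm_bal`, `b23` as in `step3`.  `C4`: `C4.six`.  Otherwise there is a
nontrivial cut with three edges, so a `T3` set (`AStepB_min`), and every `T3` set `T` misses at
least two active vertices (if it misses only one the graph is `C4`).  Let `T` be `T3` and not
`Acc`.  Then `Xn T` (`x3n_k1` or `A3`).  If the outside is `F2`: `A3Main_xn`.  Else if `T` is
not `F2`: `A3Main_tol`.  Else a `T3` set `T2` outside `T` (`AStepB_min`) is not `F2`, so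
`Xn T2` by `x3n_k1`, and its outside contains `T`.  So all `T3` sets are `Acc`: `fam_six`.
Note `ins (univ \ T) = ins (vs A \ T)` (`AStepB_inter`). -/
theorem three_cubic (hA3 : ∀ G' : SG V E, G'.Cub → G'.A3) (hc : G.Cub) (hA : G.Adm2) (h : G.E3) :
    ∃ f, G.Fl6 f := by
  induction hn : G.A.card using Nat.strong_induction_on generalizing G with
  | _ n ih =>
  have hI : ∀ G' : SG V E, G'.Cub → G'.Adm2 → G'.E3 → G'.A.card < G.A.card → ∃ f, G'.Fl6 f :=
    fun G' c a k l => ih _ (hn ▸ l) c a k rfl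
  by_cases hu : G.Bal G.A
  · obtain ⟨p, hp⟩ := hu
    have h4 := b23 (h := 0) hc Subset.rfl (fun Y _ => h.ne1 Y) (by rw [AStepB_vs.1]; simp)
      (fun e he => hp e (ins_sub_A he))
      (fun e he => absurd ((AStepB_vs (G := G)).1 ▸ he) (notMem_empty e)) (by simp [tw])
    obtain ⟨f, hf, -⟩ := Out.glue
      ⟨fun v hv => AStepB_bd hv, fun e he k => absurd (AStepB_vs.2.ge he) k⟩ h4
    exact ⟨f, hf⟩
  by_cases n3 : G.N3
  swap
  · unfold N3 at n3
    push Not at n3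
    obtain ⟨X, h3, h2, hB⟩ := n3
    rw [← (AStepB_inter X).1] at h3
    rw [← (AStepB_inter X).2] at hB
    obtain ⟨p, hp⟩ := hB
    obtain ⟨x, hx⟩ := card_pos.1 (lt_of_lt_of_le two_pos h2)
    obtain ⟨G', hG⟩ := exists_ce (G := G) hx fun e => G.n e + p (G.ie (X ∩ G.vs G.A) e)
    have h4 := deg_sum hc (inter_subset_right (s₁ := X))
    exact A3Main_con hc h inter_subset_right h3 (card_pos.1 (by omega)) hG
      (hG.adm_bal hA hp (bal_rch (fun Y _ => h.ne1 Y) h3.le))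
      (fun _ => b23 hc inter_subset_right (fun Y _ => h.ne1 Y) h3.le hp) hI
  by_cases h4 : G.C4
  · exact h4.six hc hA n3 hu
  obtain ⟨K, hK, k3, k1, k2⟩ : ∃ K ⊆ G.vs G.A, (G.cut K).card = 3 ∧ K.card ≠ 1 ∧
      (G.vs G.A \ K).card ≠ 1 := by
    by_contra k
    refine h4 fun K hK hne => ⟨h K hK hne, fun k3 => ?_⟩
    by_contra k'
    exact k ⟨K, hK.1, k3, fun r => k' (Or.inl r), fun r => k' (Or.inr r)⟩
  have hmin : ∀ Y ⊆ G.vs G.A, (G.cut Y).card = 3 → Y.card ≠ 1 → ∃ T ⊆ Y, G.T3 T :=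
    fun Y hY y3 y1 => by
      have hY' : Y ⊂ G.vs G.A := hY.ssubset_of_ne fun e => by
        rw [e, AStepB_vs.1, card_empty] at y3
        omega
      obtain ⟨T, hTY, hT, -⟩ := AStepB_min n3 hY
        (fun Z hZ hn => h Z (Finset.ssubset_of_subset_of_ssubset hZ hY') hn) y3 (AStepB_two y3 y1)
      exact ⟨T, hTY, hT⟩
  have hout : ∀ T, G.T3 T → (G.vs G.A \ T).card ≠ 1 := fun T hT r => by
    obtain ⟨v, hv⟩ := card_eq_one.1 r
    have key : ∀ Y ⊆ G.vs G.A, (G.cut Y).card = 3 → Y.card ≠ 1 → (G.vs G.A \ Y).card ≠ 1 →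
        v ∈ Y := fun Y hY y3 y1 y2 => by
      by_contra k
      have hYT : Y ⊆ T := fun w hw => by
        by_contra k'
        exact k (mem_singleton.1 (hv ▸ mem_sdiff.2 ⟨hY hw, k'⟩) ▸ hw)
      have y4 := AStepB_two y3 y1
      exact ((hT.1 Y hYT (card_pos.1 (by omega))).2 y3).elim y1 fun e => y2 (e ▸ r)
    refine (mem_sdiff.1 (key _ sdiff_subset (by rwa [SpSet_compl]) k2 ?_)).2 (key K hK k3 k1 k2)
    rwa [Finset.sdiff_sdiff_eq_self hK]
  by_cases hAcc : ∀ T, G.T3 T → G.Acc T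
  · obtain ⟨T, -, hT⟩ := hmin K hK k3 k1
    exact fam_six hc h n3 hAcc ⟨T, hT⟩
  push Not at hAcc
  obtain ⟨T, hT, hna⟩ := hAcc
  have mono : ∀ Y Z : Finset V, Y ⊆ Z → G.F2 Y → G.F2 Z := fun Y Z k k' z hB =>
    k' z (hB.mono (erase_subset_erase z (ins_mono k)))
  have xn : ∀ T, G.T3 T → ¬ G.F2 T → G.Xn T := fun T hT k => by
    obtain ⟨q, -, hq⟩ := x3n_k1 hc hT (by
      by_contra k'
      exact k fun z hz => k' ⟨z, hz⟩)
    exact ⟨q, hq⟩
  by_cases c2 : G.F2 (G.vs G.A \ T)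
  · refine A3Main_xn hc hA h hT ?_ (mono _ _ (sdiff_subset_sdiff (subset_univ _) Subset.rfl) c2) hI
    by_cases c1 : G.F2 T
    · exact (hA3 G hc T hT c1).resolve_left hna
    · exact xn T hT c1
  by_cases c1 : G.F2 T
  swap
  · exact A3Main_tol hc hA h n3 hu hT.1.act hT.2.1 c1 c2
  obtain ⟨T2, t1, t2⟩ := hmin (G.vs G.A \ T) sdiff_subset (by rw [SpSet_compl]; exact hT.2.1)
    (hout T hT)
  exact A3Main_xn hc hA h t2 (xn T2 t2 fun k => c2 (mono _ _ t1 k))
    (mono _ _ (fun v hv => mem_sdiff.2 ⟨mem_univ v, fun k => (mem_sdiff.1 (t1 k)).2 hv⟩) c1) hI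

end SG

end Pool.Agent.Work.MP_8c679b_co
end

-- merged part: Pool.Agent.Work.MP_8c679b_co.Six.SpFin
section
/-!
Graphs with at least two ports and no small port-free side.
-/

set_option autoImplicit false

namespace Pool.Agent.Work.MP_8c679b_co

open Finset

namespace SG

variable {V E : Type} [Fintype V] [DecidableEq V] [DecidableEq E] {G : SG V E}
  {T Y D0 : Finset V} {Φ Hh : Finset (Finset V)}

variable (G) in
/-- the dangerous sides -/
def Dan (T Y : Finset V) : Set (Finset V) :=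
  {S | S ⊆ T ∧ G.US S ∧ ∀ e ∈ G.cut S, e ∈ G.ins T ∧ ¬ G.Bri Y e}

omit [Fintype V] in
theorem SpFin_cut_empty : G.cut ∅ = ∅ := by
  ext e
  simp [mem_cut]

omit [Fintype V] in
theorem SpFin_link {N : Finset V} {e : E} (hd : Disjoint N T) (h1 : e ∈ G.tch T)
    (h2 : e ∈ G.ins (T ∪ N)) (h3 : e ∉ G.ins T) : e ∈ G.cut N := by
  have a1 : G.s e ∈ N → G.s e ∉ T := fun h => disjoint_left.1 hd h
  have a2 : G.t e ∈ N → G.t e ∉ T := fun h => disjoint_left.1 hd h
  simp only [mem_tch, mem_ins, mem_cut, mem_union] at h1 h2 h3 ⊢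
  (clear * - a1 a2 h1 h2 h3; grind)

omit [Fintype V] in
theorem SpFin_pair {N : Finset V} {Z : Finset E} (h2 : (G.cut N).card = 2)
    (he : Even (Z ∩ G.cut N).card) : G.cut N ⊆ Z ∨ Disjoint (G.cut N) Z := by
  have h1 : (Z ∩ G.cut N).card ≤ 2 := h2 ▸ card_le_card inter_subset_right
  obtain ⟨k, hk⟩ := he
  by_cases h0 : (Z ∩ G.cut N).card = 0
  · right
    rw [disjoint_comm, disjoint_iff_inter_eq_empty]
    exact card_eq_zero.1 h0
  · left
    have h3 : Z ∩ G.cut N = G.cut N := eq_of_subset_of_card_le inter_subset_right (by omega)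
    rw [← h3]
    exact inter_subset_left

omit [Fintype V] in
theorem SpFin_two {N : Finset V} (hN : G.Dg N) : (G.cut N).card = 2 ∧ N.card = 2 ∧ N ⊆ G.vs G.A := by
  obtain ⟨u, v, e1, e2, huv, rfl, a1, -, j1, -, -, h⟩ := hN
  refine ⟨h, card_pair huv, fun x hx => mem_vs.2 ⟨e1, a1, ?_⟩⟩
  rcases mem_insert.1 hx with rfl | hx
  · rcases j1 with j | j
    exacts [Or.inl j.1, Or.inr j.2]
  · rw [mem_singleton.1 hx]
    rcases j1 with j | j
    exacts [Or.inr j.2, Or.inl j.1]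

theorem SpFin_end (hc : G.Cub) {N : Finset V} (hN : G.Dg N) {x : V} (hx : x ∈ N) :
    ∃ c ∈ G.cut N, G.At c x := by
  obtain ⟨u, v, e1, e2, a, b, -, h1, -, -, -, -, -, h2, -, h3, h4⟩ := hN.str hc
  have hx' : x ∈ ({u, v} : Finset V) := h1 ▸ hx
  rcases mem_insert.1 hx' with h5 | h5
  · exact ⟨a, by rw [h2]; simp, by rw [h5, ← h3]; exact ie_at⟩
  · exact ⟨b, by rw [h2]; simp, by rw [mem_singleton.1 h5, ← h4]; exact ie_at⟩

theorem SpFin_ins (hc : G.Cub) {N K : Finset V} (hN : G.Dg N) {x y : V} (hx : x ∈ N) (hy : y ∈ N)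
    (hxK : x ∈ K) (hyK : y ∉ K) : G.ins N ⊆ G.cut K ∧ (G.ins N).card = 2 := by
  obtain ⟨u, v, e1, e2, a, b, -, h1, h2, j1, j2, n1, n2, -⟩ := hN.str hc
  have h12 : e1 ≠ e2 := by
    rintro rfl
    rw [n1] at n2
    exact zero_ne_one n2
  refine ⟨fun e he => ?_, by rw [h2]; exact card_pair h12⟩
  have hj : G.Je e u v := by
    rw [h2] at he
    rcases mem_insert.1 he with rfl | he
    · exact j1
    · rw [mem_singleton.1 he]; exact j2
  have huv : ¬ (u ∈ K ↔ v ∈ K) := by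
    rw [h1] at hx hy
    simp only [mem_insert, mem_singleton] at hx hy
    rcases hx with rfl | rfl <;> rcases hy with rfl | rfl <;> tauto
  refine mem_cut.2 ⟨ins_sub_A he, ?_⟩
  rcases hj with j | j <;> rw [j.1, j.2] <;> tauto

theorem SpFin_three (hc : G.Cub) {N K : Finset V} (hN : G.Dg N) {x y : V} (hx : x ∈ N)
    (hy : y ∈ N) (hxK : x ∈ K) (hyK : y ∉ K) (h2 : 2 ≤ (G.cut (K ∪ N)).card) :
    3 ≤ (G.cut K).card := by
  by_contra h3
  obtain ⟨h4, h5⟩ := SpFin_ins hc hN hx hy hxK hyK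
  have h6 : G.ins N = G.cut K := eq_of_subset_of_card_le h4 (by omega)
  obtain ⟨c, h7, h8⟩ := SpFin_end hc hN hx
  have h9 : G.cut (K ∪ N) ⊆ (G.cut N).erase c := by
    intro e he
    have a1 : e ∉ G.cut K := fun a => not_ins_of_cut he (ins_mono subset_union_right (h6 ▸ a))
    refine mem_erase.2 ⟨?_, (mem_union.1 (cut_union_sub he)).resolve_left a1⟩
    rintro rfl
    exact a1 (cut_of_sub subset_union_left he (Cut_tch (mem_cut.1 he).1 h8 hxK)).1
  have h10 := card_le_card h9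
  rw [card_erase_of_mem h7, (SpFin_two hN).1] at h10
  omega

theorem SpFin_nobri {W : Finset V} {e : E} (hW : W ⊆ Y) (h2 : G.Two W (G.ins W))
    (he : e ∈ G.ins W) : ¬ G.Bri Y e := by
  rintro ⟨X, -, hX⟩
  have h1 : e ∈ G.crs (G.ins Y) X := hX ▸ mem_singleton_self e
  have h3 := (mem_crs.1 h1).2
  obtain ⟨-, hs, ht⟩ := mem_ins.1 he
  have h4 : 2 ≤ (G.crs (G.ins W) (X ∩ W)).card := by
    refine h2 _ inter_subset_right ?_ fun h => ?_
    · by_cases a : G.s e ∈ X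
      · exact ⟨_, mem_inter.2 ⟨a, hs⟩⟩
      · exact ⟨_, mem_inter.2 ⟨by tauto, ht⟩⟩
    · rw [← h] at hs ht
      exact h3 (iff_of_true (mem_inter.1 hs).1 (mem_inter.1 ht).1)
  have h5 : G.crs (G.ins W) (X ∩ W) ⊆ {e} := by
    rw [← hX]
    intro f hf
    obtain ⟨a1, a2⟩ := mem_crs.1 hf
    refine mem_crs.2 ⟨ins_mono hW a1, ?_⟩
    obtain ⟨-, a3, a4⟩ := mem_ins.1 a1
    simp only [mem_inter] at a2
    (clear * - a2 a3 a4 h3; tauto)
  have h6 := card_le_card h5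
  rw [card_singleton] at h6
  omega

omit [Fintype V] in
theorem Su.SpFin_dg (h : G.Su T Y D0 Φ Hh) {N : Finset V} (hN : N ∈ Φ) : G.Dg N :=
  (h.dg N).2 (mem_union_right _ hN)

omit [Fintype V] in
theorem Su.SpFin_T (h : G.Su T Y D0 Φ Hh) : T ⊆ Y := h.hY ▸ subset_union_left

omit [Fintype V] in
theorem Su.SpFin_mem (h : G.Su T Y D0 Φ Hh) {v : V} : v ∈ Y ↔ v ∈ T ∨ ∃ N ∈ Φ, v ∈ N := by
  rw [h.hY, mem_union, mem_biUnion]
  rfl

omit [Fintype V] in
theorem Su.SpFin_sub (h : G.Su T Y D0 Φ Hh) {N : Finset V} (hN : N ∈ Φ) : N ⊆ Y :=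
  fun _ hv => h.SpFin_mem.2 (Or.inr ⟨N, hN, hv⟩)

omit [Fintype V] in
theorem Su.SpFin_act (h : G.Su T Y D0 Φ Hh) : Y ⊆ G.vs G.A := by
  intro v hv
  rcases h.SpFin_mem.1 hv with h1 | ⟨N, h1, h2⟩
  · exact ((h.mem v).1 h1).1
  · exact (SpFin_two (h.SpFin_dg h1)).2.2 h2

theorem Su.SpFin_loop (h : G.Su T Y D0 Φ Hh) (hc : G.Cub) : ∀ e ∈ G.tch Y, G.s e ≠ G.t e := by
  intro e he h1
  obtain ⟨h2, h3⟩ := mem_tch.1 he
  have h4 : G.s e ∈ Y := h3.elim id fun a => h1 ▸ a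
  have h5 : G.Lv (G.s e) := ⟨e, h2, rfl, h1.symm⟩
  rcases h.SpFin_mem.1 h4 with h6 | ⟨N, h6, h7⟩
  · exact ((h.mem _).1 h6).2 (Or.inl h5)
  · exact Def6_lv hc h5 (h.SpFin_dg h6) h7

theorem Su.SpFin_out (h : G.Su T Y D0 Φ Hh) (hc : G.Cub) {N : Finset V} (hN : G.Po N)
    (hΦ : N ∉ Φ) : Disjoint N Y ∧ G.cut N ⊆ G.cut Y := by
  have h1 : Disjoint N Y := by
    refine disjoint_left.2 fun v hv hY => ?_
    rcases h.SpFin_mem.1 hY with h2 | ⟨N', h2, h3⟩
    · exact disjoint_left.1 (h.po N hN).1 hv h2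
    · exact disjoint_left.1 (hN.disj hc (Or.inr (h.SpFin_dg h2)) fun a => hΦ (a ▸ h2)) hv h3
  exact ⟨h1, fun e he => (Ab_link h1 (cut_sub_tch he)
    (tch_mono h.SpFin_T (cut_sub_tch ((h.po N hN).2 he)))).2⟩

theorem Su.SpFin_in (h : G.Su T Y D0 Φ Hh) {N : Finset V} (hN : N ∈ Φ) : G.cut N ⊆ G.ins Y :=
  have h1 := h.po N (Or.inr (h.SpFin_dg hN))
  fun _ he => ins_mono (union_subset (h.SpFin_sub hN) h.SpFin_T) (ie_link h1.1 he (h1.2 he)).2

theorem Su.SpFin_pd (h : G.Su T Y D0 Φ Hh) (hc : G.Cub) : PD (Hh ∪ Φ) :=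
  fun N hN N' hN' hne => Po.disj hc (Or.inr ((h.dg N).2 hN)) (Or.inr ((h.dg N').2 hN')) hne

omit [Fintype V] in
theorem Su.SpFin_d0 (h : G.Su T Y D0 Φ Hh) :
    Disjoint D0 T ∧ (G.cut D0).card ≤ 2 ∧ D0.card ≤ 2 ∧ D0 ⊆ Y ∧ G.cut D0 ⊆ G.cut T := by
  rcases h.d0 with rfl | h1
  · simp [SpFin_cut_empty]
  · have h2 := h.SpFin_dg h1.1
    exact ⟨(h.po _ (Or.inr h2)).1, (SpFin_two h2).1.le, (SpFin_two h2).2.1.le, h.SpFin_sub h1.1,
      (h.po _ (Or.inr h2)).2⟩

/-- HINT: `HT.f4`; the union has not three leaving edges since they would be inner edges of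
`T`. -/
theorem dan_ff (hc : G.Cub) (hT : G.HT T) : G.FF (G.Dan T Y) T := by
  refine ⟨fun S hS => ⟨hS.1, hS.2.1, fun e he => (hS.2.2 e he).1⟩, fun S hS S' hS' hd => ?_⟩
  have h1 : ∀ e ∈ G.cut (S ∪ S'), e ∈ G.ins T ∧ ¬ G.Bri Y e := fun e he =>
    (mem_union.1 (cut_union_sub he)).elim (hS.2.2 e) (hS'.2.2 e)
  by_cases a1 : S ⊆ S'
  · rwa [union_eq_right.2 a1]
  by_cases a2 : S' ⊆ S
  · rwa [union_eq_left.2 a2]
  have c1 := hT.us_card hc hS.1 hS.2.1
  have c2 := hT.us_card hc hS'.1 hS'.2.1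
  have hU : S ∪ S' ⊆ T := union_subset hS.1 hS'.1
  refine ⟨hU, ⟨(hT.f4 hc hS.1 hS'.1 hS.2.1.1 hS'.2.1.1 (by omega) (by omega) (fun h3 => ?_)
    (not_disjoint_iff_nonempty_inter.1 hd) (sdiff_nonempty.2 a1) (sdiff_nonempty.2 a2)).2.1,
    fun hb => hS.2.1.2 (hb.mono (ins_mono subset_union_left))⟩, h1⟩
  have c3 : S.card ≤ (S ∪ S').card := card_le_card subset_union_left
  rcases (hT _ hU (card_pos.1 (by omega))).2 h3 with h4 | h4
  · omega
  · obtain ⟨e, he⟩ : (G.cut (S ∪ S')).Nonempty := card_pos.1 (by omega)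
    exact not_ins_of_cut (h4 ▸ he) (h1 e he).1

theorem Su.SpFin_inv (h : G.Su T Y D0 Φ Hh) :
    ∀ U ⊆ T ∪ Hh.biUnion id, U.Nonempty → (G.cut U).Nonempty := by
  intro U hU ⟨u, hu⟩
  by_contra hcon
  have cl : ∀ e ∈ G.A, (G.s e ∈ U ↔ G.t e ∈ U) := fun e he =>
    by_contra fun k => hcon ⟨e, mem_cut.2 ⟨he, k⟩⟩
  have at2 : ∀ e ∈ G.A, ∀ a b, G.At e a → G.At e b → a ∈ U → b ∈ U := by
    rintro e he a b (rfl | rfl) (rfl | rfl) k
    exacts [k, (cl e he).1 k, (cl e he).2 k, k]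
  have hH : ∀ N ∈ Hh, G.Dg N := fun N hN => (h.dg N).2 (mem_union_left _ hN)
  obtain ⟨x, hx, hxT⟩ : ∃ x ∈ U, x ∈ T := by
    rcases mem_union.1 (hU hu) with k | k
    · exact ⟨u, hu, k⟩
    · obtain ⟨N, k1, k2⟩ := mem_biUnion.1 k
      obtain ⟨a, b, e1, e2, -, k3, k4, -, k5, -, -, k6⟩ := hH N k1
      obtain ⟨c, k7⟩ : (G.cut N).Nonempty := card_pos.1 (by omega)
      have k8 := (h.po N (Or.inr (hH N k1))).2 k7
      have kN : ∀ z ∈ N, z ∈ U := by
        have ka := k5.at_iff.2 (.inl rfl)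
        have kb := k5.at_iff.2 (.inr rfl)
        have k2' : u ∈ N := k2
        rw [k3] at k2' ⊢
        simp only [mem_insert, mem_singleton] at k2' ⊢
        rintro z (rfl | rfl) <;> rcases k2' with rfl | rfl
        exacts [hu, at2 e1 k4 _ _ kb ka hu, at2 e1 k4 _ _ ka kb hu, hu]
      exact ⟨_, at2 c (mem_cut.1 k7).1 _ _ ie_at ie_at (kN _ (ie_mem (cut_sub_tch k7))),
        ie_mem (cut_sub_tch k8)⟩
  obtain ⟨y, e, k1, k2, k3, k4, k5⟩ := h.inv x hxT
  have hy : y ∈ U := k1.closed (P := fun v => v ∈ U) (fun f hf => cl f (ins_sub_A hf)) hx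
  have ho := at2 e (mem_cut.1 k3).1 _ _ k4 (oe_at (X := T)) hy
  obtain ⟨N, k6, k7⟩ := mem_biUnion.1 ((mem_union.1 (hU ho)).resolve_left (oe_not_mem k3))
  exact k5 (mem_biUnion.2 ⟨N, k6, (Ab_link (h.po N (Or.inr (hH N k6))).1
    (Cut_tch (mem_cut.1 k3).1 oe_at k7) (cut_sub_tch k3)).1⟩)

/-- The residue solution on `T`.
HINT: `FF.boxes`, `tjoin` in `Y` with `J = ends Hh` and `e0` an end of `D0` (or any leaving edge
of `Y`).  A member of `Φ` has both ends or no end in the join `F0`; `Hs` are those with both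
ends.  `F0 ∩ ins T` is `Tq` for `T`; `norm_join`, `spw` with `kb`, `rpa`. -/
theorem sp_res (hc : G.Cub) (n5 : G.N5) (hne : T.Nonempty) (h : G.Su T Y D0 Φ Hh) :
    ∃ Hs ⊆ Φ, D0 ∉ Hs ∧ G.SPc (G.Dan T Y) T Hh Hs ∅ := by
  have hF : G.FF (G.Dan T Y) T := dan_ff hc h.ht
  obtain ⟨Bs, hB⟩ := hF.boxes T
  have hH : ∀ N ∈ Hh, G.Dg N := fun N hN => (h.dg N).2 (mem_union_left _ hN)
  have hJ : G.ends Hh ⊆ G.cut Y := by
    intro e he
    obtain ⟨N, h1, h2⟩ := mem_biUnion.1 he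
    exact (h.SpFin_out hc (Or.inr (hH N h1)) (disjoint_left.1 h.dj h1)).2 h2
  have hE : Even (G.ends Hh).card := by
    unfold ends
    rw [card_biUnion fun N hN N' hN' hne =>
      n5 N N' (Or.inr (hH N hN)) (Or.inr (hH N' hN')) hne]
    exact even_sum _ fun N hN => by rw [(SpFin_two (hH N hN)).1]; exact even_two
  obtain ⟨e0, he0, he1⟩ : ∃ e0, ¬ G.Bri Y e0 ∧ (D0 = ∅ ∨ e0 ∈ G.cut D0) := by
    rcases h.d0 with h1 | h1
    · have h2 := h.two Y (Subset.refl _) (hne.mono h.SpFin_T)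
      obtain ⟨e, he⟩ : (G.cut Y).Nonempty := card_pos.1 (by omega)
      refine ⟨e, ?_, Or.inl h1⟩
      rintro ⟨X, -, hX⟩
      have h3 : e ∈ G.crs (G.ins Y) X := hX ▸ mem_singleton_self e
      exact not_ins_of_cut he (mem_crs.1 h3).1
    · have h2 := (SpFin_two (h.SpFin_dg h1.1)).1
      obtain ⟨e, he⟩ : (G.cut D0).Nonempty := card_pos.1 (by omega)
      exact ⟨e, h1.2.2 e he, Or.inr he⟩
  obtain ⟨F0, hq, hF0⟩ := tjoin hc h.SpFin_act (h.SpFin_loop hc) h.cn hJ hE hB.2.1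
    (fun B hb => have h1 := (hB.1 B hb).1
      ⟨h1.1.trans h.SpFin_T, h1.2.1.1, fun e he => ins_mono h.SpFin_T (h1.2.2 e he).1,
        h.ht.cn4 hc h1.1 h1.2.1.1, fun e he => (h1.2.2 e he).2⟩) e0 he0
  have hZ : F0 ∪ G.ends Hh ⊆ G.A :=
    union_subset (hq.1.trans ins_sub_A) (hJ.trans GNorm_cutA)
  have hΦ : ∀ N ∈ Φ, ∀ e ∈ G.cut N, e ∈ F0 → G.cut N ⊆ F0 := by
    intro N hN e he heF
    have h1 := h.po N (Or.inr (h.SpFin_dg hN))
    have h2 := GNorm_even (N := N) hZ fun v hv => hq.2.1 v (h.SpFin_sub hN hv) fun B hb hv' =>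
      disjoint_left.1 h1.1 hv ((hB.1 B hb).2.1 hv')
    rcases SpFin_pair (SpFin_two (h.SpFin_dg hN)).1 h2 with h3 | h3
    · exact fun f hf => (mem_union.1 (h3 hf)).resolve_right fun a =>
        not_ins_of_cut (hJ a) (h.SpFin_in hN hf)
    · exact absurd (mem_union_left _ heF) (disjoint_left.1 h3 he)
  have hsub : Hh ∪ Φ.filter (fun N => G.cut N ⊆ F0) ⊆ Hh ∪ Φ :=
    union_subset_union (Subset.refl _) (filter_subset _ _)
  have hJ' : G.ends (Hh ∪ Φ.filter fun N => G.cut N ⊆ F0) ⊆ G.cut T := by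
    intro e he
    obtain ⟨N, h1, h2⟩ := mem_biUnion.1 he
    exact (h.po N (Or.inr ((h.dg N).2 (hsub h1)))).2 h2
  have hq' : G.Tq T (G.ends (Hh ∪ Φ.filter fun N => G.cut N ⊆ F0)) Bs (F0 ∩ G.ins T) := by
    refine ⟨inter_subset_right, fun v hv hb => ?_, fun B hb => ?_⟩
    · rw [← hq.2.1 v (h.SpFin_T hv) hb]
      refine Ab_dg fun e hat => ⟨fun he => ?_, fun he => ?_⟩
      · rcases mem_union.1 he with h1 | h1
        · exact mem_union_left _ (mem_inter.1 h1).1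
        · obtain ⟨N, h2, h3⟩ := mem_biUnion.1 h1
          rcases mem_union.1 h2 with h4 | h4
          · exact mem_union_right _ (mem_biUnion.2 ⟨N, h4, h3⟩)
          · exact mem_union_left _ ((mem_filter.1 h4).2 h3)
      · rcases mem_union.1 he with h1 | h1
        · by_cases h2 : e ∈ G.ins T
          · exact mem_union_left _ (mem_inter.2 ⟨h1, h2⟩)
          have h3 : e ∈ G.tch T := Cut_tch (ins_sub_A (hq.1 h1)) hat hv
          have h4 : e ∈ G.cut T := (mem_tch_iff.1 h3).resolve_left h2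
          have h5 : G.oe T e ∈ Y := by
            obtain ⟨-, a1, a2⟩ := mem_ins.1 (hq.1 h1)
            rcases oe_at (G := G) (X := T) (e := e) with a | a
            exacts [a ▸ a1, a ▸ a2]
          obtain ⟨N, h6, h7⟩ := (h.SpFin_mem.1 h5).resolve_left (oe_not_mem h4)
          have h8 : e ∈ G.cut N := (Ab_link (h.po N (Or.inr (h.SpFin_dg h6))).1
            (Cut_tch (ins_sub_A (hq.1 h1)) oe_at h7) h3).1
          exact mem_union_right _ (mem_biUnion.2
            ⟨N, mem_union_right _ (mem_filter.2 ⟨h6, hΦ N h6 e h8 h1⟩), h8⟩)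
        · obtain ⟨N, h2, h3⟩ := mem_biUnion.1 h1
          exact mem_union_right _ (mem_biUnion.2 ⟨N, mem_union_left _ h2, h3⟩)
    · rw [inter_assoc, inter_eq_right.2 (hF.1 B (hB.1 B hb).1).2.2]
      exact hq.2.2 B hb
  obtain ⟨F1, h1, h2, -⟩ := norm_join hc h.ht (Subset.refl T) hF hB hJ' hq'
  refine ⟨Φ.filter fun N => G.cut N ⊆ F0, filter_subset _ _, fun hD => ?_,
    spw hc h.ht hF (kb hc h.ht) (rpa hc h.ht) ⟨Subset.refl T, fun N hN => ?_,
      (h.SpFin_pd hc).mono hsub, h.dj.mono_right (filter_subset _ _), vd_empty, h.SpFin_inv⟩ h1 h2⟩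
  · obtain ⟨h3, h4⟩ := mem_filter.1 hD
    rcases he1 with h5 | h5
    · have h6 := (SpFin_two (h.SpFin_dg h3)).2.1
      rw [h5] at h6
      exact absurd h6 (by simp)
    · exact hF0 (h4 h5)
  · have h3 := (h.dg N).2 (hsub hN)
    exact ⟨h3, h.po N (Or.inr h3)⟩

/-- The deficiency condition of `lt_lift`.
HINT: a two-edge-connected `W ⊆ Y` contains no bridge of `Y`, so it is a member of `Φ` other than
`D0` (then there is no such `K`) or lies in `T ∪ D0`.  `K ⊆ T`: `HT.df`; an unbalanced side is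
dangerous or has an end of `D0` in its cut.  One vertex of `D0` in `K`: at least three leaving
edges, `Df.four`.  Both: `Df.card_le`. -/
theorem sp_def (hc : G.Cub) (h : G.Su T Y D0 Φ Hh) {O : Finset E} {φ : E → ZMod 3}
    (hOA : O ⊆ G.A) (hO : ∀ v ∈ Y, G.dg O v = 0) (hφ : G.Sl Y O ∅ φ)
    (h0 : Disjoint (G.cut D0) O)
    (hit : ∀ S ∈ G.Dan T Y, ∃ e ∈ G.cut S, e ∉ O ∨ φ e = 0) :
    ∀ W ⊆ Y, G.Two W (G.ins W) → ∀ K ⊂ W, K.Nonempty → G.cut K ⊆ G.ins W → ∀ g,
      G.Df O φ K g → 6 ≤ ∑ e ∈ G.cut K, |g e| + 2 * ((K ∩ D0).card : ℤ) := by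
  intro W hW h2 K hK hn hcut g hd
  have hKY : K ⊆ Y := hK.subset.trans hW
  have hA : ∀ e ∈ G.ins W, ¬ G.Bri Y e := fun e he => SpFin_nobri hW h2 he
  obtain ⟨d1, d2, -, d4, -⟩ := h.SpFin_d0
  have hWT : W ⊆ T ∪ D0 := by
    intro v hv
    rcases h.SpFin_mem.1 (hW hv) with h1 | ⟨N, h1, h3⟩
    · exact mem_union_left _ h1
    by_cases h4 : N = D0
    · exact mem_union_right _ (h4 ▸ h3)
    exfalso
    by_cases h5 : W ⊆ N
    · obtain ⟨x, hx⟩ := hn
      obtain ⟨c, h6, h7⟩ := SpFin_end hc (h.SpFin_dg h1) (h5 (hK.subset hx))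
      exact not_ins_of_cut h6 (ins_mono h5 (hcut (cut_of_sub (hK.subset.trans h5) h6
        (Cut_tch (mem_cut.1 h6).1 h7 hx)).1))
    · have h6 := h2 (W ∩ N) inter_subset_left ⟨v, mem_inter.2 ⟨hv, h3⟩⟩
        fun a => h5 (inter_eq_left.1 a)
      obtain ⟨e, he⟩ : (G.crs (G.ins W) (W ∩ N)).Nonempty := card_pos.1 (by omega)
      obtain ⟨a1, a2⟩ := mem_crs.1 he
      refine hA e a1 (h.br N h1 h4 e (mem_cut.2 ⟨ins_sub_A a1, ?_⟩))
      obtain ⟨-, a3, a4⟩ := mem_ins.1 a1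
      simp only [mem_inter] at a2
      (clear * - a2 a3 a4; tauto)
  have hOK : ∀ v ∈ K, G.dg O v = 0 := fun v hv => hO v (hKY hv)
  have hφK : ∀ e ∈ G.tch K, e ∉ O → φ e ≠ 0 := fun e he => hφ.2.1 e (tch_mono hKY he)
  have hφK' : ∀ e ∈ G.cut K, e ∉ O → φ e ≠ 0 := fun e he => hφK e (cut_sub_tch he)
  rcases Nat.lt_trichotomy (K ∩ D0).card 1 with h1 | h1 | h1
  · have h3 : K ∩ D0 = ∅ := card_eq_zero.1 (by omega)
    have hKT : K ⊆ T := fun v hv => (mem_union.1 (hWT (hK.subset hv))).resolve_right fun a =>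
      notMem_empty v (h3 ▸ mem_inter.2 ⟨hv, a⟩)
    have h4 : ∀ e ∈ G.cut K, e ∉ G.ins T → e ∈ G.cut D0 := fun e he h5 =>
      SpFin_link d1 (tch_mono hKT (cut_sub_tch he)) (ins_mono hWT (hcut he)) h5
    have h5 : K ≠ T := by
      rintro rfl
      have h6 := h.ht.mono3 (Subset.refl _) hn
      have h7 := card_le_card (s := G.cut K) fun e he => h4 e he (not_ins_of_cut he)
      omega
    have h6 := h.ht.df hc (ssubset_of_subset_of_ne hKT h5) hn hOA hOK
      ⟨fun v hv => hφ.1 v (hKY hv), hφK, fun t ht => absurd ht (Set.notMem_empty t)⟩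
      (fun hu => Or.inl (by
        by_contra h7
        refine h7 (hit K ⟨hKT, hu, fun e he => ⟨?_, hA e (hcut he)⟩⟩)
        by_contra h8
        exact h7 ⟨e, he, Or.inl (disjoint_left.1 h0 (h4 e he h8))⟩)) hd
    rw [h3, card_empty]
    omega
  · obtain ⟨x, hx⟩ : (K ∩ D0).Nonempty := card_pos.1 (by omega)
    obtain ⟨hx1, hx2⟩ := mem_inter.1 hx
    have hD : G.Dg D0 := h.SpFin_dg (h.d0.resolve_left (ne_empty_of_mem hx2)).1
    have h3 : ¬ D0 ⊆ K := fun a => by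
      rw [inter_eq_right.2 a, (SpFin_two hD).2.1] at h1
      omega
    obtain ⟨y, hy1, hy2⟩ := not_subset.1 h3
    have h4 := Df.four hOA hOK hφK' (SpFin_three hc hD hx2 hy1 hx1 hy2
      (h.two _ (union_subset hKY d4) (hn.mono subset_union_left))) hd
    omega
  · have h3 := Df.card_le hφK' hd
    have h4 := h.two K hKY hn
    omega

/-- HINT: `sp_setup` (`T` is not empty: the leaving edge of a port ends in it), `sp_res`,
`dg_fam` for `Φ`, `sp_def`, `lt_lift` with `W = Y` and `P = {e0}` if `e0` is a bridge (then it is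
the edge of a loop vertex by `small_cut`; `av_exists`), `P = ∅` otherwise.  `glue_fam` for the
hard digons (`Dg.ext`, `Av.three`, `Av.not_three`) and the loop vertices (`Lv.ext`). -/
theorem sp_six (hc : G.Cub) (hA : G.Adm1) (hC : G.Con) (n1 : G.N1) (n4 : G.N4) (n5 : G.N5)
    (n6 : G.N6) (h2 : G.TwoP) : G.Six := by
  classical
  obtain ⟨T, Y, D0, Φ, Hh, h⟩ := sp_setup hc hC n1 n4 n5 n6 h2
  have hne : T.Nonempty := by
    obtain ⟨N, -, hN, -⟩ := h2
    obtain ⟨e, he⟩ : (G.cut N).Nonempty := by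
      rcases hN with ⟨l, hl, rfl⟩ | hN
      · obtain ⟨m, a, -, h1⟩ := hl.str hc
        exact ⟨a, h1 ▸ mem_singleton_self a⟩
      · exact card_pos.1 (by rw [(SpFin_two hN).1]; omega)
    exact ⟨_, ie_mem (cut_sub_tch ((h.po N hN).2 he))⟩
  obtain ⟨Hs, hHs, hD0, O, φ, hSt, hSl, hDc⟩ := sp_res hc n5 hne h
  have hsub : Hh ∪ Hs ⊆ Hh ∪ Φ := union_subset_union (Subset.refl _) hHs
  have k1 : ∀ N, G.Po N → N ∉ Hh ∪ Hs → Disjoint (G.cut N) O := by
    intro N hN h1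
    refine disjoint_left.2 fun e he hO => ?_
    have h3 : e ∈ G.ends (Hh ∪ Hs) := hSt.2.2 ▸ mem_inter.2 ⟨hO, (h.po N hN).2 he⟩
    obtain ⟨N', h4, h5⟩ := mem_biUnion.1 h3
    exact disjoint_left.1 (n5 N N' hN (Or.inr ((h.dg N').2 (hsub h4))) fun a => h1 (a ▸ h4)) he h5
  have k2 : ∀ N ∈ Hh ∪ Hs, G.cut N ⊆ O := by
    intro N hN e he
    have h3 : e ∈ O ∩ G.cut T := hSt.2.2 ▸ (mem_biUnion.2 ⟨N, hN, he⟩ : e ∈ G.ends (Hh ∪ Hs))
    exact (mem_inter.1 h3).1
  obtain ⟨O', φ', hOA, hO, hφ, hag⟩ := dg_fam hc ((h.SpFin_pd hc).mono subset_union_right)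
    (fun N hN => ⟨h.SpFin_dg hN, h.po N (Or.inr (h.SpFin_dg hN))⟩) hSt.1 hSt.2.1
    ⟨hSl.1, hSl.2.1, fun t ht => absurd ht (Set.notMem_empty t)⟩ (fun N hN => by
      by_cases h1 : N ∈ Hs
      · exact Or.inl ⟨k2 N (mem_union_right _ h1), hDc.1 N (mem_union_right _ h1)⟩
      · exact Or.inr (k1 N (Or.inr (h.SpFin_dg hN)) fun a =>
          (mem_union.1 a).elim (fun b => disjoint_left.1 h.dj b hN) h1))
  rw [← h.hY] at hO hφ
  have hag' : ∀ N, G.Po N → ∀ e ∈ G.cut N, (e ∈ O' ↔ e ∈ O) ∧ φ' e = φ e := fun N hN e he =>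
    hag e (cut_sub_tch ((h.po N hN).2 he))
  have k3 : ∀ l, G.Lv l → ∀ e ∈ G.cut {l}, e ∉ O' := by
    intro l hl e he
    have h1 : G.Po {l} := Or.inl ⟨l, hl, rfl⟩
    rw [(hag' _ h1 e he).1]
    exact disjoint_left.1 (k1 _ h1 fun a =>
      Def6_lv hc hl ((h.dg _).2 (hsub a)) (mem_singleton_self l)) he
  have hK := sp_def hc h hOA hO hφ (by
      rcases h.d0 with h1 | h1
      · rw [h1, SpFin_cut_empty]; exact disjoint_empty_left _
      · have h3 : G.Po D0 := Or.inr (h.SpFin_dg h1.1)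
        refine disjoint_left.2 fun e he a => disjoint_left.1 (k1 D0 h3 fun b => ?_) he
          ((hag' _ h3 e he).1.1 a)
        exact (mem_union.1 b).elim (fun b => disjoint_left.1 h.dj b h1.1) hD0)
    (fun S hS => by
      obtain ⟨e, h1, h3, h4⟩ := hSl.2.2 (G.cut S) (Or.inl ⟨S, hS, hS.1, rfl⟩)
      exact ⟨e, h1, by rw [(hag e h3).1, (hag e h3).2]; exact h4⟩)
  have hD2 : G.Two D0 (G.ins D0) := by
    intro X hX ⟨x, hx⟩ hXD
    have hD : G.Dg D0 := h.SpFin_dg (h.d0.resolve_left (ne_empty_of_mem (hX hx))).1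
    obtain ⟨y, hy1, hy2⟩ := not_subset.1 fun a => hXD (Subset.antisymm hX a)
    obtain ⟨h1, h3⟩ := SpFin_ins hc hD (hX hx) hy1 hx hy2
    rw [← h3]
    exact card_le_card fun e he => mem_crs.2 ⟨he, (mem_cut.1 (h1 he)).2⟩
  intro e0 c hc0
  obtain ⟨P, x, p1, p2, p3, p4, p5⟩ : ∃ (P : Finset E) (x : ℤ), P ⊆ G.cut Y ∧ P.card ≤ 1 ∧
      (Disjoint Y D0 ∨ (D0 ⊆ Y ∧ P = ∅)) ∧ (∀ e ∈ P, Av O' φ' e x) ∧
      (G.Brg e0 → e0 ∈ P ∧ |x| = c) := by
    by_cases hb : G.Brg e0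
    · obtain ⟨X, hX⟩ := hb
      have a1 : G.cut (X ∩ G.vs G.A) = {e0} := by
        rw [← hX]
        ext e
        simp only [mem_cut, mem_inter]
        refine and_congr_right fun he => ?_
        have := s_mem_vs (G := G) he
        have := t_mem_vs (G := G) he
        grind
      have a2 : G.cut (G.vs G.A \ (X ∩ G.vs G.A)) = {e0} := by
        rw [← hX]
        ext e
        simp only [mem_cut, mem_inter, mem_sdiff]
        refine and_congr_right fun he => ?_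
        have := s_mem_vs (G := G) he
        have := t_mem_vs (G := G) he
        grind
      obtain ⟨l, hl, a3⟩ : ∃ l, G.Lv l ∧ G.cut {l} = {e0} := by
        rcases small_cut hc hC n1 (X := X ∩ G.vs G.A) inter_subset_right
          ⟨_, ie_mem (cut_sub_tch (a1 ▸ mem_singleton_self e0))⟩ (by rw [a1, card_singleton])
          with ⟨l, hl, a⟩ | a | ⟨l, hl, a⟩
        · exact ⟨l, hl, a ▸ a1⟩
        · rw [a, sdiff_self, bot_eq_empty, SpFin_cut_empty] at a2
          exact absurd a2.symm (singleton_ne_empty e0)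
        · exact ⟨l, hl, a ▸ a2⟩
      have a4 : e0 ∈ G.cut {l} := a3 ▸ mem_singleton_self e0
      have a5 : e0 ∈ G.cut Y := (h.SpFin_out hc (Or.inl ⟨l, hl, rfl⟩) fun a =>
        Def6_lv hc hl (h.SpFin_dg a) (mem_singleton_self l)).2 a4
      obtain ⟨x, a6, a7⟩ := av_exists (k3 l hl e0 a4)
        (hφ.2.1 e0 (cut_sub_tch a5) (k3 l hl e0 a4)) hc0
      refine ⟨{e0}, x, singleton_subset_iff.2 a5, (card_singleton e0).le, Or.inl ?_,
        fun e he => mem_singleton.1 he ▸ a6, fun _ => ⟨mem_singleton_self e0, a7⟩⟩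
      rw [h.d0.resolve_right fun a => a.2.1 l hl]
      exact disjoint_empty_right _
    · exact ⟨∅, 0, empty_subset _, by simp, Or.inr ⟨h.SpFin_d0.2.2.2.1, rfl⟩,
        fun e he => absurd he (notMem_empty e), fun a => absurd a hb⟩
  obtain ⟨f, f1, f2, f3⟩ := lt_lift (h := fun _ => x) hc h.SpFin_act (h.SpFin_loop hc) hOA hO hφ
    h.SpFin_d0.2.2.1 hD2 h.two hK (Subset.refl Y) p1 p2 p3 p4
  have f4 : ∀ e ∈ G.tch Y, f e ≠ 0 ∧ |f e| ≤ 5 := fun e he =>
    ⟨(f3 e he).ne_zero (hφ.2.1 e he), (f3 e he).1⟩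
  have hm : ∀ N, N ∈ univ.filter (fun N : Finset V => G.Po N ∧ N ∉ Φ) ↔ G.Po N ∧ N ∉ Φ :=
    fun N => by simp
  have hcov : ∀ v ∈ G.vs G.A, v ∉ Y → ∃ N, (G.Po N ∧ N ∉ Φ) ∧ v ∈ N := by
    intro v hv hY
    have h1 : G.Pt v := by
      by_contra a
      exact hY (h.SpFin_T ((h.mem v).2 ⟨hv, a⟩))
    obtain ⟨N, h3, h4⟩ := pt_iff.1 h1
    exact ⟨N, ⟨h3, fun a => hY (h.SpFin_sub a h4)⟩, h4⟩
  obtain ⟨f', g1, g2⟩ := glue_fam (G := G) (h := f)
    (Ps := univ.filter fun N : Finset V => G.Po N ∧ N ∉ Φ)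
    (fun N hN N' hN' a => ((hm N).1 hN).1.disj hc ((hm N').1 hN').1 a)
    (fun N hN => by
      obtain ⟨h1, h3⟩ := (hm N).1 hN
      have h4 : ∀ e ∈ G.cut N, e ∈ G.tch Y := fun e he => cut_sub_tch ((h.SpFin_out hc h1 h3).2 he)
      have hB : G.Bv N f := fun e he => f4 e (h4 e he)
      rcases h1 with ⟨l, hl, rfl⟩ | hD
      · exact hl.ext hc hA hB fun e he => Int.not_odd_iff_even.1 fun a =>
          k3 l hl e he ((f3 e (h4 e he)).2.1.1 a)
      · have h5 : N ∈ Hh := (mem_union.1 ((h.dg N).1 hD)).resolve_right h3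
        have h6 : ∀ e ∈ G.cut N, e ∈ O' := fun e he =>
          (hag' N (Or.inr hD) e he).1.2 (k2 N (mem_union_left _ h5) he)
        obtain ⟨a, b, -, hab⟩ := card_eq_two.1 (SpFin_two hD).1
        have ha : a ∈ G.cut N := by rw [hab]; simp
        have hb : b ∈ G.cut N := by rw [hab]; simp
        refine hD.ext hc hab hB (((f3 a (h4 a ha)).2.1.2 (h6 a ha)).add_odd
          ((f3 b (h4 b hb)).2.1.2 (h6 b hb))) fun hh => ?_
        obtain ⟨e, h7, h8⟩ := hDc.1 N (mem_union_left _ h5)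
        obtain ⟨e', h9, h10⟩ := hDc.2 N h5
        rw [← (hag' N (Or.inr hD) e h7).2] at h8
        rw [← (hag' N (Or.inr hD) e' h9).2] at h10
        have h11 := (f3 e (h4 e h7)).not_three h8
        have h12 := (f3 e' (h4 e' h9)).three (h6 e' h9) h10
        rw [hab] at h7 h9
        simp only [mem_insert, mem_singleton] at h7 h9
        rcases h7 with rfl | rfl <;> rcases h9 with rfl | rfl <;> omega)
    (fun v hv => by
      by_cases h1 : v ∈ Y
      · exact f2 v h1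
      have h3 : v ∉ G.vs G.A := fun a => by
        obtain ⟨N, h4, h5⟩ := hcov v a h1
        exact hv N ((hm N).2 h4) h5
      rw [bd_congr (g := fun _ => 0) fun e he hat => absurd (mem_vs.2 ⟨e, he, hat⟩) h3]
      simp [bd])
    (fun e he hN => by
      refine f4 e ?_
      by_cases h1 : G.s e ∈ Y
      · exact mem_tch.2 ⟨he, Or.inl h1⟩
      obtain ⟨N, h4, h5⟩ := hcov _ (s_mem_vs he) h1
      exact cut_sub_tch ((h.SpFin_out hc h4.1 h4.2).2 ((mem_tch_iff.1
        (mem_tch.2 ⟨he, Or.inl h5⟩)).resolve_left (hN N ((hm N).2 h4)))))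
  refine ⟨f', g1, fun hb => ?_⟩
  obtain ⟨h1, h3⟩ := p5 hb
  rw [g2 e0 fun N hN a => Quo_ins a (h.SpFin_out hc ((hm N).1 hN).1 ((hm N).1 hN).2).1.symm
    (cut_sub_tch (p1 h1)), f1 e0 h1, h3]

end SG

end Pool.Agent.Work.MP_8c679b_co
end

-- merged part: Pool.Agent.Work.MP_8c679b_co.Blow
section
set_option autoImplicit false

namespace Pool.Agent.Work.MP_8c679b_co

open Finset

lemma blow_perm {H V : Type} [DecidableEq H] [DecidableEq V] (x : H → V) (S : Finset H) :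
    ∀ c : H → ℤ, (∀ v, ∑ h ∈ S.filter (fun h => x h = v), c h = 0) →
    ∃ π : Equiv.Perm H, (∀ h, x (π h) = x h) ∧ (∀ h, h ∉ S → π h = h) ∧
      ∃ g : H → ℤ, ∀ h ∈ S, c (π h) + g (π h) = g h := by
  induction S using Finset.induction_on with
  | empty => exact fun c _ => ⟨1, fun _ => rfl, fun _ _ => rfl, 0, by simp⟩
  | insert a S ha ih =>
    intro c hc
    have mem : ∀ π : Equiv.Perm H, (∀ h, h ∉ S → π h = h) → ∀ h ∈ S, π h ∈ S := by
      intro π h2 h hh
      by_contra k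
      exact k (by rw [π.injective (h2 _ k)]; exact hh)
    by_cases hb : ∃ b ∈ S, x b = x a
    · obtain ⟨b, hb, hx⟩ := hb
      obtain ⟨π, h1, h2, g, h3⟩ := ih (fun h => c h + if h = b then c a else 0) fun v => by
        have := hc v
        rw [filter_insert] at this
        rw [sum_add_distrib, sum_ite_eq']
        by_cases k : x a = v
        · rw [if_pos k, sum_insert fun m => ha (mem_filter.1 m).1] at this
          rw [if_pos (mem_filter.2 ⟨hb, hx.trans k⟩)]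
          linarith
        · rw [if_neg k] at this
          rw [if_neg fun m : b ∈ S.filter (fun h => x h = v) =>
            k (hx.symm.trans (mem_filter.1 m).2), this, add_zero]
      obtain ⟨p, rfl⟩ := π.surjective b
      have hp : p ∈ S := by
        by_contra k
        exact k (by rwa [h2 p k] at hb)
      have pa : p ≠ a := fun e => ha (e ▸ hp)
      have xp : x p = x a := (h1 p).symm.trans hx
      have ne : ∀ h ∈ S, π h ≠ a := fun h hh e => ha (e ▸ mem π h2 h hh)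
      refine ⟨π * Equiv.swap a p, fun h => ?_, fun h hh => ?_,
        Function.update g a (g p - c a), fun h hh => ?_⟩
      · rw [Equiv.Perm.mul_apply, h1, Equiv.swap_apply_def]
        split_ifs with k1 k2
        · rw [k1, xp]
        · rw [k2, xp]
        · rfl
      · rw [mem_insert, not_or] at hh
        rw [Equiv.Perm.mul_apply, Equiv.swap_apply_of_ne_of_ne hh.1 fun e => hh.2 (e ▸ hp),
          h2 h hh.2]
      · rw [Equiv.Perm.mul_apply]
        rcases mem_insert.1 hh with rfl | hh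
        · have := h3 p hp
          simp only [if_true] at this
          rw [Equiv.swap_apply_left, Function.update_of_ne (ne p hp), Function.update_self]
          linarith
        · have ha' : h ≠ a := fun e => ha (e ▸ hh)
          by_cases k : h = p
          · rw [k, Equiv.swap_apply_right, h2 a ha, Function.update_self, Function.update_of_ne pa]
            ring
          · have := h3 h hh
            simp only [if_neg fun e => k (π.injective e), add_zero] at this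
            rw [Equiv.swap_apply_of_ne_of_ne ha' k, Function.update_of_ne (ne h hh),
              Function.update_of_ne ha', this]
    · have key : ∀ v, x a = v → S.filter (fun h => x h = v) = ∅ := fun v k =>
        filter_false_of_mem fun h hh e => hb ⟨h, hh, e.trans k.symm⟩
      have ca : c a = 0 := by
        have := hc (x a)
        rwa [filter_insert, if_pos rfl, key _ rfl, insert_empty, sum_singleton] at this
      obtain ⟨π, h1, h2, g, h3⟩ := ih c fun v => by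
        by_cases k : x a = v
        · rw [key v k, sum_empty]
        · have := hc v
          rwa [filter_insert, if_neg k] at this
      refine ⟨π, h1, fun h hh => h2 h fun m => hh (mem_insert_of_mem m), g, fun h hh => ?_⟩
      rcases mem_insert.1 hh with rfl | hh
      · rw [h2 h ha, ca, zero_add]
      · exact h3 h hh

namespace SG

variable {V E : Type} [Fintype V] [DecidableEq V] [DecidableEq E] {G : SG V E}

/-- the vertex at an end of an edge -/
def blowV (G : SG V E) (h : E × Bool) : V := if h.2 then G.s h.1 else G.t h.1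

/-- the graph on the ends of the edges -/
def blow (G : SG V E) (π : Equiv.Perm (E × Bool)) : SG (E × Bool) (E ⊕ E × Bool) where
  A := G.A.disjSum (G.A ×ˢ univ)
  s := Sum.elim (fun e => (e, true)) id
  t := Sum.elim (fun e => (e, false)) π
  n := Sum.elim G.n fun _ => 0

lemma blow_fib {R : Type} [Semiring R] [Fintype E] (G : SG V E) (k : E × Bool) (v : V) :
    ∑ h ∈ univ.filter (fun h => G.blowV h = v), (iv (k = h) : R) = iv (G.blowV k = v) := by
  simp [iv]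

lemma blow_iv {R : Type} [Semiring R] {H : Type} [DecidableEq H] (π : Equiv.Perm H) (S : Finset H)
    (g : H → R) (h : H) :
    ∑ k ∈ S, iv (π k = h) * g k = iv (π.symm h ∈ S) * g (π.symm h) := by
  simp only [← Equiv.eq_symm_apply, iv, ite_mul, one_mul, zero_mul, sum_ite_eq']

lemma blow_left {R : Type} [Semiring R] (A : Finset E) (g : E × Bool → R) (h : E × Bool) :
    ∑ e ∈ A, (iv ((e, true) = h) * g (e, true) + iv ((e, false) = h) * g (e, false)) =
      iv (h ∈ A ×ˢ (univ : Finset Bool)) * g h := by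
  have := blow_iv (Equiv.refl _) (A ×ˢ (univ : Finset Bool)) g h
  rw [sum_product] at this
  simp only [Fintype.sum_bool] at this
  exact this

theorem cov_of_adm [Fintype E] (G : SG V E) (hA : G.Adm) : G.Cov := by
  obtain ⟨f, hf, hf0⟩ := hA
  let c : E × Bool → ℤ := fun h => if h.2 then f h.1 else -(chi (G.n h.1) * f h.1)
  obtain ⟨π, h1, h2, g, h3⟩ := blow_perm G.blowV (G.A ×ˢ (univ : Finset Bool)) c fun v => by
    rw [← hf v, sum_filter, sum_product, bd]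
    refine sum_congr rfl fun e _ => ?_
    simp only [Fintype.sum_bool, blowV, c, iv]
    by_cases k1 : G.s e = v <;> by_cases k2 : G.t e = v <;> simp [k1, k2]
    ring
  have mem : ∀ h, π.symm h ∈ G.A ×ˢ (univ : Finset Bool) ↔ h ∈ G.A ×ˢ (univ : Finset Bool) := by
    intro h
    by_cases k : π.symm h ∈ G.A ×ˢ (univ : Finset Bool)
    · refine iff_of_true k ?_
      by_contra k'
      exact k' (by rwa [π.symm_apply_eq.2 (h2 h k').symm] at k)
    · refine iff_of_false k ?_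
      have := h2 _ k
      rw [Equiv.apply_symm_apply] at this
      rwa [this]
  have cub : (G.blow π).Cub := by
    intro h
    have e1 := blow_left (R := ℕ) G.A (fun _ => 1) h
    have e2 := blow_iv (R := ℕ) (Equiv.refl _) (G.A ×ˢ (univ : Finset Bool)) (fun _ => 1) h
    have e3 := blow_iv (R := ℕ) π (G.A ×ˢ (univ : Finset Bool)) (fun _ => 1) h
    simp only [mul_one, Equiv.refl_apply, Equiv.refl_symm, mem] at e1 e2 e3
    rw [show (G.blow π).deg (G.blow π).A h = _ from (sum_disjSum _ _ _).trans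
      (congrArg₂ (· + ·) e1 (sum_add_distrib.trans (congrArg₂ (· + ·) e2 e3)))]
    unfold iv
    split_ifs <;> simp
  have adm : (G.blow π).Adm := by
    refine ⟨Sum.elim f fun h => g h + (1 + ∑ k, |g k|), fun h => ?_, ?_⟩
    · have e1 := blow_left G.A c h
      have e2 := blow_iv (Equiv.refl _) (G.A ×ˢ (univ : Finset Bool))
        (fun h => g h + (1 + ∑ k, |g k|)) h
      have e3 := blow_iv π (G.A ×ˢ (univ : Finset Bool)) (fun h => g h + (1 + ∑ k, |g k|)) h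
      simp only [Equiv.refl_apply, Equiv.refl_symm, mem] at e2 e3
      refine (sum_disjSum _ _ _).trans ?_
      change ∑ e ∈ G.A, (iv ((e, true) = h) - iv ((e, false) = h) * chi (G.n e)) * f e +
        ∑ x ∈ G.A ×ˢ (univ : Finset Bool), (iv (x = h) - iv (π x = h) * chi 0) *
          (g x + (1 + ∑ k, |g k|)) = 0
      simp only [chi_zero, mul_one]
      rw [sum_congr rfl (g := fun e => iv ((e, true) = h) * c (e, true) +
        iv ((e, false) = h) * c (e, false)) fun e _ => by simp [c]; ring, e1]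
      simp only [sub_mul]
      rw [sum_sub_distrib, e3]
      erw [e2]
      unfold iv
      split_ifs with k
      · have := h3 _ ((mem h).2 k)
        rw [Equiv.apply_symm_apply] at this
        linarith
      · simp
    · rintro (e | h) he
      · exact hf0 e (inl_mem_disjSum.1 he)
      · have := single_le_sum (f := fun k => |g k|) (fun k _ => abs_nonneg _) (mem_univ h)
        have := neg_abs_le (g h)
        simp only [Sum.elim_inr]
        omega
  obtain ⟨O, hO, ev, pa, φ, hφ, hc⟩ := cov_cubic _ cub adm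
  refine ⟨O.toLeft, fun e he => inl_mem_disjSum.1 (hO (mem_toLeft.1 he)), fun v => ?_, ?_,
    fun e => φ (Sum.inl e), fun v => ?_, fun e he k =>
      hc _ (inl_mem_disjSum.2 he) fun m => k (mem_toLeft.2 m)⟩
  · have := sum_eq_zero (s := univ.filter fun h => G.blowV h = v) fun h _ => ev h
    simp only [dg] at this
    rw [sum_comm, ← toLeft_disjSum_toRight (u := O), sum_disjSum] at this
    simp only [sum_add_distrib (s := univ.filter _), blow_fib] at this
    rw [sum_eq_zero (s := O.toRight) fun k _ => ?_, add_zero] at this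
    · exact this
    · change iv (G.blowV k = v) + iv (G.blowV (π k) = v) = 0
      rw [h1, z2_add_self]
  · rw [par, ← toLeft_disjSum_toRight (u := O), sum_disjSum] at pa
    simpa [blow, par] using pa
  · have := sum_eq_zero (s := univ.filter fun h => G.blowV h = v) fun h _ => hφ h
    simp only [bd] at this
    rw [sum_comm] at this
    simp only [← sum_mul, sum_sub_distrib, blow_fib] at this
    replace this := (sum_disjSum _ _ _).symm.trans this
    rw [sum_eq_zero (s := G.A ×ˢ (univ : Finset Bool)) fun k _ => ?_, add_zero] at this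
    · exact this
    · change (iv (G.blowV k = v) - iv (G.blowV (π k) = v) * chi 0) * _ = 0
      rw [h1, chi_zero, mul_one, sub_self, zero_mul]

end SG

end Pool.Agent.Work.MP_8c679b_co
end

-- merged part: Pool.Agent.Work.MP_8c679b_co.Top.RMain
section
/-!
The main induction with three-sides.
-/

set_option autoImplicit false

namespace Pool.Agent.Work.MP_8c679b_co

open Finset

namespace SG

variable {V E : Type} [Fintype V] [DecidableEq V] [DecidableEq E] {G : SG V E} {T : Finset V}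

theorem A3P.a3 (hc : G.Cub) (h : G.A3P) : G.A3 := fun T hT h2 =>
  (h T hT h2).imp (fun k => acc_of_rall hc hT (fun η hη => (k.2 η hη).mono one_le_two) k.1)
    And.left

/-- a port-free two-side contains a port-free three-side -/
theorem RMain_n4 (hc : G.Cub) (hC : G.Con) (n1 : G.N1) (n2 : G.N2) (n3 : G.N3)
    (h0 : ∀ T, G.PF T → ¬ G.T3 T) : G.N4 := by
  by_contra h
  simp only [N4, not_forall, not_not] at h
  classical
  obtain ⟨X, hX, hm⟩ := exists_min_image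
    (univ.filter fun X : Finset V => G.PF X ∧ (G.cut X).card = 2) card
    (h.imp fun X ⟨k1, k2⟩ => mem_filter.2 ⟨mem_univ X, k1, k2⟩)
  obtain ⟨hP, h1⟩ := (mem_filter.1 hX).2
  have hv : X ⊆ G.vs G.A := fun v hv => (hP v hv).1
  have hl : ∀ l ∈ X, ¬ G.Lv l := fun l hl k => (hP l hl).2 (.inl k)
  have h3 : ∀ Y ⊂ X, Y.Nonempty → 3 ≤ (G.cut Y).card := fun Y hY hn => by
    have k1 : (G.cut Y).card ≠ 2 := fun k => (card_lt_card hY).not_ge
      (hm Y (mem_filter.2 ⟨mem_univ Y, fun v hv => hP v (hY.1 hv), k⟩))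
    by_contra k2
    rcases small_cut hc hC n1 (hY.1.trans hv) hn (by omega) with ⟨l, k3, k4⟩ | k3 | ⟨l, k3, k4⟩
    · exact hl l (hY.1 (k4 ▸ mem_singleton_self l)) k3
    · exact hY.2 (k3 ▸ hv)
    · obtain ⟨x, k5, k6⟩ := exists_of_ssubset hY
      exact hl l (mem_singleton.1 (k4 ▸ mem_sdiff.2 ⟨hv k5, k6⟩) ▸ k5) k3
  have h4 := deg_sum hc hv
  have h5 : X.card ≠ 2 := fun k => by
    obtain ⟨x, hx⟩ := card_pos.1 (show 0 < X.card by omega)
    exact (hP x hx).2 (.inr ⟨X, AStepA_dg k hl (n2 X h1) h1, hx⟩)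
  obtain ⟨a, ha⟩ := card_pos.1 (show 0 < (G.cut X).card by omega)
  have k0 : ({G.ie X a} : Finset V) ⊆ X := singleton_subset_iff.2 (ie_mem (cut_sub_tch ha))
  have k1 := cut_add (G := G) k0
  have k2 := deg_sum hc (k0.trans hv)
  have k3 := card_sdiff_add_card_eq_card k0
  have k4 := card_sdiff_add_card_inter (G.cut {G.ie X a}) (G.cut X)
  have k5 := card_pos.2 ⟨a, Cut_ie ha rfl⟩
  have k6 : X \ {G.ie X a} ⊂ X := sdiff_ssubset k0 (singleton_nonempty _)
  rw [crs_ins k0] at k1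
  rw [card_singleton] at k2 k3
  have k7 := h3 _ k6 (card_pos.1 (by omega))
  obtain ⟨T, t1, t2, -⟩ := AStepB_min n3 (k6.1.trans hv)
    (fun Y hY hn => h3 Y (Finset.ssubset_of_subset_of_ssubset hY k6) hn) (by omega) (by omega)
  exact h0 T (fun v k => hP v (k6.1 (t1 k))) t2

theorem RMain_n6 (hc : G.Cub) (hC : G.Con) (n1 : G.N1) (n3 : G.N3) (n4 : G.N4)
    (h0 : ∀ T, G.PF T → ¬ G.T3 T) : G.N6 := by
  intro X hP h3
  by_contra h1
  have hv : X ⊆ G.vs G.A := fun v hv => (hP v hv).1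
  have hl : ∀ l ∈ X, ¬ G.Lv l := fun l hl k => (hP l hl).2 (.inl k)
  obtain ⟨T, t1, t2, -⟩ := AStepB_min n3 hv (fun Y hY hn => by
    have k1 := n4 Y fun v k => hP v (hY k)
    by_contra k2
    have k0 : Y ≠ X := fun k => k2 (k ▸ h3.ge)
    rcases small_cut hc hC n1 (hY.trans hv) hn (by omega) with ⟨l, k3, k4⟩ | k3 | ⟨l, k3, k4⟩
    · exact hl l (hY (k4 ▸ mem_singleton_self l)) k3
    · exact k0 (hY.antisymm (k3 ▸ hv))
    · obtain ⟨x, k5, k6⟩ := exists_of_ssubset (hY.ssubset_of_ne k0)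
      exact hl l (mem_singleton.1 (k4 ▸ mem_sdiff.2 ⟨hv k5, k6⟩) ▸ k5) k3) h3 (AStepB_two h3 h1)
  exact h0 T (fun v k => hP v (t1 k)) t2

/-- a potential extends over the edge of a loop vertex -/
theorem RMain_lv (hc : G.Cub) {l : V} (hl : G.Lv l) {S : Finset E} (hS : S ⊆ G.A)
    {p : V → ZMod 2} (hp : ∀ e ∈ S, e ∉ G.tch {l} → G.sw p e = 0) : ∃ m, G.Bal (S.erase m) := by
  obtain ⟨m, g, m3, m4⟩ := hl.str hc
  have m8 : g ∈ G.cut {l} := m4 ▸ mem_singleton_self g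
  refine ⟨m, Function.update p l (G.n g + p (G.oe {l} g)), fun e he => ?_⟩
  obtain ⟨hm, he⟩ := mem_erase.1 he
  by_cases e4 : e ∈ G.tch {l}
  · have e5 : e = g := by
      rcases mem_tch_iff.1 e4 with e5 | e5
      · exact absurd (mem_singleton.1 (m3 ▸ e5)) hm
      · exact mem_singleton.1 (m4 ▸ e5)
    rw [e5, Cut_sw (je_ie_oe (X := {l})), mem_singleton.1 (ie_mem (cut_sub_tch m8)),
      Function.update_self, Function.update_of_ne (by simpa using oe_not_mem m8)]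
    linear_combination z2_add_self (G.n g + p (G.oe {l} g))
  · have e5 := hp e he e4
    simp only [mem_tch, hS he, true_and, mem_singleton, not_or] at e4
    rwa [sw, Function.update_of_ne e4.1, Function.update_of_ne e4.2, ← sw]

/-- contraction of a three-side whose outside has frustration at least two -/
theorem RMain_xn (hc : G.Cub) (hA : G.Adm2) (hI : G.IHM) (hC : G.Con) (n1 : G.N1) (hT : G.T3 T)
    (hx : G.Xn T) (h2 : G.F2 (univ \ T)) : G.Six := by
  obtain ⟨q, hq⟩ := hx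
  obtain ⟨ht, h3, hu⟩ := hT
  have hn : (G.cut T).Nonempty := card_pos.1 (by omega)
  obtain ⟨e, he⟩ := id hn
  have nl : ∀ l ∈ T, ¬ G.Lv l := fun l hl => AStepB_nlv (ht.vtx hc hl).2.1
  have hx := ie_mem (cut_sub_tch he)
  obtain ⟨G', hG⟩ := exists_ce (G := G) hx fun e => G.n e + q (G.ie T e)
  refine AStepB_con hc hI hC n1 hG h3 (nonempty_iff_ne_empty.2 fun h0 => hu ?_) nl
    (hG.adm hA hC hn (fun Z hZ hZ1 hB => ?_) h2) hq
  · rw [h0]
    exact ⟨0, fun _ h => absurd h (notMem_empty _)⟩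
  have k0 := mem_inter.2 ⟨hZ hx, ht.act hx⟩
  rw [← (AStepB_inter Z).1] at hZ1
  rcases small_cut hc hC n1 (inter_subset_right (s₁ := Z)) ⟨_, k0⟩ hZ1.le with
    ⟨l, k1, k2⟩ | k1 | ⟨l, k1, k2⟩
  · exact nl _ hx (mem_singleton.1 (k2 ▸ k0) ▸ k1)
  · rw [k1, AStepB_vs.1, card_empty] at hZ1
    omega
  · obtain ⟨p, hp⟩ := hB
    have k3 : ∀ v ∈ G.vs G.A, v ≠ l → v ∈ Z := fun v hv k => by_contra fun k' =>
      k (mem_singleton.1 (k2 ▸ mem_sdiff.2 ⟨hv, fun r => k' (mem_inter.1 r).1⟩))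
    obtain ⟨m, hm⟩ := RMain_lv hc k1 (S := G.ins (univ \ T)) ins_sub_A (p := p) fun f hf k => by
      obtain ⟨f1, f2, f3⟩ := mem_ins.1 hf
      simp only [mem_tch, f1, true_and, mem_singleton, not_or] at k
      exact hp f (mem_ins.2 ⟨f1, mem_sdiff.2 ⟨k3 _ (s_mem_vs f1) k.1, ACon_c.1 f2⟩,
        mem_sdiff.2 ⟨k3 _ (t_mem_vs f1) k.2, ACon_c.1 f3⟩⟩)
    exact h2 m hm

/-- the main induction -/
theorem six_full (hA3 : ∀ G' : SG V E, G'.Cub → G'.A3P) (hP : ∀ G' : SG V E, G'.Cub → G'.PairL)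
    (hT : ∀ G' : SG V E, G'.Cub → G'.TopL) (hc : G.Cub) (hA : G.Adm2) : G.Six := by
  induction hn : G.A.card using Nat.strong_induction_on generalizing G with
  | _ n ih =>
    have hI : G.IHM := fun G' c a l => ih _ (hn ▸ l) c a rfl
    by_cases hC : G.Con
    swap
    · exact step0 hc hA hI hC
    by_cases n1 : G.N1
    swap
    · exact step1 hc hA hI n1
    by_cases n2 : G.N2
    swap
    · exact step2 hc hA hI hC n1 n2
    by_cases n3 : G.N3
    swap
    · exact step3 hc hA hI hC n1 n3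
    by_cases n5 : G.N5
    swap
    · exact step5 hc hA hI hC n1 n2 n3 n5
    by_cases h3 : G.E3
    · obtain ⟨f, hf⟩ := three_cubic (fun G' c => (hA3 G' c).a3 c) hc hA h3
      exact fun e0 c _ => ⟨f, hf, fun ⟨X, hX⟩ => absurd (by rw [hX, card_singleton]) (h3.ne1 X)⟩
    by_cases h0 : ∃ T, G.PF T ∧ G.T3 T
    swap
    · have h1 : ∀ T, G.PF T → ¬ G.T3 T := fun T k k' => h0 ⟨T, k, k'⟩
      have n4 := RMain_n4 hc hC n1 n2 n3 h1
      refine sp_six hc hA.1 hC n1 n4 n5 (RMain_n6 hc hC n1 n3 n4 h1) ?_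
      by_contra h2
      exact h3 (three_conn hc hC n1 n4 h2).2
    by_cases hx : ∃ T, G.T3 T ∧ G.Xn T ∧ G.B2 T
    · obtain ⟨T, t1, t2, t3⟩ := hx
      by_cases h2 : G.F2 (univ \ T)
      exacts [RMain_xn hc hA hI hC n1 t1 t2 h2, tol4 hc hA hC n1 n2 n3 t1 t3 h2]
    have n8 : G.N8 := fun T _ t1 => by
      have h2 : G.F2 T := fun z hz => by
        obtain ⟨q, -, hq⟩ := x3n_k1 hc t1 ⟨z, hz⟩
        exact hx ⟨T, t1, ⟨q, hq⟩, z, z, hz.mono (erase_subset _ _)⟩
      obtain ⟨k1, k2⟩ := (hA3 G hc T t1 h2).resolve_right fun k => hx ⟨T, t1, k⟩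
      exact ⟨h2, hP G hc T t1 k1 k2⟩
    by_cases n7 : G.N7
    swap
    · exact step_n7 hc hA hI hC n1 n8 h3 n7
    exact hT G hc hA hC n1 n2 n3 n5 n7 n8 h0

/-- from cubic graphs to all graphs -/
theorem six_of_cubic [Fintype E]
    (h6 : ∀ G' : SG (E × Bool) (E ⊕ E × Bool), G'.Cub → G'.Adm2 → G'.Six) (hA : G.Adm) :
    ∃ f, G.Fl6 f := by
  rcases isEmpty_or_nonempty E with hE | ⟨⟨e0⟩⟩
  · exact ⟨0, fun v => sum_eq_zero fun e _ => hE.elim e, fun e _ => hE.elim e⟩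
  obtain ⟨f, hf, hf0⟩ := hA
  let c : E × Bool → ℤ := fun h => if h.2 then f h.1 else -(chi (G.n h.1) * f h.1)
  obtain ⟨π, h1, h2, g, h3⟩ := blow_perm G.blowV (G.A ×ˢ (univ : Finset Bool)) c fun v => by
    rw [← hf v, sum_filter, sum_product, bd]
    refine sum_congr rfl fun e _ => ?_
    simp only [Fintype.sum_bool, blowV, c, iv]
    by_cases k1 : G.s e = v <;> by_cases k2 : G.t e = v <;> simp [k1, k2]
    ring
  have mem : ∀ h, π.symm h ∈ G.A ×ˢ (univ : Finset Bool) ↔ h ∈ G.A ×ˢ (univ : Finset Bool) := by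
    intro h
    by_cases k : π.symm h ∈ G.A ×ˢ (univ : Finset Bool)
    · refine iff_of_true k ?_
      by_contra k'
      exact k' (by rwa [π.symm_apply_eq.2 (h2 h k').symm] at k)
    · refine iff_of_false k ?_
      have := h2 _ k
      rw [Equiv.apply_symm_apply] at this
      rwa [this]
  have cub : (G.blow π).Cub := by
    intro h
    have e1 := blow_left (R := ℕ) G.A (fun _ => 1) h
    have e2 := blow_iv (R := ℕ) (Equiv.refl _) (G.A ×ˢ (univ : Finset Bool)) (fun _ => 1) h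
    have e3 := blow_iv (R := ℕ) π (G.A ×ˢ (univ : Finset Bool)) (fun _ => 1) h
    simp only [mul_one, Equiv.refl_apply, Equiv.refl_symm, mem] at e1 e2 e3
    rw [show (G.blow π).deg (G.blow π).A h = _ from (sum_disjSum _ _ _).trans
      (congrArg₂ (· + ·) e1 (sum_add_distrib.trans (congrArg₂ (· + ·) e2 e3)))]
    unfold iv
    split_ifs <;> simp
  have adm : (G.blow π).Adm := by
    refine ⟨Sum.elim f fun h => g h + (1 + ∑ k, |g k|), fun h => ?_, ?_⟩
    · have e1 := blow_left G.A c h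
      have e2 := blow_iv (Equiv.refl _) (G.A ×ˢ (univ : Finset Bool))
        (fun h => g h + (1 + ∑ k, |g k|)) h
      have e3 := blow_iv π (G.A ×ˢ (univ : Finset Bool)) (fun h => g h + (1 + ∑ k, |g k|)) h
      simp only [Equiv.refl_apply, Equiv.refl_symm, mem] at e2 e3
      refine (sum_disjSum _ _ _).trans ?_
      change ∑ e ∈ G.A, (iv ((e, true) = h) - iv ((e, false) = h) * chi (G.n e)) * f e +
        ∑ x ∈ G.A ×ˢ (univ : Finset Bool), (iv (x = h) - iv (π x = h) * chi 0) *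
          (g x + (1 + ∑ k, |g k|)) = 0
      simp only [chi_zero, mul_one]
      rw [sum_congr rfl (g := fun e => iv ((e, true) = h) * c (e, true) +
        iv ((e, false) = h) * c (e, false)) fun e _ => by simp [c]; ring, e1]
      simp only [sub_mul]
      rw [sum_sub_distrib, e3]
      erw [e2]
      unfold iv
      split_ifs with k
      · have := h3 _ ((mem h).2 k)
        rw [Equiv.apply_symm_apply] at this
        linarith
      · simp
    · rintro (e | h) he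
      · exact hf0 e (inl_mem_disjSum.1 he)
      · have := single_le_sum (f := fun k => |g k|) (fun k _ => abs_nonneg _) (mem_univ h)
        have := neg_abs_le (g h)
        simp only [Sum.elim_inr]
        omega
  obtain ⟨φ, ⟨hφ, hc⟩, -⟩ := h6 _ cub ⟨adm.adm1, fun _ => adm.erase⟩ (Sum.inl e0) 2 (Or.inl rfl)
  refine ⟨fun e => φ (Sum.inl e), fun v => ?_, fun e he => hc _ (inl_mem_disjSum.2 he)⟩
  have := sum_eq_zero (s := univ.filter fun h => G.blowV h = v) fun h _ => hφ h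
  simp only [bd] at this
  rw [sum_comm] at this
  simp only [← sum_mul, sum_sub_distrib, blow_fib] at this
  replace this := (sum_disjSum _ _ _).symm.trans this
  rw [sum_eq_zero (s := G.A ×ˢ (univ : Finset Bool)) fun k _ => ?_, add_zero] at this
  · exact this
  · change (iv (G.blowV k = v) - iv (G.blowV (π k) = v) * chi 0) * _ = 0
    rw [h1, chi_zero, mul_one, sub_self, zero_mul]

end SG

/-- the six-flow statement from the three interfaces -/
theorem six_flow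
    (h : ∀ (V E : Type) [Fintype V] [DecidableEq V] [DecidableEq E] (G : SG V E), G.Cub →
      G.A3P ∧ G.PairL ∧ G.TopL) :
    ∀ (n m : ℕ) (s t : Fin m → Fin n) (σ : Fin m → ℤ),
      (∀ e, σ e = 1 ∨ σ e = -1) →
      (∃ f : Fin m → ℤ, (∀ e, f e ≠ 0) ∧
        ∀ x : Fin n, ∑ e, ((if s e = x then f e else 0) - (if t e = x then σ e * f e else 0)) = 0) →
      ∃ f : Fin m → ℤ, (∀ e, f e ≠ 0 ∧ |f e| < 6) ∧
        ∀ x : Fin n, ∑ e, ((if s e = x then f e else 0) - (if t e = x then σ e * f e else 0)) = 0 := by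
  intro n m s t σ hσ ⟨f, hf, hc⟩
  let G : SG (Fin n) (Fin m) := ⟨Finset.univ, s, t, fun e => if σ e = 1 then 0 else 1⟩
  have key : ∀ (g : Fin m → ℤ) (x : Fin n), G.bd g x =
      ∑ e, ((if s e = x then g e else 0) - (if t e = x then σ e * g e else 0)) := by
    intro g x
    refine Finset.sum_congr rfl fun e _ => ?_
    have h : (chi (if σ e = 1 then 0 else 1) : ℤ) = σ e := by
      rcases hσ e with h | h <;> simp [h]
    show (iv (s e = x) - iv (t e = x) * chi (if σ e = 1 then 0 else 1)) * g e = _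
    rw [h]
    unfold iv
    split_ifs <;> ring
  have adm : G.Adm := ⟨f, fun x => by rw [key, hc], fun e _ => hf e⟩
  obtain ⟨g, g1, g2⟩ := SG.six_of_cubic (fun G' c a => SG.six_full (fun G c => (h _ _ G c).1)
    (fun G c => (h _ _ G c).2.1) (fun G c => (h _ _ G c).2.2) c a) adm
  refine ⟨g, fun e => ⟨(g2 e (Finset.mem_univ e)).1, ?_⟩, fun x => by rw [← key, g1]⟩
  have := (g2 e (Finset.mem_univ e)).2
  omega

end Pool.Agent.Work.MP_8c679b_co
end
end
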