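import Pool.Agent.Work.MP_8c679b_co.Top.TJoin
import Pool.Agent.Work.MP_8c679b_co.Top.LRad
import Pool.Agent.Work.MP_8c679b_co.Top.PFin
import Pool.Agent.Work.MP_8c679b_co.Six.AGad
import Pool.Agent.Work.MP_8c679b_co.Top.RMain
import Pool.Agent.Work.MP_8c679b_co.Top.LPair

-- merged part: Pool.Agent.Work.MP_8c679b_co.Top.TSet
section
/-!
The choice of the hard digons.
-/

set_option autoImplicit false

namespace Pool.Agent.Work.MP_8c679b_co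

open Finset

namespace SG

variable {V E : Type} [Fintype V] [DecidableEq V] [DecidableEq E] {G : SG V E}
  {U Y : Finset V} {D : Finset (Finset V)} {e : E}

omit [Fintype V] in
/-- an edge that is no bridge lies in an even set -/
theorem nbri_ev (he : e ∈ G.ins Y) (hb : ¬ G.Bri Y e) : ∃ C ⊆ G.ins Y, G.Ev C ∧ e ∈ C := by
  classical
  obtain ⟨-, h1, h2⟩ := mem_ins.1 he
  have hr : G.Rch ((G.ins Y).erase e) (G.s e) (G.t e) := by
    by_contra k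
    refine hb ⟨Y.filter (G.Rch ((G.ins Y).erase e) (G.s e)), filter_subset _ _,
      eq_singleton_iff_unique_mem.2 ⟨mem_crs.2 ⟨he, fun q => k (mem_filter.1 (q.1
        (mem_filter.2 ⟨h1, Rch.refl _ _⟩))).2⟩, fun f hf => by_contra fun q => ?_⟩⟩
    obtain ⟨a1, a2⟩ := mem_crs.1 hf
    obtain ⟨-, a3, a4⟩ := mem_ins.1 a1
    have a5 := rch_edge (G := G) (mem_erase.2 ⟨q, a1⟩)
    exact a2 ⟨fun z => mem_filter.2 ⟨a4, (mem_filter.1 z).2.trans a5⟩,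
      fun z => mem_filter.2 ⟨a3, (mem_filter.1 z).2.trans a5.symm⟩⟩
  obtain ⟨P, h3, h4⟩ := hr.od
  have h5 : e ∉ P := fun k => notMem_erase e _ (h3 k)
  refine ⟨insert e P, insert_subset he (h3.trans (erase_subset _ _)), fun v => ?_,
    mem_insert_self _ _⟩
  rw [insert_eq, dg_union (disjoint_singleton_left.2 h5), dg_singleton, h4 v]
  simp only [eq_comm (a := v)]
  exact z2_add_self _

/-- A largest family of two-sides whose ends have a join; the ends of the others are bridges. -/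
theorem TSet_split (hD : ∀ N ∈ D, (G.cut N).card = 2 ∧ Disjoint N U ∧ G.cut N ⊆ G.cut U)
    (hpd : PD D) : ∃ Hh ⊆ D, ∃ F0, G.Tj U (G.ends Hh) F0 ∧
      ∀ N ∈ D \ Hh, ∀ e ∈ G.cut N, G.Bri (U ∪ (D \ Hh).biUnion id) e := by
  classical
  obtain ⟨Hh, h1, hmax⟩ := exists_max_image (D.powerset.filter fun H => ∃ F, G.Tj U (G.ends H) F)
    card ⟨∅, mem_filter.2 ⟨empty_mem_powerset _, ∅, empty_subset _, fun v _ => by simp [ends, dg]⟩⟩
  obtain ⟨h1, F0, h2⟩ := mem_filter.1 h1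
  rw [mem_powerset] at h1
  refine ⟨Hh, h1, F0, h2, fun N hN e he => by_contra fun hb => ?_⟩
  have hY : ∀ N ∈ D \ Hh, N ⊆ U ∪ (D \ Hh).biUnion id := fun N k =>
    (subset_biUnion_of_mem id k).trans subset_union_right
  have hi : ∀ N ∈ D \ Hh, G.cut N ⊆ G.ins (U ∪ (D \ Hh).biUnion id) := fun N k f hf =>
    Quo_two (hY N k) subset_union_left (hD N (mem_sdiff.1 k).1).2.1 (cut_sub_tch hf)
      (cut_sub_tch ((hD N (mem_sdiff.1 k).1).2.2 hf))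
  obtain ⟨C, c1, c2, c3⟩ := nbri_ev (hi N hN he) hb
  have c4 : ∀ N ∈ D, ∀ f ∈ G.cut N, f ∈ C → G.cut N ⊆ C := fun N k f hf q => by
    obtain ⟨m, hm⟩ := GNorm_even (N := N) (c1.trans ins_sub_A) fun v _ => c2 v
    have a1 := card_pos.2 ⟨f, mem_inter.2 ⟨q, hf⟩⟩
    have a2 := (hD N k).1
    exact inter_eq_right.1 (eq_of_subset_of_card_le inter_subset_right (by omega))
  have c5 : ∀ H ⊆ D, G.ends H ⊆ G.cut U := fun H k => biUnion_subset.2 fun N q => (hD N (k q)).2.2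
  have c6 : Hh ∪ (D \ Hh).filter (fun N => G.cut N ⊆ C) ⊆ D :=
    union_subset h1 ((filter_subset _ _).trans sdiff_subset)
  have c7 := hmax (Hh ∪ (D \ Hh).filter fun N => G.cut N ⊆ C) (mem_filter.2 ⟨mem_powerset.2 c6,
    symmDiff F0 (C ∩ G.ins U), symmDiff_le_sup.trans (union_subset h2.1 inter_subset_right),
    fun v hv => ?_⟩)
  · rw [card_union_of_disjoint (disjoint_sdiff.mono_right (filter_subset _ _))] at c7
    have : 0 < ((D \ Hh).filter fun N => G.cut N ⊆ C).card :=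
      card_pos.2 ⟨N, mem_filter.2 ⟨hN, c4 N (mem_sdiff.1 hN).1 e he c3⟩⟩
    omega
  have c8 : G.dg (symmDiff (F0 ∪ G.ends Hh) C) v = 0 := by
    rw [dg_symmDiff, h2.2 v hv, c2 v, add_zero]
  rw [← c8]
  refine Ab_dg fun f hf => ?_
  have a1 := @h2.1 f
  have a2 := @c5 _ h1 f
  have a4 := fun q => not_ins_of_cut (G := G) (X := U) (e := f) q
  have a5 : f ∈ G.ins U ∨ f ∈ G.cut U ∨ f ∉ C := by
    by_cases k : f ∈ C
    · exact (mem_tch_iff.1 (Cut_tch (ins_sub_A (c1 k)) hf hv)).imp_right Or.inl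
    · exact Or.inr (Or.inr k)
  have a6 : f ∈ G.ends Hh → f ∉ C := fun k q => by
    obtain ⟨N', b1, b2⟩ := mem_biUnion.1 k
    refine Quo_ins (c1 q) (disjoint_union_right.2 ⟨(hD N' (h1 b1)).2.1,
      (disjoint_biUnion_right _ _ _).2 fun N2 b3 => hpd N' (h1 b1) N2 (mem_sdiff.1 b3).1
        fun z => (mem_sdiff.1 b3).2 (z ▸ b1)⟩) (cut_sub_tch b2)
  have a7 : f ∈ G.ends (Hh ∪ (D \ Hh).filter fun N => G.cut N ⊆ C) ↔
      f ∈ G.ends Hh ∨ (f ∈ G.cut U ∧ f ∈ C) := by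
    rw [ends, union_biUnion, mem_union]
    refine or_congr_right ⟨fun k => ?_, fun k => ?_⟩
    · obtain ⟨N', b1, b2⟩ := mem_biUnion.1 k
      obtain ⟨b3, b4⟩ := mem_filter.1 b1
      exact ⟨(hD N' (mem_sdiff.1 b3).1).2.2 b2, b4 b2⟩
    · have b1 : G.oe U f ∈ U ∪ (D \ Hh).biUnion id :=
        (sub_ins_iff.1 (Subset.rfl : G.ins _ ⊆ _)).2 (mem_vs.2 ⟨f, c1 k.2, oe_at⟩)
      obtain ⟨N', b2, b3⟩ := mem_biUnion.1 ((mem_union.1 b1).resolve_left (oe_not_mem k.1))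
      have b4 : f ∈ G.cut N' := (mem_tch_iff.1 (Cut_tch (mem_cut.1 k.1).1 oe_at b3)).resolve_left
        fun z => Quo_ins z (hD N' (mem_sdiff.1 b2).1).2.1.symm (cut_sub_tch k.1)
      exact mem_biUnion.2 ⟨N', mem_filter.2 ⟨b2, c4 N' (mem_sdiff.1 b2).1 f b4 k.2⟩, b4⟩
  rw [mem_union, a7]
  simp only [mem_symmDiff, mem_union, mem_inter]
  clear a7
  generalize (f ∈ F0) = p1, (f ∈ C) = p2, (f ∈ G.ins U) = p3, (f ∈ G.cut U) = p4,
    (f ∈ G.ends Hh) = p5 at a1 a2 a4 a5 a6 ⊢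
  by_cases p1 <;> by_cases p2 <;> by_cases p3 <;> by_cases p4 <;> by_cases p5 <;> grind

/-- the form used in the set-up -/
theorem dig_split (hpd : PD D) (hD : ∀ N ∈ D, G.Dg N ∧ Disjoint N U ∧ G.cut N ⊆ G.cut U) :
    ∃ Hh ⊆ D, ∃ F0, G.Tj U (G.ends Hh) F0 ∧ ∀ e ∈ G.cut U,
      e ∈ G.ins (U ∪ (D \ Hh).biUnion id) → G.Bri (U ∪ (D \ Hh).biUnion id) e := by
  obtain ⟨Hh, h1, F0, h2, h3⟩ := TSet_split (G := G) (U := U) (fun N k => by
    obtain ⟨⟨-, -, -, -, -, -, -, -, -, -, -, a⟩, b⟩ := hD N k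
    exact ⟨a, b⟩) hpd
  refine ⟨Hh, h1, F0, h2, fun e he k => ?_⟩
  have b1 : G.oe U e ∈ U ∪ (D \ Hh).biUnion id :=
    (sub_ins_iff.1 (Subset.rfl : G.ins _ ⊆ _)).2 (mem_vs.2 ⟨e, k, oe_at⟩)
  obtain ⟨N, b2, b3⟩ := mem_biUnion.1 ((mem_union.1 b1).resolve_left (oe_not_mem he))
  exact h3 N b2 e ((mem_tch_iff.1 (Cut_tch (mem_cut.1 he).1 oe_at b3)).resolve_left
    fun z => Quo_ins z (hD N (mem_sdiff.1 b2).1).2.1.symm (cut_sub_tch he))

end SG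

end Pool.Agent.Work.MP_8c679b_co
end

-- merged part: Pool.Agent.Work.MP_8c679b_co.Top.TFs
section
-- merged part: Pool.Agent.Work.MP_8c679b_co.Top.THs
section
/-!
The strict cut condition outside and across a family of three-sides.
-/

set_option autoImplicit false

namespace Pool.Agent.Work.MP_8c679b_co

open Finset

namespace SG

variable {V E : Type} [Fintype V] [DecidableEq V] [DecidableEq E] {G : SG V E}
  {X Z T W0 Y : Finset V} {Td : Finset (Finset V)}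

variable (G) in
/-- the strict cut condition -/
def HS (X : Finset V) : Prop :=
  ∀ Z ⊆ X, Z.Nonempty → 3 ≤ (G.cut Z).card ∧ ((G.cut Z).card = 3 → Z.card = 1)

variable (G) in
/-- three-sides whose leaving edges have different outer ends -/
def T7 (T : Finset V) : Prop :=
  G.T3 T ∧ ∀ e ∈ G.cut T, ∀ e' ∈ G.cut T, G.oe T e = G.oe T e' → e = e'

theorem HS.ht (h : G.HS X) : G.HT X := fun Z hZ hn =>
  ⟨(h Z hZ hn).1, fun k => Or.inl ((h Z hZ hn).2 k)⟩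

theorem HS.sub (h : G.HS X) (hZ : Z ⊆ X) : G.HS Z := fun U hU => h U (hU.trans hZ)

theorem N7.t7 (h : G.N7) (hP : G.PF T) (hT : G.T3 T) : G.T7 T := ⟨hT, h T hP hT⟩

/-- a port-free set that contains no three-side and misses a vertex without a loop -/
theorem ths0 (hc : G.Cub) (hC : G.Con) (n1 : G.N1) (n2 : G.N2) (n3 : G.N3) (hP : G.PF W0)
    (h0 : ∀ T ⊆ W0, ¬ G.T3 T) (hx : ∃ x ∈ G.vs G.A, x ∉ W0 ∧ ¬ G.Lv x) : G.HS W0 := by
  classical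
  obtain ⟨x, x1, x2, x3⟩ := hx
  have hv : W0 ⊆ G.vs G.A := fun v hv => (hP v hv).1
  have hl : ∀ l ∈ W0, ¬ G.Lv l := fun l hl k => (hP l hl).2 (.inl k)
  have h1 : ∀ Z ⊆ W0, Z.Nonempty → 2 ≤ (G.cut Z).card := fun Z hZ hn => by
    by_contra k
    rcases small_cut hc hC n1 (hZ.trans hv) hn (by omega) with ⟨l, k3, k4⟩ | k3 | ⟨l, k3, k4⟩
    · exact hl l (hZ (k4 ▸ mem_singleton_self l)) k3
    · exact x2 (hZ (k3 ▸ x1))
    · exact x3 (mem_singleton.1 (k4 ▸ mem_sdiff.2 ⟨x1, fun k => x2 (hZ k)⟩) ▸ k3)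
  have h2 : ∀ Z ⊆ W0, Z.Nonempty → 3 ≤ (G.cut Z).card := by
    by_contra h
    push Not at h
    obtain ⟨X, hX, hm⟩ := exists_min_image
      (W0.powerset.filter fun X : Finset V => (G.cut X).card = 2) card
      (h.imp fun X ⟨k1, k2, k3⟩ => mem_filter.2 ⟨mem_powerset.2 k1, by
        have := h1 X k1 k2
        omega⟩)
    obtain ⟨hW, h4⟩ := mem_filter.1 hX
    rw [mem_powerset] at hW
    have h3 : ∀ Y ⊂ X, Y.Nonempty → 3 ≤ (G.cut Y).card := fun Y hY hn => by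
      have k1 : (G.cut Y).card ≠ 2 := fun k => (card_lt_card hY).not_ge
        (hm Y (mem_filter.2 ⟨mem_powerset.2 (hY.1.trans hW), k⟩))
      have := h1 Y (hY.1.trans hW) hn
      omega
    have h5 := deg_sum hc (hW.trans hv)
    have h6 : X.card ≠ 2 := fun k => by
      obtain ⟨y, hy⟩ := card_pos.1 (show 0 < X.card by omega)
      exact (hP y (hW hy)).2 (.inr ⟨X, AStepA_dg k (fun l k' => hl l (hW k')) (n2 X h4) h4, hy⟩)
    obtain ⟨a, ha⟩ := card_pos.1 (show 0 < (G.cut X).card by omega)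
    have k0 : ({G.ie X a} : Finset V) ⊆ X := singleton_subset_iff.2 (ie_mem (cut_sub_tch ha))
    have k1 := cut_add (G := G) k0
    have k2 := deg_sum hc (k0.trans (hW.trans hv))
    have k3 := card_sdiff_add_card_eq_card k0
    have k4 := card_sdiff_add_card_inter (G.cut {G.ie X a}) (G.cut X)
    have k5 := card_pos.2 ⟨a, Cut_ie ha rfl⟩
    have k6 : X \ {G.ie X a} ⊂ X := sdiff_ssubset k0 (singleton_nonempty _)
    rw [crs_ins k0] at k1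
    rw [card_singleton] at k2 k3
    have k7 := h3 _ k6 (card_pos.1 (by omega))
    obtain ⟨T, t1, t2, -⟩ := AStepB_min n3 (k6.1.trans (hW.trans hv))
      (fun Y hY hn => h3 Y (Finset.ssubset_of_subset_of_ssubset hY k6) hn) (by omega) (by omega)
    exact h0 T (t1.trans (k6.1.trans hW)) t2
  refine fun Z hZ hn => ⟨h2 Z hZ hn, fun h3 => ?_⟩
  by_contra k
  obtain ⟨T, t1, t2, -⟩ := AStepB_min n3 (hZ.trans hv) (fun Y hY => h2 Y (hY.trans hZ)) h3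
    (AStepB_two h3 k)
  exact h0 T (t1.trans hZ) t2

/-- the edges from the part of `Z` in `T` to the rest of `Z` -/
theorem THs_link {e : E} (he : e ∈ G.cut (Z ∩ T) \ G.cut Z) :
    e ∈ G.cut (Z ∩ T) ∩ G.cut T ∧ G.oe T e ∈ Z \ T := by
  have h1 : e ∈ G.cut T := by
    simp only [mem_sdiff, mem_cut, mem_inter] at he ⊢
    tauto
  refine ⟨mem_inter.2 ⟨(mem_sdiff.1 he).1, h1⟩, mem_sdiff.2 ⟨?_, oe_not_mem h1⟩⟩
  simp only [mem_sdiff, mem_cut, mem_inter] at he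
  unfold oe
  split_ifs <;> tauto

/-- counting the edges at the part of `Z` in `T`: `c` edges inside `T`, `a` leaving edges of `T`,
`b` of them inside `Z` -/
theorem THs_cnt (hT : G.T7 T) {e1 : E} (h1 : e1 ∈ G.cut T) (h2 : G.ie T e1 ∉ Z)
    (hn : (Z ∩ T).Nonempty) : ∃ a b c : ℕ, c = (G.cut (Z ∩ T) \ G.cut T).card ∧
      b = (G.crs (G.ins Z) (Z ∩ T)).card ∧ 2 ≤ c ∧ b ≤ a ∧ a ≤ 2 ∧
      (G.cut Z).card + 2 * b = c + a + (G.cut (Z \ T)).card ∧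
      (G.cut (T \ Z)).card + a = 3 + c ∧ ((Z \ T).card = 1 → b ≤ 1) := by
  have m1 : G.ie T e1 ∈ T := ie_mem (cut_sub_tch h1)
  have k1 := cut_add (G := G) (inter_subset_left (s₁ := Z) (s₂ := T))
  have k2 := cut_add (G := G) (inter_subset_right (s₁ := Z) (s₂ := T))
  have k3 := hT.1.1.f3' hT.1.2.1 (Z ∩ T) inter_subset_right hn fun k =>
    h2 (mem_inter.1 (k.ge m1)).1
  have k4 := card_sdiff_add_card_inter (G.cut (Z ∩ T)) (G.cut T)
  have k5 : (G.cut (Z ∩ T) ∩ G.cut T).card ≤ ((G.cut T).erase e1).card :=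
    card_le_card fun e he => mem_erase.2 ⟨fun k => h2 (by
      have k6 := (cut_of_sub inter_subset_right h1 (k ▸ cut_sub_tch (mem_inter.1 he).1)).2
      exact (mem_inter.1 (k6 ▸ ie_mem (k ▸ cut_sub_tch (mem_inter.1 he).1))).1),
      (mem_inter.1 he).2⟩
  have k6 := hT.1.2.1
  rw [card_erase_of_mem h1] at k5
  rw [sdiff_inter_self_left] at k1
  rw [sdiff_inter_self_right] at k2
  rw [crs_ins inter_subset_right] at k2 k3
  refine ⟨(G.cut (Z ∩ T) ∩ G.cut T).card, _, _, rfl, rfl, k3, ?_, by omega, by omega, by omega,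
    fun k => ?_⟩
  · rw [crs_ins inter_subset_left]
    exact card_le_card fun e he => (THs_link he).1
  · rw [crs_ins inter_subset_left]
    obtain ⟨s, hs⟩ := card_eq_one.1 k
    refine card_le_one.2 fun e he f hf => ?_
    obtain ⟨a1, a2⟩ := THs_link he
    obtain ⟨a3, a4⟩ := THs_link hf
    rw [hs, mem_singleton] at a2 a4
    exact hT.2 e (mem_inter.1 a1).2 f (mem_inter.1 a3).2 (a2.trans a4.symm)

/-- the strict condition for sets that miss one terminal of every three-side -/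
theorem ths (h0 : G.HS W0) (hT : ∀ T ∈ Td, G.T7 T) (hX : X ⊆ W0 ∪ Td.biUnion id)
    (h1 : ∀ T ∈ Td, ∃ e ∈ G.cut T, G.ie T e ∉ X) : G.HS X := by
  induction Td using Finset.induction_on generalizing X with
  | empty => exact h0.sub (by simpa using hX)
  | insert T Td _ ih =>
    have h2 : G.HS (X \ T) := ih (fun T' k => hT T' (mem_insert_of_mem k))
      (fun v hv => by
        have := hX (mem_sdiff.1 hv).1
        have k := (mem_sdiff.1 hv).2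
        simp only [biUnion_insert, mem_union, id] at this ⊢
        tauto)
      fun T' k => (h1 T' (mem_insert_of_mem k)).imp fun e he =>
        ⟨he.1, fun k' => he.2 (mem_sdiff.1 k').1⟩
    obtain ⟨e1, a1, a2⟩ := h1 T (mem_insert_self _ _)
    have t := hT T (mem_insert_self _ _)
    intro Z hZ hn
    have a3 : G.ie T e1 ∉ Z := fun k => a2 (hZ k)
    by_cases c1 : Z ⊆ T
    · obtain ⟨k1, k2⟩ := t.1.1 Z c1 hn
      exact ⟨k1, fun k => (k2 k).resolve_right fun k3 => a3 (k3.ge (ie_mem (cut_sub_tch a1)))⟩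
    by_cases c2 : (Z ∩ T).Nonempty
    · obtain ⟨a, b, c, -, -, k1, k2, k3, k4, -, k5⟩ := THs_cnt t a1 a3 c2
      obtain ⟨k6, k7⟩ := h2 (Z \ T) (sdiff_subset_sdiff hZ subset_rfl) (sdiff_nonempty.2 c1)
      have : 4 ≤ (G.cut Z).card := by
        by_contra k
        have := k5 (k7 (by omega))
        omega
      exact ⟨by omega, fun k => by omega⟩
    · exact h2 Z (fun v hv => mem_sdiff.2 ⟨hZ hv, fun k => c2 ⟨v, mem_inter.2 ⟨hv, k⟩⟩⟩) hn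

/-- nonempty subsets of `Y` have two leaving edges -/
theorem two_Y (hc : G.Cub) (hC : G.Con) (n1 : G.N1) (hY : Y ⊆ G.vs G.A)
    (hl : ∀ v ∈ Y, ¬ G.Lv v) (h : (∃ x ∈ G.vs G.A, x ∉ Y ∧ ¬ G.Lv x) ∨ ∃ e, G.Bri Y e) :
    ∀ K ⊆ Y, K.Nonempty → 2 ≤ (G.cut K).card := by
  have h1 : ∀ K ⊆ Y, K.Nonempty → (G.cut K).card ≤ 1 →
      ∀ x ∈ G.vs G.A, ¬ G.Lv x → x ∈ K := fun K hK hn k x x1 x2 => by
    rcases small_cut hc hC n1 (hK.trans hY) hn k with ⟨l, k3, k4⟩ | k3 | ⟨l, k3, k4⟩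
    · exact absurd k3 (hl l (hK (k4 ▸ mem_singleton_self l)))
    · exact k3 ▸ x1
    · by_contra k5
      exact x2 (mem_singleton.1 (k4 ▸ mem_sdiff.2 ⟨x1, k5⟩) ▸ k3)
  intro K hK hn
  by_contra k
  have h2 := h1 K hK hn (by omega)
  rcases h with ⟨x, x1, x2, x3⟩ | ⟨e, X, hX, he⟩
  · exact x2 (hK (h2 x x1 x3))
  obtain rfl : K = Y := hK.antisymm fun v hv => h2 v (hY hv) (hl v hv)
  have k1 := cut_add (G := G) hX
  have k2 : e ∈ G.crs (G.ins K) X := he ▸ mem_singleton_self e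
  obtain ⟨k3, k4⟩ := mem_crs.1 k2
  obtain ⟨-, k5, k6⟩ := mem_ins.1 k3
  rw [he, card_singleton] at k1
  obtain ⟨u, u1, v, v1⟩ : ∃ u ∈ X, ∃ v, v ∈ K \ X := by
    by_cases k7 : G.s e ∈ X
    · exact ⟨_, k7, _, mem_sdiff.2 ⟨k6, by tauto⟩⟩
    · exact ⟨G.t e, by tauto, _, mem_sdiff.2 ⟨k5, k7⟩⟩
  have v2 := (mem_sdiff.1 v1).1
  by_cases k7 : (G.cut X).card ≤ 1
  · exact (mem_sdiff.1 v1).2 (h1 X hX ⟨u, u1⟩ k7 v (hY v2) (hl v v2))
  · exact (mem_sdiff.1 (h1 (K \ X) sdiff_subset ⟨v, v1⟩ (by omega) u (hY (hX u1))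
      (hl u (hX u1)))).2 u1

end SG

end Pool.Agent.Work.MP_8c679b_co
end

-- merged part: Pool.Agent.Work.MP_8c679b_co.Top.TFam
section
/-!
The set-up of the base case with three-sides.
-/

set_option autoImplicit false

namespace Pool.Agent.Work.MP_8c679b_co

open Finset

namespace SG

variable {V E : Type} [Fintype V] [DecidableEq V] [DecidableEq E] {G : SG V E}
  {W0 T N : Finset V} {Td TN D : Finset (Finset V)} {ex : Finset V → E}

variable (G) in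
/-- the set-up: `W0` is the region, `Td` the three-sides next to a digon, `TN` the other
three-sides, `D` the digons -/
structure Tsu (W0 : Finset V) (Td TN D : Finset (Finset V)) (ex : Finset V → E) : Prop where
  hs : G.HS W0
  pf : G.PF (W0 ∪ Td.biUnion id)
  t3 : ∀ T ∈ Td ∪ TN, G.PF T ∧ G.T3 T ∧ Disjoint T W0
  pd : PD (Td ∪ TN)
  dj : Disjoint Td TN
  ne : (Td ∪ TN).Nonempty
  dg : ∀ N, N ∈ D ↔ G.Dg N
  po : ∀ N ∈ D, G.cut N ⊆ G.cut (W0 ∪ Td.biUnion id)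
  ex : ∀ T ∈ Td, ex T ∈ G.cut T ∧ ex T ∈ G.ends D
  tn : ∀ T ∈ TN, Disjoint (G.cut T) (G.ends D)
  lv : ∀ l, G.Lv l → ∀ e ∈ G.cut {l}, e ∈ G.cut (W0 ∪ Td.biUnion id) ∨ e ∈ G.ends TN
  cov : ∀ v ∈ G.vs G.A, ¬ G.Pt v → v ∈ W0 ∪ Td.biUnion id ∨ ∃ T ∈ TN, v ∈ T

theorem T3.ne (h : G.T3 T) : T.Nonempty := by
  obtain ⟨e, he⟩ := card_pos.1 (by rw [h.2.1]; omega : 0 < (G.cut T).card)
  exact ⟨_, ie_mem (cut_sub_tch he)⟩

theorem PF.po (h : G.PF T) (hN : G.Po N) : Disjoint N T :=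
  disjoint_left.2 fun v k1 k2 => (h v k2).2 (pt_iff.2 ⟨N, hN, k1⟩)

/-- a maximal family of disjoint port-free three-sides -/
theorem fam_max (hT : ∃ T, G.PF T ∧ G.T3 T) : ∃ TT : Finset (Finset V), TT.Nonempty ∧ PD TT ∧
    (∀ T ∈ TT, G.PF T ∧ G.T3 T) ∧ ∀ T, G.PF T → G.T3 T → ∃ T' ∈ TT, ¬ Disjoint T T' := by
  classical
  obtain ⟨TT, h1, hmax⟩ := exists_max_image (univ.filter fun TT : Finset (Finset V) =>
    PD TT ∧ ∀ T ∈ TT, G.PF T ∧ G.T3 T) card ⟨∅, by simp [PD]⟩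
  obtain ⟨h1, h2⟩ := (mem_filter.1 h1).2
  have key : ∀ T, G.PF T → G.T3 T → ∃ T' ∈ TT, ¬ Disjoint T T' := fun T a b => by
    by_contra k
    have k1 : ∀ T' ∈ TT, Disjoint T T' := fun T' q => by_contra fun z => k ⟨T', q, z⟩
    have k2 : T ∉ TT := fun q => b.ne.ne_empty (disjoint_self.1 (k1 T q))
    have := hmax (insert T TT) (mem_filter.2 ⟨mem_univ _, fun X x1 Z z1 hne => ?_,
      forall_mem_insert _ _ _ |>.2 ⟨⟨a, b⟩, h2⟩⟩)
    · rw [card_insert_of_notMem k2] at this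
      omega
    rcases mem_insert.1 x1 with rfl | x2 <;> rcases mem_insert.1 z1 with rfl | z2
    exacts [absurd rfl hne, k1 Z z2, (k1 X x2).symm, h1 X x2 Z z2 hne]
  obtain ⟨T, a, b⟩ := hT
  obtain ⟨T', c, -⟩ := key T a b
  exact ⟨TT, ⟨T', c⟩, h1, h2, key⟩

theorem ts_exists (hc : G.Cub) (hC : G.Con) (n1 : G.N1) (n2 : G.N2) (n3 : G.N3) (n5 : G.N5)
    (hT : ∃ T, G.PF T ∧ G.T3 T) : ∃ W0 Td TN D ex, G.Tsu W0 Td TN D ex := by
  classical
  obtain ⟨TT, ⟨T0, h0⟩, h1, h2, h3⟩ := fam_max hT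
  obtain ⟨D, hD⟩ : ∃ D : Finset (Finset V), ∀ N, N ∈ D ↔ G.Dg N :=
    ⟨univ.filter G.Dg, fun _ => by simp⟩
  obtain ⟨W0, hm⟩ : ∃ W0 : Finset V, ∀ v, v ∈ W0 ↔ v ∈ G.vs G.A ∧ ¬ G.Pt v ∧ ∀ T ∈ TT, v ∉ T :=
    ⟨(G.vs G.A).filter fun v => ¬ G.Pt v ∧ ∀ T ∈ TT, v ∉ T, fun _ => mem_filter⟩
  obtain ⟨e0, -⟩ := card_pos.1 (by rw [(h2 T0 h0).2.2.1]; omega : 0 < (G.cut T0).card)
  have : Nonempty E := ⟨e0⟩
  obtain ⟨Td, hd⟩ : ∃ Td : Finset (Finset V), ∀ T, T ∈ Td ↔ T ∈ TT ∧ ∃ e ∈ G.cut T, e ∈ G.ends D :=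
    ⟨TT.filter fun T => ∃ e ∈ G.cut T, e ∈ G.ends D, fun _ => mem_filter⟩
  have hs : Td ⊆ TT := fun T k => ((hd T).1 k).1
  have hu : Td ∪ TT \ Td = TT := union_sdiff_of_subset hs
  choose! ex x1 x2 using fun T k => ((hd T).1 k).2
  have pf : G.PF (W0 ∪ Td.biUnion id) := fun v hv => by
    rcases mem_union.1 hv with k | k
    · exact ⟨((hm v).1 k).1, ((hm v).1 k).2.1⟩
    · obtain ⟨T, a, b⟩ := mem_biUnion.1 k
      exact (h2 T (hs a)).1 v b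
  have cov : ∀ v ∈ G.vs G.A, ¬ G.Pt v → v ∈ W0 ∪ Td.biUnion id ∨ ∃ T ∈ TT \ Td, v ∈ T :=
    fun v a b => by
      by_cases k : ∃ T ∈ TT, v ∈ T
      · obtain ⟨T, c, d⟩ := k
        by_cases q : T ∈ Td
        · exact Or.inl (mem_union_right _ (mem_biUnion.2 ⟨T, q, d⟩))
        · exact Or.inr ⟨T, mem_sdiff.2 ⟨c, q⟩, d⟩
      · exact Or.inl (mem_union_left _ ((hm v).2 ⟨a, b, fun T c d => k ⟨T, c, d⟩⟩))
  have po : ∀ N, G.Po N → ∀ e ∈ G.cut N, e ∈ G.cut (W0 ∪ Td.biUnion id) ∨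
      ∃ T ∈ TT \ Td, e ∈ G.cut T := fun N hN e he => by
    have a := mem_filter.1 ((SpSet_port hc n5 (T := (G.vs G.A).filter fun v => ¬ G.Pt v)
      (fun _ => mem_filter) hN).2 e he).1
    have b : ∀ X, G.PF X → G.oe N e ∈ X → e ∈ G.cut X := fun X c d =>
      (Ab_link (c.po hN) (cut_sub_tch he) (Cut_tch (mem_cut.1 he).1 oe_at d)).2
    exact (cov _ a.1 a.2).imp (b _ pf) fun ⟨T, c, d⟩ => ⟨T, c, b T (h2 T (mem_sdiff.1 c).1).1 d⟩
  have tn : ∀ T ∈ TT \ Td, Disjoint (G.cut T) (G.ends D) := fun T k =>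
    disjoint_left.2 fun e a b => (mem_sdiff.1 k).2 ((hd T).2 ⟨(mem_sdiff.1 k).1, e, a, b⟩)
  refine ⟨W0, Td, TT \ Td, D, ex, ths0 hc hC n1 n2 n3 (fun v k => pf v (mem_union_left _ k))
    (fun T a b => ?_) ?_, pf, hu.symm ▸ fun T k => ⟨(h2 T k).1, (h2 T k).2,
      disjoint_left.2 fun v a b => ((hm v).1 b).2.2 T k a⟩, hu.symm ▸ h1, disjoint_sdiff,
    hu.symm ▸ ⟨T0, h0⟩, hD, fun N k e he => ?_, fun T k => ⟨x1 T k, x2 T k⟩, tn,
    fun l k e he => ?_, cov⟩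
  · obtain ⟨T', c, d⟩ := h3 T (fun v k => pf v (mem_union_left _ (a k))) b
    exact d (disjoint_left.2 fun v p q => ((hm v).1 (a p)).2.2 T' c q)
  · obtain ⟨x, hx⟩ := (h2 T0 h0).2.ne
    exact ⟨x, ((h2 T0 h0).1 x hx).1, fun k => ((hm x).1 k).2.2 T0 h0 hx,
      fun k => ((h2 T0 h0).1 x hx).2 (Or.inl k)⟩
  · exact (po N (Or.inr ((hD N).1 k)) e he).resolve_right fun ⟨T, c, d⟩ =>
      disjoint_left.1 (tn T c) d (mem_biUnion.2 ⟨N, k, he⟩)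
  · exact (po _ (Or.inl ⟨l, k, rfl⟩) e he).imp_right fun ⟨T, c, d⟩ => mem_biUnion.2 ⟨T, c, d⟩

end SG

end Pool.Agent.Work.MP_8c679b_co
end

-- merged part: Pool.Agent.Work.MP_8c679b_co.Top.TDl
section
/-!
The deficiency condition of the lifting layer.
-/

set_option autoImplicit false

namespace Pool.Agent.Work.MP_8c679b_co

open Finset

namespace SG

variable {V E : Type} [Fintype V] [DecidableEq V] [DecidableEq E] {G : SG V E}
  {K T W W0 Y : Finset V} {Td Φ : Finset (Finset V)} {O M : Finset E} {φ : E → ZMod 3}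
  {g : E → ℤ}

/-- an edge off `O` of weight four and a second leaving edge -/
theorem TDl_four (hOA : O ⊆ G.A) (hO : ∀ v ∈ K, G.dg O v = 0)
    (hφ : ∀ e ∈ G.cut K, e ∉ O → φ e ≠ 0) (h2 : 2 ≤ (G.cut K).card) (hd : G.Df O φ K g)
    (w : E → ℕ) {c : E} (h1 : c ∈ G.cut K) (h3 : c ∉ O) (h4 : w c = 4) :
    6 ≤ ∑ e ∈ G.cut K, max |g e| (w e : ℤ) := by
  have k1 := (hd.even hOA hO).two_dvd
  have k2 : (2 : ℤ) ∣ |g c| := (dvd_abs _ _).2
    (Int.not_odd_iff_even.1 fun k => h3 ((hd.1 c h1).2.1.1 k)).two_dvd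
  have k3 : (((G.cut K).erase c).card : ℤ) ≤ ∑ e ∈ (G.cut K).erase c, |g e| := by
    rw [cast_card]
    exact sum_le_sum fun e he => Int.one_le_abs
      ((hd.1 e (mem_of_mem_erase he)).ne_zero (hφ e (mem_of_mem_erase he)))
  have k4 : ∑ e ∈ (G.cut K).erase c, |g e| ≤ ∑ e ∈ (G.cut K).erase c, max |g e| (w e : ℤ) :=
    sum_le_sum fun e _ => le_max_left _ _
  have k5 := le_max_right |g c| (w c : ℤ)
  have k6 := card_erase_add_one h1
  rw [← add_sum_erase _ _ h1] at k1 ⊢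
  omega

/-- an edge of weight three and three more leaving edges -/
theorem TDl_three (hφ : ∀ e ∈ G.cut K, e ∉ O → φ e ≠ 0) (h2 : (G.cut K).card = 4)
    (hd : G.Df O φ K g) (w : E → ℕ) {c : E} (h1 : c ∈ G.cut K) (h4 : w c = 3) :
    6 ≤ ∑ e ∈ G.cut K, max |g e| (w e : ℤ) := by
  have k3 : (((G.cut K).erase c).card : ℤ) ≤ ∑ e ∈ (G.cut K).erase c, max |g e| (w e : ℤ) := by
    rw [cast_card]
    exact sum_le_sum fun e he => (Int.one_le_abs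
      ((hd.1 e (mem_of_mem_erase he)).ne_zero (hφ e (mem_of_mem_erase he)))).trans
      (le_max_left _ _)
  have k5 := le_max_right |g c| (w c : ℤ)
  have k6 := card_erase_add_one h1
  rw [← add_sum_erase _ _ h1]
  omega

/-- a deficient set that misses one terminal of every three-side is an unhit side of `W0` -/
theorem TDl_def (hc : G.Cub) (h0 : G.HS W0) (hT : ∀ T ∈ Td, G.T7 T)
    (hk : ∀ T ∈ Td, (∀ S ⊆ T, G.US S → ∃ e ∈ G.cut S, e ∉ O ∨ φ e = 0) ∧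
      ∃ e1 ∈ G.cut T, e1 ∈ G.cut (W0 ∪ Td.biUnion id) ∧
        ∃ e ∈ G.cut {G.ie T e1}, e ≠ e1 ∧ (e ∉ O ∨ φ e = 0))
    (hK : K ⊆ W0 ∪ Td.biUnion id) (h1 : ∀ T ∈ Td, ∃ e ∈ G.cut T, G.ie T e ∉ K) (hn : K.Nonempty)
    (hOA : O ⊆ G.A) (hO : ∀ v ∈ K, G.dg O v = 0) (hφ : G.Sl K O ∅ φ) (hd : G.Df O φ K g) :
    6 ≤ ∑ e ∈ G.cut K, |g e| ∨ (K ⊆ W0 ∧ G.US K ∧ ¬ ∃ e ∈ G.cut K, e ∉ O ∨ φ e = 0) := by
  by_cases hB : G.Bal (G.ins K)
  · exact Or.inl (hd.bal hOA hO hφ.1 hB)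
  have hs := ths h0 hT hK h1
  have h2 := fun e he => hφ.2.1 e (cut_sub_tch he)
  obtain ⟨h3, h4⟩ := hs K subset_rfl hn
  have h5 : (G.cut K).card ≠ 3 := fun k => by
    obtain ⟨v, rfl⟩ := card_eq_one.1 (h4 k)
    exact hB ((hs.ht.vtx hc (mem_singleton_self v)).2.1 ▸ ⟨0, fun e he => by simp at he⟩)
  by_cases h6 : (G.cut K).card = 4
  swap
  · exact Or.inl (hd.five hOA hO h2 (by omega))
  by_cases hit : ∃ e ∈ G.cut K, e ∉ O ∨ φ e = 0
  · exact Or.inl (hd.hit hOA hO h2 h6.ge hit)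
  refine Or.inr ⟨fun v hv => (mem_union.1 (hK hv)).resolve_right fun k => hit ?_, ⟨h6, hB⟩, hit⟩
  obtain ⟨T, t1, t2⟩ := mem_biUnion.1 k
  have t := hT T t1
  have hT1 : T ⊆ W0 ∪ Td.biUnion id := (subset_biUnion_of_mem id t1).trans subset_union_right
  by_cases c1 : K ⊆ T
  · exact (hk T t1).1 K c1 ⟨h6, hB⟩
  obtain ⟨d, d1, d2⟩ := h1 T t1
  have c2 : (K ∩ T).Nonempty := ⟨v, mem_inter.2 ⟨hv, t2⟩⟩
  obtain ⟨a, b, c, ea, eb, k1, k2, k3, k4, k5, k6⟩ := THs_cnt t d1 d2 c2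
  obtain ⟨k7, k8⟩ := hs (K \ T) sdiff_subset (sdiff_nonempty.2 c1)
  have k9 : 2 ≤ b := eb ▸ hs.ht.f3 subset_rfl h6
    (by have := hs.ht.us_card hc subset_rfl ⟨h6, hB⟩; omega) (K ∩ T) inter_subset_left c2
    fun k => c1 (inter_eq_left.1 k)
  have k10 : (G.cut (K \ T)).card ≠ 3 := fun k => by
    have := k6 (k8 k)
    omega
  have m1 : G.ie T d ∈ T \ K := mem_sdiff.2 ⟨ie_mem (cut_sub_tch d1), d2⟩
  have k11 : (T \ K).card = 1 := ((t.1.1 (T \ K) sdiff_subset ⟨_, m1⟩).2 (by omega)).resolve_right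
    fun k => (mem_sdiff.1 (k.ge t2)).2 hv
  obtain ⟨e1, a1, a2, e, a3, a4, a5⟩ := (hk T t1).2
  have m2 : G.ie T e1 ∈ T := ie_mem (cut_sub_tch a1)
  have m3 : G.ie T e1 ∉ K := fun k => by
    have b1 : e1 ∈ G.cut K := (cut_of_sub hK a2 (Cut_tch (mem_cut.1 a1).1 ie_at k)).1
    have b2 : e1 ∈ G.cut (K ∩ T) := (cut_of_sub inter_subset_right a1
      (Cut_tch (mem_cut.1 a1).1 ie_at (mem_inter.2 ⟨k, m2⟩))).1
    have b3 : e1 ≠ d := fun k' => d2 (k' ▸ k)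
    have b4 : (G.crs (G.ins K) (K ∩ T)).card ≤ (((G.cut T).erase d).erase e1).card :=
      card_le_card fun f hf => by
        rw [crs_ins inter_subset_left] at hf
        obtain ⟨b5, b6⟩ := mem_inter.1 (THs_link hf).1
        refine mem_erase.2 ⟨fun k' => (mem_sdiff.1 hf).2 (k' ▸ b1), mem_erase.2 ⟨fun k' => d2 ?_, b6⟩⟩
        have b7 := (cut_of_sub inter_subset_right b6 (cut_sub_tch b5)).2
        exact (mem_inter.1 (k' ▸ b7 ▸ ie_mem (cut_sub_tch b5))).1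
    rw [card_erase_of_mem (mem_erase.2 ⟨b3, a1⟩), card_erase_of_mem d1, t.1.2.1] at b4
    omega
  refine ⟨e, ?_, a5⟩
  have m4 : G.ie T e1 = G.ie {G.ie T e1} e := (mem_singleton.1 (ie_mem (cut_sub_tch a3))).symm
  have m5 : e ∉ G.cut T := fun k' => t.1.1.f2' hc t.1.2.1
    (one_lt_card.2 ⟨v, t2, _, m2, fun k => m3 (k ▸ hv)⟩) k' a1 a4
    ((cut_of_sub (singleton_subset_iff.2 m2) k' (cut_sub_tch a3)).2.symm.trans m4.symm)
  obtain ⟨x, hx⟩ := card_eq_one.1 k11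
  have m6 : G.ie T e1 = x := mem_singleton.1 (hx ▸ mem_sdiff.2 ⟨m2, m3⟩)
  have m7 : ∀ y ∈ T, y ∈ K ↔ y ≠ x := fun y hy => by
    rw [Ne, ← mem_singleton, ← hx, mem_sdiff]
    grind
  have m8 : x ∈ T := m6 ▸ m2
  rw [m6] at a3
  simp only [mem_cut, mem_singleton] at a3 m5 ⊢
  have m9 : G.s e ∈ T ∧ G.t e ∈ T := by
    by_cases k : G.s e = x
    · have : G.s e ∈ T := k ▸ m8
      grind
    · have k' : G.t e = x := by grind
      have : G.t e ∈ T := k' ▸ m8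
      grind
  rw [m7 _ m9.1, m7 _ m9.2]
  grind

/-- a two-edge-connected set does not leave a set all of whose leaving edges are bridges -/
theorem TDl_sub {N : Finset V} (hW : W ⊆ Y) (h2 : G.Two W (G.ins W))
    (hN : ∀ e ∈ G.cut N, G.Bri Y e) {v : V} (h1 : v ∈ W) (h3 : v ∈ N) : W ⊆ N := by
  by_contra h5
  have h6 := h2 (W ∩ N) inter_subset_left ⟨v, mem_inter.2 ⟨h1, h3⟩⟩
    fun a => h5 (inter_eq_left.1 a)
  obtain ⟨e, he⟩ : (G.crs (G.ins W) (W ∩ N)).Nonempty := card_pos.1 (by omega)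
  obtain ⟨a1, a2⟩ := mem_crs.1 he
  refine SpFin_nobri hW h2 a1 (hN e (mem_cut.2 ⟨ins_sub_A a1, ?_⟩))
  obtain ⟨-, a3, a4⟩ := mem_ins.1 a1
  simp only [mem_inter] at a2
  grind

/-- a set with at most two leaving edges has no edge in `M` -/
theorem TDl_cut (hc : G.Cub) (h0 : G.HS W0) (hT : ∀ T ∈ Td, G.T7 T)
    (hd : ∀ T ∈ Td, ∃ d ∈ G.cut T, d ∈ G.cut (W0 ∪ Td.biUnion id) ∧ d ∉ M)
    (hW : W ⊆ W0 ∪ Td.biUnion id) (hn : W.Nonempty) :
    3 ≤ (G.cut W).card ∨ Disjoint (G.cut W) M := by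
  by_contra h
  rw [not_or, not_disjoint_iff] at h
  obtain ⟨h3, u, u1, u2⟩ := h
  have : Nonempty E := ⟨u⟩
  choose! d d1 d2 d3 using hd
  have k1 : ∀ T ∈ Td, G.ie T (d T) ∈ W → d T ∈ G.cut W ∧ G.ie W (d T) = G.ie T (d T) :=
    fun T t1 k => by
      have a := (cut_of_sub hW (d2 T t1) (Cut_tch (mem_cut.1 (d1 T t1)).1 ie_at k)).1
      exact ⟨a, (eq_ie a k ie_at).symm⟩
  obtain ⟨T, t1, t2⟩ : ∃ T ∈ Td, G.ie T (d T) ∈ W := by
    by_contra k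
    push Not at k
    exact h3 (ths h0 hT hW (fun T t1 => ⟨_, d1 T t1, k T t1⟩) W subset_rfl hn).1
  have t := hT T t1
  have m1 : G.ie T (d T) ∈ T := ie_mem (cut_sub_tch (d1 T t1))
  have hs : G.HS (W \ {G.ie T (d T)}) := ths h0 hT (sdiff_subset.trans hW) fun T' t3 =>
    ⟨_, d1 T' t3, fun k => by
      obtain ⟨k2, k3⟩ := mem_sdiff.1 k
      by_cases k4 : d T' = d T
      · exact k3 (mem_singleton.2 (by rw [← (k1 T' t3 k2).2, ← (k1 T t1 t2).2, k4]))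
      · exact h3 (two_lt_card_iff.2 ⟨u, d T, d T', u1, (k1 T t1 t2).1, (k1 T' t3 k2).1,
          fun k5 => d3 T t1 (k5 ▸ u2), fun k5 => d3 T' t3 (k5 ▸ u2), Ne.symm k4⟩)⟩
  have k0 : ({G.ie T (d T)} : Finset V) ⊆ W := singleton_subset_iff.2 t2
  have k2 := cut_add (G := G) k0
  have k3 := (t.1.1.vtx hc m1).1
  have k4 := card_sdiff_add_card_inter (G.cut {G.ie T (d T)}) (G.cut W)
  have k5 := card_pos.2 ⟨_, Cut_ie (k1 T t1 t2).1 (k1 T t1 t2).2⟩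
  rw [crs_ins k0] at k2
  obtain ⟨k6, k7⟩ := hs _ subset_rfl (by
    rw [sdiff_nonempty]
    intro k
    rw [k.antisymm k0] at h3
    omega)
  obtain ⟨s, hs'⟩ := card_eq_one.1 (k7 (by omega))
  obtain ⟨f, hf⟩ := card_pos.1 (show 0 < (G.cut {G.ie T (d T)} \ G.cut W).card by omega)
  obtain ⟨f1, f2⟩ := mem_sdiff.1 hf
  have f3 : f ∉ G.cut T := fun k => t.1.1.f2' hc t.1.2.1
    (by
      have a1 := t.1.1.par hc subset_rfl
      have a2 := card_pos.2 ⟨_, m1⟩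
      by_contra a3
      obtain ⟨x, rfl⟩ := card_eq_one.1 (show T.card = 1 by omega)
      exact t.1.2.2 ((t.1.1.vtx hc (mem_singleton_self x)).2.1 ▸ ⟨0, fun e he => by simp at he⟩))
    k (d1 T t1) (fun k' => f2 (k' ▸ (k1 T t1 t2).1))
    ((cut_of_sub (singleton_subset_iff.2 m1) k (cut_sub_tch f1)).2.symm.trans
      (mem_singleton.1 (ie_mem (cut_sub_tch f1))))
  have f4 : G.oe {G.ie T (d T)} f ∈ T ∧ G.oe {G.ie T (d T)} f ∈ W := by
    simp only [mem_cut, mem_singleton] at f1 f2 f3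
    unfold oe
    split_ifs with k
    · rw [mem_singleton] at k
      have a1 : G.s f ∈ T := k ▸ m1
      have a2 : G.s f ∈ W := k ▸ t2
      grind
    · rw [mem_singleton] at k
      have k' : G.t f = G.ie T (d T) := by grind
      have a1 : G.t f ∈ T := k' ▸ m1
      have a2 : G.t f ∈ W := k' ▸ t2
      grind
  have f5 : G.oe {G.ie T (d T)} f = s :=
    mem_singleton.1 (hs' ▸ mem_sdiff.2 ⟨f4.2, oe_not_mem f1⟩)
  refine h3 (t.1.1.mono3 (fun y hy => ?_) hn)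
  by_cases k : y = G.ie T (d T)
  · exact k ▸ m1
  · have : y = s := mem_singleton.1 (hs' ▸ mem_sdiff.2 ⟨hy, notMem_singleton.2 k⟩)
    exact this ▸ f5 ▸ f4.1

/-- the deficiency condition -/
theorem tdl (hc : G.Cub) (hY : Y = W0 ∪ Td.biUnion id ∪ Φ.biUnion id) (h0 : G.HS W0)
    (hT : ∀ T ∈ Td, G.T7 T)
    (hd : ∀ T ∈ Td, ∃ d ∈ G.cut T, d ∈ G.cut (W0 ∪ Td.biUnion id) ∧ d ∉ M)
    (hk : ∀ T ∈ Td, (∀ S ⊆ T, G.US S → ∃ e ∈ G.cut S, e ∉ O ∨ φ e = 0) ∧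
      ∃ e1 ∈ G.cut T, e1 ∈ G.cut (W0 ∪ Td.biUnion id) ∧
        ∃ e ∈ G.cut {G.ie T e1}, e ≠ e1 ∧ (e ∉ O ∨ φ e = 0))
    (hΦ : ∀ N ∈ Φ, G.Dg N ∧ ∀ e ∈ G.cut N, G.Bri Y e ∧ e ∉ O) (hM : M ⊆ G.cut Y)
    (h1 : ∀ e ∈ G.cut (W0 ∪ Td.biUnion id), e ∈ O → e ∈ G.cut Y)
    (h2 : ∀ K ⊆ Y, K.Nonempty → 2 ≤ (G.cut K).card) (hOA : O ⊆ G.A)
    (hO : ∀ v ∈ Y, G.dg O v = 0) (hφ : G.Sl Y O ∅ φ)
    (hR : ∀ W, G.Pc Y W → ∃ R ⊆ G.cut W ∩ O, (R.card = 2 ∨ Disjoint (G.cut W) O) ∧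
      ∀ S ⊆ W0, S ⊆ W → G.US S → G.cut S ⊆ G.ins (W0 ∪ Td.biUnion id) →
        G.cut S ⊆ G.ins W ∪ R → ∃ e ∈ G.cut S, e ∉ O ∨ φ e = 0) :
    G.DL Y O φ M := by
  intro W hW
  obtain ⟨R, r1, r2, r3⟩ := hR W hW
  obtain ⟨w1, w2, w3, -⟩ := hW
  have four : ∀ K ⊆ W, K.Nonempty → ∀ g, G.Df O φ K g → ∀ c ∈ G.cut K, c ∈ G.cut W → c ∉ O →
      c ∉ M → 6 ≤ ∑ e ∈ G.cut K, max |g e| (G.wt O M R W e : ℤ) :=
    fun K hK hn g hg c c1 c2 c3 c4 => TDl_four hOA (fun v hv => hO v (w1 (hK hv)))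
      (fun e he => hφ.2.1 e (tch_mono (hK.trans w1) (cut_sub_tch he))) (h2 K (hK.trans w1) hn) hg
      _ c1 c3 (by simp [wt, c2, c3, c4])
  by_cases hU : W ⊆ W0 ∪ Td.biUnion id
  · refine ⟨TDl_cut hc h0 hT hd hU w2, R, r1, r2, fun K hK hn h3 g hg => ?_⟩
    have hKU := hK.trans hU
    by_cases c1 : ∃ T ∈ Td, ∀ e ∈ G.cut T, G.ie T e ∈ K
    · obtain ⟨T, t1, t2⟩ := c1
      obtain ⟨d, d1, d2, d3⟩ := hd T t1
      have a1 := Cut_tch (mem_cut.1 d1).1 ie_at (t2 d d1)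
      have a2 := (cut_of_sub hKU d2 a1).1
      exact four K hK hn g hg _ a2 (cut_of_sub hU d2 (tch_mono hK a1)).1
        (fun k => h3 _ a2 (h1 _ d2 k) k) d3
    push Not at c1
    have a1 : ∀ e ∈ G.tch K, e ∉ O → φ e ≠ 0 := fun e he => hφ.2.1 e (tch_mono (hK.trans w1) he)
    rcases TDl_def hc h0 hT hk hKU c1 hn hOA
      (fun v hv => hO v (w1 (hK hv))) ⟨fun v hv => hφ.1 v (w1 (hK hv)), a1, fun _ k => k.elim⟩ hg
      with a2 | ⟨a2, a3, a4⟩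
    · exact a2.trans (sum_le_sum fun e _ => le_max_left _ _)
    have a5 : ∀ e ∈ G.cut K, e ∈ O := fun e he => by
      by_contra k
      exact a4 ⟨e, he, Or.inl k⟩
    obtain ⟨c, c2, c3⟩ := not_subset.1 fun k => a4 (r3 K a2 hK a3 (fun e he =>
      (mem_tch_iff.1 (tch_mono hKU (cut_sub_tch he))).resolve_right fun k' =>
        h3 e he (h1 e k' (a5 e he)) (a5 e he)) k)
    rw [mem_union, not_or] at c3
    have c4 := (mem_tch_iff.1 (tch_mono hK (cut_sub_tch c2))).resolve_left c3.1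
    exact TDl_three (fun e he => a1 e (cut_sub_tch he)) a3.1 hg _ c2
      (by simp [wt, c4, a5 c c2, c3.2])
  obtain ⟨v, v1, v2⟩ := not_subset.1 hU
  obtain ⟨N, n1, n2⟩ := mem_biUnion.1 ((mem_union.1 (hY ▸ w1 v1)).resolve_left v2)
  obtain ⟨n3, n4⟩ := hΦ N n1
  have n5 : W ⊆ N := TDl_sub w1 w3 (fun e he => (n4 e he).1) v1 n2
  have n6 : N ⊆ Y := hY ▸ (subset_biUnion_of_mem id n1).trans subset_union_right
  have n7 : ∀ e ∈ G.tch N, e ∉ M := fun e he k => not_ins_of_cut (hM k) (by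
    rcases mem_tch_iff.1 he with a | a
    · exact ins_mono n6 a
    · obtain ⟨X, -, hX⟩ := (n4 e a).1
      exact (mem_crs.1 (hX ▸ mem_singleton_self e)).1)
  refine ⟨Or.inr (disjoint_left.2 fun e he => n7 e (tch_mono n5 (cut_sub_tch he))), R, r1, r2,
    fun K hK hn _ g hg => ?_⟩
  obtain ⟨x, hx⟩ := id hn
  obtain ⟨c, c1, c2⟩ := SpFin_end hc n3 (n5 (hK hx))
  have c3 := Cut_tch (mem_cut.1 c1).1 c2 hx
  exact four K hK hn g hg c (cut_of_sub (hK.trans n5) c1 c3).1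
    (cut_of_sub n5 c1 (tch_mono hK c3)).1 (n4 c c1).2 (n7 c (cut_sub_tch c1))

end SG

end Pool.Agent.Work.MP_8c679b_co
end

-- merged part: Pool.Agent.Work.MP_8c679b_co.Top.TFs
section
/-!
A final state exists; the base case with three-sides.
-/

set_option autoImplicit false

namespace Pool.Agent.Work.MP_8c679b_co

open Finset

namespace SG

variable {V E : Type} [Fintype V] [DecidableEq V] [DecidableEq E] {G : SG V E}
  {W0 Y : Finset V} {Td TN D Hh : Finset (Finset V)} {ex : Finset V → E}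

theorem Tsu.dd (h : G.Tsu W0 Td TN D ex) : ∀ N ∈ D, (G.cut N).card = 2 ∧
    Disjoint N (W0 ∪ Td.biUnion id) ∧ G.cut N ⊆ G.cut (W0 ∪ Td.biUnion id) := fun N k =>
  ⟨(SpFin_two ((h.dg N).1 k)).1, h.pf.po (Or.inr ((h.dg N).1 k)), h.po N k⟩

theorem Tsu.pdd (hc : G.Cub) (h : G.Tsu W0 Td TN D ex) : PD D := fun N a N' b =>
  Po.disj hc (Or.inr ((h.dg N).1 a)) (Or.inr ((h.dg N').1 b))

/-- the position of the lifted part -/
theorem Tsu.pos (hc : G.Cub) (h : G.Tsu W0 Td TN D ex) (hH : Hh ⊆ D)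
    (hY : Y = W0 ∪ Td.biUnion id ∪ (D \ Hh).biUnion id) :
    Y ⊆ G.vs G.A ∧ (∀ v ∈ Y, ¬ G.Lv v) ∧ (∀ N ∈ TN ∪ Hh, Disjoint N Y) ∧
      G.ends Hh ⊆ G.cut Y ∧ G.cut Y ⊆ G.cut (W0 ∪ Td.biUnion id) ∧
      (∀ N ∈ D \ Hh, G.cut N ⊆ G.ins Y) ∧
      ∀ e ∈ G.cut (W0 ∪ Td.biUnion id), e ∈ G.ins Y → ∃ N ∈ D \ Hh, e ∈ G.cut N := by
  have hm : ∀ v ∈ Y, v ∈ W0 ∪ Td.biUnion id ∨ ∃ N ∈ D \ Hh, v ∈ N := fun v k =>
    (mem_union.1 (hY ▸ k)).imp_right mem_biUnion.1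
  have hU : W0 ∪ Td.biUnion id ⊆ Y := hY ▸ subset_union_left
  have hN : ∀ N ∈ D \ Hh, N ⊆ Y := fun N k =>
    hY ▸ (subset_biUnion_of_mem id k).trans subset_union_right
  have dg := fun N (k : N ∈ D \ Hh) => (h.dg N).1 (mem_sdiff.1 k).1
  have out : ∀ N ∈ TN ∪ Hh, Disjoint N Y := fun N k => disjoint_left.2 fun v a b => by
    rcases mem_union.1 k with k | k <;> rcases hm v b with c | ⟨N', c, d⟩
    · rcases mem_union.1 c with c | c
      · exact disjoint_left.1 (h.t3 N (mem_union_right _ k)).2.2 a c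
      · obtain ⟨T, c, d⟩ := mem_biUnion.1 c
        exact disjoint_left.1 (h.pd N (mem_union_right _ k) T (mem_union_left _ c)
          fun q => disjoint_left.1 h.dj c (q ▸ k)) a d
    · exact disjoint_left.1 ((h.t3 N (mem_union_right _ k)).1.po (Or.inr (dg N' c))) d a
    · exact disjoint_left.1 (h.dd N (hH k)).2.1 a c
    · exact disjoint_left.1 (h.pdd hc N (hH k) N' (mem_sdiff.1 c).1
        fun q => (mem_sdiff.1 c).2 (q ▸ k)) a d
  refine ⟨fun v k => ?_, fun v k q => ?_, out, biUnion_subset.2 fun N k e he => ?_, fun e he => ?_,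
    fun N k e he => ?_, fun e he k => ?_⟩
  · rcases hm v k with c | ⟨N, c, d⟩
    exacts [(h.pf v c).1, (SpFin_two (dg N c)).2.2 d]
  · rcases hm v k with c | ⟨N, c, d⟩
    exacts [(h.pf v c).2 (Or.inl q), Def6_lv hc q (dg N c) d]
  · exact (Ab_link (out N (mem_union_right _ k)) (cut_sub_tch he)
      (tch_mono hU (cut_sub_tch (h.po N (hH k) he)))).2
  · rcases hm _ (ie_mem (cut_sub_tch he)) with c | ⟨N, c, d⟩
    · exact (mem_tch_iff.1 (Cut_tch (mem_cut.1 he).1 ie_at c)).resolve_left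
        fun q => not_ins_of_cut he (ins_mono hU q)
    · exact h.po N (mem_sdiff.1 c).1 ((mem_tch_iff.1 (Cut_tch (mem_cut.1 he).1 ie_at d)).resolve_left
        fun q => not_ins_of_cut he (ins_mono (hN N c) q))
  · exact Quo_two (hN N k) hU (h.dd N (mem_sdiff.1 k).1).2.1 (cut_sub_tch he)
      (cut_sub_tch (h.po N (mem_sdiff.1 k).1 he))
  · obtain ⟨N, c, d⟩ := (hm _ ((sub_ins_iff.1 (Subset.rfl : G.ins Y ⊆ _)).2
      (mem_vs.2 ⟨e, k, oe_at⟩))).resolve_left (oe_not_mem he)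
    exact ⟨N, c, (Ab_link (h.dd N (mem_sdiff.1 c).1).2.1 (Cut_tch (mem_cut.1 he).1 oe_at d)
      (cut_sub_tch he)).1⟩

theorem fs_exists (hc : G.Cub) (hC : G.Con) (n1 : G.N1) (n5 : G.N5) (n7 : G.N7) (n8 : G.N8)
    (hP : G.PRes) (h : G.Tsu W0 Td TN D ex) : ∃ Y Hh O φ, G.Fs Y TN Hh O φ := by
  obtain ⟨Hh, hH, F0, j0, br⟩ := TSet_split h.dd (h.pdd hc)
  obtain ⟨Y, hY⟩ : ∃ Y, Y = W0 ∪ Td.biUnion id ∪ (D \ Hh).biUnion id := ⟨_, rfl⟩
  obtain ⟨y1, y2, y3, y4, y5, y6, y7⟩ := h.pos hc hH hY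
  rw [← hY] at br
  have hU : W0 ∪ Td.biUnion id ⊆ Y := hY ▸ subset_union_left
  have hT : ∀ T ∈ Td, T ⊆ W0 ∪ Td.biUnion id := fun T k =>
    (subset_biUnion_of_mem id k).trans subset_union_right
  have t3 := fun T (k : T ∈ Td) => h.t3 T (mem_union_left _ k)
  have t3' := fun T (k : T ∈ TN) => h.t3 T (mem_union_right _ k)
  have eD : G.ends D ⊆ G.cut (W0 ∪ Td.biUnion id) := biUnion_subset.2 h.po
  have eH : G.ends Hh ⊆ G.ends D := biUnion_subset_biUnion_of_subset_left _ hH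
  obtain ⟨R, Fm, F, f1, f2, f3, f4, f5⟩ := blk_join hc h.hs.ht (fun k => by
      obtain ⟨e, he⟩ := card_pos.1 (by omega : 0 < (G.cut W0).card)
      exact (h.hs W0 Subset.rfl ⟨_, ie_mem (cut_sub_tch he)⟩).2 k) subset_union_left hU y1
    (fun e he k => y2 _ (ie_mem he) ⟨e, Ab_tch_sub he, (ie_at (G := G)).elim id k.trans,
      (ie_at (G := G)).elim k.symm.trans id⟩)
    (fun e a b => by
      obtain ⟨N, c, d⟩ := y7 e a b
      exact br N c e d) (subset_inter (eH.trans eD) y4) j0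
  obtain ⟨O, φ, s1, s2, s3, s4, s5⟩ := hP W0 Td Hh Fm F ex ⟨h.hs.ht,
    fun T k => ⟨(t3 T k).2.1, (n8 T (t3 T k).1 (t3 T k).2.1).1, (t3 T k).2.2, (h.ex T k).1,
      eD (h.ex T k).2⟩, fun N k => ⟨(h.dg N).1 (hH k), (h.dd N (hH k)).2⟩,
    h.pd.mono subset_union_left, (h.pdd hc).mono hH, f1, f2, f3.1,
    fun v k => f3.2 v (mem_union_left _ k), fun T k => GNorm_even (union_subset
      (f3.1.trans ins_sub_A) ((eH.trans eD).trans GNorm_cutA)) fun v q => f3.2 v (hT T k q), f4,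
    fun U a ⟨x, b⟩ => nonempty_iff_ne_empty.2 fun k => by
      obtain ⟨T, c⟩ := h.ne
      obtain ⟨t1, t2, t4⟩ := h.t3 T c
      obtain ⟨z, d⟩ := t2.ne
      have u : ∀ v ∈ U, v ∈ W0 ∨ ∃ N ∈ Hh, v ∈ N := fun v q =>
        (mem_union.1 (a q)).imp_right mem_biUnion.1
      have xa : x ∈ G.vs G.A := (u x b).elim (fun q => (h.pf x (mem_union_left _ q)).1)
        fun ⟨N, p, q⟩ => (SpFin_two ((h.dg N).1 (hH p))).2.2 q
      exact (u z (Cn.sub_of_crs hC k xa b (t1 z d).1)).elim (disjoint_left.1 t4 d)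
        fun ⟨N, p, q⟩ => disjoint_left.1 (t1.po (Or.inr ((h.dg N).1 (hH p)))) q d⟩
  have k0 : ∀ e ∈ G.cut (W0 ∪ Td.biUnion id), e ∈ O ↔ e ∈ G.ends Hh := fun e he => by
    rw [← s1.2.2, mem_inter, and_iff_left he]
  have k1 : ∀ N ∈ D \ Hh, Disjoint (G.cut N) O := fun N k => disjoint_left.2 fun e a b =>
    not_ins_of_cut (y4 ((k0 e (h.po N (mem_sdiff.1 k).1 a)).1 b)) (y6 N k a)
  obtain ⟨O', φ', hOA, hO, hφ, ag⟩ := dg_fam hc ((h.pdd hc).mono (sdiff_subset (t := Hh)))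
    (fun N k => ⟨(h.dg N).1 (mem_sdiff.1 k).1, (h.dd N (mem_sdiff.1 k).1).2⟩) s1.1 s1.2.1 s2
    fun N k => Or.inr (k1 N k)
  rw [← hY] at hO hφ
  have k2 : ∀ e ∈ G.cut (W0 ∪ Td.biUnion id), e ∈ O' ↔ e ∈ G.ends Hh := fun e he =>
    (ag e (cut_sub_tch he)).1.trans (k0 e he)
  have k3 : ∀ S ⊆ W0 ∪ Td.biUnion id, ∀ e ∈ G.cut S, e ∉ O ∨ φ e = 0 → e ∉ O' ∨ φ' e = 0 :=
    fun S a e b c => by
      obtain ⟨p, q⟩ := ag e (tch_mono a (cut_sub_tch b))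
      rwa [p, q]
  have k4 : ∀ N ∈ Hh, ∀ e ∈ G.cut N, φ' e = φ e := fun N k e he =>
    (ag e (cut_sub_tch (h.po N (hH k) he))).2
  refine ⟨Y, Hh, O', φ', y1, y2, fun N a N' b hne => ?_, y3, fun v a => ?_, fun T k => ⟨(t3' T k).2.1,
    (n8 T (t3' T k).1 (t3' T k).2.1).2, fun e a b c => disjoint_left.1 (h.tn T k) a (eH ((k2 e (y5
      (Ab_link (y3 T (mem_union_left _ k)) (cut_sub_tch a) b).2)).1 c))⟩, fun N k => ?_,
    fun l k e he => (h.lv l k e he).imp_left fun a => ⟨tch_mono hU (cut_sub_tch a), fun b => ?_⟩,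
    hOA, hO, hφ, tdl hc hY h.hs (fun T k => n7.t7 (t3 T k).1 (t3 T k).2.1)
      (fun T k => ⟨_, (h.ex T k).1, eD (h.ex T k).2, fun a => ?_⟩) (fun T k => ?_)
      (fun N k => ⟨(h.dg N).1 (mem_sdiff.1 k).1, fun e he => ⟨br N k e he, fun a =>
        not_ins_of_cut (y4 ((k2 e (h.po N (mem_sdiff.1 k).1 he)).1 a)) (y6 N k he)⟩⟩)
      inter_subset_left (fun e a b => y4 ((k2 e a).1 b)) (two_Y hc hC n1 y1 y2 ?_) hOA hO hφ
      fun W hW => ?_⟩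
  · rcases mem_union.1 a with a | a <;> rcases mem_union.1 b with b | b
    exacts [h.pd N (mem_union_right _ a) N' (mem_union_right _ b) hne,
      ((t3' N a).1.po (Or.inr ((h.dg N').1 (hH b)))).symm,
      (t3' N' b).1.po (Or.inr ((h.dg N).1 (hH a))), h.pdd hc N (hH a) N' (hH b) hne]
  · by_cases k : G.Pt v
    · rcases k with k | ⟨N, b, c⟩
      · exact Or.inr (Or.inr k)
      · by_cases q : N ∈ Hh
        · exact Or.inr (Or.inl ⟨N, mem_union_right _ q, c⟩)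
        · exact Or.inl (hY ▸ mem_union_right _
            (mem_biUnion.2 ⟨N, mem_sdiff.2 ⟨(h.dg N).2 b, q⟩, c⟩))
    · exact (h.cov v a k).imp (@hU v) fun ⟨T, b, c⟩ => Or.inl ⟨T, mem_union_left _ b, c⟩
  · obtain ⟨a, a1, a2⟩ := s3.2 N k
    obtain ⟨b, b1, b2⟩ := s3.1 N (mem_union_left _ k)
    exact ⟨(h.dg N).1 (hH k), fun e he => (k2 e (h.po N (hH k) he)).2 (mem_biUnion.2 ⟨N, k, he⟩),
      fun e he => cut_sub_tch (y4 (mem_biUnion.2 ⟨N, k, he⟩)), ⟨a, a1, (k4 N k a a1).trans a2⟩,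
      b, b1, (k4 N k b b1).trans_ne b2⟩
  · obtain ⟨N, c, d⟩ := mem_biUnion.1 ((k2 e a).1 b)
    have p := (h.dg N).1 (hH c)
    exact disjoint_left.1 (n5 _ N (Or.inl ⟨l, k, rfl⟩) (Or.inr p)
      fun q => Def6_lv hc k p (q ▸ mem_singleton_self l)) he d
  · obtain ⟨T', c, d⟩ := mem_biUnion.1 (mem_inter.1 a).2
    exact disjoint_left.1 (h.tn T' c) d (h.ex T k).2
  · obtain ⟨a, e, b1, b2, b3⟩ := s5 T k
    refine ⟨fun S c d => ?_, _, (h.ex T k).1, eD (h.ex T k).2, e, b1, b2, k3 _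
      (singleton_subset_iff.2 (hT T k (ie_mem (cut_sub_tch (h.ex T k).1)))) e b1 b3⟩
    obtain ⟨f, p, q⟩ := a S c d
    exact ⟨f, p, k3 S (c.trans (hT T k)) f p q⟩
  · obtain ⟨T, c⟩ := h.ne
    rcases mem_union.1 c with c | c
    · obtain ⟨N, p, q⟩ := mem_biUnion.1 (h.ex T c).2
      by_cases k : N ∈ Hh
      · have r := ie_mem (cut_sub_tch q)
        exact Or.inl ⟨_, (SpFin_two ((h.dg N).1 p)).2.2 r,
          disjoint_left.1 (y3 N (mem_union_right _ k)) r, fun z => Def6_lv hc z ((h.dg N).1 p) r⟩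
      · exact Or.inr ⟨_, br N (mem_sdiff.2 ⟨p, k⟩) _ q⟩
    · obtain ⟨z, d⟩ := (t3' T c).2.1.ne
      exact Or.inl ⟨z, ((t3' T c).1 z d).1, disjoint_left.1 (y3 T (mem_union_left _ c)) d,
        fun q => ((t3' T c).1 z d).2 (Or.inl q)⟩
  · obtain ⟨r1, r2, r3⟩ := f5 O' hOA hO (ext fun e => by
      rw [mem_inter]
      exact ⟨fun k => (k2 e (y5 k.2)).1 k.1, fun k => ⟨(k2 e (y5 (y4 k))).2 k, y4 k⟩⟩) W hW
    refine ⟨R W, r1, r2, fun S a b c d f => ?_⟩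
    obtain ⟨e, p, q⟩ := s4 S (r3 S a b c d f)
    exact ⟨e, p, k3 S (a.trans subset_union_left) e p q⟩

/-- the base case with three-sides -/
theorem top_l (hc : G.Cub) : G.TopL := fun hA hC n1 n2 n3 n5 n7 n8 hT => by
  obtain ⟨W0, Td, TN, D, ex, h⟩ := ts_exists hc hC n1 n2 n3 n5 hT
  obtain ⟨Y, Hh, O, φ, hF⟩ := fs_exists hc hC n1 n5 n7 n8 (p_res hc) h
  exact fs_six hc hA.1 hC n1 hF

end SG

end Pool.Agent.Work.MP_8c679b_co
end
end
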